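import Mathlib

set_option autoImplicit false

/-!
# Linear forms in polynomial rings
-/

namespace Pool.Agent.V1148

open MvPolynomial

variable {K : Type*} [Field K] {n : ℕ}

/-- The linear form `∑ j, a j * X j`. -/
noncomputable def lin (a : Fin n → K) : MvPolynomial (Fin n) K := ∑ j, C (a j) * X j

theorem lin_smul (c : K) (a : Fin n → K) : lin (c • a) = C c * lin a := by
  simp [lin, Finset.mul_sum, mul_assoc]

theorem lin_add (a b : Fin n → K) : lin (a + b) = lin a + lin b := by
  simp [lin, Finset.sum_add_distrib, add_mul]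

theorem lin_sub (a b : Fin n → K) : lin (a - b) = lin a - lin b := by
  simp [lin, Finset.sum_sub_distrib, sub_mul]

theorem coeff_lin (a : Fin n → K) (i : Fin n) :
    coeff (Finsupp.single i 1) (lin a) = a i := by
  classical
  simp only [lin, coeff_sum, coeff_C_mul]
  rw [Finset.sum_eq_single i]
  · simp
  · intro j _ hj
    have : coeff (Finsupp.single i 1) (X j : MvPolynomial (Fin n) K) = 0 := by
      rw [coeff_X', if_neg]
      intro h
      exact hj (Finsupp.single_left_injective one_ne_zero h)
    rw [this, mul_zero]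
  · simp

theorem lin_eq_zero_iff (a : Fin n → K) : lin a = 0 ↔ a = 0 := by
  constructor
  · intro h
    funext i
    have := coeff_lin a i
    rw [h] at this
    simpa using this.symm
  · rintro rfl
    simp [lin]

theorem lin_isHomogeneous (a : Fin n → K) : (lin a).IsHomogeneous 1 := by
  unfold lin
  apply IsHomogeneous.sum
  intro i _
  have h1 : (C (a i) : MvPolynomial (Fin n) K).IsHomogeneous 0 := isHomogeneous_C _ _
  have h2 : (X i : MvPolynomial (Fin n) K).IsHomogeneous 1 := isHomogeneous_X _ _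
  simpa using h1.mul h2

/-- Restriction to the hyperplane `lin a = 0`, solving for the variable `X i`. -/
noncomputable def res (a : Fin n → K) (i : Fin n) :
    MvPolynomial (Fin n) K →ₐ[K] MvPolynomial (Fin n) K :=
  aeval (fun j => if j = i then X i - C ((a i)⁻¹) * lin a else X j)

theorem res_X_self (a : Fin n → K) (i : Fin n) :
    res a i (X i) = X i - C ((a i)⁻¹) * lin a := by
  simp [res]

theorem res_X_of_ne (a : Fin n → K) {i j : Fin n} (h : j ≠ i) :
    res a i (X j) = X j := by
  simp [res, h]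

theorem dvd_sub_res (a : Fin n → K) (i : Fin n) (F : MvPolynomial (Fin n) K) :
    lin a ∣ F - res a i F := by
  rw [← Ideal.mem_span_singleton, ← Ideal.Quotient.eq]
  have h : (Ideal.Quotient.mkₐ K (Ideal.span {lin a})) =
      (Ideal.Quotient.mkₐ K (Ideal.span {lin a})).comp (res a i) := by
    apply MvPolynomial.algHom_ext
    intro j
    rw [AlgHom.comp_apply]
    by_cases hj : j = i
    · subst hj
      rw [res_X_self]
      change Ideal.Quotient.mk _ _ = Ideal.Quotient.mk _ _
      rw [Ideal.Quotient.eq, Ideal.mem_span_singleton]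
      exact ⟨C ((a j)⁻¹), by ring⟩
    · rw [res_X_of_ne a hj]
  exact congrArg (fun f => f F) h

theorem res_lin (a b : Fin n → K) (i : Fin n) :
    res a i (lin b) = lin (b - (b i * (a i)⁻¹) • a) := by
  rw [lin_sub, lin_smul]
  conv_lhs => rw [lin, map_sum]
  have : ∀ j, res a i (C (b j) * X j) =
      C (b j) * X j - (if j = i then C (b i) * (C ((a i)⁻¹) * lin a) else 0) := by
    intro j
    rw [map_mul]
    have hC : res a i (C (b j)) = C (b j) := by
      rw [← MvPolynomial.algebraMap_eq]
      exact AlgHom.commutes _ _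
    rw [hC]
    by_cases hj : j = i
    · subst hj
      rw [res_X_self, if_pos rfl]
      ring
    · rw [res_X_of_ne a hj, if_neg hj, sub_zero]
  simp only [this]
  rw [Finset.sum_sub_distrib, Finset.sum_ite_eq' Finset.univ i, if_pos (Finset.mem_univ i),
    C_mul, mul_assoc]
  rfl

theorem lin_dvd_iff {a : Fin n → K} {i : Fin n} (hi : a i ≠ 0) (F : MvPolynomial (Fin n) K) :
    lin a ∣ F ↔ res a i F = 0 := by
  have h0 : res a i (lin a) = 0 := by
    rw [res_lin, mul_inv_cancel₀ hi, one_smul, sub_self]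
    exact (lin_eq_zero_iff _).2 rfl
  constructor
  · rintro ⟨q, rfl⟩
    rw [map_mul, h0, zero_mul]
  · intro h
    have := dvd_sub_res a i F
    rwa [h, sub_zero] at this

theorem lin_prime {a : Fin n → K} (ha : a ≠ 0) : Prime (lin a) := by
  obtain ⟨i, hi⟩ := Function.ne_iff.1 ha
  have hi' : a i ≠ 0 := hi
  refine ⟨fun h => ha ((lin_eq_zero_iff a).1 h), fun h => ?_, fun F G h => ?_⟩
  · have h1 := h.map (res a i)
    rw [(lin_dvd_iff hi' _).1 dvd_rfl] at h1
    exact not_isUnit_zero h1
  · rw [lin_dvd_iff hi'] at h ⊢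
    rw [lin_dvd_iff hi']
    rw [map_mul] at h
    exact mul_eq_zero.1 h

theorem lin_dvd_lin_iff {a b : Fin n → K} (ha : a ≠ 0) : lin a ∣ lin b ↔ ∃ c : K, b = c • a := by
  obtain ⟨i, hi⟩ := Function.ne_iff.1 ha
  have hi' : a i ≠ 0 := hi
  rw [lin_dvd_iff hi', res_lin, lin_eq_zero_iff, sub_eq_zero]
  constructor
  · intro h
    exact ⟨_, h⟩
  · rintro ⟨c, rfl⟩
    simp [hi']

theorem lin_isRelPrime {a b : Fin n → K} (ha : a ≠ 0) (hb : b ≠ 0)
    (hab : ∀ c : K, b ≠ c • a) : IsRelPrime (lin a) (lin b) := by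
  have hp := lin_prime ha
  rw [hp.irreducible.isRelPrime_iff_not_dvd]
  intro h
  obtain ⟨c, hc⟩ := (lin_dvd_lin_iff ha).1 h
  exact hab c hc

end Pool.Agent.V1148
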