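import Mathlib
import Pool.Agent.V1148.LinForm

set_option autoImplicit false

/-!
# Hyperplane arrangements: definitions
-/

namespace Pool.Agent.V1148

open MvPolynomial

variable {K : Type*} [Field K] {l n : ℕ}

/-- The hyperplane `{x | ∑ j, a j * x j = 0}` of `K^l`. -/
def hyper (a : Fin l → K) : Submodule K (Fin l → K) where
  carrier := {x | ∑ j, a j * x j = 0}
  add_mem' := by
    intro x y hx hy
    simp only [Set.mem_setOf_eq, Pi.add_apply, mul_add, Finset.sum_add_distrib] at *
    rw [hx, hy, add_zero]
  zero_mem' := by simp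
  smul_mem' := by
    intro c x hx
    simp only [Set.mem_setOf_eq, Pi.smul_apply, smul_eq_mul] at *
    have : ∀ j, a j * (c * x j) = c * (a j * x j) := fun j => by ring
    simp only [this, ← Finset.mul_sum, hx, mul_zero]

theorem mem_hyper {a x : Fin l → K} : x ∈ hyper a ↔ ∑ j, a j * x j = 0 := Iff.rfl

/-- `A` lists the coefficient vectors of the defining linear forms of `n` distinct linear
hyperplanes of `K^l`. -/
def IsArrangement (A : Fin n → Fin l → K) : Prop :=
  (∀ i, A i ≠ 0) ∧ Function.Injective fun i => hyper (A i)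

/-- The arrangement is essential: the intersection of all its hyperplanes is zero. -/
def IsEssential (A : Fin n → Fin l → K) : Prop := ⨅ i, hyper (A i) = ⊥

/-- The set of all intersections of subfamilies of the hyperplanes (the empty intersection
is the whole space). -/
def intersections (A : Fin n → Fin l → K) : Set (Submodule K (Fin l → K)) :=
  {W | ∃ s : Set (Fin n), W = ⨅ i ∈ s, hyper (A i)}

/-- The intersection lattice: all intersections of subfamilies, ordered by reverse inclusion. -/
abbrev IntersectionLattice (A : Fin n → Fin l → K) : Type _ := (↥(intersections A))ᵒᵈ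

/-- The module `D(A)` of logarithmic derivations: the `K`-linear derivations `θ` of the polynomial
ring `S` with `θ(α) ∈ α S` for each of the defining linear forms `α` of `A`. -/
noncomputable def logDer (A : Fin n → Fin l → K) :
    Submodule (MvPolynomial (Fin l) K)
      (Derivation K (MvPolynomial (Fin l) K) (MvPolynomial (Fin l) K)) where
  carrier := {θ | ∀ i, lin (A i) ∣ θ (lin (A i))}
  add_mem' := fun {θ η} hθ hη i => by
    rw [Derivation.add_apply]
    exact dvd_add (hθ i) (hη i)
  zero_mem' := fun i => by rw [Derivation.zero_apply]; exact dvd_zero _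
  smul_mem' := fun r θ hθ i => by
    rw [Derivation.smul_apply, smul_eq_mul]
    exact dvd_mul_of_dvd_right (hθ i) r

/-- `θ = ∑ f_i ∂_i` is homogeneous of degree `p`: every coefficient `f_i = θ(x_i)` is a form of
degree `p` (or zero). -/
def IsHomogDer (θ : Derivation K (MvPolynomial (Fin l) K) (MvPolynomial (Fin l) K)) (p : ℕ) :
    Prop :=
  ∀ i, (θ (X i)).IsHomogeneous p

/-- `θ_1, …, θ_l, φ` (homogeneous of degrees `d_1, …, d_l, e`) together with the single relation
`∑ f_i θ_i + α φ = 0` form a minimal graded free resolution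
`0 → S[-e-1] → S[-e] ⊕ ⨁ S[-d_i] → D(A) → 0` of `D(A)`, where `α` is a linear form (possibly zero)
and `f_i` is a form of degree `e + 1 - d_i` (zero if this number is negative). -/
structure IsPOGResolution (A : Fin n → Fin l → K) (d : Fin l → ℕ) (e : ℕ)
    (θ : Fin l → Derivation K (MvPolynomial (Fin l) K) (MvPolynomial (Fin l) K))
    (φ : Derivation K (MvPolynomial (Fin l) K) (MvPolynomial (Fin l) K))
    (f : Fin l → MvPolynomial (Fin l) K) (α : MvPolynomial (Fin l) K) : Prop where
  /-- the generators are homogeneous of the stated degrees -/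
  homog : ∀ i, IsHomogDer (θ i) (d i)
  homog' : IsHomogDer φ e
  /-- surjectivity onto `D(A)` -/
  span_eq : Submodule.span (MvPolynomial (Fin l) K) (insert φ (Set.range θ)) = logDer A
  /-- the entries of the relation are homogeneous -/
  homog_f : ∀ i, (f i).IsHomogeneous (e + 1 - d i) ∧ (e + 1 < d i → f i = 0)
  homog_α : α.IsHomogeneous 1
  /-- minimality: the entries of the relation lie in the maximal homogeneous ideal -/
  minimal_f : ∀ i, constantCoeff (f i) = 0
  /-- injectivity of `S[-e-1] → S[-e] ⊕ ⨁ S[-d_i]` -/
  ne_zero : ¬ (α = 0 ∧ ∀ i, f i = 0)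
  /-- exactness in the middle -/
  exact : ∀ (c : Fin l → MvPolynomial (Fin l) K) (c' : MvPolynomial (Fin l) K),
    (∑ i, c i • θ i) + c' • φ = 0 ↔ ∃ s, (∀ i, c i = s * f i) ∧ c' = s * α

/-- `A` is plus-one generated with exponents `(d_1, …, d_l)` and level `e`. -/
def IsPOG (A : Fin n → Fin l → K) (d : Fin l → ℕ) (e : ℕ) : Prop :=
  ∃ θ φ f α, IsPOGResolution A d e θ φ f α

/-- `A` is strictly plus-one generated with exponents `(d_1, …, d_l)` and level `e`. -/
def IsStrictlyPOG (A : Fin n → Fin l → K) (d : Fin l → ℕ) (e : ℕ) : Prop :=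
  ∃ θ φ f α, IsPOGResolution A d e θ φ f α ∧ α ≠ 0

end Pool.Agent.V1148
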