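import Mathlib
import Pool.Agent.V1148.ArrDefs

set_option autoImplicit false

/-!
# Homogeneous components and numbers of generators
-/

namespace Pool.Agent.V1148

open MvPolynomial

variable {K : Type*} [Field K] {σ : Type*}

theorem homogeneousComponent_mul_right {k : ℕ} {q : MvPolynomial σ K} (hq : q.IsHomogeneous k)
    (p : MvPolynomial σ K) (n : ℕ) :
    homogeneousComponent n (p * q) =
      if k ≤ n then homogeneousComponent (n - k) p * q else 0 := by
  have hmem : ∀ m, homogeneousComponent m p * q ∈ homogeneousSubmodule σ K (m + k) := by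
    intro m
    exact (homogeneousComponent_isHomogeneous m p).mul hq
  conv_lhs => rw [← sum_homogeneousComponent p, Finset.sum_mul, map_sum]
  have h1 : ∀ m, homogeneousComponent n (homogeneousComponent m p * q) =
      if m + k = n then homogeneousComponent m p * q else 0 := by
    intro m
    rw [homogeneousComponent_of_mem (hmem m)]
    simp only [eq_comm]
  simp only [h1]
  split_ifs with hk
  · by_cases hm : n - k ∈ Finset.range (p.totalDegree + 1)
    · rw [Finset.sum_eq_single_of_mem (n - k) hm]
      · rw [if_pos (Nat.sub_add_cancel hk)]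
      · intro m _ hm'
        rw [if_neg]
        intro h
        apply hm'
        omega
    · rw [Finset.sum_eq_zero]
      · rw [homogeneousComponent_eq_zero, zero_mul]
        simp only [Finset.mem_range] at hm
        omega
      · intro m hm'
        rw [if_neg]
        intro h
        apply hm
        have : m = n - k := by omega
        rw [← this]
        exact hm'
  · apply Finset.sum_eq_zero
    intro m _
    rw [if_neg]
    omega

theorem isHomogeneous_of_mul_right {n k : ℕ} {p q : MvPolynomial σ K} (hq : q.IsHomogeneous k)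
    (hq0 : q ≠ 0) (hpq : (p * q).IsHomogeneous n) (hk : k ≤ n) : p.IsHomogeneous (n - k) := by
  have h := homogeneousComponent_mul_right hq p n
  rw [if_pos hk, homogeneousComponent_eq_self hpq] at h
  have h2 := mul_right_cancel₀ hq0 h
  rw [h2]
  exact homogeneousComponent_isHomogeneous _ _

theorem eq_zero_of_mul_right {n k : ℕ} {p q : MvPolynomial σ K} (hq : q.IsHomogeneous k)
    (hq0 : q ≠ 0) (hpq : (p * q).IsHomogeneous n) (hk : n < k) : p = 0 := by
  have h := homogeneousComponent_mul_right hq p n
  rw [if_neg (by omega), homogeneousComponent_eq_self hpq] at h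
  rcases mul_eq_zero.1 h with h | h
  · exact h
  · exact absurd h hq0

theorem eq_zero_of_dvd_of_lt {n k : ℕ} {p q : MvPolynomial σ K} (hq : q.IsHomogeneous k)
    (hp : p.IsHomogeneous n) (h : q ∣ p) (hk : n < k) : p = 0 := by
  obtain ⟨s, rfl⟩ := h
  by_cases hq0 : q = 0
  · rw [hq0, zero_mul]
  rw [mul_comm] at hp
  rw [eq_zero_of_mul_right hq hq0 hp hk, mul_zero]

variable {l m : ℕ}

theorem der_ext' {θ η : Derivation K (MvPolynomial (Fin l) K) (MvPolynomial (Fin l) K)}
    (h : ∀ i, θ (X i) = η (X i)) : θ = η := by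
  apply MvPolynomial.derivation_ext
  exact h

theorem sum_der_apply (s : Fin m → MvPolynomial (Fin l) K)
    (η : Fin m → Derivation K (MvPolynomial (Fin l) K) (MvPolynomial (Fin l) K))
    (x : MvPolynomial (Fin l) K) :
    (∑ i, s i • η i) x = ∑ i, s i * η i x := by
  have := map_sum (Derivation.coeFnAddMonoidHom (R := K) (A := MvPolynomial (Fin l) K)
    (M := MvPolynomial (Fin l) K)) (fun i => s i • η i) Finset.univ
  have h2 := congrFun this x
  simp only [Finset.sum_apply] at h2
  exact h2

theorem der_sub_smul (x y : MvPolynomial (Fin l) K)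
    (z : Derivation K (MvPolynomial (Fin l) K) (MvPolynomial (Fin l) K)) :
    x • z - y • z = (x - y) • z := by
  apply der_ext'
  intro i
  simp [sub_mul]

theorem homog_expand {η : Fin m → Derivation K (MvPolynomial (Fin l) K) (MvPolynomial (Fin l) K)}
    {p : Fin m → ℕ} (hη : ∀ i, IsHomogDer (η i) (p i))
    {θ : Derivation K (MvPolynomial (Fin l) K) (MvPolynomial (Fin l) K)} {q : ℕ}
    (hθ : IsHomogDer θ q) (hmem : θ ∈ Submodule.span (MvPolynomial (Fin l) K) (Set.range η)) :
    ∃ s : Fin m → MvPolynomial (Fin l) K,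
      θ = ∑ i, (if p i ≤ q then homogeneousComponent (q - p i) (s i) else 0) • η i := by
  obtain ⟨s, hs⟩ := (Submodule.mem_span_range_iff_exists_fun _).1 hmem
  refine ⟨s, der_ext' fun j => ?_⟩
  have h1 : θ (X j) = homogeneousComponent q (θ (X j)) :=
    (homogeneousComponent_eq_self (hθ j)).symm
  rw [h1, ← hs, sum_der_apply, map_sum, sum_der_apply]
  apply Finset.sum_congr rfl
  intro i _
  rw [homogeneousComponent_mul_right (hη i j)]
  split_ifs
  · rfl
  · rw [zero_mul]

theorem too_few_generators
    (D : Submodule (MvPolynomial (Fin l) K)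
      (Derivation K (MvPolynomial (Fin l) K) (MvPolynomial (Fin l) K)))
    (E : Derivation K (MvPolynomial (Fin l) K) (MvPolynomial (Fin l) K)) (r : ℕ) (hr : 1 < r)
    (hE : E ∈ D) (hE0 : E ≠ 0) (hE1 : IsHomogDer E 1)
    (hlow : ∀ θ ∈ D, ∀ p < r, IsHomogDer θ p → θ ∈ Submodule.span (MvPolynomial (Fin l) K) {E})
    (ψ : Fin m → Derivation K (MvPolynomial (Fin l) K) (MvPolynomial (Fin l) K))
    (hψ : ∀ k, ψ k ∈ D) (hψh : ∀ k, IsHomogDer (ψ k) r)
    (hind : ∀ a : Fin m → K, ∑ k, (C (a k) : MvPolynomial (Fin l) K) • ψ k ∈ Submodule.span (MvPolynomial (Fin l) K) {E} →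
      a = 0)
    (η : Fin m → Derivation K (MvPolynomial (Fin l) K) (MvPolynomial (Fin l) K)) (p : Fin m → ℕ)
    (hη : ∀ i, IsHomogDer (η i) (p i))
    (hspan : Submodule.span (MvPolynomial (Fin l) K) (Set.range η) = D) : False := by
  classical
  have hηD : ∀ i, η i ∈ D := fun i => hspan ▸ Submodule.subset_span ⟨i, rfl⟩
  -- a generator of degree at most one
  obtain ⟨i0, hi0⟩ : ∃ i0, p i0 ≤ 1 := by
    by_contra hcon
    push Not at hcon
    obtain ⟨s, hs⟩ := homog_expand hη hE1 (hspan.symm ▸ hE)
    apply hE0
    rw [hs]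
    apply Finset.sum_eq_zero
    intro i _
    rw [if_neg (by have := hcon i; omega), zero_smul]
  have hηi0 : η i0 ∈ Submodule.span (MvPolynomial (Fin l) K) {E} :=
    hlow _ (hηD i0) (p i0) (by omega) (hη i0)
  choose s hs using fun k => homog_expand hη (hψh k) (hspan.symm ▸ hψ k)
  let c : Fin m → Fin m → K := fun k i =>
    if i = i0 then 0 else if p i = r then coeff 0 (s k i) else 0
  have hdiff : ∀ k, ψ k - ∑ i, (C (c k i) : MvPolynomial (Fin l) K) • η i ∈ Submodule.span (MvPolynomial (Fin l) K) {E} := by
    intro k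
    rw [hs k, ← Finset.sum_sub_distrib]
    apply Submodule.sum_mem
    intro i _
    rw [der_sub_smul]
    by_cases hi : i = i0
    · subst hi
      exact Submodule.smul_mem _ _ hηi0
    rcases lt_trichotomy (p i) r with hlt | heq | hgt
    · exact Submodule.smul_mem _ _ (hlow _ (hηD i) _ hlt (hη i))
    · simp only [c, if_neg hi, if_pos heq, heq, le_refl, if_true, Nat.sub_self,
        homogeneousComponent_zero, sub_self, zero_smul]
      exact Submodule.zero_mem _
    · have h1 : ¬ p i ≤ r := by omega
      have h2 : p i ≠ r := by omega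
      simp only [c, if_neg hi, if_neg h1, if_neg h2, map_zero, sub_self, zero_smul]
      exact Submodule.zero_mem _
  have hdet : (Matrix.of c).det = 0 := by
    apply Matrix.det_eq_zero_of_column_eq_zero i0
    intro k
    simp [c]
  obtain ⟨a, ha0, ha⟩ := Matrix.exists_vecMul_eq_zero_iff.2 hdet
  apply ha0
  apply hind
  have hsum : ∑ k, (C (a k) : MvPolynomial (Fin l) K) • ψ k = ∑ k, (C (a k) : MvPolynomial (Fin l) K) • (ψ k - ∑ i, (C (c k i) : MvPolynomial (Fin l) K) • η i) := by
    simp only [smul_sub, Finset.sum_sub_distrib]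
    rw [eq_comm, sub_eq_self]
    simp only [Finset.smul_sum, smul_smul, ← C_mul]
    rw [Finset.sum_comm]
    apply Finset.sum_eq_zero
    intro i _
    rw [← Finset.sum_smul, ← map_sum]
    have := congrFun ha i
    simp only [Matrix.vecMul, dotProduct, Pi.zero_apply, Matrix.of_apply] at this
    rw [this, map_zero, zero_smul]
  rw [hsum]
  apply Submodule.sum_mem
  intro k _
  exact Submodule.smul_mem _ _ (hdiff k)

end Pool.Agent.V1148
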