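import Mathlib

set_option autoImplicit false

/-!
# Families of vectors that stay independent modulo all primes
-/

namespace Pool.Agent.V1148.Prim

variable {S : Type*} [CommRing S] {r N : ℕ}

/-- `p` is zero in a domain or a prime element: divisibility by `p` is a prime condition. -/
def PL (p : S) : Prop := ¬ p ∣ 1 ∧ ∀ x y, p ∣ x * y → p ∣ x ∨ p ∣ y

theorem PL_of_prime {p : S} (hp : Prime p) : PL p :=
  ⟨fun h => hp.not_isUnit (isUnit_of_dvd_one h), fun _ _ h => hp.dvd_or_dvd h⟩

theorem PL_zero [IsDomain S] : PL (0 : S) := by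
  refine ⟨fun h => one_ne_zero (zero_dvd_iff.1 h), fun x y h => ?_⟩
  rw [zero_dvd_iff] at *
  rw [zero_dvd_iff]
  exact mul_eq_zero.1 h

/-- `w` is dependent on `v` modulo `p`. -/
def NN (p : S) (v : Fin r → Fin N → S) (w : Fin N → S) : Prop :=
  ∃ b, ¬ p ∣ b ∧ ∃ a : Fin r → S, ∀ j, p ∣ b * w j - ∑ i, a i * v i j

/-- `v` is independent modulo `p`. -/
def Prim (p : S) (v : Fin r → Fin N → S) : Prop :=
  ∀ a : Fin r → S, (∀ j, p ∣ ∑ i, a i * v i j) → ∀ i, p ∣ a i

theorem NN_zero {p : S} (hp : PL p) (v : Fin r → Fin N → S) : NN p v 0 :=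
  ⟨1, hp.1, 0, fun j => by simp⟩

theorem NN_add {p : S} (hp : PL p) {v : Fin r → Fin N → S} {w w' : Fin N → S}
    (h : NN p v w) (h' : NN p v w') : NN p v (w + w') := by
  obtain ⟨b, hb, a, ha⟩ := h
  obtain ⟨b', hb', a', ha'⟩ := h'
  refine ⟨b * b', fun h => (hp.2 _ _ h).elim hb hb', fun i => b' * a i + b * a' i, fun j => ?_⟩
  have e : b * b' * (w + w') j - ∑ i, (b' * a i + b * a' i) * v i j =
      b' * (b * w j - ∑ i, a i * v i j) + b * (b' * w' j - ∑ i, a' i * v i j) := by
    simp only [add_mul, Finset.sum_add_distrib, Pi.add_apply, mul_sub, Finset.mul_sum, mul_assoc]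
    ring
  rw [e]
  exact dvd_add (dvd_mul_of_dvd_right (ha j) _) (dvd_mul_of_dvd_right (ha' j) _)

theorem NN_smul {p : S} {v : Fin r → Fin N → S} {w : Fin N → S}
    (h : NN p v w) (c : S) : NN p v (c • w) := by
  obtain ⟨b, hb, a, ha⟩ := h
  refine ⟨b, hb, fun i => c * a i, fun j => ?_⟩
  have e : b * (c • w) j - ∑ i, c * a i * v i j = c * (b * w j - ∑ i, a i * v i j) := by
    simp only [mul_sub, Finset.mul_sum, mul_assoc, Pi.smul_apply, smul_eq_mul]
    ring
  rw [e]
  exact dvd_mul_of_dvd_right (ha j) _

theorem NN_cancel {p : S} (hp : PL p) {v : Fin r → Fin N → S} {w : Fin N → S} {c : S}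
    (hc : ¬ p ∣ c) (h : NN p v (c • w)) : NN p v w := by
  obtain ⟨b, hb, a, ha⟩ := h
  refine ⟨b * c, fun h => (hp.2 _ _ h).elim hb hc, a, fun j => ?_⟩
  have := ha j
  rwa [Pi.smul_apply, smul_eq_mul, ← mul_assoc] at this

theorem NN_self {p : S} (hp : PL p) (v : Fin r → Fin N → S) (i : Fin r) : NN p v (v i) := by
  refine ⟨1, hp.1, Pi.single i 1, fun j => ?_⟩
  have e : ∑ k, (Pi.single i 1 : Fin r → S) k * v k j = v i j := by
    rw [Finset.sum_eq_single i]
    · simp
    · intro k _ hk
      simp [Pi.single_eq_of_ne hk]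
    · simp
  rw [e, one_mul, sub_self]
  exact dvd_zero _

theorem NN_cons {p : S} {v : Fin r → Fin N → S} {w u : Fin N → S} (h : NN p v w) :
    NN p (Fin.cons u v : Fin (r + 1) → Fin N → S) w := by
  obtain ⟨b, hb, a, ha⟩ := h
  refine ⟨b, hb, Fin.cons 0 a, fun j => ?_⟩
  rw [Fin.sum_univ_succ]
  simpa using ha j

theorem NN_cons_self {p : S} (hp : PL p) (v : Fin r → Fin N → S) (u : Fin N → S) :
    NN p (Fin.cons u v : Fin (r + 1) → Fin N → S) u := by
  have := NN_self hp (Fin.cons u v : Fin (r + 1) → Fin N → S) 0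
  simpa using this

theorem NN_congr {p q : S} (h : ∀ x, p ∣ x ↔ q ∣ x) {v : Fin r → Fin N → S} {w : Fin N → S}
    (hw : NN p v w) : NN q v w := by
  obtain ⟨b, hb, a, ha⟩ := hw
  exact ⟨b, fun h' => hb ((h _).2 h'), a, fun j => (h _).1 (ha j)⟩

theorem Prim_congr {p q : S} (h : ∀ x, p ∣ x ↔ q ∣ x) {v : Fin r → Fin N → S}
    (hw : Prim p v) : Prim q v := by
  intro a ha i
  exact (h _).1 (hw a (fun j => (h _).2 (ha j)) i)

theorem Prim_cons {p : S} {v : Fin r → Fin N → S} (hv : Prim p v) {w : Fin N → S}
    (hw : ¬ NN p v w) : Prim p (Fin.cons w v : Fin (r + 1) → Fin N → S) := by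
  intro a ha
  have ha' : ∀ j, p ∣ a 0 * w j + ∑ i, a (Fin.succ i) * v i j := by
    intro j
    have := ha j
    rw [Fin.sum_univ_succ] at this
    simpa using this
  have h0 : p ∣ a 0 := by
    by_contra hne
    apply hw
    refine ⟨a 0, hne, fun i => -a (Fin.succ i), fun j => ?_⟩
    simpa [Finset.sum_neg_distrib] using ha' j
  have h1 : ∀ j, p ∣ ∑ i, a (Fin.succ i) * v i j := by
    intro j
    have h2 := dvd_sub (ha' j) (dvd_mul_of_dvd_left h0 (w j))
    simpa using h2
  intro i
  refine Fin.cases h0 (fun i => ?_) i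
  exact hv _ h1 i

theorem Prim.tail {p : S} {v : Fin r → Fin N → S} {w : Fin N → S}
    (h : Prim p (Fin.cons w v : Fin (r + 1) → Fin N → S)) : Prim p v := by
  intro a ha i
  have := h (Fin.cons 0 a) (fun j => by
    rw [Fin.sum_univ_succ]
    simpa using ha j) i.succ
  simpa using this

theorem Prim.not_NN {p : S} {v : Fin r → Fin N → S} {w : Fin N → S}
    (h : Prim p (Fin.cons w v : Fin (r + 1) → Fin N → S)) : ¬ NN p v w := by
  rintro ⟨b, hb, a, ha⟩
  apply hb
  have := h (Fin.cons b (fun i => - a i)) (fun j => by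
    rw [Fin.sum_univ_succ]
    simpa [Finset.sum_neg_distrib, sub_eq_add_neg] using ha j) 0
  simpa using this

theorem NN_of_span {p : S} (hp : PL p) {v : Fin r → Fin N → S} {G : Set (Fin N → S)}
    (hG : ∀ g ∈ G, NN p v g) {w : Fin N → S} (hw : w ∈ Submodule.span S G) : NN p v w := by
  induction hw using Submodule.span_induction with
  | mem x hx => exact hG x hx
  | zero => exact NN_zero hp v
  | add x y _ _ hx hy => exact NN_add hp hx hy
  | smul c x _ hx => exact NN_smul hx c

/-- A family that is independent over a domain is independent modulo all primes not dividing some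
nonzero element. -/
theorem exists_bad [IsDomain S] {v : Fin r → Fin N → S} (hv : Prim 0 v) :
    ∃ Δ : S, Δ ≠ 0 ∧ ∀ p, PL p → ¬ p ∣ Δ → Prim p v := by
  classical
  let L := FractionRing S
  let φ := algebraMap S L
  have hφ : Function.Injective φ := IsFractionRing.injective S L
  let T : (Fin r → L) →ₗ[L] (Fin N → L) :=
    Fintype.linearCombination L (fun i j => φ (v i j))
  have hT : ∀ c j, T c j = ∑ i, c i * φ (v i j) := by
    intro c j
    simp only [T, Fintype.linearCombination_apply, Finset.sum_apply, Pi.smul_apply, smul_eq_mul]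
  have hinj : LinearMap.ker T = ⊥ := by
    rw [LinearMap.ker_eq_bot']
    intro c hc
    obtain ⟨b, hb⟩ := IsLocalization.exist_integer_multiples_of_finite (nonZeroDivisors S) c
    choose a ha using hb
    have hb0 : (b : S) ≠ 0 := nonZeroDivisors.ne_zero b.2
    have h1 : ∀ j, (0 : S) ∣ ∑ i, a i * v i j := by
      intro j
      rw [zero_dvd_iff]
      apply hφ
      rw [map_sum, map_zero]
      have h2 : ∑ i, φ (a i * v i j) = φ b * T c j := by
        rw [hT, Finset.mul_sum]
        apply Finset.sum_congr rfl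
        intro i _
        have h3 : φ (a i) = φ b * c i := by
          have := ha i
          rw [Algebra.smul_def] at this
          exact this
        rw [map_mul, h3]
        ring
      rw [h2, hc]
      simp
    have h2 := hv a h1
    funext i
    have h3 : φ (a i) = φ b * c i := by
      have := ha i
      rw [Algebra.smul_def] at this
      exact this
    rw [zero_dvd_iff.1 (h2 i), map_zero] at h3
    have h4 : φ b ≠ 0 := by
      intro h5
      apply hb0
      apply hφ
      rw [h5, map_zero]
    rcases mul_eq_zero.1 h3.symm with h5 | h5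
    · exact absurd h5 h4
    · exact h5
  obtain ⟨G, hG⟩ := T.exists_leftInverse_of_injective hinj
  let g : Fin N × Fin r → L := fun x => G (Pi.single x.1 1) x.2
  have hg : ∀ i l, ∑ j, φ (v i j) * g (j, l) = if l = i then 1 else 0 := by
    intro i l
    have h1 : G (T (Pi.single i 1)) = Pi.single i 1 := by
      have := LinearMap.congr_fun hG (Pi.single i 1)
      exact this
    have h2 : T (Pi.single i 1) = ∑ j, φ (v i j) • (Pi.single j (1 : L) : Fin N → L) := by
      funext j
      rw [hT, Finset.sum_eq_single i]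
      · rw [Finset.sum_apply, Finset.sum_eq_single j]
        · simp
        · intro k _ hk
          simp [hk.symm]
        · simp
      · intro k _ hk
        simp [Pi.single_eq_of_ne hk]
      · simp
    rw [h2, map_sum] at h1
    have h3 := congrFun h1 l
    rw [Finset.sum_apply] at h3
    simp only [map_smul, Pi.smul_apply, smul_eq_mul] at h3
    have h4 : (Pi.single i (1 : L) : Fin r → L) l = if l = i then 1 else 0 := by
      rw [Pi.single_apply]
    rw [h4] at h3
    exact h3
  obtain ⟨b, hb⟩ := IsLocalization.exist_integer_multiples_of_finite (nonZeroDivisors S) g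
  choose C hC using hb
  have hC' : ∀ x, φ (C x) = φ b * g x := by
    intro x
    have := hC x
    rw [Algebra.smul_def] at this
    exact this
  have key : ∀ i l, ∑ j, v i j * C (j, l) = if l = i then (b : S) else 0 := by
    intro i l
    apply hφ
    rw [map_sum]
    have h1 : ∑ j, φ (v i j * C (j, l)) = φ b * ∑ j, φ (v i j) * g (j, l) := by
      rw [Finset.mul_sum]
      apply Finset.sum_congr rfl
      intro j _
      rw [map_mul, hC']
      ring
    rw [h1, hg]
    split_ifs <;> simp
  refine ⟨b, nonZeroDivisors.ne_zero b.2, fun p hp hpb a ha l => ?_⟩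
  have h1 : p ∣ ∑ j, (∑ i, a i * v i j) * C (j, l) :=
    Finset.dvd_sum fun j _ => dvd_mul_of_dvd_left (ha j) _
  have h2 : ∑ j, (∑ i, a i * v i j) * C (j, l) = a l * b := by
    simp only [Finset.sum_mul]
    rw [Finset.sum_comm]
    have h3 : ∀ i, ∑ j, a i * v i j * C (j, l) = a i * (if l = i then (b : S) else 0) := by
      intro i
      rw [← key i l, Finset.mul_sum]
      apply Finset.sum_congr rfl
      intro j _
      ring
    simp only [h3]
    simp
  rw [h2] at h1
  exact (hp.2 _ _ h1).resolve_right hpb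

/-- Over an infinite field, finitely many proper affine subsets do not cover. -/
theorem avoid {K V ι : Type*} [Field K] [Infinite K] [AddCommGroup V] [Module K V]
    (s : Finset ι) (B : ι → V → Prop)
    (haff : ∀ i ∈ s, ∀ x y, B i x → B i y → ∀ t : K, B i (x + t • (y - x)))
    (hprop : ∀ i ∈ s, ∃ x, ¬ B i x) : ∃ x, ∀ i ∈ s, ¬ B i x := by
  classical
  induction s using Finset.induction_on with
  | empty => exact ⟨0, by simp⟩
  | insert a s ha ih =>
    obtain ⟨x, hx⟩ := ih (fun i hi => haff i (Finset.mem_insert_of_mem hi))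
      (fun i hi => hprop i (Finset.mem_insert_of_mem hi))
    obtain ⟨y, hy⟩ := hprop a (Finset.mem_insert_self _ _)
    let bad : Set K := ⋃ i ∈ insert a s, {t : K | B i (x + t • (y - x))}
    have hfin : bad.Finite := by
      apply Set.Finite.biUnion (Finset.finite_toSet _)
      intro i hi
      apply Set.Subsingleton.finite
      intro t1 h1 t2 h2
      by_contra hne
      have hline : ∀ t : K, B i (x + t • (y - x)) := by
        intro t
        have h3 := haff i hi _ _ h1 h2 ((t - t1) / (t2 - t1))
        have hd : t2 - t1 ≠ 0 := sub_ne_zero.2 (Ne.symm hne)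
        have e : x + t1 • (y - x) + ((t - t1) / (t2 - t1)) •
            (x + t2 • (y - x) - (x + t1 • (y - x))) = x + t • (y - x) := by
          have e1 : x + t2 • (y - x) - (x + t1 • (y - x)) = (t2 - t1) • (y - x) := by
            rw [sub_smul]
            abel
          rw [e1, smul_smul, div_mul_cancel₀ _ hd, add_assoc, ← add_smul]
          congr 2
          ring
        rw [e] at h3
        exact h3
      rcases Finset.mem_insert.1 hi with rfl | his
      · apply hy
        have := hline 1
        rwa [one_smul, add_sub_cancel] at this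
      · apply hx i his
        have := hline 0
        rwa [zero_smul, add_zero] at this
    obtain ⟨t, ht⟩ := hfin.infinite_compl.nonempty
    refine ⟨x + t • (y - x), fun i hi hB => ht ?_⟩
    exact Set.mem_biUnion hi hB

end Pool.Agent.V1148.Prim
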