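import Mathlib
import Pool.Agent.V1148.PrimFam
import Pool.Agent.V1148.Homog

set_option autoImplicit false

/-!
# Jacobian syzygies: choosing generators independent modulo all primes
-/

namespace Pool.Agent.V1148.Tame

open MvPolynomial Pool.Agent.V1148.Prim

variable {k : ℕ}

/-- The module of Jacobian syzygies `D_0(f)` of a polynomial in `k + 2` variables. -/
noncomputable def jacSyz (f : MvPolynomial (Fin (k + 2)) ℂ) :
    Submodule (MvPolynomial (Fin (k + 2)) ℂ) (Fin (k + 2) → MvPolynomial (Fin (k + 2)) ℂ) where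
  carrier := {a | ∑ j, a j * pderiv j f = 0}
  add_mem' := by
    intro a b ha hb
    simp only [Set.mem_ofPred_eq, Pi.add_apply, add_mul, Finset.sum_add_distrib] at *
    rw [ha, hb, add_zero]
  zero_mem' := by simp
  smul_mem' := by
    intro c a ha
    simp only [Set.mem_ofPred_eq, Pi.smul_apply, smul_eq_mul, mul_assoc] at *
    rw [← Finset.mul_sum, ha, mul_zero]

theorem mem_jacSyz {f : MvPolynomial (Fin (k + 2)) ℂ}
    {a : Fin (k + 2) → MvPolynomial (Fin (k + 2)) ℂ} :
    a ∈ jacSyz f ↔ ∑ j, a j * pderiv j f = 0 := Iff.rfl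

theorem totalDegree_pderiv_lt {p : MvPolynomial (Fin (k + 2)) ℂ} {j : Fin (k + 2)}
    (h : pderiv j p ≠ 0) : (pderiv j p).totalDegree < p.totalDegree := by
  have h1 : ∀ m ∈ (pderiv j p).support, (m.sum fun _ e => e) < p.totalDegree := by
    intro m hm
    rw [mem_support_iff, coeff_pderiv] at hm
    have h2 : coeff (m + Finsupp.single j 1) p ≠ 0 := by
      intro h3
      apply hm
      rw [h3]
      simp
    have h3 := le_totalDegree (mem_support_iff.2 h2)
    have h4 : ((m + Finsupp.single j 1).sum fun _ e => e) = (m.sum fun _ e => e) + 1 := by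
      rw [Finsupp.sum_add_index']
      · simp
      · intro _
        rfl
      · intro _ _ _
        rfl
    omega
  have h5 : 0 < p.totalDegree := by
    obtain ⟨m, hm⟩ := (support_nonempty).2 h
    exact lt_of_le_of_lt (Nat.zero_le _) (h1 m hm)
  rw [totalDegree, Finset.sup_lt_iff h5]
  exact h1

/-- For a reduced form no prime divides all partial derivatives. -/
theorem exists_not_dvd_of_prime {f : MvPolynomial (Fin (k + 2)) ℂ} {d : ℕ} (hd : 1 ≤ d)
    (hf : f.IsHomogeneous d) (hsq : Squarefree f) {p : MvPolynomial (Fin (k + 2)) ℂ}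
    (hp : Prime p) : ∃ j, ¬ p ∣ pderiv j f := by
  by_contra hcon
  push Not at hcon
  have hdu : IsUnit (d : MvPolynomial (Fin (k + 2)) ℂ) := by
    have : (d : MvPolynomial (Fin (k + 2)) ℂ) = C (d : ℂ) := (map_natCast C d).symm
    rw [this]
    apply IsUnit.map
    rw [isUnit_iff_ne_zero]
    exact_mod_cast (by omega : d ≠ 0)
  have hpf : p ∣ f := by
    have h1 := hf.sum_X_mul_pderiv
    rw [nsmul_eq_mul] at h1
    have h2 : p ∣ (d : MvPolynomial (Fin (k + 2)) ℂ) * f := by
      rw [← h1]
      exact Finset.dvd_sum fun j _ => dvd_mul_of_dvd_right (hcon j) _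
    exact (hdu.dvd_mul_left).1 h2
  obtain ⟨g, hg⟩ := hpf
  have hpg : ¬ p ∣ g := by
    rintro ⟨g', rfl⟩
    apply hp.not_isUnit
    apply hsq
    exact ⟨g', by rw [hg, mul_assoc]⟩
  have hz : ∀ j, pderiv j p = 0 := by
    intro j
    have h1 := hcon j
    rw [hg, pderiv_mul] at h1
    have h2 : p ∣ pderiv j p * g := by
      have := dvd_sub h1 (dvd_mul_right p (pderiv j g))
      simpa using this
    have h3 := (hp.dvd_or_dvd h2).resolve_right hpg
    by_contra hne
    obtain ⟨q, hq⟩ := h3
    have hq0 : q ≠ 0 := by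
      rintro rfl
      rw [mul_zero] at hq
      exact hne hq
    have h4 := totalDegree_pderiv_lt hne
    rw [hq, totalDegree_mul_of_isDomain hp.ne_zero hq0] at h4
    omega
  apply hp.not_isUnit
  have hconst : p = C (coeff 0 p) := by
    ext m
    rw [coeff_C]
    split_ifs with hm
    · rw [← hm]
    · obtain ⟨j, hj⟩ : ∃ j, m j ≠ 0 := by
        by_contra hcon2
        push Not at hcon2
        apply hm
        ext j
        rw [hcon2 j]
        rfl
      have h1 := congrArg (coeff (m - Finsupp.single j 1)) (hz j)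
      rw [coeff_pderiv, coeff_zero] at h1
      have h2 : m - Finsupp.single j 1 + Finsupp.single j 1 = m := by
        apply tsub_add_cancel_of_le
        rw [Finsupp.single_le_iff]
        omega
      rw [h2] at h1
      rcases mul_eq_zero.1 h1 with h3 | h3
      · exact h3
      · exfalso
        have h4 : (((m - Finsupp.single j 1 : Fin (k + 2) →₀ ℕ) j + 1 : ℕ) : ℂ) = 0 := by
          push_cast
          exact h3
        have h5 : (m - Finsupp.single j 1 : Fin (k + 2) →₀ ℕ) j + 1 = 0 := by exact_mod_cast h4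
        omega
  rw [hconst]
  apply IsUnit.map
  rw [isUnit_iff_ne_zero]
  intro h0
  rw [h0, C_0] at hconst
  exact hp.ne_zero hconst

theorem exists_not_dvd {f : MvPolynomial (Fin (k + 2)) ℂ} {d : ℕ} (hd : 1 ≤ d)
    (hf : f.IsHomogeneous d) (hsq : Squarefree f) {p : MvPolynomial (Fin (k + 2)) ℂ}
    (hp : PL p) : ∃ j, ¬ p ∣ pderiv j f := by
  by_cases h0 : p = 0
  · subst h0
    by_contra hcon
    push Not at hcon
    simp only [zero_dvd_iff] at hcon
    have h1 := hf.sum_X_mul_pderiv
    simp only [hcon, mul_zero, Finset.sum_const_zero] at h1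
    rw [nsmul_eq_mul] at h1
    rcases mul_eq_zero.1 h1.symm with h2 | h2
    · have h3 : (d : MvPolynomial (Fin (k + 2)) ℂ) = ((0 : ℕ) : MvPolynomial (Fin (k + 2)) ℂ) := by
        rw [h2]
        simp
      have h4 : d = 0 := by exact_mod_cast h3
      omega
    · exact hsq.ne_zero h2
  · exact exists_not_dvd_of_prime hd hf hsq ⟨h0, fun h => hp.1 (h.dvd), hp.2⟩

/-- The Jacobian syzygies have rank `k + 1` modulo `p`. -/
theorem exists_not_NN {f p : MvPolynomial (Fin (k + 2)) ℂ} (hp : PL p)
    (hj : ∃ j, ¬ p ∣ pderiv j f) {r : ℕ} (hr : r ≤ k)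
    (v : Fin r → Fin (k + 2) → MvPolynomial (Fin (k + 2)) ℂ) :
    ∃ w ∈ jacSyz f, ¬ NN p v w := by
  classical
  by_contra hcon
  push Not at hcon
  obtain ⟨i0, hi0⟩ := hj
  have hprime : (Ideal.span {p}).IsPrime := by
    refine ⟨?_, fun {x y} h => ?_⟩
    · rw [Ne, Ideal.eq_top_iff_one, Ideal.mem_span_singleton]
      exact hp.1
    · rw [Ideal.mem_span_singleton] at h
      rw [Ideal.mem_span_singleton, Ideal.mem_span_singleton]
      exact hp.2 _ _ h
  let Q := MvPolynomial (Fin (k + 2)) ℂ ⧸ Ideal.span {p}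
  let L := FractionRing Q
  let φ : MvPolynomial (Fin (k + 2)) ℂ →+* L :=
    (algebraMap Q L).comp (Ideal.Quotient.mk (Ideal.span {p}))
  have hφ : ∀ x, φ x = 0 ↔ p ∣ x := by
    intro x
    rw [← Ideal.mem_span_singleton, ← Ideal.Quotient.eq_zero_iff_mem]
    constructor
    · intro h
      apply IsFractionRing.injective Q L
      rw [map_zero]
      exact h
    · intro h
      change algebraMap Q L (Ideal.Quotient.mk (Ideal.span {p}) x) = 0
      rw [h, map_zero]
  let V : Fin r → Fin (k + 2) → L := fun i j => φ (v i j)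
  let κ : {j // j ≠ i0} → Fin (k + 2) → MvPolynomial (Fin (k + 2)) ℂ := fun j =>
    Pi.single j.1 (pderiv i0 f) - Pi.single i0 (pderiv j.1 f)
  have hκ : ∀ j, κ j ∈ jacSyz f := by
    intro j
    rw [mem_jacSyz]
    simp only [κ, Pi.sub_apply, sub_mul, Finset.sum_sub_distrib]
    rw [Finset.sum_eq_single j.1, Finset.sum_eq_single i0]
    · simp
      ring
    · intro l _ hl
      simp [Pi.single_eq_of_ne hl]
    · simp
    · intro l _ hl
      simp [Pi.single_eq_of_ne hl]
    · simp
  let κ' : {j // j ≠ i0} → Fin (k + 2) → L := fun j l => φ (κ j l)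
  have hmem : ∀ j, κ' j ∈ Submodule.span L (Set.range V) := by
    intro j
    obtain ⟨b, hb, a, ha⟩ := hcon (κ j) (hκ j)
    have hb' : φ b ≠ 0 := fun h => hb ((hφ b).1 h)
    have h1 : κ' j = ∑ i, (φ (a i) / φ b) • V i := by
      funext l
      have h2 := (hφ _).2 (ha l)
      rw [map_sub, map_mul, map_sum, sub_eq_zero] at h2
      simp only [Finset.sum_apply, Pi.smul_apply, smul_eq_mul]
      apply mul_left_cancel₀ hb'
      change φ b * φ (κ j l) = _
      rw [h2, Finset.mul_sum]
      apply Finset.sum_congr rfl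
      intro i _
      rw [map_mul]
      have h5 : V i l = φ (v i l) := rfl
      rw [h5, ← mul_assoc, mul_div_cancel₀ _ hb']
    rw [h1]
    exact Submodule.sum_mem _ fun i _ => Submodule.smul_mem _ _ (Submodule.subset_span ⟨i, rfl⟩)
  have hind : LinearIndependent L κ' := by
    rw [Fintype.linearIndependent_iff]
    intro c hc j
    have h1 := congrFun hc j.1
    rw [Finset.sum_apply, Finset.sum_eq_single j] at h1
    · simp only [Pi.smul_apply, smul_eq_mul, Pi.zero_apply] at h1
      have h2 : κ' j j.1 = φ (pderiv i0 f) := by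
        simp only [κ', κ, Pi.sub_apply, Pi.single_eq_same, Pi.single_eq_of_ne j.2, sub_zero]
      rw [h2] at h1
      exact (mul_eq_zero.1 h1).resolve_right fun h => hi0 ((hφ _).1 h)
    · intro l _ hl
      have h2 : κ' l j.1 = 0 := by
        have h3 : j.1 ≠ l.1 := fun h => hl (Subtype.ext h.symm)
        simp only [κ', κ, Pi.sub_apply, Pi.single_eq_of_ne h3, Pi.single_eq_of_ne j.2, sub_zero,
          map_zero]
      simp [h2]
    · simp
  let κ'' : {j // j ≠ i0} → Submodule.span L (Set.range V) := fun j => ⟨κ' j, hmem j⟩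
  have hind' : LinearIndependent L κ'' := by
    apply LinearIndependent.of_comp (Submodule.span L (Set.range V)).subtype
    exact hind
  have h1 := hind'.fintype_card_le_finrank
  have h2 := finrank_range_le_card (R := L) V
  rw [Fintype.card_fin] at h2
  have h3 : Fintype.card {j : Fin (k + 2) // j ≠ i0} = k + 1 := by
    rw [Fintype.card_subtype_compl]
    simp
  rw [h3] at h1
  unfold Set.finrank at h2
  omega

end Pool.Agent.V1148.Tame
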