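import Mathlib
import Pool.Agent.V1148.Tame

set_option autoImplicit false

/-!
# The choice of the syzygies
-/

namespace Pool.Agent.V1148.Tame

open MvPolynomial Pool.Agent.V1148.Prim

variable {k : ℕ}

/-- A form of degree `e` that is not divisible by `p`. -/
theorem exists_form {p : MvPolynomial (Fin (k + 2)) ℂ} (hp : PL p) (e : ℕ) :
    ∃ g : MvPolynomial (Fin (k + 2)) ℂ, g.IsHomogeneous e ∧ ¬ p ∣ g := by
  have h1 : ∃ a : Fin (k + 2), ¬ p ∣ X a := by
    by_contra hcon
    push Not at hcon
    have h0 := hcon 0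
    have h1 := hcon 1
    by_cases hp0 : p = 0
    · rw [hp0, zero_dvd_iff] at h0
      exact X_ne_zero _ h0
    have hprime : Prime p := ⟨hp0, fun h => hp.1 (h.dvd), hp.2⟩
    obtain ⟨q, hq⟩ := h0
    obtain ⟨q', hq'⟩ := h1
    have e0 := congrArg (aeval (fun i : Fin (k + 2) => if i = 0 then (0 : MvPolynomial
      (Fin (k + 2)) ℂ) else X i)) hq
    have hpp : p.totalDegree ≤ 1 := by
      have hq0 : q ≠ 0 := by
        rintro rfl
        rw [mul_zero] at hq
        exact X_ne_zero _ hq
      have h2 := totalDegree_mul_of_isDomain hp0 hq0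
      rw [← hq, totalDegree_X] at h2
      omega
    have hqd : q.totalDegree = 0 := by
      have hq0 : q ≠ 0 := by
        rintro rfl
        rw [mul_zero] at hq
        exact X_ne_zero _ hq
      have h2 := totalDegree_mul_of_isDomain hp0 hq0
      rw [← hq, totalDegree_X] at h2
      by_contra hne
      have h3 : p.totalDegree = 0 := by omega
      rw [totalDegree_eq_zero_iff_eq_C] at h3
      apply hprime.not_isUnit
      rw [h3]
      apply IsUnit.map
      rw [isUnit_iff_ne_zero]
      intro h4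
      rw [h4, C_0] at h3
      exact hp0 h3
    rw [totalDegree_eq_zero_iff_eq_C] at hqd
    have hc : coeff 0 q ≠ 0 := by
      intro h
      rw [h, C_0] at hqd
      rw [hqd, mul_zero] at hq
      exact X_ne_zero _ hq
    have hX0p : (X 0 : MvPolynomial (Fin (k + 2)) ℂ) ∣ p := by
      refine ⟨C (coeff 0 q)⁻¹, ?_⟩
      rw [hq]
      conv_rhs => rw [hqd]
      rw [mul_assoc, ← C_mul, coeff_C, if_pos rfl, mul_inv_cancel₀ hc, C_1, mul_one]
    have hX01 : (X 0 : MvPolynomial (Fin (k + 2)) ℂ) ∣ X 1 := hX0p.trans ⟨q', hq'⟩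
    obtain ⟨s, hs⟩ := hX01
    have := congrArg (aeval (fun i : Fin (k + 2) => if i = 0 then (0 : ℂ) else 1)) hs
    rw [map_mul, aeval_X, aeval_X] at this
    simp at this
  obtain ⟨a, ha⟩ := h1
  refine ⟨X a ^ e, isHomogeneous_X_pow a e, fun h => ?_⟩
  induction e with
  | zero => exact hp.1 (by simpa using h)
  | succ e ih =>
    rw [pow_succ] at h
    exact (hp.2 _ _ h).elim ih ha

section step

variable {f : MvPolynomial (Fin (k + 2)) ℂ} {r t : ℕ}
  {τ : Fin t → Fin (k + 2) → MvPolynomial (Fin (k + 2)) ℂ}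
  {v : Fin r → Fin (k + 2) → MvPolynomial (Fin (k + 2)) ℂ}

theorem exists_gen (hjac : ∀ p : MvPolynomial (Fin (k + 2)) ℂ, PL p → ∃ j, ¬ p ∣ pderiv j f)
    (hspan : jacSyz f ≤ Submodule.span (MvPolynomial (Fin (k + 2)) ℂ)
      (Set.range τ ∪ Set.range v))
    {p : MvPolynomial (Fin (k + 2)) ℂ} (hp : PL p) {r' : ℕ} (hr : r' ≤ k)
    (v' : Fin r' → Fin (k + 2) → MvPolynomial (Fin (k + 2)) ℂ) (hv : ∀ i, NN p v' (v i)) :
    ∃ i, ¬ NN p v' (τ i) := by
  by_contra hcon
  push Not at hcon
  obtain ⟨w, hw, hw2⟩ := exists_not_NN hp (hjac p hp) hr v'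
  apply hw2
  apply NN_of_span hp _ (hspan hw)
  rintro _ (⟨i, rfl⟩ | ⟨i, rfl⟩)
  · exact hcon i
  · exact hv i

end step

theorem associated_dvd_iff {R : Type*} [CommRing R] {p q : R} (h : Associated p q) (x : R) :
    p ∣ x ↔ q ∣ x := h.dvd_iff_dvd_left

/-- The key step: change the generator of the largest degree by combinations of the others so that
it becomes independent of the chosen ones modulo all primes. -/
theorem step {f : MvPolynomial (Fin (k + 2)) ℂ} {r t : ℕ}
    {τ : Fin (t + 1) → Fin (k + 2) → MvPolynomial (Fin (k + 2)) ℂ}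
    {v : Fin r → Fin (k + 2) → MvPolynomial (Fin (k + 2)) ℂ}
    (hjac : ∀ p : MvPolynomial (Fin (k + 2)) ℂ, PL p → ∃ j, ¬ p ∣ pderiv j f)
    (hspan : jacSyz f ≤ Submodule.span (MvPolynomial (Fin (k + 2)) ℂ)
      (Set.range τ ∪ Set.range v))
    (hr : r + 1 ≤ k) (e : Fin (t + 1) → ℕ)
    (hv : ∀ p : MvPolynomial (Fin (k + 2)) ℂ, PL p → Prim.Prim p v) :
    ∃ c : Fin t → MvPolynomial (Fin (k + 2)) ℂ,
      (∀ i, (c i).IsHomogeneous (e (Fin.last t) - e i.castSucc)) ∧
      ∀ p : MvPolynomial (Fin (k + 2)) ℂ, PL p →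
        ¬ NN p v (τ (Fin.last t) + ∑ i, c i • τ i.castSucc) := by
  classical
  -- the second generator
  obtain ⟨j, hj⟩ : ∃ j : Fin t, ¬ NN 0 v (τ j.castSucc) := by
    obtain ⟨i, hi⟩ := exists_gen hjac hspan PL_zero hr
      (Fin.cons (τ (Fin.last t)) v : Fin (r + 1) → _)
      (fun i => NN_cons (NN_self PL_zero v i))
    refine Fin.lastCases (fun h => absurd (NN_cons_self PL_zero v _) h)
      (fun i hi => ⟨i, fun h => hi (NN_cons h)⟩) i hi
  have hv1 : Prim.Prim 0 (Fin.cons (τ j.castSucc) v : Fin (r + 1) → _) :=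
    Prim_cons (hv 0 PL_zero) hj
  obtain ⟨Δ1, hΔ1, hb1⟩ := exists_bad hv1
  -- the affine space of coefficients
  let V := (i : Fin t) → homogeneousSubmodule (Fin (k + 2)) ℂ (e (Fin.last t) - e i.castSucc)
  let σ : V → Fin (k + 2) → MvPolynomial (Fin (k + 2)) ℂ := fun c =>
    τ (Fin.last t) + ∑ i, (c i : MvPolynomial (Fin (k + 2)) ℂ) • τ i.castSucc
  have haff : ∀ (r' : ℕ) (v' : Fin r' → Fin (k + 2) → MvPolynomial (Fin (k + 2)) ℂ)
      (p : MvPolynomial (Fin (k + 2)) ℂ), PL p → ∀ x y : V, NN p v' (σ x) → NN p v' (σ y) →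
      ∀ s : ℂ, NN p v' (σ (x + s • (y - x))) := by
    intro r' v' p hp x y hx hy s
    have hcoe : ∀ i, (((x + s • (y - x)) i : homogeneousSubmodule (Fin (k + 2)) ℂ
        (e (Fin.last t) - e i.castSucc)) : MvPolynomial (Fin (k + 2)) ℂ) =
        (x i : MvPolynomial (Fin (k + 2)) ℂ) + C s * ((y i : MvPolynomial (Fin (k + 2)) ℂ) -
          (x i : MvPolynomial (Fin (k + 2)) ℂ)) := by
      intro i
      change (((x i + s • (y i - x i)) : homogeneousSubmodule (Fin (k + 2)) ℂ
        (e (Fin.last t) - e i.castSucc)) : MvPolynomial (Fin (k + 2)) ℂ) = _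
      rw [Submodule.coe_add, Submodule.coe_smul, AddSubgroupClass.coe_sub,
        MvPolynomial.smul_eq_C_mul]
    have h1 : σ (x + s • (y - x)) = σ x + (C s : MvPolynomial (Fin (k + 2)) ℂ) •
        (σ y + (-1 : MvPolynomial (Fin (k + 2)) ℂ) • σ x) := by
      funext l
      simp only [σ, Pi.add_apply, Pi.smul_apply, Finset.sum_apply, smul_eq_mul, hcoe,
        add_mul, mul_sub, sub_mul, Finset.sum_add_distrib,
        Finset.sum_sub_distrib, mul_assoc, ← Finset.mul_sum]
      ring
    rw [h1]
    exact NN_add hp hx (NN_smul (NN_add hp hy (NN_smul hx _)) _)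
  have hproper : ∀ (r' : ℕ) (v' : Fin r' → Fin (k + 2) → MvPolynomial (Fin (k + 2)) ℂ)
      (p : MvPolynomial (Fin (k + 2)) ℂ), PL p → r' ≤ k → (∀ i, NN p v' (v i)) →
      ∃ x : V, ¬ NN p v' (σ x) := by
    intro r' v' p hp hr' hvv
    by_cases hlast : NN p v' (τ (Fin.last t))
    · obtain ⟨i, hi⟩ := exists_gen hjac hspan hp hr' v' hvv
      obtain ⟨i, rfl⟩ : ∃ i' : Fin t, i = i'.castSucc := by
        refine Fin.lastCases (fun h => absurd hlast h) (fun i _ => ⟨i, rfl⟩) i hi
      obtain ⟨g, hg, hpg⟩ := exists_form hp (e (Fin.last t) - e i.castSucc)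
      refine ⟨Pi.single i ⟨g, hg⟩, fun h => hi ?_⟩
      have h1 : σ (Pi.single i ⟨g, hg⟩) = τ (Fin.last t) + g • τ i.castSucc := by
        simp only [σ]
        congr 1
        rw [Finset.sum_eq_single i]
        · rw [Pi.single_eq_same]
        · intro l _ hl
          rw [Pi.single_eq_of_ne hl]
          simp
        · simp
      rw [h1] at h
      apply NN_cancel hp hpg
      have h2 := NN_add hp h (NN_smul hlast (-1))
      have h3 : τ (Fin.last t) + g • τ i.castSucc +
          (-1 : MvPolynomial (Fin (k + 2)) ℂ) • τ (Fin.last t) = g • τ i.castSucc := by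
        rw [neg_one_smul]
        abel
      rwa [h3] at h2
    · refine ⟨0, ?_⟩
      have h1 : σ 0 = τ (Fin.last t) := by
        have h0 : ∀ i : Fin t, (((0 : V) i : homogeneousSubmodule (Fin (k + 2)) ℂ
          (e (Fin.last t) - e i.castSucc)) : MvPolynomial (Fin (k + 2)) ℂ) = 0 := fun i => rfl
        simp only [σ, h0, zero_smul, Finset.sum_const_zero, add_zero]
      rw [h1]
      exact hlast
  -- first choice
  obtain ⟨c0, hc0⟩ := avoid (K := ℂ) (V := V)
    (insert none ((UniqueFactorizationMonoid.factors Δ1).toFinset.image some))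
    (fun q => match q with
      | none => fun x => NN 0 (Fin.cons (τ j.castSucc) v : Fin (r + 1) → _) (σ x)
      | some q => fun x => NN q v (σ x)) (by
      intro q hq x y hx hy s
      rcases q with _ | q
      · exact haff _ _ 0 PL_zero x y hx hy s
      · have hq' : q ∈ UniqueFactorizationMonoid.factors Δ1 := by simpa using hq
        exact haff _ _ q (PL_of_prime (UniqueFactorizationMonoid.prime_of_factor _ hq'))
          x y hx hy s) (by
      intro q hq
      rcases q with _ | q
      · exact hproper _ _ 0 PL_zero hr (fun i => NN_cons (NN_self PL_zero v i))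
      · have hq' : q ∈ UniqueFactorizationMonoid.factors Δ1 := by simpa using hq
        have hqp := PL_of_prime (UniqueFactorizationMonoid.prime_of_factor _ hq')
        exact hproper _ _ q hqp (by omega) (fun i => NN_self hqp v i))
  have hc00 : ¬ NN 0 (Fin.cons (τ j.castSucc) v : Fin (r + 1) → _) (σ c0) :=
    hc0 none (by simp)
  have hc01 : ∀ q ∈ UniqueFactorizationMonoid.factors Δ1, ¬ NN q v (σ c0) := fun q hq =>
    hc0 (some q) (by simpa using hq)
  -- second choice
  have hv2 : Prim.Prim 0 (Fin.cons (σ c0) (Fin.cons (τ j.castSucc) v : Fin (r + 1) → _) :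
      Fin (r + 1 + 1) → _) := Prim_cons hv1 hc00
  obtain ⟨Δ2, hΔ2, hb2⟩ := exists_bad hv2
  have hdiff : ∀ (r' : ℕ) (v' : Fin r' → Fin (k + 2) → MvPolynomial (Fin (k + 2)) ℂ)
      (p : MvPolynomial (Fin (k + 2)) ℂ), PL p → ∀ c : MvPolynomial (Fin (k + 2)) ℂ,
      NN p v' (σ c0 + c • τ j.castSucc) → NN p v' (τ j.castSucc) → NN p v' (σ c0) := by
    intro r' v' p hp c h h'
    have h1 := NN_add hp h (NN_smul h' (-c))
    have h2 : σ c0 + c • τ j.castSucc + (-c) • τ j.castSucc = σ c0 := by
      rw [neg_smul]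
      abel
    rwa [h2] at h1
  obtain ⟨c, hc⟩ := avoid (K := ℂ)
    (V := homogeneousSubmodule (Fin (k + 2)) ℂ (e (Fin.last t) - e j.castSucc))
    ((UniqueFactorizationMonoid.factors Δ2).toFinset.filter fun q => ¬ NN q v (τ j.castSucc))
    (fun q x => NN q v (σ c0 + (x : MvPolynomial (Fin (k + 2)) ℂ) • τ j.castSucc)) (by
      intro q hq x y hx hy s
      have hq' : q ∈ UniqueFactorizationMonoid.factors Δ2 := by
        have := (Finset.mem_filter.1 hq).1
        simpa using this
      have hqp := PL_of_prime (UniqueFactorizationMonoid.prime_of_factor _ hq')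
      have h1 : σ c0 + ((x + s • (y - x) : homogeneousSubmodule (Fin (k + 2)) ℂ
            (e (Fin.last t) - e j.castSucc)) : MvPolynomial (Fin (k + 2)) ℂ) • τ j.castSucc =
          (σ c0 + (x : MvPolynomial (Fin (k + 2)) ℂ) • τ j.castSucc) +
          (C s : MvPolynomial (Fin (k + 2)) ℂ) •
            ((σ c0 + (y : MvPolynomial (Fin (k + 2)) ℂ) • τ j.castSucc) +
            (-1 : MvPolynomial (Fin (k + 2)) ℂ) •
              (σ c0 + (x : MvPolynomial (Fin (k + 2)) ℂ) • τ j.castSucc)) := by
        funext l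
        simp only [Pi.add_apply, Pi.smul_apply, smul_eq_mul,
          Submodule.coe_add, Submodule.coe_smul, AddSubgroupClass.coe_sub,
          MvPolynomial.smul_eq_C_mul]
        ring
      rw [h1]
      exact NN_add hqp hx (NN_smul (NN_add hqp hy (NN_smul hx _)) _)) (by
      intro q hq
      have hq' : q ∈ UniqueFactorizationMonoid.factors Δ2 := by
        have := (Finset.mem_filter.1 hq).1
        simpa using this
      have hqn := (Finset.mem_filter.1 hq).2
      have hqp := PL_of_prime (UniqueFactorizationMonoid.prime_of_factor _ hq')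
      by_cases h0 : NN q v (σ c0)
      · obtain ⟨g, hg, hpg⟩ := exists_form hqp (e (Fin.last t) - e j.castSucc)
        refine ⟨⟨g, hg⟩, fun h => hqn ?_⟩
        apply NN_cancel hqp hpg
        have h1 := NN_add hqp h (NN_smul h0 (-1))
        have h2 : σ c0 + g • τ j.castSucc + (-1 : MvPolynomial (Fin (k + 2)) ℂ) • σ c0 =
            g • τ j.castSucc := by
          rw [neg_one_smul]
          abel
        rwa [h2] at h1
      · refine ⟨0, ?_⟩
        simpa using h0)
  refine ⟨fun i => (c0 i : MvPolynomial (Fin (k + 2)) ℂ) +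
    if i = j then (c : MvPolynomial (Fin (k + 2)) ℂ) else 0, ?_, ?_⟩
  · intro i
    apply IsHomogeneous.add
    · exact (c0 i).2
    · split_ifs with h
      · subst h
        exact c.2
      · exact isHomogeneous_zero _ _ _
  · intro p hp
    have hfin : τ (Fin.last t) + ∑ i, ((c0 i : MvPolynomial (Fin (k + 2)) ℂ) +
        if i = j then (c : MvPolynomial (Fin (k + 2)) ℂ) else 0) • τ i.castSucc =
        σ c0 + (c : MvPolynomial (Fin (k + 2)) ℂ) • τ j.castSucc := by
      simp only [σ, add_smul, Finset.sum_add_distrib, ite_smul, zero_smul, Finset.sum_ite_eq',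
        Finset.mem_univ, if_true]
      rw [add_assoc]
    rw [hfin]
    intro hN
    by_cases h1 : NN p v (τ j.castSucc)
    · have hp0 : p ≠ 0 := by
        rintro rfl
        exact hj h1
      have hprime : Prime p := ⟨hp0, fun h => hp.1 (h.dvd), hp.2⟩
      have hpΔ : p ∣ Δ1 := by
        by_contra hne
        exact (hb1 p hp hne).not_NN h1
      obtain ⟨q, hq, hpq⟩ := UniqueFactorizationMonoid.exists_mem_factors_of_dvd hΔ1
        hprime.irreducible hpΔ
      apply hc01 q hq
      exact NN_congr (associated_dvd_iff hpq) (hdiff _ _ p hp _ hN h1)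
    · by_cases hpΔ : p ∣ Δ2
      · have hp0 : p ≠ 0 := by
          rintro rfl
          exact hΔ2 (zero_dvd_iff.1 hpΔ)
        have hprime : Prime p := ⟨hp0, fun h => hp.1 (h.dvd), hp.2⟩
        obtain ⟨q, hq, hpq⟩ := UniqueFactorizationMonoid.exists_mem_factors_of_dvd hΔ2
          hprime.irreducible hpΔ
        apply hc q
        · rw [Finset.mem_filter]
          refine ⟨by simpa using hq, fun h => h1 ?_⟩
          exact NN_congr (fun x => (associated_dvd_iff hpq x).symm) h
        · exact NN_congr (associated_dvd_iff hpq) hN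
      · have h2 := (hb2 p hp hpΔ).not_NN
        apply h2
        exact hdiff _ _ p hp _ (NN_cons hN) (NN_cons_self hp _ _)

end Pool.Agent.V1148.Tame
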