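import Mathlib
import Pool.Agent.V1148.ArrDefs

set_option autoImplicit false

/-!
# Arrangements in three-space: the lattice is determined by the dependent triples
-/

namespace Pool.Agent.V1148

open MvPolynomial

/-- The determinant of three vectors of a rank three module. -/
def det3 {R : Type*} [CommRing R] (a b c : Fin 3 → R) : R :=
  a 0 * (b 1 * c 2 - b 2 * c 1) - a 1 * (b 0 * c 2 - b 2 * c 0) + a 2 * (b 0 * c 1 - b 1 * c 0)

/-- The vector product. -/
def cross3 {R : Type*} [CommRing R] (a b : Fin 3 → R) : Fin 3 → R :=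
  ![a 1 * b 2 - a 2 * b 1, a 2 * b 0 - a 0 * b 2, a 0 * b 1 - a 1 * b 0]

variable {K : Type*} [Field K] {n : ℕ}

theorem mem_hyper3 {a x : Fin 3 → K} :
    x ∈ hyper a ↔ a 0 * x 0 + a 1 * x 1 + a 2 * x 2 = 0 := by
  rw [mem_hyper, Fin.sum_univ_three]

theorem cross_mem {a b c : Fin 3 → K} (h : det3 a b c = 0) : cross3 a b ∈ hyper c := by
  rw [mem_hyper3]
  simp only [cross3, Matrix.cons_val_zero, Matrix.cons_val_one, Matrix.cons_val]
  unfold det3 at h
  linear_combination h

theorem mem_of_det_zero {a b c x : Fin 3 → K} (hab : cross3 a b ≠ 0) (h : det3 a b c = 0)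
    (ha : x ∈ hyper a) (hb : x ∈ hyper b) : x ∈ hyper c := by
  rw [mem_hyper3] at *
  by_contra hc
  apply hab
  unfold det3 at h
  funext i
  fin_cases i
  · simp only [cross3, Fin.zero_eta, Matrix.cons_val_zero, Pi.zero_apply]
    apply (mul_left_inj' hc).1
    linear_combination (x 0) * h - (b 1 * c 2 - b 2 * c 1) * ha + (a 1 * c 2 - a 2 * c 1) * hb
  · simp only [cross3, Fin.mk_one, Matrix.cons_val_one, Matrix.cons_val_zero, Pi.zero_apply]
    apply (mul_left_inj' hc).1
    linear_combination (x 1) * h - (b 2 * c 0 - b 0 * c 2) * ha + (a 2 * c 0 - a 0 * c 2) * hb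
  · simp only [cross3, Fin.reduceFinMk, Matrix.cons_val, Pi.zero_apply]
    apply (mul_left_inj' hc).1
    linear_combination (x 2) * h - (b 0 * c 1 - b 1 * c 0) * ha + (a 0 * c 1 - a 1 * c 0) * hb

theorem eq_zero_of_det_ne {a b c x : Fin 3 → K} (h : det3 a b c ≠ 0)
    (ha : x ∈ hyper a) (hb : x ∈ hyper b) (hc : x ∈ hyper c) : x = 0 := by
  rw [mem_hyper3] at *
  unfold det3 at h
  funext i
  fin_cases i
  · simp only [Fin.zero_eta, Pi.zero_apply]
    apply (mul_right_inj' h).1
    linear_combination (b 1 * c 2 - b 2 * c 1) * ha - (a 1 * c 2 - a 2 * c 1) * hb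
      + (a 1 * b 2 - a 2 * b 1) * hc
  · simp only [Fin.mk_one, Pi.zero_apply]
    apply (mul_right_inj' h).1
    linear_combination (b 2 * c 0 - b 0 * c 2) * ha - (a 2 * c 0 - a 0 * c 2) * hb
      + (a 2 * b 0 - a 0 * b 2) * hc
  · simp only [Fin.reduceFinMk, Pi.zero_apply]
    apply (mul_right_inj' h).1
    linear_combination (b 0 * c 1 - b 1 * c 0) * ha - (a 0 * c 1 - a 1 * c 0) * hb
      + (a 0 * b 1 - a 1 * b 0) * hc

theorem ne_zero_of_cross {a b : Fin 3 → K} (h : cross3 a b ≠ 0) : a ≠ 0 := by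
  rintro rfl
  apply h
  funext i
  fin_cases i <;> simp [cross3]

/-- If `a, b` are not proportional then `ker a` is not contained in `ker b`. -/
theorem not_hyper_le {a b : Fin 3 → K} (h : cross3 a b ≠ 0) : ¬ hyper a ≤ hyper b := by
  intro hle
  apply h
  have key : ∀ z : Fin 3 → K, det3 b a z = 0 := by
    intro z
    have h1 : cross3 a z ∈ hyper a := by
      apply cross_mem
      unfold det3
      ring
    have h2 := hle h1
    rw [mem_hyper3] at h2
    simp only [cross3, Matrix.cons_val_zero, Matrix.cons_val_one, Matrix.cons_val] at h2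
    unfold det3
    linear_combination h2
  funext i
  fin_cases i
  · have := key ![1, 0, 0]
    simp only [det3, Matrix.cons_val_zero, Matrix.cons_val_one, Matrix.cons_val] at this
    simp only [cross3, Fin.zero_eta, Matrix.cons_val_zero, Pi.zero_apply]
    linear_combination -this
  · have := key ![0, 1, 0]
    simp only [det3, Matrix.cons_val_zero, Matrix.cons_val_one, Matrix.cons_val] at this
    simp only [cross3, Fin.mk_one, Matrix.cons_val_one, Matrix.cons_val_zero, Pi.zero_apply]
    linear_combination -this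
  · have := key ![0, 0, 1]
    simp only [det3, Matrix.cons_val_zero, Matrix.cons_val_one, Matrix.cons_val] at this
    simp only [cross3, Fin.reduceFinMk, Matrix.cons_val, Pi.zero_apply]
    linear_combination -this

theorem iInf_le_hyper_iff {A : Fin n → Fin 3 → K} (h0 : ∀ i, A i ≠ 0)
    (hA : ∀ i j, i ≠ j → cross3 (A i) (A j) ≠ 0) (s : Set (Fin n)) (i : Fin n) :
    ⨅ j ∈ s, hyper (A j) ≤ hyper (A i) ↔
      i ∈ s ∨ (∃ j ∈ s, ∃ k ∈ s, j ≠ k ∧ det3 (A j) (A k) (A i) = 0) ∨
        ∃ j ∈ s, ∃ k ∈ s, ∃ m ∈ s, det3 (A j) (A k) (A m) ≠ 0 := by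
  constructor
  · intro h
    by_contra hcon
    push Not at hcon
    obtain ⟨h1, h2, h3⟩ := hcon
    by_cases h4 : ∃ j ∈ s, ∃ k ∈ s, j ≠ k
    · obtain ⟨j, hj, k, hk, hjk⟩ := h4
      have h5 : cross3 (A j) (A k) ∈ ⨅ j ∈ s, hyper (A j) := by
        rw [Submodule.mem_iInf]
        intro m
        rw [Submodule.mem_iInf]
        intro hm
        exact cross_mem (h3 j hj k hk m hm)
      have h6 := h h5
      apply h2 j hj k hk hjk
      rw [mem_hyper3] at h6
      simp only [cross3, Matrix.cons_val_zero, Matrix.cons_val_one, Matrix.cons_val] at h6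
      unfold det3
      linear_combination h6
    · push Not at h4
      by_cases h5 : s.Nonempty
      · obtain ⟨j, hj⟩ := h5
        have hs : s = {j} := by
          ext k
          simp only [Set.mem_singleton_iff]
          constructor
          · intro hk
            exact h4 k hk j hj
          · rintro rfl
            exact hj
        subst hs
        rw [iInf_singleton] at h
        have hij : j ≠ i := by
          rintro rfl
          exact h1 rfl
        exact not_hyper_le (hA j i hij) h
      · rw [Set.not_nonempty_iff_eq_empty] at h5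
        subst h5
        simp only [Set.mem_empty_iff_false, iInf_false, iInf_top, top_le_iff] at h
        apply h0 i
        funext m
        have : (Pi.single m 1 : Fin 3 → K) ∈ hyper (A i) := by
          rw [h]
          exact Submodule.mem_top
        rw [mem_hyper] at this
        simpa [Pi.single_apply] using this
  · rintro (h | ⟨j, hj, k, hk, hjk, h⟩ | ⟨j, hj, k, hk, m, hm, h⟩)
    · exact iInf₂_le (f := fun j (_ : j ∈ s) => hyper (A j)) i h
    · intro x hx
      rw [Submodule.mem_iInf] at hx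
      have hx' : ∀ i ∈ s, x ∈ hyper (A i) := fun i hi => (Submodule.mem_iInf _).1 (hx i) hi
      exact mem_of_det_zero (hA j k hjk) h (hx' j hj) (hx' k hk)
    · intro x hx
      rw [Submodule.mem_iInf] at hx
      have hx' : ∀ i ∈ s, x ∈ hyper (A i) := fun i hi => (Submodule.mem_iInf _).1 (hx i) hi
      rw [eq_zero_of_det_ne h (hx' j hj) (hx' k hk) (hx' m hm)]
      exact Submodule.zero_mem _

/-- If the same hyperplanes contain corresponding intersections, the intersection lattices are
isomorphic. -/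
theorem lattice_iso_of_closure {l l' : ℕ} {A : Fin n → Fin l → K} {B : Fin n → Fin l' → K}
    (h : ∀ (s : Set (Fin n)) (i : Fin n),
      ⨅ j ∈ s, hyper (A j) ≤ hyper (A i) ↔ ⨅ j ∈ s, hyper (B j) ≤ hyper (B i)) :
    Nonempty (IntersectionLattice A ≃o IntersectionLattice B) := by
  have cl : ∀ {l : ℕ} {A : Fin n → Fin l → K} (W : intersections A),
      ⨅ j ∈ {i | (W : Submodule K (Fin l → K)) ≤ hyper (A i)}, hyper (A j) = W := by
    rintro l A ⟨W, s, rfl⟩
    apply le_antisymm
    · refine le_iInf₂ fun j hj => ?_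
      have hj' : ⨅ j ∈ s, hyper (A j) ≤ hyper (A j) :=
        iInf₂_le (f := fun j (_ : j ∈ s) => hyper (A j)) j hj
      exact iInf₂_le (f := fun j (_ : j ∈ {i | ⨅ j ∈ s, hyper (A j) ≤ hyper (A i)}) => hyper (A j))
        j hj'
    · exact le_iInf₂ fun j hj => hj
  have key : ∀ s t : Set (Fin n), ⨅ j ∈ s, hyper (A j) ≤ ⨅ j ∈ t, hyper (A j) ↔
      ⨅ j ∈ s, hyper (B j) ≤ ⨅ j ∈ t, hyper (B j) := by
    intro s t
    rw [le_iInf₂_iff, le_iInf₂_iff]
    exact forall₂_congr fun i _ => h s i
  let f : intersections A → intersections B := fun W =>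
    ⟨⨅ j ∈ {i | (W : Submodule K (Fin l → K)) ≤ hyper (A i)}, hyper (B j), _, rfl⟩
  let g : intersections B → intersections A := fun W =>
    ⟨⨅ j ∈ {i | (W : Submodule K (Fin l' → K)) ≤ hyper (B i)}, hyper (A j), _, rfl⟩
  have hgf : ∀ W, g (f W) = W := by
    intro W
    apply Subtype.ext
    conv_rhs => rw [← cl W]
    apply le_antisymm
    · rw [key]
      exact (cl (f W)).le
    · rw [key]
      exact (cl (f W)).ge
  have hfg : ∀ W, f (g W) = W := by
    intro W
    apply Subtype.ext
    conv_rhs => rw [← cl W]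
    apply le_antisymm
    · rw [← key]
      exact (cl (g W)).le
    · rw [← key]
      exact (cl (g W)).ge
  have hle : ∀ W W' : intersections A, f W ≤ f W' ↔ W ≤ W' := by
    intro W W'
    change (⨅ j ∈ {i | (W : Submodule K (Fin l → K)) ≤ hyper (A i)}, hyper (B j)) ≤
      (⨅ j ∈ {i | (W' : Submodule K (Fin l → K)) ≤ hyper (A i)}, hyper (B j)) ↔ _
    rw [← key, cl, cl]
    rfl
  let e : intersections A ≃o intersections B :=
    { toFun := f
      invFun := g
      left_inv := hgf
      right_inv := hfg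
      map_rel_iff' := fun {W W'} => hle W W' }
  exact ⟨e.dual⟩

theorem lattice_iso_of_det {A B : Fin n → Fin 3 → K} (hA0 : ∀ i, A i ≠ 0) (hB0 : ∀ i, B i ≠ 0)
    (hA : ∀ i j, i ≠ j → cross3 (A i) (A j) ≠ 0) (hB : ∀ i j, i ≠ j → cross3 (B i) (B j) ≠ 0)
    (h : ∀ i j k, det3 (A i) (A j) (A k) = 0 ↔ det3 (B i) (B j) (B k) = 0) :
    Nonempty (IntersectionLattice A ≃o IntersectionLattice B) := by
  apply lattice_iso_of_closure
  intro s i
  rw [iInf_le_hyper_iff hA0 hA, iInf_le_hyper_iff hB0 hB]
  simp only [ne_eq, h]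

theorem isArrangement_of_cross {A : Fin n → Fin 3 → K} (h0 : ∀ i, A i ≠ 0)
    (hA : ∀ i j, i ≠ j → cross3 (A i) (A j) ≠ 0) : IsArrangement A := by
  refine ⟨h0, fun i j hij => ?_⟩
  by_contra hne
  exact not_hyper_le (hA i j hne) hij.le

theorem isEssential_of_det {A : Fin n → Fin 3 → K} {i j k : Fin n}
    (h : det3 (A i) (A j) (A k) ≠ 0) : IsEssential A := by
  unfold IsEssential
  rw [eq_bot_iff]
  intro x hx
  rw [Submodule.mem_iInf] at hx
  rw [Submodule.mem_bot]
  exact eq_zero_of_det_ne h (hx i) (hx j) (hx k)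

theorem lin_isRelPrime_of_cross {a b : Fin 3 → K} (h : cross3 a b ≠ 0) :
    IsRelPrime (lin a) (lin b) := by
  apply lin_isRelPrime (ne_zero_of_cross h)
  · rintro rfl
    apply h
    funext i
    fin_cases i <;> simp [cross3]
  · rintro c rfl
    apply h
    funext i
    fin_cases i
    · simp only [cross3, Fin.zero_eta, Matrix.cons_val_zero, Pi.zero_apply, Pi.smul_apply,
        smul_eq_mul]
      ring
    · simp only [cross3, Fin.mk_one, Matrix.cons_val_one, Matrix.cons_val_zero, Pi.zero_apply,
        Pi.smul_apply, smul_eq_mul]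
      ring
    · simp only [cross3, Fin.reduceFinMk, Matrix.cons_val, Pi.zero_apply, Pi.smul_apply,
        smul_eq_mul]
      ring

theorem der_lin {l : ℕ} (θ : Derivation K (MvPolynomial (Fin l) K) (MvPolynomial (Fin l) K))
    (a : Fin l → K) : θ (lin a) = ∑ j, C (a j) * θ (X j) := by
  unfold lin
  rw [map_sum]
  apply Finset.sum_congr rfl
  intro j _
  rw [← MvPolynomial.smul_eq_C_mul, ← MvPolynomial.smul_eq_C_mul, Derivation.map_smul]

end Pool.Agent.V1148
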