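import Mathlib
import Pool.Agent.V1148.Homog
import Pool.Agent.V1148.Arr3

set_option autoImplicit false

/-!
# Explicit polynomial data for two arrangements of nine planes
-/

namespace Pool.Agent.V1148.M52

open MvPolynomial

variable {K : Type*} [Field K]

/-- The polynomial with the given integer coefficients and exponents. -/
noncomputable def poly (L : List (ℤ × ℕ × ℕ × ℕ)) : MvPolynomial (Fin 3) K :=
  (L.map fun t => (t.1 : MvPolynomial (Fin 3) K) * X 0 ^ t.2.1 * X 1 ^ t.2.2.1 *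
    X 2 ^ t.2.2.2).sum

theorem poly_hom {n : ℕ} (L : List (ℤ × ℕ × ℕ × ℕ))
    (h : ∀ t ∈ L, t.2.1 + t.2.2.1 + t.2.2.2 = n) : (poly L : MvPolynomial (Fin 3) K).IsHomogeneous n := by
  induction L with
  | nil => exact isHomogeneous_zero _ _ _
  | cons t L ih =>
    have h1 : (poly (t :: L) : MvPolynomial (Fin 3) K) =
        (t.1 : MvPolynomial (Fin 3) K) * X 0 ^ t.2.1 * X 1 ^ t.2.2.1 * X 2 ^ t.2.2.2 + poly L := by
      simp [poly]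
    rw [h1]
    apply IsHomogeneous.add
    · have h2 : ((t.1 : MvPolynomial (Fin 3) K) * X 0 ^ t.2.1 * X 1 ^ t.2.2.1 *
          X 2 ^ t.2.2.2).IsHomogeneous (0 + t.2.1 + t.2.2.1 + t.2.2.2) := by
        have h3 : (t.1 : MvPolynomial (Fin 3) K) = C (t.1 : K) := by simp
        rw [h3]
        exact (((isHomogeneous_C _ _).mul (isHomogeneous_X_pow _ _)).mul
          (isHomogeneous_X_pow _ _)).mul (isHomogeneous_X_pow _ _)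
      rw [zero_add] at h2
      rwa [h t (by simp)] at h2
    · exact ih fun s hs => h s (by simp [hs])

/-- The derivation with given coefficients. -/
noncomputable def mk (P Q R : MvPolynomial (Fin 3) K) :
    Derivation K (MvPolynomial (Fin 3) K) (MvPolynomial (Fin 3) K) :=
  mkDerivation K ![P, Q, R]

@[simp] theorem mk_X0 (P Q R : MvPolynomial (Fin 3) K) : mk P Q R (X 0) = P := by
  simp [mk, mkDerivation_X]

@[simp] theorem mk_X1 (P Q R : MvPolynomial (Fin 3) K) : mk P Q R (X 1) = Q := by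
  simp [mk, mkDerivation_X]

@[simp] theorem mk_X2 (P Q R : MvPolynomial (Fin 3) K) : mk P Q R (X 2) = R := by
  simp [mk, mkDerivation_X]

theorem mk_homog {P Q R : MvPolynomial (Fin 3) K} {n : ℕ} (hP : P.IsHomogeneous n)
    (hQ : Q.IsHomogeneous n) (hR : R.IsHomogeneous n) : IsHomogDer (mk P Q R) n := by
  intro i
  fin_cases i
  · simpa using hP
  · simpa using hQ
  · simpa using hR

/-- The matrix of integers as a matrix over the field. -/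
def cst (Z : Fin 9 → Fin 3 → ℤ) : Fin 9 → Fin 3 → K := fun i j => (Z i j : K)

/-- The linear form with integer coefficients. -/
noncomputable def lz (z : Fin 3 → ℤ) : MvPolynomial (Fin 3) K :=
  (z 0 : MvPolynomial (Fin 3) K) * X 0 + (z 1 : MvPolynomial (Fin 3) K) * X 1 +
    (z 2 : MvPolynomial (Fin 3) K) * X 2

theorem lin_cst (Z : Fin 9 → Fin 3 → ℤ) (i : Fin 9) : lin (cst Z i : Fin 3 → K) = lz (Z i) := by
  simp [lin, lz, cst, Fin.sum_univ_three]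

theorem mem_logDer_iff (Z : Fin 9 → Fin 3 → ℤ)
    (θ : Derivation K (MvPolynomial (Fin 3) K) (MvPolynomial (Fin 3) K)) :
    θ ∈ logDer (cst Z) ↔ ∀ i, (lz (Z i) : MvPolynomial (Fin 3) K) ∣
      (Z i 0 : MvPolynomial (Fin 3) K) * θ (X 0) + (Z i 1 : MvPolynomial (Fin 3) K) * θ (X 1) +
      (Z i 2 : MvPolynomial (Fin 3) K) * θ (X 2) := by
  change (∀ i, lin (cst Z i : Fin 3 → K) ∣ θ (lin (cst Z i : Fin 3 → K))) ↔ _
  apply forall_congr'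
  intro i
  rw [der_lin, Fin.sum_univ_three, lin_cst]
  simp [cst]

/-- Coefficient vectors of the first arrangement. -/
def AZ : Fin 9 → Fin 3 → ℤ :=
  ![![0, 0, 1], ![1, 0, -1], ![0, 1, -1], ![1, 1, -1], ![2, 1, -1], ![-1, 1, 0], ![0, 1, 0], ![1, 1, 0], ![2, 1, 0]]

/-- A logarithmic derivation. -/
noncomputable def derAE : Derivation K (MvPolynomial (Fin 3) K) (MvPolynomial (Fin 3) K) :=
  mk (poly [(1, 1, 0, 0)])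
    (poly [(1, 0, 1, 0)])
    (poly [(1, 0, 0, 1)])

theorem derAE_homog : IsHomogDer (derAE (K := K)) 1 :=
  mk_homog (poly_hom _ (by decide)) (poly_hom _ (by decide)) (poly_hom _ (by decide))

theorem derAE_mem : (derAE (K := K)) ∈ logDer (cst AZ) := by
  rw [mem_logDer_iff]
  intro i
  fin_cases i
  · refine ⟨poly [(1, 0, 0, 0)], ?_⟩
    simp [derAE, poly, lz, AZ]
    try ring
  · refine ⟨poly [(1, 0, 0, 0)], ?_⟩
    simp [derAE, poly, lz, AZ]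
    try ring
  · refine ⟨poly [(1, 0, 0, 0)], ?_⟩
    simp [derAE, poly, lz, AZ]
    try ring
  · refine ⟨poly [(1, 0, 0, 0)], ?_⟩
    simp [derAE, poly, lz, AZ]
    try ring
  · refine ⟨poly [(1, 0, 0, 0)], ?_⟩
    simp [derAE, poly, lz, AZ]
    try ring
  · refine ⟨poly [(1, 0, 0, 0)], ?_⟩
    simp [derAE, poly, lz, AZ]
    try ring
  · refine ⟨poly [(1, 0, 0, 0)], ?_⟩
    simp [derAE, poly, lz, AZ]
    try ring
  · refine ⟨poly [(1, 0, 0, 0)], ?_⟩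
    simp [derAE, poly, lz, AZ]
    try ring
  · refine ⟨poly [(1, 0, 0, 0)], ?_⟩
    simp [derAE, poly, lz, AZ]
    try ring

/-- A logarithmic derivation. -/
noncomputable def derAP : Derivation K (MvPolynomial (Fin 3) K) (MvPolynomial (Fin 3) K) :=
  mk (poly [])
    (poly [])
    (poly [(2, 3, 1, 1), (-2, 3, 0, 2), (3, 2, 2, 1), (-8, 2, 1, 2), (5, 2, 0, 3), (1, 1, 3, 1), (-6, 1, 2, 2), (9, 1, 1, 3), (-4, 1, 0, 4), (-1, 0, 3, 2), (3, 0, 2, 3), (-3, 0, 1, 4), (1, 0, 0, 5)])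

theorem derAP_homog : IsHomogDer (derAP (K := K)) 5 :=
  mk_homog (poly_hom _ (by decide)) (poly_hom _ (by decide)) (poly_hom _ (by decide))

theorem derAP_mem : (derAP (K := K)) ∈ logDer (cst AZ) := by
  rw [mem_logDer_iff]
  intro i
  fin_cases i
  · refine ⟨poly [(2, 3, 1, 0), (-2, 3, 0, 1), (3, 2, 2, 0), (-8, 2, 1, 1), (5, 2, 0, 2), (1, 1, 3, 0), (-6, 1, 2, 1), (9, 1, 1, 2), (-4, 1, 0, 3), (-1, 0, 3, 1), (3, 0, 2, 2), (-3, 0, 1, 3), (1, 0, 0, 4)], ?_⟩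
    simp [derAP, poly, lz, AZ]
    try ring
  · refine ⟨poly [(-2, 2, 1, 1), (2, 2, 0, 2), (-3, 1, 2, 1), (6, 1, 1, 2), (-3, 1, 0, 3), (-1, 0, 3, 1), (3, 0, 2, 2), (-3, 0, 1, 3), (1, 0, 0, 4)], ?_⟩
    simp [derAP, poly, lz, AZ]
    try ring
  · refine ⟨poly [(-2, 3, 0, 1), (-3, 2, 1, 1), (5, 2, 0, 2), (-1, 1, 2, 1), (5, 1, 1, 2), (-4, 1, 0, 3), (1, 0, 2, 2), (-2, 0, 1, 3), (1, 0, 0, 4)], ?_⟩
    simp [derAP, poly, lz, AZ]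
    try ring
  · refine ⟨poly [(-2, 2, 1, 1), (2, 2, 0, 2), (-1, 1, 2, 1), (4, 1, 1, 2), (-3, 1, 0, 3), (1, 0, 2, 2), (-2, 0, 1, 3), (1, 0, 0, 4)], ?_⟩
    simp [derAP, poly, lz, AZ]
    try ring
  · refine ⟨poly [(-1, 2, 1, 1), (1, 2, 0, 2), (-1, 1, 2, 1), (3, 1, 1, 2), (-2, 1, 0, 3), (1, 0, 2, 2), (-2, 0, 1, 3), (1, 0, 0, 4)], ?_⟩
    simp [derAP, poly, lz, AZ]
    try ring
  · refine ⟨poly [], ?_⟩
    simp [derAP, poly, lz, AZ]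
    try ring
  · refine ⟨poly [], ?_⟩
    simp [derAP, poly, lz, AZ]
    try ring
  · refine ⟨poly [], ?_⟩
    simp [derAP, poly, lz, AZ]
    try ring
  · refine ⟨poly [], ?_⟩
    simp [derAP, poly, lz, AZ]
    try ring

/-- A logarithmic derivation. -/
noncomputable def derAT1 : Derivation K (MvPolynomial (Fin 3) K) (MvPolynomial (Fin 3) K) :=
  mk (poly [(-2, 4, 0, 0), (-2, 3, 1, 0), (6, 2, 2, 0), (4, 1, 3, 0)])
    (poly [(6, 3, 1, 0), (2, 2, 2, 0), (-2, 1, 3, 0)])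
    (poly [(6, 3, 0, 1), (38, 2, 1, 1), (-36, 2, 0, 2), (30, 1, 2, 1), (-72, 1, 1, 2), (40, 1, 0, 3), (4, 0, 3, 1), (-24, 0, 2, 2), (32, 0, 1, 3), (-12, 0, 0, 4)])

theorem derAT1_homog : IsHomogDer (derAT1 (K := K)) 4 :=
  mk_homog (poly_hom _ (by decide)) (poly_hom _ (by decide)) (poly_hom _ (by decide))

theorem derAT1_mem : (derAT1 (K := K)) ∈ logDer (cst AZ) := by
  rw [mem_logDer_iff]
  intro i
  fin_cases i
  · refine ⟨poly [(6, 3, 0, 0), (38, 2, 1, 0), (-36, 2, 0, 1), (30, 1, 2, 0), (-72, 1, 1, 1), (40, 1, 0, 2), (4, 0, 3, 0), (-24, 0, 2, 1), (32, 0, 1, 2), (-12, 0, 0, 3)], ?_⟩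
    simp [derAT1, poly, lz, AZ]
    try ring
  · refine ⟨poly [(-2, 3, 0, 0), (-2, 2, 1, 0), (-8, 2, 0, 1), (6, 1, 2, 0), (-40, 1, 1, 1), (28, 1, 0, 2), (4, 0, 3, 0), (-24, 0, 2, 1), (32, 0, 1, 2), (-12, 0, 0, 3)], ?_⟩
    simp [derAT1, poly, lz, AZ]
    try ring
  · refine ⟨poly [(6, 3, 0, 0), (2, 2, 1, 0), (-36, 2, 0, 1), (-2, 1, 2, 0), (-32, 1, 1, 1), (40, 1, 0, 2), (-4, 0, 2, 1), (20, 0, 1, 2), (-12, 0, 0, 3)], ?_⟩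
    simp [derAT1, poly, lz, AZ]
    try ring
  · refine ⟨poly [(-2, 3, 0, 0), (6, 2, 1, 0), (-8, 2, 0, 1), (2, 1, 2, 0), (-24, 1, 1, 1), (28, 1, 0, 2), (-4, 0, 2, 1), (20, 0, 1, 2), (-12, 0, 0, 3)], ?_⟩
    simp [derAT1, poly, lz, AZ]
    try ring
  · refine ⟨poly [(-2, 3, 0, 0), (2, 2, 1, 0), (-4, 2, 0, 1), (6, 1, 2, 0), (-16, 1, 1, 1), (16, 1, 0, 2), (-4, 0, 2, 1), (20, 0, 1, 2), (-12, 0, 0, 3)], ?_⟩
    simp [derAT1, poly, lz, AZ]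
    try ring
  · refine ⟨poly [(-2, 3, 0, 0), (-10, 2, 1, 0), (-6, 1, 2, 0)], ?_⟩
    simp [derAT1, poly, lz, AZ]
    try ring
  · refine ⟨poly [(6, 3, 0, 0), (2, 2, 1, 0), (-2, 1, 2, 0)], ?_⟩
    simp [derAT1, poly, lz, AZ]
    try ring
  · refine ⟨poly [(-2, 3, 0, 0), (6, 2, 1, 0), (2, 1, 2, 0)], ?_⟩
    simp [derAT1, poly, lz, AZ]
    try ring
  · refine ⟨poly [(-2, 3, 0, 0), (2, 2, 1, 0), (6, 1, 2, 0)], ?_⟩
    simp [derAT1, poly, lz, AZ]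
    try ring

/-- A logarithmic derivation. -/
noncomputable def derAT2 : Derivation K (MvPolynomial (Fin 3) K) (MvPolynomial (Fin 3) K) :=
  mk (poly [(-2, 3, 2, 1), (4, 3, 1, 2), (-2, 3, 0, 3), (-2, 2, 3, 1), (4, 2, 2, 2), (-2, 2, 1, 3), (6, 1, 4, 1), (-12, 1, 3, 2), (6, 1, 2, 3), (4, 0, 5, 1), (-8, 0, 4, 2), (4, 0, 3, 3)])
    (poly [(6, 2, 3, 1), (-12, 2, 2, 2), (6, 2, 1, 3), (2, 1, 4, 1), (-4, 1, 3, 2), (2, 1, 2, 3), (-2, 0, 5, 1), (4, 0, 4, 2), (-2, 0, 3, 3)])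
    (poly [(16, 4, 1, 1), (-16, 4, 0, 2), (-24, 3, 1, 2), (24, 3, 0, 3), (-20, 2, 3, 1), (30, 2, 2, 2), (-10, 2, 0, 4), (18, 1, 3, 2), (-28, 1, 2, 3), (10, 1, 1, 4), (4, 0, 5, 1), (-2, 0, 4, 2), (-8, 0, 3, 3), (6, 0, 2, 4)])

theorem derAT2_homog : IsHomogDer (derAT2 (K := K)) 6 :=
  mk_homog (poly_hom _ (by decide)) (poly_hom _ (by decide)) (poly_hom _ (by decide))

theorem derAT2_mem : (derAT2 (K := K)) ∈ logDer (cst AZ) := by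
  rw [mem_logDer_iff]
  intro i
  fin_cases i
  · refine ⟨poly [(16, 4, 1, 0), (-16, 4, 0, 1), (-24, 3, 1, 1), (24, 3, 0, 2), (-20, 2, 3, 0), (30, 2, 2, 1), (-10, 2, 0, 3), (18, 1, 3, 1), (-28, 1, 2, 2), (10, 1, 1, 3), (4, 0, 5, 0), (-2, 0, 4, 1), (-8, 0, 3, 2), (6, 0, 2, 3)], ?_⟩
    simp [derAT2, poly, lz, AZ]
    try ring
  · refine ⟨poly [(-16, 3, 1, 1), (16, 3, 0, 2), (-2, 2, 2, 1), (12, 2, 1, 2), (-10, 2, 0, 3), (18, 1, 3, 1), (-28, 1, 2, 2), (10, 1, 1, 3), (6, 0, 4, 1), (-12, 0, 3, 2), (6, 0, 2, 3)], ?_⟩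
    simp [derAT2, poly, lz, AZ]
    try ring
  · refine ⟨poly [(-16, 4, 0, 1), (24, 3, 0, 2), (26, 2, 2, 1), (-16, 2, 1, 2), (-10, 2, 0, 3), (2, 1, 3, 1), (-20, 1, 2, 2), (10, 1, 1, 3), (-6, 0, 4, 1), (6, 0, 2, 3)], ?_⟩
    simp [derAT2, poly, lz, AZ]
    try ring
  · refine ⟨poly [(-16, 3, 1, 1), (16, 3, 0, 2), (14, 2, 2, 1), (-4, 2, 1, 2), (-10, 2, 0, 3), (10, 1, 3, 1), (-20, 1, 2, 2), (10, 1, 1, 3), (-2, 0, 4, 1), (-4, 0, 3, 2), (6, 0, 2, 3)], ?_⟩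
    simp [derAT2, poly, lz, AZ]
    try ring
  · refine ⟨poly [(-8, 3, 1, 1), (8, 3, 0, 2), (2, 2, 2, 1), (8, 2, 1, 2), (-10, 2, 0, 3), (10, 1, 3, 1), (-20, 1, 2, 2), (10, 1, 1, 3), (2, 0, 4, 1), (-8, 0, 3, 2), (6, 0, 2, 3)], ?_⟩
    simp [derAT2, poly, lz, AZ]
    try ring
  · refine ⟨poly [(-2, 2, 2, 1), (4, 2, 1, 2), (-2, 2, 0, 3), (-10, 1, 3, 1), (20, 1, 2, 2), (-10, 1, 1, 3), (-6, 0, 4, 1), (12, 0, 3, 2), (-6, 0, 2, 3)], ?_⟩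
    simp [derAT2, poly, lz, AZ]
    try ring
  · refine ⟨poly [(6, 2, 2, 1), (-12, 2, 1, 2), (6, 2, 0, 3), (2, 1, 3, 1), (-4, 1, 2, 2), (2, 1, 1, 3), (-2, 0, 4, 1), (4, 0, 3, 2), (-2, 0, 2, 3)], ?_⟩
    simp [derAT2, poly, lz, AZ]
    try ring
  · refine ⟨poly [(-2, 2, 2, 1), (4, 2, 1, 2), (-2, 2, 0, 3), (6, 1, 3, 1), (-12, 1, 2, 2), (6, 1, 1, 3), (2, 0, 4, 1), (-4, 0, 3, 2), (2, 0, 2, 3)], ?_⟩
    simp [derAT2, poly, lz, AZ]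
    try ring
  · refine ⟨poly [(-2, 2, 2, 1), (4, 2, 1, 2), (-2, 2, 0, 3), (2, 1, 3, 1), (-4, 1, 2, 2), (2, 1, 1, 3), (6, 0, 4, 1), (-12, 0, 3, 2), (6, 0, 2, 3)], ?_⟩
    simp [derAT2, poly, lz, AZ]
    try ring

/-- Coefficient vectors of the second arrangement. -/
def BZ : Fin 9 → Fin 3 → ℤ :=
  ![![0, 0, 1], ![1, 0, -2], ![0, 1, -1], ![1, 1, -2], ![3, 1, -4], ![-1, 2, 0], ![0, 1, 0], ![1, 1, 0], ![3, 1, 0]]

/-- A logarithmic derivation. -/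
noncomputable def derBE : Derivation K (MvPolynomial (Fin 3) K) (MvPolynomial (Fin 3) K) :=
  mk (poly [(1, 1, 0, 0)])
    (poly [(1, 0, 1, 0)])
    (poly [(1, 0, 0, 1)])

theorem derBE_homog : IsHomogDer (derBE (K := K)) 1 :=
  mk_homog (poly_hom _ (by decide)) (poly_hom _ (by decide)) (poly_hom _ (by decide))

theorem derBE_mem : (derBE (K := K)) ∈ logDer (cst BZ) := by
  rw [mem_logDer_iff]
  intro i
  fin_cases i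
  · refine ⟨poly [(1, 0, 0, 0)], ?_⟩
    simp [derBE, poly, lz, BZ]
    try ring
  · refine ⟨poly [(1, 0, 0, 0)], ?_⟩
    simp [derBE, poly, lz, BZ]
    try ring
  · refine ⟨poly [(1, 0, 0, 0)], ?_⟩
    simp [derBE, poly, lz, BZ]
    try ring
  · refine ⟨poly [(1, 0, 0, 0)], ?_⟩
    simp [derBE, poly, lz, BZ]
    try ring
  · refine ⟨poly [(1, 0, 0, 0)], ?_⟩
    simp [derBE, poly, lz, BZ]
    try ring
  · refine ⟨poly [(1, 0, 0, 0)], ?_⟩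
    simp [derBE, poly, lz, BZ]
    try ring
  · refine ⟨poly [(1, 0, 0, 0)], ?_⟩
    simp [derBE, poly, lz, BZ]
    try ring
  · refine ⟨poly [(1, 0, 0, 0)], ?_⟩
    simp [derBE, poly, lz, BZ]
    try ring
  · refine ⟨poly [(1, 0, 0, 0)], ?_⟩
    simp [derBE, poly, lz, BZ]
    try ring

/-- A logarithmic derivation. -/
noncomputable def derBP : Derivation K (MvPolynomial (Fin 3) K) (MvPolynomial (Fin 3) K) :=
  mk (poly [])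
    (poly [])
    (poly [(3, 3, 1, 1), (-3, 3, 0, 2), (4, 2, 2, 1), (-20, 2, 1, 2), (16, 2, 0, 3), (1, 1, 3, 1), (-15, 1, 2, 2), (42, 1, 1, 3), (-28, 1, 0, 4), (-2, 0, 3, 2), (14, 0, 2, 3), (-28, 0, 1, 4), (16, 0, 0, 5)])

theorem derBP_homog : IsHomogDer (derBP (K := K)) 5 :=
  mk_homog (poly_hom _ (by decide)) (poly_hom _ (by decide)) (poly_hom _ (by decide))

theorem derBP_mem : (derBP (K := K)) ∈ logDer (cst BZ) := by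
  rw [mem_logDer_iff]
  intro i
  fin_cases i
  · refine ⟨poly [(3, 3, 1, 0), (-3, 3, 0, 1), (4, 2, 2, 0), (-20, 2, 1, 1), (16, 2, 0, 2), (1, 1, 3, 0), (-15, 1, 2, 1), (42, 1, 1, 2), (-28, 1, 0, 3), (-2, 0, 3, 1), (14, 0, 2, 2), (-28, 0, 1, 3), (16, 0, 0, 4)], ?_⟩
    simp [derBP, poly, lz, BZ]
    try ring
  · refine ⟨poly [(-6, 2, 1, 1), (6, 2, 0, 2), (-8, 1, 2, 1), (28, 1, 1, 2), (-20, 1, 0, 3), (-2, 0, 3, 1), (14, 0, 2, 2), (-28, 0, 1, 3), (16, 0, 0, 4)], ?_⟩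
    simp [derBP, poly, lz, BZ]
    try ring
  · refine ⟨poly [(-3, 3, 0, 1), (-4, 2, 1, 1), (16, 2, 0, 2), (-1, 1, 2, 1), (14, 1, 1, 2), (-28, 1, 0, 3), (2, 0, 2, 2), (-12, 0, 1, 3), (16, 0, 0, 4)], ?_⟩
    simp [derBP, poly, lz, BZ]
    try ring
  · refine ⟨poly [(-6, 2, 1, 1), (6, 2, 0, 2), (-2, 1, 2, 1), (22, 1, 1, 2), (-20, 1, 0, 3), (4, 0, 2, 2), (-20, 0, 1, 3), (16, 0, 0, 4)], ?_⟩
    simp [derBP, poly, lz, BZ]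
    try ring
  · refine ⟨poly [(-4, 2, 1, 1), (4, 2, 0, 2), (-4, 1, 2, 1), (20, 1, 1, 2), (-16, 1, 0, 3), (8, 0, 2, 2), (-24, 0, 1, 3), (16, 0, 0, 4)], ?_⟩
    simp [derBP, poly, lz, BZ]
    try ring
  · refine ⟨poly [], ?_⟩
    simp [derBP, poly, lz, BZ]
    try ring
  · refine ⟨poly [], ?_⟩
    simp [derBP, poly, lz, BZ]
    try ring
  · refine ⟨poly [], ?_⟩
    simp [derBP, poly, lz, BZ]
    try ring
  · refine ⟨poly [], ?_⟩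
    simp [derBP, poly, lz, BZ]
    try ring

/-- A logarithmic derivation. -/
noncomputable def derBS1 : Derivation K (MvPolynomial (Fin 3) K) (MvPolynomial (Fin 3) K) :=
  mk (poly [(-3, 4, 0, 1), (7, 3, 1, 1), (17, 2, 2, 1), (-13, 1, 3, 1), (-8, 0, 4, 1)])
    (poly [(9, 3, 1, 1), (-13, 2, 2, 1), (-3, 1, 3, 1), (7, 0, 4, 1)])
    (poly [(48, 3, 1, 1), (-39, 3, 0, 2), (52, 2, 2, 1), (-185, 2, 1, 2), (120, 2, 0, 3), (-115, 1, 2, 2), (208, 1, 1, 3), (-96, 1, 0, 4), (-4, 0, 4, 1), (-13, 0, 3, 2), (56, 0, 2, 3), (-32, 0, 1, 4)])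

theorem derBS1_homog : IsHomogDer (derBS1 (K := K)) 5 :=
  mk_homog (poly_hom _ (by decide)) (poly_hom _ (by decide)) (poly_hom _ (by decide))

theorem derBS1_mem : (derBS1 (K := K)) ∈ logDer (cst BZ) := by
  rw [mem_logDer_iff]
  intro i
  fin_cases i
  · refine ⟨poly [(48, 3, 1, 0), (-39, 3, 0, 1), (52, 2, 2, 0), (-185, 2, 1, 1), (120, 2, 0, 2), (-115, 1, 2, 1), (208, 1, 1, 2), (-96, 1, 0, 3), (-4, 0, 4, 0), (-13, 0, 3, 1), (56, 0, 2, 2), (-32, 0, 1, 3)], ?_⟩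
    simp [derBS1, poly, lz, BZ]
    try ring
  · refine ⟨poly [(-3, 3, 0, 1), (-89, 2, 1, 1), (72, 2, 0, 2), (-87, 1, 2, 1), (192, 1, 1, 2), (-96, 1, 0, 3), (-13, 0, 3, 1), (56, 0, 2, 2), (-32, 0, 1, 3)], ?_⟩
    simp [derBS1, poly, lz, BZ]
    try ring
  · refine ⟨poly [(-39, 3, 0, 1), (-65, 2, 1, 1), (120, 2, 0, 2), (-3, 1, 2, 1), (112, 1, 1, 2), (-96, 1, 0, 3), (11, 0, 3, 1), (24, 0, 2, 2), (-32, 0, 1, 3)], ?_⟩
    simp [derBS1, poly, lz, BZ]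
    try ring
  · refine ⟨poly [(-3, 3, 0, 1), (-77, 2, 1, 1), (72, 2, 0, 2), (-23, 1, 2, 1), (144, 1, 1, 2), (-96, 1, 0, 3), (7, 0, 3, 1), (40, 0, 2, 2), (-32, 0, 1, 3)], ?_⟩
    simp [derBS1, poly, lz, BZ]
    try ring
  · refine ⟨poly [(-3, 3, 0, 1), (-53, 2, 1, 1), (48, 2, 0, 2), (-39, 1, 2, 1), (160, 1, 1, 2), (-96, 1, 0, 3), (-1, 0, 3, 1), (48, 0, 2, 2), (-32, 0, 1, 3)], ?_⟩
    simp [derBS1, poly, lz, BZ]
    try ring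
  · refine ⟨poly [(-3, 3, 0, 1), (-17, 2, 1, 1), (9, 1, 2, 1), (11, 0, 3, 1)], ?_⟩
    simp [derBS1, poly, lz, BZ]
    try ring
  · refine ⟨poly [(9, 3, 0, 1), (-13, 2, 1, 1), (-3, 1, 2, 1), (7, 0, 3, 1)], ?_⟩
    simp [derBS1, poly, lz, BZ]
    try ring
  · refine ⟨poly [(-3, 3, 0, 1), (19, 2, 1, 1), (-15, 1, 2, 1), (-1, 0, 3, 1)], ?_⟩
    simp [derBS1, poly, lz, BZ]
    try ring
  · refine ⟨poly [(-3, 3, 0, 1), (11, 2, 1, 1), (9, 1, 2, 1), (-17, 0, 3, 1)], ?_⟩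
    simp [derBS1, poly, lz, BZ]
    try ring

/-- A logarithmic derivation. -/
noncomputable def derBS2 : Derivation K (MvPolynomial (Fin 3) K) (MvPolynomial (Fin 3) K) :=
  mk (poly [(-3, 4, 1, 0), (4, 3, 2, 0), (6, 3, 1, 1), (-3, 3, 0, 2), (21, 2, 3, 0), (-8, 2, 2, 1), (4, 2, 1, 2), (8, 1, 4, 0), (-42, 1, 3, 1), (21, 1, 2, 2), (-16, 0, 4, 1), (8, 0, 3, 2)])
    (poly [(9, 3, 2, 0), (-4, 2, 3, 0), (-18, 2, 2, 1), (9, 2, 1, 2), (-7, 1, 4, 0), (8, 1, 3, 1), (-4, 1, 2, 2), (14, 0, 4, 1), (-7, 0, 3, 2)])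
    (poly [(27, 3, 1, 1), (-18, 3, 0, 2), (84, 2, 2, 1), (-154, 2, 1, 2), (57, 2, 0, 3), (39, 1, 3, 1), (-262, 1, 2, 2), (268, 1, 1, 3), (-48, 1, 0, 4), (-74, 0, 3, 2), (209, 0, 2, 3), (-128, 0, 1, 4)])

theorem derBS2_homog : IsHomogDer (derBS2 (K := K)) 5 :=
  mk_homog (poly_hom _ (by decide)) (poly_hom _ (by decide)) (poly_hom _ (by decide))

theorem derBS2_mem : (derBS2 (K := K)) ∈ logDer (cst BZ) := by
  rw [mem_logDer_iff]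
  intro i
  fin_cases i
  · refine ⟨poly [(27, 3, 1, 0), (-18, 3, 0, 1), (84, 2, 2, 0), (-154, 2, 1, 1), (57, 2, 0, 2), (39, 1, 3, 0), (-262, 1, 2, 1), (268, 1, 1, 2), (-48, 1, 0, 3), (-74, 0, 3, 1), (209, 0, 2, 2), (-128, 0, 1, 3)], ?_⟩
    simp [derBS2, poly, lz, BZ]
    try ring
  · refine ⟨poly [(-3, 3, 1, 0), (4, 2, 2, 0), (-54, 2, 1, 1), (33, 2, 0, 2), (21, 1, 3, 0), (-168, 1, 2, 1), (204, 1, 1, 2), (-48, 1, 0, 3), (8, 0, 4, 0), (-78, 0, 3, 1), (209, 0, 2, 2), (-128, 0, 1, 3)], ?_⟩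
    simp [derBS2, poly, lz, BZ]
    try ring
  · refine ⟨poly [(9, 3, 1, 0), (-18, 3, 0, 1), (-4, 2, 2, 0), (-106, 2, 1, 1), (57, 2, 0, 2), (-7, 1, 3, 0), (-38, 1, 2, 1), (220, 1, 1, 2), (-48, 1, 0, 3), (14, 0, 3, 1), (81, 0, 2, 2), (-128, 0, 1, 3)], ?_⟩
    simp [derBS2, poly, lz, BZ]
    try ring
  · refine ⟨poly [(-3, 3, 1, 0), (16, 2, 2, 0), (-54, 2, 1, 1), (33, 2, 0, 2), (1, 1, 3, 0), (-108, 1, 2, 1), (180, 1, 1, 2), (-48, 1, 0, 3), (-2, 0, 3, 1), (145, 0, 2, 2), (-128, 0, 1, 3)], ?_⟩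
    simp [derBS2, poly, lz, BZ]
    try ring
  · refine ⟨poly [(-3, 3, 1, 0), (8, 2, 2, 0), (-34, 2, 1, 1), (21, 2, 0, 2), (17, 1, 3, 0), (-104, 1, 2, 1), (160, 1, 1, 2), (-48, 1, 0, 3), (-34, 0, 3, 1), (177, 0, 2, 2), (-128, 0, 1, 3)], ?_⟩
    simp [derBS2, poly, lz, BZ]
    try ring
  · refine ⟨poly [(-3, 3, 1, 0), (-20, 2, 2, 0), (6, 2, 1, 1), (-3, 2, 0, 2), (-11, 1, 3, 0), (40, 1, 2, 1), (-20, 1, 1, 2), (22, 0, 3, 1), (-11, 0, 2, 2)], ?_⟩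
    simp [derBS2, poly, lz, BZ]
    try ring
  · refine ⟨poly [(9, 3, 1, 0), (-4, 2, 2, 0), (-18, 2, 1, 1), (9, 2, 0, 2), (-7, 1, 3, 0), (8, 1, 2, 1), (-4, 1, 1, 2), (14, 0, 3, 1), (-7, 0, 2, 2)], ?_⟩
    simp [derBS2, poly, lz, BZ]
    try ring
  · refine ⟨poly [(-3, 3, 1, 0), (16, 2, 2, 0), (6, 2, 1, 1), (-3, 2, 0, 2), (1, 1, 3, 0), (-32, 1, 2, 1), (16, 1, 1, 2), (-2, 0, 3, 1), (1, 0, 2, 2)], ?_⟩
    simp [derBS2, poly, lz, BZ]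
    try ring
  · refine ⟨poly [(-3, 3, 1, 0), (8, 2, 2, 0), (6, 2, 1, 1), (-3, 2, 0, 2), (17, 1, 3, 0), (-16, 1, 2, 1), (8, 1, 1, 2), (-34, 0, 3, 1), (17, 0, 2, 2)], ?_⟩
    simp [derBS2, poly, lz, BZ]
    try ring

/-- A logarithmic derivation. -/
noncomputable def derBS3 : Derivation K (MvPolynomial (Fin 3) K) (MvPolynomial (Fin 3) K) :=
  mk (poly [(-3, 5, 0, 0), (4, 4, 1, 0), (21, 3, 2, 0), (6, 3, 1, 1), (-3, 3, 0, 2), (8, 2, 3, 0), (-8, 2, 2, 1), (4, 2, 1, 2), (-42, 1, 3, 1), (21, 1, 2, 2), (-16, 0, 4, 1), (8, 0, 3, 2)])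
    (poly [(9, 4, 1, 0), (-4, 3, 2, 0), (-7, 2, 3, 0), (-18, 2, 2, 1), (9, 2, 1, 2), (8, 1, 3, 1), (-4, 1, 2, 2), (14, 0, 4, 1), (-7, 0, 3, 2)])
    (poly [(9, 4, 0, 1), (150, 3, 1, 1), (-154, 3, 0, 2), (129, 2, 2, 1), (-554, 2, 1, 2), (409, 2, 0, 3), (-2, 1, 3, 1), (-262, 1, 2, 2), (572, 1, 1, 3), (-304, 1, 0, 4), (-8, 0, 4, 1), (-18, 0, 3, 2), (97, 0, 2, 3), (-64, 0, 1, 4)])

theorem derBS3_homog : IsHomogDer (derBS3 (K := K)) 5 :=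
  mk_homog (poly_hom _ (by decide)) (poly_hom _ (by decide)) (poly_hom _ (by decide))

theorem derBS3_mem : (derBS3 (K := K)) ∈ logDer (cst BZ) := by
  rw [mem_logDer_iff]
  intro i
  fin_cases i
  · refine ⟨poly [(9, 4, 0, 0), (150, 3, 1, 0), (-154, 3, 0, 1), (129, 2, 2, 0), (-554, 2, 1, 1), (409, 2, 0, 2), (-2, 1, 3, 0), (-262, 1, 2, 1), (572, 1, 1, 2), (-304, 1, 0, 3), (-8, 0, 4, 0), (-18, 0, 3, 1), (97, 0, 2, 2), (-64, 0, 1, 3)], ?_⟩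
    simp [derBS3, poly, lz, BZ]
    try ring
  · refine ⟨poly [(-3, 4, 0, 0), (4, 3, 1, 0), (-24, 3, 0, 1), (21, 2, 2, 0), (-286, 2, 1, 1), (257, 2, 0, 2), (8, 1, 3, 0), (-224, 1, 2, 1), (540, 1, 1, 2), (-304, 1, 0, 3), (-22, 0, 3, 1), (97, 0, 2, 2), (-64, 0, 1, 3)], ?_⟩
    simp [derBS3, poly, lz, BZ]
    try ring
  · refine ⟨poly [(9, 4, 0, 0), (-4, 3, 1, 0), (-154, 3, 0, 1), (-7, 2, 2, 0), (-154, 2, 1, 1), (409, 2, 0, 2), (10, 1, 2, 1), (268, 1, 1, 2), (-304, 1, 0, 3), (22, 0, 3, 1), (33, 0, 2, 2), (-64, 0, 1, 3)], ?_⟩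
    simp [derBS3, poly, lz, BZ]
    try ring
  · refine ⟨poly [(-3, 4, 0, 0), (16, 3, 1, 0), (-24, 3, 0, 1), (1, 2, 2, 0), (-238, 2, 1, 1), (257, 2, 0, 2), (-44, 1, 2, 1), (388, 1, 1, 2), (-304, 1, 0, 3), (14, 0, 3, 1), (65, 0, 2, 2), (-64, 0, 1, 3)], ?_⟩
    simp [derBS3, poly, lz, BZ]
    try ring
  · refine ⟨poly [(-3, 4, 0, 0), (8, 3, 1, 0), (-16, 3, 0, 1), (17, 2, 2, 0), (-178, 2, 1, 1), (181, 2, 0, 2), (-104, 1, 2, 1), (448, 1, 1, 2), (-304, 1, 0, 3), (-2, 0, 3, 1), (81, 0, 2, 2), (-64, 0, 1, 3)], ?_⟩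
    simp [derBS3, poly, lz, BZ]
    try ring
  · refine ⟨poly [(-3, 4, 0, 0), (-20, 3, 1, 0), (-11, 2, 2, 0), (6, 2, 1, 1), (-3, 2, 0, 2), (40, 1, 2, 1), (-20, 1, 1, 2), (22, 0, 3, 1), (-11, 0, 2, 2)], ?_⟩
    simp [derBS3, poly, lz, BZ]
    try ring
  · refine ⟨poly [(9, 4, 0, 0), (-4, 3, 1, 0), (-7, 2, 2, 0), (-18, 2, 1, 1), (9, 2, 0, 2), (8, 1, 2, 1), (-4, 1, 1, 2), (14, 0, 3, 1), (-7, 0, 2, 2)], ?_⟩
    simp [derBS3, poly, lz, BZ]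
    try ring
  · refine ⟨poly [(-3, 4, 0, 0), (16, 3, 1, 0), (1, 2, 2, 0), (6, 2, 1, 1), (-3, 2, 0, 2), (-32, 1, 2, 1), (16, 1, 1, 2), (-2, 0, 3, 1), (1, 0, 2, 2)], ?_⟩
    simp [derBS3, poly, lz, BZ]
    try ring
  · refine ⟨poly [(-3, 4, 0, 0), (8, 3, 1, 0), (17, 2, 2, 0), (6, 2, 1, 1), (-3, 2, 0, 2), (-16, 1, 2, 1), (8, 1, 1, 2), (-34, 0, 3, 1), (17, 0, 2, 2)], ?_⟩
    simp [derBS3, poly, lz, BZ]
    try ring

end Pool.Agent.V1148.M52
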