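import Mathlib
import Pool.Agent.V1148.M52Data

set_option autoImplicit false

/-!
# Common lemmas for the two arrangements of nine planes
-/

namespace Pool.Agent.V1148.M52

open MvPolynomial

variable {K : Type*} [Field K]

theorem cross_cst [CharZero K] (Z : Fin 9 → Fin 3 → ℤ)
    (h : ∀ i j, i ≠ j → cross3 (Z i) (Z j) ≠ 0) (i j : Fin 9) (hij : i ≠ j) :
    cross3 (cst Z i : Fin 3 → K) (cst Z j) ≠ 0 := by
  intro hc
  apply h i j hij
  have key : ∀ k, cross3 (cst Z i : Fin 3 → K) (cst Z j) k = ((cross3 (Z i) (Z j) k : ℤ) : K) := by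
    intro k
    fin_cases k <;> simp [cross3, cst]
  funext k
  have := key k
  rw [hc] at this
  simp only [Pi.zero_apply] at this
  exact_mod_cast this.symm

theorem det_cst [CharZero K] (Z : Fin 9 → Fin 3 → ℤ) (i j k : Fin 9) :
    det3 (cst Z i : Fin 3 → K) (cst Z j) (cst Z k) = 0 ↔ det3 (Z i) (Z j) (Z k) = 0 := by
  have key : det3 (cst Z i : Fin 3 → K) (cst Z j) (cst Z k) =
      ((det3 (Z i) (Z j) (Z k) : ℤ) : K) := by
    simp [det3, cst]
  rw [key]
  exact Int.cast_eq_zero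

theorem cst_ne_zero [CharZero K] (Z : Fin 9 → Fin 3 → ℤ)
    (h : ∀ i j, i ≠ j → cross3 (Z i) (Z j) ≠ 0) (i : Fin 9) : (cst Z i : Fin 3 → K) ≠ 0 := by
  have : ∃ j : Fin 9, i ≠ j := ⟨i + 1, by fin_cases i <;> decide⟩
  obtain ⟨j, hj⟩ := this
  exact ne_zero_of_cross (cross_cst Z h i j hj)

theorem prod_lz_dvd [CharZero K] (Z : Fin 9 → Fin 3 → ℤ)
    (h : ∀ i j, i ≠ j → cross3 (Z i) (Z j) ≠ 0) (s : Finset (Fin 9))
    (F : MvPolynomial (Fin 3) K) (hF : ∀ i ∈ s, (lz (Z i) : MvPolynomial (Fin 3) K) ∣ F) :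
    ∏ i ∈ s, (lz (Z i) : MvPolynomial (Fin 3) K) ∣ F := by
  apply Finset.prod_dvd_of_isRelPrime _ hF
  intro i _ j _ hij
  have := lin_isRelPrime_of_cross (cross_cst (K := K) Z h i j hij)
  rw [lin_cst, lin_cst] at this
  exact this

/-- Restriction to the plane `x = 0`. -/
noncomputable def r0 : MvPolynomial (Fin 3) K →ₐ[K] MvPolynomial (Fin 3) K :=
  res ![1, 0, 0] 0

@[simp] theorem r0_X0 : r0 (X 0 : MvPolynomial (Fin 3) K) = 0 := by
  simp [r0, res_X_self, lin, Fin.sum_univ_three]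

@[simp] theorem r0_X1 : r0 (X 1 : MvPolynomial (Fin 3) K) = X 1 := by
  rw [r0, res_X_of_ne _ (by decide)]

@[simp] theorem r0_X2 : r0 (X 2 : MvPolynomial (Fin 3) K) = X 2 := by
  rw [r0, res_X_of_ne _ (by decide)]

theorem r0_dvd (F : MvPolynomial (Fin 3) K) : X 0 ∣ F - r0 F := by
  have := dvd_sub_res (![1, 0, 0] : Fin 3 → K) 0 F
  simpa [r0, lin, Fin.sum_univ_three] using this

theorem prime_X (i : Fin 3) : Prime (X i : MvPolynomial (Fin 3) K) := by
  have h : (Pi.single i 1 : Fin 3 → K) ≠ 0 := by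
    intro h
    have := congrFun h i
    simp at this
  have := lin_prime h
  have h2 : lin (Pi.single i 1 : Fin 3 → K) = X i := by
    simp [lin, Pi.single_apply]
  rwa [h2] at this

theorem X_not_dvd_X {i j : Fin 3} (h : i ≠ j) : ¬ (X i : MvPolynomial (Fin 3) K) ∣ X j := by
  intro hd
  have h1 : (Pi.single i 1 : Fin 3 → K) ≠ 0 := by
    intro h
    have := congrFun h i
    simp at this
  have h2 : ∀ i : Fin 3, lin (Pi.single i 1 : Fin 3 → K) = X i := fun i => by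
    simp [lin, Pi.single_apply]
  rw [← h2 i, ← h2 j, lin_dvd_lin_iff h1] at hd
  obtain ⟨c, hc⟩ := hd
  have := congrFun hc j
  simp [h.symm] at this

/-- If `X i` divides `X j ^ k * F` and `i ≠ j` then `X i` divides `F`. -/
theorem X_dvd_of_dvd_pow_mul {i j : Fin 3} (h : i ≠ j) {k : ℕ} {F : MvPolynomial (Fin 3) K}
    (hd : (X i : MvPolynomial (Fin 3) K) ∣ X j ^ k * F) : (X i : MvPolynomial (Fin 3) K) ∣ F := by
  rcases (prime_X i).dvd_or_dvd hd with h1 | h1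
  · exact absurd ((prime_X i).dvd_of_dvd_pow h1) (X_not_dvd_X h)
  · exact h1

theorem prime_sub : Prime (X 2 - X 1 : MvPolynomial (Fin 3) K) := by
  have h : (![0, -1, 1] : Fin 3 → K) ≠ 0 := by
    intro h
    have := congrFun h 2
    simp at this
  have := lin_prime h
  have h2 : lin (![0, -1, 1] : Fin 3 → K) = X 2 - X 1 := by
    simp [lin, Fin.sum_univ_three]
    ring
  rwa [h2] at this

theorem sub_not_dvd_X1 : ¬ (X 2 - X 1 : MvPolynomial (Fin 3) K) ∣ X 1 := by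
  rintro ⟨q, hq⟩
  have := congrArg (aeval (![0, 1, 1] : Fin 3 → K)) hq
  simp at this

theorem sub_not_dvd_X2 : ¬ (X 2 - X 1 : MvPolynomial (Fin 3) K) ∣ X 2 := by
  rintro ⟨q, hq⟩
  have := congrArg (aeval (![0, 1, 1] : Fin 3 → K)) hq
  simp at this

theorem sub_pow_dvd {i : ℕ} {k : ℕ} {F : MvPolynomial (Fin 3) K}
    (hd : (X 2 - X 1 : MvPolynomial (Fin 3) K) ^ i ∣ X 1 ^ k * F) :
    (X 2 - X 1 : MvPolynomial (Fin 3) K) ^ i ∣ F := by
  have h1 : IsRelPrime ((X 2 - X 1 : MvPolynomial (Fin 3) K) ^ i) (X 1 ^ k) := by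
    apply IsRelPrime.pow
    rw [prime_sub.irreducible.isRelPrime_iff_not_dvd]
    exact sub_not_dvd_X1
  exact h1.dvd_of_dvd_mul_left hd

theorem X2_mul_sub_pow_dvd {i : ℕ} {F : MvPolynomial (Fin 3) K}
    (h1 : (X 2 : MvPolynomial (Fin 3) K) ∣ F)
    (hd : (X 2 - X 1 : MvPolynomial (Fin 3) K) ^ i ∣ F) :
    (X 2 : MvPolynomial (Fin 3) K) * (X 2 - X 1 : MvPolynomial (Fin 3) K) ^ i ∣ F := by
  have h2 : IsRelPrime (X 2 : MvPolynomial (Fin 3) K) ((X 2 - X 1 : MvPolynomial (Fin 3) K) ^ i) := by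
    apply IsRelPrime.pow_right
    apply IsRelPrime.symm
    rw [prime_sub.irreducible.isRelPrime_iff_not_dvd]
    exact sub_not_dvd_X2
  exact h2.mul_dvd h1 hd

/-- A derivation with `x θ(y) = y θ(x)` is, up to a multiple of the Euler derivation, a
multiple of `∂_z`. -/
theorem euler_of_cross {U V : MvPolynomial (Fin 3) K} (h : X 0 * V = X 1 * U) :
    ∃ e, U = e * X 0 ∧ V = e * X 1 := by
  have h1 : (X 0 : MvPolynomial (Fin 3) K) ∣ X 1 ^ 1 * U := ⟨V, by rw [pow_one, h]⟩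
  obtain ⟨e, he⟩ := X_dvd_of_dvd_pow_mul (by decide) h1
  refine ⟨e, by rw [he, mul_comm], ?_⟩
  have hX : (X 0 : MvPolynomial (Fin 3) K) ≠ 0 := (prime_X 0).ne_zero
  apply mul_left_cancel₀ hX
  rw [h, he]
  ring

theorem der_ext3 {θ η : Derivation K (MvPolynomial (Fin 3) K) (MvPolynomial (Fin 3) K)}
    (h0 : θ (X 0) = η (X 0)) (h1 : θ (X 1) = η (X 1)) (h2 : θ (X 2) = η (X 2)) : θ = η := by
  apply der_ext'
  intro i
  fin_cases i
  · exact h0
  · exact h1
  · exact h2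

end Pool.Agent.V1148.M52
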