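import Mathlib
import Pool.Agent.V1148.M52Common

set_option autoImplicit false

/-!
# The first arrangement is strictly plus-one generated
-/

namespace Pool.Agent.V1148.M52

open MvPolynomial

variable {K : Type*} [Field K] [CharZero K]

theorem AZ_cross : ∀ i j, i ≠ j → cross3 (AZ i) (AZ j) ≠ 0 := by decide +kernel

/-- The product of the four pencil forms. -/
noncomputable def gA : MvPolynomial (Fin 3) K :=
  (X 1 - X 0) * X 1 * (X 0 + X 1) * (2 * X 0 + X 1)

/-- The product of the other five forms (up to sign). -/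
noncomputable def hA : MvPolynomial (Fin 3) K :=
  X 2 * (X 0 - X 2) * (X 1 - X 2) * (X 0 + X 1 - X 2) * (2 * X 0 + X 1 - X 2)

theorem gA_dvd (F : MvPolynomial (Fin 3) K) (h5 : X 1 - X 0 ∣ F) (h6 : X 1 ∣ F)
    (h7 : X 0 + X 1 ∣ F) (h8 : 2 * X 0 + X 1 ∣ F) : gA ∣ F := by
  have := prod_lz_dvd AZ AZ_cross {5, 6, 7, 8} F (by
    intro i hi
    simp only [Finset.mem_insert, Finset.mem_singleton] at hi
    rcases hi with rfl | rfl | rfl | rfl
    · simpa [lz, AZ, neg_add_eq_sub] using h5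
    · simpa [lz, AZ] using h6
    · simpa [lz, AZ] using h7
    · simpa [lz, AZ] using h8)
  rw [Finset.prod_insert (by decide), Finset.prod_insert (by decide),
    Finset.prod_insert (by decide), Finset.prod_singleton] at this
  have e : (lz (AZ 5) * (lz (AZ 6) * (lz (AZ 7) * lz (AZ 8))) : MvPolynomial (Fin 3) K) = gA := by
    simp [lz, AZ, gA]
    ring
  rwa [e] at this

theorem hA_dvd (F : MvPolynomial (Fin 3) K) (h0 : X 2 ∣ F) (h1 : X 0 - X 2 ∣ F)
    (h2 : X 1 - X 2 ∣ F) (h3 : X 0 + X 1 - X 2 ∣ F) (h4 : 2 * X 0 + X 1 - X 2 ∣ F) : hA ∣ F := by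
  have := prod_lz_dvd AZ AZ_cross {0, 1, 2, 3, 4} F (by
    intro i hi
    simp only [Finset.mem_insert, Finset.mem_singleton] at hi
    rcases hi with rfl | rfl | rfl | rfl | rfl
    · simpa [lz, AZ] using h0
    · simpa [lz, AZ, ← sub_eq_add_neg] using h1
    · simpa [lz, AZ, ← sub_eq_add_neg] using h2
    · simpa [lz, AZ, ← sub_eq_add_neg] using h3
    · simpa [lz, AZ, ← sub_eq_add_neg] using h4)
  rw [Finset.prod_insert (by decide), Finset.prod_insert (by decide),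
    Finset.prod_insert (by decide), Finset.prod_insert (by decide), Finset.prod_singleton] at this
  have e : (lz (AZ 0) * (lz (AZ 1) * (lz (AZ 2) * (lz (AZ 3) * lz (AZ 4)))) :
      MvPolynomial (Fin 3) K) = hA := by
    simp [lz, AZ, hA]
    ring
  rwa [e] at this

/-- Unpacking membership in the module of logarithmic derivations. -/
theorem A_unpack {θ : Derivation K (MvPolynomial (Fin 3) K) (MvPolynomial (Fin 3) K)}
    (h : θ ∈ logDer (cst AZ)) :
    X 2 ∣ θ (X 2) ∧ X 0 - X 2 ∣ θ (X 0) - θ (X 2) ∧ X 1 - X 2 ∣ θ (X 1) - θ (X 2) ∧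
    X 0 + X 1 - X 2 ∣ θ (X 0) + θ (X 1) - θ (X 2) ∧
    2 * X 0 + X 1 - X 2 ∣ 2 * θ (X 0) + θ (X 1) - θ (X 2) ∧
    X 1 - X 0 ∣ θ (X 1) - θ (X 0) ∧ X 1 ∣ θ (X 1) ∧ X 0 + X 1 ∣ θ (X 0) + θ (X 1) ∧
    2 * X 0 + X 1 ∣ 2 * θ (X 0) + θ (X 1) := by
  rw [mem_logDer_iff] at h
  refine ⟨?_, ?_, ?_, ?_, ?_, ?_, ?_, ?_, ?_⟩
  · simpa [lz, AZ] using h 0
  · simpa [lz, AZ, ← sub_eq_add_neg] using h 1
  · simpa [lz, AZ, ← sub_eq_add_neg] using h 2
  · simpa [lz, AZ, ← sub_eq_add_neg] using h 3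
  · simpa [lz, AZ, ← sub_eq_add_neg] using h 4
  · simpa [lz, AZ, neg_add_eq_sub] using h 5
  · simpa [lz, AZ] using h 6
  · simpa [lz, AZ] using h 7
  · simpa [lz, AZ] using h 8

theorem gA_ne_zero : (gA : MvPolynomial (Fin 3) K) ≠ 0 := by
  intro h
  have := congrArg (aeval (![0, 1, 0] : Fin 3 → K)) h
  simp [gA] at this

theorem hA_ne_zero : (hA : MvPolynomial (Fin 3) K) ≠ 0 := by
  intro h
  have := congrArg (aeval (![0, 0, 1] : Fin 3 → K)) h
  simp [hA] at this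

/-- The structure of the invariant `b`. -/
theorem A_key {θ : Derivation K (MvPolynomial (Fin 3) K) (MvPolynomial (Fin 3) K)}
    (h : θ ∈ logDer (cst AZ)) :
    ∃ β γ : MvPolynomial (Fin 3) K, X 0 * θ (X 1) - X 1 * θ (X 0) =
      gA * (X 0 * β + X 2 * (X 2 - X 1) ^ 2 * γ) := by
  obtain ⟨h0, h1, h2, h3, h4, h5, h6, h7, h8⟩ := A_unpack h
  generalize θ (X 0) = U at *
  generalize θ (X 1) = V at *
  generalize θ (X 2) = Y at *
  obtain ⟨q0, hq0⟩ := h0
  obtain ⟨q1, hq1⟩ := h1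
  obtain ⟨q2, hq2⟩ := h2
  obtain ⟨q3, hq3⟩ := h3
  obtain ⟨q4, hq4⟩ := h4
  obtain ⟨q5, hq5⟩ := h5
  obtain ⟨q6, hq6⟩ := h6
  obtain ⟨q7, hq7⟩ := h7
  obtain ⟨q8, hq8⟩ := h8
  obtain ⟨b, hb⟩ : gA ∣ X 0 * V - X 1 * U := by
    apply gA_dvd
    · exact ⟨X 0 * q5 - U, by linear_combination X 0 * hq5⟩
    · exact ⟨X 0 * q6 - U, by linear_combination X 0 * hq6⟩
    · exact ⟨X 0 * q7 - U, by linear_combination X 0 * hq7⟩
    · exact ⟨X 0 * q8 - U, by linear_combination X 0 * hq8⟩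
  -- the point `(0 : 1 : 0)`
  have hT0 : X 2 * (X 0 - X 2) ∣ X 2 * U - X 0 * Y := by
    have := prod_lz_dvd AZ AZ_cross {0, 1} (X 2 * U - X 0 * Y) (by
      intro i hi
      simp only [Finset.mem_insert, Finset.mem_singleton] at hi
      rcases hi with rfl | rfl
      · exact ⟨U - X 0 * q0, by simp [lz, AZ]; linear_combination -X 0 * hq0⟩
      · exact ⟨X 0 * q1 - U, by simp [lz, AZ]; linear_combination X 0 * hq1⟩)
    rw [Finset.prod_insert (by decide), Finset.prod_singleton] at this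
    simpa [lz, AZ, ← sub_eq_add_neg] using this
  obtain ⟨t0, ht0⟩ := hT0
  -- the point `(0 : 1 : 1)`
  have hT1 : (X 1 - X 2) * ((X 0 + X 1 - X 2) * (2 * X 0 + X 1 - X 2)) ∣
      (X 2 - X 1) * U - X 0 * (Y - V) := by
    have := prod_lz_dvd AZ AZ_cross {2, 3, 4} ((X 2 - X 1) * U - X 0 * (Y - V)) (by
      intro i hi
      simp only [Finset.mem_insert, Finset.mem_singleton] at hi
      rcases hi with rfl | rfl | rfl
      · exact ⟨X 0 * q2 - U, by simp [lz, AZ]; linear_combination X 0 * hq2⟩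
      · exact ⟨X 0 * q3 - U, by simp [lz, AZ]; linear_combination X 0 * hq3⟩
      · exact ⟨X 0 * q4 - U, by simp [lz, AZ]; linear_combination X 0 * hq4⟩)
    rw [Finset.prod_insert (by decide), Finset.prod_insert (by decide),
      Finset.prod_singleton] at this
    simpa [lz, AZ, ← sub_eq_add_neg] using this
  obtain ⟨t1, ht1⟩ := hT1
  have hX1 : (X 1 : MvPolynomial (Fin 3) K) ≠ 0 := (prime_X 1).ne_zero
  have hX2 : (X 2 : MvPolynomial (Fin 3) K) ≠ 0 := (prime_X 2).ne_zero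
  have hs : (X 2 - X 1 : MvPolynomial (Fin 3) K) ≠ 0 := prime_sub.ne_zero
  -- restrict to `x = 0`
  have e1 : r0 U = - (X 1 ^ 3 * r0 b) := by
    have := congrArg r0 hb
    simp only [gA, map_sub, map_mul, map_add, r0_X0, r0_X1, map_ofNat] at this
    apply mul_left_cancel₀ hX1
    linear_combination -this
  have e2 : r0 U = -(X 2 * r0 t0) := by
    have := congrArg r0 ht0
    simp only [map_sub, map_mul, r0_X0, r0_X2] at this
    apply mul_left_cancel₀ hX2
    linear_combination this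
  have e3 : r0 U = -((X 2 - X 1) ^ 2 * r0 t1) := by
    have := congrArg r0 ht1
    simp only [map_sub, map_mul, map_add, r0_X0, r0_X1, r0_X2, map_ofNat] at this
    apply mul_left_cancel₀ hs
    linear_combination this
  have d1 : (X 2 : MvPolynomial (Fin 3) K) ∣ r0 b := by
    apply X_dvd_of_dvd_pow_mul (j := 1) (k := 3) (by decide)
    exact ⟨r0 t0, by linear_combination e1 - e2⟩
  have d2 : (X 2 - X 1 : MvPolynomial (Fin 3) K) ^ 2 ∣ r0 b := by
    apply sub_pow_dvd (k := 3)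
    exact ⟨r0 t1, by linear_combination e1 - e3⟩
  obtain ⟨γ, hγ⟩ := X2_mul_sub_pow_dvd d1 d2
  obtain ⟨β, hβ⟩ := r0_dvd b
  refine ⟨β, γ, ?_⟩
  rw [hb, ← hβ, ← hγ]
  ring

theorem A_span {θ : Derivation K (MvPolynomial (Fin 3) K) (MvPolynomial (Fin 3) K)}
    (h : θ ∈ logDer (cst AZ)) :
    θ ∈ Submodule.span (MvPolynomial (Fin 3) K)
      (insert derAT2 (Set.range ![derAE, derAT1, derAP])) := by
  obtain ⟨β, γ, hb⟩ := A_key h
  set N := Submodule.span (MvPolynomial (Fin 3) K)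
      (insert derAT2 (Set.range (![derAE, derAT1, derAP] : Fin 3 →
        Derivation K (MvPolynomial (Fin 3) K) (MvPolynomial (Fin 3) K)))) with hN
  have mE : derAE ∈ N := Submodule.subset_span (Or.inr ⟨0, rfl⟩)
  have mT1 : derAT1 ∈ N := Submodule.subset_span (Or.inr ⟨1, rfl⟩)
  have mP : derAP ∈ N := Submodule.subset_span (Or.inr ⟨2, rfl⟩)
  have mT2 : derAT2 ∈ N := Submodule.subset_span (Or.inl rfl)
  obtain ⟨c4, hc4⟩ : ∃ c4 : MvPolynomial (Fin 3) K, 4 * c4 = 1 := by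
    refine ⟨C (4⁻¹), ?_⟩
    have : (4 : MvPolynomial (Fin 3) K) = C 4 :=
      (map_ofNat (C : K →+* MvPolynomial (Fin 3) K) 4).symm
    rw [this, ← C_mul, mul_inv_cancel₀ (by norm_num), C_1]
  set η := θ + (c4 * β) • derAT1 + (c4 * γ) • derAT2 with hη
  have hηD : η ∈ logDer (cst AZ) :=
    Submodule.add_mem _ (Submodule.add_mem _ h (Submodule.smul_mem _ _ derAT1_mem))
      (Submodule.smul_mem _ _ derAT2_mem)
  have hcross : X 0 * η (X 1) = X 1 * η (X 0) := by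
    have e0 : η (X 0) = θ (X 0) + (c4 * β) * derAT1 (X 0) + (c4 * γ) * derAT2 (X 0) := rfl
    have e1 : η (X 1) = θ (X 1) + (c4 * β) * derAT1 (X 1) + (c4 * γ) * derAT2 (X 1) := rfl
    rw [e0, e1]
    simp only [derAT1, derAT2, mk_X0, mk_X1]
    simp [poly]
    rw [gA] at hb
    linear_combination hb - (X 1 - X 0) * X 1 * (X 0 + X 1) * (2 * X 0 + X 1) *
      (X 0 * β + X 2 * (X 2 - X 1) ^ 2 * γ) * hc4
  obtain ⟨e, he0, he1⟩ := euler_of_cross hcross
  set ζ := η - e • derAE with hζ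
  have hζD : ζ ∈ logDer (cst AZ) := Submodule.sub_mem _ hηD (Submodule.smul_mem _ _ derAE_mem)
  have z0 : ζ (X 0) = 0 := by
    have e0 : ζ (X 0) = η (X 0) - e * derAE (X 0) := rfl
    rw [e0, he0]
    simp [derAE, poly]
  have z1 : ζ (X 1) = 0 := by
    have e0 : ζ (X 1) = η (X 1) - e * derAE (X 1) := rfl
    rw [e0, he1]
    simp [derAE, poly]
  obtain ⟨h0, h1, h2, h3, h4, -⟩ := A_unpack hζD
  rw [z0] at h1 h3 h4
  rw [z1] at h2 h3 h4
  simp only [mul_zero, zero_add, zero_sub, dvd_neg, add_zero] at h1 h2 h3 h4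
  obtain ⟨c, hc⟩ := hA_dvd _ h0 h1 h2 h3 h4
  have hζ2 : ζ = c • derAP := by
    apply der_ext3
    · rw [z0]
      simp [derAP, poly]
    · rw [z1]
      simp [derAP, poly]
    · rw [hc]
      simp [derAP, poly, hA]
      ring
  have : θ = c • derAP + e • derAE - (c4 * β) • derAT1 - (c4 * γ) • derAT2 := by
    rw [← hζ2, hζ, hη]
    abel
  rw [this]
  exact Submodule.sub_mem _ (Submodule.sub_mem _ (Submodule.add_mem _ (Submodule.smul_mem _ _ mP)
    (Submodule.smul_mem _ _ mE)) (Submodule.smul_mem _ _ mT1)) (Submodule.smul_mem _ _ mT2)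

end Pool.Agent.V1148.M52
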