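import Mathlib
import Pool.Agent.V1148.M52A

set_option autoImplicit false

/-!
# The resolution for the first arrangement
-/

namespace Pool.Agent.V1148.M52

open MvPolynomial

variable {K : Type*} [Field K] [CharZero K]

/-- The entries of the relation. -/
noncomputable def relA : Fin 3 → MvPolynomial (Fin 3) K :=
  ![0, poly [(1, 0, 0, 3), (-2, 0, 1, 2), (1, 0, 2, 1)],
    poly [(8, 2, 0, 0), (-12, 1, 1, 0), (8, 1, 0, 1), (4, 0, 2, 0), (-20, 0, 1, 1), (12, 0, 0, 2)]]

theorem four_ne : (4 : MvPolynomial (Fin 3) K) ≠ 0 := by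
  have : (4 : MvPolynomial (Fin 3) K) = C 4 :=
    (map_ofNat (C : K →+* MvPolynomial (Fin 3) K) 4).symm
  rw [this, Ne, C_eq_zero]
  norm_num

theorem X0_dvd_aux {F : MvPolynomial (Fin 3) K}
    (h : (X 0 : MvPolynomial (Fin 3) K) ∣ X 2 * (X 2 - X 1) ^ 2 * F) :
    (X 0 : MvPolynomial (Fin 3) K) ∣ F := by
  rcases (prime_X 0).dvd_or_dvd h with h1 | h1
  · rcases (prime_X 0).dvd_or_dvd h1 with h2 | h2
    · exact absurd h2 (X_not_dvd_X (by decide))
    · have h3 := (prime_X 0).dvd_of_dvd_pow h2
      obtain ⟨q, hq⟩ := h3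
      have := congrArg (aeval (![0, 0, 1] : Fin 3 → K)) hq
      simp at this
  · exact h1

theorem A_resolution :
    IsPOGResolution (cst AZ : Fin 9 → Fin 3 → K) ![1, 4, 5] 6 ![derAE, derAT1, derAP] derAT2
      relA (-X 0) where
  homog := by
    intro i
    fin_cases i
    · exact derAE_homog
    · exact derAT1_homog
    · exact derAP_homog
  homog' := derAT2_homog
  span_eq := by
    apply le_antisymm
    · rw [Submodule.span_le]
      rintro θ (rfl | ⟨i, rfl⟩)
      · exact derAT2_mem
      · fin_cases i
        · exact derAE_mem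
        · exact derAT1_mem
        · exact derAP_mem
    · intro θ hθ
      exact A_span hθ
  homog_f := by
    intro i
    fin_cases i
    · exact ⟨isHomogeneous_zero _ _ _, fun _ => rfl⟩
    · exact ⟨poly_hom _ (by decide), fun h => absurd h (by decide)⟩
    · exact ⟨poly_hom _ (by decide), fun h => absurd h (by decide)⟩
  homog_α := (isHomogeneous_X K 0).neg
  minimal_f := by
    intro i
    fin_cases i
    · simp [relA]
    · simp [relA, poly]
    · simp [relA, poly]
  ne_zero := by
    rintro ⟨h, -⟩
    exact (prime_X (K := K) 0).ne_zero (neg_eq_zero.1 h)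
  exact := by
    intro c c'
    have hX0 : (X 0 : MvPolynomial (Fin 3) K) ≠ 0 := (prime_X 0).ne_zero
    rw [Fin.sum_univ_three]
    constructor
    · intro h
      have h0 := congrArg (fun D : Derivation K (MvPolynomial (Fin 3) K)
        (MvPolynomial (Fin 3) K) => D (X 0)) h
      have h1 := congrArg (fun D : Derivation K (MvPolynomial (Fin 3) K)
        (MvPolynomial (Fin 3) K) => D (X 1)) h
      have h2 := congrArg (fun D : Derivation K (MvPolynomial (Fin 3) K)
        (MvPolynomial (Fin 3) K) => D (X 2)) h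
      simp only [Derivation.add_apply, Derivation.smul_apply, smul_eq_mul, Derivation.zero_apply,
        Matrix.cons_val_zero, Matrix.cons_val_one, Matrix.cons_val, derAE, derAT1, derAP, derAT2,
        mk_X0, mk_X1, mk_X2] at h0 h1 h2
      simp [poly] at h0 h1 h2
      have h3 : X 0 * c 1 = - (X 2 * (X 2 - X 1) ^ 2 * c') := by
        apply mul_left_cancel₀ (mul_ne_zero four_ne gA_ne_zero)
        unfold gA
        linear_combination X 1 * h0 - X 0 * h1
      have h4 : (X 0 : MvPolynomial (Fin 3) K) ∣ c' := by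
        apply X0_dvd_aux
        exact ⟨-c 1, by linear_combination h3⟩
      obtain ⟨s, hs⟩ := h4
      have h5 : c 1 = X 2 * (X 2 - X 1) ^ 2 * (-s) := by
        apply mul_left_cancel₀ hX0
        rw [h3, hs]
        ring
      have h6 : c 0 = 0 := by
        apply mul_left_cancel₀ hX0
        rw [h5, hs] at h0
        linear_combination h0
      have hP := hA_ne_zero (K := K)
      have h7 : c 2 = (-s) * (8 * X 0 ^ 2 - 12 * X 0 * X 1 + 8 * X 0 * X 2 + 4 * X 1 ^ 2 -
          20 * X 1 * X 2 + 12 * X 2 ^ 2) := by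
        apply mul_left_cancel₀ hP
        unfold hA
        rw [h5, hs, h6] at h2
        linear_combination h2
      refine ⟨-s, ?_, ?_⟩
      · have e1 : (poly [(1, 0, 0, 3), (-2, 0, 1, 2), (1, 0, 2, 1)] : MvPolynomial (Fin 3) K) =
            X 2 * (X 2 - X 1) ^ 2 := by
          simp [poly]
          ring
        have e2 : (poly [(8, 2, 0, 0), (-12, 1, 1, 0), (8, 1, 0, 1), (4, 0, 2, 0), (-20, 0, 1, 1),
            (12, 0, 0, 2)] : MvPolynomial (Fin 3) K) = 8 * X 0 ^ 2 - 12 * X 0 * X 1 +
            8 * X 0 * X 2 + 4 * X 1 ^ 2 - 20 * X 1 * X 2 + 12 * X 2 ^ 2 := by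
          simp [poly]
          ring
        intro i
        fin_cases i
        · change c 0 = -s * 0
          rw [h6, mul_zero]
        · change c 1 = -s * poly [(1, 0, 0, 3), (-2, 0, 1, 2), (1, 0, 2, 1)]
          rw [h5, e1]
          ring
        · change c 2 = -s * poly [(8, 2, 0, 0), (-12, 1, 1, 0), (8, 1, 0, 1), (4, 0, 2, 0),
            (-20, 0, 1, 1), (12, 0, 0, 2)]
          rw [h7, e2]
      · rw [hs]
        ring
    · rintro ⟨s, hs, hs'⟩
      rw [hs 0, hs 1, hs 2, hs']
      apply der_ext3
      · simp only [Derivation.add_apply, Derivation.smul_apply, smul_eq_mul, Derivation.zero_apply,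
          Matrix.cons_val_zero, Matrix.cons_val_one, Matrix.cons_val, derAE, derAT1, derAP, derAT2,
          mk_X0, relA]
        simp [poly]
        ring
      · simp only [Derivation.add_apply, Derivation.smul_apply, smul_eq_mul, Derivation.zero_apply,
          Matrix.cons_val_zero, Matrix.cons_val_one, Matrix.cons_val, derAE, derAT1, derAP, derAT2,
          mk_X1, relA]
        simp [poly]
        ring
      · simp only [Derivation.add_apply, Derivation.smul_apply, smul_eq_mul, Derivation.zero_apply,
          Matrix.cons_val_zero, Matrix.cons_val_one, Matrix.cons_val, derAE, derAT1, derAP, derAT2,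
          mk_X2, relA]
        simp [poly]
        ring

theorem A_strictlyPOG : IsStrictlyPOG (cst AZ : Fin 9 → Fin 3 → K) ![1, 4, 5] 6 :=
  ⟨_, _, _, _, A_resolution, neg_ne_zero.2 (prime_X (K := K) 0).ne_zero⟩

end Pool.Agent.V1148.M52
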