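import Mathlib
import Pool.Agent.V1148.M52Common

set_option autoImplicit false

/-!
# The second arrangement is not plus-one generated
-/

namespace Pool.Agent.V1148.M52

open MvPolynomial

variable {K : Type*} [Field K] [CharZero K]

theorem BZ_cross : ∀ i j, i ≠ j → cross3 (BZ i) (BZ j) ≠ 0 := by decide +kernel

/-- The product of the four pencil forms. -/
noncomputable def gB : MvPolynomial (Fin 3) K := ∏ i ∈ {5, 6, 7, 8}, lz (BZ i)

/-- The product of the other five forms. -/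
noncomputable def hB : MvPolynomial (Fin 3) K := ∏ i ∈ {0, 1, 2, 3, 4}, lz (BZ i)

omit [CharZero K] in
theorem gB_eq : (gB : MvPolynomial (Fin 3) K) =
    (2 * X 1 - X 0) * X 1 * (X 0 + X 1) * (3 * X 0 + X 1) := by
  unfold gB
  rw [Finset.prod_insert (by decide), Finset.prod_insert (by decide),
    Finset.prod_insert (by decide), Finset.prod_singleton]
  simp [lz, BZ]
  ring

omit [CharZero K] in
theorem hB_eq : (hB : MvPolynomial (Fin 3) K) =
    X 2 * (X 0 - 2 * X 2) * (X 1 - X 2) * (X 0 + X 1 - 2 * X 2) * (3 * X 0 + X 1 - 4 * X 2) := by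
  unfold hB
  rw [Finset.prod_insert (by decide), Finset.prod_insert (by decide),
    Finset.prod_insert (by decide), Finset.prod_insert (by decide), Finset.prod_singleton]
  simp [lz, BZ]
  ring

omit [CharZero K] in
theorem lz_homog (z : Fin 3 → ℤ) : (lz z : MvPolynomial (Fin 3) K).IsHomogeneous 1 := by
  have := lin_cst (K := K) (fun _ => z) 0
  rw [← this]
  exact lin_isHomogeneous _

omit [CharZero K] in
theorem gB_homog : (gB : MvPolynomial (Fin 3) K).IsHomogeneous 4 :=
  IsHomogeneous.prod _ _ (fun _ => 1) fun i _ => lz_homog (BZ i)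

omit [CharZero K] in
theorem hB_homog : (hB : MvPolynomial (Fin 3) K).IsHomogeneous 5 :=
  IsHomogeneous.prod _ _ (fun _ => 1) fun i _ => lz_homog (BZ i)

theorem gB_ne_zero : (gB : MvPolynomial (Fin 3) K) ≠ 0 := by
  intro h
  have := congrArg (aeval (![0, 1, 0] : Fin 3 → K)) h
  simp [gB_eq] at this

theorem hB_ne_zero : (hB : MvPolynomial (Fin 3) K) ≠ 0 := by
  intro h
  have := congrArg (aeval (![0, 0, 1] : Fin 3 → K)) h
  simp [hB_eq] at this

omit [CharZero K] in
theorem B_unpack {θ : Derivation K (MvPolynomial (Fin 3) K) (MvPolynomial (Fin 3) K)}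
    (h : θ ∈ logDer (cst BZ)) :
    X 2 ∣ θ (X 2) ∧ X 0 - 2 * X 2 ∣ θ (X 0) - 2 * θ (X 2) ∧ X 1 - X 2 ∣ θ (X 1) - θ (X 2) ∧
    X 0 + X 1 - 2 * X 2 ∣ θ (X 0) + θ (X 1) - 2 * θ (X 2) ∧
    3 * X 0 + X 1 - 4 * X 2 ∣ 3 * θ (X 0) + θ (X 1) - 4 * θ (X 2) ∧
    2 * X 1 - X 0 ∣ 2 * θ (X 1) - θ (X 0) ∧ X 1 ∣ θ (X 1) ∧ X 0 + X 1 ∣ θ (X 0) + θ (X 1) ∧
    3 * X 0 + X 1 ∣ 3 * θ (X 0) + θ (X 1) := by
  rw [mem_logDer_iff] at h
  refine ⟨?_, ?_, ?_, ?_, ?_, ?_, ?_, ?_, ?_⟩
  · simpa [lz, BZ] using h 0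
  · simpa [lz, BZ, ← sub_eq_add_neg] using h 1
  · simpa [lz, BZ, ← sub_eq_add_neg] using h 2
  · simpa [lz, BZ, ← sub_eq_add_neg] using h 3
  · simpa [lz, BZ, ← sub_eq_add_neg] using h 4
  · simpa [lz, BZ, neg_add_eq_sub] using h 5
  · simpa [lz, BZ] using h 6
  · simpa [lz, BZ] using h 7
  · simpa [lz, BZ] using h 8

/-- Restriction to the plane `x = y`. -/
noncomputable def r1 : MvPolynomial (Fin 3) K →ₐ[K] MvPolynomial (Fin 3) K :=
  res ![1, -1, 0] 0

omit [CharZero K] in
@[simp] theorem r1_X0 : r1 (X 0 : MvPolynomial (Fin 3) K) = X 1 := by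
  simp [r1, res_X_self, lin, Fin.sum_univ_three]

omit [CharZero K] in
@[simp] theorem r1_X1 : r1 (X 1 : MvPolynomial (Fin 3) K) = X 1 := by
  rw [r1, res_X_of_ne _ (by decide)]

omit [CharZero K] in
@[simp] theorem r1_X2 : r1 (X 2 : MvPolynomial (Fin 3) K) = X 2 := by
  rw [r1, res_X_of_ne _ (by decide)]

omit [CharZero K] in
theorem r1_dvd (F : MvPolynomial (Fin 3) K) : X 0 - X 1 ∣ F - r1 F := by
  have := dvd_sub_res (![1, -1, 0] : Fin 3 → K) 0 F
  simpa [r1, lin, Fin.sum_univ_three, ← sub_eq_add_neg] using this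

omit [CharZero K] in
theorem r1_homog {F : MvPolynomial (Fin 3) K} {n : ℕ} (h : F.IsHomogeneous n) :
    (r1 F).IsHomogeneous n := by
  have := h.aeval (R := K) (S := K) (fun j : Fin 3 => r1 (X j)) (n := 1) (by
    intro i
    fin_cases i
    · simpa using isHomogeneous_X K 1
    · simpa using isHomogeneous_X K 1
    · simpa using isHomogeneous_X K 2)
  rw [one_mul] at this
  have h2 : r1 (K := K) = aeval (fun j : Fin 3 => r1 (X j)) := by
    apply MvPolynomial.algHom_ext
    intro i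
    simp
  rw [h2]
  exact this

omit [CharZero K] in
theorem r0_homog {F : MvPolynomial (Fin 3) K} {n : ℕ} (h : F.IsHomogeneous n) :
    (r0 F).IsHomogeneous n := by
  have := h.aeval (R := K) (S := K) (fun j : Fin 3 => r0 (X j)) (n := 1) (by
    intro i
    fin_cases i
    · simpa using isHomogeneous_zero _ _ _
    · simpa using isHomogeneous_X K 1
    · simpa using isHomogeneous_X K 2)
  rw [one_mul] at this
  have h2 : r0 (K := K) = aeval (fun j : Fin 3 => r0 (X j)) := by
    apply MvPolynomial.algHom_ext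
    intro i
    simp
  rw [h2]
  exact this

omit [CharZero K] in
theorem num_ne [CharZero K] (n : ℕ) (hn : n ≠ 0) : (n : MvPolynomial (Fin 3) K) ≠ 0 := by
  have : (n : MvPolynomial (Fin 3) K) = C (n : K) := (map_natCast (C : K →+* _) n).symm
  rw [this, Ne, C_eq_zero]
  exact_mod_cast hn

/-- The divisibility properties of the invariant `b`. -/
theorem B_key {θ : Derivation K (MvPolynomial (Fin 3) K) (MvPolynomial (Fin 3) K)}
    (h : θ ∈ logDer (cst BZ)) :
    ∃ b : MvPolynomial (Fin 3) K, 2 * (X 0 * θ (X 1) - X 1 * θ (X 0)) = gB * b ∧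
      X 2 ∣ r0 b ∧ (X 2 - X 1) ^ 2 ∣ r1 b := by
  obtain ⟨h0, h1, h2, h3, h4, h5, h6, h7, h8⟩ := B_unpack h
  generalize θ (X 0) = U at *
  generalize θ (X 1) = V at *
  generalize θ (X 2) = Y at *
  obtain ⟨q0, hq0⟩ := h0
  obtain ⟨q1, hq1⟩ := h1
  obtain ⟨q2, hq2⟩ := h2
  obtain ⟨q3, hq3⟩ := h3
  obtain ⟨q4, hq4⟩ := h4
  obtain ⟨q5, hq5⟩ := h5
  obtain ⟨q6, hq6⟩ := h6
  obtain ⟨q7, hq7⟩ := h7
  obtain ⟨q8, hq8⟩ := h8
  obtain ⟨b, hb⟩ : gB ∣ 2 * (X 0 * V - X 1 * U) := by
    apply prod_lz_dvd BZ BZ_cross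
    intro i hi
    simp only [Finset.mem_insert, Finset.mem_singleton] at hi
    rcases hi with rfl | rfl | rfl | rfl
    · exact ⟨X 0 * q5 - U, by simp [lz, BZ]; linear_combination X 0 * hq5⟩
    · exact ⟨2 * (X 0 * q6 - U), by simp [lz, BZ]; linear_combination 2 * X 0 * hq6⟩
    · exact ⟨2 * (X 0 * q7 - U), by simp [lz, BZ]; linear_combination 2 * X 0 * hq7⟩
    · exact ⟨2 * (X 0 * q8 - U), by simp [lz, BZ]; linear_combination 2 * X 0 * hq8⟩
  have hT0 : X 2 * (X 0 - 2 * X 2) ∣ 2 * (X 2 * U - X 0 * Y) := by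
    have := prod_lz_dvd BZ BZ_cross {0, 1} (2 * (X 2 * U - X 0 * Y)) (by
      intro i hi
      simp only [Finset.mem_insert, Finset.mem_singleton] at hi
      rcases hi with rfl | rfl
      · exact ⟨2 * (U - X 0 * q0), by simp [lz, BZ]; linear_combination -2 * X 0 * hq0⟩
      · exact ⟨X 0 * q1 - U, by simp [lz, BZ]; linear_combination X 0 * hq1⟩)
    rw [Finset.prod_insert (by decide), Finset.prod_singleton] at this
    simpa [lz, BZ, ← sub_eq_add_neg] using this
  obtain ⟨t0, ht0⟩ := hT0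
  have hT1 : (X 1 - X 2) * ((X 0 + X 1 - 2 * X 2) * (3 * X 0 + X 1 - 4 * X 2)) ∣
      4 * ((X 2 - X 1) * (U - V) - (X 0 - X 1) * (Y - V)) := by
    have := prod_lz_dvd BZ BZ_cross {2, 3, 4}
      (4 * ((X 2 - X 1) * (U - V) - (X 0 - X 1) * (Y - V))) (by
      intro i hi
      simp only [Finset.mem_insert, Finset.mem_singleton] at hi
      rcases hi with rfl | rfl | rfl
      · exact ⟨4 * ((X 0 - X 1) * q2 - (U - V)), by
          simp [lz, BZ]; linear_combination 4 * (X 0 - X 1) * hq2⟩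
      · exact ⟨2 * ((X 0 - X 1) * q3 - (U - V)), by
          simp [lz, BZ]; linear_combination 2 * (X 0 - X 1) * hq3⟩
      · exact ⟨(X 0 - X 1) * q4 - (U - V), by
          simp [lz, BZ]; linear_combination (X 0 - X 1) * hq4⟩)
    rw [Finset.prod_insert (by decide), Finset.prod_insert (by decide),
      Finset.prod_singleton] at this
    simpa [lz, BZ, ← sub_eq_add_neg] using this
  obtain ⟨t1, ht1⟩ := hT1
  have hX1 : (X 1 : MvPolynomial (Fin 3) K) ≠ 0 := (prime_X 1).ne_zero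
  have hX2 : (X 2 : MvPolynomial (Fin 3) K) ≠ 0 := (prime_X 2).ne_zero
  have hs : (X 2 - X 1 : MvPolynomial (Fin 3) K) ≠ 0 := prime_sub.ne_zero
  have n2 : (2 : MvPolynomial (Fin 3) K) ≠ 0 := by exact_mod_cast num_ne (K := K) 2 (by norm_num)
  have n4 : (4 : MvPolynomial (Fin 3) K) ≠ 0 := by exact_mod_cast num_ne (K := K) 4 (by norm_num)
  refine ⟨b, hb, ?_, ?_⟩
  · have e1 : r0 U = - (X 1 ^ 3 * r0 b) := by
      have := congrArg r0 hb
      simp only [gB_eq, map_sub, map_mul, map_add, r0_X0, r0_X1, map_ofNat] at this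
      apply mul_left_cancel₀ (mul_ne_zero n2 hX1)
      linear_combination -this
    have e2 : r0 U = -(X 2 * r0 t0) := by
      have := congrArg r0 ht0
      simp only [map_sub, map_mul, r0_X0, r0_X2, map_ofNat] at this
      apply mul_left_cancel₀ (mul_ne_zero n2 hX2)
      linear_combination this
    apply X_dvd_of_dvd_pow_mul (j := 1) (k := 3) (by decide)
    exact ⟨r0 t0, by linear_combination e1 - e2⟩
  · have e1 : r1 V - r1 U = 4 * (X 1 ^ 3 * r1 b) := by
      have := congrArg r1 hb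
      simp only [gB_eq, map_sub, map_mul, map_add, r1_X0, r1_X1, map_ofNat] at this
      apply mul_left_cancel₀ (mul_ne_zero n2 hX1)
      linear_combination this
    have e3 : r1 V - r1 U = 2 * ((X 2 - X 1) ^ 2 * r1 t1) := by
      have := congrArg r1 ht1
      simp only [map_sub, map_mul, map_add, r1_X0, r1_X1, r1_X2, map_ofNat] at this
      apply mul_left_cancel₀ (mul_ne_zero n4 hs)
      linear_combination -this
    have e4 : (X 2 - X 1 : MvPolynomial (Fin 3) K) ^ 2 ∣ X 1 ^ 3 * r1 (2 * b) := by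
      refine ⟨r1 t1, ?_⟩
      apply mul_left_cancel₀ n2
      rw [map_mul, map_ofNat]
      linear_combination e3 - e1
    have e5 := sub_pow_dvd e4
    rw [map_mul, map_ofNat] at e5
    have h2u : IsUnit (2 : MvPolynomial (Fin 3) K) := by
      have : (2 : MvPolynomial (Fin 3) K) = C 2 :=
        (map_ofNat (C : K →+* MvPolynomial (Fin 3) K) 2).symm
      rw [this]
      exact (IsUnit.mk0 (2 : K) two_ne_zero).map C
    exact (h2u.dvd_mul_left).1 e5

/-- Low degree logarithmic derivations are multiples of the Euler derivation. -/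
theorem B_low (θ : Derivation K (MvPolynomial (Fin 3) K) (MvPolynomial (Fin 3) K))
    (h : θ ∈ logDer (cst BZ)) (p : ℕ) (hp : p < 5) (hθ : IsHomogDer θ p) :
    θ ∈ Submodule.span (MvPolynomial (Fin 3) K) {derBE} := by
  obtain ⟨b, hb, hb0, hb1⟩ := B_key h
  have hF : (gB * b).IsHomogeneous (p + 1) := by
    rw [← hb]
    have h1 : (X 0 * θ (X 1) - X 1 * θ (X 0)).IsHomogeneous (1 + p) :=
      ((isHomogeneous_X K 0).mul (hθ 1)).sub ((isHomogeneous_X K 1).mul (hθ 0))
    have h2 : (C (2 : K) : MvPolynomial (Fin 3) K).IsHomogeneous 0 := isHomogeneous_C _ _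
    have h3 := h2.mul h1
    rw [zero_add, add_comm, map_ofNat] at h3
    exact h3
  have hbz : b = 0 := by
    rw [mul_comm] at hF
    by_cases hp4 : p + 1 < 4
    · exact eq_zero_of_mul_right gB_homog gB_ne_zero hF hp4
    · have hbh := isHomogeneous_of_mul_right gB_homog gB_ne_zero hF (by omega)
      have h1 : r1 b = 0 := by
        have hsq : ((X 2 - X 1 : MvPolynomial (Fin 3) K) ^ 2).IsHomogeneous (1 * 2) :=
          ((isHomogeneous_X K 2).sub (isHomogeneous_X K 1)).pow 2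
        exact eq_zero_of_dvd_of_lt hsq (r1_homog hbh) hb1 (by omega)
      have h2 := r1_dvd b
      rw [h1, sub_zero] at h2
      obtain ⟨κ, hκ⟩ := h2
      have hlin : (X 0 - X 1 : MvPolynomial (Fin 3) K).IsHomogeneous 1 :=
        (isHomogeneous_X K 0).sub (isHomogeneous_X K 1)
      have hlin0 : (X 0 - X 1 : MvPolynomial (Fin 3) K) ≠ 0 := by
        intro h
        have := congrArg (aeval (![1, 0, 0] : Fin 3 → K)) h
        simp at this
      rw [hκ, mul_comm] at hbh
      have hκ0 : κ = 0 := by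
        by_cases hp3 : p + 1 - 4 < 1
        · exact eq_zero_of_mul_right hlin hlin0 hbh hp3
        · have hκh := isHomogeneous_of_mul_right hlin hlin0 hbh (by omega)
          have hκh' : κ.IsHomogeneous 0 := by
            have : p + 1 - 4 - 1 = 0 := by omega
            rwa [this] at hκh
          rw [hκ, map_mul, map_sub, r0_X0, r0_X1, zero_sub, neg_mul, dvd_neg] at hb0
          have h3 : (X 2 : MvPolynomial (Fin 3) K) ∣ r0 κ :=
            X_dvd_of_dvd_pow_mul (i := 2) (j := 1) (k := 1) (by decide) (by rwa [pow_one])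
          have h4 := eq_zero_of_dvd_of_lt (isHomogeneous_X K 2) (r0_homog hκh') h3 (by norm_num)
          have h5 : κ.totalDegree = 0 := (totalDegree_zero_iff_isHomogeneous _).2 hκh'
          rw [totalDegree_eq_zero_iff_eq_C] at h5
          rw [h5] at h4 ⊢
          rwa [← algebraMap_eq, AlgHom.commutes, algebraMap_eq] at h4
      rw [hκ, hκ0, mul_zero]
  rw [hbz, mul_zero] at hb
  have n2 : (2 : MvPolynomial (Fin 3) K) ≠ 0 := by exact_mod_cast num_ne (K := K) 2 (by norm_num)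
  have n4 : (4 : MvPolynomial (Fin 3) K) ≠ 0 := by exact_mod_cast num_ne (K := K) 4 (by norm_num)
  have hcross : X 0 * θ (X 1) = X 1 * θ (X 0) :=
    sub_eq_zero.1 ((mul_eq_zero.1 hb).resolve_left n2)
  obtain ⟨e, he0, he1⟩ := euler_of_cross hcross
  set ζ := θ - e • derBE with hζ
  have hζD : ζ ∈ logDer (cst BZ) := Submodule.sub_mem _ h (Submodule.smul_mem _ _ derBE_mem)
  have z0 : ζ (X 0) = 0 := by
    have e0 : ζ (X 0) = θ (X 0) - e * derBE (X 0) := rfl
    rw [e0, he0]
    simp [derBE, poly]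
  have z1 : ζ (X 1) = 0 := by
    have e0 : ζ (X 1) = θ (X 1) - e * derBE (X 1) := rfl
    rw [e0, he1]
    simp [derBE, poly]
  have z2 : ζ (X 2) = θ (X 2) - e * X 2 := by
    have e0 : ζ (X 2) = θ (X 2) - e * derBE (X 2) := rfl
    rw [e0]
    simp [derBE, poly]
  have z2h : (ζ (X 2)).IsHomogeneous p := by
    rw [z2]
    have hU := hθ 0
    rw [he0] at hU
    by_cases hp0 : p < 1
    · rw [eq_zero_of_mul_right (isHomogeneous_X K 0) (prime_X 0).ne_zero hU hp0, zero_mul,
        sub_zero]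
      exact hθ 2
    · have heh := isHomogeneous_of_mul_right (isHomogeneous_X K 0) (prime_X 0).ne_zero hU
        (by omega)
      have h1 := heh.mul (isHomogeneous_X K (2 : Fin 3))
      have h2 : p - 1 + 1 = p := by omega
      rw [h2] at h1
      exact (hθ 2).sub h1
  obtain ⟨h0, h1, h2, h3, h4, -⟩ := B_unpack hζD
  rw [z0] at h1 h3 h4
  rw [z1] at h2 h3 h4
  simp only [mul_zero, zero_sub, dvd_neg, add_zero] at h1 h2 h3 h4
  have hdvd : hB ∣ 4 * ζ (X 2) := by
    apply prod_lz_dvd BZ BZ_cross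
    intro i hi
    simp only [Finset.mem_insert, Finset.mem_singleton] at hi
    rcases hi with rfl | rfl | rfl | rfl | rfl
    · have : (lz (BZ 0) : MvPolynomial (Fin 3) K) = X 2 := by simp [lz, BZ]
      rw [this]
      exact dvd_mul_of_dvd_right h0 _
    · have : (lz (BZ 1) : MvPolynomial (Fin 3) K) = X 0 - 2 * X 2 := by
        simp [lz, BZ, ← sub_eq_add_neg]
      rw [this]
      have h5 : (4 : MvPolynomial (Fin 3) K) * ζ (X 2) = 2 * (2 * ζ (X 2)) := by ring
      rw [h5]
      exact dvd_mul_of_dvd_right h1 _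
    · have : (lz (BZ 2) : MvPolynomial (Fin 3) K) = X 1 - X 2 := by
        simp [lz, BZ, ← sub_eq_add_neg]
      rw [this]
      exact dvd_mul_of_dvd_right h2 _
    · have : (lz (BZ 3) : MvPolynomial (Fin 3) K) = X 0 + X 1 - 2 * X 2 := by
        simp [lz, BZ, ← sub_eq_add_neg]
      rw [this]
      have h5 : (4 : MvPolynomial (Fin 3) K) * ζ (X 2) = 2 * (2 * ζ (X 2)) := by ring
      rw [h5]
      exact dvd_mul_of_dvd_right h3 _
    · have : (lz (BZ 4) : MvPolynomial (Fin 3) K) = 3 * X 0 + X 1 - 4 * X 2 := by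
        simp [lz, BZ, ← sub_eq_add_neg]
      rw [this]
      exact h4
  have h4h : (4 * ζ (X 2)).IsHomogeneous p := by
    have h6 : (C (4 : K) : MvPolynomial (Fin 3) K).IsHomogeneous 0 := isHomogeneous_C _ _
    have h7 := h6.mul z2h
    rwa [zero_add, map_ofNat] at h7
  have h8 := eq_zero_of_dvd_of_lt hB_homog h4h hdvd hp
  have h9 : ζ (X 2) = 0 := (mul_eq_zero.1 h8).resolve_left n4
  have h10 : ζ = 0 := der_ext3 z0 z1 h9
  rw [Submodule.mem_span_singleton]
  refine ⟨e, ?_⟩
  rw [hζ] at h10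
  exact (sub_eq_zero.1 h10).symm

end Pool.Agent.V1148.M52
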