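import Mathlib

/-! Lower bound for the degree of a transformation representation of a rank-2 variant of `T_n`
whose kernel has two classes of size `h`. -/

namespace Pool.Agent.V1148.VT

open Finset

lemma cube_le (c : ℕ) : c ^ 3 ≤ 3 ^ c := by
  rcases Nat.lt_or_ge c 3 with h | h
  · interval_cases c <;> norm_num
  · induction c, h using Nat.le_induction with
    | base => norm_num
    | succ k hk ih =>
      have : (k + 1) ^ 3 ≤ 3 * k ^ 3 := by nlinarith [mul_le_mul hk hk (by norm_num) (by omega), mul_le_mul hk (mul_le_mul hk hk (by norm_num) (by omega)) (by norm_num) (by omega)]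
      calc (k + 1) ^ 3 ≤ 3 * k ^ 3 := this
        _ ≤ 3 * 3 ^ k := by omega
        _ = 3 ^ (k + 1) := by ring

variable {n m : ℕ}

lemma count_le (φ : (Fin n → Fin n) → (Fin m → Fin m)) (hinj : Function.Injective φ)
    (E : Finset (Fin m)) (X : Finset (Fin n → Fin n))
    (T : Fin m → Finset (Fin m)) (hT : ∀ x ∈ X, ∀ e ∈ E, φ x e ∈ T e)
    (hdet : ∀ x ∈ X, ∀ x' ∈ X, (∀ e ∈ E, φ x e = φ x' e) → φ x = φ x') :
    X.card ≤ ∏ e ∈ E, (T e).card := by
  rw [← Finset.card_pi]
  refine Finset.card_le_card_of_injOn (fun x => fun e _ => φ x e) ?_ ?_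
  · intro x hx
    simp only [Finset.mem_coe, Finset.mem_pi]
    exact fun e he => hT x hx e he
  · intro x hx x' hx' h
    exact hinj (hdet x hx x' hx' (fun e he => congrFun (congrFun h e) he))

/-- The set of maps with values in `Y`, fixed at two points. -/
lemma card_fixed (p q u v : Fin n) (hpq : p ≠ q) (Y : Finset (Fin n)) :
    (Fintype.piFinset (fun i : Fin n => if i = p then {u} else if i = q then {v} else Y)).card
      = Y.card ^ (n - 2) := by
  rw [Fintype.card_piFinset]
  rw [← Finset.mul_prod_erase Finset.univ _ (Finset.mem_univ p)]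
  rw [← Finset.mul_prod_erase (Finset.univ.erase p) _ (Finset.mem_erase.mpr ⟨hpq.symm, Finset.mem_univ q⟩)]
  simp only [if_true, Finset.card_singleton, one_mul, if_neg hpq.symm]
  rw [Finset.prod_congr rfl (g := fun _ => Y.card)]
  · rw [Finset.prod_const, Finset.card_erase_of_mem (Finset.mem_erase.mpr ⟨hpq.symm, Finset.mem_univ q⟩),
      Finset.card_erase_of_mem (Finset.mem_univ p), Finset.card_univ, Fintype.card_fin]
    rfl
  · intro i hi
    simp only [Finset.mem_erase] at hi
    rw [if_neg hi.2.1, if_neg hi.1]

lemma mem_fixed {p q u v : Fin n} (hpq : p ≠ q) {Y : Finset (Fin n)} {x : Fin n → Fin n}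
    (hx : x ∈ Fintype.piFinset (fun i : Fin n => if i = p then {u} else if i = q then {v} else Y)) :
    x p = u ∧ x q = v ∧ ∀ i, i ≠ p → i ≠ q → x i ∈ Y := by
  rw [Fintype.mem_piFinset] at hx
  refine ⟨?_, ?_, ?_⟩
  · have := hx p
    rw [if_pos rfl, Finset.mem_singleton] at this
    exact this
  · have := hx q
    rw [if_neg hpq.symm, if_pos rfl, Finset.mem_singleton] at this
    exact this
  · intro i h1 h2
    have := hx i
    rw [if_neg h1, if_neg h2] at this
    exact this

/-- The main lower-bound lemma. -/
theorem lower (b : Fin n → Fin n) (p q : Fin n) (hpq : p ≠ q) (hbp : b p = p) (hbq : b q = q)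
    (hb : ∀ i, b i = p ∨ b i = q) (h : ℕ)
    (hA : (univ.filter (fun i => b i = p)).card = h)
    (hB : (univ.filter (fun i => b i = q)).card = h)
    (φ : (Fin n → Fin n) → (Fin m → Fin m)) (hinj : Function.Injective φ)
    (hhom : ∀ x y, φ (x ∘ b ∘ y) = φ x ∘ φ y) :
    ∃ s c k : ℕ, s + c + k = m ∧ n ^ (n - 2) ≤ (max s c) ^ k ∧
      4 ^ k * (h ^ (n - 2)) ^ 2 ≤ (max (s ^ 2) (4 * c ^ 2)) ^ k ∧ h ^ 6 ≤ 3 ^ s := by
  classical
  have hom' : ∀ x y j, φ x (φ y j) = φ (x ∘ b ∘ y) j := fun x y j => by rw [hhom]; rfl
  set P : Fin n → Fin n := fun _ => p with hP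
  set Q : Fin n → Fin n := fun _ => q with hQ
  have hPy : ∀ y j, φ P (φ y j) = φ P j := fun y j => by rw [hom']; rfl
  have hQy : ∀ y j, φ Q (φ y j) = φ Q j := fun y j => by rw [hom']; rfl
  set img : Finset (Fin m) := univ.filter (fun j => ∃ y i, φ y i = j) with himg
  have mem_img : ∀ y i, φ y i ∈ img := fun y i => by
    rw [himg, mem_filter]; exact ⟨mem_univ _, y, i, rfl⟩
  -- agreement on the image
  have agree : ∀ x x', x ∘ b = x' ∘ b → ∀ j ∈ img, φ x j = φ x' j := by
    intro x x' hx j hj
    rw [himg, mem_filter] at hj
    obtain ⟨_, y, i, rfl⟩ := hj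
    rw [hom', hom']
    have : x ∘ b ∘ y = x' ∘ b ∘ y := by
      rw [← Function.comp_assoc, hx, Function.comp_assoc]
    rw [this]
  set Is := img.filter (fun j => φ P j ≠ φ Q j) with hIs
  set Ic := img.filter (fun j => φ P j = φ Q j) with hIc
  set E := univ.filter (fun j => j ∉ img) with hE
  have hcard : Is.card + Ic.card + E.card = m := by
    have h1 : Ic.card + Is.card = img.card := by
      rw [hIs, hIc]; exact Finset.card_filter_add_card_filter_not _
    have h2 : img.card + E.card = m := by
      have := Finset.card_filter_add_card_filter_not (s := (univ : Finset (Fin m))) (fun j => j ∈ img)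
      rw [Finset.filter_mem_eq_inter, Finset.univ_inter] at this
      rw [hE, this, Finset.card_univ, Fintype.card_fin]
    omega
  -- φ y e in the right part
  have inIs : ∀ y e, φ P e ≠ φ Q e → φ y e ∈ Is := fun y e he => by
    rw [hIs, mem_filter]; exact ⟨mem_img y e, by rw [hPy, hQy]; exact he⟩
  have inIc : ∀ y e, φ P e = φ Q e → φ y e ∈ Ic := fun y e he => by
    rw [hIc, mem_filter]; exact ⟨mem_img y e, by rw [hPy, hQy]; exact he⟩
  have detE : ∀ x x', x ∘ b = x' ∘ b → (∀ e ∈ E, φ x e = φ x' e) → φ x = φ x' := by
    intro x x' hx hee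
    funext j
    by_cases hj : j ∈ img
    · exact agree x x' hx j hj
    · exact hee j (by rw [hE, mem_filter]; exact ⟨mem_univ _, hj⟩)
  have compb : ∀ x x' : Fin n → Fin n, x p = x' p → x q = x' q → x ∘ b = x' ∘ b := by
    intro x x' h1 h2
    funext i
    rcases hb i with hi | hi
    · simp only [Function.comp_apply, hi, h1]
    · simp only [Function.comp_apply, hi, h2]
  refine ⟨Is.card, Ic.card, E.card, hcard, ?_, ?_, ?_⟩
  · -- (i)
    have h1 := count_le φ hinj E
      (Fintype.piFinset (fun i : Fin n => if i = p then {p} else if i = q then {q} else univ))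
      (fun e => if φ P e = φ Q e then Ic else Is)
      (by
        intro x _ e _
        by_cases he : φ P e = φ Q e
        · simp only [he, if_true]; exact inIc x e he
        · simp only [he, if_false]; exact inIs x e he)
      (by
        intro x hx x' hx' hee
        obtain ⟨a1, a2, _⟩ := mem_fixed hpq hx
        obtain ⟨b1, b2, _⟩ := mem_fixed hpq hx'
        exact detE x x' (compb x x' (a1.trans b1.symm) (a2.trans b2.symm)) hee)
    rw [card_fixed p q p q hpq univ, card_univ, Fintype.card_fin] at h1
    refine h1.trans ?_
    rw [← Finset.prod_const]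
    refine Finset.prod_le_prod' (fun e _ => ?_)
    by_cases he : φ P e = φ Q e
    · simp only [he, if_true]; exact le_max_right _ _
    · simp only [he, if_false]; exact le_max_left _ _
  · -- (ii)
    have hbP : ∀ x : Fin n → Fin n, (∀ i, b (x i) = p) → ∀ e, φ b (φ x e) = φ P e := by
      intro x hx e
      have hc : b ∘ b ∘ x = P := by
        funext i
        simp only [Function.comp_apply, hx i, hbp, hP]
      rw [hom', hc]
    have hbQ : ∀ x : Fin n → Fin n, (∀ i, b (x i) = q) → ∀ e, φ b (φ x e) = φ Q e := by
      intro x hx e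
      have hc : b ∘ b ∘ x = Q := by
        funext i
        simp only [Function.comp_apply, hx i, hbq, hQ]
      rw [hom', hc]
    set V : Fin m → Finset (Fin m) := fun e => img.filter (fun i => φ b i = φ P e) with hV
    set W : Fin m → Finset (Fin m) := fun e => img.filter (fun i => φ b i = φ Q e) with hW
    have h1 := count_le φ hinj E
      (Fintype.piFinset (fun i : Fin n => if i = p then {p} else if i = q then {p} else
        (univ.filter (fun i => b i = p)))) V
      (by
        intro x hx e _
        obtain ⟨a1, a2, a3⟩ := mem_fixed hpq hx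
        rw [hV, mem_filter]
        refine ⟨mem_img _ _, hbP x ?_ e⟩
        intro i
        by_cases hi : i = p
        · rw [hi, a1, hbp]
        · by_cases hi2 : i = q
          · rw [hi2, a2, hbp]
          · exact (mem_filter.mp (a3 i hi hi2)).2)
      (by
        intro x hx x' hx' hee
        obtain ⟨a1, a2, _⟩ := mem_fixed hpq hx
        obtain ⟨b1, b2, _⟩ := mem_fixed hpq hx'
        exact detE x x' (compb x x' (a1.trans b1.symm) (a2.trans b2.symm)) hee)
    have h2 := count_le φ hinj E
      (Fintype.piFinset (fun i : Fin n => if i = p then {q} else if i = q then {q} else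
        (univ.filter (fun i => b i = q)))) W
      (by
        intro x hx e _
        obtain ⟨a1, a2, a3⟩ := mem_fixed hpq hx
        rw [hW, mem_filter]
        refine ⟨mem_img _ _, hbQ x ?_ e⟩
        intro i
        by_cases hi : i = p
        · rw [hi, a1, hbq]
        · by_cases hi2 : i = q
          · rw [hi2, a2, hbq]
          · exact (mem_filter.mp (a3 i hi hi2)).2)
      (by
        intro x hx x' hx' hee
        obtain ⟨a1, a2, _⟩ := mem_fixed hpq hx
        obtain ⟨b1, b2, _⟩ := mem_fixed hpq hx'
        exact detE x x' (compb x x' (a1.trans b1.symm) (a2.trans b2.symm)) hee)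
    rw [card_fixed p q p p hpq _, hA] at h1
    rw [card_fixed p q q q hpq _, hB] at h2
    have h3 : (h ^ (n - 2)) ^ 2 ≤ ∏ e ∈ E, ((V e).card * (W e).card) := by
      rw [Finset.prod_mul_distrib, pow_two]
      exact Nat.mul_le_mul h1 h2
    calc 4 ^ E.card * (h ^ (n - 2)) ^ 2 ≤ 4 ^ E.card * ∏ e ∈ E, ((V e).card * (W e).card) :=
          Nat.mul_le_mul_left _ h3
      _ = ∏ e ∈ E, (4 * ((V e).card * (W e).card)) := by
          rw [← Finset.prod_const, ← Finset.prod_mul_distrib]
      _ ≤ ∏ _e ∈ E, (max (Is.card ^ 2) (4 * Ic.card ^ 2)) := by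
          refine Finset.prod_le_prod' (fun e _ => ?_)
          by_cases he : φ P e = φ Q e
          · -- constant component
            have hVc : (V e).card ≤ Ic.card := by
              refine Finset.card_le_card (fun i hi => ?_)
              rw [hV, mem_filter] at hi
              rw [hIc, mem_filter]
              refine ⟨hi.1, ?_⟩
              rw [← hPy b i, ← hQy b i, hi.2, hPy, hQy, he]
            have hWc : (W e).card ≤ Ic.card := by
              refine Finset.card_le_card (fun i hi => ?_)
              rw [hW, mem_filter] at hi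
              rw [hIc, mem_filter]
              refine ⟨hi.1, ?_⟩
              rw [← hPy b i, ← hQy b i, hi.2, hPy, hQy, he]
            refine le_trans ?_ (le_max_right _ _)
            have := Nat.mul_le_mul hVc hWc
            nlinarith
          · have hsub : V e ∪ W e ⊆ Is := by
              intro i hi
              rw [mem_union] at hi
              rw [hIs, mem_filter]
              rcases hi with hi | hi
              · rw [hV, mem_filter] at hi
                refine ⟨hi.1, ?_⟩
                rw [← hPy b i, ← hQy b i, hi.2, hPy, hQy]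
                exact he
              · rw [hW, mem_filter] at hi
                refine ⟨hi.1, ?_⟩
                rw [← hPy b i, ← hQy b i, hi.2, hPy, hQy]
                exact he
            have hdisj : Disjoint (V e) (W e) := by
              rw [Finset.disjoint_left]
              intro i hi hi'
              rw [hV, mem_filter] at hi
              rw [hW, mem_filter] at hi'
              exact he (hi.2.symm.trans hi'.2)
            have h5 : (V e).card + (W e).card ≤ Is.card := by
              rw [← Finset.card_union_of_disjoint hdisj]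
              exact Finset.card_le_card hsub
            refine le_trans ?_ (le_max_left _ _)
            have h6 : ((V e).card + (W e).card) ^ 2 ≤ Is.card ^ 2 := Nat.pow_le_pow_left h5 2
            zify at h6 ⊢
            nlinarith [sq_nonneg (((V e).card : ℤ) - ((W e).card : ℤ))]
      _ = _ := by rw [Finset.prod_const]
  · -- (iii)
    have cst : ∀ j, φ P j = φ Q j → ∀ u : Fin n, φ (fun _ => u) j = φ P j := by
      intro j hj u
      let x : Fin n → Fin n := fun i => if i = p then u else p
      have c1 : x ∘ b ∘ P = fun _ => u := by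
        funext i
        simp only [Function.comp_apply, hP, hbp, x, if_true]
      have c2 : x ∘ b ∘ Q = P := by
        funext i
        simp only [Function.comp_apply, hP, hQ, hbq, x, if_neg hpq.symm]
      have e1 : φ (fun _ => u) j = φ x (φ P j) := by
        rw [hom', c1]
      have e2 : φ P j = φ x (φ Q j) := by
        rw [hom', c2]
      rw [e1, hj, ← e2, hj]
    set D : Fin m → Finset (Fin m) := fun ζ => Is.filter (fun i => φ b i = ζ) with hD
    set ZP := (univ.filter (fun j => φ P j ≠ φ Q j)).image (φ P) with hZP
    set ZQ := (univ.filter (fun j => φ P j ≠ φ Q j)).image (φ Q) with hZQ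
    have h1 : h ≤ ∏ ζ ∈ ZP, (D ζ).card := by
      have := count_le φ hinj ZP
        ((univ.filter (fun i => b i = p)).image (fun u => (fun _ => u : Fin n → Fin n))) D
        (by
          intro x hx ζ hζ
          rw [mem_image] at hx
          obtain ⟨u, hu, rfl⟩ := hx
          rw [mem_filter] at hu
          rw [hZP, mem_image] at hζ
          obtain ⟨j, hj, rfl⟩ := hζ
          rw [mem_filter] at hj
          rw [hD, mem_filter]
          refine ⟨inIs _ _ ?_, ?_⟩
          · rw [hPy, hQy]; exact hj.2
          · rw [hom']
            have : b ∘ b ∘ (fun _ => u : Fin n → Fin n) = P := by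
              funext i; simp only [Function.comp_apply, hu.2, hbp, hP]
            rw [this, hPy])
        (by
          intro x hx x' hx' hee
          rw [mem_image] at hx hx'
          obtain ⟨u, hu, rfl⟩ := hx
          obtain ⟨u', hu', rfl⟩ := hx'
          funext j
          by_cases hj : φ P j = φ Q j
          · rw [cst j hj u, cst j hj u']
          · have e1 : ∀ w : Fin n, φ (fun _ => w) j = φ (fun _ => w) (φ P j) := by
              intro w; rw [hom']; rfl
            rw [e1 u, e1 u']
            refine hee _ ?_
            rw [hZP, mem_image]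
            exact ⟨j, by rw [mem_filter]; exact ⟨mem_univ _, hj⟩, rfl⟩)
      rw [Finset.card_image_of_injective _ (fun u v huv => congrFun huv p), hA] at this
      exact this
    have h2 : h ≤ ∏ ζ ∈ ZQ, (D ζ).card := by
      have := count_le φ hinj ZQ
        ((univ.filter (fun i => b i = q)).image (fun u => (fun _ => u : Fin n → Fin n))) D
        (by
          intro x hx ζ hζ
          rw [mem_image] at hx
          obtain ⟨u, hu, rfl⟩ := hx
          rw [mem_filter] at hu
          rw [hZQ, mem_image] at hζ
          obtain ⟨j, hj, rfl⟩ := hζ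
          rw [mem_filter] at hj
          rw [hD, mem_filter]
          refine ⟨inIs _ _ ?_, ?_⟩
          · rw [hPy, hQy]; exact hj.2
          · rw [hom']
            have : b ∘ b ∘ (fun _ => u : Fin n → Fin n) = Q := by
              funext i; simp only [Function.comp_apply, hu.2, hbq, hQ]
            rw [this, hQy])
        (by
          intro x hx x' hx' hee
          rw [mem_image] at hx hx'
          obtain ⟨u, hu, rfl⟩ := hx
          obtain ⟨u', hu', rfl⟩ := hx'
          funext j
          by_cases hj : φ P j = φ Q j
          · rw [cst j hj u, cst j hj u']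
          · have e1 : ∀ w : Fin n, φ (fun _ => w) j = φ (fun _ => w) (φ Q j) := by
              intro w; rw [hom']; rfl
            rw [e1 u, e1 u']
            refine hee _ ?_
            rw [hZQ, mem_image]
            exact ⟨j, by rw [mem_filter]; exact ⟨mem_univ _, hj⟩, rfl⟩)
      rw [Finset.card_image_of_injective _ (fun u v huv => congrFun huv p), hB] at this
      exact this
    have hdisj : Disjoint ZP ZQ := by
      rw [Finset.disjoint_left]
      intro i hi hi'
      rw [hZP, mem_image] at hi
      rw [hZQ, mem_image] at hi'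
      obtain ⟨j, hj, hji⟩ := hi
      obtain ⟨j', hj', hji'⟩ := hi'
      rw [mem_filter] at hj
      apply hj.2
      have e1 : φ P i = i := by rw [← hji, hPy]
      have e2 : φ Q i = i := by rw [← hji', hQy]
      have e3 : φ P i = φ P j := by rw [← hji, hPy]
      have e4 : φ Q i = φ Q j := by rw [← hji, hQy]
      rw [← e3, ← e4, e1, e2]
    have h3 : h * h ≤ ∏ ζ ∈ ZP ∪ ZQ, (D ζ).card := by
      rw [Finset.prod_union hdisj]
      exact Nat.mul_le_mul h1 h2
    calc h ^ 6 = (h * h) ^ 3 := by ring
      _ ≤ (∏ ζ ∈ ZP ∪ ZQ, (D ζ).card) ^ 3 := Nat.pow_le_pow_left h3 3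
      _ = ∏ ζ ∈ ZP ∪ ZQ, (D ζ).card ^ 3 := by rw [Finset.prod_pow]
      _ ≤ ∏ ζ ∈ ZP ∪ ZQ, 3 ^ (D ζ).card := Finset.prod_le_prod' (fun ζ _ => cube_le _)
      _ = 3 ^ (∑ ζ ∈ ZP ∪ ZQ, (D ζ).card) := by rw [Finset.prod_pow_eq_pow_sum]
      _ ≤ 3 ^ Is.card := by
          refine Nat.pow_le_pow_right (by norm_num) ?_
          calc ∑ ζ ∈ ZP ∪ ZQ, (D ζ).card ≤ ∑ ζ : Fin m, (D ζ).card :=
                Finset.sum_le_sum_of_subset (Finset.subset_univ _)
            _ = Is.card := by
                rw [hD]
                exact (Finset.card_eq_sum_card_fiberwise (fun i _ => Finset.mem_coe.mpr (mem_univ (φ b i)))).symm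

end Pool.Agent.V1148.VT
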