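import Mathlib

/-! A transformation representation of the rank-2 variant of `T_n` (n even) whose kernel has
classes of size `n - 1` and `1`. -/

namespace Pool.Agent.V1148.VT

open Finset Classical

variable {n : ℕ}

/-- `g` takes at most two values. -/
def Two (g : Fin n → Fin n) : Prop := ∃ u v, ∀ i, g i = u ∨ g i = v

lemma two_cases {g : Fin n → Fin n} (hg : Two g) {i j : Fin n} (hij : g i ≠ g j) (k : Fin n) :
    g k = g i ∨ g k = g j := by
  obtain ⟨u, v, h⟩ := hg
  rcases h i with hi | hi <;> rcases h j with hj | hj <;> rcases h k with hk | hk <;>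
    simp_all

lemma Two.comp {g : Fin n → Fin n} (hg : Two g) (x : Fin n → Fin n) : Two (x ∘ g) := by
  obtain ⟨u, v, h⟩ := hg
  refine ⟨x u, x v, fun i => ?_⟩
  rcases h i with hi | hi
  · left; simp [hi]
  · right; simp [hi]

/-- `v` is a strict majority value of `g` on the complement of `q`. -/
def IsMaj (q : Fin n) (g : Fin n → Fin n) (v : Fin n) : Prop :=
  n - 1 < 2 * ((univ.erase q).filter (fun i => g i = v)).card

lemma maj_unique {q : Fin n} {g : Fin n → Fin n} {v w : Fin n} (hv : IsMaj q g v)
    (hw : IsMaj q g w) : v = w := by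
  by_contra hne
  have hdisj : Disjoint ((univ.erase q).filter (fun i => g i = v))
      ((univ.erase q).filter (fun i => g i = w)) := by
    rw [Finset.disjoint_left]
    intro i hi hi'
    exact hne ((mem_filter.mp hi).2.symm.trans (mem_filter.mp hi').2)
  have h1 : ((univ.erase q).filter (fun i => g i = v)).card +
      ((univ.erase q).filter (fun i => g i = w)).card ≤ n - 1 := by
    rw [← Finset.card_union_of_disjoint hdisj]
    calc _ ≤ (univ.erase q).card := Finset.card_le_card (Finset.union_subset
            (Finset.filter_subset _ _) (Finset.filter_subset _ _))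
      _ = n - 1 := by
          rw [Finset.card_erase_of_mem (mem_univ q), Finset.card_univ, Fintype.card_fin]
  unfold IsMaj at hv hw
  omega

lemma maj_comp' {q : Fin n} {g : Fin n → Fin n} {v : Fin n} (hv : IsMaj q g v)
    (x : Fin n → Fin n) : IsMaj q (x ∘ g) (x v) := by
  unfold IsMaj at hv ⊢
  refine lt_of_lt_of_le hv (Nat.mul_le_mul_left _ (Finset.card_le_card ?_))
  intro i hi
  rw [mem_filter] at hi ⊢
  exact ⟨hi.1, by simp [hi.2]⟩

lemma maj_exists {q : Fin n} (hn : Even n) {g : Fin n → Fin n} (hg : Two g) :
    ∃ v, IsMaj q g v := by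
  obtain ⟨u, v, h⟩ := hg
  have hc : (univ.erase q : Finset (Fin n)).card = n - 1 := by
    rw [Finset.card_erase_of_mem (mem_univ q), Finset.card_univ, Fintype.card_fin]
  have hsum := Finset.card_filter_add_card_filter_not (s := (univ.erase q)) (fun i => g i = u)
  have hn1 : 1 ≤ n := by have := q.isLt; omega
  by_cases h1 : IsMaj q g u
  · exact ⟨u, h1⟩
  · refine ⟨v, ?_⟩
    have h2 : ((univ.erase q).filter (fun i => ¬ g i = u)).card ≤
        ((univ.erase q).filter (fun i => g i = v)).card := by
      refine Finset.card_le_card (fun i hi => ?_)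
      rw [mem_filter] at hi ⊢
      exact ⟨hi.1, (h i).resolve_left hi.2⟩
    unfold IsMaj at h1 ⊢
    obtain ⟨t, ht⟩ := hn
    omega

/-- The majority value. -/
noncomputable def Maj (q : Fin n) (g : Fin n → Fin n) : Fin n :=
  if h : ∃ v, IsMaj q g v then h.choose else q

lemma Maj_eq {q : Fin n} {g : Fin n → Fin n} {v : Fin n} (hv : IsMaj q g v) : Maj q g = v := by
  have h : ∃ v, IsMaj q g v := ⟨v, hv⟩
  unfold Maj
  rw [dif_pos h]
  exact maj_unique h.choose_spec hv

lemma Maj_spec {q : Fin n} (hn : Even n) {g : Fin n → Fin n} (hg : Two g) :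
    IsMaj q g (Maj q g) := by
  obtain ⟨v, hv⟩ := maj_exists (q := q) hn hg
  rw [Maj_eq hv]; exact hv

lemma Maj_comp {q : Fin n} (hn : Even n) {g : Fin n → Fin n} (hg : Two g) (x : Fin n → Fin n) :
    Maj q (x ∘ g) = x (Maj q g) :=
  Maj_eq (maj_comp' (Maj_spec hn hg) x)

lemma Maj_mem {q : Fin n} (hn : Even n) {g : Fin n → Fin n} (hg : Two g) :
    ∃ i, g i = Maj q g := by
  have := Maj_spec (q := q) hn hg
  unfold IsMaj at this
  have h2 : 0 < ((univ.erase q).filter (fun i => g i = Maj q g)).card := by omega
  obtain ⟨i, hi⟩ := Finset.card_pos.mp h2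
  exact ⟨i, (mem_filter.mp hi).2⟩

lemma same_of_maj {q : Fin n} (hn : Even n) (p : Fin n) {g g' : Fin n → Fin n} (hg : Two g)
    (hg' : Two g') (h : ∀ v, g v = Maj q g ↔ g' v = Maj q g') (v : Fin n) :
    g v = g p ↔ g' v = g' p := by
  have key : ∀ {g : Fin n → Fin n}, Two g →
      (g v = g p ↔ ((g v = Maj q g) ↔ (g p = Maj q g))) := by
    intro g hg
    constructor
    · intro h; rw [h]
    · intro h
      by_cases h1 : g v = Maj q g
      · rw [h1, h.mp h1]
      · have h2 : g p ≠ Maj q g := fun h3 => h1 (h.mpr h3)
        obtain ⟨i, hi⟩ := Maj_mem (q := q) hn hg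
        rw [← hi] at h1 h2
        rcases two_cases hg h1 p with h3 | h3
        · exact h3.symm
        · exact absurd h3 h2
  rw [key hg, key hg', h v, h p]

/-- The value of `g` different from `g p` if `g p = g q` and `g` is not constant. -/
noncomputable def Fv (p q : Fin n) (g : Fin n → Fin n) : Fin n :=
  if h : g p = g q ∧ ∃ i, g i ≠ g p then g h.2.choose else g p

lemma Fv_ne {p q : Fin n} {g : Fin n → Fin n} (h : g p ≠ g q) : Fv p q g = g p := by
  unfold Fv; rw [dif_neg (fun h' => h h'.1)]

lemma Fv_const {p q : Fin n} {g : Fin n → Fin n} (h : ∀ i, g i = g p) : Fv p q g = g p := by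
  unfold Fv; rw [dif_neg (fun h' => h'.2.elim (fun i hi => hi (h i)))]

lemma Fv_eq {p q : Fin n} {g : Fin n → Fin n} (hg : Two g) (h : g p = g q) {i : Fin n}
    (hi : g i ≠ g p) : Fv p q g = g i := by
  have h' : g p = g q ∧ ∃ i, g i ≠ g p := ⟨h, i, hi⟩
  unfold Fv
  rw [dif_pos h']
  have h2 := h'.2.choose_spec
  rcases two_cases hg hi (h'.2.choose) with h3 | h3
  · exact h3
  · exact absurd h3 h2

lemma Fv_comp {p q : Fin n} {g : Fin n → Fin n} (hg : Two g) (x : Fin n → Fin n) :
    Fv p q (x ∘ g) = x (Fv p q g) := by
  by_cases h1 : g p = g q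
  · by_cases h2 : ∃ i, g i ≠ g p
    · obtain ⟨i, hi⟩ := h2
      rw [Fv_eq hg h1 hi]
      by_cases h3 : x (g i) = x (g p)
      · rw [Fv_const, h3]; rfl
        intro j
        rcases two_cases hg hi j with hj | hj
        · simp only [Function.comp_apply, hj, h3]
        · simp only [Function.comp_apply, hj]
      · exact Fv_eq (hg.comp x) (by simp only [Function.comp_apply, h1]) h3
    · push Not at h2
      rw [Fv_const h2, Fv_const]; rfl
      intro j
      simp only [Function.comp_apply, h2 j]
  · rw [Fv_ne h1]
    by_cases h3 : x (g p) = x (g q)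
    · rw [Fv_const]; rfl
      intro j
      rcases two_cases hg h1 j with hj | hj
      · simp only [Function.comp_apply, hj]
      · simp only [Function.comp_apply, hj, h3]
    · exact Fv_ne h3

/-- The points of the representation. -/
inductive Pt (n z K L : ℕ) : Type
  | Z (i : Fin (z + 2))
  | iota
  | ev (v : Fin n)
  | ex (j : Fin K)
  | flag
  | dig (l : Fin L) (d : Fin 4)
  | star (l : Fin L)
  | eps (l : Fin L)

/-- Counting the points. -/
def ptEquiv (n z K L : ℕ) : Pt n z K L ≃
    (Fin (z + 2) ⊕ Unit) ⊕ (Fin n ⊕ Fin K) ⊕ (Unit ⊕ (Fin L × Fin 4)) ⊕ (Fin L ⊕ Fin L) where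
  toFun
    | .Z i => .inl (.inl i)
    | .iota => .inl (.inr ())
    | .ev v => .inr (.inl (.inl v))
    | .ex j => .inr (.inl (.inr j))
    | .flag => .inr (.inr (.inl (.inl ())))
    | .dig l d => .inr (.inr (.inl (.inr (l, d))))
    | .star l => .inr (.inr (.inr (.inl l)))
    | .eps l => .inr (.inr (.inr (.inr l)))
  invFun
    | .inl (.inl i) => .Z i
    | .inl (.inr ()) => .iota
    | .inr (.inl (.inl v)) => .ev v
    | .inr (.inl (.inr j)) => .ex j
    | .inr (.inr (.inl (.inl ()))) => .flag
    | .inr (.inr (.inl (.inr (l, d)))) => .dig l d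
    | .inr (.inr (.inr (.inl l))) => .star l
    | .inr (.inr (.inr (.inr l))) => .eps l
  left_inv := by
    intro x; cases x <;> rfl
  right_inv := by
    rintro ((i | _) | (v | j) | (_ | ⟨l, d⟩) | (l | l)) <;> rfl

lemma ptFin (n z K L : ℕ) : Nonempty (Pt n z K L ≃ Fin ((z + 2) + (n + K) + 2 + 6 * L)) := by
  have h : Fintype.card ((Fin (z + 2) ⊕ Unit) ⊕ (Fin n ⊕ Fin K) ⊕ (Unit ⊕ (Fin L × Fin 4)) ⊕
      (Fin L ⊕ Fin L)) = Fintype.card (Fin ((z + 2) + (n + K) + 2 + 6 * L)) := by
    simp only [Fintype.card_sum, Fintype.card_prod, Fintype.card_fin, Fintype.card_unit]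
    omega
  exact ⟨(ptEquiv n z K L).trans (Fintype.equivOfCardEq h)⟩

section Act

variable {z K L : ℕ} (p q : Fin n) (dg : Fin n → Fin L → Fin 4)
  (C : (Fin n → Fin n) → (Fin n → Fin n) → (Fin n ⊕ Fin K → Fin (z + 2)))

/-- the kernel-type `(n-1, 1)` map -/
noncomputable def av (i : Fin n) : Fin n := if i = q then q else p

/-- pair points -/
noncomputable def G (u v : Fin n) : Pt n z K L :=
  if u = v then .Z 0 else if u ≠ q ∧ v ≠ q then .Z 1 else .iota

/-- digit points -/
noncomputable def hl (u : Fin n) (l : Fin L) : Pt n z K L :=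
  if u = q then .star l else .dig l (dg u l)

/-- The action. -/
noncomputable def act (x : Fin n → Fin n) : Pt n z K L → Pt n z K L
  | .Z _ => .Z 0
  | .iota => G q (x p) (x q)
  | .ev v => if Two x then G q (Maj q x) (x v) else
      if av p q (x v) = Maj q (av p q ∘ x) then .Z (C (av p q ∘ x) x (.inl v)) else .iota
  | .ex j => if Two x then .Z 0 else .Z (C (av p q ∘ x) x (.inr j))
  | .flag => if Two x then .Z 0 else .Z 1
  | .dig l _ => hl q dg (x p) l
  | .star l => hl q dg (x q) l
  | .eps l => hl q dg (if Two x then Fv p q x else Fv p q (av p q ∘ x)) l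

variable {p q}

lemma av_q : av p q q = q := by simp [av]

lemma av_ne {u : Fin n} (h : u ≠ q) : av p q u = p := by simp [av, h]

lemma av_two : Two (av p q : Fin n → Fin n) :=
  ⟨q, p, fun i => by by_cases h : i = q <;> simp [av, h]⟩

lemma av_idem (hpq : p ≠ q) (u : Fin n) : av p q (av p q u) = av p q u := by
  by_cases h : u = q
  · simp [av, h]
  · simp [av, h, hpq]

lemma av_fix (hpq : p ≠ q) {u : Fin n} (h : av p q u = u) : u = p ∨ u = q := by
  by_cases h1 : u = q
  · exact Or.inr h1
  · left; rw [← h, av_ne h1]

lemma av_eq_q (hpq : p ≠ q) {u : Fin n} (h : av p q u = q) : u = q := by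
  by_contra h1
  rw [av_ne h1] at h
  exact hpq h

lemma av_eq_or (u : Fin n) : av p q u = p ∨ av p q u = q := by
  by_cases h : u = q
  · right; simp [av, h]
  · left; simp [av, h]

lemma G_self (u : Fin n) : (G q u u : Pt n z K L) = .Z 0 := by simp [G]

lemma G_symm (u v : Fin n) : (G q u v : Pt n z K L) = G q v u := by
  unfold G
  by_cases h : u = v
  · rw [h]
  · rw [if_neg h, if_neg (Ne.symm h)]
    simp only [and_comm]

lemma G_eq_zero {u v : Fin n} : (G q u v : Pt n z K L) = .Z 0 ↔ u = v := by
  constructor
  · intro h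
    by_contra h1
    unfold G at h
    rw [if_neg h1] at h
    by_cases h2 : u ≠ q ∧ v ≠ q
    · rw [if_pos h2] at h
      simp at h
    · rw [if_neg h2] at h
      simp at h
  · intro h; rw [h, G_self]

lemma act_G (hpq : p ≠ q) (x : Fin n → Fin n) (u v : Fin n) :
    act p q dg C x (G q u v) = G q (x (av p q u)) (x (av p q v)) := by
  by_cases h : u = v
  · subst h; rw [G_self, G_self]; rfl
  · by_cases h2 : u ≠ q ∧ v ≠ q
    · rw [av_ne h2.1, av_ne h2.2, G_self]
      unfold G; rw [if_neg h, if_pos h2]; rfl
    · have e : (G q u v : Pt n z K L) = .iota := by unfold G; rw [if_neg h, if_neg h2]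
      rw [e]
      show G q (x p) (x q) = _
      by_cases h3 : u = q
      · have h4 : v ≠ q := fun h4 => h (h3.trans h4.symm)
        rw [h3, av_q, av_ne h4, G_symm]
      · have h4 : v = q := by by_contra h4; exact h2 ⟨h3, h4⟩
        rw [h4, av_q, av_ne h3]

lemma act_hl (x : Fin n → Fin n) (u : Fin n) (l : Fin L) :
    act p q dg C x (hl q dg u l) = hl q dg (x (av p q u)) l := by
  unfold hl
  by_cases h : u = q
  · rw [if_pos h, h, av_q]; rfl
  · rw [if_neg h, av_ne h]; rfl

theorem act_hom (hn : Even n) (hpq : p ≠ q) (x y : Fin n → Fin n) (t : Pt n z K L) :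
    act p q dg C x (act p q dg C y t) = act p q dg C (x ∘ av p q ∘ y) t := by
  have T2 : Two (av p q ∘ y) := by
    obtain ⟨u, v, h⟩ := (av_two (p := p) (q := q))
    exact ⟨u, v, fun i => h (y i)⟩
  have T : Two (x ∘ av p q ∘ y) := T2.comp x
  have hMa : Maj q (x ∘ av p q ∘ y) = x (Maj q (av p q ∘ y)) := Maj_comp hn T2 x
  have hidem : av p q ∘ (av p q ∘ y) = av p q ∘ y := by
    funext i; exact av_idem hpq (y i)
  have hMfix : av p q (Maj q (av p q ∘ y)) = Maj q (av p q ∘ y) := by
    rw [← Maj_comp hn T2 (av p q), hidem]
  cases t with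
  | Z i => rfl
  | iota =>
    show act p q dg C x (G q (y p) (y q)) = _
    rw [act_G dg C hpq]; rfl
  | ev v =>
    have hR : act p q dg C (x ∘ av p q ∘ y) (.ev v) =
        G q (x (Maj q (av p q ∘ y))) (x (av p q (y v))) := by
      show (if Two (x ∘ av p q ∘ y) then _ else _) = _
      rw [if_pos T, hMa]; rfl
    rw [hR]
    by_cases hy : Two y
    · have hL : act p q dg C y (.ev v) = (G q (Maj q y) (y v) : Pt n z K L) := by
        show (if Two y then _ else _) = _
        rw [if_pos hy]
      rw [hL, act_G dg C hpq, Maj_comp hn hy]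
    · by_cases hv : av p q (y v) = Maj q (av p q ∘ y)
      · have hL : act p q dg C y (.ev v) = .Z (C (av p q ∘ y) y (.inl v)) := by
          show (if Two y then _ else _) = _
          rw [if_neg hy, if_pos hv]
        rw [hL, hv, G_self]; rfl
      · have hL : act p q dg C y (.ev v) = (.iota : Pt n z K L) := by
          show (if Two y then _ else _) = _
          rw [if_neg hy, if_neg hv]
        rw [hL]
        show G q (x p) (x q) = _
        rcases av_fix hpq hMfix with h1 | h1 <;>
          rcases av_eq_or (p := p) (q := q) (y v) with h2 | h2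
        · exact absurd (h2.trans h1.symm) hv
        · rw [h1, h2]
        · rw [h1, h2, G_symm]
        · exact absurd (h2.trans h1.symm) hv
  | ex j =>
    have hR : act p q dg C (x ∘ av p q ∘ y) (.ex j) = (.Z 0 : Pt n z K L) := by
      show (if Two (x ∘ av p q ∘ y) then _ else _) = _
      rw [if_pos T]
    rw [hR]
    by_cases hy : Two y
    · have hL : act p q dg C y (.ex j) = (.Z 0 : Pt n z K L) := by
        show (if Two y then _ else _) = _
        rw [if_pos hy]
      rw [hL]; rfl
    · have hL : act p q dg C y (.ex j) = .Z (C (av p q ∘ y) y (.inr j)) := by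
        show (if Two y then _ else _) = _
        rw [if_neg hy]
      rw [hL]; rfl
  | flag =>
    have hR : act p q dg C (x ∘ av p q ∘ y) .flag = (.Z 0 : Pt n z K L) := by
      show (if Two (x ∘ av p q ∘ y) then _ else _) = _
      rw [if_pos T]
    rw [hR]
    by_cases hy : Two y
    · have hL : act p q dg C y .flag = (.Z 0 : Pt n z K L) := by
        show (if Two y then _ else _) = _
        rw [if_pos hy]
      rw [hL]; rfl
    · have hL : act p q dg C y .flag = (.Z 1 : Pt n z K L) := by
        show (if Two y then _ else _) = _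
        rw [if_neg hy]
      rw [hL]; rfl
  | dig l d => exact act_hl dg C x (y p) l
  | star l => exact act_hl dg C x (y q) l
  | eps l =>
    have hR : act p q dg C (x ∘ av p q ∘ y) (.eps l) =
        hl q dg (x (Fv p q (av p q ∘ y))) l := by
      show hl q dg (if Two (x ∘ av p q ∘ y) then _ else _) l = _
      rw [if_pos T, Fv_comp T2 x]
    rw [hR]
    have hL : act p q dg C y (.eps l) =
        (hl q dg (if Two y then Fv p q y else Fv p q (av p q ∘ y)) l : Pt n z K L) := rfl
    rw [hL, act_hl]
    congr 2
    by_cases hy : Two y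
    · rw [if_pos hy, ← Fv_comp hy (av p q)]
    · rw [if_neg hy, ← Fv_comp T2 (av p q), hidem]

lemma hl_inj (hL : 0 < L) (hdg : Function.Injective dg) {u v : Fin n}
    (h : ∀ l : Fin L, (hl q dg u l : Pt n z K L) = hl q dg v l) : u = v := by
  unfold hl at h
  by_cases hu : u = q
  · by_cases hv : v = q
    · rw [hu, hv]
    · have := h ⟨0, hL⟩
      rw [if_pos hu, if_neg hv] at this
      simp at this
  · by_cases hv : v = q
    · have := h ⟨0, hL⟩
      rw [if_neg hu, if_pos hv] at this
      simp at this
    · apply hdg
      funext l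
      have := h l
      rw [if_neg hu, if_neg hv] at this
      simpa using this

theorem act_inj (hn : Even n) (hpq : p ≠ q) (hL : 0 < L) (hdg : Function.Injective dg)
    (hC : ∀ f : Fin n → Fin n, (∀ i, f i = p ∨ f i = q) → ∀ x x' : Fin n → Fin n,
      (∀ v, f v = Maj q f → C f x (.inl v) = C f x' (.inl v)) →
      (∀ j, C f x (.inr j) = C f x' (.inr j)) → ∀ v, f v ≠ q → x v = x' v) :
    Function.Injective (act p q dg C : (Fin n → Fin n) → Pt n z K L → Pt n z K L) := by
  intro x x' hxx
  have hall : ∀ t : Pt n z K L, act p q dg C x t = act p q dg C x' t := fun t => congrFun hxx t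
  have hp : x p = x' p := hl_inj dg hL hdg (fun l => hall (.dig l 0))
  have hq : x q = x' q := hl_inj dg hL hdg (fun l => hall (.star l))
  have hflag := hall .flag
  have T2 : ∀ y : Fin n → Fin n, Two (av p q ∘ y) := by
    intro y
    obtain ⟨u, v, h⟩ := (av_two (p := p) (q := q))
    exact ⟨u, v, fun i => h (y i)⟩
  by_cases hx : Two x
  · by_cases hx' : Two x'
    · have hF : Fv p q x = Fv p q x' := by
        refine hl_inj (z := z) (K := K) dg hL hdg (q := q) (fun l => ?_)
        have := hall (.eps l)
        simp only [act, if_pos hx, if_pos hx'] at this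
        exact this
      have hev : ∀ v, x v = Maj q x ↔ x' v = Maj q x' := by
        intro v
        have := hall (.ev v)
        simp only [act, if_pos hx, if_pos hx'] at this
        constructor
        · intro h
          rw [h, G_self] at this
          exact (G_eq_zero.mp this.symm).symm
        · intro h
          rw [h, G_self] at this
          exact (G_eq_zero.mp this).symm
      have hs := same_of_maj hn p hx hx' hev
      funext v
      by_cases hv : x v = x p
      · rw [hv, hp, ((hs v).mp hv)]
      · have hv' : x' v ≠ x' p := fun h => hv ((hs v).mpr h)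
        by_cases hpq' : x p = x q
        · rw [← Fv_eq hx hpq' hv, hF, Fv_eq hx' (by rw [← hp, ← hq, hpq']) hv']
        · have h1 : x v = x q := (two_cases hx hpq' v).resolve_left hv
          have h2 : x' v = x' q := by
            refine (two_cases hx' (i := p) (j := q) ?_ v).resolve_left hv'
            rw [← hp, ← hq]; exact hpq'
          rw [h1, h2, hq]
    · simp only [act, if_pos hx, if_neg hx'] at hflag
      simp at hflag
  · by_cases hx' : Two x'
    · simp only [act, if_neg hx, if_pos hx'] at hflag
      simp at hflag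
    · have hev : ∀ v, (av p q ∘ x) v = Maj q (av p q ∘ x) ↔
          (av p q ∘ x') v = Maj q (av p q ∘ x') := by
        intro v
        have := hall (.ev v)
        simp only [act, if_neg hx, if_neg hx'] at this
        simp only [Function.comp_apply]
        by_cases h1 : av p q (x v) = Maj q (av p q ∘ x)
        · by_cases h2 : av p q (x' v) = Maj q (av p q ∘ x')
          · exact ⟨fun _ => h2, fun _ => h1⟩
          · rw [if_pos h1, if_neg h2] at this
            simp at this
        · by_cases h2 : av p q (x' v) = Maj q (av p q ∘ x')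
          · rw [if_neg h1, if_pos h2] at this
            simp at this
          · exact ⟨fun h => absurd h h1, fun h => absurd h h2⟩
      have hs := same_of_maj hn p (T2 x) (T2 x') hev
      have hff : av p q ∘ x = av p q ∘ x' := by
        funext v
        have hsv := hs v
        simp only [Function.comp_apply] at hsv ⊢
        rw [← hp] at hsv
        rcases av_eq_or (p := p) (q := q) (x v) with h1 | h1
        · rcases av_eq_or (p := p) (q := q) (x' v) with h2 | h2
          · rw [h1, h2]
          · exfalso
            rcases av_eq_or (p := p) (q := q) (x p) with h3 | h3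
            · rw [h1, h2, h3] at hsv
              exact hpq (hsv.mp rfl).symm
            · rw [h1, h2, h3] at hsv
              exact hpq (hsv.mpr rfl)
        · rcases av_eq_or (p := p) (q := q) (x' v) with h2 | h2
          · exfalso
            rcases av_eq_or (p := p) (q := q) (x p) with h3 | h3
            · rw [h1, h2, h3] at hsv
              exact hpq (hsv.mpr rfl).symm
            · rw [h1, h2, h3] at hsv
              exact hpq (hsv.mp rfl)
          · rw [h1, h2]
      have hcode : ∀ v, (av p q ∘ x) v ≠ q → x v = x' v := by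
        refine hC (av p q ∘ x) (fun i => av_eq_or (x i)) x x' ?_ ?_
        · intro v hv
          have := hall (.ev v)
          simp only [act, if_neg hx, if_neg hx'] at this
          have hv' : av p q (x' v) = Maj q (av p q ∘ x') := (hev v).mp hv
          simp only [Function.comp_apply] at hv
          rw [if_pos hv, if_pos hv', ← hff] at this
          simpa using this
        · intro j
          have := hall (.ex j)
          simp only [act, if_neg hx, if_neg hx'] at this
          rw [← hff] at this
          simpa using this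
      funext v
      by_cases hv : (av p q ∘ x) v = q
      · have h1 : x v = q := av_eq_q hpq hv
        have h2 : x' v = q := av_eq_q hpq (by
          have := congrFun hff v
          simp only [Function.comp_apply] at this
          rw [← this]; exact hv)
        rw [h1, h2]
      · exact hcode v hv

end Act

end Pool.Agent.V1148.VT
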