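import Mathlib
import Pool.Agent.V1148.VT1
import Pool.Agent.V1148.VT2

namespace Pool.Agent.V1148.VT

open Finset Classical

variable {n z K : ℕ} {p q : Fin n}

lemma count_code (hn : Even n) (hpq : p ≠ q) (hz : z + 2 ≤ n) (hK : n ^ n ≤ (z + 2) ^ (n + K))
    (f : Fin n → Fin n) (hf : ∀ i, f i = p ∨ f i = q) :
    n ^ (univ.filter (fun v => f v ≠ q)).card ≤
      (z + 2) ^ ((univ.filter (fun v => f v = Maj q f)).card + K) := by
  have hT : Two f := ⟨p, q, hf⟩
  set w := (univ.filter (fun v => f v ≠ q)).card with hw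
  set g := (univ.filter (fun v => f v = Maj q f)).card with hg
  set d := (univ.filter (fun v => ¬ f v = Maj q f)).card with hd
  have hgd : g + d = n := by
    have := Finset.card_filter_add_card_filter_not (s := (univ : Finset (Fin n)))
      (fun v => f v = Maj q f)
    rw [Finset.card_univ, Fintype.card_fin] at this
    exact this
  have hwd : w + d ≤ n := by
    by_cases hM : Maj q f = q
    · have h1 : w = d := by
        rw [hw, hd, hM]
      have h2 := Maj_spec (q := q) hn hT
      rw [hM] at h2
      unfold IsMaj at h2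
      have h3 := Finset.card_filter_add_card_filter_not (s := (univ.erase q)) (fun i => f i = q)
      rw [Finset.card_erase_of_mem (mem_univ q), Finset.card_univ, Fintype.card_fin] at h3
      have h4 : w ≤ ((univ.erase q).filter (fun i => ¬ f i = q)).card + 1 := by
        have : (univ.filter (fun v => f v ≠ q)) ⊆
            insert q ((univ.erase q).filter (fun i => ¬ f i = q)) := by
          intro i hi
          rw [mem_filter] at hi
          rw [mem_insert, mem_filter, mem_erase]
          by_cases hiq : i = q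
          · left; exact hiq
          · right; exact ⟨⟨hiq, mem_univ _⟩, hi.2⟩
        exact (Finset.card_le_card this).trans (Finset.card_insert_le _ _)
      obtain ⟨t, ht⟩ := hn
      omega
    · have hM' : Maj q f = p := by
        obtain ⟨i, hi⟩ := Maj_mem (q := q) hn hT
        rcases hf i with h | h
        · rw [← hi, h]
        · exact absurd (hi.symm.trans h) hM
      have h1 : w = g := by
        rw [hw, hg, hM']
        congr 1
        ext i
        simp only [mem_filter, mem_univ, true_and]
        constructor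
        · intro h; exact (hf i).resolve_right h
        · intro h; rw [h]; exact hpq
      omega
  have h1 : n ^ w * (z + 2) ^ d ≤ (z + 2) ^ (g + K) * (z + 2) ^ d := by
    calc n ^ w * (z + 2) ^ d ≤ n ^ w * n ^ d := Nat.mul_le_mul_left _ (Nat.pow_le_pow_left hz d)
      _ = n ^ (w + d) := by rw [pow_add]
      _ ≤ n ^ n := Nat.pow_le_pow_right (by omega) hwd
      _ ≤ (z + 2) ^ (n + K) := hK
      _ = (z + 2) ^ (g + K) * (z + 2) ^ d := by
          rw [← pow_add]; congr 1; omega
  exact Nat.le_of_mul_le_mul_right h1 (by positivity)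

lemma code_exists (hn : Even n) (hpq : p ≠ q) (hz : z + 2 ≤ n) (hK : n ^ n ≤ (z + 2) ^ (n + K))
    (f : Fin n → Fin n) : ∃ C : (Fin n → Fin n) → (Fin n ⊕ Fin K → Fin (z + 2)),
      (∀ i, f i = p ∨ f i = q) → ∀ x x' : Fin n → Fin n,
        (∀ v, f v = Maj q f → C x (.inl v) = C x' (.inl v)) →
        (∀ j, C x (.inr j) = C x' (.inr j)) → ∀ v, f v ≠ q → x v = x' v := by
  by_cases hf : ∀ i, f i = p ∨ f i = q
  · have hc : Fintype.card ({v // f v ≠ q} → Fin n) ≤
        Fintype.card (({v // f v = Maj q f} ⊕ Fin K) → Fin (z + 2)) := by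
      rw [Fintype.card_fun, Fintype.card_fun, Fintype.card_sum, Fintype.card_fin, Fintype.card_fin,
        Fintype.card_fin, Fintype.card_subtype, Fintype.card_subtype]
      exact count_code hn hpq hz hK f hf
    obtain ⟨e⟩ := Function.Embedding.nonempty_of_card_le hc
    refine ⟨fun x t => match t with
      | .inl v => if h : f v = Maj q f then e (fun w => x w.1) (.inl ⟨v, h⟩) else 0
      | .inr j => e (fun w => x w.1) (.inr j), fun _ x x' h1 h2 v hv => ?_⟩
    have : (fun w : {v // f v ≠ q} => x w.1) = (fun w => x' w.1) := by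
      apply e.injective
      funext t
      rcases t with ⟨u, hu⟩ | j
      · have := h1 u hu
        simp only [dif_pos hu] at this
        exact this
      · exact h2 j
    exact congrFun this ⟨v, hv⟩
  · exact ⟨fun _ _ => 0, fun h => absurd h hf⟩

/-- The upper bound: a representation of the skew variant. -/
theorem upper (hn : Even n) (hpq : p ≠ q) (ζ κ L : ℕ) (h2 : 2 ≤ ζ) (hζ : ζ ≤ n)
    (hκ : n ^ n ≤ ζ ^ κ) (hL : 0 < L) (hL4 : n ≤ 4 ^ L) :
    ∃ φ : (Fin n → Fin n) → (Fin (ζ + κ + 2 + 6 * L) → Fin (ζ + κ + 2 + 6 * L)),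
      Function.Injective φ ∧ ∀ x y, φ (x ∘ av p q ∘ y) = φ x ∘ φ y := by
  have hn2 : 2 ≤ n := h2.trans hζ
  have hκn : n ≤ κ := by
    have : n ^ n ≤ n ^ κ := hκ.trans (Nat.pow_le_pow_left hζ κ)
    exact (Nat.pow_le_pow_iff_right (by omega)).mp this
  obtain ⟨z, rfl⟩ : ∃ z, ζ = z + 2 := ⟨ζ - 2, by omega⟩
  obtain ⟨K, rfl⟩ : ∃ K, κ = n + K := ⟨κ - n, by omega⟩
  obtain ⟨dg⟩ : Nonempty (Fin n ↪ (Fin L → Fin 4)) := by
    apply Function.Embedding.nonempty_of_card_le
    rw [Fintype.card_fun, Fintype.card_fin, Fintype.card_fin, Fintype.card_fin]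
    exact hL4
  choose C hC using fun f : Fin n → Fin n => code_exists (z := z) (K := K) hn hpq hζ hκ f
  obtain ⟨e⟩ := ptFin n z K L
  refine ⟨fun x => e ∘ act p q dg C x ∘ e.symm, ?_, ?_⟩
  · intro x x' h
    apply act_inj dg C hn hpq hL dg.injective hC
    funext t
    have := congrFun h (e t)
    simpa using this
  · intro x y
    funext t
    simp only [Function.comp_apply, Equiv.symm_apply_apply]
    rw [act_hom dg C hn hpq]

end Pool.Agent.V1148.VT
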