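import Mathlib
import Pool.Agent.V1148.VT3

namespace Pool.Agent.V1148.VT

open Finset

lemma pow_step (n M k : ℕ) (hn : 2 ≤ n) (h1 : n ≤ M ^ 2) (h2 : n ^ (n - 2) ≤ M ^ k) :
    n ^ n ≤ M ^ (k + 4) := by
  calc n ^ n = n ^ (n - 2) * n ^ 2 := by rw [← pow_add]; congr 1; omega
    _ ≤ M ^ k * (M ^ 2) ^ 2 := Nat.mul_le_mul h2 (Nat.pow_le_pow_left h1 2)
    _ = M ^ (k + 4) := by rw [← pow_mul, ← pow_add]

theorem arith (n h s c k m : ℕ) (hn : n = 2 ^ 64) (hh : h = 2 ^ 63) (hm : s + c + k = m)
    (h1 : n ^ (n - 2) ≤ (max s c) ^ k)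
    (h2 : 4 ^ k * (h ^ (n - 2)) ^ 2 ≤ (max (s ^ 2) (4 * c ^ 2)) ^ k) (h3 : h ^ 6 ≤ 3 ^ s) :
    ∃ ζ κ : ℕ, 2 ≤ ζ ∧ ζ ≤ n ∧ n ^ n ≤ ζ ^ κ ∧ ζ + κ + 194 < m := by
  have hn' : n = 18446744073709551616 := by rw [hn]; norm_num
  have hpow : ∀ t : ℕ, n ^ t = 2 ^ (64 * t) := fun t => by rw [hn, ← pow_mul]
  have hhpow : ∀ t : ℕ, h ^ t = 2 ^ (63 * t) := fun t => by rw [hh, ← pow_mul]
  have le_of : ∀ a b : ℕ, 2 ^ a ≤ 2 ^ b → a ≤ b := fun a b hab =>
    (Nat.pow_le_pow_iff_right (by norm_num)).mp hab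
  by_cases hA : 6 * n ≤ 5 * m
  · refine ⟨2 ^ 60, n + n / 15 + 1, by norm_num, ?_, ?_, ?_⟩
    · rw [hn']; norm_num
    · rw [hpow, ← pow_mul]
      exact Nat.pow_le_pow_right (by norm_num) (by omega)
    · have : (2 : ℕ) ^ 60 = 1152921504606846976 := by norm_num
      rw [this]
      omega
  · have hM : max s c ≤ 2 ^ 65 := by
      have : (2 : ℕ) ^ 65 = 36893488147419103232 := by norm_num
      rw [this]
      have := max_le_iff.mpr ⟨(by omega : s ≤ m), (by omega : c ≤ m)⟩
      omega
    have hk : 64 * (n - 2) ≤ 65 * k := by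
      apply le_of
      calc 2 ^ (64 * (n - 2)) = n ^ (n - 2) := (hpow _).symm
        _ ≤ (max s c) ^ k := h1
        _ ≤ (2 ^ 65) ^ k := Nat.pow_le_pow_left hM k
        _ = 2 ^ (65 * k) := by rw [← pow_mul]
    have hsc : s + c ≤ 9223372036854775808 := by omega
    have hsq : n ≤ (max s c) ^ 2 := by
      by_contra hlt
      push Not at hlt
      have : 2 * (n - 2) ≤ k := by
        have h4 : n ^ (2 * (n - 2)) ≤ n ^ k := by
          calc n ^ (2 * (n - 2)) = (n ^ (n - 2)) ^ 2 := by rw [← pow_mul]; congr 1; omega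
            _ ≤ ((max s c) ^ k) ^ 2 := Nat.pow_le_pow_left h1 2
            _ = ((max s c) ^ 2) ^ k := by rw [← pow_mul, ← pow_mul, mul_comm]
            _ ≤ n ^ k := Nat.pow_le_pow_left hlt.le k
        exact (Nat.pow_le_pow_iff_right (by omega)).mp h4
      omega
    have hs3 : 198 < s := by
      by_contra hlt
      push Not at hlt
      have h4 : (2 : ℕ) ^ (63 * 6) ≤ 2 ^ (8 * 40) := by
        calc (2 : ℕ) ^ (63 * 6) = h ^ 6 := by rw [hhpow]
          _ ≤ 3 ^ s := h3
          _ ≤ 3 ^ (5 * 40) := Nat.pow_le_pow_right (by norm_num) (by omega)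
          _ = (3 ^ 5) ^ 40 := by rw [pow_mul]
          _ ≤ (2 ^ 8) ^ 40 := Nat.pow_le_pow_left (by norm_num) 40
          _ = 2 ^ (8 * 40) := by rw [← pow_mul]
      have := le_of _ _ h4
      omega
    have hstep := pow_step n (max s c) k (by omega) hsq h1
    have hM2 : 2 ≤ max s c := by
      by_contra hlt
      push Not at hlt
      have : (max s c) ^ 2 ≤ 1 := by
        interval_cases (max s c) <;> norm_num
      omega
    rcases le_total s c with hsc' | hsc'
    · rw [max_eq_right hsc'] at hstep hM2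
      exact ⟨c, k + 4, hM2, by omega, hstep, by omega⟩
    · rw [max_eq_left hsc'] at hstep hM2 h1
      by_cases hc : 198 < c
      · exact ⟨s, k + 4, hM2, by omega, hstep, by omega⟩
      · by_cases hcs : 4 * c ^ 2 ≤ s ^ 2
        · rw [max_eq_left hcs] at h2
          have h5 : 2 ^ k * h ^ (n - 2) ≤ s ^ k := by
            have h6 : (2 ^ k * h ^ (n - 2)) ^ 2 ≤ (s ^ k) ^ 2 := by
              calc (2 ^ k * h ^ (n - 2)) ^ 2 = 4 ^ k * (h ^ (n - 2)) ^ 2 := by
                    rw [mul_pow, ← pow_mul, mul_comm k 2, pow_mul]; norm_num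
                _ ≤ (s ^ 2) ^ k := h2
                _ = (s ^ k) ^ 2 := by rw [← pow_mul, ← pow_mul, mul_comm]
            exact (Nat.pow_le_pow_iff_left (by norm_num)).mp h6
          rw [hhpow, ← pow_add] at h5
          have hs63 : s ≤ 2 ^ 63 := by
            have : (2 : ℕ) ^ 63 = 9223372036854775808 := by norm_num
            rw [this]; omega
          have h6 : k + 63 * (n - 2) ≤ 63 * k := by
            apply le_of
            calc 2 ^ (k + 63 * (n - 2)) ≤ s ^ k := h5
              _ ≤ (2 ^ 63) ^ k := Nat.pow_le_pow_left hs63 k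
              _ = 2 ^ (63 * k) := by rw [← pow_mul]
          refine ⟨s, k - 195, hM2, by omega, ?_, by omega⟩
          have h7 : n ^ n * s ^ 195 ≤ s ^ (k - 195) * s ^ 195 := by
            calc n ^ n * s ^ 195 ≤ 2 ^ (64 * n) * (2 ^ 63) ^ 195 := by
                  rw [hpow]
                  exact Nat.mul_le_mul_left _ (Nat.pow_le_pow_left hs63 195)
              _ = 2 ^ (64 * n + 63 * 195) := by rw [← pow_mul, ← pow_add]
              _ ≤ 2 ^ (k + 63 * (n - 2)) := Nat.pow_le_pow_right (by norm_num) (by omega)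
              _ ≤ s ^ k := h5
              _ = s ^ (k - 195) * s ^ 195 := by rw [← pow_add]; congr 1; omega
          exact Nat.le_of_mul_le_mul_right h7 (by positivity)
        · exfalso
          have hs2 : s < 512 := by
            by_contra hlt
            push Not at hlt
            apply hcs
            have hc2 : c ≤ 198 := by omega
            calc 4 * c ^ 2 ≤ 4 * 198 ^ 2 := Nat.mul_le_mul_left _ (Nat.pow_le_pow_left hc2 2)
              _ ≤ 512 ^ 2 := by norm_num
              _ ≤ s ^ 2 := Nat.pow_le_pow_left hlt 2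
          have h8 : 64 * (n - 2) ≤ 9 * k := by
            apply le_of
            calc 2 ^ (64 * (n - 2)) = n ^ (n - 2) := (hpow _).symm
              _ ≤ s ^ k := h1
              _ ≤ (2 ^ 9) ^ k := Nat.pow_le_pow_left (by omega) k
              _ = 2 ^ (9 * k) := by rw [← pow_mul]
          omega

/-- A standard embedding of every variant. -/
lemma embeds {n : ℕ} (b : Fin n → Fin n) :
    ∃ φ : (Fin n → Fin n) → (Fin (n + n) → Fin (n + n)),
      Function.Injective φ ∧ ∀ x y, φ (x ∘ b ∘ y) = φ x ∘ φ y := by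
  let ψ : (Fin n → Fin n) → (Fin n ⊕ Fin n → Fin n ⊕ Fin n) := fun x t =>
    match t with
    | .inl i => .inl (x (b i))
    | .inr i => .inl (x i)
  refine ⟨fun x => finSumFinEquiv ∘ ψ x ∘ finSumFinEquiv.symm, ?_, ?_⟩
  · intro x x' h
    funext i
    have := congrFun h (finSumFinEquiv (.inr i))
    simp only [Function.comp_apply, Equiv.symm_apply_apply, EmbeddingLike.apply_eq_iff_eq, ψ,
      Sum.inl.injEq] at this
    exact this
  · intro x y
    funext t
    simp only [Function.comp_apply, Equiv.symm_apply_apply]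
    rcases finSumFinEquiv.symm t with i | i <;> rfl

lemma card_lt_half (h : ℕ) :
    (univ.filter (fun i : Fin (h + h) => i.val < h)).card = h := by
  have : (univ.filter (fun i : Fin (h + h) => i.val < h)) =
      (univ : Finset (Fin h)).map (Fin.castAddEmb h) := by
    ext i
    simp only [mem_filter, mem_univ, true_and, mem_map, Fin.castAddEmb_apply]
    constructor
    · intro hi
      exact ⟨⟨i.val, hi⟩, by ext; rfl⟩
    · rintro ⟨j, rfl⟩
      exact j.isLt
  rw [this, Finset.card_map, Finset.card_univ, Fintype.card_fin]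

end Pool.Agent.V1148.VT
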