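import Mathlib
import Pool.Agent.V1148.Homog

set_option autoImplicit false

/-!
# Saito's lemma and determinants of logarithmic derivations
-/

namespace Pool.Agent.V1148

open MvPolynomial

variable {K : Type*} [Field K] {l n m : ℕ}

/-- The defining polynomial of an arrangement. -/
noncomputable def defPoly (A : Fin n → Fin l → K) : MvPolynomial (Fin l) K := ∏ i, lin (A i)

/-- The matrix `(θ_i(x_j))` of coefficients of a family of derivations. -/
noncomputable def coefMatrix
    (θ : Fin m → Derivation K (MvPolynomial (Fin l) K) (MvPolynomial (Fin l) K)) :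
    Matrix (Fin m) (Fin l) (MvPolynomial (Fin l) K) :=
  Matrix.of fun i j => θ i (X j)

theorem der_lin' (θ : Derivation K (MvPolynomial (Fin l) K) (MvPolynomial (Fin l) K))
    (a : Fin l → K) : θ (lin a) = ∑ j, C (a j) * θ (X j) := by
  unfold lin
  rw [map_sum]
  apply Finset.sum_congr rfl
  intro j _
  rw [← MvPolynomial.smul_eq_C_mul, ← MvPolynomial.smul_eq_C_mul, Derivation.map_smul]

theorem arr_isRelPrime {A : Fin n → Fin l → K} (hA : IsArrangement A) {i j : Fin n} (hij : i ≠ j) :
    IsRelPrime (lin (A i)) (lin (A j)) := by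
  apply lin_isRelPrime (hA.1 i) (hA.1 j)
  intro c hc
  apply hij
  apply hA.2
  have hc0 : c ≠ 0 := by
    rintro rfl
    rw [zero_smul] at hc
    exact hA.1 j hc
  ext x
  simp only [mem_hyper, hc, Pi.smul_apply, smul_eq_mul, mul_assoc, ← Finset.mul_sum,
    mul_eq_zero, hc0, false_or]

theorem prod_lin_dvd {A : Fin n → Fin l → K} (hA : IsArrangement A) {F : MvPolynomial (Fin l) K}
    (h : ∀ i, lin (A i) ∣ F) : defPoly A ∣ F := by
  unfold defPoly
  apply Finset.prod_dvd_of_isRelPrime
  · intro i _ j _ hij
    exact arr_isRelPrime hA hij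
  · intro i _
    exact h i

theorem defPoly_ne_zero {A : Fin n → Fin l → K} (hA : IsArrangement A) : defPoly A ≠ 0 := by
  unfold defPoly
  rw [Finset.prod_ne_zero_iff]
  intro i _ h
  exact hA.1 i ((lin_eq_zero_iff _).1 h)

theorem defPoly_isHomogeneous (A : Fin n → Fin l → K) : (defPoly A).IsHomogeneous n := by
  have := IsHomogeneous.prod (Finset.univ : Finset (Fin n)) (fun i => lin (A i)) (fun _ => 1)
    fun i _ => lin_isHomogeneous (A i)
  simpa [defPoly] using this

/-- A determinant whose rows `θ_i` all satisfy `α ∣ θ_i(α)` is divisible by `α`. -/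
theorem lin_dvd_det {a : Fin l → K} (ha : a ≠ 0) (M : Matrix (Fin l) (Fin l) (MvPolynomial (Fin l) K))
    (hM : ∀ i, lin a ∣ ∑ j, C (a j) * M i j) : lin a ∣ M.det := by
  obtain ⟨j, hj⟩ := Function.ne_iff.1 ha
  have hj' : a j ≠ 0 := hj
  have h1 := Matrix.det_updateCol_sum M j (fun i => (C (a i) : MvPolynomial (Fin l) K))
  have h2 : lin a ∣ (M.updateCol j fun k => ∑ i, (C (a i) : MvPolynomial (Fin l) K) • M k i).det := by
    rw [Matrix.det_apply]
    apply Finset.dvd_sum
    intro σ _
    apply dvd_smul_of_dvd
    apply dvd_trans _ (Finset.dvd_prod_of_mem _ (Finset.mem_univ j))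
    rw [Matrix.updateCol_self]
    exact hM (σ j)
  rw [h1, smul_eq_mul] at h2
  have h3 : M.det = C (a j)⁻¹ * (C (a j) * M.det) := by
    rw [← mul_assoc, ← C_mul, inv_mul_cancel₀ hj', C_1, one_mul]
  rw [h3]
  exact dvd_mul_of_dvd_right h2 _

theorem defPoly_dvd_det {A : Fin n → Fin l → K} (hA : IsArrangement A)
    {θ : Fin l → Derivation K (MvPolynomial (Fin l) K) (MvPolynomial (Fin l) K)}
    (hθ : ∀ i, θ i ∈ logDer A) : defPoly A ∣ (coefMatrix θ).det := by
  apply prod_lin_dvd hA
  intro i
  apply lin_dvd_det (hA.1 i)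
  intro k
  have := hθ k i
  rw [der_lin'] at this
  exact this

/-- A determinant with homogeneous rows is homogeneous. -/
theorem det_isHomogeneous {M : Matrix (Fin m) (Fin m) (MvPolynomial (Fin l) K)} {d : Fin m → ℕ}
    (h : ∀ i j, (M i j).IsHomogeneous (d i)) : M.det.IsHomogeneous (∑ i, d i) := by
  rw [Matrix.det_apply']
  apply IsHomogeneous.sum
  intro σ _
  have h1 : (∏ i, M (σ i) i).IsHomogeneous (∑ i, d i) := by
    have := IsHomogeneous.prod (Finset.univ : Finset (Fin m)) (fun i => M (σ i) i)
      (fun i => d (σ i)) fun i _ => h (σ i) i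
    rwa [Equiv.sum_comp σ d] at this
  have h2 : (((Equiv.Perm.sign σ : ℤˣ) : ℤ) : MvPolynomial (Fin l) K) =
      C (((Equiv.Perm.sign σ : ℤˣ) : ℤ) : K) := by simp
  rw [h2]
  exact h1.C_mul _

/-- The three term Plücker type relation. -/
theorem det_update_update {R : Type*} [CommRing R] (M : Matrix (Fin l) (Fin l) R)
    (u v : Fin l → R) (D : R) (b : Fin l → R) (hv : D • v = ∑ k, b k • M k) {i j : Fin l}
    (hij : i ≠ j) :
    D * ((M.updateRow i u).updateRow j v).det =
      b j * (M.updateRow i u).det - b i * (M.updateRow j u).det := by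
  let L : (Fin l → R) →ₗ[R] R :=
    (Matrix.detRowAlternating (n := Fin l) (R := R)).toMultilinearMap.toLinearMap
      (M.updateRow i u) j
  have hL : ∀ w, L w = ((M.updateRow i u).updateRow j w).det := fun w => rfl
  have h1 : D * ((M.updateRow i u).updateRow j v).det = ∑ k, b k * L (M k) := by
    rw [← hL, ← smul_eq_mul, ← map_smul, hv, map_sum]
    apply Finset.sum_congr rfl
    intro k _
    rw [map_smul, smul_eq_mul]
  rw [h1, Finset.sum_eq_add i j hij]
  · rw [hL, hL]
    have e1 : (M.updateRow i u).updateRow j (M j) = M.updateRow i u := by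
      have : M j = (M.updateRow i u) j := by
        rw [Matrix.updateRow_ne hij.symm]
      conv_lhs => rw [this]
      exact Matrix.updateRow_eq_self _ _
    have e2 : ((M.updateRow i u).updateRow j (M i)).det = -(M.updateRow j u).det := by
      have h2 : (M.updateRow i u).updateRow j (M i) =
          (M.updateRow j u).submatrix (Equiv.swap i j) id := by
        ext k k'
        simp only [Matrix.submatrix_apply, id]
        by_cases hkj : k = j
        · subst hkj
          rw [Matrix.updateRow_self, Equiv.swap_apply_right, Matrix.updateRow_ne hij]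
        · by_cases hki : k = i
          · subst hki
            rw [Matrix.updateRow_ne hkj, Matrix.updateRow_self, Equiv.swap_apply_left,
              Matrix.updateRow_self]
          · rw [Matrix.updateRow_ne hkj, Matrix.updateRow_ne hki,
              Equiv.swap_apply_of_ne_of_ne hki hkj, Matrix.updateRow_ne hkj]
      rw [h2, Matrix.det_permute, Equiv.Perm.sign_swap hij]
      simp
    rw [e1, e2]
    ring
  · intro k _ hk
    have : L (M k) = 0 := by
      rw [hL]
      apply Matrix.det_zero_of_row_eq hk.2
      rw [Matrix.updateRow_self, Matrix.updateRow_ne hk.2, Matrix.updateRow_ne hk.1]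
    rw [this, mul_zero]
  · intro h
    exact absurd (Finset.mem_univ i) h
  · intro h
    exact absurd (Finset.mem_univ j) h

/-- If `D` divides the homogeneous polynomial `F` then so does the top component of `D`. -/
theorem top_dvd {D F : MvPolynomial (Fin l) K} {k : ℕ} (hF : F.IsHomogeneous k) (h : D ∣ F) :
    homogeneousComponent D.totalDegree D ∣ F := by
  by_cases hF0 : F = 0
  · rw [hF0]
    exact dvd_zero _
  obtain ⟨s, rfl⟩ := h
  have hD0 : D ≠ 0 := left_ne_zero_of_mul hF0
  have hs0 : s ≠ 0 := right_ne_zero_of_mul hF0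
  refine ⟨homogeneousComponent s.totalDegree s, ?_⟩
  have hdeg : k = D.totalDegree + s.totalDegree := by
    rw [← hF.totalDegree hF0, totalDegree_mul_of_isDomain hD0 hs0]
  have h1 : D * s = homogeneousComponent k (D * s) := (homogeneousComponent_eq_self hF).symm
  rw [h1]
  conv_lhs => rw [← sum_homogeneousComponent D, Finset.sum_mul, map_sum]
  rw [Finset.sum_eq_single_of_mem D.totalDegree (by simp)]
  · rw [mul_comm, homogeneousComponent_mul_right (homogeneousComponent_isHomogeneous _ _),
      if_pos (by omega), mul_comm]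
    have hk : k - D.totalDegree = s.totalDegree := by omega
    rw [hk]
  · intro a ha hne
    rw [mul_comm, homogeneousComponent_mul_right (homogeneousComponent_isHomogeneous _ _)]
    have ha' : a < D.totalDegree := by
      simp only [Finset.mem_range] at ha
      omega
    rw [if_pos (by omega), homogeneousComponent_eq_zero _ _ (by omega), zero_mul]

/-- If `a` divides all `b_j * c` and the `b_j` have no common nonunit divisor then `a` divides
`c`. -/
theorem dvd_of_forall_dvd_mul {R : Type*} [CommRing R] [IsDomain R] [UniqueFactorizationMonoid R]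
    {ι : Type*} (b : ι → R) (hb : ∀ p, Prime p → ∃ j, ¬ p ∣ b j) (a : R) (ha : a ≠ 0) :
    ∀ c, (∀ j, a ∣ b j * c) → a ∣ c := by
  induction a using UniqueFactorizationMonoid.induction_on_prime with
  | h₁ => exact absurd rfl ha
  | h₂ x hx => intro c _; exact hx.dvd
  | h₃ x p hx hp ih =>
    intro c hc
    obtain ⟨j, hj⟩ := hb p hp
    have h1 : p ∣ b j * c := (dvd_mul_right p x).trans (hc j)
    obtain ⟨c', rfl⟩ := (hp.dvd_or_dvd h1).resolve_left hj
    apply mul_dvd_mul_left
    apply ih hx
    intro j
    have h2 := hc j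
    rw [mul_left_comm] at h2
    exact (mul_dvd_mul_iff_left hp.ne_zero).1 h2

end Pool.Agent.V1148
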