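import Mathlib
import Pool.Agent.V1148.M52Common
import Pool.Agent.V1148.Saito

set_option autoImplicit false

/-!
# The arrangement `x y (y-2x) (z-x) (z+x) (z-y) (z+y)`
-/

namespace Pool.Agent.V1148.M7

open MvPolynomial Pool.Agent.V1148 Pool.Agent.V1148.M52

variable {K : Type*} [Field K]

/-- Integer coefficient vectors. -/
def Z : Fin 7 → Fin 3 → ℤ :=
  ![![1, 0, 0], ![0, 1, 0], ![-2, 1, 0], ![-1, 0, 1], ![1, 0, 1], ![0, -1, 1], ![0, 1, 1]]

/-- The arrangement of the seven lines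
`x, y, y - 2x, z - x, z + x, z - y, z + y`. -/
def B : Fin 7 → Fin 3 → K := fun i j => (Z i j : K)

theorem lin_B (i : Fin 7) : lin (B i : Fin 3 → K) = lz (Z i) := by
  simp [lin, lz, B, Fin.sum_univ_three]

theorem Z_cross : ∀ i j, i ≠ j → cross3 (Z i) (Z j) ≠ 0 := by decide +kernel

theorem B_cross [CharZero K] (i j : Fin 7) (hij : i ≠ j) :
    cross3 (B i : Fin 3 → K) (B j) ≠ 0 := by
  intro hc
  apply Z_cross i j hij
  have key : ∀ k, cross3 (B i : Fin 3 → K) (B j) k = ((cross3 (Z i) (Z j) k : ℤ) : K) := by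
    intro k
    fin_cases k <;> simp [cross3, B]
  funext k
  have := key k
  rw [hc] at this
  simp only [Pi.zero_apply] at this
  exact_mod_cast this.symm

theorem B_arr [CharZero K] : IsArrangement (B : Fin 7 → Fin 3 → K) := by
  apply isArrangement_of_cross _ B_cross
  intro i
  have : ∃ j : Fin 7, i ≠ j := ⟨i + 1, by fin_cases i <;> decide⟩
  obtain ⟨j, hj⟩ := this
  exact ne_zero_of_cross (B_cross i j hj)

theorem prod_dvd_of_arr {n l : ℕ} {A : Fin n → Fin l → K} (hA : IsArrangement A)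
    (s : Finset (Fin n)) {F : MvPolynomial (Fin l) K} (h : ∀ i ∈ s, lin (A i) ∣ F) :
    ∏ i ∈ s, lin (A i) ∣ F := by
  apply Finset.prod_dvd_of_isRelPrime
  · intro i _ j _ hij
    exact arr_isRelPrime hA hij
  · exact h

theorem mem_iff (θ : Derivation K (MvPolynomial (Fin 3) K) (MvPolynomial (Fin 3) K)) :
    θ ∈ logDer B ↔ X 0 ∣ θ (X 0) ∧ X 1 ∣ θ (X 1) ∧ X 1 - 2 * X 0 ∣ θ (X 1) - 2 * θ (X 0) ∧
      X 2 - X 0 ∣ θ (X 2) - θ (X 0) ∧ X 2 + X 0 ∣ θ (X 2) + θ (X 0) ∧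
      X 2 - X 1 ∣ θ (X 2) - θ (X 1) ∧ X 2 + X 1 ∣ θ (X 2) + θ (X 1) := by
  change (∀ i, lin (B i : Fin 3 → K) ∣ θ (lin (B i : Fin 3 → K))) ↔ _
  rw [Fin.forall_fin_succ, Fin.forall_fin_succ, Fin.forall_fin_succ, Fin.forall_fin_succ,
    Fin.forall_fin_succ, Fin.forall_fin_succ, Fin.forall_fin_one]
  have e : ∀ i, lin (B i : Fin 3 → K) ∣ θ (lin (B i : Fin 3 → K)) ↔ lz (Z i) ∣
      (Z i 0 : MvPolynomial (Fin 3) K) * θ (X 0) + (Z i 1 : MvPolynomial (Fin 3) K) * θ (X 1) +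
      (Z i 2 : MvPolynomial (Fin 3) K) * θ (X 2) := by
    intro i
    rw [der_lin, Fin.sum_univ_three, lin_B]
    simp [B]
  simp only [e]
  have c0 : (lz (Z 0) : MvPolynomial (Fin 3) K) = X 0 := by simp [lz, Z]
  have c1 : (lz (Z 1) : MvPolynomial (Fin 3) K) = X 1 := by simp [lz, Z]
  have c2 : (lz (Z 2) : MvPolynomial (Fin 3) K) = X 1 - 2 * X 0 := by simp [lz, Z]; ring
  have c3 : (lz (Z 3) : MvPolynomial (Fin 3) K) = X 2 - X 0 := by simp [lz, Z]; ring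
  have c4 : (lz (Z 4) : MvPolynomial (Fin 3) K) = X 2 + X 0 := by simp [lz, Z]; ring
  have c5 : (lz (Z 5) : MvPolynomial (Fin 3) K) = X 2 - X 1 := by simp [lz, Z]; ring
  have c6 : (lz (Z 6) : MvPolynomial (Fin 3) K) = X 2 + X 1 := by simp [lz, Z]; ring
  have d0 : (Z 0 0 : MvPolynomial (Fin 3) K) * θ (X 0) + (Z 0 1 : MvPolynomial (Fin 3) K) *
    θ (X 1) + (Z 0 2 : MvPolynomial (Fin 3) K) * θ (X 2) = θ (X 0) := by simp [Z]
  have d1 : (Z 1 0 : MvPolynomial (Fin 3) K) * θ (X 0) + (Z 1 1 : MvPolynomial (Fin 3) K) *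
    θ (X 1) + (Z 1 2 : MvPolynomial (Fin 3) K) * θ (X 2) = θ (X 1) := by simp [Z]
  have d2 : (Z 2 0 : MvPolynomial (Fin 3) K) * θ (X 0) + (Z 2 1 : MvPolynomial (Fin 3) K) *
    θ (X 1) + (Z 2 2 : MvPolynomial (Fin 3) K) * θ (X 2) = θ (X 1) - 2 * θ (X 0) := by
    simp [Z]; ring
  have d3 : (Z 3 0 : MvPolynomial (Fin 3) K) * θ (X 0) + (Z 3 1 : MvPolynomial (Fin 3) K) *
    θ (X 1) + (Z 3 2 : MvPolynomial (Fin 3) K) * θ (X 2) = θ (X 2) - θ (X 0) := by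
    simp [Z]; ring
  have d4 : (Z 4 0 : MvPolynomial (Fin 3) K) * θ (X 0) + (Z 4 1 : MvPolynomial (Fin 3) K) *
    θ (X 1) + (Z 4 2 : MvPolynomial (Fin 3) K) * θ (X 2) = θ (X 2) + θ (X 0) := by
    simp [Z]; ring
  have d5 : (Z 5 0 : MvPolynomial (Fin 3) K) * θ (X 0) + (Z 5 1 : MvPolynomial (Fin 3) K) *
    θ (X 1) + (Z 5 2 : MvPolynomial (Fin 3) K) * θ (X 2) = θ (X 2) - θ (X 1) := by
    simp [Z]; ring
  have d6 : (Z 6 0 : MvPolynomial (Fin 3) K) * θ (X 0) + (Z 6 1 : MvPolynomial (Fin 3) K) *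
    θ (X 1) + (Z 6 2 : MvPolynomial (Fin 3) K) * θ (X 2) = θ (X 2) + θ (X 1) := by
    simp [Z]; ring
  have f1 : (Fin.succ 0 : Fin 7) = 1 := rfl
  have f2 : (Fin.succ (Fin.succ 0) : Fin 7) = 2 := rfl
  have f3 : (Fin.succ (Fin.succ (Fin.succ 0)) : Fin 7) = 3 := rfl
  have f4 : (Fin.succ (Fin.succ (Fin.succ (Fin.succ 0))) : Fin 7) = 4 := rfl
  have f5 : (Fin.succ (Fin.succ (Fin.succ (Fin.succ (Fin.succ 0)))) : Fin 7) = 5 := rfl
  have f6 : (Fin.succ (Fin.succ (Fin.succ (Fin.succ (Fin.succ (Fin.succ 0))))) : Fin 7) = 6 := rfl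
  rw [f6, f5, f4, f3, f2, f1, c0, c1, c2, c3, c4, c5, c6, d0, d1, d2, d3, d4, d5, d6]

theorem lin_c [CharZero K] (i : Fin 7) : lin (B i : Fin 3 → K) = ![X 0, X 1, X 1 - 2 * X 0,
    X 2 - X 0, X 2 + X 0, X 2 - X 1, X 2 + X 1] i := by
  rw [lin_B]
  fin_cases i <;> simp [lz, Z] <;> ring

/-- `E` is the Euler derivation. -/
noncomputable def T0 : Derivation K (MvPolynomial (Fin 3) K) (MvPolynomial (Fin 3) K) :=
  mk (X 0) (X 1) (X 2)

/-- The first generator of degree four. -/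
noncomputable def T1 : Derivation K (MvPolynomial (Fin 3) K) (MvPolynomial (Fin 3) K) :=
  mk 0 (X 1 * (X 1 - 2 * X 0) * (X 2 ^ 2 - X 1 ^ 2)) 0

/-- The second generator of degree four. -/
noncomputable def T2 : Derivation K (MvPolynomial (Fin 3) K) (MvPolynomial (Fin 3) K) :=
  mk 0 (-(X 1 * (X 1 - 2 * X 0) * (X 2 ^ 2 - X 0 ^ 2)))
    (-(X 2 * (X 1 - 2 * X 0) * (X 2 ^ 2 - X 0 ^ 2)))

/-- The third generator of degree four. -/
noncomputable def T3 : Derivation K (MvPolynomial (Fin 3) K) (MvPolynomial (Fin 3) K) :=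
  mk 0 0 ((X 2 ^ 2 - X 0 ^ 2) * (X 2 ^ 2 - X 1 ^ 2))

theorem T0_mem : T0 ∈ logDer (B : Fin 7 → Fin 3 → K) := by
  rw [mem_iff]
  simp [T0]

theorem T1_mem : T1 ∈ logDer (B : Fin 7 → Fin 3 → K) := by
  rw [mem_iff]
  simp only [T1, mk_X0, mk_X1, mk_X2]
  refine ⟨dvd_zero _, ⟨(X 1 - 2 * X 0) * (X 2 ^ 2 - X 1 ^ 2), by ring⟩,
    ⟨X 1 * (X 2 ^ 2 - X 1 ^ 2), by ring⟩, by simp, by simp,
    ⟨-(X 1 * (X 1 - 2 * X 0) * (X 2 + X 1)), by ring⟩,
    ⟨X 1 * (X 1 - 2 * X 0) * (X 2 - X 1), by ring⟩⟩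

theorem T2_mem : T2 ∈ logDer (B : Fin 7 → Fin 3 → K) := by
  rw [mem_iff]
  simp only [T2, mk_X0, mk_X1, mk_X2]
  refine ⟨dvd_zero _, ⟨-((X 1 - 2 * X 0) * (X 2 ^ 2 - X 0 ^ 2)), by ring⟩,
    ⟨-(X 1 * (X 2 ^ 2 - X 0 ^ 2)), by ring⟩,
    ⟨-(X 2 * (X 1 - 2 * X 0) * (X 2 + X 0)), by ring⟩,
    ⟨-(X 2 * (X 1 - 2 * X 0) * (X 2 - X 0)), by ring⟩,
    ⟨-((X 1 - 2 * X 0) * (X 2 ^ 2 - X 0 ^ 2)), by ring⟩,
    ⟨-((X 1 - 2 * X 0) * (X 2 ^ 2 - X 0 ^ 2)), by ring⟩⟩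

theorem T3_mem : T3 ∈ logDer (B : Fin 7 → Fin 3 → K) := by
  rw [mem_iff]
  simp only [T3, mk_X0, mk_X1, mk_X2]
  refine ⟨dvd_zero _, dvd_zero _, by simp,
    ⟨(X 2 + X 0) * (X 2 ^ 2 - X 1 ^ 2), by ring⟩,
    ⟨(X 2 - X 0) * (X 2 ^ 2 - X 1 ^ 2), by ring⟩,
    ⟨(X 2 ^ 2 - X 0 ^ 2) * (X 2 + X 1), by ring⟩,
    ⟨(X 2 ^ 2 - X 0 ^ 2) * (X 2 - X 1), by ring⟩⟩

/-- Restriction to `x = y`. -/
noncomputable def rp : MvPolynomial (Fin 3) K →ₐ[K] MvPolynomial (Fin 3) K :=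
  res ![1, -1, 0] 0

/-- Restriction to `x = -y`. -/
noncomputable def rm : MvPolynomial (Fin 3) K →ₐ[K] MvPolynomial (Fin 3) K :=
  res ![1, 1, 0] 0

@[simp] theorem rp_X0 : rp (X 0 : MvPolynomial (Fin 3) K) = X 1 := by
  simp [rp, res_X_self, lin, Fin.sum_univ_three]

@[simp] theorem rp_X1 : rp (X 1 : MvPolynomial (Fin 3) K) = X 1 := by
  rw [rp, res_X_of_ne _ (by decide)]

@[simp] theorem rp_X2 : rp (X 2 : MvPolynomial (Fin 3) K) = X 2 := by
  rw [rp, res_X_of_ne _ (by decide)]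

@[simp] theorem rm_X0 : rm (X 0 : MvPolynomial (Fin 3) K) = -X 1 := by
  simp [rm, res_X_self, lin, Fin.sum_univ_three]

@[simp] theorem rm_X1 : rm (X 1 : MvPolynomial (Fin 3) K) = X 1 := by
  rw [rm, res_X_of_ne _ (by decide)]

@[simp] theorem rm_X2 : rm (X 2 : MvPolynomial (Fin 3) K) = X 2 := by
  rw [rm, res_X_of_ne _ (by decide)]

theorem rp_dvd (F : MvPolynomial (Fin 3) K) : X 0 - X 1 ∣ F - rp F := by
  have := dvd_sub_res (![1, -1, 0] : Fin 3 → K) 0 F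
  simpa [rp, lin, Fin.sum_univ_three, ← sub_eq_add_neg] using this

theorem rm_dvd (F : MvPolynomial (Fin 3) K) : X 0 + X 1 ∣ F - rm F := by
  have := dvd_sub_res (![1, 1, 0] : Fin 3 → K) 0 F
  simpa [rm, lin, Fin.sum_univ_three] using this

/-- If `z² - y²` divides `c y^i z^j F` then it divides `F`. -/
theorem diff_dvd [CharZero K] {F G : MvPolynomial (Fin 3) K}
    (h : (X 2 - X 1) * (X 2 + X 1) ∣ G * F)
    (h1 : ¬ (X 2 - X 1 : MvPolynomial (Fin 3) K) ∣ G)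
    (h2 : ¬ (X 2 + X 1 : MvPolynomial (Fin 3) K) ∣ G) : (X 2 - X 1) * (X 2 + X 1) ∣ F := by
  have p5 := lin_prime ((B_arr (K := K)).1 5)
  have p6 := lin_prime ((B_arr (K := K)).1 6)
  rw [lin_c] at p5 p6
  simp only [Matrix.cons_val] at p5 p6
  have e1 := (p5.dvd_or_dvd ((dvd_mul_right _ _).trans h)).resolve_left h1
  have e2 := (p6.dvd_or_dvd ((dvd_mul_left _ _).trans h)).resolve_left h2
  have h5 := prod_dvd_of_arr (B_arr (K := K)) {5, 6} (F := F) (by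
    intro i hi
    simp only [Finset.mem_insert, Finset.mem_singleton] at hi
    rcases hi with rfl | rfl
    · rw [lin_c]
      simpa using e1
    · rw [lin_c]
      simpa using e2)
  rw [Finset.prod_insert (by decide), Finset.prod_singleton, lin_c, lin_c] at h5
  simpa using h5

theorem not_dvd_of_eval {F G : MvPolynomial (Fin 3) K} (a : Fin 3 → K)
    (h1 : aeval a F = 0) (h2 : aeval a G ≠ 0) : ¬ F ∣ G := by
  rintro ⟨q, rfl⟩
  apply h2
  rw [map_mul, h1, zero_mul]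

theorem span_T [CharZero K] {θ : Derivation K (MvPolynomial (Fin 3) K) (MvPolynomial (Fin 3) K)}
    (h : θ ∈ logDer B) : ∃ a0 a1 a2 a3 : MvPolynomial (Fin 3) K,
      θ = a0 • T0 + a1 • T1 + a2 • T2 + a3 • T3 := by
  obtain ⟨e, he⟩ := ((mem_iff θ).1 h).1
  set η := θ - e • T0 with hη
  have hηD : η ∈ logDer B := Submodule.sub_mem _ h (Submodule.smul_mem _ _ T0_mem)
  have η0 : η (X 0) = 0 := by
    have e0 : η (X 0) = θ (X 0) - e * T0 (X 0) := rfl
    rw [e0, he]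
    simp [T0]
    ring
  obtain ⟨-, h1, h2, h3, h4, h5, h6⟩ := (mem_iff η).1 hηD
  rw [η0] at h2 h3 h4
  simp only [mul_zero, sub_zero, add_zero] at h2 h3 h4
  have arr := B_arr (K := K)
  obtain ⟨b, hb⟩ : X 1 * (X 1 - 2 * X 0) ∣ η (X 1) := by
    have h7 := prod_dvd_of_arr arr {1, 2} (F := η (X 1)) (by
      intro i hi
      simp only [Finset.mem_insert, Finset.mem_singleton] at hi
      rcases hi with rfl | rfl
      · rw [lin_c]
        simpa using h1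
      · rw [lin_c]
        simpa using h2)
    rw [Finset.prod_insert (by decide), Finset.prod_singleton, lin_c, lin_c] at h7
    simpa using h7
  obtain ⟨c, hc⟩ : (X 2 - X 0) * (X 2 + X 0) ∣ η (X 2) := by
    have h7 := prod_dvd_of_arr arr {3, 4} (F := η (X 2)) (by
      intro i hi
      simp only [Finset.mem_insert, Finset.mem_singleton] at hi
      rcases hi with rfl | rfl
      · rw [lin_c]
        simpa using h3
      · rw [lin_c]
        simpa using h4)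
    rw [Finset.prod_insert (by decide), Finset.prod_singleton, lin_c, lin_c] at h7
    simpa using h7
  have n1 : ¬ (X 2 - X 1 : MvPolynomial (Fin 3) K) ∣ X 1 :=
    not_dvd_of_eval ![0, 1, 1] (by simp) (by simp)
  have n2 : ¬ (X 2 + X 1 : MvPolynomial (Fin 3) K) ∣ X 1 :=
    not_dvd_of_eval ![0, 1, -1] (by simp) (by simp)
  obtain ⟨w, hw⟩ : (X 2 - X 1) * (X 2 + X 1) ∣
      (X 2 - X 0) * (X 2 + X 0) * c - X 2 * (X 1 - 2 * X 0) * b := by
    apply diff_dvd _ n1 n2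
    obtain ⟨q5, hq5⟩ := h5
    obtain ⟨q6, hq6⟩ := h6
    have h7 := prod_dvd_of_arr arr {5, 6}
      (F := X 1 * ((X 2 - X 0) * (X 2 + X 0) * c - X 2 * (X 1 - 2 * X 0) * b)) (by
      intro i hi
      simp only [Finset.mem_insert, Finset.mem_singleton] at hi
      rcases hi with rfl | rfl
      · rw [lin_c]
        refine ⟨X 1 * q5 - η (X 1), ?_⟩
        simp only [Matrix.cons_val]
        linear_combination X 1 * hq5 - X 1 * hc + X 2 * hb
      · rw [lin_c]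
        refine ⟨X 1 * q6 - η (X 1), ?_⟩
        simp only [Matrix.cons_val]
        linear_combination X 1 * hq6 - X 1 * hc + X 2 * hb)
    rw [Finset.prod_insert (by decide), Finset.prod_singleton, lin_c, lin_c] at h7
    simpa using h7
  -- restrict to `x = y`
  obtain ⟨s, hs⟩ : (X 2 - X 1) * (X 2 + X 1) ∣ rp b := by
    apply diff_dvd (G := X 2 * X 1)
    · refine ⟨rp w - rp c, ?_⟩
      have := congrArg rp hw
      simp only [map_sub, map_mul, map_add, rp_X0, rp_X1, rp_X2, map_ofNat] at this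
      linear_combination this
    · exact not_dvd_of_eval ![0, 1, 1] (by simp) (by simp)
    · exact not_dvd_of_eval ![0, 1, -1] (by simp) (by simp)
  obtain ⟨s', hs'⟩ : (X 2 - X 1) * (X 2 + X 1) ∣ rm b := by
    apply diff_dvd (G := 3 * X 2 * X 1)
    · refine ⟨rm c - rm w, ?_⟩
      have := congrArg rm hw
      simp only [map_sub, map_mul, map_add, rm_X0, rm_X1, rm_X2, map_ofNat] at this
      linear_combination -this
    · exact not_dvd_of_eval ![0, 1, 1] (by simp) (by simp)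
    · exact not_dvd_of_eval ![0, 1, -1] (by simp) (by simp)
  obtain ⟨b1, hb1⟩ := rp_dvd b
  obtain ⟨s2, hs2⟩ : (X 2 - X 1) * (X 2 + X 1) ∣ rm b1 := by
    apply diff_dvd (G := 2 * X 1)
    · refine ⟨rm s - s', ?_⟩
      have h8 : b = (X 0 - X 1) * b1 + (X 2 - X 1) * (X 2 + X 1) * s := by
        rw [← hb1, ← hs]
        ring
      have := congrArg rm h8
      simp only [map_sub, map_mul, map_add, rm_X0, rm_X1, rm_X2] at this
      rw [hs'] at this
      linear_combination this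
    · exact not_dvd_of_eval ![0, 1, 1] (by simp) (by simp)
    · exact not_dvd_of_eval ![0, 1, -1] (by simp) (by simp)
  obtain ⟨b2, hb2⟩ := rm_dvd b1
  have hbfin : b = (X 0 ^ 2 - X 1 ^ 2) * b2 +
      (X 2 ^ 2 - X 1 ^ 2) * (s + (X 0 - X 1) * s2) := by
    have h8 : b = (X 0 - X 1) * b1 + (X 2 - X 1) * (X 2 + X 1) * s := by
      rw [← hb1, ← hs]
      ring
    have h9 : b1 = (X 0 + X 1) * b2 + (X 2 - X 1) * (X 2 + X 1) * s2 := by
      rw [← hb2, ← hs2]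
      ring
    rw [h8, h9]
    ring
  set β := s + (X 0 - X 1) * s2 with hβ
  set ζ := η - (β + b2) • T1 - b2 • T2 with hζ
  have hζD : ζ ∈ logDer B := Submodule.sub_mem _ (Submodule.sub_mem _ hηD
    (Submodule.smul_mem _ _ T1_mem)) (Submodule.smul_mem _ _ T2_mem)
  have z0 : ζ (X 0) = 0 := by
    have e0 : ζ (X 0) = η (X 0) - (β + b2) * T1 (X 0) - b2 * T2 (X 0) := rfl
    rw [e0, η0]
    simp [T1, T2]
  have z1 : ζ (X 1) = 0 := by
    have e0 : ζ (X 1) = η (X 1) - (β + b2) * T1 (X 1) - b2 * T2 (X 1) := rfl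
    rw [e0, hb, hbfin]
    simp only [T1, T2, mk_X1]
    ring
  obtain ⟨-, -, -, k3, k4, k5, k6⟩ := (mem_iff ζ).1 hζD
  rw [z0] at k3 k4
  rw [z1] at k5 k6
  simp only [sub_zero, add_zero] at k3 k4 k5 k6
  obtain ⟨a3, ha3⟩ : (X 2 - X 0) * ((X 2 + X 0) * ((X 2 - X 1) * (X 2 + X 1))) ∣ ζ (X 2) := by
    have h7 := prod_dvd_of_arr arr {3, 4, 5, 6} (F := ζ (X 2)) (by
      intro i hi
      simp only [Finset.mem_insert, Finset.mem_singleton] at hi
      rcases hi with rfl | rfl | rfl | rfl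
      · rw [lin_c]
        simpa using k3
      · rw [lin_c]
        simpa using k4
      · rw [lin_c]
        simpa using k5
      · rw [lin_c]
        simpa using k6)
    rw [Finset.prod_insert (by decide), Finset.prod_insert (by decide),
      Finset.prod_insert (by decide), Finset.prod_singleton, lin_c, lin_c, lin_c, lin_c] at h7
    simpa using h7
  refine ⟨e, β + b2, b2, a3, ?_⟩
  have hζ3 : ζ = a3 • T3 := by
    apply der_ext3
    · rw [z0]
      simp [T3]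
    · rw [z1]
      simp [T3]
    · rw [ha3]
      simp only [T3, Derivation.smul_apply, mk_X2, smul_eq_mul]
      ring
  rw [← hζ3, hζ, hη]
  abel

theorem rel_T [CharZero K] {a0 a1 a2 a3 : MvPolynomial (Fin 3) K}
    (h : a0 • T0 + a1 • T1 + a2 • T2 + a3 • (T3 : Derivation K (MvPolynomial (Fin 3) K)
      (MvPolynomial (Fin 3) K)) = 0) :
    ∃ s : MvPolynomial (Fin 3) K, a0 = 0 ∧ a1 = s * (X 2 ^ 2 - X 0 ^ 2) ∧ a2 = s * (X 2 ^ 2 - X 1 ^ 2) ∧
      a3 = s * (X 2 * (X 1 - 2 * X 0)) := by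
  have h0 := congrArg (fun D : Derivation K (MvPolynomial (Fin 3) K)
    (MvPolynomial (Fin 3) K) => D (X 0)) h
  have h1 := congrArg (fun D : Derivation K (MvPolynomial (Fin 3) K)
    (MvPolynomial (Fin 3) K) => D (X 1)) h
  have h2 := congrArg (fun D : Derivation K (MvPolynomial (Fin 3) K)
    (MvPolynomial (Fin 3) K) => D (X 2)) h
  simp only [Derivation.add_apply, Derivation.smul_apply, smul_eq_mul, Derivation.zero_apply,
    T0, T1, T2, T3, mk_X0, mk_X1, mk_X2] at h0 h1 h2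
  have hX0 : (X 0 : MvPolynomial (Fin 3) K) ≠ 0 := (prime_X 0).ne_zero
  have hX1 : (X 1 : MvPolynomial (Fin 3) K) ≠ 0 := (prime_X 1).ne_zero
  have ha0 : a0 = 0 := by
    apply mul_right_cancel₀ hX0
    linear_combination h0
  have hl : (X 1 - 2 * X 0 : MvPolynomial (Fin 3) K) ≠ 0 := by
    intro h
    have := congrArg (aeval (![0, 1, 0] : Fin 3 → K)) h
    simp at this
  have hq : (X 2 ^ 2 - X 0 ^ 2 : MvPolynomial (Fin 3) K) ≠ 0 := by
    intro h
    have := congrArg (aeval (![0, 1, 1] : Fin 3 → K)) h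
    simp at this
  have hq' : (X 2 ^ 2 - X 1 ^ 2 : MvPolynomial (Fin 3) K) ≠ 0 := by
    intro h
    have := congrArg (aeval (![0, 0, 1] : Fin 3 → K)) h
    simp at this
  have e1 : (X 2 ^ 2 - X 1 ^ 2) * a1 = (X 2 ^ 2 - X 0 ^ 2) * a2 := by
    apply mul_left_cancel₀ (mul_ne_zero hX1 hl)
    rw [ha0] at h1
    linear_combination h1
  have hd : (X 2 - X 1) * (X 2 + X 1) ∣ a2 := by
    apply diff_dvd (G := X 2 ^ 2 - X 0 ^ 2)
    · exact ⟨a1, by linear_combination -e1⟩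
    · exact not_dvd_of_eval ![0, 1, 1] (by simp) (by simp)
    · exact not_dvd_of_eval ![0, 1, -1] (by simp) (by simp)
  obtain ⟨s, hs⟩ := hd
  have hs' : a2 = s * (X 2 ^ 2 - X 1 ^ 2) := by
    rw [hs]
    ring
  have e2 : a1 = s * (X 2 ^ 2 - X 0 ^ 2) := by
    apply mul_left_cancel₀ hq'
    rw [e1, hs']
    ring
  refine ⟨s, ha0, e2, hs', ?_⟩
  apply mul_left_cancel₀ (mul_ne_zero hq hq')
  rw [ha0, hs'] at h2
  linear_combination h2

end Pool.Agent.V1148.M7
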