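import Mathlib
import Pool.Agent.V1148.Homog

set_option autoImplicit false

/-!
# Minimal homogeneous generating sets
-/

namespace Pool.Agent.V1148

open MvPolynomial

variable {K : Type*} [Field K] {l m : ℕ}

theorem mem_span_others'
    {θ : Fin m → Derivation K (MvPolynomial (Fin l) K) (MvPolynomial (Fin l) K)}
    {b : Fin m → MvPolynomial (Fin l) K} (h : ∑ i, b i • θ i = 0) {i : Fin m}
    (hi : IsUnit (b i)) : θ i ∈ Submodule.span (MvPolynomial (Fin l) K) (θ '' {i}ᶜ) := by
  obtain ⟨u, hu⟩ := hi
  have h1 : b i • θ i ∈ Submodule.span (MvPolynomial (Fin l) K) (θ '' {i}ᶜ) := by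
    have h2 : b i • θ i = -∑ j ∈ Finset.univ.erase i, b j • θ j := by
      rw [← Finset.add_sum_erase _ _ (Finset.mem_univ i)] at h
      exact eq_neg_of_add_eq_zero_left h
    rw [h2]
    apply Submodule.neg_mem
    apply Submodule.sum_mem
    intro j hj
    apply Submodule.smul_mem
    apply Submodule.subset_span
    exact ⟨j, by simpa using Finset.ne_of_mem_erase hj, rfl⟩
  have h3 : θ i = (↑u⁻¹ : MvPolynomial (Fin l) K) • (b i • θ i) := by
    rw [smul_smul, ← hu, Units.inv_mul, one_smul]
  rw [h3]
  exact Submodule.smul_mem _ _ h1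

variable {p N : ℕ}

/-- A minimal homogeneous generating set has no element of degree above the degrees of a given
homogeneous generating set. -/
theorem minGen_degree_le
    {θ : Fin p → Derivation K (MvPolynomial (Fin l) K) (MvPolynomial (Fin l) K)} {d : Fin p → ℕ}
    (hd : ∀ i, IsHomogDer (θ i) (d i))
    (hmin : ∀ i, θ i ∉ Submodule.span (MvPolynomial (Fin l) K) (θ '' {i}ᶜ))
    {T : Fin N → Derivation K (MvPolynomial (Fin l) K) (MvPolynomial (Fin l) K)} {e : Fin N → ℕ}
    (he : ∀ k, IsHomogDer (T k) (e k))
    (hspan : Submodule.span (MvPolynomial (Fin l) K) (Set.range T) =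
      Submodule.span (MvPolynomial (Fin l) K) (Set.range θ)) {E : ℕ} (hE : ∀ k, e k ≤ E)
    (i : Fin p) : d i ≤ E := by
  by_contra hcon
  apply hmin i
  have h1 : Submodule.span (MvPolynomial (Fin l) K) (Set.range T) ≤
      Submodule.span (MvPolynomial (Fin l) K) (θ '' {i}ᶜ) := by
    rw [Submodule.span_le]
    rintro _ ⟨k, rfl⟩
    have hk : T k ∈ Submodule.span (MvPolynomial (Fin l) K) (Set.range θ) := by
      rw [← hspan]
      exact Submodule.subset_span ⟨k, rfl⟩
    obtain ⟨s, hs⟩ := homog_expand hd (he k) hk
    rw [SetLike.mem_coe, hs]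
    apply Submodule.sum_mem
    intro j _
    by_cases hji : j = i
    · subst hji
      rw [if_neg (by have := hE k; omega), zero_smul]
      exact Submodule.zero_mem _
    · apply Submodule.smul_mem
      apply Submodule.subset_span
      exact ⟨j, by simpa using hji, rfl⟩
  apply h1
  rw [hspan]
  exact Submodule.subset_span ⟨i, rfl⟩

/-- If a homogeneous generating set has no nontrivial relations in degree `D` then neither does a
minimal homogeneous generating set. -/
theorem minGen_no_relation
    {θ : Fin p → Derivation K (MvPolynomial (Fin l) K) (MvPolynomial (Fin l) K)} {d : Fin p → ℕ}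
    (hd : ∀ i, IsHomogDer (θ i) (d i))
    (hmin : ∀ i, θ i ∉ Submodule.span (MvPolynomial (Fin l) K) (θ '' {i}ᶜ))
    {T : Fin N → Derivation K (MvPolynomial (Fin l) K) (MvPolynomial (Fin l) K)} {e : Fin N → ℕ}
    (he : ∀ k, IsHomogDer (T k) (e k))
    (hspan : Submodule.span (MvPolynomial (Fin l) K) (Set.range T) =
      Submodule.span (MvPolynomial (Fin l) K) (Set.range θ)) (D : ℕ)
    (hrel : ∀ a : Fin N → MvPolynomial (Fin l) K, ∑ k, a k • T k = 0 →
      (∀ k, (a k).IsHomogeneous (D - e k) ∧ (D < e k → a k = 0)) → ∀ k, a k = 0)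
    (ρ : Fin p → MvPolynomial (Fin l) K) (hρ : ∑ i, ρ i • θ i = 0)
    (hρh : ∀ i, (ρ i).IsHomogeneous (D - d i) ∧ (D < d i → ρ i = 0)) (i : Fin p) : ρ i = 0 := by
  classical
  have hθT : ∀ i, θ i ∈ Submodule.span (MvPolynomial (Fin l) K) (Set.range T) := fun i => by
    rw [hspan]
    exact Submodule.subset_span ⟨i, rfl⟩
  have hTθ : ∀ k, T k ∈ Submodule.span (MvPolynomial (Fin l) K) (Set.range θ) := fun k => by
    rw [← hspan]
    exact Submodule.subset_span ⟨k, rfl⟩
  choose t0 ht using fun i => homog_expand he (hd i) (hθT i)
  choose s0 hs using fun k => homog_expand hd (he k) (hTθ k)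
  set t : Fin p → Fin N → MvPolynomial (Fin l) K :=
    fun i k => if e k ≤ d i then homogeneousComponent (d i - e k) (t0 i k) else 0 with htdef
  set s : Fin N → Fin p → MvPolynomial (Fin l) K :=
    fun k i => if d i ≤ e k then homogeneousComponent (e k - d i) (s0 k i) else 0 with hsdef
  have ht' : ∀ i, θ i = ∑ k, t i k • T k := ht
  have hs' : ∀ k, T k = ∑ i, s k i • θ i := hs
  -- the induced relation among the `T k`
  have ha : ∀ k, ∑ i, ρ i * t i k = 0 := by
    apply hrel (fun k => ∑ i, ρ i * t i k)
    · rw [← hρ]
      conv_rhs => simp only [ht', Finset.smul_sum, smul_smul]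
      rw [Finset.sum_comm]
      apply Finset.sum_congr rfl
      intro k _
      rw [Finset.sum_smul]
    · intro k
      constructor
      · apply IsHomogeneous.sum
        intro i _
        by_cases h1 : D < d i
        · rw [(hρh i).2 h1, zero_mul]
          exact isHomogeneous_zero _ _ _
        · by_cases h2 : e k ≤ d i
          · have h3 := (hρh i).1.mul (homogeneousComponent_isHomogeneous (d i - e k) (t0 i k))
            have h4 : D - d i + (d i - e k) = D - e k := by omega
            rw [h4] at h3
            simp only [htdef, if_pos h2]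
            exact h3
          · simp only [htdef, if_neg h2, mul_zero]
            exact isHomogeneous_zero _ _ _
      · intro h
        apply Finset.sum_eq_zero
        intro i _
        by_cases h1 : D < d i
        · rw [(hρh i).2 h1, zero_mul]
        · simp only [htdef]
          rw [if_neg (by omega), mul_zero]
  -- the transition matrix
  let n : Fin p → Fin p → MvPolynomial (Fin l) K :=
    fun i j => (∑ k, t i k * s k j) - if j = i then 1 else 0
  have hn : ∀ i, ∑ j, n i j • θ j = 0 := by
    intro i
    have h1 : ∑ j, n i j • θ j = ∑ j, (∑ k, t i k * s k j) • θ j -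
        ∑ j, (if j = i then (1 : MvPolynomial (Fin l) K) else 0) • θ j := by
      rw [← Finset.sum_sub_distrib]
      apply Finset.sum_congr rfl
      intro j _
      exact (der_sub_smul _ _ _).symm
    have h2 : ∑ j, (∑ k, t i k * s k j) • θ j = θ i := by
      conv_rhs => rw [ht' i]
      conv_rhs => simp only [hs', Finset.smul_sum, smul_smul]
      rw [Finset.sum_comm]
      apply Finset.sum_congr rfl
      intro j _
      rw [Finset.sum_smul]
    have h3 : ∑ j, (if j = i then (1 : MvPolynomial (Fin l) K) else 0) • θ j = θ i := by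
      simp
    rw [h1, h2, h3, sub_self]
  have hn0 : ∀ i j, d i ≤ d j → n i j = 0 := by
    intro i j hij
    by_contra hne
    rcases Nat.lt_or_eq_of_le hij with hlt | heq
    · apply hne
      have h1 : j ≠ i := by
        rintro rfl
        omega
      simp only [n, if_neg h1, sub_zero]
      apply Finset.sum_eq_zero
      intro k _
      simp only [htdef, hsdef]
      by_cases h2 : e k ≤ d i
      · rw [if_neg (show ¬ d j ≤ e k by omega), mul_zero]
      · rw [if_neg h2, zero_mul]
    · have h1 : (n i j).IsHomogeneous 0 := by
        apply IsHomogeneous.sub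
        · apply IsHomogeneous.sum
          intro k _
          simp only [htdef, hsdef]
          by_cases h2 : e k ≤ d i
          · by_cases h3 : d j ≤ e k
            · rw [if_pos h2, if_pos h3]
              have h4 := (homogeneousComponent_isHomogeneous (d i - e k) (t0 i k)).mul
                (homogeneousComponent_isHomogeneous (e k - d j) (s0 k j))
              have h5 : d i - e k + (e k - d j) = 0 := by omega
              rwa [h5] at h4
            · rw [if_neg h3, mul_zero]
              exact isHomogeneous_zero _ _ _
          · rw [if_neg h2, zero_mul]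
            exact isHomogeneous_zero _ _ _
        · split_ifs
          · exact isHomogeneous_one _ _
          · exact isHomogeneous_zero _ _ _
      have h2 : (n i j).totalDegree = 0 := (totalDegree_zero_iff_isHomogeneous _).2 h1
      rw [totalDegree_eq_zero_iff_eq_C] at h2
      apply hmin j
      apply mem_span_others' (hn i)
      rw [h2]
      apply IsUnit.map
      rw [isUnit_iff_ne_zero]
      intro h3
      rw [h3, C_0] at h2
      exact hne h2
  have hρn : ∀ j, ρ j = -∑ i, ρ i * n i j := by
    intro j
    have h1 : ∑ i, ρ i * ∑ k, t i k * s k j = 0 := by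
      have h2 : ∑ i, ρ i * ∑ k, t i k * s k j = ∑ k, (∑ i, ρ i * t i k) * s k j := by
        simp only [Finset.mul_sum, Finset.sum_mul]
        rw [Finset.sum_comm]
        apply Finset.sum_congr rfl
        intro k _
        apply Finset.sum_congr rfl
        intro i _
        ring
      rw [h2]
      apply Finset.sum_eq_zero
      intro k _
      rw [ha k, zero_mul]
    simp only [n, mul_sub, Finset.sum_sub_distrib, h1]
    simp
  by_contra hne
  obtain ⟨j, hj, hjmax⟩ := Finset.exists_max_image (Finset.univ.filter fun i => ρ i ≠ 0) d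
    ⟨i, by simpa using hne⟩
  simp only [Finset.mem_filter, Finset.mem_univ, true_and] at hj hjmax
  apply hj
  rw [hρn j, neg_eq_zero]
  apply Finset.sum_eq_zero
  intro i _
  by_cases h1 : ρ i = 0
  · rw [h1, zero_mul]
  · rw [hn0 i j (hjmax i h1), mul_zero]

end Pool.Agent.V1148
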