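import Mathlib

/-!
# Determinants and Koszul syzygies (a lemma of Wiebe)

If the syzygies of `x` are all Koszul and `P x = Q x`, then `det P - det Q` lies in the ideal
generated by the entries of `P x`.
-/

set_option autoImplicit false

open Matrix

namespace Pool.V1148.AF

/-- All the syzygies of `x` are Koszul syzygies. -/
def KoszulSyz {R : Type*} [CommRing R] {n : ℕ} (x : Fin n → R) : Prop :=
  ∀ r : Fin n → R, ∑ k, r k * x k = 0 →
    ∃ c : Fin n → Fin n → R, ∀ k, r k = ∑ l, (c k l - c l k) * x l

variable {R : Type*} [CommRing R] {n : ℕ}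

theorem det_updateRow_eq_sum (P : Matrix (Fin n) (Fin n) R) (i : Fin n) (r : Fin n → R) :
    (P.updateRow i r).det = ∑ k, r k * P.adjugate k i := by
  have h : r = ∑ k, r k • (Pi.single k (1 : R) : Fin n → R) := by
    funext j
    simp [Finset.sum_apply, Pi.single_apply]
  have h2 : (P.updateRow i r).det = ∑ k, r k • (P.updateRow i (Pi.single k (1 : R))).det := by
    have h3 : ∀ s : Fin n → R, (P.updateRow i s).det =
        (Matrix.detRowAlternating (R := R)).toMultilinearMap.toLinearMap P i s := by
      intro s
      rfl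
    rw [h3, h, map_sum]
    apply Finset.sum_congr rfl
    intro k _
    rw [map_smul, ← h3, ← h]
  rw [h2]
  apply Finset.sum_congr rfl
  intro k _
  rw [Matrix.adjugate_apply, smul_eq_mul]

theorem adj_relation (P : Matrix (Fin n) (Fin n) R) (x : Fin n → R) (i k l : Fin n) :
    x l * P.adjugate k i - x k * P.adjugate l i ∈
      Ideal.span (Set.range (P.mulVec x)) := by
  set M := P.updateRow i (Pi.single k 1) with hM
  have hdet : M.det = P.adjugate k i := by rw [Matrix.adjugate_apply]
  have hadj : M.adjugate l i = P.adjugate l i := by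
    rw [Matrix.adjugate_apply, Matrix.adjugate_apply, hM, Matrix.updateRow_idem]
  have hMx : ∀ j, M.mulVec x j = if j = i then x k else P.mulVec x j := by
    intro j
    by_cases hj : j = i
    · subst hj
      rw [if_pos rfl]
      simp [hM, Matrix.mulVec, dotProduct, Pi.single_apply]
    · rw [if_neg hj]
      simp [hM, Matrix.mulVec, dotProduct, Matrix.updateRow_ne hj]
  have h1 : M.det * x l = ∑ j, M.adjugate l j * M.mulVec x j := by
    have h2 : (M.adjugate * M).mulVec x l = M.det * x l := by
      rw [Matrix.adjugate_mul, Matrix.smul_mulVec, Matrix.one_mulVec]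
      simp
    rw [← h2, ← Matrix.mulVec_mulVec]
    rfl
  rw [← Finset.add_sum_erase _ _ (Finset.mem_univ i), hMx i, if_pos rfl, hadj, hdet] at h1
  have h3 : x l * P.adjugate k i - x k * P.adjugate l i =
      ∑ j ∈ Finset.univ.erase i, M.adjugate l j * M.mulVec x j := by
    linear_combination h1
  rw [h3]
  apply Ideal.sum_mem
  intro j hj
  rw [hMx j, if_neg (Finset.ne_of_mem_erase hj)]
  exact Ideal.mul_mem_left _ _ (Ideal.subset_span ⟨j, rfl⟩)

theorem det_row_step {x : Fin n → R} (hx : KoszulSyz x) (P : Matrix (Fin n) (Fin n) R)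
    (i : Fin n) (r : Fin n → R) (hr : ∑ k, r k * x k = P.mulVec x i) :
    P.det - (P.updateRow i r).det ∈ Ideal.span (Set.range (P.mulVec x)) := by
  have h1 : ∑ k, (P i k - r k) * x k = 0 := by
    simp only [sub_mul, Finset.sum_sub_distrib, hr]
    simp [Matrix.mulVec, dotProduct]
  obtain ⟨c, hc⟩ := hx _ h1
  have h2 : P.det - (P.updateRow i r).det = ∑ k, (P i k - r k) * P.adjugate k i := by
    rw [← det_updateRow_eq_sum]
    have h3 : (fun k => P i k - r k) = P i + (-1 : R) • r := by
      funext k; simp [sub_eq_add_neg]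
    rw [h3, Matrix.det_updateRow_add, Matrix.det_updateRow_smul, Matrix.updateRow_eq_self]
    ring
  rw [h2]
  have h4 : ∑ k, (P i k - r k) * P.adjugate k i =
      ∑ k, ∑ l, c k l * (x l * P.adjugate k i - x k * P.adjugate l i) := by
    have h5 : ∑ k, ∑ l, c k l * (x l * P.adjugate k i - x k * P.adjugate l i) =
        ∑ k, ∑ l, c k l * x l * P.adjugate k i - ∑ k, ∑ l, c k l * x k * P.adjugate l i := by
      rw [← Finset.sum_sub_distrib]
      apply Finset.sum_congr rfl; intro k _
      rw [← Finset.sum_sub_distrib]
      apply Finset.sum_congr rfl; intro l _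
      ring
    rw [h5]
    conv_rhs => rw [Finset.sum_comm (f := fun k l => c k l * x k * P.adjugate l i)]
    rw [← Finset.sum_sub_distrib]
    apply Finset.sum_congr rfl; intro k _
    rw [hc k, ← Finset.sum_sub_distrib, Finset.sum_mul]
    apply Finset.sum_congr rfl; intro l _
    ring
  rw [h4]
  apply Ideal.sum_mem; intro k _
  apply Ideal.sum_mem; intro l _
  exact Ideal.mul_mem_left _ _ (adj_relation P x i k l)

theorem wiebe {x : Fin n → R} (hx : KoszulSyz x) (P Q : Matrix (Fin n) (Fin n) R)
    (hPQ : P.mulVec x = Q.mulVec x) :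
    P.det - Q.det ∈ Ideal.span (Set.range (P.mulVec x)) := by
  -- replace the rows one at a time
  have key : ∀ s : Finset (Fin n), ∃ M : Matrix (Fin n) (Fin n) R,
      (∀ i ∈ s, M i = Q i) ∧ (∀ i ∉ s, M i = P i) ∧
      P.det - M.det ∈ Ideal.span (Set.range (P.mulVec x)) := by
    intro s
    induction s using Finset.induction_on with
    | empty => exact ⟨P, by simp, by simp, by simp⟩
    | insert i s hi ih =>
      obtain ⟨M, h1, h2, h3⟩ := ih
      have hMx : M.mulVec x = P.mulVec x := by
        funext j
        by_cases hj : j ∈ s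
        · rw [hPQ]
          simp only [Matrix.mulVec]
          rw [h1 j hj]
        · simp only [Matrix.mulVec]
          rw [h2 j hj]
      refine ⟨M.updateRow i (Q i), ?_, ?_, ?_⟩
      · intro j hj
        by_cases hji : j = i
        · subst hji; rw [Matrix.updateRow_self]
        · rw [Matrix.updateRow_ne hji]
          exact h1 j (Finset.mem_of_mem_insert_of_ne hj hji)
      · intro j hj
        rw [Finset.mem_insert, not_or] at hj
        rw [Matrix.updateRow_ne hj.1]
        exact h2 j hj.2
      · have h4 := det_row_step hx M i (Q i) (by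
          rw [hMx, hPQ]; rfl)
        rw [hMx] at h4
        have := Ideal.add_mem _ h3 h4
        simpa using this
  obtain ⟨M, h1, _, h3⟩ := key Finset.univ
  have : M = Q := by funext i; exact h1 i (Finset.mem_univ i)
  rw [← this]; exact h3

end Pool.V1148.AF
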