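import Pool.Agent.V1148.AF9

/-!
# The family: leading coefficients
-/

set_option autoImplicit false

open MvPolynomial

namespace Pool.V1148.AF

variable {m d : ℕ}

open Classical in
/-- coefficients of the diagonal member. -/
noncomputable def alp (m : ℕ) : Fin (m + 1) → Polynomial ℂ :=
  fun i => if i = Fin.last m then Polynomial.X else 1

theorem fam_zero : fam d (0 : Fin m → ℂ) = diagF (m + 1) d (alp m) := by
  unfold fam g0 diagF alp
  rw [Fin.sum_univ_castSucc, map_sum, if_pos rfl]
  congr 1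
  apply Finset.sum_congr rfl
  intro i _
  rw [if_neg (Fin.castSucc_lt_last i).ne]
  simp

theorem hess_fam_zero (hd : 3 ≤ d) : ∃ K : ℂ, K ≠ 0 ∧
    hess (fam d (0 : Fin m → ℂ)) = monomial (bstar (m + 1) d).1 (Polynomial.C K * Polynomial.X) := by
  refine ⟨((d : ℂ) * ((d - 1 : ℕ) : ℂ)) ^ (m + 1), ?_, ?_⟩
  · apply pow_ne_zero
    apply mul_ne_zero
    · exact_mod_cast (by omega : d ≠ 0)
    · exact_mod_cast (by omega : d - 1 ≠ 0)
  · rw [fam_zero, hess_diagF]
    congr 1
    rw [Finset.prod_mul_distrib, Finset.prod_const, Finset.card_univ, Fintype.card_fin]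
    have h1 : ∏ i, alp m i = Polynomial.X := by
      rw [Fin.prod_univ_castSucc]
      have : ∀ i : Fin m, alp m i.castSucc = 1 := by
        intro i
        simp [alp]
      rw [Finset.prod_congr rfl (fun i _ => this i)]
      simp [alp]
    rw [h1]
    simp

theorem Dd_fam_zero (hd : 3 ≤ d) (I : Ch (m + 1) d) (hI : IsMac I) (c : Polynomial ℂ) :
    ∃ K : ℂ, K ≠ 0 ∧ Dd I (fam d (0 : Fin m → ℂ)) (monomial (bstar (m + 1) d).1 c) =
      Polynomial.C K * c * Polynomial.X ^ M0 I := by
  classical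
  refine ⟨(d : ℂ) ^ (Finset.univ.erase (bstar (m + 1) d)).card, ?_, ?_⟩
  · apply pow_ne_zero
    exact_mod_cast (by omega : d ≠ 0)
  · rw [fam_zero, Dd_diagF I hI]
    rw [← Finset.mul_prod_erase _ _ (Finset.mem_univ (bstar (m + 1) d)), if_pos rfl]
    have h1 : ∏ b ∈ Finset.univ.erase (bstar (m + 1) d),
        (if b = bstar (m + 1) d then c else (d : Polynomial ℂ) * alp m (I b).2) =
        ∏ b ∈ Finset.univ.erase (bstar (m + 1) d), ((d : Polynomial ℂ) * alp m (I b).2) := by
      apply Finset.prod_congr rfl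
      intro b hb
      rw [if_neg (Finset.ne_of_mem_erase hb)]
    have h2 : ∏ b ∈ Finset.univ.erase (bstar (m + 1) d), alp m (I b).2 =
        Polynomial.X ^ M0 I := by
      unfold alp
      rw [Finset.prod_ite, Finset.prod_const, Finset.prod_const_one, mul_one]
      congr 1
      unfold M0
      congr 1
      ext b
      simp
    have h3 : (if (bstar (m + 1) d) = bstar (m + 1) d then c else
        (d : Polynomial ℂ) * alp m (I (bstar (m + 1) d)).2) = c := if_pos rfl
    have h4 : ∏ b, (if b = bstar (m + 1) d then c else (d : Polynomial ℂ) * alp m (I b).2) =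
        c * ((d : Polynomial ℂ) ^ (Finset.univ.erase (bstar (m + 1) d)).card *
          Polynomial.X ^ M0 I) := by
      rw [← Finset.mul_prod_erase _ _ (Finset.mem_univ (bstar (m + 1) d)), h1,
        Finset.prod_mul_distrib, h2, Finset.prod_const, h3]
    have h5 : (Polynomial.C ((d : ℂ) ^ (Finset.univ.erase (bstar (m + 1) d)).card) :
        Polynomial ℂ) = (d : Polynomial ℂ) ^ (Finset.univ.erase (bstar (m + 1) d)).card := by
      simp
    rw [h1, Finset.prod_mul_distrib, h2, Finset.prod_const, h5]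
    ring

theorem coeff_zero_hess (hd : 3 ≤ d) (I : Ch (m + 1) d) (hI : IsMac I) :
    (Dd I (fam d (0 : Fin m → ℂ)) (hess (fam d (0 : Fin m → ℂ)))).coeff (M0 I + 1) ≠ 0 := by
  obtain ⟨K, hK, h1⟩ := hess_fam_zero (m := m) hd
  rw [h1]
  obtain ⟨K', hK', h2⟩ := Dd_fam_zero hd I hI (Polynomial.C K * Polynomial.X)
  rw [h2]
  have h3 : Polynomial.C K' * (Polynomial.C K * Polynomial.X) * Polynomial.X ^ M0 I =
      Polynomial.C (K' * K) * Polynomial.X ^ (M0 I + 1) := by
    rw [Polynomial.C_mul]; ring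
  rw [h3, Polynomial.coeff_C_mul, Polynomial.coeff_X_pow, if_pos rfl, mul_one]
  exact mul_ne_zero hK' hK

theorem coeff_zero_bstar (hd : 3 ≤ d) (I : Ch (m + 1) d) (hI : IsMac I) :
    (Dd I (fam d (0 : Fin m → ℂ)) (monomial (bstar (m + 1) d).1 1)).coeff (M0 I) ≠ 0 := by
  obtain ⟨K', hK', h2⟩ := Dd_fam_zero hd I hI 1
  rw [h2, mul_one, Polynomial.coeff_C_mul, Polynomial.coeff_X_pow, if_pos rfl, mul_one]
  exact hK'

theorem eval_coeff_hess (I : Ch (m + 1) d) (c : Fin m → ℂ) (ε : ℂ) (k : ℕ) :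
    Polynomial.eval ε ((Dd I (fam d (fun i => Polynomial.X * Polynomial.C (c i)))
      (hess (fam d (fun i => Polynomial.X * Polynomial.C (c i))))).coeff k) =
    (Dd I (fam d (fun i => ε * c i)) (hess (fam d (fun i => ε * c i)))).coeff k := by
  have h1 := map_fam (d := d) (Polynomial.evalRingHom ε)
    (fun i => Polynomial.X * Polynomial.C (c i))
  simp only [Polynomial.coe_evalRingHom, Polynomial.eval_mul, Polynomial.eval_X,
    Polynomial.eval_C] at h1
  rw [← h1, ← map_hess, ← map_Dd, Polynomial.coe_mapRingHom, Polynomial.coeff_map]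
  rfl

theorem eval_coeff_bstar (I : Ch (m + 1) d) (c : Fin m → ℂ) (ε : ℂ) (k : ℕ) :
    Polynomial.eval ε ((Dd I (fam d (fun i => Polynomial.X * Polynomial.C (c i)))
      (monomial (bstar (m + 1) d).1 1)).coeff k) =
    (Dd I (fam d (fun i => ε * c i)) (monomial (bstar (m + 1) d).1 1)).coeff k := by
  have h1 := map_fam (d := d) (Polynomial.evalRingHom ε)
    (fun i => Polynomial.X * Polynomial.C (c i))
  simp only [Polynomial.coe_evalRingHom, Polynomial.eval_mul, Polynomial.eval_X,
    Polynomial.eval_C] at h1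
  have h2 : (monomial (bstar (m + 1) d).1 (1 : Polynomial ℂ)) =
      map (Polynomial.mapRingHom (Polynomial.evalRingHom ε))
        (monomial (bstar (m + 1) d).1 (1 : Polynomial (Polynomial ℂ))) := by
    rw [map_monomial, map_one (Polynomial.mapRingHom (Polynomial.evalRingHom ε))]
  rw [← h1, h2, ← map_Dd, Polynomial.coe_mapRingHom, Polynomial.coeff_map]
  rfl

theorem exists_rho (hd : 3 ≤ d) (I : Ch (m + 1) d) (hI : IsMac I) (c : Fin m → ℂ) :
    ∃ ρ : ℂ, ρ ≠ 0 ∧
      (Dd I (fam d (fun i => ρ ^ (d - 1) * c i))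
        (hess (fam d (fun i => ρ ^ (d - 1) * c i)))) ≠ 0 ∧
      (Dd I (fam d (fun i => ρ ^ (d - 1) * c i)) (monomial (bstar (m + 1) d).1 1)) ≠ 0 := by
  set qH := (Dd I (fam d (fun i => Polynomial.X * Polynomial.C (c i)))
      (hess (fam d (fun i => Polynomial.X * Polynomial.C (c i))))).coeff (M0 I + 1) with hqH
  set qB := (Dd I (fam d (fun i => Polynomial.X * Polynomial.C (c i)))
      (monomial (bstar (m + 1) d).1 1)).coeff (M0 I) with hqB
  have hz : (fun i => (0 : ℂ) * c i) = (0 : Fin m → ℂ) := by funext i; simp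
  have hH0 : Polynomial.eval 0 qH ≠ 0 := by
    rw [hqH, eval_coeff_hess, hz]
    exact coeff_zero_hess hd I hI
  have hB0 : Polynomial.eval 0 qB ≠ 0 := by
    rw [hqB, eval_coeff_bstar, hz]
    exact coeff_zero_bstar hd I hI
  have hq : (qH * qB).comp (Polynomial.X ^ (d - 1)) * Polynomial.X ≠ 0 := by
    apply mul_ne_zero _ Polynomial.X_ne_zero
    intro h
    have h2 := congrArg (Polynomial.eval 0) h
    rw [Polynomial.eval_comp, Polynomial.eval_mul, Polynomial.eval_pow, Polynomial.eval_X,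
      zero_pow (by omega), Polynomial.eval_zero] at h2
    exact mul_ne_zero hH0 hB0 h2
  obtain ⟨ρ, hρ⟩ : ∃ ρ, Polynomial.eval ρ
      ((qH * qB).comp (Polynomial.X ^ (d - 1)) * Polynomial.X) ≠ 0 := by
    by_contra hcon
    push Not at hcon
    apply hq
    apply Polynomial.funext
    intro r
    rw [hcon r, Polynomial.eval_zero]
  rw [Polynomial.eval_mul, Polynomial.eval_comp, Polynomial.eval_mul, Polynomial.eval_pow,
    Polynomial.eval_X] at hρ
  refine ⟨ρ, fun h => hρ (by rw [h, mul_zero]), ?_, ?_⟩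
  · intro h
    apply hρ
    rw [hqH, eval_coeff_hess, h, Polynomial.coeff_zero, zero_mul, zero_mul]
  · intro h
    apply hρ
    rw [hqB, eval_coeff_bstar, h, Polynomial.coeff_zero, mul_zero, zero_mul]

end Pool.V1148.AF
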