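import Pool.Agent.V1148.AF10

/-!
# The degenerate members of the family
-/

set_option autoImplicit false

open MvPolynomial

namespace Pool.V1148.AF

variable {m d : ℕ}

/-- The member of the family at `t`. -/
noncomputable def famAt (d : ℕ) (e : Fin m → ℂ) (t : ℂ) : MvPolynomial (Fin (m + 1)) ℂ :=
  map (Polynomial.evalRingHom t) (fam d e)

theorem famAt_isHomogeneous (hd : 3 ≤ d) (e : Fin m → ℂ) (t : ℂ) :
    (famAt d e t).IsHomogeneous d := (fam_isHomogeneous hd e).map _

theorem famAt_eq (e : Fin m → ℂ) (t : ℂ) :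
    famAt d e t = g0 d e + C t * X (Fin.last m) ^ d := by
  unfold famAt fam
  rw [map_add, MvPolynomial.map_map, map_mul, map_pow, map_X, map_C]
  have h1 : (Polynomial.evalRingHom t).comp Polynomial.C = RingHom.id ℂ := by
    ext x; simp
  rw [h1, MvPolynomial.map_id]
  simp

theorem pderiv_castSucc_g0 (e : Fin m → ℂ) (i : Fin m) :
    pderiv i.castSucc (g0 d e) = C (d : ℂ) * X i.castSucc ^ (d - 1) -
      C (d * e i) * X (Fin.last m) ^ (d - 1) := by
  have hl : i.castSucc ≠ Fin.last m := (Fin.castSucc_lt_last i).ne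
  unfold g0
  rw [map_sum, Finset.sum_eq_single i]
  · rw [map_sub, pderiv_C_mul, pderiv_mul, pderiv_X_last_pow _ hl, pderiv_pow, pderiv_X_self,
      C_eq_coe_nat (R := ℂ) d]
    ring
  · intro j _ hj
    have hj' : j.castSucc ≠ i.castSucc := fun h => hj (Fin.castSucc_injective _ h)
    rw [map_sub, pderiv_C_mul, pderiv_mul, pderiv_X_last_pow _ hl, pderiv_pow,
      pderiv_X_of_ne hj']
    ring
  · intro h
    exact absurd (Finset.mem_univ _) h

theorem pderiv_last_g0 (e : Fin m → ℂ) :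
    pderiv (Fin.last m) (g0 d e) = - ∑ i : Fin m, C (d * e i) *
      (X i.castSucc * (C ((d - 1 : ℕ) : ℂ) * X (Fin.last m) ^ (d - 1 - 1))) := by
  unfold g0
  rw [map_sum, ← Finset.sum_neg_distrib]
  apply Finset.sum_congr rfl
  intro i _
  have hl : i.castSucc ≠ Fin.last m := (Fin.castSucc_lt_last i).ne
  rw [map_sub, pderiv_C_mul, pderiv_mul, pderiv_pow, pderiv_pow, pderiv_X_self,
    pderiv_X_of_ne hl, C_eq_coe_nat (R := ℂ) (d - 1)]
  ring

theorem not_nondeg (e : Fin m → ℂ) (z : Fin m → ℂ)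
    (hz : ∀ i, z i ^ (d - 1) = e i) :
    ¬ Nondeg (famAt d e (((d - 1 : ℕ) : ℂ) * ∑ i, e i * z i)) := by
  intro h
  set t := ((d - 1 : ℕ) : ℂ) * ∑ i, e i * z i with ht
  have hP := h (Fin.snoc z 1) (by
    intro i
    refine Fin.lastCases ?_ (fun j => ?_) i
    · rw [famAt_eq, map_add, pderiv_last_g0, pderiv_C_mul, pderiv_pow, pderiv_X_self]
      simp only [map_add, map_neg, map_sum, map_mul, map_pow, eval_C, eval_X, Fin.snoc_castSucc,
        Fin.snoc_last, one_pow, mul_one, map_natCast]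
      rw [ht, Finset.mul_sum, neg_add_eq_zero, Finset.sum_mul]
      apply Finset.sum_congr rfl
      intro i _
      ring
    · have hl : j.castSucc ≠ Fin.last m := (Fin.castSucc_lt_last j).ne
      rw [famAt_eq, map_add, pderiv_castSucc_g0, pderiv_C_mul, pderiv_X_last_pow _ hl]
      simp only [map_sub, map_mul, map_pow, eval_C, eval_X, Fin.snoc_castSucc,
        Fin.snoc_last, one_pow, mul_one, mul_zero, add_zero]
      rw [hz j]
      ring)
  have h1 := congrFun hP (Fin.last m)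
  rw [Fin.snoc_last] at h1
  simp at h1

theorem exists_beta (hd : 3 ≤ d) {ζ : ℂ} (hζ : IsPrimitiveRoot ζ (d - 1)) :
    ∃ β : ℂ, ∀ k l : Fin m → Fin (d - 1), k ≠ l →
      ∑ i : Fin m, (ζ ^ (k i : ℕ) - ζ ^ (l i : ℕ)) * β ^ (d * (i : ℕ)) ≠ 0 := by
  classical
  set W : Polynomial ℂ := ∏ p ∈ (Finset.univ : Finset ((Fin m → Fin (d - 1)) ×
    (Fin m → Fin (d - 1)))).filter (fun p => p.1 ≠ p.2),
      ∑ i : Fin m, Polynomial.C (ζ ^ (p.1 i : ℕ) - ζ ^ (p.2 i : ℕ)) *
        Polynomial.X ^ (d * (i : ℕ)) with hW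
  have hW0 : W ≠ 0 := by
    rw [hW, Finset.prod_ne_zero_iff]
    intro p hp
    rw [Finset.mem_filter] at hp
    obtain ⟨i0, hi0⟩ := Function.ne_iff.1 hp.2
    intro h
    have h1 := congrArg (fun q => Polynomial.coeff q (d * (i0 : ℕ))) h
    simp only [Polynomial.finsetSum_coeff, Polynomial.coeff_C_mul, Polynomial.coeff_X_pow,
      Polynomial.coeff_zero] at h1
    rw [Finset.sum_eq_single i0] at h1
    · rw [if_pos rfl, mul_one, sub_eq_zero] at h1
      have := hζ.pow_inj (p.1 i0).2 (p.2 i0).2 h1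
      exact hi0 (Fin.ext this)
    · intro j _ hj
      rw [if_neg, mul_zero]
      intro h2
      apply hj
      apply Fin.ext
      exact (Nat.eq_of_mul_eq_mul_left (by omega) h2).symm
    · intro h
      exact absurd (Finset.mem_univ _) h
  obtain ⟨β, hβ⟩ : ∃ β, Polynomial.eval β W ≠ 0 := by
    by_contra hcon
    push Not at hcon
    apply hW0
    apply Polynomial.funext
    intro r
    rw [hcon r, Polynomial.eval_zero]
  refine ⟨β, ?_⟩
  intro k l hkl h
  apply hβ
  rw [hW, Polynomial.eval_prod]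
  apply Finset.prod_eq_zero (i := (k, l))
  · simp [hkl]
  · rw [Polynomial.eval_finsetSum]
    simpa using h

/-- The family with many degenerate members. -/
theorem exists_family (hd : 3 ≤ d) (I : Ch (m + 1) d) (hI : IsMac I) :
    ∃ (e : Fin m → ℂ) (S : Finset ℂ), S.card = (d - 1) ^ m ∧
      (∀ t ∈ S, ¬ Nondeg (famAt d e t)) ∧
      Dd I (fam d e) (hess (fam d e)) ≠ 0 ∧
      Dd I (fam d e) (monomial (bstar (m + 1) d).1 1) ≠ 0 := by
  classical
  have hd1 : d - 1 ≠ 0 := by omega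
  set ζ : ℂ := Complex.exp (2 * Real.pi * Complex.I / ((d - 1 : ℕ) : ℂ)) with hζdef
  have hζ : IsPrimitiveRoot ζ (d - 1) := Complex.isPrimitiveRoot_exp (d - 1) hd1
  obtain ⟨β, hβ⟩ := exists_beta (m := m) hd hζ
  obtain ⟨ρ, hρ, hH, hB⟩ := exists_rho hd I hI (fun i : Fin m => (β ^ (i : ℕ)) ^ (d - 1))
  set e : Fin m → ℂ := fun i => ρ ^ (d - 1) * (β ^ (i : ℕ)) ^ (d - 1) with he
  set τ : (Fin m → Fin (d - 1)) → ℂ := fun k =>
    ((d - 1 : ℕ) : ℂ) * ∑ i, e i * (ρ * β ^ (i : ℕ) * ζ ^ (k i : ℕ)) with hτ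
  have hinj : Function.Injective τ := by
    intro k l hkl
    by_contra hne
    apply hβ k l hne
    have h1 : τ k - τ l = ((d - 1 : ℕ) : ℂ) * ρ ^ d *
        ∑ i : Fin m, (ζ ^ (k i : ℕ) - ζ ^ (l i : ℕ)) * β ^ (d * (i : ℕ)) := by
      simp only [hτ]
      rw [← mul_sub, ← Finset.sum_sub_distrib, mul_assoc]
      congr 1
      rw [Finset.mul_sum]
      apply Finset.sum_congr rfl
      intro i _
      have e1 : ρ ^ d = ρ ^ (d - 1) * ρ := by
        rw [← pow_succ, Nat.sub_add_cancel (by omega)]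
      have e2 : β ^ (d * (i : ℕ)) = (β ^ (i : ℕ)) ^ (d - 1) * β ^ (i : ℕ) := by
        rw [← pow_succ, Nat.sub_add_cancel (by omega), ← pow_mul, mul_comm]
      rw [e1, e2, he]
      ring
    rw [hkl, sub_self] at h1
    have h2 : ((d - 1 : ℕ) : ℂ) * ρ ^ d ≠ 0 :=
      mul_ne_zero (by exact_mod_cast hd1) (pow_ne_zero _ hρ)
    exact (mul_eq_zero.1 h1.symm).resolve_left h2
  refine ⟨e, Finset.univ.image τ, ?_, ?_, hH, hB⟩
  · rw [Finset.card_image_of_injective _ hinj]
    simp
  · intro t ht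
    rw [Finset.mem_image] at ht
    obtain ⟨k, _, rfl⟩ := ht
    apply not_nondeg
    intro i
    have e3 : (ζ ^ (k i : ℕ)) ^ (d - 1) = 1 := by
      rw [← pow_mul, mul_comm, pow_mul, hζ.pow_eq_one, one_pow]
    rw [mul_pow, mul_pow, e3, mul_one]

theorem eval_Dd_fam (I : Ch (m + 1) d) (e : Fin m → ℂ) (t : ℂ) :
    Polynomial.eval t (Dd I (fam d e) (hess (fam d e))) =
      Dd I (famAt d e t) (hess (famAt d e t)) := by
  unfold famAt
  rw [← map_hess, ← map_Dd]
  rfl

theorem eval_Dd_fam_bstar (I : Ch (m + 1) d) (e : Fin m → ℂ) (t : ℂ) :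
    Polynomial.eval t (Dd I (fam d e) (monomial (bstar (m + 1) d).1 1)) =
      Dd I (famAt d e t) (monomial (bstar (m + 1) d).1 1) := by
  unfold famAt
  have h2 : (monomial (bstar (m + 1) d).1 (1 : ℂ)) =
      map (Polynomial.evalRingHom t)
        (monomial (bstar (m + 1) d).1 (1 : Polynomial ℂ)) := by
    rw [map_monomial, map_one (Polynomial.evalRingHom t)]
  rw [h2, ← map_Dd]
  rfl

/-- Two key facts on the family. -/
theorem family_facts (hd : 3 ≤ d) (hm : 1 ≤ m) (I : Ch (m + 1) d) (hI : IsMac I) :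
    ∃ (e : Fin m → ℂ),
      (∃ t, ¬ Nondeg (famAt d e t) ∧ Dd I (famAt d e t) (monomial (bstar (m + 1) d).1 1) ≠ 0) ∧
      (∀ P : Polynomial ℂ, (∀ t, ¬ Nondeg (famAt d e t) → Polynomial.eval t P = 0) →
        ¬ (P ^ 2 ∣ Dd I (fam d e) (hess (fam d e)))) := by
  classical
  obtain ⟨e, S, hS, hS2, hH, hB⟩ := exists_family hd I hI
  have hn : 2 ≤ m + 1 := by omega
  refine ⟨e, ?_, ?_⟩
  · by_contra hcon
    push Not at hcon
    have h1 : S.val ≤ (Dd I (fam d e) (monomial (bstar (m + 1) d).1 1)).roots := by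
      rw [Multiset.le_iff_subset S.nodup]
      intro t ht
      rw [Polynomial.mem_roots hB, Polynomial.IsRoot, eval_Dd_fam_bstar]
      exact hcon t (hS2 t ht)
    have h2 := Multiset.card_le_card h1
    have h3 := Polynomial.card_roots' (Dd I (fam d e) (monomial (bstar (m + 1) d).1 1))
    have h4 := natDegree_Dd_fam I e (monomial (bstar (m + 1) d).1 1) (TD_monomial _)
    have h5 := M0_succ_le hd I hI
    have h6 : Multiset.card S.val = (d - 1) ^ m := hS
    omega
  · intro P hP hdiv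
    have hne : S.Nonempty := by
      rw [← Finset.card_pos, hS]
      exact Nat.pow_pos (by omega)
    obtain ⟨t0, ht0⟩ := hne
    have hroot : ∀ t ∈ S, t ∈ (Dd I (fam d e) (hess (fam d e))).roots := by
      intro t ht
      rw [Polynomial.mem_roots hH, Polynomial.IsRoot, eval_Dd_fam]
      exact Dd_eq_zero hn hd I (famAt_isHomogeneous hd e t) (hS2 t ht)
    have hmul : 2 ≤ Polynomial.rootMultiplicity t0 (Dd I (fam d e) (hess (fam d e))) := by
      rw [Polynomial.le_rootMultiplicity_iff hH]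
      exact (pow_dvd_pow_of_dvd (Polynomial.dvd_iff_isRoot.2 (hP t0 (hS2 t0 ht0))) 2).trans hdiv
    have h1 : t0 ::ₘ S.val ≤ (Dd I (fam d e) (hess (fam d e))).roots := by
      rw [Multiset.le_iff_count]
      intro t
      by_cases ht : t = t0
      · subst ht
        rw [Multiset.count_cons_self, Polynomial.count_roots,
          Multiset.count_eq_one_of_mem S.nodup ht0]
        exact hmul
      · rw [Multiset.count_cons_of_ne ht]
        by_cases htS : t ∈ S.val
        · rw [Multiset.count_eq_one_of_mem S.nodup htS]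
          exact Multiset.one_le_count_iff_mem.2 (hroot t htS)
        · rw [Multiset.count_eq_zero_of_notMem htS]
          exact Nat.zero_le _
    have h2 := Multiset.card_le_card h1
    rw [Multiset.card_cons] at h2
    have h3 := Polynomial.card_roots' (Dd I (fam d e) (hess (fam d e)))
    have h4 := natDegree_Dd_fam I e (hess (fam d e)) (TD_hess_fam e)
    have h5 := M0_succ_le hd I hI
    have h6 : Multiset.card S.val = (d - 1) ^ m := hS
    omega

end Pool.V1148.AF
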