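import Pool.Agent.V1148.AF11

/-!
# The generic determinants and the extension
-/

set_option autoImplicit false

open MvPolynomial

namespace Pool.V1148.AF

section

variable {n d : ℕ}

theorem map_frm {R S : Type*} [CommRing R] [CommRing S] (φ : R →+* S) (a : Mon n d → R) :
    map φ (frm a) = frm (fun m => φ (a m)) := by
  unfold frm
  rw [map_sum]
  apply Finset.sum_congr rfl
  intro m _
  rw [map_monomial]

/-- The generic form. -/
noncomputable def gen (n d : ℕ) : MvPolynomial (Fin n) (MvPolynomial (Mon n d) ℂ) :=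
  frm (fun m => X m)

theorem map_gen {S : Type*} [CommRing S] (φ : MvPolynomial (Mon n d) ℂ →+* S) :
    map φ (gen n d) = frm (fun m => φ (X m)) := map_frm _ _

theorem map_eval_gen (a : Mon n d → ℂ) : map (eval a) (gen n d) = frm a := by
  rw [map_gen]
  simp

/-- The determinants for the Hessian. -/
noncomputable def DH (I : Ch n d) : MvPolynomial (Mon n d) ℂ := Dd I (gen n d) (hess (gen n d))

/-- The determinants for a monomial. -/
noncomputable def DV (I : Ch n d) (b : Mon n (n * (d - 2))) : MvPolynomial (Mon n d) ℂ :=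
  Dd I (gen n d) (monomial b.1 1)

theorem eval_DH (I : Ch n d) (a : Mon n d → ℂ) :
    eval a (DH I) = Dd I (frm a) (hess (frm a)) := by
  unfold DH
  rw [map_Dd, map_hess, map_eval_gen]

theorem eval_DV (I : Ch n d) (b : Mon n (n * (d - 2))) (a : Mon n d → ℂ) :
    eval a (DV I b) = Dd I (frm a) (monomial b.1 1) := by
  unfold DV
  rw [map_Dd, map_monomial, map_eval_gen, map_one (eval a)]

theorem eval_DV_eq (hn : 2 ≤ n) (hd : 3 ≤ d) (I : Ch n d) (b : Mon n (n * (d - 2)))
    (a : Mon n d → ℂ) (μ : MvPolynomial (Fin n) ℂ →ₗ[ℂ] ℂ) (hμ : Soc d (frm a) μ) :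
    eval a (DV I b) = μ (monomial b.1 1) * eval a (DH I) := by
  rw [eval_DV, eval_DH]
  have h1 := Dd_symm hn hd I (f := frm a) (u := hess (frm a)) (v := monomial b.1 1)
    (frm_isHomogeneous a) (hess_isHomogeneous (frm_isHomogeneous a))
    (isHomogeneous_monomial _ b.2) μ (by
      intro b' _
      apply hμ.kills
      unfold col
      exact Ideal.mul_mem_left _ _ (Ideal.subset_span ⟨_, rfl⟩))
  rw [h1, hμ.hs, one_mul]

theorem eval_DH_eq_zero (hn : 2 ≤ n) (hd : 3 ≤ d) (I : Ch n d) (a : Mon n d → ℂ)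
    (ha : ¬ Nondeg (frm a)) : eval a (DH I) = 0 := by
  rw [eval_DH]
  exact Dd_eq_zero hn hd I (frm_isHomogeneous a) ha

theorem DV_mul_DH (hn : 2 ≤ n) (hd : 3 ≤ d) (I J : Ch n d) (b : Mon n (n * (d - 2))) :
    DV I b * DH J = DV J b * DH I := by
  apply MvPolynomial.funext
  intro a
  rw [map_mul, map_mul]
  by_cases ha : Nondeg (frm a)
  · obtain ⟨μ, hμ⟩ := exists_soc (by omega) (frm_isHomogeneous a) ha
    rw [eval_DV_eq hn hd I b a μ hμ, eval_DV_eq hn hd J b a μ hμ]
    ring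
  · rw [eval_DH_eq_zero hn hd I a ha, eval_DH_eq_zero hn hd J a ha]
    ring

theorem exists_DH_ne_zero (hn : 2 ≤ n) (hd : 3 ≤ d) (a : Mon n d → ℂ)
    (ha : Nondeg (frm a)) : ∃ I : Ch n d, eval a (DH I) ≠ 0 := by
  obtain ⟨I, hI⟩ := exists_Dd_ne_zero hn hd (frm_isHomogeneous a) ha
  exact ⟨I, by rwa [eval_DH]⟩

theorem dvd_of_dvd_mul_pow {R : Type*} [CommRing R] [IsDomain R] {Δ E x : R} (hΔ : Prime Δ)
    (hE : ¬ Δ ∣ E) (k : ℕ) (h : E ∣ x * Δ ^ k) : E ∣ x := by
  induction k with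
  | zero => simpa using h
  | succ k ih =>
    apply ih
    obtain ⟨y, hy⟩ := h
    have h1 : Δ ∣ E * y := by
      rw [← hy, pow_succ]
      exact ⟨x * Δ ^ k, by ring⟩
    rcases hΔ.dvd_or_dvd h1 with h2 | ⟨y', hy'⟩
    · exact absurd h2 hE
    · refine ⟨y', ?_⟩
      apply mul_right_cancel₀ hΔ.ne_zero
      rw [mul_assoc, ← pow_succ, hy, hy']
      ring

end

section

variable {m d : ℕ}

/-- The curve in the coefficient space. -/
noncomputable def crv (d : ℕ) (e : Fin m → ℂ) : Mon (m + 1) d → Polynomial ℂ :=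
  fun b => coeff b.1 (fam d e)

theorem frm_crv (hd : 3 ≤ d) (e : Fin m → ℂ) : frm (crv d e) = fam d e :=
  frm_coeff _ (fam_isHomogeneous hd e)

/-- restriction of polynomials to the curve. -/
noncomputable def onCrv (d : ℕ) (e : Fin m → ℂ) :
    MvPolynomial (Mon (m + 1) d) ℂ →+* Polynomial ℂ := (aeval (crv d e)).toRingHom

theorem onCrv_X (e : Fin m → ℂ) (b : Mon (m + 1) d) : onCrv d e (X b) = crv d e b := by
  simp [onCrv]

theorem map_onCrv_gen (hd : 3 ≤ d) (e : Fin m → ℂ) :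
    map (onCrv d e) (gen (m + 1) d) = fam d e := by
  rw [map_gen]
  simp only [onCrv_X]
  exact frm_crv hd e

theorem onCrv_DH (hd : 3 ≤ d) (e : Fin m → ℂ) (I : Ch (m + 1) d) :
    onCrv d e (DH I) = Dd I (fam d e) (hess (fam d e)) := by
  unfold DH
  rw [map_Dd, map_hess, map_onCrv_gen hd]

/-- coefficients of a member. -/
noncomputable def cAt (d : ℕ) (e : Fin m → ℂ) (t : ℂ) : Mon (m + 1) d → ℂ :=
  fun b => coeff b.1 (famAt d e t)

theorem frm_cAt (hd : 3 ≤ d) (e : Fin m → ℂ) (t : ℂ) : frm (cAt d e t) = famAt d e t :=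
  frm_coeff _ (famAt_isHomogeneous hd e t)

theorem eval_onCrv (e : Fin m → ℂ) (t : ℂ) (p : MvPolynomial (Mon (m + 1) d) ℂ) :
    Polynomial.eval t (onCrv d e p) = eval (cAt d e t) p := by
  have h : (Polynomial.evalRingHom t).comp (onCrv d e) = eval (cAt d e t) := by
    apply MvPolynomial.ringHom_ext
    · intro r
      simp [onCrv]
    · intro b
      rw [RingHom.comp_apply, onCrv_X, eval_X]
      unfold crv cAt famAt
      rw [coeff_map]
  exact DFunLike.congr_fun h p

/-- Key facts on the generic determinant for Macaulay's choice. -/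
theorem key_facts (hd : 3 ≤ d) (hm : 1 ≤ m) (I : Ch (m + 1) d) (hI : IsMac I) :
    (∃ a : Mon (m + 1) d → ℂ, ¬ Nondeg (frm a) ∧ eval a (DV I (bstar (m + 1) d)) ≠ 0) ∧
    (∀ p : MvPolynomial (Mon (m + 1) d) ℂ, (∀ a : Mon (m + 1) d → ℂ, ¬ Nondeg (frm a) →
      eval a p = 0) → ¬ (p ^ 2 ∣ DH I)) := by
  obtain ⟨e, ⟨t, ht1, ht2⟩, h2⟩ := family_facts hd hm I hI
  refine ⟨⟨cAt d e t, ?_, ?_⟩, ?_⟩
  · rw [frm_cAt hd]; exact ht1
  · rw [eval_DV, frm_cAt hd]; exact ht2
  · intro p hp hdvd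
    apply h2 (onCrv d e p)
    · intro s hs
      rw [eval_onCrv]
      apply hp
      rw [frm_cAt hd]
      exact hs
    · rw [← onCrv_DH hd, ← map_pow]
      exact map_dvd _ hdvd

theorem extends_one (hd : 3 ≤ d) (hm : 1 ≤ m) (Δ : MvPolynomial (Mon (m + 1) d) ℂ)
    (hΔ : IsDiscriminant (m + 1) d Δ) : Extends (m + 1) d Δ 1 := by
  have hn : 2 ≤ m + 1 := by omega
  have hprime : Prime Δ := hΔ.irreducible.prime
  have hpi : (Ideal.span {Δ}).IsPrime := (Ideal.span_singleton_prime hprime.ne_zero).2 hprime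
  obtain ⟨I, hI⟩ := exists_mac (m := m) hd
  obtain ⟨-, hkey⟩ := key_facts hd hm I hI
  have hvan : ∀ a : Mon (m + 1) d → ℂ, ¬ Nondeg (frm a) → eval a Δ = 0 :=
    fun a ha => (hΔ.eval_eq_zero_iff a).2 ha
  -- `Δ` divides `DH I`
  have h1 : Δ ∣ DH I := by
    rw [← Ideal.mem_span_singleton, ← hpi.radical, ← vanishingIdeal_zeroLocus_eq_radical (K := ℂ),
      mem_vanishingIdeal_iff]
    intro a ha
    rw [aeval_eq_eval]
    apply eval_DH_eq_zero hn hd
    rw [← hΔ.eval_eq_zero_iff]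
    have := ha Δ (Ideal.mem_span_singleton_self Δ)
    rwa [aeval_eq_eval] at this
  obtain ⟨E, hE⟩ := h1
  have hEn : ¬ Δ ∣ E := by
    rintro ⟨E', hE'⟩
    apply hkey Δ hvan
    rw [hE, hE']
    exact ⟨E', by ring⟩
  have hE0 : E ≠ 0 := by
    rintro rfl
    exact hEn (dvd_zero _)
  -- a power of `Δ` lies in the ideal of all the determinants
  have h2 : ∃ k : ℕ, Δ ^ k ∈ Ideal.span (Set.range (fun J : Ch (m + 1) d => DH J)) := by
    have h3 : Δ ∈ (Ideal.span (Set.range (fun J : Ch (m + 1) d => DH J))).radical := by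
      rw [← vanishingIdeal_zeroLocus_eq_radical (K := ℂ), mem_vanishingIdeal_iff]
      intro a ha
      rw [aeval_eq_eval]
      apply hvan
      intro hnd
      obtain ⟨J, hJ⟩ := exists_DH_ne_zero hn hd a hnd
      apply hJ
      have := ha (DH J) (Ideal.subset_span ⟨J, rfl⟩)
      rwa [aeval_eq_eval] at this
    exact h3
  obtain ⟨k, hk⟩ := h2
  have h4 : ∀ b, E ∣ DV I b := by
    intro b
    apply dvd_of_dvd_mul_pow hprime hEn k
    have h5 : ∀ x ∈ Ideal.span (Set.range (fun J : Ch (m + 1) d => DH J)),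
        E ∣ DV I b * x := by
      intro x hx
      refine Submodule.span_induction ?_ ?_ ?_ ?_ hx
      · rintro _ ⟨J, rfl⟩
        refine ⟨DV J b * Δ, ?_⟩
        simp only
        rw [DV_mul_DH hn hd I J b, hE]
        ring
      · rw [mul_zero]; exact dvd_zero _
      · intro x y _ _ hx hy
        rw [mul_add]; exact dvd_add hx hy
      · intro c x _ hx
        rw [smul_eq_mul, mul_left_comm]
        exact hx.mul_left c
    exact h5 _ hk
  choose Q hQ using h4
  refine ⟨fun b => C (Nat.multinomial Finset.univ (b.1 : Fin (m + 1) → ℕ) : ℂ) * Q b, ?_⟩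
  intro a ha G hG
  obtain ⟨μ, hμ⟩ := exists_soc (by omega) (frm_isHomogeneous a) ha
  rw [(assoc_iff hμ G).1 hG]
  obtain ⟨J, hJ⟩ := exists_DH_ne_zero hn hd a ha
  have h6 : ∀ b, eval a (Q b) = eval a Δ * μ (monomial b.1 1) := by
    intro b
    have h7 : Q b * DH J = DV J b * Δ := by
      apply mul_left_cancel₀ hE0
      have h8 := DV_mul_DH hn hd I J b
      rw [hQ b, hE] at h8
      linear_combination h8
    have h9 := congrArg (eval a) h7
    rw [map_mul, map_mul, eval_DV_eq hn hd J b a μ hμ] at h9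
    apply mul_right_cancel₀ hJ
    rw [h9]
    ring
  unfold frm
  rw [Finset.mul_sum]
  apply Finset.sum_congr rfl
  intro b _
  rw [C_mul_monomial]
  congr 1
  change eval a (C (Nat.multinomial Finset.univ (b.1 : Fin (m + 1) → ℕ) : ℂ) * Q b) = _
  rw [map_mul, eval_C, h6, pow_one]
  unfold asc
  ring

end

end Pool.V1148.AF
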