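import Pool.Agent.V1148.AF12

/-!
# Irreducibility of the locus of degenerate forms
-/

set_option autoImplicit false

open MvPolynomial

namespace Pool.V1148.AF

section

variable {n d : ℕ}

/-- Linear substitution. -/
noncomputable def sbs {R : Type*} [CommRing R] (h : Matrix (Fin n) (Fin n) R) :
    MvPolynomial (Fin n) R →ₐ[R] MvPolynomial (Fin n) R :=
  aeval (fun i => ∑ j, C (h i j) * X j)

theorem sbs_X {R : Type*} [CommRing R] (h : Matrix (Fin n) (Fin n) R) (i : Fin n) :
    sbs h (X i) = ∑ j, C (h i j) * X j := by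
  unfold sbs
  rw [aeval_X]

theorem map_sbs {R S : Type*} [CommRing R] [CommRing S] (φ : R →+* S)
    (h : Matrix (Fin n) (Fin n) R) (f : MvPolynomial (Fin n) R) :
    map φ (sbs h f) = sbs (h.map φ) (map φ f) := by
  induction f using MvPolynomial.induction_on with
  | C a => simp [sbs]
  | add p q hp hq => rw [map_add, map_add, map_add, map_add, hp, hq]
  | mul_X p i hp =>
    rw [map_mul, map_mul, map_mul, map_mul, hp, sbs_X, map_X, sbs_X, map_sum]
    simp

theorem eval_sbs {R : Type*} [CommRing R] (h : Matrix (Fin n) (Fin n) R) (P : Fin n → R)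
    (f : MvPolynomial (Fin n) R) : eval P (sbs h f) = eval (h.mulVec P) f := by
  induction f using MvPolynomial.induction_on with
  | C a => simp [sbs]
  | add p q hp hq => rw [map_add, map_add, map_add, hp, hq]
  | mul_X p i hp =>
    rw [map_mul, map_mul, map_mul, hp, sbs_X, eval_X, map_sum]
    simp [Matrix.mulVec, dotProduct]

theorem sbs_sbs {R : Type*} [CommRing R] (h h' : Matrix (Fin n) (Fin n) R)
    (f : MvPolynomial (Fin n) R) : sbs h' (sbs h f) = sbs (h * h') f := by
  have h1 : (sbs h').comp (sbs h) = sbs (h * h') := by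
    apply MvPolynomial.algHom_ext
    intro i
    rw [AlgHom.comp_apply, sbs_X, sbs_X, map_sum]
    have h2 : ∀ j, sbs h' (C (h i j) * X j) = ∑ k, C (h i j * h' j k) * X k := by
      intro j
      rw [map_mul, sbs_X, Finset.mul_sum]
      have h3 : sbs h' (C (h i j)) = C (h i j) := by simp [sbs]
      rw [h3]
      apply Finset.sum_congr rfl
      intro k _
      rw [C_mul]
      ring
    rw [Finset.sum_congr rfl (fun j _ => h2 j), Finset.sum_comm]
    apply Finset.sum_congr rfl
    intro k _
    rw [← Finset.sum_mul, ← map_sum]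
    rfl
  exact DFunLike.congr_fun h1 f

theorem sbs_one {R : Type*} [CommRing R] (f : MvPolynomial (Fin n) R) :
    sbs (1 : Matrix (Fin n) (Fin n) R) f = f := by
  have h1 : sbs (1 : Matrix (Fin n) (Fin n) R) = AlgHom.id R _ := by
    apply MvPolynomial.algHom_ext
    intro i
    rw [sbs_X, Finset.sum_eq_single i]
    · simp
    · intro j _ hj
      rw [Matrix.one_apply_ne (Ne.symm hj), C_0, zero_mul]
    · intro h
      exact absurd (Finset.mem_univ _) h
  exact DFunLike.congr_fun h1 f

theorem sbs_isHomogeneous {R : Type*} [CommRing R] (h : Matrix (Fin n) (Fin n) R)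
    {f : MvPolynomial (Fin n) R} (hf : f.IsHomogeneous d) : (sbs h f).IsHomogeneous d := by
  have h1 : ∀ i, (∑ j, C (h i j) * X j : MvPolynomial (Fin n) R).IsHomogeneous 1 := by
    intro i
    apply IsHomogeneous.sum
    intro j _
    have := (isHomogeneous_C (Fin n) (h i j)).mul (isHomogeneous_X R j)
    rwa [zero_add] at this
  have h2 := hf.aeval (fun i => ∑ j, C (h i j) * X j) h1
  rw [one_mul] at h2
  exact h2

theorem pderiv_sbs {R : Type*} [CommRing R] (h : Matrix (Fin n) (Fin n) R)
    (f : MvPolynomial (Fin n) R) (j : Fin n) :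
    pderiv j (sbs h f) = ∑ i, C (h i j) * sbs h (pderiv i f) := by
  induction f using MvPolynomial.induction_on with
  | C a => simp [sbs]
  | add p q hp hq =>
    rw [map_add, map_add, hp, hq, ← Finset.sum_add_distrib]
    apply Finset.sum_congr rfl
    intro i _
    rw [map_add, map_add, mul_add]
  | mul_X p k hp =>
    have h1 : pderiv j (sbs h (X k)) = C (h k j) := by
      rw [sbs_X, map_sum, Finset.sum_eq_single j]
      · rw [pderiv_C_mul, pderiv_X_self, mul_one]
      · intro l _ hl
        rw [pderiv_C_mul, pderiv_X_of_ne hl, mul_zero]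
      · intro h
        exact absurd (Finset.mem_univ _) h
    rw [map_mul, pderiv_mul, hp, h1]
    have h2 : ∀ i, C (h i j) * sbs h (pderiv i (p * X k)) =
        C (h i j) * sbs h (pderiv i p) * sbs h (X k) +
          (if i = k then sbs h p * C (h k j) else 0) := by
      intro i
      rw [pderiv_mul]
      by_cases hik : i = k
      · subst hik
        rw [pderiv_X_self, if_pos rfl, map_add, map_mul, map_mul, map_one]
        ring
      · rw [pderiv_X_of_ne (Ne.symm hik), if_neg hik, map_add, map_mul, mul_zero, map_zero]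
        ring
    rw [Finset.sum_congr rfl (fun i _ => h2 i), Finset.sum_add_distrib, Finset.sum_mul,
      Finset.sum_ite_eq' Finset.univ k, if_pos (Finset.mem_univ _)]

theorem eval_single_of_isHomogeneous {R : Type*} [CommRing R] {k : ℕ} (l : Fin n)
    {g : MvPolynomial (Fin n) R} (hg : g.IsHomogeneous k) :
    eval (Pi.single l 1) g = coeff (Finsupp.single l k) g := by
  classical
  conv_lhs => rw [← frm_coeff g hg]
  unfold frm
  rw [map_sum, Finset.sum_eq_single (⟨Finsupp.single l k, Finsupp.degree_single _ _⟩ : Mon n k)]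
  · rw [eval_monomial, Finsupp.prod_single_index (by simp)]
    simp
  · intro b _ hb
    rw [eval_monomial]
    have h1 : ∃ i, i ≠ l ∧ b.1 i ≠ 0 := by
      by_contra hcon
      push Not at hcon
      apply hb
      apply Subtype.ext
      have h2 := b.2
      rw [Finsupp.degree_eq_sum, Finset.sum_eq_single l (fun i _ hi => hcon i hi)
        (fun h => absurd (Finset.mem_univ _) h)] at h2
      ext i
      by_cases hi : i = l
      · subst hi
        rw [h2]; simp
      · rw [hcon i hi]
        simp [Ne.symm hi]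
    obtain ⟨i, hi, hi2⟩ := h1
    rw [Finsupp.prod_fintype _ _ (by intro i; simp)]
    rw [Finset.prod_eq_zero (Finset.mem_univ i), mul_zero]
    rw [Pi.single_eq_of_ne hi, zero_pow hi2]
  · intro h
    exact absurd (Finset.mem_univ _) h

/-- The exponents of the monomials `z_l^(d-1) z_i`. -/
def Spec (l : Fin n) (b : Mon n d) : Prop :=
  ∃ i, b.1 = Finsupp.single l (d - 1) + Finsupp.single i 1

theorem eval_pderiv_single (l i : Fin n) {f : MvPolynomial (Fin n) ℂ}
    (hf : f.IsHomogeneous d) :
    eval (Pi.single l 1) (pderiv i f) = 0 ↔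
      coeff (Finsupp.single l (d - 1) + Finsupp.single i 1) f = 0 := by
  rw [eval_single_of_isHomogeneous l (hf.pderiv (i := i)), coeff_pderiv, mul_eq_zero]
  constructor
  · rintro (h | h)
    · exact h
    · exfalso
      have : ((Finsupp.single l (d - 1) i + 1 : ℕ) : ℂ) ≠ 0 := Nat.cast_ne_zero.2 (by omega)
      apply this
      rw [← h]
      push_cast
      ring
  · intro h
    exact Or.inl h

open Classical in
/-- Remove the special coefficients. -/
noncomputable def cut {R : Type*} [CommRing R] (l : Fin n) (b : Mon n d → R) : Mon n d → R :=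
  fun m => if Spec l m then 0 else b m

theorem cut_singular (hd : 3 ≤ d) (l : Fin n) (b : Mon n d → ℂ) (i : Fin n) :
    eval (Pi.single l 1) (pderiv i (frm (cut l b))) = 0 := by
  rw [eval_pderiv_single l i (frm_isHomogeneous _)]
  have h1 : (Finsupp.single l (d - 1) + Finsupp.single i 1).degree = d := by
    rw [map_add, Finsupp.degree_single, Finsupp.degree_single]
    omega
  have h2 := coeff_frm (cut l b) ⟨_, h1⟩
  rw [h2]
  unfold cut
  rw [if_pos ⟨i, rfl⟩]

theorem image_degenerate (hd : 3 ≤ d) (l : Fin n) (h : Matrix (Fin n) (Fin n) ℂ)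
    (b : Mon n d → ℂ) : ¬ Nondeg (sbs h (frm (cut l b))) := by
  intro hnd
  have key : ∀ P : Fin n → ℂ, (∀ i, eval (h.mulVec P) (pderiv i (frm (cut l b))) = 0) →
      P = 0 := by
    intro P hP
    apply hnd
    intro j
    rw [pderiv_sbs, map_sum]
    apply Finset.sum_eq_zero
    intro i _
    rw [map_mul, eval_sbs, hP i, mul_zero]
  by_cases hdet : h.det = 0
  · obtain ⟨P, hP, hP2⟩ := Matrix.exists_mulVec_eq_zero_iff.2 hdet
    apply hP
    apply key
    intro i
    rw [hP2]
    have h1 := (frm_isHomogeneous (cut l b)).pderiv (i := i)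
    have h2 : eval (0 : Fin n → ℂ) (pderiv i (frm (cut l b))) =
        coeff 0 (pderiv i (frm (cut l b))) := by
      rw [← constantCoeff_eq, ← eval_zero]
    rw [h2]
    apply h1.coeff_eq_zero
    rw [map_zero]
    omega
  · have hu : IsUnit h.det := isUnit_iff_ne_zero.2 hdet
    have h1 := key (h⁻¹.mulVec (Pi.single l 1)) (by
      intro i
      rw [Matrix.mulVec_mulVec, Matrix.mul_nonsing_inv _ hu, Matrix.one_mulVec]
      exact cut_singular hd l b i)
    have h2 : h.mulVec (h⁻¹.mulVec (Pi.single l 1)) = h.mulVec 0 := by rw [h1]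
    rw [Matrix.mulVec_mulVec, Matrix.mul_nonsing_inv _ hu, Matrix.one_mulVec,
      Matrix.mulVec_zero] at h2
    have h3 := congrFun h2 l
    rw [Pi.single_eq_same] at h3
    exact one_ne_zero h3

theorem exists_matrix_pair (l : Fin n) (P : Fin n → ℂ) (hP : P ≠ 0) :
    ∃ h h' : Matrix (Fin n) (Fin n) ℂ, h * h' = 1 ∧ h.mulVec (Pi.single l 1) = P := by
  have hl : (Pi.single l 1 : Fin n → ℂ) ≠ 0 := by
    intro h
    have := congrFun h l
    rw [Pi.single_eq_same] at this
    exact one_ne_zero this
  obtain ⟨A, hA⟩ := SeparatingDual.exists_continuousLinearEquiv_apply_eq (R := ℂ) hl hP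
  refine ⟨LinearMap.toMatrix' (A : (Fin n → ℂ) →ₗ[ℂ] (Fin n → ℂ)),
    LinearMap.toMatrix' (A.symm : (Fin n → ℂ) →ₗ[ℂ] (Fin n → ℂ)), ?_, ?_⟩
  · rw [← LinearMap.toMatrix'_comp]
    have : (A : (Fin n → ℂ) →ₗ[ℂ] (Fin n → ℂ)) ∘ₗ
        (A.symm : (Fin n → ℂ) →ₗ[ℂ] (Fin n → ℂ)) = LinearMap.id := by
      apply LinearMap.ext
      intro x
      simp
    rw [this, LinearMap.toMatrix'_id]
  · rw [LinearMap.toMatrix'_mulVec]
    simpa using hA

theorem degenerate_in_image (hd : 3 ≤ d) (l : Fin n) (a : Mon n d → ℂ)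
    (ha : ¬ Nondeg (frm a)) :
    ∃ (h : Matrix (Fin n) (Fin n) ℂ) (b : Mon n d → ℂ), frm a = sbs h (frm (cut l b)) := by
  unfold Nondeg at ha
  push Not at ha
  obtain ⟨P, h0, hP⟩ := ha
  obtain ⟨h, h', hh, hl⟩ := exists_matrix_pair l P hP
  set f' := sbs h (frm a) with hf'
  have hf'h : f'.IsHomogeneous d := sbs_isHomogeneous h (frm_isHomogeneous a)
  have h1 : ∀ j, eval (Pi.single l 1) (pderiv j f') = 0 := by
    intro j
    rw [hf', pderiv_sbs, map_sum]
    apply Finset.sum_eq_zero
    intro i _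
    rw [map_mul, eval_sbs, hl, h0 i, mul_zero]
  refine ⟨h', fun m => coeff m.1 f', ?_⟩
  have h2 : cut l (fun m : Mon n d => coeff m.1 f') = fun m : Mon n d => coeff m.1 f' := by
    funext m
    unfold cut
    split_ifs with hm
    · obtain ⟨i, hi⟩ := hm
      rw [hi]
      exact ((eval_pderiv_single l i hf'h).1 (h1 i)).symm
    · rfl
  rw [h2, frm_coeff f' hf'h, hf', sbs_sbs, hh, sbs_one]

/-- The polynomials vanishing on the degenerate forms. -/
def IZ (n d : ℕ) : Ideal (MvPolynomial (Mon n d) ℂ) where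
  carrier := {p | ∀ a : Mon n d → ℂ, ¬ Nondeg (frm a) → eval a p = 0}
  zero_mem' := by
    intro a _
    rw [map_zero]
  add_mem' := by
    intro p q hp hq a ha
    rw [map_add, hp a ha, hq a ha, add_zero]
  smul_mem' := by
    intro c p hp a ha
    rw [smul_eq_mul, map_mul, hp a ha, mul_zero]

theorem mem_IZ {p : MvPolynomial (Mon n d) ℂ} :
    p ∈ IZ n d ↔ ∀ a : Mon n d → ℂ, ¬ Nondeg (frm a) → eval a p = 0 := Iff.rfl

/-- Parameters. -/
abbrev Par (n d : ℕ) : Type := (Fin n × Fin n) ⊕ Mon n d

/-- The universal member of the image of the parametrisation. -/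
noncomputable def univF (l : Fin n) (d : ℕ) :
    MvPolynomial (Fin n) (MvPolynomial (Par n d) ℂ) :=
  sbs (Matrix.of fun i j => X (Sum.inl (i, j))) (frm (cut l (fun m : Mon n d => X (Sum.inr m))))

/-- The pull back to the parameters. -/
noncomputable def pull (l : Fin n) (d : ℕ) :
    MvPolynomial (Mon n d) ℂ →ₐ[ℂ] MvPolynomial (Par n d) ℂ :=
  aeval (fun m => coeff m.1 (univF l d))

theorem map_univF (l : Fin n) (x : Par n d → ℂ) :
    map (eval x) (univF l d) = sbs (Matrix.of fun i j => x (Sum.inl (i, j)))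
      (frm (cut l (fun m : Mon n d => x (Sum.inr m)))) := by
  unfold univF
  rw [map_sbs, map_frm]
  congr 2
  · ext i j
    simp
  · funext m
    unfold cut
    split_ifs <;> simp

theorem eval_pull (l : Fin n) (x : Par n d → ℂ) (p : MvPolynomial (Mon n d) ℂ) :
    eval x (pull l d p) = eval (fun m => coeff m.1 (map (eval x) (univF l d))) p := by
  have h : (eval x).comp (pull l d).toRingHom =
      eval (fun m => coeff m.1 (map (eval x) (univF l d))) := by
    apply MvPolynomial.ringHom_ext
    · intro r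
      simp [pull]
    · intro m
      simp [pull, coeff_map]
  exact DFunLike.congr_fun h p

theorem pull_eq_zero_iff (hd : 3 ≤ d) (l : Fin n) (p : MvPolynomial (Mon n d) ℂ) :
    pull l d p = 0 ↔ p ∈ IZ n d := by
  constructor
  · intro h a ha
    obtain ⟨g, b, hgb⟩ := degenerate_in_image hd l a ha
    have h1 := eval_pull l (Sum.elim (fun ij : Fin n × Fin n => g ij.1 ij.2) b) p
    rw [h, map_zero, map_univF] at h1
    have h2 : (Matrix.of fun i j => Sum.elim (fun ij : Fin n × Fin n => g ij.1 ij.2) b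
        (Sum.inl (i, j))) = g := by
      ext i j; rfl
    have h3 : (fun m : Mon n d => Sum.elim (fun ij : Fin n × Fin n => g ij.1 ij.2) b
        (Sum.inr m)) = b := by
      funext m; rfl
    rw [h2, h3, ← hgb] at h1
    have h4 : (fun m : Mon n d => coeff m.1 (frm a)) = a := by
      funext m; exact coeff_frm a m
    rw [h4] at h1
    exact h1.symm
  · intro h
    apply MvPolynomial.funext
    intro x
    rw [eval_pull, map_zero]
    apply h
    rw [map_univF, frm_coeff _ (sbs_isHomogeneous _ (frm_isHomogeneous _))]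
    exact image_degenerate hd l _ _

theorem IZ_prime (hd : 3 ≤ d) (l : Fin n) : (IZ n d).IsPrime := by
  have h : IZ n d = RingHom.ker (pull l d).toRingHom := by
    ext p
    rw [RingHom.mem_ker]
    exact (pull_eq_zero_iff hd l p).symm
  rw [h]
  exact RingHom.ker_isPrime _

end

theorem exists_discriminant {m d : ℕ} (hd : 3 ≤ d) (hm : 1 ≤ m) :
    ∃ Δ, IsDiscriminant (m + 1) d Δ := by
  have hn : 2 ≤ m + 1 := by omega
  obtain ⟨I, hI⟩ := exists_mac (m := m) hd
  obtain ⟨⟨a0, ha0, ha1⟩, hkey⟩ := key_facts hd hm I hI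
  have hD0 : DH I ≠ 0 := by
    intro h
    apply hkey 0 (by intro a _; rw [map_zero])
    rw [h]
    exact dvd_zero _
  have hDZ : DH I ∈ IZ (m + 1) d := fun a ha => eval_DH_eq_zero hn hd I a ha
  have hprime := IZ_prime (n := m + 1) hd (0 : Fin (m + 1))
  obtain ⟨s, hs, hs2⟩ := WfDvdMonoid.exists_factors (DH I) hD0
  have h1 : s.prod ∈ IZ (m + 1) d := by
    obtain ⟨u, hu⟩ := hs2.symm
    rw [← hu]
    exact Ideal.mul_mem_right _ _ hDZ
  obtain ⟨Δ, hΔs, hΔZ⟩ := (hprime.multiset_prod_mem_iff_exists_mem s).1 h1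
  have hirr := hs Δ hΔs
  refine ⟨Δ, hirr, ?_⟩
  intro a
  constructor
  · intro ha hnd
    obtain ⟨J, hJ⟩ := exists_DH_ne_zero hn hd a hnd
    have h2 : Δ ∣ DH I := by
      have := Multiset.dvd_prod hΔs
      exact this.trans hs2.dvd
    have h3 : Δ ∣ DV I (bstar (m + 1) d) * DH J := by
      rw [DV_mul_DH hn hd I J]
      exact h2.mul_left _
    rcases hirr.prime.dvd_or_dvd h3 with ⟨q, hq⟩ | ⟨q, hq⟩
    · apply ha1
      rw [hq, map_mul, hΔZ a0 ha0, zero_mul]
    · apply hJ
      rw [hq, map_mul, ha, zero_mul]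
  · intro ha
    exact hΔZ a ha

end Pool.V1148.AF
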