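import Pool.Agent.V1148.AF1

/-!
# The syzygies of `X_k - w_k` are Koszul
-/

set_option autoImplicit false

open MvPolynomial

namespace Pool.V1148.AF

variable {R : Type*} [CommRing R] {n : ℕ}

theorem mem_span_of_mul_X_mem (s : Finset (Fin n)) (a : Fin n) (ha : a ∉ s)
    (p : MvPolynomial (Fin n) R) (h : p * X a ∈ Ideal.span (X '' (s : Set (Fin n)))) :
    p ∈ Ideal.span (X '' (s : Set (Fin n)) : Set (MvPolynomial (Fin n) R)) := by
  rw [mem_ideal_span_X_image] at h ⊢
  intro m hm
  have h1 : m + Finsupp.single a 1 ∈ (p * X a).support := by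
    rw [mem_support_iff, coeff_mul_X]
    exact mem_support_iff.1 hm
  obtain ⟨i, hi, hi2⟩ := h _ h1
  refine ⟨i, hi, ?_⟩
  have hia : i ≠ a := by
    intro h; subst h; exact ha hi
  simpa [Finsupp.single_apply, Ne.symm hia] using hi2

theorem exists_coeffs_of_mem_span (s : Finset (Fin n)) (p : MvPolynomial (Fin n) R)
    (h : p ∈ Ideal.span (X '' (s : Set (Fin n)) : Set (MvPolynomial (Fin n) R))) :
    ∃ b : Fin n → MvPolynomial (Fin n) R, p = ∑ l ∈ s, b l * X l := by
  induction s using Finset.induction_on generalizing p with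
  | empty =>
    simp only [Finset.coe_empty, Set.image_empty, Ideal.span_empty, Ideal.mem_bot] at h
    exact ⟨0, by simp [h]⟩
  | insert a s ha ih =>
    rw [Finset.coe_insert, Set.image_insert_eq, Ideal.mem_span_insert] at h
    obtain ⟨c, z, hz, hp⟩ := h
    obtain ⟨b, hb⟩ := ih z hz
    refine ⟨Function.update b a c, ?_⟩
    rw [Finset.sum_insert ha, Function.update_self, hp, hb]
    congr 1
    apply Finset.sum_congr rfl
    intro l hl
    rw [Function.update_of_ne]
    intro h; subst h; exact ha hl

theorem koszul_X_aux (s : Finset (Fin n)) (r : Fin n → MvPolynomial (Fin n) R)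
    (h : ∑ k ∈ s, r k * X k = 0) :
    ∃ c : Fin n → Fin n → MvPolynomial (Fin n) R,
      ∀ k ∈ s, r k = ∑ l ∈ s, (c k l - c l k) * X l := by
  induction s using Finset.induction_on generalizing r with
  | empty => exact ⟨0, by simp⟩
  | insert a s ha ih =>
    rw [Finset.sum_insert ha] at h
    have h1 : r a * X a ∈ Ideal.span (X '' (s : Set (Fin n)) :
        Set (MvPolynomial (Fin n) R)) := by
      rw [eq_neg_of_add_eq_zero_left h]
      rw [Ideal.neg_mem_iff]
      apply Ideal.sum_mem
      intro k hk
      exact Ideal.mul_mem_left _ _ (Ideal.subset_span ⟨k, hk, rfl⟩)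
    obtain ⟨b, hb⟩ := exists_coeffs_of_mem_span s (r a) (mem_span_of_mul_X_mem s a ha _ h1)
    have h2 : ∑ k ∈ s, (r k + b k * X a) * X k = 0 := by
      rw [← h, hb, Finset.sum_mul, ← Finset.sum_add_distrib]
      apply Finset.sum_congr rfl
      intro k _
      ring
    obtain ⟨c, hc⟩ := ih _ h2
    refine ⟨fun k l => if k = a then (if l = a then 0 else b l) else
      (if l = a then 0 else c k l), ?_⟩
    intro k hk
    rw [Finset.mem_insert] at hk
    rcases hk with hk | hk
    · subst hk
      rw [Finset.sum_insert ha]
      simp only [if_true, sub_self, zero_mul, zero_add]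
      rw [hb]
      apply Finset.sum_congr rfl
      intro l hl
      have hl2 : l ≠ k := by intro h; subst h; exact ha hl
      simp [hl2]
    · have hka : k ≠ a := by intro h; subst h; exact ha hk
      rw [Finset.sum_insert ha]
      simp only [if_true, if_neg hka]
      have h3 := hc k hk
      have h4 : ∑ l ∈ s, ((if l = a then 0 else c k l) - if l = a then (b k) else c l k) * X l
          = ∑ l ∈ s, (c k l - c l k) * X l := by
        apply Finset.sum_congr rfl
        intro l hl
        have hl2 : l ≠ a := by intro h; subst h; exact ha hl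
        simp [hl2]
      rw [h4, ← h3]
      ring

theorem koszul_X : KoszulSyz (fun k : Fin n => (X k : MvPolynomial (Fin n) R)) := by
  intro r hr
  obtain ⟨c, hc⟩ := koszul_X_aux Finset.univ r hr
  exact ⟨c, fun k => hc k (Finset.mem_univ k)⟩

/-- translation by `w`. -/
noncomputable def trans (w : Fin n → R) : MvPolynomial (Fin n) R →ₐ[R] MvPolynomial (Fin n) R :=
  aeval (fun k => X k + C (w k))

theorem trans_neg_trans (w : Fin n → R) (p : MvPolynomial (Fin n) R) :
    trans (fun k => - w k) (trans w p) = p := by
  have h : (trans (fun k => - w k)).comp (trans w) = AlgHom.id R _ := by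
    apply MvPolynomial.algHom_ext
    intro i
    simp [trans]
  exact DFunLike.congr_fun h p

theorem koszul_X_sub_C (w : Fin n → R) :
    KoszulSyz (fun k : Fin n => (X k - C (w k) : MvPolynomial (Fin n) R)) := by
  intro r hr
  have h1 : ∑ k, trans w (r k) * X k = 0 := by
    have := congrArg (trans w) hr
    rw [map_sum, map_zero] at this
    rw [← this]
    apply Finset.sum_congr rfl
    intro k _
    rw [map_mul]
    simp [trans]
  obtain ⟨c, hc⟩ := koszul_X _ h1
  refine ⟨fun k l => trans (fun k => - w k) (c k l), ?_⟩
  intro k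
  have h2 := congrArg (trans (fun k => - w k)) (hc k)
  rw [trans_neg_trans, map_sum] at h2
  rw [h2]
  apply Finset.sum_congr rfl
  intro l _
  rw [map_mul, map_sub]
  simp [trans, sub_eq_add_neg]

/-- a polynomial vanishing at `w` is a combination of the `X_k - w_k`. -/
theorem exists_sum_of_eval_eq_zero (w : Fin n → R) (p : MvPolynomial (Fin n) R)
    (hp : eval w p = 0) :
    ∃ b : Fin n → MvPolynomial (Fin n) R, p = ∑ k, b k * (X k - C (w k)) := by
  have h1 : trans w p ∈ Ideal.span (X '' ((Finset.univ : Finset (Fin n)) : Set (Fin n)) :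
      Set (MvPolynomial (Fin n) R)) := by
    rw [mem_ideal_span_X_image]
    intro m hm
    by_contra hcon
    push Not at hcon
    have hm0 : m = 0 := by
      ext i
      exact hcon i (by simp)
    subst hm0
    rw [mem_support_iff] at hm
    apply hm
    rw [← hp]
    have : (constantCoeff (R := R) (σ := Fin n)).comp (trans w).toRingHom = eval w := by
      apply MvPolynomial.ringHom_ext
      · intro r; simp [trans]
      · intro i; simp [trans]
    have h2 := DFunLike.congr_fun this p
    rw [← h2]
    simp [constantCoeff_eq]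
  obtain ⟨b, hb⟩ := exists_coeffs_of_mem_span Finset.univ _ h1
  refine ⟨fun k => trans (fun k => - w k) (b k), ?_⟩
  have h2 := congrArg (trans (fun k => - w k)) hb
  rw [trans_neg_trans, map_sum] at h2
  rw [h2]
  apply Finset.sum_congr rfl
  intro k _
  rw [map_mul]
  simp [trans, sub_eq_add_neg]

end Pool.V1148.AF
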