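import Pool.Agent.V1148.AF2

/-!
# The socle of a complete intersection of equal degrees
-/

set_option autoImplicit false

open MvPolynomial

namespace Pool.V1148.AF

variable {R : Type*} [CommRing R] {n : ℕ}

/-- exponent `(N-1,...,N-1)`. -/
noncomputable def ee (n N : ℕ) : Fin n →₀ ℕ := Finsupp.equivFunOnFinite.symm (fun _ => N - 1)

theorem ee_apply (N : ℕ) (i : Fin n) : ee n N i = N - 1 := rfl

theorem ee_degree (n N : ℕ) : (ee n N).degree = n * (N - 1) := by
  rw [Finsupp.degree_eq_sum]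
  simp [ee_apply]

theorem coeff_ee_of_mem {N : ℕ} (hN : 0 < N) {g : MvPolynomial (Fin n) R}
    (hg : g ∈ Ideal.span (Set.range (fun i : Fin n => (X i ^ N : MvPolynomial (Fin n) R)))) :
    coeff (ee n N) g = 0 := by
  obtain ⟨c, rfl⟩ := Ideal.mem_span_range_iff_exists_fun.1 hg
  rw [coeff_sum]
  apply Finset.sum_eq_zero
  intro i _
  rw [X_pow_eq_monomial, coeff_mul_monomial', if_neg]
  intro h
  have := h i
  simp [ee_apply] at this
  omega

/-- The functional `h ↦ coeff (h det A)`. -/
noncomputable def lam (N : ℕ) (A : Matrix (Fin n) (Fin n) (MvPolynomial (Fin n) R)) :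
    MvPolynomial (Fin n) R →ₗ[R] R :=
  (lcoeff R (ee n N)).comp ((LinearMap.mul R _).flip A.det)

theorem lam_apply (N : ℕ) (A : Matrix (Fin n) (Fin n) (MvPolynomial (Fin n) R))
    (h : MvPolynomial (Fin n) R) : lam N A h = coeff (ee n N) (h * A.det) := rfl

theorem lam_mul_F {N : ℕ} (hN : 0 < N) (A : Matrix (Fin n) (Fin n) (MvPolynomial (Fin n) R))
    (F : Fin n → MvPolynomial (Fin n) R) (hA : ∀ i, X i ^ N = ∑ j, A i j * F j)
    (h : MvPolynomial (Fin n) R) (j : Fin n) : lam N A (h * F j) = 0 := by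
  rw [lam_apply]
  apply coeff_ee_of_mem hN
  have h1 : A.det * F j = ∑ i, A.adjugate j i * X i ^ N := by
    have h2 : (A.adjugate * A).mulVec F j = A.det * F j := by
      rw [Matrix.adjugate_mul, Matrix.smul_mulVec, Matrix.one_mulVec]
      simp
    rw [← h2, ← Matrix.mulVec_mulVec]
    simp only [Matrix.mulVec, dotProduct]
    apply Finset.sum_congr rfl
    intro i _
    rw [hA i]
  rw [mul_assoc, mul_comm (F j), h1]
  apply Ideal.mul_mem_left
  apply Ideal.sum_mem
  intro i _
  exact Ideal.mul_mem_left _ _ (Ideal.subset_span ⟨i, rfl⟩)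

theorem lam_of_mem {N : ℕ} (hN : 0 < N) (A : Matrix (Fin n) (Fin n) (MvPolynomial (Fin n) R))
    (F : Fin n → MvPolynomial (Fin n) R) (hA : ∀ i, X i ^ N = ∑ j, A i j * F j)
    (h : MvPolynomial (Fin n) R) (hh : h ∈ Ideal.span (Set.range F)) : lam N A h = 0 := by
  obtain ⟨c, rfl⟩ := Ideal.mem_span_range_iff_exists_fun.1 hh
  rw [map_sum]
  apply Finset.sum_eq_zero
  intro i _
  exact lam_mul_F hN A F hA _ _

/-- The Jacobian matrix. -/
noncomputable def jacM (F : Fin n → MvPolynomial (Fin n) R) :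
    Matrix (Fin n) (Fin n) (MvPolynomial (Fin n) R) := Matrix.of fun j k => pderiv k (F j)

theorem lam_jac {N δ : ℕ} (hN : 0 < N) (A : Matrix (Fin n) (Fin n) (MvPolynomial (Fin n) R))
    (F : Fin n → MvPolynomial (Fin n) R) (hF : ∀ j, (F j).IsHomogeneous δ)
    (hA : ∀ i, X i ^ N = ∑ j, A i j * F j) : lam N A (jacM F).det = (δ : R) ^ n := by
  set P : Matrix (Fin n) (Fin n) (MvPolynomial (Fin n) R) :=
    Matrix.diagonal (fun i => C (δ : R) * X i ^ (N - 1)) with hP
  have hPx : P.mulVec (fun k => X k) = fun i => C (δ : R) * X i ^ N := by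
    funext i
    rw [hP, Matrix.mulVec_diagonal, mul_assoc, ← pow_succ, Nat.sub_add_cancel hN]
  have hDF : (jacM F).mulVec (fun k => X k) = fun j => C (δ : R) * F j := by
    funext j
    have := (hF j).sum_X_mul_pderiv
    simp only [Matrix.mulVec, dotProduct, jacM, Matrix.of_apply]
    rw [nsmul_eq_mul] at this
    rw [show (C (δ : R) : MvPolynomial (Fin n) R) = (δ : MvPolynomial (Fin n) R) by simp, ← this]
    apply Finset.sum_congr rfl
    intro k _
    ring
  have hQx : (A * jacM F).mulVec (fun k => X k) = fun i => C (δ : R) * X i ^ N := by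
    rw [← Matrix.mulVec_mulVec, hDF]
    funext i
    simp only [Matrix.mulVec, dotProduct]
    rw [hA i, Finset.mul_sum]
    apply Finset.sum_congr rfl
    intro j _
    ring
  have hw := wiebe koszul_X P (A * jacM F) (by rw [hPx, hQx])
  have hle : Ideal.span (Set.range (P.mulVec (fun k => X k))) ≤
      Ideal.span (Set.range (fun i : Fin n => (X i ^ N : MvPolynomial (Fin n) R))) := by
    rw [Ideal.span_le]
    rintro _ ⟨i, rfl⟩
    rw [hPx]
    exact Ideal.mul_mem_left _ _ (Ideal.subset_span ⟨i, rfl⟩)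
  have h0 := coeff_ee_of_mem hN (hle hw)
  rw [coeff_sub, sub_eq_zero, Matrix.det_mul, mul_comm] at h0
  rw [lam_apply, ← h0, hP, Matrix.det_diagonal, Finset.prod_mul_distrib, Finset.prod_const,
    Finset.card_univ, Fintype.card_fin, ← C_pow, coeff_C_mul]
  have h1 : (∏ i : Fin n, (X i ^ (N - 1) : MvPolynomial (Fin n) R)) = monomial (ee n N) 1 := by
    rw [monomial_eq, C_1, one_mul, Finsupp.prod_fintype _ _ (by intro i; simp)]
    rfl
  rw [h1, coeff_monomial, if_pos rfl, mul_one]

theorem det_isHomogeneous {k : ℕ} (M : Matrix (Fin n) (Fin n) (MvPolynomial (Fin n) R))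
    (hM : ∀ i j, (M i j).IsHomogeneous k) : M.det.IsHomogeneous (n * k) := by
  rw [Matrix.det_apply]
  apply IsHomogeneous.sum
  intro σ _
  have h1 : (∏ i, M (σ i) i).IsHomogeneous (∑ _i : Fin n, k) :=
    IsHomogeneous.prod _ _ _ (fun i _ => hM _ _)
  rw [Finset.sum_const, Finset.card_univ, Fintype.card_fin, smul_eq_mul] at h1
  rcases Int.units_eq_one_or (Equiv.Perm.sign σ) with h | h
  · rw [h, one_smul]; exact h1
  · rw [h]
    have h2 : ((-1 : ℤˣ) • ∏ i, M (σ i) i) = - ∏ i, M (σ i) i := by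
      rw [Units.neg_smul, one_smul]
    rw [h2]
    exact h1.neg

theorem coeff_mul_of_isHomogeneous {e : Fin n →₀ ℕ} (G Y : MvPolynomial (Fin n) R)
    (hG : G.IsHomogeneous e.degree) : coeff e (G * Y) = coeff e G * constantCoeff Y := by
  rw [coeff_mul, Finset.sum_eq_single (e, 0)]
  · rfl
  · rintro ⟨a, b⟩ hab hne
    have hab : a + b = e := by simpa using hab
    by_contra hcon
    have h1 : coeff a G ≠ 0 := fun h => hcon (by rw [h, zero_mul])
    have h2 := hG h1
    have h3 : a.degree = e.degree := by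
      rw [← h2, Finsupp.degree_eq_weight_one]; rfl
    have h4 : b.degree = 0 := by
      rw [← hab, map_add] at h3
      omega
    rw [Finsupp.degree_eq_zero_iff] at h4
    subst h4
    apply hne
    rw [← hab, add_zero]
  · intro h
    exact absurd (by simp) h

/-- geometric sum. -/
noncomputable def pp (N : ℕ) (w : Fin n → R) (i : Fin n) : MvPolynomial (Fin n) R :=
  ∑ a ∈ Finset.range N, X i ^ a * C (w i) ^ (N - 1 - a)

theorem pp_mul {N : ℕ} (w : Fin n → R) (i : Fin n) (hw : w i ^ N = 0) :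
    pp N w i * (X i - C (w i)) = X i ^ N := by
  have h := (Commute.all (X i : MvPolynomial (Fin n) R) (C (w i))).geom_sum₂_mul N
  rw [← C_pow, hw, C_0, sub_zero] at h
  exact h

theorem coeff_prod_pp {N : ℕ} (hN : 0 < N) (w : Fin n → R) :
    coeff (ee n N) (∏ i, pp N w i) = 1 := by
  unfold pp
  rw [Finset.prod_univ_sum, coeff_sum]
  have h1 : ∀ p : Fin n → ℕ, ∏ i, (X i ^ (p i) * C (w i) ^ (N - 1 - p i) :
      MvPolynomial (Fin n) R) = monomial (Finsupp.equivFunOnFinite.symm p)
        (∏ i, w i ^ (N - 1 - p i)) := by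
    intro p
    rw [Finset.prod_mul_distrib, monomial_eq, Finsupp.prod_fintype _ _ (by intro i; simp),
      map_prod, mul_comm]
    simp
  rw [Finset.sum_eq_single (fun _ => N - 1)]
  · rw [h1, coeff_monomial, if_pos (by rfl)]
    simp
  · intro p _ hne
    rw [h1, coeff_monomial, if_neg]
    intro h
    apply hne
    exact Finsupp.equivFunOnFinite.symm.injective h
  · intro h
    exfalso
    apply h
    rw [Fintype.mem_piFinset]
    intro _
    rw [Finset.mem_range]
    omega

theorem coeff_mul_prod_pp {N : ℕ} (hN : 0 < N) (w : Fin n → R) (hw : ∀ i, w i ^ N = 0)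
    (g : MvPolynomial (Fin n) R) : coeff (ee n N) (g * ∏ i, pp N w i) = eval w g := by
  induction g using MvPolynomial.induction_on with
  | C a => rw [coeff_C_mul, coeff_prod_pp hN, eval_C, mul_one]
  | add p q hp hq => rw [add_mul, coeff_add, hp, hq, map_add]
  | mul_X p i hp =>
    have h1 : p * X i * ∏ i, pp N w i = C (w i) * (p * ∏ i, pp N w i) +
        (p * ∏ j ∈ Finset.univ.erase i, pp N w j) * X i ^ N := by
      rw [← pp_mul w i (hw i), ← Finset.mul_prod_erase Finset.univ _ (Finset.mem_univ i)]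
      ring
    rw [h1, coeff_add, coeff_C_mul, hp, coeff_ee_of_mem hN, add_zero, map_mul, eval_X, mul_comm]
    exact Ideal.mul_mem_left _ _ (Ideal.subset_span ⟨i, rfl⟩)

theorem socle_aux {K : Type*} [CommRing K] {N δ : ℕ} (hN : 0 < N) (hδ : 0 < δ) (hδN : δ ≤ N)
    (A : Matrix (Fin n) (Fin n) (MvPolynomial (Fin n) K))
    (F : Fin n → MvPolynomial (Fin n) K)
    (hAh : ∀ i j, (A i j).IsHomogeneous (N - δ))
    (hA : ∀ i, X i ^ N = ∑ j, A i j * F j) :
    ∃ κ : MvPolynomial (Fin n) K ⧸ Ideal.span (Set.range F),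
      ∀ h : MvPolynomial (Fin n) K, h.IsHomogeneous (n * (δ - 1)) →
        Ideal.Quotient.mk (Ideal.span (Set.range F)) h =
          Ideal.Quotient.mk (Ideal.span (Set.range F)) (C (lam N A h)) * κ := by
  set I := Ideal.span (Set.range F) with hI
  set π := Ideal.Quotient.mk I with hπ
  set ι : MvPolynomial (Fin n) K →+* MvPolynomial (Fin n) (MvPolynomial (Fin n) K ⧸ I) :=
    MvPolynomial.map (π.comp C) with hι
  set w : Fin n → MvPolynomial (Fin n) K ⧸ I := fun k => π (X k) with hw
  have hev : ∀ p, eval w (ι p) = π p := by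
    intro p
    have : (eval w).comp ι = π := by
      apply MvPolynomial.ringHom_ext
      · intro r; simp [hι]
      · intro i; simp [hι, hw]
    exact DFunLike.congr_fun this p
  have hF0 : ∀ j, eval w (ι (F j)) = 0 := by
    intro j
    rw [hev, hπ, Ideal.Quotient.eq_zero_iff_mem]
    exact Ideal.subset_span ⟨j, rfl⟩
  choose Δ hΔ using fun j => exists_sum_of_eval_eq_zero w _ (hF0 j)
  have hwN : ∀ i, w i ^ N = 0 := by
    intro i
    rw [hw, ← map_pow, hπ, Ideal.Quotient.eq_zero_iff_mem, hA i]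
    apply Ideal.sum_mem
    intro j _
    exact Ideal.mul_mem_left _ _ (Ideal.subset_span ⟨j, rfl⟩)
  set P : Matrix (Fin n) (Fin n) (MvPolynomial (Fin n) (MvPolynomial (Fin n) K ⧸ I)) :=
    Matrix.diagonal (fun i => pp N w i) with hP
  set D : Matrix (Fin n) (Fin n) (MvPolynomial (Fin n) (MvPolynomial (Fin n) K ⧸ I)) :=
    Matrix.of Δ with hD
  have hPx : P.mulVec (fun k => X k - C (w k)) = fun i => X i ^ N := by
    funext i
    rw [hP, Matrix.mulVec_diagonal, pp_mul w i (hwN i)]
  have hDx : D.mulVec (fun k => X k - C (w k)) = fun j => ι (F j) := by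
    funext j
    rw [hΔ j]
    rfl
  have hQx : (A.map ι * D).mulVec (fun k => X k - C (w k)) = fun i => X i ^ N := by
    rw [← Matrix.mulVec_mulVec, hDx]
    funext i
    have h1 : ι (X i ^ N) = X i ^ N := by simp [hι]
    rw [← h1, hA i, map_sum]
    simp only [Matrix.mulVec, dotProduct, Matrix.map_apply, map_mul]
  have hwb := wiebe (koszul_X_sub_C w) P (A.map ι * D) (by rw [hPx, hQx])
  rw [hPx] at hwb
  refine ⟨constantCoeff D.det, ?_⟩
  intro h hh
  have h1 : π h = coeff (ee n N) (ι h * ∏ i, pp N w i) := by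
    rw [coeff_mul_prod_pp hN w hwN, hev]
  have h2 : (∏ i, pp N w i) = P.det := by rw [hP, Matrix.det_diagonal]
  have h3 : coeff (ee n N) (ι h * P.det) = coeff (ee n N) (ι h * (A.map ι * D).det) := by
    rw [← sub_eq_zero, ← coeff_sub, ← mul_sub]
    exact coeff_ee_of_mem hN (Ideal.mul_mem_left _ _ hwb)
  have h4 : ι h * (A.map ι * D).det = ι (h * A.det) * D.det := by
    have h0 : ι A.det = (A.map ι).det := by
      rw [Matrix.det_apply, Matrix.det_apply, map_sum]
      apply Finset.sum_congr rfl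
      intro σ _
      rw [Units.smul_def, Units.smul_def, map_zsmul, map_prod]
      rfl
    rw [Matrix.det_mul, map_mul, h0]
    ring
  have h5 : (h * A.det).IsHomogeneous (ee n N).degree := by
    rw [ee_degree]
    have := hh.mul (det_isHomogeneous A hAh)
    have h6 : n * (δ - 1) + n * (N - δ) = n * (N - 1) := by
      rw [← mul_add]
      congr 1
      omega
    rw [h6] at this
    exact this
  have h7 : (ι (h * A.det)).IsHomogeneous (ee n N).degree := h5.map _
  rw [h1, h2, h3, h4, coeff_mul_of_isHomogeneous _ _ h7, lam_apply, hι, coeff_map]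
  rfl

theorem socle {K : Type*} [CommRing K] {N δ : ℕ} (hN : 0 < N) (hδ : 0 < δ) (hδN : δ ≤ N)
    (A : Matrix (Fin n) (Fin n) (MvPolynomial (Fin n) K))
    (F : Fin n → MvPolynomial (Fin n) K) (hF : ∀ j, (F j).IsHomogeneous δ)
    (hAh : ∀ i j, (A i j).IsHomogeneous (N - δ))
    (hA : ∀ i, X i ^ N = ∑ j, A i j * F j)
    (h : MvPolynomial (Fin n) K) (hh : h.IsHomogeneous (n * (δ - 1))) :
    C ((δ : K) ^ n) * h - C (lam N A h) * (jacM F).det ∈ Ideal.span (Set.range F) := by
  obtain ⟨κ, hκ⟩ := socle_aux hN hδ hδN A F hAh hA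
  have hj : (jacM F).det.IsHomogeneous (n * (δ - 1)) := by
    apply det_isHomogeneous
    intro i j
    exact (hF i).pderiv
  rw [← Ideal.Quotient.eq_zero_iff_mem, map_sub, map_mul, map_mul, hκ h hh, hκ _ hj,
    lam_jac hN A F hF hA]
  ring

end Pool.V1148.AF
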