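import Pool.Agent.V1148.AFDefs
import Pool.Agent.V1148.AF3

/-!
# Milnor algebras of nondegenerate forms and existence of the associated form
-/

set_option autoImplicit false

open MvPolynomial

namespace Pool.V1148.AF

theorem hc_mul_right {n : ℕ} {K : Type*} [Field K] {k : ℕ} {q : MvPolynomial (Fin n) K}
    (hq : q.IsHomogeneous k) (p : MvPolynomial (Fin n) K) (m : ℕ) :
    homogeneousComponent m (p * q) =
      if k ≤ m then homogeneousComponent (m - k) p * q else 0 := by
  have hmem : ∀ j, homogeneousComponent j p * q ∈ homogeneousSubmodule (Fin n) K (j + k) := by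
    intro j
    exact (homogeneousComponent_isHomogeneous j p).mul hq
  conv_lhs => rw [← sum_homogeneousComponent p, Finset.sum_mul, map_sum]
  have h1 : ∀ j, homogeneousComponent m (homogeneousComponent j p * q) =
      if j + k = m then homogeneousComponent j p * q else 0 := by
    intro j
    rw [homogeneousComponent_of_mem (hmem j)]
    simp only [eq_comm]
  simp only [h1]
  split_ifs with hk
  · by_cases hm : m - k ∈ Finset.range (p.totalDegree + 1)
    · rw [Finset.sum_eq_single_of_mem (m - k) hm]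
      · rw [if_pos (Nat.sub_add_cancel hk)]
      · intro j _ hm'
        rw [if_neg]
        intro h
        apply hm'
        omega
    · rw [Finset.sum_eq_zero]
      · rw [homogeneousComponent_eq_zero, zero_mul]
        simp only [Finset.mem_range] at hm
        omega
      · intro j hm'
        rw [if_neg]
        intro h
        apply hm
        have : m - k = j := by omega
        rw [this]
        exact hm'
  · apply Finset.sum_eq_zero
    intro j _
    rw [if_neg]
    omega

theorem exists_matrix {n δ : ℕ} (F : Fin n → MvPolynomial (Fin n) ℂ)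
    (hF : ∀ j, (F j).IsHomogeneous δ)
    (hz : ∀ z : Fin n → ℂ, (∀ j, eval z (F j) = 0) → z = 0) :
    ∃ N, 0 < N ∧ δ ≤ N ∧ ∃ A : Matrix (Fin n) (Fin n) (MvPolynomial (Fin n) ℂ),
      (∀ i j, (A i j).IsHomogeneous (N - δ)) ∧ ∀ i, X i ^ N = ∑ j, A i j * F j := by
  have h1 : ∀ i : Fin n, ∃ k : ℕ, (X i : MvPolynomial (Fin n) ℂ) ^ k ∈
      Ideal.span (Set.range F) := by
    intro i
    have h2 : (X i : MvPolynomial (Fin n) ℂ) ∈
        vanishingIdeal ℂ (zeroLocus ℂ (Ideal.span (Set.range F))) := by
      rw [mem_vanishingIdeal_iff]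
      intro z hz'
      have h3 : z = 0 := by
        apply hz
        intro j
        have := hz' (F j) (Ideal.subset_span ⟨j, rfl⟩)
        simpa [aeval_eq_eval] using this
      simp [h3]
    rw [vanishingIdeal_zeroLocus_eq_radical] at h2
    exact h2
  choose k hk using h1
  set N := ∑ i, k i + δ + 1 with hN
  refine ⟨N, by omega, by omega, ?_⟩
  have h4 : ∀ i : Fin n, ∃ c : Fin n → MvPolynomial (Fin n) ℂ,
      (∀ j, (c j).IsHomogeneous (N - δ)) ∧ X i ^ N = ∑ j, c j * F j := by
    intro i
    have h5 : (X i : MvPolynomial (Fin n) ℂ) ^ N ∈ Ideal.span (Set.range F) := by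
      have h6 : k i ≤ N := by
        have := Finset.single_le_sum (f := k) (fun _ _ => Nat.zero_le _) (Finset.mem_univ i)
        omega
      rw [← Nat.sub_add_cancel h6, pow_add]
      exact Ideal.mul_mem_left _ _ (hk i)
    obtain ⟨c, hc⟩ := Ideal.mem_span_range_iff_exists_fun.1 h5
    refine ⟨fun j => homogeneousComponent (N - δ) (c j),
      fun j => homogeneousComponent_isHomogeneous _ _, ?_⟩
    have h7 := congrArg (homogeneousComponent N) hc
    rw [map_sum, homogeneousComponent_eq_self (isHomogeneous_X_pow i N)] at h7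
    rw [← h7]
    apply Finset.sum_congr rfl
    intro j _
    rw [hc_mul_right (hF j), if_pos (by omega)]
  choose c hc1 hc2 using h4
  exact ⟨Matrix.of c, fun i j => hc1 i j, fun i => hc2 i⟩

/-- The socle functional of a system of parameters. -/
theorem exists_functional {n δ : ℕ} (hδ : 0 < δ) (F : Fin n → MvPolynomial (Fin n) ℂ)
    (hF : ∀ j, (F j).IsHomogeneous δ)
    (hz : ∀ z : Fin n → ℂ, (∀ j, eval z (F j) = 0) → z = 0) :
    ∃ μ : MvPolynomial (Fin n) ℂ →ₗ[ℂ] ℂ, (∀ h ∈ Ideal.span (Set.range F), μ h = 0) ∧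
      μ (jacM F).det = 1 ∧ ∀ h : MvPolynomial (Fin n) ℂ, h.IsHomogeneous (n * (δ - 1)) →
        h - C (μ h) * (jacM F).det ∈ Ideal.span (Set.range F) := by
  obtain ⟨N, hN, hδN, A, hAh, hA⟩ := exists_matrix F hF hz
  have hδ0 : (δ : ℂ) ^ n ≠ 0 := pow_ne_zero _ (by exact_mod_cast hδ.ne')
  refine ⟨((δ : ℂ) ^ n)⁻¹ • lam N A, ?_, ?_, ?_⟩
  · intro h hh
    rw [LinearMap.smul_apply, lam_of_mem hN A F hA h hh, smul_zero]
  · rw [LinearMap.smul_apply, lam_jac hN A F hF hA, smul_eq_mul, inv_mul_cancel₀ hδ0]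
  · intro h hh
    have h1 := socle hN hδ hδN A F hF hAh hA h hh
    have h2 : h - C ((((δ : ℂ) ^ n)⁻¹ • lam N A) h) * (jacM F).det =
        C (((δ : ℂ) ^ n)⁻¹) * (C ((δ : ℂ) ^ n) * h - C (lam N A h) * (jacM F).det) := by
      rw [mul_sub, ← mul_assoc, ← C_mul, inv_mul_cancel₀ hδ0, C_1, one_mul,
        LinearMap.smul_apply, smul_eq_mul, C_mul]
      ring
    rw [h2]
    exact Ideal.mul_mem_left _ _ h1

end Pool.V1148.AF
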