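import Pool.Agent.V1148.AF4

/-!
# The associated form in terms of the socle functional
-/

set_option autoImplicit false

open MvPolynomial

namespace Pool.V1148.AF

variable {n d : ℕ}

theorem frm_isHomogeneous {R : Type*} [CommRing R] (a : Mon n d → R) :
    (frm a).IsHomogeneous d := by
  unfold frm
  apply IsHomogeneous.sum
  intro m _
  exact isHomogeneous_monomial _ m.2

theorem coeff_frm {R : Type*} [CommRing R] (a : Mon n d → R) (m : Mon n d) :
    coeff m.1 (frm a) = a m := by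
  classical
  unfold frm
  rw [coeff_sum, Finset.sum_eq_single m]
  · rw [coeff_monomial, if_pos rfl]
  · intro m' _ hne
    rw [coeff_monomial, if_neg]
    intro h
    exact hne (Subtype.ext h)
  · intro h
    exact absurd (Finset.mem_univ _) h

theorem frm_coeff {R : Type*} [CommRing R] (f : MvPolynomial (Fin n) R)
    (hf : f.IsHomogeneous d) : frm (fun m : Mon n d => coeff m.1 f) = f := by
  ext m
  by_cases hm : m.degree = d
  · exact coeff_frm (fun m : Mon n d => coeff m.1 f) ⟨m, hm⟩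
  · rw [(frm_isHomogeneous _).coeff_eq_zero hm, hf.coeff_eq_zero hm]

theorem frm_injective {R : Type*} [CommRing R] :
    Function.Injective (frm : (Mon n d → R) → MvPolynomial (Fin n) R) := by
  intro a b h
  funext m
  rw [← coeff_frm a m, h, coeff_frm]

/-- `μ` is a normalised socle functional for `f`. -/
structure Soc (d : ℕ) (f : MvPolynomial (Fin n) ℂ) (μ : MvPolynomial (Fin n) ℂ →ₗ[ℂ] ℂ) :
    Prop where
  kills : ∀ h ∈ jacobianIdeal f, μ h = 0
  hs : μ (hess f) = 1
  red : ∀ h : MvPolynomial (Fin n) ℂ, h.IsHomogeneous (n * (d - 2)) →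
    h - C (μ h) * hess f ∈ jacobianIdeal f

theorem hess_eq_jac {R : Type*} [CommRing R] (f : MvPolynomial (Fin n) R) :
    hess f = (jacM (fun j => pderiv j f)).det := by
  unfold hess jacM
  rw [← Matrix.det_transpose]
  rfl

theorem exists_soc (hd : 2 ≤ d) {f : MvPolynomial (Fin n) ℂ} (hf : f.IsHomogeneous d)
    (hnd : Nondeg f) : ∃ μ, Soc d f μ := by
  obtain ⟨μ, h1, h2, h3⟩ := exists_functional (δ := d - 1) (by omega)
    (fun j : Fin n => pderiv j f) (fun j => hf.pderiv) hnd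
  refine ⟨μ, h1, ?_, ?_⟩
  · rw [hess_eq_jac]; exact h2
  · intro h hh
    rw [hess_eq_jac]
    apply h3
    rw [show d - 1 - 1 = d - 2 by omega]
    exact hh

theorem sum_Mon {M : Type*} [AddCommMonoid M] (T : ℕ) (φ : (Fin n → ℕ) → M) :
    ∑ k ∈ Finset.piAntidiag Finset.univ T, φ k = ∑ m : Mon n T, φ m.1 := by
  symm
  apply Finset.sum_bij (fun (m : Mon n T) _ => (m.1 : Fin n → ℕ))
  · intro m _
    rw [Finset.mem_piAntidiag]
    refine ⟨?_, fun i _ => Finset.mem_univ i⟩
    have h := m.2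
    rw [Finsupp.degree_eq_sum] at h
    exact h
  · intro m _ m' _ h
    exact Subtype.ext (DFunLike.coe_injective h)
  · intro k hk
    rw [Finset.mem_piAntidiag] at hk
    refine ⟨⟨Finsupp.equivFunOnFinite.symm k, ?_⟩, Finset.mem_univ _, rfl⟩
    rw [Finsupp.degree_eq_sum]
    exact hk.1
  · intro m _
    rfl

theorem prod_pow_eq_monomial (w : Fin n → ℂ) (m : Fin n →₀ ℕ) :
    ∏ i, (C (w i) * X i : MvPolynomial (Fin n) ℂ) ^ m i =
      (∏ i, w i ^ m i) • monomial m (1 : ℂ) := by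
  have h1 : ∏ i, (C (w i) * X i : MvPolynomial (Fin n) ℂ) ^ m i =
      C (∏ i, w i ^ m i) * ∏ i, X i ^ m i := by
    rw [map_prod, ← Finset.prod_mul_distrib]
    apply Finset.prod_congr rfl
    intro i _
    rw [mul_pow, C_pow]
  rw [h1, smul_eq_C_mul, monomial_eq, C_1, one_mul, Finsupp.prod_fintype _ _ (by intro i; simp)]

theorem eval_frm (T : ℕ) (a : Mon n T → ℂ) (w : Fin n → ℂ) :
    eval w (frm a) = ∑ m : Mon n T, a m * ∏ i, w i ^ m.1 i := by
  unfold frm
  rw [map_sum]
  apply Finset.sum_congr rfl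
  intro m _
  rw [eval_monomial, Finsupp.prod_fintype _ _ (by intro i; simp)]

/-- The coefficients of the associated form. -/
noncomputable def asc (T : ℕ) (μ : MvPolynomial (Fin n) ℂ →ₗ[ℂ] ℂ) (m : Mon n T) : ℂ :=
  (Nat.multinomial Finset.univ (m.1 : Fin n → ℕ) : ℂ) * μ (monomial m.1 1)

theorem eval_frm_asc (T : ℕ) (μ : MvPolynomial (Fin n) ℂ →ₗ[ℂ] ℂ) (w : Fin n → ℂ) :
    eval w (frm (asc T μ)) = μ ((∑ i, C (w i) * X i) ^ T) := by
  rw [Finset.sum_pow_eq_sum_piAntidiag, sum_Mon T (fun k =>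
    (Nat.multinomial Finset.univ k : MvPolynomial (Fin n) ℂ) *
      ∏ i, (C (w i) * X i : MvPolynomial (Fin n) ℂ) ^ k i), map_sum, eval_frm]
  apply Finset.sum_congr rfl
  intro m _
  rw [prod_pow_eq_monomial, mul_smul_comm, map_smul, smul_eq_mul, asc]
  have h1 : (Nat.multinomial Finset.univ (m.1 : Fin n → ℕ) : MvPolynomial (Fin n) ℂ) *
      monomial m.1 1 = (Nat.multinomial Finset.univ (m.1 : Fin n → ℕ)) • monomial m.1 1 := by
    rw [nsmul_eq_mul]
  rw [h1, map_nsmul, nsmul_eq_mul]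
  ring

theorem assoc_iff {f : MvPolynomial (Fin n) ℂ} {μ : MvPolynomial (Fin n) ℂ →ₗ[ℂ] ℂ}
    (hμ : Soc d f μ) (G : MvPolynomial (Fin n) ℂ) :
    IsAssociatedForm d f G ↔ G = frm (asc (n * (d - 2)) μ) := by
  constructor
  · rintro ⟨hG, h⟩
    apply MvPolynomial.funext
    intro w
    rw [eval_frm_asc]
    have h1 := hμ.kills _ (h w)
    rw [map_sub, ← smul_eq_C_mul, map_smul, hμ.hs, smul_eq_mul, mul_one, sub_eq_zero] at h1
    exact h1.symm
  · rintro rfl
    refine ⟨frm_isHomogeneous _, ?_⟩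
    intro w
    rw [eval_frm_asc]
    apply hμ.red
    have h1 : (∑ i, C (w i) * X i : MvPolynomial (Fin n) ℂ).IsHomogeneous 1 := by
      apply IsHomogeneous.sum
      intro i _
      have := (isHomogeneous_C (Fin n) (w i)).mul (isHomogeneous_X ℂ i)
      simpa using this
    have := h1.pow (n * (d - 2))
    simpa using this

theorem existsUnique_assoc (hd : 2 ≤ d) {f : MvPolynomial (Fin n) ℂ} (hf : f.IsHomogeneous d)
    (hnd : Nondeg f) : ∃! G, IsAssociatedForm d f G := by
  obtain ⟨μ, hμ⟩ := exists_soc hd hf hnd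
  refine ⟨frm (asc (n * (d - 2)) μ), (assoc_iff hμ _).2 rfl, ?_⟩
  intro G hG
  exact (assoc_iff hμ G).1 hG

end Pool.V1148.AF
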