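import Pool.Agent.V1148.AF5

/-!
# Macaulay type determinants
-/

set_option autoImplicit false

open MvPolynomial

namespace Pool.V1148.AF

variable {n d : ℕ}

/-- The exponent `(d-2, ..., d-2)`. -/
noncomputable def bstar (n d : ℕ) : Mon n (n * (d - 2)) :=
  ⟨ee n (d - 1), by rw [ee_degree, Nat.sub_sub]⟩

/-- Choices of a monomial and a partial derivative for each exponent. -/
abbrev Ch (n d : ℕ) : Type := Mon n (n * (d - 2)) → Mon n (n * (d - 2) - (d - 1)) × Fin n

/-- The form `z^a ∂_i f`. -/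
noncomputable def col {R : Type*} [CommRing R] (f : MvPolynomial (Fin n) R)
    (c : Mon n (n * (d - 2) - (d - 1)) × Fin n) : MvPolynomial (Fin n) R :=
  monomial c.1.1 1 * pderiv c.2 f

/-- The matrix of the coefficients of `v` and of the chosen `z^a ∂_i f`. -/
noncomputable def DM {R : Type*} [CommRing R] (I : Ch n d) (f v : MvPolynomial (Fin n) R) :
    Matrix (Mon n (n * (d - 2))) (Mon n (n * (d - 2))) R :=
  Matrix.of fun b' b => coeff b'.1 (if b = bstar n d then v else col f (I b))

open Classical in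
/-- The determinant of `DM`. -/
noncomputable def Dd {R : Type*} [CommRing R] (I : Ch n d) (f v : MvPolynomial (Fin n) R) : R :=
  (DM I f v).det

theorem map_col {R S : Type*} [CommRing R] [CommRing S] (φ : R →+* S)
    (f : MvPolynomial (Fin n) R) (c : Mon n (n * (d - 2) - (d - 1)) × Fin n) :
    map φ (col f c) = col (map φ f) c := by
  unfold col
  rw [map_mul, map_monomial, map_one, pderiv_map]

theorem map_det' {R S : Type*} [CommRing R] [CommRing S] (φ : R →+* S) {ι : Type*} [Fintype ι]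
    [DecidableEq ι] (M : Matrix ι ι R) : φ M.det = (M.map φ).det := by
  rw [Matrix.det_apply, Matrix.det_apply, map_sum]
  apply Finset.sum_congr rfl
  intro σ _
  rw [Units.smul_def, Units.smul_def, map_zsmul, map_prod]
  rfl

theorem map_hess {R S : Type*} [CommRing R] [CommRing S] (φ : R →+* S)
    (f : MvPolynomial (Fin n) R) : map φ (hess f) = hess (map φ f) := by
  unfold hess
  rw [map_det' (map φ)]
  congr 1
  ext i j : 2
  simp only [Matrix.map_apply, Matrix.of_apply, pderiv_map]

theorem map_Dd {R S : Type*} [CommRing R] [CommRing S] (φ : R →+* S) (I : Ch n d)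
    (f v : MvPolynomial (Fin n) R) : φ (Dd I f v) = Dd I (map φ f) (map φ v) := by
  unfold Dd
  rw [map_det' φ]
  congr 1
  ext b' b
  simp only [Matrix.map_apply, DM, Matrix.of_apply, ← coeff_map]
  congr 1
  split_ifs with h
  · rfl
  · exact map_col φ f _

theorem sum_coeff_mul {R : Type*} [CommRing R] {T : ℕ} {h : MvPolynomial (Fin n) R}
    (hh : h.IsHomogeneous T) (μ : MvPolynomial (Fin n) R →ₗ[R] R) :
    ∑ b : Mon n T, μ (monomial b.1 1) * coeff b.1 h = μ h := by
  conv_rhs => rw [← frm_coeff h hh]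
  unfold frm
  rw [map_sum]
  apply Finset.sum_congr rfl
  intro b _
  have : (monomial b.1 (coeff b.1 h) : MvPolynomial (Fin n) R) =
      coeff b.1 h • monomial b.1 1 := by
    rw [smul_monomial, smul_eq_mul, mul_one]
  rw [this, map_smul, smul_eq_mul, mul_comm]

theorem col_isHomogeneous {R : Type*} [CommRing R] (hn : 2 ≤ n) (hd : 3 ≤ d)
    {f : MvPolynomial (Fin n) R} (hf : f.IsHomogeneous d)
    (c : Mon n (n * (d - 2) - (d - 1)) × Fin n) : (col f c).IsHomogeneous (n * (d - 2)) := by
  have h1 : (monomial c.1.1 (1 : R)).IsHomogeneous (n * (d - 2) - (d - 1)) :=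
    isHomogeneous_monomial _ c.1.2
  have h2 := h1.mul (hf.pderiv (i := c.2))
  have h3 : n * (d - 2) - (d - 1) + (d - 1) = n * (d - 2) := by
    apply Nat.sub_add_cancel
    calc d - 1 ≤ 2 * (d - 2) := by omega
      _ ≤ n * (d - 2) := Nat.mul_le_mul_right _ hn
  rw [h3] at h2
  exact h2

theorem vecMul_DM {R : Type*} [CommRing R] (hn : 2 ≤ n) (hd : 3 ≤ d) (I : Ch n d)
    {f v : MvPolynomial (Fin n) R} (hf : f.IsHomogeneous d) (hv : v.IsHomogeneous (n * (d - 2)))
    (μ : MvPolynomial (Fin n) R →ₗ[R] R) (hμ : ∀ b, b ≠ bstar n d → μ (col f (I b)) = 0)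
    (b : Mon n (n * (d - 2))) :
    Matrix.vecMul (fun b' : Mon n (n * (d - 2)) => μ (monomial b'.1 1)) (DM I f v) b =
      if b = bstar n d then μ v else 0 := by
  simp only [Matrix.vecMul, dotProduct, DM, Matrix.of_apply]
  split_ifs with h
  · exact sum_coeff_mul hv μ
  · rw [sum_coeff_mul (col_isHomogeneous hn hd hf _) μ]
    exact hμ b h

theorem Dd_symm {R : Type*} [CommRing R] (hn : 2 ≤ n) (hd : 3 ≤ d) (I : Ch n d)
    {f u v : MvPolynomial (Fin n) R} (hf : f.IsHomogeneous d)
    (hu : u.IsHomogeneous (n * (d - 2))) (hv : v.IsHomogeneous (n * (d - 2)))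
    (μ : MvPolynomial (Fin n) R →ₗ[R] R) (hμ : ∀ b, b ≠ bstar n d → μ (col f (I b)) = 0) :
    μ v * Dd I f u = μ u * Dd I f v := by
  classical
  have h1 := congrArg (fun x => dotProduct
    (fun b' : Mon n (n * (d - 2)) => μ (monomial b'.1 1)) x)
    (Matrix.mulVec_cramer (DM I f v) (fun b' => coeff b'.1 u))
  rw [Matrix.dotProduct_mulVec, dotProduct_smul] at h1
  have h2 : dotProduct (fun b' : Mon n (n * (d - 2)) => μ (monomial b'.1 1))
      (fun b' => coeff b'.1 u) = μ u := sum_coeff_mul hu μ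
  rw [h2] at h1
  have h3 : dotProduct (Matrix.vecMul (fun b' : Mon n (n * (d - 2)) => μ (monomial b'.1 1))
      (DM I f v)) (Matrix.cramer (DM I f v) (fun b' => coeff b'.1 u)) =
      μ v * (Matrix.cramer (DM I f v) (fun b' => coeff b'.1 u)) (bstar n d) := by
    simp only [dotProduct]
    rw [Finset.sum_eq_single (bstar n d)]
    · rw [vecMul_DM hn hd I hf hv μ hμ, if_pos rfl]
    · intro b _ hb
      rw [vecMul_DM hn hd I hf hv μ hμ, if_neg hb, zero_mul]
    · intro h
      exact absurd (Finset.mem_univ _) h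
  rw [h3, Matrix.cramer_apply] at h1
  have h4 : (DM I f v).updateCol (bstar n d) (fun b' => coeff b'.1 u) = DM I f u := by
    ext b' b
    by_cases hb : b = bstar n d
    · subst hb
      rw [Matrix.updateCol_self]
      simp [DM]
    · rw [Matrix.updateCol_ne hb]
      simp [DM, hb]
  rw [h4, smul_eq_mul] at h1
  have e1 : Dd I f u = (DM I f u).det := by
    unfold Dd; congr!
  have e2 : Dd I f v = (DM I f v).det := by
    unfold Dd; congr!
  rw [e1, e2, h1]
  ring

theorem hess_isHomogeneous {R : Type*} [CommRing R] {f : MvPolynomial (Fin n) R}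
    (hf : f.IsHomogeneous d) : (hess f).IsHomogeneous (n * (d - 2)) := by
  unfold hess
  apply det_isHomogeneous
  intro i j
  have := (hf.pderiv (i := j)).pderiv (i := i)
  rw [Nat.sub_sub] at this
  exact this

theorem pderiv_comm' {R : Type*} [CommRing R] (i j : Fin n) (f : MvPolynomial (Fin n) R) :
    pderiv i (pderiv j f) = pderiv j (pderiv i f) := by
  have h : ⁅(pderiv i : Derivation R (MvPolynomial (Fin n) R) (MvPolynomial (Fin n) R)),
      (pderiv j : Derivation R (MvPolynomial (Fin n) R) (MvPolynomial (Fin n) R))⁆ = 0 := by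
    apply MvPolynomial.derivation_ext
    intro k
    rw [Derivation.commutator_apply, pderiv_X, pderiv_X]
    simp only [Pi.single_apply]
    split_ifs <;> simp
  have h2 := DFunLike.congr_fun h f
  rw [Derivation.commutator_apply] at h2
  exact sub_eq_zero.1 h2

/-- At a singular point the Hessian vanishes. -/
theorem eval_hess_eq_zero {f : MvPolynomial (Fin n) ℂ} (hf : f.IsHomogeneous d)
    {P : Fin n → ℂ} (hP : P ≠ 0) (h0 : ∀ i, eval P (pderiv i f) = 0) : eval P (hess f) = 0 := by
  unfold hess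
  rw [map_det' (eval P)]
  rw [← Matrix.exists_mulVec_eq_zero_iff]
  refine ⟨P, hP, ?_⟩
  funext i
  simp only [Matrix.mulVec, dotProduct, Matrix.map_apply, Matrix.of_apply, Pi.zero_apply]
  have h1 := (hf.pderiv (i := i)).sum_X_mul_pderiv
  have h2 := congrArg (eval P) h1
  rw [map_sum, map_nsmul, h0 i, smul_zero] at h2
  rw [← h2]
  apply Finset.sum_congr rfl
  intro j _
  rw [map_mul, eval_X, mul_comm]
  rw [pderiv_comm' i j f]

theorem Dd_eq_zero (hn : 2 ≤ n) (hd : 3 ≤ d) (I : Ch n d) {f : MvPolynomial (Fin n) ℂ}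
    (hf : f.IsHomogeneous d) (hnd : ¬ Nondeg f) : Dd I f (hess f) = 0 := by
  classical
  unfold Nondeg at hnd
  push Not at hnd
  obtain ⟨P, h0, hP⟩ := hnd
  unfold Dd
  rw [← Matrix.exists_vecMul_eq_zero_iff]
  set μ : MvPolynomial (Fin n) ℂ →ₗ[ℂ] ℂ := (aeval P).toLinearMap with hμ
  have hμe : ∀ h, μ h = eval P h := by
    intro h
    rw [hμ, AlgHom.toLinearMap_apply, aeval_eq_eval]
  refine ⟨fun b' : Mon n (n * (d - 2)) => μ (monomial b'.1 1), ?_, ?_⟩
  · obtain ⟨i, hi⟩ := Function.ne_iff.1 hP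
    apply Function.ne_iff.2
    refine ⟨⟨Finsupp.single i (n * (d - 2)), Finsupp.degree_single _ _⟩, ?_⟩
    rw [hμe, eval_monomial]
    simp only [Pi.zero_apply] at hi ⊢
    rw [one_mul, Finsupp.prod_single_index (by simp)]
    exact pow_ne_zero _ hi
  · funext b
    have h1 := vecMul_DM hn hd I hf (hess_isHomogeneous hf) μ (fun b _ => by
      rw [hμe, col, map_mul, h0, mul_zero]) b
    rw [Pi.zero_apply]
    refine h1.trans ?_
    split_ifs
    · rw [hμe, eval_hess_eq_zero hf hP h0]
    · rfl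

end Pool.V1148.AF
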