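import Pool.Agent.V1148.AF6

/-!
# For a nondegenerate form some determinant is nonzero
-/

set_option autoImplicit false

open MvPolynomial

namespace Pool.V1148.AF

variable {n d : ℕ}

/-- The coefficient vector. -/
noncomputable def cv (n T : ℕ) : MvPolynomial (Fin n) ℂ →ₗ[ℂ] (Mon n T → ℂ) :=
  LinearMap.pi (fun b => lcoeff ℂ b.1)

theorem cv_apply {T : ℕ} (h : MvPolynomial (Fin n) ℂ) (b : Mon n T) :
    cv n T h b = coeff b.1 h := rfl

theorem cv_frm {T : ℕ} (a : Mon n T → ℂ) : cv n T (frm a) = a := by
  funext b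
  rw [cv_apply, coeff_frm]

theorem span_cv (hn : 2 ≤ n) (hd : 3 ≤ d) {f : MvPolynomial (Fin n) ℂ}
    (hf : f.IsHomogeneous d) (hnd : Nondeg f) :
    (⊤ : Submodule ℂ (Mon n (n * (d - 2)) → ℂ)) ≤ Submodule.span ℂ
      (insert (cv n (n * (d - 2)) (hess f))
        (Set.range (fun c : Mon n (n * (d - 2) - (d - 1)) × Fin n =>
          cv n (n * (d - 2)) (col f c)))) := by
  obtain ⟨μ, hμ⟩ := exists_soc (by omega) hf hnd
  have hdeg : n * (d - 2) - (d - 1) + (d - 1) = n * (d - 2) := by
    apply Nat.sub_add_cancel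
    calc d - 1 ≤ 2 * (d - 2) := by omega
      _ ≤ n * (d - 2) := Nat.mul_le_mul_right _ hn
  intro a _
  have h1 := hμ.red (frm a) (frm_isHomogeneous a)
  obtain ⟨g, hg⟩ := Ideal.mem_span_range_iff_exists_fun.1 h1
  have h2 := congrArg (homogeneousComponent (n * (d - 2))) hg
  rw [map_sum, homogeneousComponent_eq_self] at h2
  · have h3 : frm a = μ (frm a) • hess f +
        ∑ i, homogeneousComponent (n * (d - 2) - (d - 1)) (g i) * pderiv i f := by
      have h4 : ∀ i, homogeneousComponent (n * (d - 2)) (g i * pderiv i f) =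
          homogeneousComponent (n * (d - 2) - (d - 1)) (g i) * pderiv i f := by
        intro i
        rw [hc_mul_right hf.pderiv, if_pos (by omega)]
      rw [Finset.sum_congr rfl (fun i _ => (h4 i).symm), h2, smul_eq_C_mul]
      ring
    have h5 := congrArg (cv n (n * (d - 2))) h3
    rw [cv_frm, map_add, map_smul, map_sum] at h5
    rw [h5]
    apply Submodule.add_mem
    · exact Submodule.smul_mem _ _ (Submodule.subset_span (Set.mem_insert _ _))
    · apply Submodule.sum_mem
      intro i _
      set q := homogeneousComponent (n * (d - 2) - (d - 1)) (g i) with hq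
      have hqh : q.IsHomogeneous (n * (d - 2) - (d - 1)) :=
        homogeneousComponent_isHomogeneous _ _
      have h6 : q * pderiv i f =
          ∑ m : Mon n (n * (d - 2) - (d - 1)), coeff m.1 q • col f (m, i) := by
        conv_lhs => rw [← frm_coeff q hqh]
        unfold frm col
        rw [Finset.sum_mul]
        apply Finset.sum_congr rfl
        intro m _
        rw [← smul_mul_assoc, smul_monomial, smul_eq_mul, mul_one]
      rw [h6, map_sum]
      apply Submodule.sum_mem
      intro m _
      rw [map_smul]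
      exact Submodule.smul_mem _ _ (Submodule.subset_span
        (Set.mem_insert_of_mem _ ⟨(m, i), rfl⟩))
  · apply IsHomogeneous.sub (frm_isHomogeneous a)
    have := (isHomogeneous_C (Fin n) (μ (frm a))).mul (hess_isHomogeneous hf)
    simpa using this

theorem exists_Dd_ne_zero (hn : 2 ≤ n) (hd : 3 ≤ d) {f : MvPolynomial (Fin n) ℂ}
    (hf : f.IsHomogeneous d) (hnd : Nondeg f) : ∃ I : Ch n d, Dd I f (hess f) ≠ 0 := by
  classical
  obtain ⟨μ, hμ⟩ := exists_soc (by omega) hf hnd
  have hne : cv n (n * (d - 2)) (hess f) ≠ 0 := by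
    intro h
    have h0 : hess f = 0 := by
      rw [← frm_coeff (hess f) (hess_isHomogeneous hf)]
      have : (fun m : Mon n (n * (d - 2)) => coeff m.1 (hess f)) = 0 := h
      rw [this]
      simp [frm]
    have h1 := hμ.hs
    rw [h0, map_zero] at h1
    exact zero_ne_one h1
  have hs : LinearIndepOn ℂ id ({cv n (n * (d - 2)) (hess f)} : Set _) :=
    (linearIndepOn_singleton_iff ℂ).2 hne
  have hst : ({cv n (n * (d - 2)) (hess f)} : Set (Mon n (n * (d - 2)) → ℂ)) ⊆
      insert (cv n (n * (d - 2)) (hess f))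
        (Set.range (fun c : Mon n (n * (d - 2) - (d - 1)) × Fin n =>
          cv n (n * (d - 2)) (col f c))) := by
    intro x hx
    rw [Set.mem_singleton_iff] at hx
    rw [hx]
    exact Set.mem_insert _ _
  set B := Module.Basis.extendLe hs hst (span_cv hn hd hf hnd) with hB
  have hfin : Finite (hs.extend hst) := Module.Finite.finite_basis B
  let _ : Fintype (hs.extend hst) := Fintype.ofFinite _
  have hcard : Fintype.card (Mon n (n * (d - 2))) = Fintype.card (hs.extend hst) := by
    rw [← Module.finrank_eq_card_basis B, Module.finrank_fintype_fun_eq_card]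
  set h0 : hs.extend hst := ⟨cv n (n * (d - 2)) (hess f), hs.subset_extend hst rfl⟩ with hh0
  obtain ⟨e0⟩ : Nonempty (Mon n (n * (d - 2)) ≃ hs.extend hst) :=
    ⟨Fintype.equivOfCardEq hcard⟩
  set e : Mon n (n * (d - 2)) ≃ hs.extend hst :=
    (Equiv.swap (bstar n d) (e0.symm h0)).trans e0 with he
  have heb : e (bstar n d) = h0 := by
    rw [he, Equiv.trans_apply, Equiv.swap_apply_left, Equiv.apply_symm_apply]
  have hI : ∀ b : Mon n (n * (d - 2)), ∃ c : Mon n (n * (d - 2) - (d - 1)) × Fin n,
      b ≠ bstar n d → (e b : Mon n (n * (d - 2)) → ℂ) = cv n (n * (d - 2)) (col f c) := by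
    intro b
    have hex : Nonempty (Mon n (n * (d - 2) - (d - 1)) × Fin n) := by
      refine ⟨⟨Finsupp.single ⟨0, by omega⟩ _, Finsupp.degree_single _ _⟩, ⟨0, by omega⟩⟩
    by_cases hb : b = bstar n d
    · exact ⟨Classical.choice hex, fun h => absurd hb h⟩
    · have h1 : (e b : Mon n (n * (d - 2)) → ℂ) ∈ _ := hs.extend_subset hst (e b).2
      rcases h1 with h1 | ⟨c, hc⟩
      · exfalso
        apply hb
        apply e.injective
        rw [heb]
        exact Subtype.ext h1
      · exact ⟨c, fun _ => hc.symm⟩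
  choose I hI using hI
  refine ⟨I, ?_⟩
  intro hdet
  have hdet' : (DM I f (hess f)).det = 0 := by
    rw [← hdet]; unfold Dd; congr!
  rw [← Matrix.exists_mulVec_eq_zero_iff] at hdet'
  obtain ⟨w, hw, hw2⟩ := hdet'
  apply hw
  have hcol : ∀ b, (fun b' => DM I f (hess f) b' b) = B (e b) := by
    intro b
    rw [hB, Module.Basis.extendLe_apply_self]
    funext b'
    simp only [DM, Matrix.of_apply]
    split_ifs with h
    · rw [h, heb]
      rfl
    · rw [hI b h]
      rfl
  have hsum : ∑ b, w b • B (e b) = 0 := by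
    rw [← hw2]
    funext b'
    rw [Finset.sum_apply]
    simp only [Matrix.mulVec, dotProduct]
    apply Finset.sum_congr rfl
    intro b _
    rw [← hcol b, Pi.smul_apply, smul_eq_mul, mul_comm]
  have hli : LinearIndependent ℂ (fun b => B (e b)) :=
    B.linearIndependent.comp e e.injective
  have := Fintype.linearIndependent_iff.1 hli w hsum
  funext b
  exact this b

end Pool.V1148.AF
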