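import Pool.Agent.V1148.AF7

/-!
# Degrees in a parameter, Macaulay's choice, diagonal forms
-/

set_option autoImplicit false

open MvPolynomial

namespace Pool.V1148.AF

section TD

variable {n : ℕ} {A : Type*} [CommRing A]

/-- All coefficients have degree at most `k` in the parameter. -/
def TD (k : ℕ) (p : MvPolynomial (Fin n) (Polynomial A)) : Prop :=
  ∀ m, (coeff m p).natDegree ≤ k

theorem TD.mono {k l : ℕ} {p : MvPolynomial (Fin n) (Polynomial A)} (h : TD k p) (hkl : k ≤ l) :
    TD l p := fun m => (h m).trans hkl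

theorem TD.add {k : ℕ} {p q : MvPolynomial (Fin n) (Polynomial A)} (hp : TD k p) (hq : TD k q) :
    TD k (p + q) := by
  intro m
  rw [coeff_add]
  exact Polynomial.natDegree_add_le_of_degree_le (hp m) (hq m)

theorem TD.mul {k l : ℕ} {p q : MvPolynomial (Fin n) (Polynomial A)} (hp : TD k p)
    (hq : TD l q) : TD (k + l) (p * q) := by
  intro m
  rw [coeff_mul]
  apply Polynomial.natDegree_sum_le_of_forall_le
  intro x _
  exact Polynomial.natDegree_mul_le_of_le (hp _) (hq _)

theorem TD.sum {ι : Type*} {k : ℕ} (s : Finset ι) (p : ι → MvPolynomial (Fin n) (Polynomial A))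
    (hp : ∀ i ∈ s, TD k (p i)) : TD k (∑ i ∈ s, p i) := by
  intro m
  rw [coeff_sum]
  apply Polynomial.natDegree_sum_le_of_forall_le
  intro i hi
  exact hp i hi m

theorem TD_map (p : MvPolynomial (Fin n) A) : TD 0 (map Polynomial.C p) := by
  intro m
  rw [coeff_map, Polynomial.natDegree_C]

theorem TD_one : TD 0 (1 : MvPolynomial (Fin n) (Polynomial A)) := by
  have := TD_map (1 : MvPolynomial (Fin n) A)
  rwa [map_one] at this

theorem TD_monomial (a : Fin n →₀ ℕ) : TD 0 (monomial a (1 : Polynomial A)) := by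
  have := TD_map (monomial a (1 : A))
  rwa [map_monomial, map_one] at this

theorem TD_C_X : TD 1 (C Polynomial.X : MvPolynomial (Fin n) (Polynomial A)) := by
  classical
  intro m
  rw [coeff_C]
  split_ifs
  · exact Polynomial.natDegree_X_le
  · simp

theorem TD.prod {ι : Type*} (s : Finset ι) (k : ι → ℕ)
    (p : ι → MvPolynomial (Fin n) (Polynomial A)) (hp : ∀ i ∈ s, TD (k i) (p i)) :
    TD (∑ i ∈ s, k i) (∏ i ∈ s, p i) := by
  classical
  induction s using Finset.induction_on with
  | empty => simpa using TD_one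
  | insert a s ha ih =>
    rw [Finset.sum_insert ha, Finset.prod_insert ha]
    exact (hp a (Finset.mem_insert_self _ _)).mul
      (ih (fun i hi => hp i (Finset.mem_insert_of_mem hi)))

theorem TD.neg {k : ℕ} {p : MvPolynomial (Fin n) (Polynomial A)} (hp : TD k p) :
    TD k (-p) := by
  intro m
  rw [coeff_neg, Polynomial.natDegree_neg]
  exact hp m

theorem TD_det {ι : Type*} [Fintype ι] [DecidableEq ι] (k : ι → ℕ)
    (M : Matrix ι ι (MvPolynomial (Fin n) (Polynomial A)))
    (hM : ∀ i j, TD (k i) (M i j)) : TD (∑ i, k i) M.det := by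
  rw [Matrix.det_apply]
  apply TD.sum
  intro σ _
  have h1 : TD (∑ i, k (σ i)) (∏ i, M (σ i) i) := TD.prod _ _ _ (fun i _ => hM _ _)
  rw [Equiv.sum_comp σ k] at h1
  rcases Int.units_eq_one_or (Equiv.Perm.sign σ) with h | h
  · rw [h, one_smul]; exact h1
  · rw [h]
    have h2 : ((-1 : ℤˣ) • ∏ i, M (σ i) i) = - ∏ i, M (σ i) i := by
      rw [Units.neg_smul, one_smul]
    rw [h2]
    exact h1.neg

theorem natDegree_det_le {ι : Type*} [Fintype ι] [DecidableEq ι] (k : ι → ℕ)
    (M : Matrix ι ι (Polynomial A)) (hM : ∀ i j, (M i j).natDegree ≤ k j) :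
    M.det.natDegree ≤ ∑ i, k i := by
  rw [Matrix.det_apply]
  apply Polynomial.natDegree_sum_le_of_forall_le
  intro σ _
  have h1 : (∏ i, M (σ i) i).natDegree ≤ ∑ i, k i :=
    (Polynomial.natDegree_prod_le _ _).trans (Finset.sum_le_sum (fun i _ => hM _ _))
  rcases Int.units_eq_one_or (Equiv.Perm.sign σ) with h | h
  · rw [h, one_smul]; exact h1
  · rw [h]
    have h2 : ((-1 : ℤˣ) • ∏ i, M (σ i) i) = - ∏ i, M (σ i) i := by
      rw [Units.neg_smul, one_smul]
    rw [h2, Polynomial.natDegree_neg]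
    exact h1

end TD

section Mac

variable {n d : ℕ}

theorem exists_big (b : Mon n (n * (d - 2))) (hb : b ≠ bstar n d) : ∃ i, d - 1 ≤ b.1 i := by
  by_contra hcon
  push Not at hcon
  apply hb
  apply Subtype.ext
  have h1 : ∀ i, b.1 i ≤ d - 2 := fun i => by have := hcon i; omega
  have h2 : ∑ i, b.1 i = ∑ _i : Fin n, (d - 2) := by
    rw [Finset.sum_const, Finset.card_univ, Fintype.card_fin, smul_eq_mul, ← Finsupp.degree_eq_sum]
    exact b.2
  have h3 := (Finset.sum_eq_sum_iff_of_le (fun i _ => h1 i)).1 h2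
  ext i
  rw [h3 i (Finset.mem_univ i)]
  change _ = d - 1 - 1
  omega

/-- Macaulay's choice. -/
def IsMac {m d : ℕ} (I : Ch (m + 1) d) : Prop :=
  ∀ b, b ≠ bstar (m + 1) d →
    (I b).1.1 + Finsupp.single (I b).2 (d - 1) = b.1 ∧
      ((I b).2 = Fin.last m → ∀ i, i ≠ Fin.last m → b.1 i ≤ d - 2)

theorem exists_mac {m d : ℕ} (hd : 3 ≤ d) : ∃ I : Ch (m + 1) d, IsMac I := by
  have key : ∀ b : Mon (m + 1) ((m + 1) * (d - 2)),
      ∃ c : Mon (m + 1) ((m + 1) * (d - 2) - (d - 1)) × Fin (m + 1), b ≠ bstar (m + 1) d →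
        c.1.1 + Finsupp.single c.2 (d - 1) = b.1 ∧
        (c.2 = Fin.last m → ∀ i, i ≠ Fin.last m → b.1 i ≤ d - 2) := by
    intro b
    have step : ∀ i, d - 1 ≤ b.1 i → ∃ a : Mon (m + 1) ((m + 1) * (d - 2) - (d - 1)),
        a.1 + Finsupp.single i (d - 1) = b.1 := by
      intro i hi
      have h1 : b.1 - Finsupp.single i (d - 1) + Finsupp.single i (d - 1) = b.1 := by
        apply tsub_add_cancel_of_le
        rwa [Finsupp.single_le_iff]
      refine ⟨⟨b.1 - Finsupp.single i (d - 1), ?_⟩, h1⟩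
      have h2 := congrArg Finsupp.degree h1
      rw [map_add, Finsupp.degree_single, b.2] at h2
      omega
    by_cases hb : b = bstar (m + 1) d
    · refine ⟨⟨⟨Finsupp.single 0 _, Finsupp.degree_single _ _⟩, 0⟩, fun h => absurd hb h⟩
    · by_cases h : ∃ i, i ≠ Fin.last m ∧ d - 1 ≤ b.1 i
      · obtain ⟨i, hi1, hi2⟩ := h
        obtain ⟨a, ha⟩ := step i hi2
        exact ⟨(a, i), fun _ => ⟨ha, fun h => absurd h hi1⟩⟩
      · push Not at h
        obtain ⟨i, hi⟩ := exists_big b hb
        have hil : i = Fin.last m := by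
          by_contra hne
          have := h i hne
          omega
        subst hil
        obtain ⟨a, ha⟩ := step _ hi
        refine ⟨(a, Fin.last m), fun _ => ⟨ha, fun _ j hj => ?_⟩⟩
        have := h j hj
        omega
  choose I hI using key
  exact ⟨I, fun b hb => hI b hb⟩

/-- The diagonal form. -/
noncomputable def diagF {R : Type*} [CommRing R] (n d : ℕ) (α : Fin n → R) :
    MvPolynomial (Fin n) R := ∑ i, C (α i) * X i ^ d

theorem pderiv_diagF {R : Type*} [CommRing R] (α : Fin n → R) (i : Fin n) :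
    pderiv i (diagF n d α) = C (d * α i) * X i ^ (d - 1) := by
  unfold diagF
  rw [map_sum, Finset.sum_eq_single i]
  · rw [pderiv_C_mul, pderiv_pow, pderiv_X_self, mul_one, C_mul, C_eq_coe_nat (R := R) d]
    ring
  · intro j _ hj
    rw [pderiv_C_mul, pderiv_pow, pderiv_X_of_ne hj, mul_zero, mul_zero]
  · intro h
    exact absurd (Finset.mem_univ _) h

theorem hess_diagF {R : Type*} [CommRing R] (α : Fin n → R) :
    hess (diagF n d α) = monomial (bstar n d).1 (∏ i, ((d * (d - 1 : ℕ)) * α i)) := by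
  have h1 : (Matrix.of fun i j => pderiv i (pderiv j (diagF n d α))) =
      Matrix.diagonal (fun i => C ((d * (d - 1 : ℕ)) * α i) * X i ^ (d - 1 - 1)) := by
    ext i j : 2
    rw [Matrix.of_apply, pderiv_diagF]
    by_cases hij : i = j
    · subst hij
      rw [Matrix.diagonal_apply_eq, pderiv_C_mul, pderiv_pow, pderiv_X_self, mul_one, ← mul_assoc,
        ← C_eq_coe_nat (R := R) (d - 1), ← C_mul]
      congr 2
      ring
    · rw [Matrix.diagonal_apply_ne _ hij, pderiv_C_mul, pderiv_pow,
        pderiv_X_of_ne (Ne.symm hij), mul_zero, mul_zero]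
  unfold hess
  rw [h1, Matrix.det_diagonal, Finset.prod_mul_distrib, ← map_prod, monomial_eq]
  congr 1
  rw [Finsupp.prod_fintype _ _ (by intro i; simp)]
  rfl

open Classical in
theorem Dd_diagF {R : Type*} [CommRing R] {m : ℕ} (I : Ch (m + 1) d) (hI : IsMac I)
    (α : Fin (m + 1) → R) (c : R) :
    Dd I (diagF (m + 1) d α) (monomial (bstar (m + 1) d).1 c) =
      ∏ b, if b = bstar (m + 1) d then c else d * α (I b).2 := by
  have h1 : DM I (diagF (m + 1) d α) (monomial (bstar (m + 1) d).1 c) =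
      Matrix.diagonal (fun b => if b = bstar (m + 1) d then c else d * α (I b).2) := by
    ext b' b
    simp only [DM, Matrix.of_apply]
    split_ifs with hb
    · rw [hb, coeff_monomial]
      by_cases hb' : b' = bstar (m + 1) d
      · rw [hb', Matrix.diagonal_apply_eq, if_pos rfl, if_pos rfl]
      · rw [Matrix.diagonal_apply_ne _ hb', if_neg]
        intro h
        exact hb' (Subtype.ext h.symm)
    · unfold col
      rw [pderiv_diagF]
      have h2 : (monomial (I b).1.1 (1 : R)) * (C (d * α (I b).2) * X (I b).2 ^ (d - 1)) =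
          monomial b.1 (d * α (I b).2) := by
        rw [← (hI b hb).1, X_pow_eq_monomial, C_mul_monomial, monomial_mul, one_mul, mul_one]
      rw [h2, coeff_monomial]
      by_cases hb' : b' = b
      · rw [hb', Matrix.diagonal_apply_eq, if_pos rfl, if_neg hb]
      · rw [Matrix.diagonal_apply_ne _ hb', if_neg]
        intro h
        exact hb' (Subtype.ext h.symm)
  unfold Dd
  rw [h1, Matrix.det_diagonal]

end Mac

end Pool.V1148.AF
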