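import Pool.Agent.V1148.AF8

/-!
# A one-parameter family of forms
-/

set_option autoImplicit false

open MvPolynomial

namespace Pool.V1148.AF

variable {m d : ℕ}

/-- The constant part of the family. -/
noncomputable def g0 {A : Type*} [CommRing A] (d : ℕ) (e : Fin m → A) :
    MvPolynomial (Fin (m + 1)) A :=
  ∑ i : Fin m, (X i.castSucc ^ d - C (d * e i) * (X i.castSucc * X (Fin.last m) ^ (d - 1)))

/-- The family. -/
noncomputable def fam {A : Type*} [CommRing A] (d : ℕ) (e : Fin m → A) :
    MvPolynomial (Fin (m + 1)) (Polynomial A) :=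
  map Polynomial.C (g0 d e) + C Polynomial.X * X (Fin.last m) ^ d

theorem g0_isHomogeneous {A : Type*} [CommRing A] (hd : 3 ≤ d) (e : Fin m → A) :
    (g0 d e).IsHomogeneous d := by
  unfold g0
  apply IsHomogeneous.sum
  intro i _
  apply IsHomogeneous.sub (isHomogeneous_X_pow _ _)
  have h1 := (isHomogeneous_C (Fin (m + 1)) ((d : A) * e i)).mul
    ((isHomogeneous_X A i.castSucc).mul (isHomogeneous_X_pow (R := A) (Fin.last m) (d - 1)))
  rwa [show 0 + (1 + (d - 1)) = d by omega] at h1

theorem fam_isHomogeneous {A : Type*} [CommRing A] (hd : 3 ≤ d) (e : Fin m → A) :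
    (fam d e).IsHomogeneous d := by
  unfold fam
  apply IsHomogeneous.add ((g0_isHomogeneous hd e).map _)
  have h1 := (isHomogeneous_C (Fin (m + 1)) (Polynomial.X : Polynomial A)).mul
    (isHomogeneous_X_pow (R := Polynomial A) (Fin.last m) d)
  rwa [zero_add] at h1

theorem map_g0 {A B : Type*} [CommRing A] [CommRing B] (φ : A →+* B) (e : Fin m → A) :
    map φ (g0 d e) = g0 d (fun i => φ (e i)) := by
  unfold g0
  rw [map_sum]
  apply Finset.sum_congr rfl
  intro i _
  simp

theorem map_fam {A B : Type*} [CommRing A] [CommRing B] (φ : A →+* B) (e : Fin m → A) :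
    map (Polynomial.mapRingHom φ) (fam d e) = fam d (fun i => φ (e i)) := by
  unfold fam
  rw [map_add, map_mul, map_pow, map_X, map_C, ← map_g0, MvPolynomial.map_map,
    MvPolynomial.map_map]
  congr 2
  · congr 1
    ext x : 1
    simp
  · simp

theorem pderiv_fam {A : Type*} [CommRing A] (e : Fin m → A) (i : Fin (m + 1)) :
    pderiv i (fam d e) = map Polynomial.C (pderiv i (g0 d e)) +
      C Polynomial.X * pderiv i (X (Fin.last m) ^ d) := by
  unfold fam
  rw [map_add, pderiv_map, pderiv_C_mul]

theorem pderiv_X_last_pow {A : Type*} [CommRing A] (i : Fin (m + 1)) (hi : i ≠ Fin.last m)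
    (k : ℕ) : pderiv i (X (Fin.last m) ^ k : MvPolynomial (Fin (m + 1)) A) = 0 := by
  rw [pderiv_pow, pderiv_X_of_ne (Ne.symm hi), mul_zero]

theorem X_last_pow_eq {A : Type*} [CommRing A] (k : ℕ) :
    (X (Fin.last m) ^ k : MvPolynomial (Fin (m + 1)) (Polynomial A)) =
      map Polynomial.C (X (Fin.last m) ^ k) := by simp

theorem TD_pderiv_fam {A : Type*} [CommRing A] (e : Fin m → A) (i : Fin (m + 1)) :
    TD (if i = Fin.last m then 1 else 0) (pderiv i (fam d e)) := by
  rw [pderiv_fam]
  split_ifs with h
  · apply TD.add ((TD_map _).mono (by omega))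
    rw [X_last_pow_eq, pderiv_map]
    exact TD_C_X.mul (TD_map _)
  · rw [pderiv_X_last_pow i h, mul_zero, add_zero]
    exact TD_map _

theorem TD_hess_fam {A : Type*} [CommRing A] (e : Fin m → A) :
    TD 1 (hess (fam d e)) := by
  unfold hess
  have h1 := TD_det (fun i : Fin (m + 1) => if i = Fin.last m then 1 else 0)
    (Matrix.of fun i j => pderiv i (pderiv j (fam d e))) (by
      intro i j
      rw [Matrix.of_apply, pderiv_fam, map_add, pderiv_map, pderiv_C_mul]
      split_ifs with h
      · apply TD.add ((TD_map _).mono (by omega))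
        rw [X_last_pow_eq, pderiv_map, pderiv_map]
        exact TD_C_X.mul (TD_map _)
      · rw [pderiv_comm' i j (X (Fin.last m) ^ d), pderiv_X_last_pow i h, map_zero, mul_zero,
          add_zero]
        exact TD_map _)
  simpa using h1

open Classical in
/-- The number of exponents for which the last derivative is chosen. -/
noncomputable def M0 (I : Ch (m + 1) d) : ℕ :=
  (Finset.univ.filter (fun b => b ≠ bstar (m + 1) d ∧ (I b).2 = Fin.last m)).card

theorem natDegree_Dd_fam {A : Type*} [CommRing A] (I : Ch (m + 1) d) (e : Fin m → A) {k : ℕ}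
    (v : MvPolynomial (Fin (m + 1)) (Polynomial A)) (hv : TD k v) :
    (Dd I (fam d e) v).natDegree ≤ k + M0 I := by
  classical
  have h1 := natDegree_det_le (fun b => if b = bstar (m + 1) d then k else
      if (I b).2 = Fin.last m then 1 else 0) (DM I (fam d e) v) (by
    intro b' b
    simp only [DM, Matrix.of_apply]
    by_cases hb : b = bstar (m + 1) d
    · rw [if_pos hb, if_pos hb]
      exact hv _
    · rw [if_neg hb, if_neg hb]
      unfold col
      have h2 := (TD_monomial (I b).1.1).mul (TD_pderiv_fam (d := d) e (I b).2)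
      rw [zero_add] at h2
      exact h2 _)
  have h3 : ∑ b, (if b = bstar (m + 1) d then k else if (I b).2 = Fin.last m then 1 else 0) =
      k + M0 I := by
    rw [← Finset.add_sum_erase _ _ (Finset.mem_univ (bstar (m + 1) d)), if_pos rfl]
    congr 1
    unfold M0
    rw [Finset.card_filter]
    rw [← Finset.add_sum_erase _ _ (Finset.mem_univ (bstar (m + 1) d))]
    simp only [ne_eq, not_true_eq_false, false_and, if_false, zero_add]
    apply Finset.sum_congr rfl
    intro b hb
    rw [if_neg (Finset.ne_of_mem_erase hb)]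
    simp [Finset.ne_of_mem_erase hb]
  rw [h3] at h1
  convert h1 using 2
  unfold Dd
  congr!

/-- The exponents of the parameter. -/
theorem M0_succ_le (hd : 3 ≤ d) (I : Ch (m + 1) d) (hI : IsMac I) :
    M0 I + 1 ≤ (d - 1) ^ m := by
  classical
  unfold M0
  set s := Finset.univ.filter (fun b => b ≠ bstar (m + 1) d ∧ (I b).2 = Fin.last m) with hs
  have h1 : bstar (m + 1) d ∉ s := by simp [hs]
  rw [← Finset.card_insert_of_notMem h1]
  have hle : ∀ b ∈ insert (bstar (m + 1) d) s, ∀ i : Fin m, b.1 i.castSucc ≤ d - 2 := by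
    intro b hb i
    rw [Finset.mem_insert] at hb
    rcases hb with hb | hb
    · rw [hb]
      change d - 1 - 1 ≤ _
      omega
    · rw [hs, Finset.mem_filter] at hb
      exact (hI b hb.2.1).2 hb.2.2 _ (Fin.castSucc_lt_last i).ne
  have h2 : Fintype.card (Fin m → Fin (d - 1)) = (d - 1) ^ m := by simp
  rw [← h2, ← Finset.card_univ]
  apply Finset.card_le_card_of_injOn
    (fun b => fun i : Fin m => (⟨min (b.1 i.castSucc) (d - 2), by omega⟩ : Fin (d - 1)))
  · intro b _
    simp
  · intro b hb b' hb' h
    apply Subtype.ext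
    have h3 : ∀ i : Fin m, b.1 i.castSucc = b'.1 i.castSucc := by
      intro i
      have h4 := congrFun h i
      simp only [Fin.mk.injEq] at h4
      rwa [min_eq_left (hle b hb i), min_eq_left (hle b' hb' i)] at h4
    have h5 : b.1 (Fin.last m) = b'.1 (Fin.last m) := by
      have e1 := b.2
      have e2 := b'.2
      rw [Finsupp.degree_eq_sum, Fin.sum_univ_castSucc] at e1 e2
      rw [Finset.sum_congr rfl (fun i _ => h3 i)] at e1
      omega
    ext i
    refine Fin.lastCases ?_ (fun j => ?_) i
    · exact h5
    · exact h3 j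

end Pool.V1148.AF
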