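import Mathlib

/-!
# Associated forms: the definitions
-/

set_option autoImplicit false

open MvPolynomial

namespace Pool.V1148.AF

/-- The exponent vectors of degree `d` in `n` variables. -/
abbrev Mon (n d : ℕ) : Type := {m : Fin n →₀ ℕ // m.degree = d}

instance finMon (n d : ℕ) : Finite (Mon n d) := by
  apply Set.Finite.to_subtype (s := {m : Fin n →₀ ℕ | m.degree = d})
  apply Set.Finite.subset (Set.finite_Iic (Finsupp.equivFunOnFinite.symm (fun _ : Fin n => d)))
  intro m hm
  simp only [Set.mem_ofPred_eq] at hm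
  simp only [Set.mem_Iic]
  intro a
  simp only [Finsupp.equivFunOnFinite_symm_apply_apply]
  rw [← hm]
  exact Finsupp.le_degree a m

noncomputable instance ftMon (n d : ℕ) : Fintype (Mon n d) := Fintype.ofFinite _

/-- The form of degree `d` in `z_1, ..., z_n` with coefficient vector `a`. -/
noncomputable def frm {R : Type*} [CommRing R] {n d : ℕ} (a : Mon n d → R) :
    MvPolynomial (Fin n) R :=
  ∑ m : Mon n d, monomial m.1 (a m)

/-- `f` is nondegenerate: its partial derivatives have no common zero except the origin. -/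
def Nondeg {n : ℕ} (f : MvPolynomial (Fin n) ℂ) : Prop :=
  ∀ z : Fin n → ℂ, (∀ i, eval z (pderiv i f) = 0) → z = 0

/-- The Hessian determinant of `f`. -/
noncomputable def hess {R : Type*} [CommRing R] {n : ℕ} (f : MvPolynomial (Fin n) R) :
    MvPolynomial (Fin n) R :=
  (Matrix.of fun i j => pderiv i (pderiv j f)).det

/-- The ideal of the partial derivatives of `f`. -/
noncomputable def jacobianIdeal {n : ℕ} (f : MvPolynomial (Fin n) ℂ) : Ideal (MvPolynomial (Fin n) ℂ) :=
  Ideal.span (Set.range fun i => pderiv i f)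

/-- `G` is the associated form of the form `f` of degree `d`: it is homogeneous of degree
`n (d - 2)` and `(w_1 z_1 + ... + w_n z_n) ^ (n (d - 2))` is congruent to `G(w) hess(f)` modulo
the partial derivatives of `f`, for all `w`. -/
def IsAssociatedForm {n : ℕ} (d : ℕ) (f G : MvPolynomial (Fin n) ℂ) : Prop :=
  G.IsHomogeneous (n * (d - 2)) ∧
    ∀ w : Fin n → ℂ,
      (∑ i, C (w i) * X i) ^ (n * (d - 2)) - C (eval w G) * hess f ∈ jacobianIdeal f

/-- `Δ` is the discriminant of forms of degree `d` in `n` variables: an irreducible polynomial in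
the coefficients whose zeros are exactly the degenerate forms. -/
structure IsDiscriminant (n d : ℕ) (Δ : MvPolynomial (Mon n d) ℂ) : Prop where
  irreducible : Irreducible Δ
  eval_eq_zero_iff : ∀ a : Mon n d → ℂ, eval a Δ = 0 ↔ ¬ Nondeg (frm a)

/-- The morphism `Δ ^ p Φ` on the nondegenerate forms, where `Φ` sends a form to its associated
form, extends to a morphism `Ψ` on all forms of degree `d`. -/
def Extends (n d : ℕ) (Δ : MvPolynomial (Mon n d) ℂ) (p : ℕ) : Prop :=
  ∃ Ψ : Mon n (n * (d - 2)) → MvPolynomial (Mon n d) ℂ,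
    ∀ a : Mon n d → ℂ, Nondeg (frm a) → ∀ G, IsAssociatedForm d (frm a) G →
      frm (fun m => eval a (Ψ m)) = C (eval a Δ ^ p) * G

end Pool.V1148.AF
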