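import Mathlib

set_option autoImplicit false

/-!
# Cohomology of modules over a polynomial ring, in Koszul form
-/

universe u v

namespace Pool.Agent.V1148.Cech

open MvPolynomial

variable {K : Type u} [Field K] {r : ℕ}

/-- The product of the variables of a tuple. -/
noncomputable def mon (K : Type u) [Field K] {p : ℕ} (s : Fin p → Fin r) :
    MvPolynomial (Fin r) K := ∏ k, X (s k)

/-- The differential `w ↦ (∑_k (-1)^k x_{s_k}^N w(s without s_k))_s`. -/
noncomputable def dl (K : Type u) [Field K] (N : ℕ) {p : ℕ} {M : Type v} [AddCommGroup M]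
    [Module (MvPolynomial (Fin r) K) M] (w : (Fin p → Fin r) → M) (s : Fin (p + 1) → Fin r) : M :=
  ∑ k : Fin (p + 1), ((-1) ^ (k : ℕ) * X (s k) ^ N : MvPolynomial (Fin r) K) • w (s ∘ k.succAbove)

/-- Vanishing of the `i`-th cohomology, in the Koszul form. -/
def KV (K : Type u) [Field K] (r : ℕ) (M : Type v) [AddCommGroup M]
    [Module (MvPolynomial (Fin r) K) M] (i : ℕ) : Prop :=
  ∀ (N : ℕ) (c : (Fin (i + 1) → Fin r) → M), (∀ s : Fin (i + 2) → Fin r, dl K N c s = 0) →
    ∃ (N' : ℕ) (w : (Fin i → Fin r) → M), ∀ s : Fin (i + 1) → Fin r,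
      mon K s ^ N' • c s = dl K (N + N') w s

variable {M : Type v} [AddCommGroup M] [Module (MvPolynomial (Fin r) K) M]

theorem cons_comp {p : ℕ} (a : Fin r) (s : Fin (p + 1) → Fin r) (j : Fin (p + 1)) :
    (Fin.cons a s : Fin (p + 2) → Fin r) ∘ j.succ.succAbove =
      (Fin.cons a (s ∘ j.succAbove) : Fin (p + 1) → Fin r) := by
  funext i
  refine Fin.cases ?_ (fun i => ?_) i
  · simp
  · simp

theorem dl_cons (N : ℕ) {p : ℕ} (w : (Fin (p + 1) → Fin r) → M) (a : Fin r)
    (s : Fin (p + 1) → Fin r) :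
    dl K N w (Fin.cons a s : Fin (p + 2) → Fin r) =
      (X a ^ N : MvPolynomial (Fin r) K) • w s -
        dl K N (fun t : Fin p → Fin r => w (Fin.cons a t : Fin (p + 1) → Fin r)) s := by
  unfold dl
  rw [Fin.sum_univ_succ, sub_eq_add_neg, ← Finset.sum_neg_distrib]
  congr 1
  · simp only [Fin.val_zero, pow_zero, one_mul, Fin.cons_zero]
    congr 1
  · apply Finset.sum_congr rfl
    intro k _
    rw [Fin.cons_succ, cons_comp, Fin.val_succ, pow_succ, ← neg_smul]
    congr 1
    ring

theorem dl_add (N : ℕ) {p : ℕ} (w w' : (Fin p → Fin r) → M) (s : Fin (p + 1) → Fin r) :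
    dl K N (fun t => w t + w' t) s = dl K N w s + dl K N w' s := by
  unfold dl
  rw [← Finset.sum_add_distrib]
  apply Finset.sum_congr rfl
  intro k _
  rw [smul_add]

theorem dl_sub (N : ℕ) {p : ℕ} (w w' : (Fin p → Fin r) → M) (s : Fin (p + 1) → Fin r) :
    dl K N (fun t => w t - w' t) s = dl K N w s - dl K N w' s := by
  unfold dl
  rw [← Finset.sum_sub_distrib]
  apply Finset.sum_congr rfl
  intro k _
  rw [smul_sub]

theorem dl_zero (N : ℕ) {p : ℕ} (s : Fin (p + 1) → Fin r) :
    dl K N (fun _ : Fin p → Fin r => (0 : M)) s = 0 := by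
  unfold dl
  simp

theorem dl_smul (N : ℕ) {p : ℕ} (q : MvPolynomial (Fin r) K) (w : (Fin p → Fin r) → M)
    (s : Fin (p + 1) → Fin r) : dl K N (fun t => q • w t) s = q • dl K N w s := by
  unfold dl
  rw [Finset.smul_sum]
  apply Finset.sum_congr rfl
  intro k _
  rw [smul_comm]

theorem dl_map {M' : Type*} [AddCommGroup M'] [Module (MvPolynomial (Fin r) K) M'] (N : ℕ) {p : ℕ}
    (f : M →ₗ[MvPolynomial (Fin r) K] M') (w : (Fin p → Fin r) → M) (s : Fin (p + 1) → Fin r) :
    dl K N (fun t => f (w t)) s = f (dl K N w s) := by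
  unfold dl
  rw [map_sum]
  apply Finset.sum_congr rfl
  intro k _
  rw [map_smul]

theorem dl_dl (N : ℕ) {p : ℕ} (w : (Fin p → Fin r) → M) (s : Fin (p + 2) → Fin r) :
    dl K N (dl K N w) s = 0 := by
  induction p with
  | zero =>
    have e : ∀ t t' : Fin 0 → Fin r, w t = w t' := fun t t' => by
      rw [Subsingleton.elim t t']
    have h1 : ∀ t : Fin 1 → Fin r, dl K N w t =
        (X (t 0) ^ N : MvPolynomial (Fin r) K) • w (fun i => i.elim0) := by
      intro t
      unfold dl
      simp [e _ (fun i => i.elim0)]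
    have h2 : ∀ (v : (Fin 1 → Fin r) → M) (t : Fin 2 → Fin r), dl K N v t =
        (X (t 0) ^ N : MvPolynomial (Fin r) K) • v (fun _ => t 1) -
          (X (t 1) ^ N : MvPolynomial (Fin r) K) • v (fun _ => t 0) := by
      intro v t
      unfold dl
      have e1 : t ∘ (0 : Fin 2).succAbove = fun _ => t 1 := by
        funext i
        fin_cases i
        rfl
      have e2 : t ∘ (1 : Fin 2).succAbove = fun _ => t 0 := by
        funext i
        fin_cases i
        rfl
      simp [Fin.sum_univ_succ]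
      erw [e1, e2]
      rw [sub_eq_add_neg]
    rw [h2, h1, h1, smul_smul, smul_smul, mul_comm, sub_self]
  | succ p ih =>
    have hs : s = (Fin.cons (s 0) (Fin.tail s) : Fin (p + 3) → Fin r) :=
      (Fin.cons_self_tail s).symm
    rw [hs, dl_cons]
    have h1 : (fun t : Fin (p + 1) → Fin r => dl K N w (Fin.cons (s 0) t : Fin (p + 2) → Fin r)) =
        fun t => (X (s 0) ^ N : MvPolynomial (Fin r) K) • w t -
          dl K N (fun t : Fin p → Fin r => w (Fin.cons (s 0) t : Fin (p + 1) → Fin r)) t := by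
      funext t
      rw [dl_cons]
    rw [h1, dl_sub, dl_smul, ih, sub_zero, sub_self]

theorem mon_succAbove {p : ℕ} (s : Fin (p + 1) → Fin r) (k : Fin (p + 1)) :
    mon K s = X (s k) * mon K (s ∘ k.succAbove) := by
  unfold mon
  rw [Fin.prod_univ_succAbove _ k]
  rfl

theorem dl_mon (N N' : ℕ) {p : ℕ} (w : (Fin p → Fin r) → M) (s : Fin (p + 1) → Fin r) :
    dl K (N + N') (fun t => mon K t ^ N' • w t) s = mon K s ^ N' • dl K N w s := by
  unfold dl
  rw [Finset.smul_sum]
  apply Finset.sum_congr rfl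
  intro k _
  rw [smul_smul, smul_smul, mon_succAbove s k]
  congr 1
  ring

theorem KV.retract {M' : Type*} [AddCommGroup M'] [Module (MvPolynomial (Fin r) K) M']
    (f : M →ₗ[MvPolynomial (Fin r) K] M') (g : M' →ₗ[MvPolynomial (Fin r) K] M)
    (h : ∀ x, g (f x) = x) {i : ℕ} (hM : KV K r M' i) : KV K r M i := by
  intro N c hc
  obtain ⟨N', w, hw⟩ := hM N (fun s => f (c s)) (fun s => by rw [dl_map, hc, map_zero])
  refine ⟨N', fun t => g (w t), fun s => ?_⟩
  rw [dl_map, ← hw, map_smul, h]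

/-- The long exact sequence. -/
theorem KV.of_presentation {F P : Type*} [AddCommGroup F] [Module (MvPolynomial (Fin r) K) F]
    [AddCommGroup P] [Module (MvPolynomial (Fin r) K) P]
    (ι : P →ₗ[MvPolynomial (Fin r) K] F) (π : F →ₗ[MvPolynomial (Fin r) K] M)
    (hι : Function.Injective ι) (hπ : Function.Surjective π) (hex : ∀ x, π x = 0 ↔ ∃ y, ι y = x)
    {i : ℕ} (hF : KV K r F i) (hP : KV K r P (i + 1)) : KV K r M i := by
  intro N c hc
  choose c' hc' using fun s => hπ (c s)
  have h1 : ∀ s : Fin (i + 2) → Fin r, ∃ y, ι y = dl K N c' s := by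
    intro s
    rw [← hex, ← dl_map]
    simp only [hc']
    exact hc s
  choose y hy using h1
  obtain ⟨N1, w1, hw1⟩ := hP N y (fun s => by
    apply hι
    rw [← dl_map, map_zero]
    simp only [hy]
    exact dl_dl N c' s)
  obtain ⟨N2, w2, hw2⟩ := hF (N + N1) (fun s => mon K s ^ N1 • c' s - ι (w1 s)) (fun s => by
    rw [dl_sub, dl_mon, dl_map, ← hw1, map_smul, hy, sub_self])
  refine ⟨N1 + N2, fun t => π (w2 t), fun s => ?_⟩
  have h3 : N + (N1 + N2) = N + N1 + N2 := by ring
  rw [dl_map, h3, ← hw2, map_smul, map_sub, map_smul, hc', (hex (ι (w1 s))).2 ⟨_, rfl⟩, sub_zero,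
    smul_smul]
  congr 1
  ring

end Pool.Agent.V1148.Cech
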