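import Mathlib
import Pool.Agent.V1148.Cech1

set_option autoImplicit false

/-!
# Exactness for the polynomial ring
-/

universe u v

namespace Pool.Agent.V1148.Cech

open MvPolynomial

variable {K : Type u} [Field K] {r : ℕ}

/-- The operator used in the contracting homotopy. -/
noncomputable def T (N : ℕ) (j : Fin r) (m : Fin r → ℕ) :
    MvPolynomial (Fin r) K →ₗ[K] MvPolynomial (Fin r) K :=
  (basisMonomials (Fin r) K).constr K fun d =>
    if N * (m j + 1) ≤ d j ∧ ∀ i < j, d i < N * m i then
      monomial (d - Finsupp.single j N) 1 else 0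

theorem T_monomial (N : ℕ) (j : Fin r) (m : Fin r → ℕ) (d : Fin r →₀ ℕ) :
    T N j m (monomial d (1 : K)) = if N * (m j + 1) ≤ d j ∧ ∀ i < j, d i < N * m i then
      monomial (d - Finsupp.single j N) (1 : K) else 0 := by
  unfold T
  have := (basisMonomials (Fin r) K).constr_basis K (fun d =>
    if N * (m j + 1) ≤ d j ∧ ∀ i < j, d i < N * m i then
      monomial (d - Finsupp.single j N) (1 : K) else 0) d
  rwa [coe_basisMonomials] at this

theorem lin_ext {M : Type*} [AddCommGroup M] [Module K M] (f g : MvPolynomial (Fin r) K →ₗ[K] M)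
    (h : ∀ d, f (monomial d 1) = g (monomial d 1)) (x : MvPolynomial (Fin r) K) : f x = g x := by
  have : f = g := by
    apply (basisMonomials (Fin r) K).ext
    intro d
    rw [coe_basisMonomials]
    exact h d
  rw [this]

theorem T_X (N : ℕ) (j i : Fin r) (m m' : Fin r → ℕ)
    (h : ∀ a, m' a = m a + if i = a then 1 else 0) (f : MvPolynomial (Fin r) K) :
    T N j m' (X i ^ N * f) = X i ^ N * T N j m f := by
  apply lin_ext ((T N j m') ∘ₗ (LinearMap.mulLeft K (X i ^ N : MvPolynomial (Fin r) K)))
    ((LinearMap.mulLeft K (X i ^ N : MvPolynomial (Fin r) K)) ∘ₗ (T N j m))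
  intro d
  simp only [LinearMap.comp_apply, LinearMap.mulLeft_apply]
  have e : (X i ^ N : MvPolynomial (Fin r) K) * monomial d 1 =
      monomial (d + Finsupp.single i N) 1 := by
    rw [X_pow_eq_monomial, monomial_mul, one_mul, add_comm]
  rw [e, T_monomial, T_monomial]
  have hc : (N * (m' j + 1) ≤ (d + Finsupp.single i N) j ∧
      ∀ a < j, (d + Finsupp.single i N) a < N * m' a) ↔
      (N * (m j + 1) ≤ d j ∧ ∀ a < j, d a < N * m a) := by
    apply and_congr
    · rw [h, Finsupp.add_apply, Finsupp.single_apply]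
      split_ifs
      · constructor
        · intro h1
          nlinarith
        · intro h1
          nlinarith
      · simp
    · apply forall_congr'
      intro a
      apply imp_congr Iff.rfl
      rw [h, Finsupp.add_apply, Finsupp.single_apply]
      split_ifs
      · constructor
        · intro h1
          nlinarith
        · intro h1
          nlinarith
      · simp
  by_cases h1 : (N * (m j + 1) ≤ d j ∧ ∀ a < j, d a < N * m a)
  · rw [if_pos (hc.2 h1), if_pos h1, X_pow_eq_monomial, monomial_mul, one_mul]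
    congr 1
    have h2 : Finsupp.single j N ≤ d := by
      intro a
      rw [Finsupp.single_apply]
      split_ifs with h3
      · subst h3
        have := h1.1
        nlinarith
      · exact Nat.zero_le _
    rw [add_comm d, add_tsub_assoc_of_le h2]
  · rw [if_neg (fun h3 => h1 (hc.1 h3)), if_neg h1, mul_zero]

theorem T_sum (N : ℕ) (m : Fin r → ℕ) (i : Fin r) (hi : m i = 0) (f : MvPolynomial (Fin r) K) :
    ∑ j, T N j m (X j ^ N * f) = f := by
  have key := lin_ext (∑ j, ((T N j m) ∘ₗ (LinearMap.mulLeft K (X j ^ N : MvPolynomial (Fin r) K))))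
    LinearMap.id (M := MvPolynomial (Fin r) K) (fun d => ?_) f
  · simpa only [LinearMap.sum_apply, LinearMap.comp_apply, LinearMap.mulLeft_apply,
      LinearMap.id_apply] using key
  · simp only [LinearMap.sum_apply, LinearMap.comp_apply, LinearMap.mulLeft_apply,
      LinearMap.id_apply]
    have hex : ∃ k : ℕ, ∃ hk : k < r, N * m ⟨k, hk⟩ ≤ d ⟨k, hk⟩ :=
      ⟨i, i.2, by rw [Fin.eta, hi, mul_zero]; exact Nat.zero_le _⟩
    classical
    obtain ⟨hk, hk2⟩ := Nat.find_spec hex
    have hmin : ∀ a : Fin r, (a : ℕ) < Nat.find hex → d a < N * m a := by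
      intro a ha
      by_contra hcon
      exact Nat.find_min hex ha ⟨a.2, not_lt.1 hcon⟩
    have e : ∀ j : Fin r, (X j ^ N : MvPolynomial (Fin r) K) * monomial d 1 =
        monomial (d + Finsupp.single j N) 1 := by
      intro j
      rw [X_pow_eq_monomial, monomial_mul, one_mul, add_comm]
    rw [Finset.sum_eq_single ⟨Nat.find hex, hk⟩]
    · rw [e, T_monomial, if_pos]
      · congr 1
        simp
      · constructor
        · rw [Finsupp.add_apply, Finsupp.single_apply, if_pos rfl]
          nlinarith
        · intro a ha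
          rw [Finsupp.add_apply, Finsupp.single_apply, if_neg (fun h => by
            rw [h] at ha; exact lt_irrefl _ ha), add_zero]
          exact hmin a ha
    · intro j _ hj
      rw [e, T_monomial, if_neg]
      rintro ⟨h1, h2⟩
      rw [Finsupp.add_apply, Finsupp.single_apply, if_pos rfl] at h1
      have h1' : N * m j ≤ d j := by nlinarith
      rcases lt_trichotomy (j : ℕ) (Nat.find hex) with h3 | h3 | h3
      · exact absurd (hmin j h3) (not_lt.2 h1')
      · apply hj
        apply Fin.ext
        exact h3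
      · have h4 := h2 ⟨Nat.find hex, hk⟩ h3
        rw [Finsupp.add_apply, Finsupp.single_apply, if_neg (fun h => by
          have := congrArg Fin.val h
          simp only at this
          omega), add_zero] at h4
        exact absurd h4 (not_lt.2 hk2)
    · intro h
      exact absurd (Finset.mem_univ _) h

/-- Multiplicities in a tuple. -/
def mult {p : ℕ} (s : Fin p → Fin r) (a : Fin r) : ℕ := ∑ k, if s k = a then 1 else 0

theorem mult_succAbove {p : ℕ} (s : Fin (p + 1) → Fin r) (k : Fin (p + 1)) (a : Fin r) :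
    mult s a = mult (s ∘ k.succAbove) a + if s k = a then 1 else 0 := by
  unfold mult
  rw [Fin.sum_univ_succAbove _ k, add_comm]
  rfl

theorem exists_mult_zero {p : ℕ} (s : Fin p → Fin r) (h : p < r) : ∃ a, mult s a = 0 := by
  have : ∃ a, a ∉ Set.range s := by
    by_contra hcon
    push Not at hcon
    have hsurj : Function.Surjective s := fun a => hcon a
    have := Fintype.card_le_of_surjective s hsurj
    simp at this
    omega
  obtain ⟨a, ha⟩ := this
  refine ⟨a, ?_⟩
  unfold mult
  apply Finset.sum_eq_zero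
  intro k _
  rw [if_neg]
  intro h
  exact ha ⟨k, h⟩

/-- Exactness of the complexes for the polynomial ring. -/
theorem exact_S (N : ℕ) {p : ℕ} (hp : p + 1 < r) (c : (Fin (p + 1) → Fin r) → MvPolynomial (Fin r) K)
    (hc : ∀ s : Fin (p + 2) → Fin r, dl K N c s = 0) :
    ∃ w : (Fin p → Fin r) → MvPolynomial (Fin r) K, ∀ s, c s = dl K N w s := by
  refine ⟨fun t => ∑ j, T N j (mult t) (c (Fin.cons j t : Fin (p + 1) → Fin r)), fun s => ?_⟩
  obtain ⟨a, ha⟩ := exists_mult_zero s hp
  have h1 : ∀ j, T N j (mult s) (X j ^ N * c s) =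
      ∑ k : Fin (p + 1), ((-1) ^ (k : ℕ) * X (s k) ^ N : MvPolynomial (Fin r) K) •
        T N j (mult (s ∘ k.succAbove)) (c (Fin.cons j (s ∘ k.succAbove) : Fin (p + 1) → Fin r)) := by
    intro j
    have h2 := hc (Fin.cons j s : Fin (p + 2) → Fin r)
    rw [dl_cons, sub_eq_zero, smul_eq_mul] at h2
    rw [h2]
    unfold dl
    rw [map_sum]
    apply Finset.sum_congr rfl
    intro k _
    rw [smul_eq_mul, smul_eq_mul]
    have h3 : ((-1) ^ (k : ℕ) * X (s k) ^ N : MvPolynomial (Fin r) K) *
        c (Fin.cons j (s ∘ k.succAbove) : Fin (p + 1) → Fin r) =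
        ((-1 : K) ^ (k : ℕ)) • (X (s k) ^ N * c (Fin.cons j (s ∘ k.succAbove) :
          Fin (p + 1) → Fin r)) := by
      rw [MvPolynomial.smul_eq_C_mul, map_pow, map_neg, map_one]
      ring
    rw [h3, map_smul, T_X N j (s k) (mult (s ∘ k.succAbove)) (mult s)
      (fun a => mult_succAbove s k a)]
    rw [MvPolynomial.smul_eq_C_mul, map_pow, map_neg, map_one]
    ring
  calc c s = ∑ j, T N j (mult s) (X j ^ N * c s) := (T_sum N (mult s) a ha _).symm
    _ = ∑ j, ∑ k : Fin (p + 1), ((-1) ^ (k : ℕ) * X (s k) ^ N : MvPolynomial (Fin r) K) •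
        T N j (mult (s ∘ k.succAbove)) (c (Fin.cons j (s ∘ k.succAbove) :
          Fin (p + 1) → Fin r)) := by
      apply Finset.sum_congr rfl
      intro j _
      rw [h1]
    _ = _ := by
      rw [Finset.sum_comm]
      unfold dl
      apply Finset.sum_congr rfl
      intro k _
      rw [Finset.smul_sum]

theorem exact_free {ι : Type*} (N : ℕ) {p : ℕ} (hp : p + 1 < r)
    (c : (Fin (p + 1) → Fin r) → (ι → MvPolynomial (Fin r) K))
    (hc : ∀ s : Fin (p + 2) → Fin r, dl K N c s = 0) :
    ∃ w : (Fin p → Fin r) → (ι → MvPolynomial (Fin r) K), ∀ s, c s = dl K N w s := by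
  have h := fun b => exact_S N hp (fun s => c s b) (fun s => by
    have := congrFun (hc s) b
    rw [Pi.zero_apply] at this
    rw [← this]
    exact dl_map (K := K) N (LinearMap.proj b : (ι → MvPolynomial (Fin r) K)
      →ₗ[MvPolynomial (Fin r) K] MvPolynomial (Fin r) K) c s)
  choose w hw using h
  refine ⟨fun t b => w b t, fun s => ?_⟩
  funext b
  rw [hw]
  exact dl_map (K := K) N (LinearMap.proj b : (ι → MvPolynomial (Fin r) K)
      →ₗ[MvPolynomial (Fin r) K] MvPolynomial (Fin r) K) (fun t b => w b t) s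

theorem KV_free {ι : Type*} {i : ℕ} (hi : i + 1 < r) :
    KV K r (ι → MvPolynomial (Fin r) K) i := by
  intro N c hc
  obtain ⟨w, hw⟩ := exact_free N hi c hc
  refine ⟨0, w, fun s => ?_⟩
  rw [pow_zero, one_smul, add_zero]
  exact hw s

theorem KV_ring {i : ℕ} (hi : i + 1 < r) : KV K r (MvPolynomial (Fin r) K) i := by
  intro N c hc
  obtain ⟨w, hw⟩ := exact_S N hi c hc
  refine ⟨0, w, fun s => ?_⟩
  rw [pow_zero, one_smul, add_zero]
  exact hw s

end Pool.Agent.V1148.Cech
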