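import Mathlib

set_option autoImplicit false

/-!
# Projective dimension of modules over a commutative ring: elementary tools
-/

universe u

namespace Pool.Agent.V1148.PD

open CategoryTheory Abelian

variable {S : Type u} [CommRing S]

theorem pd_of_equiv {M N : Type u} [AddCommGroup M] [Module S M] [AddCommGroup N] [Module S N]
    (e : M ≃ₗ[S] N) (n : ℕ) (h : HasProjectiveDimensionLT (ModuleCat.of S M) n) :
    HasProjectiveDimensionLT (ModuleCat.of S N) n :=
  hasProjectiveDimensionLT_of_iso e.toModuleIso n

/-- A short exact sequence of modules given by linear maps. -/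
theorem shortExact_of {L M N : Type u} [AddCommGroup L] [Module S L] [AddCommGroup M] [Module S M]
    [AddCommGroup N] [Module S N] (f : L →ₗ[S] M) (g : M →ₗ[S] N) (hf : Function.Injective f)
    (hg : Function.Surjective g) (hfg : Function.Exact f g) :
    (ModuleCat.shortComplexOfCompEqZero f g hfg.linearMap_comp_eq_zero).ShortExact where
  exact := ModuleCat.shortComplex_exact _ hfg
  mono_f := by simpa [ModuleCat.mono_iff_injective] using hf
  epi_g := by simpa [ModuleCat.epi_iff_surjective] using hg

theorem pd_middle {L M N : Type u} [AddCommGroup L] [Module S L] [AddCommGroup M] [Module S M]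
    [AddCommGroup N] [Module S N] (f : L →ₗ[S] M) (g : M →ₗ[S] N) (hf : Function.Injective f)
    (hg : Function.Surjective g) (hfg : Function.Exact f g) (n : ℕ)
    (h1 : HasProjectiveDimensionLT (ModuleCat.of S L) n)
    (h3 : HasProjectiveDimensionLT (ModuleCat.of S N) n) :
    HasProjectiveDimensionLT (ModuleCat.of S M) n :=
  (shortExact_of f g hf hg hfg).hasProjectiveDimensionLT_X₂ n h1 h3

theorem pd_right {L M N : Type u} [AddCommGroup L] [Module S L] [AddCommGroup M] [Module S M]
    [AddCommGroup N] [Module S N] (f : L →ₗ[S] M) (g : M →ₗ[S] N) (hf : Function.Injective f)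
    (hg : Function.Surjective g) (hfg : Function.Exact f g) (n : ℕ)
    (h1 : HasProjectiveDimensionLT (ModuleCat.of S L) n)
    (h2 : HasProjectiveDimensionLT (ModuleCat.of S M) (n + 1)) :
    HasProjectiveDimensionLT (ModuleCat.of S N) (n + 1) :=
  (shortExact_of f g hf hg hfg).hasProjectiveDimensionLT_X₃ n h1 h2

theorem pd_free (M : Type u) [AddCommGroup M] [Module S M] [Module.Free S M] :
    HasProjectiveDimensionLT (ModuleCat.of S M) 1 := by
  have h1 : Module.Projective S M := inferInstance
  have : Projective (ModuleCat.of S M) := (IsProjective.iff_projective M).1 h1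
  infer_instance

/-- A submodule `M` with a linear functional `ψ` whose kernel and image have projective
dimension less than `n`. -/
theorem pd_of_ker_range {M N : Type u} [AddCommGroup M] [Module S M] [AddCommGroup N] [Module S N]
    (ψ : M →ₗ[S] N) (n : ℕ) (h1 : HasProjectiveDimensionLT (ModuleCat.of S (LinearMap.ker ψ)) n)
    (h3 : HasProjectiveDimensionLT (ModuleCat.of S (LinearMap.range ψ)) n) :
    HasProjectiveDimensionLT (ModuleCat.of S M) n := by
  apply pd_middle (LinearMap.ker ψ).subtype ψ.rangeRestrict Subtype.val_injective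
    ψ.surjective_rangeRestrict _ n h1 h3
  intro x
  simp only [Set.mem_range]
  constructor
  · intro h
    refine ⟨⟨x, ?_⟩, rfl⟩
    rw [LinearMap.mem_ker]
    exact congrArg Subtype.val h
  · rintro ⟨y, rfl⟩
    apply Subtype.ext
    exact y.2

/-- Division of a functional by a scalar. -/
theorem exists_div {M : Type u} [AddCommGroup M] [Module S M] [IsDomain S] (φ : M →ₗ[S] S) (c : S)
    (hc : c ≠ 0) (h : ∀ m, c ∣ φ m) : ∃ ψ : M →ₗ[S] S, ∀ m, φ m = c * ψ m := by
  choose q hq using h
  refine ⟨{ toFun := q, map_add' := ?_, map_smul' := ?_ }, hq⟩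
  · intro x y
    apply mul_left_cancel₀ hc
    rw [← hq, map_add, hq, hq, mul_add]
  · intro r x
    apply mul_left_cancel₀ hc
    rw [← hq, map_smul, hq, smul_eq_mul, RingHom.id_apply, smul_eq_mul]
    ring

/-- One step of a filtration of a submodule `N` of `T`: the functional `φ` takes on `N` exactly
the values `c q`, `q ∈ I`. -/
theorem pd_step {T : Type u} [AddCommGroup T] [Module S T] [IsDomain S] (N : Submodule S T)
    (φ : T →ₗ[S] S) (c : S) (hc : c ≠ 0) (I : Ideal S)
    (hI : ∀ q, q ∈ I ↔ ∃ v ∈ N, φ v = c * q) (hdiv : ∀ v ∈ N, c ∣ φ v) (n : ℕ)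
    (h1 : HasProjectiveDimensionLT (ModuleCat.of S ↥(N ⊓ LinearMap.ker φ)) n)
    (h2 : HasProjectiveDimensionLT (ModuleCat.of S I) n) :
    HasProjectiveDimensionLT (ModuleCat.of S N) n := by
  obtain ⟨ψ, hψ⟩ := exists_div (φ ∘ₗ N.subtype) c hc (fun v => hdiv v.1 v.2)
  have hψ' : ∀ v : N, φ v.1 = c * ψ v := hψ
  have hmem : ∀ v : N, ψ v ∈ I := fun v => (hI _).2 ⟨v.1, v.2, hψ' v⟩
  apply pd_middle (Submodule.inclusion inf_le_left : ↥(N ⊓ LinearMap.ker φ) →ₗ[S] N)
    (ψ.codRestrict I hmem) (Submodule.inclusion_injective _) _ _ n h1 h2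
  · rintro ⟨q, hq⟩
    obtain ⟨v, hv, hvq⟩ := (hI q).1 hq
    refine ⟨⟨v, hv⟩, ?_⟩
    apply Subtype.ext
    apply mul_left_cancel₀ hc
    rw [← hvq, LinearMap.codRestrict_apply, ← hψ']
  · intro v
    constructor
    · intro h
      have h3 : ψ v = 0 := congrArg Subtype.val h
      refine ⟨⟨v.1, v.2, ?_⟩, rfl⟩
      rw [SetLike.mem_coe, LinearMap.mem_ker, hψ' v, h3, mul_zero]
    · rintro ⟨w, rfl⟩
      apply Subtype.ext
      rw [LinearMap.codRestrict_apply]
      have h4 := hψ' (Submodule.inclusion inf_le_left w)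
      have h5 : φ (Submodule.inclusion inf_le_left w : N).1 = 0 := w.2.2
      rw [h5] at h4
      exact (mul_eq_zero.1 h4.symm).resolve_left hc

/-- A module with a free presentation with free kernel has projective dimension at most one. -/
theorem pd_le_one_of_resolution {a b : ℕ} {N : Type u} [AddCommGroup N] [Module S N]
    (f : (Fin a → S) →ₗ[S] (Fin b → S)) (g : (Fin b → S) →ₗ[S] N) (hf : Function.Injective f)
    (hg : Function.Surjective g) (hfg : Function.Exact f g) :
    HasProjectiveDimensionLT (ModuleCat.of S N) 2 :=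
  pd_right f g hf hg hfg 1 (pd_free _) (by
    have := pd_free (S := S) (Fin b → S)
    exact hasProjectiveDimensionLT_of_ge _ 1 2 (by norm_num))

end Pool.Agent.V1148.PD
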