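import Mathlib
import Pool.Agent.V1148.Cech2
import Pool.Agent.V1148.PD1

set_option autoImplicit false

/-!
# Vanishing for modules of projective dimension at most one
-/

universe u

namespace Pool.Agent.V1148.Cech

open MvPolynomial CategoryTheory Pool.Agent.V1148.PD

variable {K : Type u} [Field K] {r : ℕ}

theorem KV_projective {P : Type u} [AddCommGroup P] [Module (MvPolynomial (Fin r) K) P]
    [Module.Finite (MvPolynomial (Fin r) K) P] [Module.Projective (MvPolynomial (Fin r) K) P]
    {i : ℕ} (hi : i + 1 < r) : KV K r P i := by
  obtain ⟨n, f, hf⟩ := Module.Finite.exists_fin' (MvPolynomial (Fin r) K) P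
  obtain ⟨g, hg⟩ := Module.projective_lifting_property f LinearMap.id hf
  exact KV.retract g f (fun x => by
    have := LinearMap.congr_fun hg x
    simpa using this) (KV_free (K := K) (ι := Fin n) hi)

theorem KV_of_pd {M : Type u} [AddCommGroup M] [Module (MvPolynomial (Fin r) K) M]
    [Module.Finite (MvPolynomial (Fin r) K) M]
    (h : HasProjectiveDimensionLT (ModuleCat.of (MvPolynomial (Fin r) K) M) 2)
    {i : ℕ} (hi : i + 2 < r) : KV K r M i := by
  obtain ⟨n, f, hf⟩ := Module.Finite.exists_fin' (MvPolynomial (Fin r) K) M
  have hse := shortExact_of (LinearMap.ker f).subtype f Subtype.val_injective hf (by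
    intro x
    simp)
  have h1 : HasProjectiveDimensionLT (ModuleCat.of (MvPolynomial (Fin r) K)
      (LinearMap.ker f)) 1 := by
    have h2 := pd_free (S := MvPolynomial (Fin r) K) (Fin n → MvPolynomial (Fin r) K)
    exact hse.hasProjectiveDimensionLT_X₁ 1 h2 h
  have h3 : Module.Projective (MvPolynomial (Fin r) K) (LinearMap.ker f) := by
    rw [IsProjective.iff_projective]
    exact projective_iff_hasProjectiveDimensionLT_one.2 h1
  have h4 : KV K r (LinearMap.ker f) (i + 1) := KV_projective hi
  exact KV.of_presentation (LinearMap.ker f).subtype f Subtype.val_injective hf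
    (fun x => by simp) (KV_free (K := K) (ι := Fin n) (by omega)) h4

end Pool.Agent.V1148.Cech
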