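import Mathlib
import Pool.Agent.V1148.ArrDefs

set_option autoImplicit false

/-!
# Stable freeness of hyperplane arrangements: definitions

The cohomology modules `H^i_*` of the sheaf on projective space associated with a module of
polynomial vector fields are computed by the Čech complex of the standard covering.
-/

universe u

namespace Pool.Agent.V1148

open MvPolynomial

variable {K : Type u} [Field K] {r d : ℕ}

/-- The module `D_0(A)` of the logarithmic derivations killing the defining polynomial `Q`. -/
noncomputable def logDer0 (A : Fin d → Fin r → K) :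
    Submodule (MvPolynomial (Fin r) K)
      (Derivation K (MvPolynomial (Fin r) K) (MvPolynomial (Fin r) K)) where
  carrier := {θ | θ ∈ logDer A ∧ θ (∏ i, lin (A i)) = 0}
  add_mem' := fun {θ η} hθ hη => ⟨Submodule.add_mem _ hθ.1 hη.1, by
    rw [Derivation.add_apply, hθ.2, hη.2, add_zero]⟩
  zero_mem' := ⟨Submodule.zero_mem _, by rw [Derivation.zero_apply]⟩
  smul_mem' := fun q θ hθ => ⟨Submodule.smul_mem _ q hθ.1, by
    rw [Derivation.smul_apply, hθ.2, smul_zero]⟩

/-- The rational vector field `v = ∑ v_a ∂_a` on affine space lies in the localisation `M_f` of the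
module `M` of polynomial vector fields: `f^N v ∈ M` for some `N`. -/
def InLoc (M : Submodule (MvPolynomial (Fin r) K)
      (Derivation K (MvPolynomial (Fin r) K) (MvPolynomial (Fin r) K)))
    (f : MvPolynomial (Fin r) K) (v : Fin r → FractionRing (MvPolynomial (Fin r) K)) : Prop :=
  ∃ N : ℕ, ∃ θ ∈ M, ∀ a, algebraMap (MvPolynomial (Fin r) K)
    (FractionRing (MvPolynomial (Fin r) K)) (f ^ N) * v a =
      algebraMap (MvPolynomial (Fin r) K) (FractionRing (MvPolynomial (Fin r) K)) (θ (X a))

/-- `c` is a Čech cochain of the module `M` with respect to the covering by the open sets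
`x_j ≠ 0`: for every tuple `s = (s_0, …, s_{p-1})` of indices `c s` lies in `M` localised at
`x_{s_0} ⋯ x_{s_{p-1}}`. -/
def IsCochain (M : Submodule (MvPolynomial (Fin r) K)
      (Derivation K (MvPolynomial (Fin r) K) (MvPolynomial (Fin r) K))) {p : ℕ}
    (c : (Fin p → Fin r) → Fin r → FractionRing (MvPolynomial (Fin r) K)) : Prop :=
  ∀ s, InLoc M (∏ k, X (s k)) (c s)

/-- The Čech differential `(dc)(s) = ∑_k (-1)^k c(s_0, …, ŝ_k, …)`. -/
noncomputable def cechD {p : ℕ}
    (c : (Fin p → Fin r) → Fin r → FractionRing (MvPolynomial (Fin r) K))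
    (s : Fin (p + 1) → Fin r) : Fin r → FractionRing (MvPolynomial (Fin r) K) :=
  fun a => ∑ k : Fin (p + 1), (-1) ^ (k : ℕ) * c (s ∘ k.succAbove) a

/-- For `i ≥ 1`: the `i`-th Čech cohomology of `M` vanishes, that is `H^i_* = 0` for the sheaf
associated with `M`. -/
def CechVanishes (M : Submodule (MvPolynomial (Fin r) K)
      (Derivation K (MvPolynomial (Fin r) K) (MvPolynomial (Fin r) K))) (i : ℕ) : Prop :=
  ∀ c : (Fin (i + 1) → Fin r) → Fin r → FractionRing (MvPolynomial (Fin r) K), IsCochain M c →
    (∀ s, cechD c s = 0) →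
      ∃ b : (Fin i → Fin r) → Fin r → FractionRing (MvPolynomial (Fin r) K), IsCochain M b ∧
        ∀ s, c s = cechD b s

/-- The arrangement in `ℙ^n` with defining forms `A i ∈ K[x_0, …, x_n]` is stably free: the
cohomology modules `H^i_*`, `2 ≤ i ≤ n - 2`, of the sheaf associated with `D_0(A)` vanish. -/
def StablyFree {n : ℕ} (A : Fin d → Fin (n + 1) → K) : Prop :=
  ∀ i : ℕ, 2 ≤ i → i + 2 ≤ n → CechVanishes (logDer0 A) i

end Pool.Agent.V1148
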