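import Mathlib
import Pool.Agent.V1148.Cech1
import Pool.Agent.V1148.StableDefs

set_option autoImplicit false

/-!
# Čech cohomology and its Koszul form
-/

universe u

namespace Pool.Agent.V1148.Cech

open MvPolynomial

variable {K : Type u} [Field K] {r : ℕ}

/-- Clearing of denominators. -/
def Rep (M : Submodule (MvPolynomial (Fin r) K)
      (Derivation K (MvPolynomial (Fin r) K) (MvPolynomial (Fin r) K))) (N : ℕ) {p : ℕ}
    (w : (Fin p → Fin r) → M)
    (c : (Fin p → Fin r) → Fin r → FractionRing (MvPolynomial (Fin r) K)) : Prop :=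
  ∀ t a, algebraMap (MvPolynomial (Fin r) K) (FractionRing (MvPolynomial (Fin r) K))
    (mon K t ^ N) * c t a = algebraMap (MvPolynomial (Fin r) K)
      (FractionRing (MvPolynomial (Fin r) K)) ((w t).1 (X a))

variable {M : Submodule (MvPolynomial (Fin r) K)
      (Derivation K (MvPolynomial (Fin r) K) (MvPolynomial (Fin r) K))}

theorem alg_inj {p q : MvPolynomial (Fin r) K}
    (h : algebraMap (MvPolynomial (Fin r) K) (FractionRing (MvPolynomial (Fin r) K)) p =
      algebraMap (MvPolynomial (Fin r) K) (FractionRing (MvPolynomial (Fin r) K)) q) : p = q :=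
  IsFractionRing.injective _ _ h

theorem mon_ne_zero {p : ℕ} (s : Fin p → Fin r) : mon K s ≠ 0 :=
  Finset.prod_ne_zero_iff.2 fun _ _ => X_ne_zero _

theorem alg_mon_ne_zero {p : ℕ} (s : Fin p → Fin r) (N : ℕ) :
    algebraMap (MvPolynomial (Fin r) K) (FractionRing (MvPolynomial (Fin r) K))
      (mon K s ^ N) ≠ 0 := by
  intro h
  have := alg_inj (h.trans (map_zero _).symm)
  exact pow_ne_zero N (mon_ne_zero s) this

theorem dl_coe (N : ℕ) {p : ℕ} (w : (Fin p → Fin r) → M) (s : Fin (p + 1) → Fin r)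
    (q : MvPolynomial (Fin r) K) :
    (dl K N w s).1 q = ∑ k : Fin (p + 1), ((-1) ^ (k : ℕ) * X (s k) ^ N) *
      (w (s ∘ k.succAbove)).1 q := by
  unfold dl
  rw [AddSubmonoidClass.coe_finsetSum]
  rw [← Derivation.coeFnAddMonoidHom_apply, map_sum, Finset.sum_apply]
  rfl

theorem Rep.dl {N : ℕ} {p : ℕ} {w : (Fin p → Fin r) → M}
    {c : (Fin p → Fin r) → Fin r → FractionRing (MvPolynomial (Fin r) K)} (h : Rep M N w c)
    (s : Fin (p + 1) → Fin r) (a : Fin r) :
    algebraMap (MvPolynomial (Fin r) K) (FractionRing (MvPolynomial (Fin r) K))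
      (mon K s ^ N) * cechD c s a = algebraMap (MvPolynomial (Fin r) K)
        (FractionRing (MvPolynomial (Fin r) K)) ((dl K N w s).1 (X a)) := by
  rw [dl_coe, map_sum, cechD, Finset.mul_sum]
  apply Finset.sum_congr rfl
  intro k _
  rw [map_mul, ← h, mon_succAbove s k, mul_pow, map_mul, map_mul, map_pow (algebraMap _ _) (-1),
    map_neg, map_one]
  ring

theorem exists_rep {p : ℕ} {c : (Fin p → Fin r) → Fin r → FractionRing (MvPolynomial (Fin r) K)}
    (hc : IsCochain M c) : ∃ N0 : ℕ, ∀ N, N0 ≤ N → ∃ w, Rep M N w c := by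
  choose N θ hθ hv using hc
  refine ⟨∑ s, N s, fun N' hN' => ?_⟩
  have hle : ∀ s, N s ≤ N' := fun s =>
    le_trans (Finset.single_le_sum (f := N) (fun _ _ => Nat.zero_le _) (Finset.mem_univ s)) hN'
  refine ⟨fun s => ⟨mon K s ^ (N' - N s) • θ s, M.smul_mem _ (hθ s)⟩, fun s a => ?_⟩
  rw [Derivation.smul_apply, smul_eq_mul, map_mul, ← hv s a]
  have e : mon K s ^ N' = mon K s ^ (N' - N s) * (∏ k, X (s k)) ^ (N s) := by
    change mon K s ^ N' = mon K s ^ (N' - N s) * (mon K s) ^ (N s)
    rw [← pow_add, Nat.sub_add_cancel (hle s)]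
  rw [e, map_mul]
  ring

/-- The cochain with given numerators. -/
noncomputable def ofRep (N : ℕ) {p : ℕ} (w : (Fin p → Fin r) → M) :
    (Fin p → Fin r) → Fin r → FractionRing (MvPolynomial (Fin r) K) := fun t a =>
  algebraMap (MvPolynomial (Fin r) K) (FractionRing (MvPolynomial (Fin r) K)) ((w t).1 (X a)) /
    algebraMap (MvPolynomial (Fin r) K) (FractionRing (MvPolynomial (Fin r) K)) (mon K t ^ N)

theorem rep_ofRep (N : ℕ) {p : ℕ} (w : (Fin p → Fin r) → M) : Rep M N w (ofRep N w) := by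
  intro t a
  unfold ofRep
  rw [mul_div_cancel₀]
  exact alg_mon_ne_zero t N

theorem Rep.isCochain {N : ℕ} {p : ℕ} {w : (Fin p → Fin r) → M}
    {c : (Fin p → Fin r) → Fin r → FractionRing (MvPolynomial (Fin r) K)} (h : Rep M N w c) :
    IsCochain M c := fun s => ⟨N, (w s).1, (w s).2, fun a => h s a⟩

theorem ext_X {θ η : M} (h : ∀ a, θ.1 (X a) = η.1 (X a)) : θ = η := by
  apply Subtype.ext
  apply MvPolynomial.derivation_ext
  intro a
  exact h a

theorem smul_coe (q : MvPolynomial (Fin r) K) (θ : M) (p : MvPolynomial (Fin r) K) :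
    (q • θ).1 p = q * θ.1 p := rfl

theorem vanishes_iff (i : ℕ) : CechVanishes M i ↔ KV K r M i := by
  constructor
  · intro h N c hc
    have hr := rep_ofRep N c
    obtain ⟨b, hb, hcb⟩ := h (ofRep N c) hr.isCochain (fun s => by
      funext a
      have h1 := hr.dl s a
      rw [hc s] at h1
      have h2 : ((0 : M).1 (X a) : MvPolynomial (Fin r) K) = 0 := rfl
      rw [h2, map_zero] at h1
      exact (mul_eq_zero.1 h1).resolve_left (alg_mon_ne_zero s N))
    obtain ⟨N0, hN0⟩ := exists_rep hb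
    obtain ⟨w, hw⟩ := hN0 (N + N0) (Nat.le_add_left _ _)
    refine ⟨N0, w, fun s => ?_⟩
    apply ext_X
    intro a
    apply alg_inj
    rw [← hw.dl s a, ← congrFun (hcb s) a, smul_coe, map_mul, ← hr s a, pow_add, map_mul]
    ring
  · intro h c hc hcoc
    obtain ⟨N, hN⟩ := exists_rep hc
    obtain ⟨u, hu⟩ := hN N le_rfl
    obtain ⟨N', w, hw⟩ := h N u (fun s => by
      apply ext_X
      intro a
      apply alg_inj
      rw [← hu.dl s a, hcoc s]
      have h2 : ((0 : M).1 (X a) : MvPolynomial (Fin r) K) = 0 := rfl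
      rw [h2, map_zero]
      exact mul_zero _)
    have hr := rep_ofRep (N + N') w
    refine ⟨ofRep (N + N') w, hr.isCochain, fun s => ?_⟩
    funext a
    apply mul_left_cancel₀ (alg_mon_ne_zero s (N + N'))
    rw [hr.dl s a, ← hw, smul_coe, map_mul, ← hu s a, pow_add, map_mul]
    ring

end Pool.Agent.V1148.Cech
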