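import Mathlib
import Pool.Agent.V1148.ArrDefs
import Pool.Agent.V1148.Arr3

set_option autoImplicit false

/-!
# Logarithmic derivations as vectors
-/

namespace Pool.Agent.V1148

open MvPolynomial

variable {K : Type*} [Field K] {n l : ℕ}

/-- The map `v ↦ (∑_j a_{ij} v_j mod α_i)_i`, whose kernel is the module of logarithmic
derivations. -/
noncomputable def logMap (A : Fin n → Fin l → K) :
    (Fin l → MvPolynomial (Fin l) K) →ₗ[MvPolynomial (Fin l) K]
      (∀ i : Fin n, MvPolynomial (Fin l) K ⧸ Ideal.span {lin (A i)}) :=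
  LinearMap.pi fun i => (Submodule.mkQ (Ideal.span {lin (A i)})) ∘ₗ
    (∑ j, (C (A i j) : MvPolynomial (Fin l) K) • LinearMap.proj j)

theorem logMap_apply (A : Fin n → Fin l → K) (v : Fin l → MvPolynomial (Fin l) K) (i : Fin n) :
    logMap A v i = Submodule.Quotient.mk (∑ j, C (A i j) * v j) := by
  simp only [logMap, LinearMap.pi_apply, LinearMap.comp_apply, Submodule.mkQ_apply]
  congr 1
  simp [LinearMap.sum_apply]

theorem mem_ker_logMap (A : Fin n → Fin l → K) (v : Fin l → MvPolynomial (Fin l) K) :
    v ∈ LinearMap.ker (logMap A) ↔ ∀ i, lin (A i) ∣ ∑ j, C (A i j) * v j := by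
  rw [LinearMap.mem_ker, funext_iff]
  apply forall_congr'
  intro i
  rw [logMap_apply, Pi.zero_apply, Submodule.Quotient.mk_eq_zero, Ideal.mem_span_singleton]

/-- Logarithmic derivations and their coefficient vectors. -/
noncomputable def logEquiv (A : Fin n → Fin l → K) :
    logDer A ≃ₗ[MvPolynomial (Fin l) K] LinearMap.ker (logMap A) where
  toFun θ := ⟨fun j => θ.1 (X j), by
    rw [mem_ker_logMap]
    intro i
    have := θ.2 i
    rwa [der_lin] at this⟩
  map_add' θ η := by
    apply Subtype.ext
    funext j
    rfl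
  map_smul' r θ := by
    apply Subtype.ext
    funext j
    rfl
  invFun v := ⟨mkDerivation K v.1, by
    intro i
    rw [der_lin]
    have h := (mem_ker_logMap A v.1).1 v.2 i
    simpa only [mkDerivation_X] using h⟩
  left_inv θ := by
    apply Subtype.ext
    apply MvPolynomial.derivation_ext
    intro j
    simp [mkDerivation_X]
  right_inv v := by
    apply Subtype.ext
    funext j
    simp [mkDerivation_X]

end Pool.Agent.V1148
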