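import Mathlib
import Pool.Agent.V1148.Cech3
import Pool.Agent.V1148.Cech4
import Pool.Agent.V1148.E7Link

set_option autoImplicit false

/-!
# Splitting off the Euler derivation
-/

universe u

namespace Pool.Agent.V1148.Cech

open MvPolynomial Pool.Agent.V1148.PD CategoryTheory

variable {K : Type u} [Field K] {r d : ℕ}

/-- The Euler derivation. -/
noncomputable def eul (K : Type u) [Field K] (r : ℕ) :
    Derivation K (MvPolynomial (Fin r) K) (MvPolynomial (Fin r) K) := mkDerivation K X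

theorem eul_lin (a : Fin r → K) : eul K r (lin a) = lin a := by
  rw [der_lin]
  simp only [eul, mkDerivation_X]
  rfl

theorem eul_prod (A : Fin d → Fin r → K) (s : Finset (Fin d)) :
    eul K r (∏ i ∈ s, lin (A i)) = (s.card : MvPolynomial (Fin r) K) * ∏ i ∈ s, lin (A i) := by
  classical
  induction s using Finset.induction_on with
  | empty => simp
  | insert i s hi ih =>
    rw [Finset.prod_insert hi, Derivation.leibniz, ih, eul_lin, Finset.card_insert_of_notMem hi]
    simp only [smul_eq_mul]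
    push_cast
    ring

theorem prod_dvd (A : Fin d → Fin r → K) (θ : logDer A) (s : Finset (Fin d)) :
    ∏ i ∈ s, lin (A i) ∣ θ.1 (∏ i ∈ s, lin (A i)) := by
  classical
  induction s using Finset.induction_on with
  | empty => simp
  | insert i s hi ih =>
    rw [Finset.prod_insert hi, Derivation.leibniz, smul_eq_mul, smul_eq_mul]
    apply dvd_add
    · exact mul_dvd_mul_left _ ih
    · rw [mul_comm]
      exact mul_dvd_mul_left _ (θ.2 i)

theorem eul_mem (A : Fin d → Fin r → K) : eul K r ∈ logDer A := fun i => by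
  rw [eul_lin]

theorem exists_split [CharZero K] (A : Fin d → Fin r → K) (hd : d ≠ 0) (hA : ∀ i, lin (A i) ≠ 0) :
    ∃ (g : logDer A →ₗ[MvPolynomial (Fin r) K] logDer0 A)
      (ψ : logDer A →ₗ[MvPolynomial (Fin r) K] MvPolynomial (Fin r) K)
      (ι : logDer0 A →ₗ[MvPolynomial (Fin r) K] logDer A) (e : logDer A),
      (∀ θ, g (ι θ) = θ) ∧ ∀ θ, θ = ι (g θ) + ψ θ • e := by
  let φ : logDer A →ₗ[MvPolynomial (Fin r) K] MvPolynomial (Fin r) K :=
    { toFun := fun θ => θ.1 (∏ i, lin (A i))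
      map_add' := fun θ η => rfl
      map_smul' := fun q θ => rfl }
  have hQ : (∏ i, lin (A i)) ≠ 0 := Finset.prod_ne_zero_iff.2 fun i _ => hA i
  obtain ⟨ψ, hψ⟩ := exists_div φ (∏ i, lin (A i)) hQ (fun θ => prod_dvd A θ _)
  have hψ' : ∀ θ : logDer A, θ.1 (∏ i, lin (A i)) = (∏ i, lin (A i)) * ψ θ := hψ
  let e : logDer A := ⟨C ((d : K)⁻¹) • eul K r, Submodule.smul_mem _ _ (eul_mem A)⟩
  have he : e.1 (∏ i, lin (A i)) = ∏ i, lin (A i) := by
    change (C ((d : K)⁻¹) • eul K r) (∏ i, lin (A i)) = _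
    rw [Derivation.smul_apply, eul_prod, Finset.card_univ, Fintype.card_fin, smul_eq_mul,
      ← mul_assoc, ← map_natCast C, ← C_mul, inv_mul_cancel₀ (Nat.cast_ne_zero.2 hd), C_1, one_mul]
  let ι : logDer0 A →ₗ[MvPolynomial (Fin r) K] logDer A :=
    Submodule.inclusion (fun θ hθ => hθ.1)
  let g : logDer A →ₗ[MvPolynomial (Fin r) K] logDer0 A :=
    { toFun := fun θ => ⟨θ.1 - ψ θ • e.1, ⟨Submodule.sub_mem _ θ.2 (Submodule.smul_mem _ _ e.2), by
        rw [Derivation.sub_apply, Derivation.smul_apply, he, hψ', smul_eq_mul, mul_comm, sub_self]⟩⟩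
      map_add' := fun θ η => by
        apply Subtype.ext
        change (θ.1 + η.1) - ψ (θ + η) • e.1 = (θ.1 - ψ θ • e.1) + (η.1 - ψ η • e.1)
        rw [map_add, add_smul]
        abel
      map_smul' := fun q θ => by
        apply Subtype.ext
        change (q • θ.1) - ψ (q • θ) • e.1 = q • (θ.1 - ψ θ • e.1)
        rw [map_smul, smul_sub, smul_assoc] }
  refine ⟨g, ψ, ι, e, ?_, ?_⟩
  · intro θ
    apply Subtype.ext
    change θ.1 - ψ (ι θ) • e.1 = θ.1
    have h1 := hψ' (ι θ)
    have h2 : (ι θ).1 (∏ i, lin (A i)) = 0 := θ.2.2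
    rw [h2] at h1
    have h3 := (mul_eq_zero.1 h1.symm).resolve_left hQ
    rw [h3, zero_smul, sub_zero]
  · intro θ
    apply Subtype.ext
    change θ.1 = (θ.1 - ψ θ • e.1) + ψ θ • e.1
    abel

theorem KV_logDer0 [CharZero K] (A : Fin d → Fin r → K) (hd : d ≠ 0) (hA : ∀ i, lin (A i) ≠ 0)
    {i : ℕ} (h : KV K r (logDer A) i) : KV K r (logDer0 A) i := by
  obtain ⟨g, ψ, ι, e, h1, -⟩ := exists_split A hd hA
  exact KV.retract ι g h1 h

theorem KV_logDer [CharZero K] (A : Fin d → Fin r → K) (hd : d ≠ 0) (hA : ∀ i, lin (A i) ≠ 0)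
    {i : ℕ} (hi : i + 1 < r) (h : KV K r (logDer0 A) i) : KV K r (logDer A) i := by
  obtain ⟨g, ψ, ι, e, -, h2⟩ := exists_split A hd hA
  intro N c hc
  have k1 : ∀ s : Fin (i + 2) → Fin r, dl K N (fun s => ψ (c s)) s = 0 := fun s => by
    have := dl_map (K := K) (M := logDer A) (M' := MvPolynomial (Fin r) K) N ψ c s
    rw [hc, map_zero] at this
    exact this
  have k2 : ∀ s : Fin (i + 2) → Fin r, dl K N (fun s => g (c s)) s = 0 := fun s => by
    have := dl_map (K := K) (M := logDer A) (M' := logDer0 A) N g c s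
    rw [hc, map_zero] at this
    exact this
  obtain ⟨w1, hw1⟩ := exact_S N hi (fun s => ψ (c s)) k1
  obtain ⟨N', w0, hw0⟩ := h N (fun s => g (c s)) k2
  let f : MvPolynomial (Fin r) K →ₗ[MvPolynomial (Fin r) K] logDer A :=
    LinearMap.toSpanSingleton (MvPolynomial (Fin r) K) (logDer A) e
  refine ⟨N', fun t => ι (w0 t) + mon K t ^ N' • f (w1 t), fun s => ?_⟩
  have e1 := dl_map (K := K) (M := logDer0 A) (M' := logDer A) (N + N') ι w0 s
  have e2 := dl_mon (K := K) N N' (fun t => f (w1 t)) s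
  have e3 := dl_map (K := K) (M := MvPolynomial (Fin r) K) (M' := logDer A) N f w1 s
  rw [dl_add, e1, e2, e3, ← hw0, ← hw1, map_smul, ← smul_add]
  congr 1
  exact h2 (c s)

instance (A : Fin d → Fin r → K) : Module.Finite (MvPolynomial (Fin r) K) (logDer A) :=
  Module.Finite.equiv (logEquiv A).symm

end Pool.Agent.V1148.Cech
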