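import Mathlib
import Pool.Agent.V1148.Cech4
import Pool.Agent.V1148.Cech2
import Pool.Agent.V1148.E7Link

set_option autoImplicit false

/-!
# A cocycle that is not a coboundary
-/

universe u v

namespace Pool.Agent.V1148.Cech

open MvPolynomial

variable {K : Type u} [Field K] {r : ℕ}

/-- The coefficient of `x_k^N`, as a polynomial in the other variables. -/
noncomputable def cf (K : Type u) [Field K] (N : ℕ) (k : Fin r) :
    MvPolynomial (Fin r) K →ₗ[K] MvPolynomial (Fin r) K :=
  (basisMonomials (Fin r) K).constr K fun d =>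
    if d k = N then monomial (d - Finsupp.single k N) 1 else 0

theorem cf_monomial (N : ℕ) (k : Fin r) (d : Fin r →₀ ℕ) :
    cf K N k (monomial d (1 : K)) = if d k = N then
      monomial (d - Finsupp.single k N) (1 : K) else 0 := by
  unfold cf
  have := (basisMonomials (Fin r) K).constr_basis K (fun d =>
    if d k = N then monomial (d - Finsupp.single k N) (1 : K) else 0) d
  rwa [coe_basisMonomials] at this

theorem cf_X (N : ℕ) (k j : Fin r) (hj : j ≠ k) (f : MvPolynomial (Fin r) K) :
    cf K N k (X j * f) = X j * cf K N k f := by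
  apply lin_ext ((cf K N k) ∘ₗ (LinearMap.mulLeft K (X j : MvPolynomial (Fin r) K)))
    ((LinearMap.mulLeft K (X j : MvPolynomial (Fin r) K)) ∘ₗ (cf K N k))
  intro d
  simp only [LinearMap.comp_apply, LinearMap.mulLeft_apply]
  have e : (X j : MvPolynomial (Fin r) K) * monomial d 1 =
      monomial (d + Finsupp.single j 1) 1 := by
    rw [X, monomial_mul, one_mul, add_comm]
  rw [e, cf_monomial, cf_monomial, Finsupp.add_apply, Finsupp.single_apply, if_neg hj, add_zero]
  split_ifs with h1
  · rw [X, monomial_mul, one_mul]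
    congr 1
    have h2 : Finsupp.single k N ≤ d := by
      intro a
      rw [Finsupp.single_apply]
      split_ifs with h3
      · subst h3
        exact h1.ge
      · exact Nat.zero_le _
    rw [add_comm d, add_tsub_assoc_of_le h2]
  · rw [mul_zero]

theorem cf_X_pow (N : ℕ) (k j : Fin r) (hj : j ≠ k) (m : ℕ) (f : MvPolynomial (Fin r) K) :
    cf K N k (X j ^ m * f) = X j ^ m * cf K N k f := by
  induction m with
  | zero => rw [pow_zero, one_mul, one_mul]
  | succ m ih => rw [pow_succ', mul_assoc, cf_X N k j hj, ih, mul_assoc]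

theorem cf_C (N : ℕ) (k : Fin r) (c : K) (f : MvPolynomial (Fin r) K) :
    cf K N k (C c * f) = C c * cf K N k f := by
  rw [← MvPolynomial.smul_eq_C_mul, map_smul, MvPolynomial.smul_eq_C_mul]

theorem cf_self (N : ℕ) (k : Fin r) : cf K N k (X k ^ N) = 1 := by
  have : (X k ^ N : MvPolynomial (Fin r) K) = monomial (Finsupp.single k N) 1 := by
    rw [X_pow_eq_monomial]
  rw [this, cf_monomial, Finsupp.single_apply, if_pos rfl, if_pos rfl, tsub_self]
  rfl

theorem cf_succ (N : ℕ) (k : Fin r) (f : MvPolynomial (Fin r) K) :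
    cf K N k (X k ^ (N + 1) * f) = 0 := by
  have := lin_ext ((cf K N k) ∘ₗ (LinearMap.mulLeft K (X k ^ (N + 1) : MvPolynomial (Fin r) K)))
    (0 : MvPolynomial (Fin r) K →ₗ[K] MvPolynomial (Fin r) K) (fun d => ?_) f
  · simpa using this
  · simp only [LinearMap.comp_apply, LinearMap.mulLeft_apply, LinearMap.zero_apply]
    rw [X_pow_eq_monomial, monomial_mul, one_mul, cf_monomial, if_neg]
    rw [Finsupp.add_apply, Finsupp.single_apply, if_pos rfl]
    omega

theorem cf_lin (N : ℕ) (k : Fin r) (a : Fin r → K) (ha : a k = 0) (f : MvPolynomial (Fin r) K) :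
    cf K N k (lin a * f) = lin a * cf K N k f := by
  unfold lin
  rw [Finset.sum_mul, Finset.sum_mul, map_sum]
  apply Finset.sum_congr rfl
  intro j _
  by_cases hj : j = k
  · rw [hj, ha]
    simp
  · rw [mul_assoc, cf_C, cf_X N k j hj, mul_assoc]

theorem cf_dvd (N : ℕ) (k : Fin r) (a : Fin r → K) (ha : a k = 0) {f : MvPolynomial (Fin r) K}
    (h : lin a ∣ f) : lin a ∣ cf K N k f := by
  obtain ⟨q, rfl⟩ := h
  rw [cf_lin N k a ha]
  exact dvd_mul_right _ _

/-- The functional `v ↦ ∑_j a_j v_j`. -/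
noncomputable def func (a : Fin r → K) :
    (Fin r → MvPolynomial (Fin r) K) →ₗ[MvPolynomial (Fin r) K] MvPolynomial (Fin r) K :=
  ∑ j, (C (a j) : MvPolynomial (Fin r) K) • LinearMap.proj j

theorem func_apply (a : Fin r → K) (v : Fin r → MvPolynomial (Fin r) K) :
    func a v = ∑ j, C (a j) * v j := by
  simp [func, LinearMap.sum_apply]

theorem cf_func (N : ℕ) (k : Fin r) (a : Fin r → K) (v : Fin r → MvPolynomial (Fin r) K) :
    cf K N k (func a v) = func a (fun j => cf K N k (v j)) := by
  rw [func_apply, func_apply, map_sum]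
  apply Finset.sum_congr rfl
  intro j _
  rw [cf_C]

theorem dl_two {M : Type v} [AddCommGroup M] [Module (MvPolynomial (Fin r) K) M] (N : ℕ)
    (w : (Fin 1 → Fin r) → M) (s : Fin 2 → Fin r) : dl K N w s =
      (X (s 0) ^ N : MvPolynomial (Fin r) K) • w ![s 1] -
        (X (s 1) ^ N : MvPolynomial (Fin r) K) • w ![s 0] := by
  unfold dl
  have e1 : s ∘ (0 : Fin 2).succAbove = ![s 1] := by
    funext i
    fin_cases i
    rfl
  have e2 : s ∘ (1 : Fin 2).succAbove = ![s 0] := by
    funext i
    fin_cases i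
    rfl
  rw [Fin.sum_univ_two]
  erw [e1, e2]
  simp [sub_eq_add_neg]

theorem dl_three {M : Type v} [AddCommGroup M] [Module (MvPolynomial (Fin r) K) M] (N : ℕ)
    (w : (Fin 2 → Fin r) → M) (s : Fin 3 → Fin r) : dl K N w s =
      (X (s 0) ^ N : MvPolynomial (Fin r) K) • w ![s 1, s 2] -
        (X (s 1) ^ N : MvPolynomial (Fin r) K) • w ![s 0, s 2] +
        (X (s 2) ^ N : MvPolynomial (Fin r) K) • w ![s 0, s 1] := by
  unfold dl
  have e1 : s ∘ (0 : Fin 3).succAbove = ![s 1, s 2] := by
    funext i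
    fin_cases i <;> rfl
  have e2 : s ∘ (1 : Fin 3).succAbove = ![s 0, s 2] := by
    funext i
    fin_cases i <;> rfl
  have e3 : s ∘ (2 : Fin 3).succAbove = ![s 0, s 1] := by
    funext i
    fin_cases i <;> rfl
  rw [Fin.sum_univ_three]
  erw [e1, e2, e3]
  simp [sub_eq_add_neg]

/-- The cochain `(i, j) ↦ δ_{j,z} t_i - δ_{i,z} t_j`. -/
def eta {M : Type v} [AddCommGroup M] (z : Fin r) (t : Fin r → M) (s : Fin 2 → Fin r) : M :=
  (if s 1 = z then t (s 0) else 0) - (if s 0 = z then t (s 1) else 0)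

theorem eta_dvd (z : Fin r) (α β : MvPolynomial (Fin r) K) (τ : Fin r → MvPolynomial (Fin r) K)
    (h : ∀ k, k ≠ z → α ∣ τ k - X k * β) (s : Fin 3 → Fin r) :
    α ∣ dl K 1 (eta z τ) s := by
  rw [dl_three]
  simp only [eta, smul_eq_mul, pow_one]
  generalize s 0 = a
  generalize s 1 = b
  generalize s 2 = c
  have e0 : ∀ x y : Fin r, (![x, y] : Fin 2 → Fin r) 0 = x := fun _ _ => rfl
  have e1 : ∀ x y : Fin r, (![x, y] : Fin 2 → Fin r) 1 = y := fun _ _ => rfl
  simp only [e0, e1]
  have h2 : ∀ x y, x ≠ z → y ≠ z → α ∣ X x * τ y - X y * τ x := by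
    intro x y hx hy
    have h3 := dvd_sub (dvd_mul_of_dvd_right (h y hy) (X x)) (dvd_mul_of_dvd_right (h x hx) (X y))
    convert h3 using 1
    ring
  by_cases ha : a = z <;> by_cases hb : b = z <;> by_cases hc : c = z <;>
  simp only [ha, hb, hc, if_true, if_false, sub_zero, zero_sub, mul_zero, sub_self, add_zero,
    zero_add, dvd_zero, if_pos, if_neg, not_false_eq_true, mul_neg, neg_add_cancel,
    add_neg_cancel, sub_neg_eq_add]
  · convert h2 b c hb hc using 1
    ring
  · have := h2 c a hc ha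
    convert this using 1
    ring
  · have := h2 a b ha hb
    convert this using 1

end Pool.Agent.V1148.Cech
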