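import Mathlib
import Pool.Agent.V1148.Cech6

set_option autoImplicit false

/-!
# Vanishing of the second cohomology gives liftings
-/

universe u v

namespace Pool.Agent.V1148.Cech

open MvPolynomial

variable {K : Type u} [Field K] {r d : ℕ}

theorem eta_map {M : Type v} [AddCommGroup M] [Module (MvPolynomial (Fin r) K) M]
    {M' : Type*} [AddCommGroup M'] [Module (MvPolynomial (Fin r) K) M']
    (f : M →ₗ[MvPolynomial (Fin r) K] M') (z : Fin r) (t : Fin r → M) (s : Fin 2 → Fin r) :
    f (eta z t s) = eta z (fun k => f (t k)) s := by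
  unfold eta
  rw [map_sub]
  split_ifs <;> simp

theorem lift_of_KV (A : Fin d → Fin r → K) (z : Fin r) (hr : 2 < r)
    (β : Fin d → MvPolynomial (Fin r) K) (hβ : ∀ i N, cf K N z (X z ^ N * β i) = β i)
    (t : Fin r → Fin r → MvPolynomial (Fin r) K)
    (ht : ∀ k, k ≠ z → ∀ i, lin (A i) ∣ func (A i) (t k) - X k * β i)
    (h : KV K r (LinearMap.ker (logMap A)) 2) :
    ∃ G : Fin r → MvPolynomial (Fin r) K, ∀ i, A i z = 0 → ∀ k ≠ z, ∃ m : ℕ,
      lin (A i) ∣ X k ^ m * (β i - func (A i) G) := by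
  have hmem : ∀ s : Fin 3 → Fin r, dl K 1 (eta z t) s ∈ LinearMap.ker (logMap A) := by
    intro s
    rw [mem_ker_logMap]
    intro i
    rw [← func_apply, ← dl_map]
    have : (fun s' => func (A i) (eta z t s')) = eta z (fun k => func (A i) (t k)) := by
      funext s'
      exact eta_map _ _ _ _
    rw [this]
    exact eta_dvd z _ (β i) _ (fun k hk => ht k hk i) s
  obtain ⟨N', w, hw⟩ := h 1 (fun s => ⟨dl K 1 (eta z t) s, hmem s⟩) (fun s => by
    apply Subtype.ext
    have h1 := dl_map (K := K) (M := LinearMap.ker (logMap A))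
      (M' := Fin r → MvPolynomial (Fin r) K) 1 (LinearMap.ker (logMap A)).subtype
      (fun s => ⟨dl K 1 (eta z t) s, hmem s⟩) s
    exact h1.symm.trans (dl_dl 1 (eta z t) s))
  have hw' : ∀ s : Fin 3 → Fin r, mon K s ^ N' • dl K 1 (eta z t) s =
      dl K (1 + N') (fun s => (w s).1) s := by
    intro s
    have h1 := dl_map (K := K) (M := LinearMap.ker (logMap A))
      (M' := Fin r → MvPolynomial (Fin r) K) (1 + N') (LinearMap.ker (logMap A)).subtype w s
    have h2 : (mon K s ^ N' • dl K 1 (eta z t) s : Fin r → MvPolynomial (Fin r) K) =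
        (dl K (1 + N') w s).1 := congrArg Subtype.val (hw s)
    rw [h2]
    exact h1.symm
  obtain ⟨g, hg⟩ := exact_free (K := K) (1 + N') (p := 1) (by omega)
    (fun s => mon K s ^ N' • eta z t s - (w s).1) (fun s => by
      rw [dl_sub, dl_mon, hw', sub_self])
  refine ⟨fun j => cf K N' z (g ![z] j), fun i hi k hk => ⟨N' + 1, ?_⟩⟩
  have h3 := hg ![k, z]
  rw [dl_two] at h3
  have e1 : eta z t ![k, z] = t k := by
    have e0 : ∀ x y : Fin r, (![x, y] : Fin 2 → Fin r) 0 = x := fun _ _ => rfl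
    have e1 : ∀ x y : Fin r, (![x, y] : Fin 2 → Fin r) 1 = y := fun _ _ => rfl
    simp only [eta, e0, e1]
    rw [if_pos trivial, if_neg hk, sub_zero]
  have e2 : mon K ![k, z] = X k * X z := by
    unfold mon
    rw [Fin.prod_univ_two]
    rfl
  simp only [e1, e2] at h3
  have e3 : (![k, z] : Fin 2 → Fin r) 0 = k := rfl
  have e4 : (![k, z] : Fin 2 → Fin r) 1 = z := rfl
  rw [e3, e4] at h3
  have h4 := congrArg (func (A i)) h3
  rw [map_sub, map_sub, map_smul, map_smul, map_smul] at h4
  have h5 : lin (A i) ∣ func (A i) (w ![k, z]).1 := by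
    rw [func_apply]
    exact (mem_ker_logMap A _).1 (w ![k, z]).2 i
  have h6 := ht k hk i
  have h7 : lin (A i) ∣ X k ^ (N' + 1) * (X z ^ N' * β i) -
      X k ^ (N' + 1) * func (A i) (g ![z]) + X z ^ (N' + 1) * func (A i) (g ![k]) := by
    have h8 := dvd_sub h5 (dvd_mul_of_dvd_right h6 ((X k * X z) ^ N'))
    convert h8 using 1
    simp only [smul_eq_mul] at h4
    linear_combination h4
  have h8 := cf_dvd N' z (A i) hi h7
  rw [map_add, map_sub, cf_succ, add_zero, cf_X_pow _ _ _ hk, cf_X_pow _ _ _ hk, hβ,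
    cf_func] at h8
  convert h8 using 1
  ring

end Pool.Agent.V1148.Cech
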