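import Mathlib
set_option autoImplicit false
namespace Pool.Agent.V1148.Con
open Polynomial IntermediateField

noncomputable section

theorem rs_adj {F E : Type*} [Field F] [Field E] [Algebra F E] (A : IntermediateField F E)
    (S : Set E) (h : A ≤ A ⊔ adjoin F S) : extendScalars h = adjoin A S := by
  apply restrictScalars_injective F
  rw [extendScalars_restrictScalars, restrictScalars_adjoin_eq_sup]

/-- quadratic step -/
theorem relq {F E : Type*} [Field F] [Field E] [Algebra F E] (A : IntermediateField F E) (y : E)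
    (hy : y ^ 2 ∈ A) (hn : y ∉ A) : relfinrank A (A ⊔ F⟮y⟯) = 2 := by
  have hle : A ≤ A ⊔ F⟮y⟯ := le_sup_left
  rw [relfinrank_eq_finrank_of_le hle, rs_adj]
  have hirr : Irreducible (X ^ 2 - C (⟨y ^ 2, hy⟩ : A) : A[X]) := by
    rw [X_pow_sub_C_irreducible_iff_of_prime Nat.prime_two]
    rintro ⟨b, hb⟩ h
    have h2 : b ^ 2 = y ^ 2 := congrArg Subtype.val h
    rcases sq_eq_sq_iff_eq_or_eq_neg.mp h2 with h3 | h3
    · exact hn (h3 ▸ hb)
    · exact hn (by rw [← neg_neg y, ← h3]; exact neg_mem hb)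
  have hmon : (X ^ 2 - C (⟨y ^ 2, hy⟩ : A) : A[X]).Monic := monic_X_pow_sub_C _ two_ne_zero
  have hroot : aeval y (X ^ 2 - C (⟨y ^ 2, hy⟩ : A) : A[X]) = 0 := by
    simp [IntermediateField.algebraMap_apply]
  have hint : IsIntegral A y := ⟨_, hmon, hroot⟩
  rw [adjoin.finrank hint, ← minpoly.eq_of_irreducible_of_monic hirr hroot hmon,
    natDegree_X_pow_sub_C]

theorem relq' {F E : Type*} [Field F] [Field E] [Algebra F E] (A : IntermediateField F E) (y : E)
    (hy : y ^ 2 ∈ A) : (y ∈ A ∧ relfinrank A (A ⊔ F⟮y⟯) = 1) ∨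
      (y ∉ A ∧ relfinrank A (A ⊔ F⟮y⟯) = 2) := by
  by_cases h : y ∈ A
  · exact Or.inl ⟨h, relfinrank_eq_one_iff.2 (sup_le le_rfl (adjoin_simple_le_iff.2 h))⟩
  · exact Or.inr ⟨h, relq A y hy h⟩

/-- degree of a rational function -/
theorem deg_rat {L E : Type*} [Field L] [Field E] [Algebra L E] (t : E) (ψ : RatFunc L →ₐ[L] E)
    (hψ : ψ RatFunc.X = t) (f : RatFunc L) :
    relfinrank L⟮ψ f⟯ L⟮t⟯ = max f.num.natDegree f.denom.natDegree := by
  have h1 : L⟮ψ f⟯ = (L⟮f⟯).map ψ := by rw [adjoin_map]; simp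
  have h2 : L⟮t⟯ = (⊤ : IntermediateField L (RatFunc L)).map ψ := by
    rw [← RatFunc.adjoin_X, adjoin_map]; simp [hψ]
  rw [h1, h2, relfinrank_map_map, relfinrank_top_right, RatFunc.finrank_eq_max_natDegree]

/-- the embedding attached to a transcendental element -/
def emb {L E : Type*} [Field L] [Field E] [Algebra L E] (t : E) (ht : Transcendental L t) :
    RatFunc L →ₐ[L] E :=
  (L⟮t⟯).val.comp (RatFunc.algEquivOfTranscendental t ht).toAlgHom

theorem emb_X {L E : Type*} [Field L] [Field E] [Algebra L E] (t : E) (ht : Transcendental L t) :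
    emb t ht RatFunc.X = t := by
  simp [emb]

theorem emb_poly {L E : Type*} [Field L] [Field E] [Algebra L E] (t : E) (ht : Transcendental L t)
    (g : L[X]) : emb t ht (algebraMap L[X] (RatFunc L) g) = aeval t g := by
  simp [emb, aeval_algebraMap_apply]

theorem emb_range {L E : Type*} [Field L] [Field E] [Algebra L E] (t : E) (ht : Transcendental L t)
    (z : E) (hz : z ∈ L⟮t⟯) : ∃ f, emb t ht f = z := by
  refine ⟨(RatFunc.algEquivOfTranscendental t ht).symm ⟨z, hz⟩, ?_⟩
  simp [emb]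

/-- algebraic elements of a purely transcendental simple extension -/
theorem alg_const {L E : Type*} [Field L] [Field E] [Algebra L E] (t : E) (ht : Transcendental L t)
    (z : E) (hz : z ∈ L⟮t⟯) (hal : IsAlgebraic L z) : ∃ c : L, z = algebraMap L E c := by
  obtain ⟨f, rfl⟩ := emb_range t ht z hz
  by_contra hcon
  have hf : ¬∃ c, f = RatFunc.C c := by
    rintro ⟨c, rfl⟩
    exact hcon ⟨c, by rw [← RatFunc.algebraMap_eq_C]; exact (emb t ht).commutes c⟩
  have := RatFunc.transcendental_of_ne_C f hf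
  apply this
  exact (isAlgebraic_algHom_iff (emb t ht) (emb t ht).injective).1 hal

end
end Pool.Agent.V1148.Con
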