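import Pool.Agent.V1148.Con1
set_option autoImplicit false
namespace Pool.Agent.V1148.Con
open Polynomial IntermediateField

noncomputable section

theorem quad_elem {K E : Type*} [Field K] [Field E] [Algebra K E] (s : E) (a : K)
    (hs : s ^ 2 = algebraMap K E a) (z : E) (hz : z ∈ K⟮s⟯) :
    ∃ x y : K, z = algebraMap K E y + s * algebraMap K E x := by
  have hint : IsIntegral K s := ⟨X ^ 2 - C a, monic_X_pow_sub_C _ two_ne_zero, by simp [hs]⟩
  have hz' : z ∈ Algebra.adjoin K {s} := by
    rw [← adjoin_simple_toSubalgebra_of_isAlgebraic hint.isAlgebraic]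
    exact hz
  induction hz' using Algebra.adjoin_induction with
  | mem x hx =>
    rw [Set.mem_singleton_iff] at hx
    exact ⟨1, 0, by simp [hx]⟩
  | algebraMap r => exact ⟨0, r, by simp⟩
  | add x y hx hy h1 h2 =>
    obtain ⟨p, q, rfl⟩ := h1 (by
      rw [← mem_toSubalgebra, adjoin_simple_toSubalgebra_of_isAlgebraic hint.isAlgebraic]
      exact hx)
    obtain ⟨p', q', rfl⟩ := h2 (by
      rw [← mem_toSubalgebra, adjoin_simple_toSubalgebra_of_isAlgebraic hint.isAlgebraic]
      exact hy)
    exact ⟨p + p', q + q', by simp only [map_add]; ring⟩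
  | mul x y hx hy h1 h2 =>
    obtain ⟨p, q, rfl⟩ := h1 (by
      rw [← mem_toSubalgebra, adjoin_simple_toSubalgebra_of_isAlgebraic hint.isAlgebraic]
      exact hx)
    obtain ⟨p', q', rfl⟩ := h2 (by
      rw [← mem_toSubalgebra, adjoin_simple_toSubalgebra_of_isAlgebraic hint.isAlgebraic]
      exact hy)
    refine ⟨p * q' + p' * q, q * q' + a * p * p', ?_⟩
    simp only [map_add, map_mul, ← hs]
    ring

section core
variable {L E : Type*} [Field L] [Field E] [Algebra L E] (σ : L →+* L) (τ : E →+* E)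
  (hστ : ∀ l, algebraMap L E (σ l) = τ (algebraMap L E l))

/-- the twisted reversal `T ^ d * P^σ (b / T)` -/
def tl (σ : L →+* L) (b : L) (d : ℕ) (P : L[X]) : L[X] :=
  reflect d ((P.map σ).comp (C b * X))

include hστ in
theorem tau_aeval (t : E) (P : L[X]) : τ (aeval t P) = aeval (τ t) (P.map σ) := by
  rw [aeval_def, hom_eval₂, aeval_def, eval₂_map]
  congr 1
  ext l
  exact (hστ l).symm

theorem natDegree_tl_aux (b : L) (d : ℕ) (P : L[X]) (hP : P.natDegree ≤ d) :
    ((P.map σ).comp (C b * X)).natDegree ≤ d := by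
  refine natDegree_comp_le.trans ?_
  have h1 : (P.map σ).natDegree ≤ d := (natDegree_map_le).trans hP
  have h2 : (C b * X : L[X]).natDegree ≤ 1 := (natDegree_C_mul_le b X).trans natDegree_X_le
  calc (P.map σ).natDegree * (C b * X : L[X]).natDegree ≤ d * 1 := Nat.mul_le_mul h1 h2
    _ = d := mul_one d

theorem natDegree_tl (b : L) (d : ℕ) (P : L[X]) (hP : P.natDegree ≤ d) :
    (tl σ b d P).natDegree ≤ d := by
  unfold tl
  refine natDegree_reflect_le.trans ?_
  exact max_le le_rfl (natDegree_tl_aux σ b d P hP)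

include hστ in
theorem aeval_tl (t : E) (ht0 : t ≠ 0) (b : L) (hτt : τ t = algebraMap L E b / t) (d : ℕ)
    (P : L[X]) (hP : P.natDegree ≤ d) : aeval t (tl σ b d P) = t ^ d * τ (aeval t P) := by
  letI : Invertible t⁻¹ := invertibleOfNonzero (inv_ne_zero ht0)
  have h := eval₂_reflect_mul_pow (algebraMap L E) t⁻¹ d _ (natDegree_tl_aux σ b d P hP)
  rw [invOf_eq_inv, inv_inv, eval₂_comp] at h
  have h2 : eval₂ (algebraMap L E) t⁻¹ (C b * X : L[X]) = τ t := by
    rw [hτt]; simp [div_eq_mul_inv]
  rw [h2, ← aeval_def, ← aeval_def, ← tau_aeval σ τ hστ] at h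
  rw [← h, tl]
  have h5 : t⁻¹ ^ d * t ^ d = 1 := by rw [← mul_pow, inv_mul_cancel₀ ht0, one_pow]
  linear_combination -(aeval t (reflect d ((Polynomial.map σ P).comp (C b * X)))) * h5

include hστ in
theorem norm_core (hσσ : ∀ l, σ (σ l) = l) (t : E) (ht : Transcendental L t) (b : L) (hb : b ≠ 0)
    (hσb : σ b = b) (hτt : τ t = algebraMap L E b / t)
    (f : RatFunc L) (hf : emb t ht f ≠ 0)
    (hτf : τ (emb t ht f) = algebraMap L E b / emb t ht f) :
    ∃ l : L, b ^ (max f.num.natDegree f.denom.natDegree + 1) = l * σ l := by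
  have ht0 : t ≠ 0 := by
    rintro rfl
    exact ht isAlgebraic_zero
  have hbE : algebraMap L E b ≠ 0 := by
    rw [_root_.map_ne_zero]; exact hb
  set P := f.num with hPdef
  set Q := f.denom with hQdef
  set d := max P.natDegree Q.natDegree with hd
  have hfe : emb t ht f = aeval t P / aeval t Q := by
    conv_lhs => rw [← RatFunc.num_div_denom f]
    rw [map_div₀, emb_poly, emb_poly]
  have hQ0 : Q ≠ 0 := f.denom_ne_zero
  have hinj : Function.Injective (aeval t : L[X] →ₐ[L] E) := transcendental_iff_injective.1 ht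
  have hQt : aeval t Q ≠ 0 := by
    rw [ne_eq, map_eq_zero_iff _ hinj]; exact hQ0
  have hPt : aeval t P ≠ 0 := by
    intro h
    rw [hfe, h, zero_div] at hf
    exact hf rfl
  have hP0 : P ≠ 0 := by
    rintro h
    rw [h] at hPt
    simp at hPt
  have hdP : P.natDegree ≤ d := le_max_left _ _
  have hdQ : Q.natDegree ≤ d := le_max_right _ _
  have eP := aeval_tl σ τ hστ t ht0 b hτt d P hdP
  have eQ := aeval_tl σ τ hστ t ht0 b hτt d Q hdQ
  have hτQt : τ (aeval t Q) ≠ 0 := by
    rw [_root_.map_ne_zero]; exact hQt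
  have hrel : τ (aeval t P) * aeval t P = algebraMap L E b * aeval t Q * τ (aeval t Q) := by
    rw [hfe, map_div₀] at hτf
    field_simp at hτf
    linear_combination hτf
  have hpoly : P * tl σ b d P = Q * (C b * tl σ b d Q) := by
    apply hinj
    simp only [map_mul, aeval_C, eP, eQ]
    linear_combination t ^ d * hrel
  have hcop : IsCoprime P Q := f.isCoprime_num_denom
  obtain ⟨R, hR⟩ : P ∣ C b * tl σ b d Q := hcop.dvd_of_dvd_mul_left ⟨_, hpoly.symm⟩
  have hR2 : tl σ b d P = Q * R := by
    rw [hR] at hpoly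
    have : P * tl σ b d P = P * (Q * R) := by rw [hpoly]; ring
    exact mul_left_cancel₀ hP0 this
  have hR0 : R ≠ 0 := by
    rintro rfl
    rw [mul_zero] at hR2
    rw [hR2, map_zero] at eP
    have h3 : τ (aeval t P) ≠ 0 := by rw [_root_.map_ne_zero]; exact hPt
    exact (mul_ne_zero (pow_ne_zero d ht0) h3) eP.symm
  have hRd : R.natDegree = 0 := by
    rcases le_total P.natDegree Q.natDegree with h | h
    · have h1 : d = Q.natDegree := max_eq_right h
      have h2 := natDegree_tl σ b d P hdP
      rw [hR2, natDegree_mul hQ0 hR0] at h2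
      omega
    · have h1 : d = P.natDegree := max_eq_left h
      have h2 := natDegree_tl σ b d Q hdQ
      have h3 := congrArg natDegree hR
      rw [natDegree_C_mul hb, natDegree_mul hP0 hR0] at h3
      omega
  obtain ⟨l, rfl⟩ : ∃ l, R = C l := ⟨R.coeff 0, eq_C_of_natDegree_eq_zero hRd⟩
  refine ⟨l, ?_⟩
  have g1 : t ^ d * τ (aeval t P) = aeval t Q * algebraMap L E l := by
    rw [← eP, hR2]; simp
  have g2 : algebraMap L E b * (t ^ d * τ (aeval t Q)) = aeval t P * algebraMap L E l := by
    rw [← eQ]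
    have := congrArg (aeval t) hR
    simpa using this
  have hττ : τ (τ (aeval t Q)) = aeval t Q := by
    rw [tau_aeval σ τ hστ, tau_aeval σ τ hστ, Polynomial.map_map]
    have h1 : τ (τ t) = t := by
      rw [hτt, map_div₀, hτt, ← hστ, hσb]
      field_simp
    have h2 : σ.comp σ = RingHom.id L := by
      ext l; exact hσσ l
    rw [h1, h2, Polynomial.map_id]
  have g3 := congrArg τ g2
  simp only [map_mul, map_pow, hττ] at g3
  rw [hτt, ← hστ, hσb, ← hστ] at g3
  apply (algebraMap L E).injective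
  rw [map_mul, map_pow]
  have htd : t ^ d ≠ 0 := pow_ne_zero d ht0
  have g4 : τ (aeval t P) = aeval t Q * algebraMap L E l / t ^ d := by
    rw [← g1]; field_simp
  rw [g4, div_pow] at g3
  field_simp at g3
  rw [pow_succ]
  linear_combination g3

end core

end
end Pool.Agent.V1148.Con
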