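import Pool.Agent.V1148.Con2
set_option autoImplicit false
namespace Pool.Agent.V1148.Con
open Polynomial IntermediateField

noncomputable section

/-- the conic `y² = a x² + b z²` has no point over `K` -/
def Anis {K : Type*} [Field K] (a b : K) : Prop :=
  ∀ x y z : K, y ^ 2 = a * x ^ 2 + b * z ^ 2 → x = 0 ∧ y = 0 ∧ z = 0

section
variable {K E : Type*} [Field K] [CharZero K] [Field E] [Algebra K E] {a b : K}

theorem Anis.b_ne (h : Anis a b) : b ≠ 0 := by
  rintro rfl
  have := (h 0 0 1 (by ring)).2.2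
  exact one_ne_zero this

theorem Anis.a_ne (h : Anis a b) : a ≠ 0 := by
  rintro rfl
  have := (h 1 0 0 (by ring)).1
  exact one_ne_zero this

theorem Anis.not_sq (h : Anis a b) (c : K) : c ^ 2 ≠ a := by
  intro hc
  have := (h 1 c 0 (by rw [hc]; ring)).1
  exact one_ne_zero this

/-- `a X² + b` is not a square in `L(X)` -/
theorem Y_not_mem {L : Type*} [Field L] [CharZero L] [Algebra L E] (a' b' : L) (ha : a' ≠ 0)
    (hb : b' ≠ 0) (X Y : E) (hX : Transcendental L X)
    (hY : Y ^ 2 = algebraMap L E a' * X ^ 2 + algebraMap L E b') : Y ∉ L⟮X⟯ := by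
  intro hm
  obtain ⟨f, hf⟩ := emb_range X hX Y hm
  have h1 : f ^ 2 = algebraMap L[X] (RatFunc L) (C a' * Polynomial.X ^ 2 + C b') := by
    have hinj : Function.Injective (emb X hX) := (emb X hX).toRingHom.injective
    apply hinj
    rw [map_pow, hf, emb_poly, hY]
    simp
  have h2 : IsIntegral L[X] (f ^ 2) := by
    rw [h1]; exact isIntegral_algebraMap
  obtain ⟨p, hp⟩ := IsIntegrallyClosed.exists_algebraMap_eq_of_isIntegral_pow two_pos h2
  have h3 : p ^ 2 = C a' * Polynomial.X ^ 2 + C b' := by
    apply IsFractionRing.injective L[X] (RatFunc L)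
    rw [map_pow, hp, h1]
  have h4 : p.natDegree = 1 := by
    have h5 := congrArg natDegree h3
    rw [natDegree_pow] at h5
    have h6 : (C a' * Polynomial.X ^ 2 + C b' : L[X]).natDegree = 2 := by
      compute_degree!
    omega
  obtain ⟨u, w, rfl⟩ : ∃ u w : L, p = C u * Polynomial.X + C w :=
    ⟨p.coeff 1, p.coeff 0, by
      exact (eq_X_add_C_of_natDegree_le_one h4.le)⟩
  have h7 : (C u * Polynomial.X + C w : L[X]) ^ 2
      = C (u ^ 2) * Polynomial.X ^ 2 + C (2 * u * w) * Polynomial.X + C (w ^ 2) := by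
    simp only [map_pow, map_mul, map_ofNat]
    ring
  rw [h7] at h3
  have c1 : 2 * u * w = 0 := by
    have := congrArg (fun q => coeff q 1) h3
    simpa only [coeff_add, coeff_C_mul, coeff_X_pow, coeff_X_one, coeff_C,
      show (1 : ℕ) ≠ 2 by norm_num, show (1 : ℕ) ≠ 0 by norm_num, if_false, mul_zero, mul_one,
      zero_add, add_zero] using this
  have c0 : w ^ 2 = b' := by
    have := congrArg (fun q => coeff q 0) h3
    simpa only [coeff_add, coeff_C_mul, coeff_X_pow, coeff_X_zero, coeff_C_zero,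
      show (0 : ℕ) ≠ 2 by norm_num, if_false, mul_zero, mul_one,
      zero_add, add_zero] using this
  have c2 : u ^ 2 = a' := by
    have := congrArg (fun q => coeff q 2) h3
    simpa only [coeff_add, coeff_C_mul, coeff_X_pow, coeff_X, coeff_C,
      show (2 : ℕ) ≠ 0 by norm_num, show (1 : ℕ) ≠ 2 by norm_num, if_false, if_true, mul_zero,
      mul_one, zero_add, add_zero] using this
  rcases mul_eq_zero.1 c1 with h | h
  · rcases mul_eq_zero.1 h with h' | h'
    · exact two_ne_zero h'
    · apply ha; rw [← c2, h']; ring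
  · apply hb; rw [← c0, h]; ring

end
end
end Pool.Agent.V1148.Con
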