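import Pool.Agent.V1148.Con3
set_option autoImplicit false
namespace Pool.Agent.V1148.Con
open Polynomial IntermediateField

noncomputable section

section
variable {K E : Type*} [Field K] [CharZero K] [Field E] [Algebra K E] {a b : K}
  {s X Y : E}

theorem adj_pair (X Y : E) : adjoin K ({X, Y} : Set E) = K⟮X⟯ ⊔ K⟮Y⟯ := by
  rw [Set.insert_eq, ← adjoin_union]

theorem alg_L (hs : s ^ 2 = algebraMap K E a) : Algebra.IsAlgebraic K K⟮s⟯ := by
  have hint : IsIntegral K s := ⟨Polynomial.X ^ 2 - C a, monic_X_pow_sub_C _ two_ne_zero,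
    by simp [hs]⟩
  exact isAlgebraic_adjoin_simple hint

theorem trans_L (hs : s ^ 2 = algebraMap K E a) {z : E} (hz : Transcendental K z) :
    Transcendental K⟮s⟯ z := by
  haveI := alg_L hs
  intro h
  exact hz (h.restrictScalars K)

theorem s_not_K (h : Anis a b) (hs : s ^ 2 = algebraMap K E a) (c : K) :
    s ≠ algebraMap K E c := by
  rintro rfl
  apply h.not_sq c
  apply (algebraMap K E).injective
  rw [map_pow, hs]

theorem s_not_mem (h : Anis a b) (hs : s ^ 2 = algebraMap K E a) (hX : Transcendental K X)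
    (hY : Y ^ 2 = algebraMap K E a * X ^ 2 + algebraMap K E b) :
    s ∉ adjoin K ({X, Y} : Set E) ∧
      relfinrank (adjoin K ({X, Y} : Set E)) (adjoin K ({X, Y} : Set E) ⊔ K⟮s⟯) = 2 := by
  have hsA : s ∉ K⟮X⟯ := by
    intro hm
    have hint : IsAlgebraic K s := by
      have : IsIntegral K s := ⟨Polynomial.X ^ 2 - C a, monic_X_pow_sub_C _ two_ne_zero,
        by simp [hs]⟩
      exact this.isAlgebraic
    obtain ⟨c, hc⟩ := alg_const X hX s hm hint
    exact s_not_K h hs c hc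
  have hs2 : ∀ A : IntermediateField K E, s ^ 2 ∈ A := fun A => by
    rw [hs]; exact A.algebraMap_mem a
  have hY2 : ∀ A : IntermediateField K E, X ∈ A → Y ^ 2 ∈ A := fun A hXA => by
    rw [hY]
    exact add_mem (mul_mem (A.algebraMap_mem a) (pow_mem hXA 2)) (A.algebraMap_mem b)
  have hXA : X ∈ K⟮X⟯ := mem_adjoin_simple_self K X
  have R1 := relq K⟮X⟯ s (hs2 _) hsA
  have hYn : Y ∉ K⟮X⟯ ⊔ K⟮s⟯ := by
    intro hm
    rw [sup_comm, ← restrictScalars_adjoin_eq_sup, mem_restrictScalars] at hm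
    refine Y_not_mem (E := E) (algebraMap K K⟮s⟯ a) (algebraMap K K⟮s⟯ b) ?_ ?_ X Y (trans_L hs hX)
      ?_ hm
    · rw [_root_.map_ne_zero]; exact h.a_ne
    · rw [_root_.map_ne_zero]; exact h.b_ne
    · rw [hY]; rfl
  have R2 := relq (K⟮X⟯ ⊔ K⟮s⟯) Y (hY2 _ (le_sup_left (a := K⟮X⟯) hXA)) hYn
  have R3 := relq' K⟮X⟯ Y (hY2 _ hXA)
  have R4 := relq' (K⟮X⟯ ⊔ K⟮Y⟯) s (hs2 _)
  have e1 := relfinrank_mul_relfinrank (A := K⟮X⟯) (B := K⟮X⟯ ⊔ K⟮s⟯)
    (C := (K⟮X⟯ ⊔ K⟮s⟯) ⊔ K⟮Y⟯) le_sup_left le_sup_left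
  have e2 := relfinrank_mul_relfinrank (A := K⟮X⟯) (B := K⟮X⟯ ⊔ K⟮Y⟯)
    (C := (K⟮X⟯ ⊔ K⟮Y⟯) ⊔ K⟮s⟯) le_sup_left le_sup_left
  rw [R1, R2, sup_right_comm, ← e2] at e1
  rw [adj_pair]
  rcases R3 with ⟨_, r3⟩ | ⟨_, r3⟩ <;> rcases R4 with ⟨_, r4⟩ | ⟨r5, r4⟩
  · rw [r3, r4] at e1; omega
  · rw [r3, r4] at e1; omega
  · rw [r3, r4] at e1; omega
  · exact ⟨r5, r4⟩

/-- the parameter of the conic -/
theorem par_fields [NeZero (2 : E)] (hs : s ^ 2 = algebraMap K E a) (ha : a ≠ 0) (hb : b ≠ 0)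
    (X Y : E) (hY : Y ^ 2 = algebraMap K E a * X ^ 2 + algebraMap K E b) :
    (K⟮s⟯⟮Y + s * X⟯).restrictScalars K = adjoin K ({X, Y} : Set E) ⊔ K⟮s⟯ := by
  have hsm : s ∈ K⟮s⟯ := mem_adjoin_simple_self K s
  have hs0 : s ≠ 0 := by
    rintro rfl
    rw [zero_pow two_ne_zero] at hs
    exact ha ((map_eq_zero _).1 hs.symm)
  have hb0 : algebraMap K E b ≠ 0 := by rw [_root_.map_ne_zero]; exact hb
  rw [restrictScalars_adjoin_eq_sup]
  apply le_antisymm
  · refine sup_le le_sup_right ?_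
    rw [adjoin_simple_le_iff]
    refine add_mem ?_ (mul_mem (le_sup_right (b := K⟮s⟯) hsm) ?_)
    · exact le_sup_left (a := adjoin K ({X, Y} : Set E)) (subset_adjoin K _ (by simp))
    · exact le_sup_left (a := adjoin K ({X, Y} : Set E)) (subset_adjoin K _ (by simp))
  · refine sup_le ?_ le_sup_left
    rw [adjoin_le_iff]
    have hr : Y + s * X ∈ K⟮s⟯ ⊔ K⟮Y + s * X⟯ :=
      le_sup_right (b := K⟮Y + s * X⟯) (mem_adjoin_simple_self K _)
    have hs' : s ∈ K⟮s⟯ ⊔ K⟮Y + s * X⟯ := le_sup_left (a := K⟮s⟯) hsm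
    have hprod : (Y + s * X) * (Y - s * X) = algebraMap K E b := by
      have : (Y + s * X) * (Y - s * X) = Y ^ 2 - s ^ 2 * X ^ 2 := by ring
      rw [this, hY, hs]; ring
    have hr0 : Y + s * X ≠ 0 := by
      intro h0
      rw [h0, zero_mul] at hprod
      exact hb0 hprod.symm
    have hr2 : Y - s * X ∈ K⟮s⟯ ⊔ K⟮Y + s * X⟯ := by
      have : Y - s * X = algebraMap K E b / (Y + s * X) := by
        field_simp; rw [← hprod]; ring
      rw [this]
      exact div_mem (IntermediateField.algebraMap_mem _ b) hr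
    have h2 : (2 : E) ∈ K⟮s⟯ ⊔ K⟮Y + s * X⟯ := by
      have := IntermediateField.algebraMap_mem (K⟮s⟯ ⊔ K⟮Y + s * X⟯) (2 : K)
      rwa [map_ofNat] at this
    have h20 : (2 : E) ≠ 0 := NeZero.ne 2
    rintro z hz
    rcases hz with rfl | hz
    · have m := div_mem (sub_mem hr hr2) (mul_mem h2 hs')
      have e : ((Y + s * z) - (Y - s * z)) / (2 * s) = z := by
        field_simp; ring
      rwa [e] at m
    · rw [Set.mem_singleton_iff] at hz
      subst hz
      have m := div_mem (add_mem hr hr2) h2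
      have e : ((z + s * X) + (z - s * X)) / 2 = z := by
        field_simp; ring
      rwa [e] at m

end
end
end Pool.Agent.V1148.Con
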