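import Pool.Agent.V1148.Con4
set_option autoImplicit false
namespace Pool.Agent.V1148.Con
open Polynomial IntermediateField

noncomputable section

section
variable {K E : Type*} [Field K] [CharZero K] [Field E] [Algebra K E] {a b : K}
  {s X Y : E}

theorem prod_eq (hs : s ^ 2 = algebraMap K E a)
    (hY : Y ^ 2 = algebraMap K E a * X ^ 2 + algebraMap K E b) :
    (Y + s * X) * (Y - s * X) = algebraMap K E b := by
  have : (Y + s * X) * (Y - s * X) = Y ^ 2 - s ^ 2 * X ^ 2 := by ring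
  rw [this, hY, hs]; ring

theorem t_trans [CharZero E] (h : Anis a b) (hs : s ^ 2 = algebraMap K E a)
    (hX : Transcendental K X)
    (hY : Y ^ 2 = algebraMap K E a * X ^ 2 + algebraMap K E b) :
    Transcendental K⟮s⟯ (Y + s * X) := by
  haveI := alg_L hs
  intro hal
  have h1 : IsAlgebraic K (Y + s * X) := hal.restrictScalars K
  have hb0 : algebraMap K E b ≠ 0 := by rw [_root_.map_ne_zero]; exact h.b_ne
  have hsa : IsAlgebraic K s := by
    have : IsIntegral K s := ⟨Polynomial.X ^ 2 - C a, monic_X_pow_sub_C _ two_ne_zero,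
      by simp [hs]⟩
    exact this.isAlgebraic
  have hs0 : s ≠ 0 := by
    rintro rfl
    rw [zero_pow two_ne_zero] at hs
    exact h.a_ne ((map_eq_zero _).1 hs.symm)
  have hprod := prod_eq hs hY
  have hr0 : Y + s * X ≠ 0 := by
    intro h0
    rw [h0, zero_mul] at hprod
    exact hb0 hprod.symm
  have h2 : IsAlgebraic K (Y - s * X) := by
    have e : Y - s * X = algebraMap K E b * (Y + s * X)⁻¹ := by
      field_simp; rw [← hprod]; ring
    rw [e]
    exact (isAlgebraic_algebraMap b).mul h1.inv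
  have h3 : IsAlgebraic K X := by
    have e : X = ((Y + s * X) - (Y - s * X)) * (algebraMap K E 2 * s)⁻¹ := by
      rw [map_ofNat]; field_simp; ring
    rw [e]
    exact (h1.sub h2).mul ((isAlgebraic_algebraMap 2).mul hsa).inv
  exact hX h3

/-- conjugation on `K(s)` -/
def conj (τ : E →ₐ[K] E) (s : E) (hτ : τ s = -s) : K⟮s⟯ →ₐ[K] K⟮s⟯ :=
  (τ.comp K⟮s⟯.val).codRestrict K⟮s⟯.toSubalgebra (by
    intro x
    have h1 : K⟮s⟯.map τ ≤ K⟮s⟯ := by
      rw [adjoin_map, Set.image_singleton, hτ, adjoin_simple_le_iff]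
      exact neg_mem (mem_adjoin_simple_self K s)
    exact h1 ⟨x, x.2, rfl⟩)

theorem conj_coe (τ : E →ₐ[K] E) (s : E) (hτ : τ s = -s) (l : K⟮s⟯) :
    ((conj τ s hτ l : K⟮s⟯) : E) = τ (l : E) := rfl

theorem odd_core [CharZero E] (h : Anis a b) (hs : s ^ 2 = algebraMap K E a)
    (hX : Transcendental K X)
    (hY : Y ^ 2 = algebraMap K E a * X ^ 2 + algebraMap K E b) (τ : E →ₐ[K] E) (hτs : τ s = -s)
    (hτX : τ X = X) (hτY : τ Y = Y) (X1 Y1 : E) (hτX1 : τ X1 = X1) (hτY1 : τ Y1 = Y1)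
    (hY1 : Y1 ^ 2 = algebraMap K E a * X1 ^ 2 + algebraMap K E b)
    (f : RatFunc K⟮s⟯) (hf : emb (Y + s * X) (t_trans h hs hX hY) f = Y1 + s * X1) :
    Odd (max f.num.natDegree f.denom.natDegree) := by
  rw [← Nat.not_even_iff_odd]
  rintro ⟨e, he⟩
  have hb0 : algebraMap K E b ≠ 0 := by rw [_root_.map_ne_zero]; exact h.b_ne
  have hconj : ∀ X Y : E, τ X = X → τ Y = Y →
      Y ^ 2 = algebraMap K E a * X ^ 2 + algebraMap K E b →
      Y + s * X ≠ 0 ∧ τ (Y + s * X) = algebraMap K E b / (Y + s * X) := by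
    intro X Y hX hY hXY
    have hprod := prod_eq hs hXY
    have hr0 : Y + s * X ≠ 0 := by
      intro h0
      rw [h0, zero_mul] at hprod
      exact hb0 hprod.symm
    refine ⟨hr0, ?_⟩
    rw [map_add, map_mul, hX, hY, hτs, eq_div_iff hr0, ← hprod]
    ring
  have hc := hconj X1 Y1 hτX1 hτY1 hY1
  obtain ⟨l, hl⟩ := norm_core (conj τ s hτs : K⟮s⟯ →+* K⟮s⟯) (τ : E →+* E)
    (fun l => conj_coe τ s hτs l) (by
      intro l
      apply Subtype.ext
      change τ (τ (l : E)) = l
      obtain ⟨x, y, hxy⟩ := quad_elem s a hs _ l.2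
      rw [hxy]
      simp [hτs]) (Y + s * X) (t_trans h hs hX hY) (algebraMap K K⟮s⟯ b)
    (by rw [_root_.map_ne_zero]; exact h.b_ne) ((conj τ s hτs).commutes b)
    (hconj X Y hτX hτY hY).2 f (by rw [hf]; exact hc.1) (by rw [hf]; exact hc.2)
  have hl2 := congrArg (algebraMap K⟮s⟯ E) hl
  rw [map_pow, map_mul] at hl2
  obtain ⟨x, y, hxy⟩ := quad_elem s a hs _ l.2
  have e1 : algebraMap K⟮s⟯ E l = algebraMap K E y + s * algebraMap K E x := hxy
  have e2 : algebraMap K⟮s⟯ E ((conj τ s hτs : K⟮s⟯ →+* K⟮s⟯) l)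
      = algebraMap K E y - s * algebraMap K E x := by
    change τ (l : E) = _
    rw [hxy, map_add, map_mul, hτs, AlgHom.commutes, AlgHom.commutes]
    ring
  have e3 : algebraMap K⟮s⟯ E (algebraMap K K⟮s⟯ b) = algebraMap K E b := rfl
  rw [e1, e2, e3] at hl2
  have h5 : b ^ (max f.num.natDegree f.denom.natDegree + 1) = y ^ 2 - a * x ^ 2 := by
    apply (algebraMap K E).injective
    rw [map_pow, hl2, map_sub, map_mul, map_pow, map_pow, ← hs]
    ring
  have h6 := (h x y (b ^ e) (by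
    rw [he] at h5
    have : b * (b ^ e) ^ 2 = b ^ (e + e + 1) := by ring
    rw [this, h5]; ring)).2.2
  exact (pow_ne_zero e h.b_ne) h6

end

theorem normal_form {K M : Type*} [Field K] [CharZero K] [Field M] [Algebra K M] (a b : K)
    (h : Anis a b) (X Y : M) (hY : Y ^ 2 = algebraMap K M a * X ^ 2 + algebraMap K M b)
    (hgen : adjoin K ({X, Y} : Set M) = ⊤) (hX : Transcendental K X) :
    (∀ z : M, IsAlgebraic K z → ∃ c : K, z = algebraMap K M c) ∧
    ∀ X1 Y1 : M, Y1 ^ 2 = algebraMap K M a * X1 ^ 2 + algebraMap K M b →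
      Odd (Module.finrank (adjoin K ({X1, Y1} : Set M)) M) := by
  classical
  haveI : CharZero M := charZero_of_injective_algebraMap (algebraMap K M).injective
  let Ω := AlgebraicClosure M
  haveI : CharZero Ω := charZero_of_injective_algebraMap (algebraMap M Ω).injective
  let j : M →ₐ[K] Ω := IsScalarTower.toAlgHom K M Ω
  have hj : Function.Injective j := (j : M →+* Ω).injective
  obtain ⟨s, hs⟩ := IsAlgClosed.exists_pow_nat_eq (algebraMap K Ω a) two_pos
  have hjX : Transcendental K (j X) := by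
    intro hal
    exact hX ((isAlgebraic_algHom_iff j hj).1 hal)
  have hjc : ∀ X Y : M, Y ^ 2 = algebraMap K M a * X ^ 2 + algebraMap K M b →
      (j Y) ^ 2 = algebraMap K Ω a * (j X) ^ 2 + algebraMap K Ω b := by
    intro X Y hXY
    have := congrArg j hXY
    simpa [map_add, map_mul, map_pow, AlgHom.commutes] using this
  have hjY := hjc X Y hY
  have hmap : ∀ X Y : M, (adjoin K ({X, Y} : Set M)).map j = adjoin K ({j X, j Y} : Set Ω) := by
    intro X Y
    rw [adjoin_map, Set.image_pair]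
  have hM0 : ∀ z : M, j z ∈ adjoin K ({j X, j Y} : Set Ω) := by
    intro z
    rw [← hmap, hgen]
    exact ⟨z, mem_top, rfl⟩
  obtain ⟨hsn, hs2⟩ := s_not_mem h hs hjX hjY
  have htt := t_trans h hs hjX hjY
  haveI : NeZero (2 : Ω) := ⟨two_ne_zero⟩
  have hpar := par_fields hs h.a_ne h.b_ne (j X) (j Y) hjY
  refine ⟨?_, ?_⟩
  · intro z hz
    have hzal : IsAlgebraic K⟮s⟯ (j z) := ((isAlgebraic_algHom_iff j hj).2 hz).tower_top _
    have hzm : j z ∈ K⟮s⟯⟮j Y + s * j X⟯ := by
      rw [← mem_restrictScalars (K := K), hpar]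
      exact le_sup_left (a := adjoin K ({j X, j Y} : Set Ω)) (hM0 z)
    obtain ⟨c, hc⟩ := alg_const _ htt _ hzm hzal
    obtain ⟨x, y, hxy⟩ := quad_elem s a hs _ c.2
    have hjz : j z = algebraMap K Ω y + s * algebraMap K Ω x := by rw [hc]; exact hxy
    by_cases hx : x = 0
    · refine ⟨y, hj ?_⟩
      rw [hjz, hx, map_zero, mul_zero, add_zero, AlgHom.commutes]
    · exfalso
      apply hsn
      have hx' : algebraMap K Ω x ≠ 0 := by rw [_root_.map_ne_zero]; exact hx
      have e : s = (j z - algebraMap K Ω y) / algebraMap K Ω x := by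
        rw [hjz, add_sub_cancel_left, mul_div_assoc, div_self hx', mul_one]
      rw [e]
      exact div_mem (sub_mem (hM0 z) (IntermediateField.algebraMap_mem _ _))
        (IntermediateField.algebraMap_mem _ _)
  · intro X1 Y1 hY1
    have hjY1 := hjc X1 Y1 hY1
    have hpar1 := par_fields hs h.a_ne h.b_ne (j X1) (j Y1) hjY1
    have hle : adjoin K ({j X1, j Y1} : Set Ω) ≤ adjoin K ({j X, j Y} : Set Ω) := by
      rw [adjoin_le_iff]
      rintro w (rfl | hw)
      · exact hM0 _
      · rw [Set.mem_singleton_iff] at hw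
        subst hw
        exact hM0 _
    have hsn1 : s ∉ adjoin K ({j X1, j Y1} : Set Ω) := fun hh => hsn (hle hh)
    have R1 := relq (adjoin K ({j X1, j Y1} : Set Ω)) s (by
      rw [hs]; exact IntermediateField.algebraMap_mem _ _) hsn1
    have e1 := relfinrank_mul_relfinrank (A := adjoin K ({j X1, j Y1} : Set Ω))
      (B := adjoin K ({j X, j Y} : Set Ω)) (C := adjoin K ({j X, j Y} : Set Ω) ⊔ K⟮s⟯) hle
      le_sup_left
    have e2 := relfinrank_mul_relfinrank (A := adjoin K ({j X1, j Y1} : Set Ω))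
      (B := adjoin K ({j X1, j Y1} : Set Ω) ⊔ K⟮s⟯) (C := adjoin K ({j X, j Y} : Set Ω) ⊔ K⟮s⟯)
      le_sup_left (sup_le_sup_right hle _)
    have hr : j Y1 + s * j X1 ∈ K⟮s⟯⟮j Y + s * j X⟯ := by
      rw [← mem_restrictScalars (K := K), hpar]
      refine add_mem ?_ (mul_mem (le_sup_right (b := K⟮s⟯) (mem_adjoin_simple_self K s)) ?_)
      · exact le_sup_left (a := adjoin K ({j X, j Y} : Set Ω)) (hM0 _)
      · exact le_sup_left (a := adjoin K ({j X, j Y} : Set Ω)) (hM0 _)
    obtain ⟨f, hf⟩ := emb_range _ htt _ hr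
    have R2 : relfinrank (adjoin K ({j X1, j Y1} : Set Ω) ⊔ K⟮s⟯)
        (adjoin K ({j X, j Y} : Set Ω) ⊔ K⟮s⟯) = max f.num.natDegree f.denom.natDegree := by
      rw [← hpar, ← hpar1, ← hf]
      exact deg_rat _ (emb _ htt) (emb_X _ htt) f
    have R3 : relfinrank (adjoin K ({j X1, j Y1} : Set Ω)) (adjoin K ({j X, j Y} : Set Ω))
        = Module.finrank (adjoin K ({X1, Y1} : Set M)) M := by
      rw [← hmap, ← hmap, relfinrank_map_map, hgen, relfinrank_top_right]
    rw [hs2, R3] at e1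
    rw [R1, R2, ← e1] at e2
    have e3 : Module.finrank (adjoin K ({X1, Y1} : Set M)) M
        = max f.num.natDegree f.denom.natDegree := by omega
    rw [e3]
    -- the automorphism
    obtain ⟨τ, hτ⟩ : ∃ τ : Ω ≃ₐ[M] Ω, τ s ≠ s := by
      by_contra hcon
      push Not at hcon
      have hb : s ∈ (⊥ : IntermediateField M Ω) := InfiniteGalois.mem_bot_iff_fixed s |>.2 hcon
      rw [IntermediateField.mem_bot] at hb
      obtain ⟨m, hm⟩ := hb
      exact hsn (hm ▸ hM0 m)
    have hτa : ∀ m : M, τ (j m) = j m := fun m => τ.commutes m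
    have hτs : τ s = -s := by
      have h1 : (τ s) ^ 2 = s ^ 2 := by
        rw [← map_pow, hs]
        have : algebraMap K Ω a = j (algebraMap K M a) := (AlgHom.commutes j a).symm
        rw [this, hτa]
      rcases sq_eq_sq_iff_eq_or_eq_neg.mp h1 with h2 | h2
      · exact absurd h2 hτ
      · exact h2
    exact odd_core h hs hjX hjY ((τ : Ω →ₐ[M] Ω).restrictScalars K) hτs (hτa X) (hτa Y) (j X1)
      (j Y1) (hτa X1) (hτa Y1) hjY1 f hf

end
end Pool.Agent.V1148.Con
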