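import Pool.Agent.V1148.Con5
set_option autoImplicit false
namespace Pool.Agent.V1148.Con
open Polynomial IntermediateField

noncomputable section

/-- the ternary form -/
def Qf {R : Type*} [CommRing R] (A : Matrix (Fin 3) (Fin 3) R) (w : Fin 3 → R) : R :=
  ∑ i, ∑ j, w i * A i j * w j

theorem Qf_eq {R : Type*} [CommRing R] (A : Matrix (Fin 3) (Fin 3) R) (hA : A.IsSymm)
    (w : Fin 3 → R) : Qf A w = A 0 0 * w 0 ^ 2 + A 1 1 * w 1 ^ 2 + A 2 2 * w 2 ^ 2
      + 2 * A 0 1 * w 0 * w 1 + 2 * A 0 2 * w 0 * w 2 + 2 * A 1 2 * w 1 * w 2 := by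
  have h10 : A 1 0 = A 0 1 := hA.apply 0 1
  have h20 : A 2 0 = A 0 2 := hA.apply 0 2
  have h21 : A 2 1 = A 1 2 := hA.apply 1 2
  simp only [Qf, Fin.sum_univ_three, h10, h20, h21]
  ring

section
variable {R : Type*} [CommRing R] (A : Matrix (Fin 3) (Fin 3) R)

def B11 : R := A 0 0 * A 1 1 - A 0 1 ^ 2
def B12 : R := A 0 0 * A 1 2 - A 0 1 * A 0 2
def B22 : R := A 0 0 * A 2 2 - A 0 2 ^ 2
def DD : R := B11 A * B22 A - B12 A ^ 2
def u0 (w : Fin 3 → R) : R := A 0 0 * w 0 + A 0 1 * w 1 + A 0 2 * w 2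
def u1 (w : Fin 3 → R) : R := B11 A * w 1 + B12 A * w 2

theorem diag (hA : A.IsSymm) (w : Fin 3 → R) :
    A 0 0 * B11 A * Qf A w = B11 A * u0 A w ^ 2 + u1 A w ^ 2 + DD A * w 2 ^ 2 := by
  rw [Qf_eq A hA]
  simp only [u0, u1, DD, B11, B12, B22]
  ring
end

theorem A00_ne {K : Type*} [Field K] (A : Matrix (Fin 3) (Fin 3) K) (hA : A.IsSymm)
    (h : ∀ w : Fin 3 → K, Qf A w = 0 → w = 0) : A 0 0 ≠ 0 := by
  intro h0
  have := h ![1, 0, 0] (by rw [Qf_eq A hA]; simp [h0])
  have := congrFun this 0
  simp at this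

theorem B11_ne {K : Type*} [Field K] (A : Matrix (Fin 3) (Fin 3) K) (hA : A.IsSymm)
    (h : ∀ w : Fin 3 → K, Qf A w = 0 → w = 0) : B11 A ≠ 0 := by
  intro h0
  have h1 := h ![-A 0 1, A 0 0, 0] (by
    rw [Qf_eq A hA]
    simp only [Matrix.cons_val_zero, Matrix.cons_val_one, Matrix.cons_val_two, Matrix.tail_cons,
      Matrix.head_cons, Matrix.cons_val]
    unfold B11 at h0
    linear_combination A 0 0 * h0)
  have := congrFun h1 1
  simp at this
  exact A00_ne A hA h this

theorem anis_of {K : Type*} [Field K] (A : Matrix (Fin 3) (Fin 3) K) (hA : A.IsSymm)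
    (h : ∀ w : Fin 3 → K, Qf A w = 0 → w = 0) : Anis (-B11 A) (-DD A) := by
  intro x y z hxyz
  have hA0 := A00_ne A hA h
  have hB := B11_ne A hA h
  let w1 := (y - B12 A * z) / B11 A
  let w0 := (x - A 0 1 * w1 - A 0 2 * z) / A 0 0
  have e1 : u1 A ![w0, w1, z] = y := by
    simp only [u1, Matrix.cons_val_zero, Matrix.cons_val_one, Matrix.cons_val_two,
      Matrix.tail_cons, Matrix.head_cons, Matrix.cons_val, w1]
    field_simp; ring
  have e0 : u0 A ![w0, w1, z] = x := by
    simp only [u0, Matrix.cons_val_zero, Matrix.cons_val_one, Matrix.cons_val_two,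
      Matrix.tail_cons, Matrix.head_cons, Matrix.cons_val, w0]
    field_simp; ring
  have hd := diag A hA ![w0, w1, z]
  rw [e1, e0] at hd
  have hz : (![w0, w1, z] : Fin 3 → K) 2 = z := rfl
  rw [hz] at hd
  have hQ : Qf A ![w0, w1, z] = 0 := by
    have h3 : A 0 0 * B11 A * Qf A ![w0, w1, z] = 0 := by
      rw [hd, hxyz]; ring
    rcases mul_eq_zero.1 h3 with h4 | h4
    · exact absurd h4 (mul_ne_zero hA0 hB)
    · exact h4
  have h5 := h _ hQ
  rw [h5] at e0 e1
  have hz0 : z = 0 := by rw [← hz, h5]; rfl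
  refine ⟨?_, ?_, hz0⟩
  · rw [← e0]; simp [u0]
  · rw [← e1]; simp [u1]

/-- the field of ratios -/
def RF (K : Type*) {M : Type*} [Field K] [Field M] [Algebra K M] (v : Fin 3 → M) :
    IntermediateField K M := adjoin K {z : M | ∃ i j, z = v i / v j}

theorem mem_RF {K M : Type*} [Field K] [Field M] [Algebra K M] (v : Fin 3 → M) (i j : Fin 3) :
    v i / v j ∈ RF K v := subset_adjoin K _ ⟨i, j, rfl⟩

theorem RF_eq {K M : Type*} [Field K] [Field M] [Algebra K M]
    (A : Matrix (Fin 3) (Fin 3) K) (hA0 : A 0 0 ≠ 0) (hB : B11 A ≠ 0) (v : Fin 3 → M)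
    (hv2 : v 2 ≠ 0) :
    RF K v = adjoin K {u0 (A.map (algebraMap K M)) v / v 2, u1 (A.map (algebraMap K M)) v / v 2}
    := by
  have hc : ∀ (F : IntermediateField K M) (c : K), algebraMap K M c ∈ F := fun F c =>
    F.algebraMap_mem c
  have hA0' : algebraMap K M (A 0 0) ≠ 0 := by rw [_root_.map_ne_zero]; exact hA0
  have hBm : B11 (A.map (algebraMap K M)) = algebraMap K M (B11 A) := by
    simp [B11]
  have hB12 : B12 (A.map (algebraMap K M)) = algebraMap K M (B12 A) := by
    simp [B12]
  have hB' : algebraMap K M (B11 A) ≠ 0 := by rw [_root_.map_ne_zero]; exact hB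
  apply le_antisymm
  · set F := adjoin K {u0 (A.map (algebraMap K M)) v / v 2, u1 (A.map (algebraMap K M)) v / v 2}
      with hF
    have m0 : u0 (A.map (algebraMap K M)) v / v 2 ∈ F := subset_adjoin K _ (by simp)
    have m1 : u1 (A.map (algebraMap K M)) v / v 2 ∈ F := subset_adjoin K _ (by simp)
    have r1 : v 1 / v 2 ∈ F := by
      have e : (u1 (A.map (algebraMap K M)) v / v 2 - algebraMap K M (B12 A))
          / algebraMap K M (B11 A) = v 1 / v 2 := by
        simp only [u1, hBm, hB12]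
        field_simp; ring
      rw [← e]
      exact div_mem (sub_mem m1 (hc _ _)) (hc _ _)
    have r0 : v 0 / v 2 ∈ F := by
      have e : (u0 (A.map (algebraMap K M)) v / v 2 - algebraMap K M (A 0 1) * (v 1 / v 2)
          - algebraMap K M (A 0 2)) / algebraMap K M (A 0 0) = v 0 / v 2 := by
        simp only [u0, Matrix.map_apply]
        field_simp; ring
      rw [← e]
      exact div_mem (sub_mem (sub_mem m0 (mul_mem (hc _ _) r1)) (hc _ _)) (hc _ _)
    have r2 : v 2 / v 2 ∈ F := by rw [div_self hv2]; exact one_mem F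
    have rr : ∀ i, v i / v 2 ∈ F := by
      intro i
      fin_cases i
      · exact r0
      · exact r1
      · exact r2
    unfold RF
    rw [adjoin_le_iff]
    rintro z ⟨i, j, rfl⟩
    have e : v i / v j = (v i / v 2) / (v j / v 2) := by
      rw [div_div_div_cancel_right₀ hv2]
    rw [SetLike.mem_coe, e]
    exact div_mem (rr i) (rr j)
  · rw [adjoin_le_iff]
    have n0 := mem_RF (K := K) v 0 2
    have n1 := mem_RF (K := K) v 1 2
    rintro z (rfl | hz)
    · have e : u0 (A.map (algebraMap K M)) v / v 2 = algebraMap K M (A 0 0) * (v 0 / v 2)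
          + algebraMap K M (A 0 1) * (v 1 / v 2) + algebraMap K M (A 0 2) := by
        simp only [u0, Matrix.map_apply]
        field_simp
      rw [SetLike.mem_coe, e]
      exact add_mem (add_mem (mul_mem (hc _ _) n0) (mul_mem (hc _ _) n1)) (hc _ _)
    · rw [Set.mem_singleton_iff] at hz
      have e : z = algebraMap K M (B11 A) * (v 1 / v 2) + algebraMap K M (B12 A) := by
        rw [hz]
        simp only [u1, hBm, hB12]
        field_simp
      rw [SetLike.mem_coe, e]
      exact add_mem (mul_mem (hc _ _) n1) (hc _ _)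

theorem conic_eq {K M : Type*} [Field K] [Field M] [Algebra K M]
    (A : Matrix (Fin 3) (Fin 3) K) (hA : A.IsSymm) (v : Fin 3 → M)
    (hv : ∑ i, ∑ j, v i * algebraMap K M (A i j) * v j = 0) (hv2 : v 2 ≠ 0) :
    (u1 (A.map (algebraMap K M)) v / v 2) ^ 2
      = algebraMap K M (-B11 A) * (u0 (A.map (algebraMap K M)) v / v 2) ^ 2
        + algebraMap K M (-DD A) := by
  have hAs : (A.map (algebraMap K M)).IsSymm := hA.map _
  have hd := diag (A.map (algebraMap K M)) hAs v
  have hQ : Qf (A.map (algebraMap K M)) v = 0 := hv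
  have hBm : B11 (A.map (algebraMap K M)) = algebraMap K M (B11 A) := by
    simp [B11]
  have hDm : DD (A.map (algebraMap K M)) = algebraMap K M (DD A) := by
    simp [DD, B11, B12, B22]
  rw [hQ, hBm, hDm, mul_zero] at hd
  rw [map_neg, map_neg, div_pow, div_pow]
  field_simp
  linear_combination -hd

theorem t_conic (K M : Type) [Field K] [CharZero K] [Field M] [Algebra K M]
    (A : Matrix (Fin 3) (Fin 3) K) (hA : A.IsSymm)
    (h : ∀ w : Fin 3 → K, ∑ i, ∑ j, w i * A i j * w j = 0 → w = 0)
    (hM : ¬ Algebra.IsAlgebraic K M)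
    (v : Fin 3 → M) (hv : ∑ i, ∑ j, v i * algebraMap K M (A i j) * v j = 0)
    (hgen : IntermediateField.adjoin K {z : M | ∃ i j, z = v i / v j} = ⊤) :
    (∀ z : M, IsAlgebraic K z → ∃ a : K, z = algebraMap K M a) ∧
    ∀ v' : Fin 3 → M, v' ≠ 0 → ∑ i, ∑ j, v' i * algebraMap K M (A i j) * v' j = 0 →
      Odd (Module.finrank (IntermediateField.adjoin K {z : M | ∃ i j, z = v' i / v' j}) M) := by
  have h' : ∀ w : Fin 3 → K, Qf A w = 0 → w = 0 := h
  have hA0 := A00_ne A hA h'
  have hB := B11_ne A hA h'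
  have han := anis_of A hA h'
  have hA0' : algebraMap K M (A 0 0) ≠ 0 := by rw [_root_.map_ne_zero]; exact hA0
  have hBm : B11 (A.map (algebraMap K M)) = algebraMap K M (B11 A) := by
    simp [B11]
  have hB12 : B12 (A.map (algebraMap K M)) = algebraMap K M (B12 A) := by
    simp [B12]
  have hB' : algebraMap K M (B11 A) ≠ 0 := by rw [_root_.map_ne_zero]; exact hB
  -- a point with third coordinate zero gives a square root of `-B11`
  have key : ∀ v : Fin 3 → M, v ≠ 0 → ∑ i, ∑ j, v i * algebraMap K M (A i j) * v j = 0 →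
      v 2 = 0 → ∃ q : M, q ^ 2 = algebraMap K M (-B11 A) ∧ ∀ i j, v i / v j ∈ K⟮q⟯ := by
    intro v hv0 hv h2
    have hAs : (A.map (algebraMap K M)).IsSymm := hA.map _
    have hd := diag (A.map (algebraMap K M)) hAs v
    have hQ : Qf (A.map (algebraMap K M)) v = 0 := hv
    rw [hQ, hBm, mul_zero, h2] at hd
    have hu1 : u1 (A.map (algebraMap K M)) v = algebraMap K M (B11 A) * v 1 := by
      simp [u1, hBm, h2]
    have hu0 : u0 (A.map (algebraMap K M)) v
        = algebraMap K M (A 0 0) * v 0 + algebraMap K M (A 0 1) * v 1 := by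
      simp [u0, h2]
    have hu0ne : u0 (A.map (algebraMap K M)) v ≠ 0 := by
      intro h0
      rw [h0] at hd
      have h3 : u1 (A.map (algebraMap K M)) v = 0 := by
        have : u1 (A.map (algebraMap K M)) v ^ 2 = 0 := by linear_combination -hd
        exact pow_eq_zero_iff two_ne_zero |>.1 this
      rw [hu1] at h3
      have h4 : v 1 = 0 := by
        rcases mul_eq_zero.1 h3 with h5 | h5
        · exact absurd h5 hB'
        · exact h5
      rw [hu0, h4, mul_zero, add_zero] at h0
      have h6 : v 0 = 0 := by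
        rcases mul_eq_zero.1 h0 with h5 | h5
        · exact absurd h5 hA0'
        · exact h5
      apply hv0
      funext i
      fin_cases i
      · exact h6
      · exact h4
      · exact h2
    refine ⟨u1 (A.map (algebraMap K M)) v / u0 (A.map (algebraMap K M)) v, ?_, ?_⟩
    · rw [map_neg, div_pow]
      field_simp
      linear_combination -hd
    · set q := u1 (A.map (algebraMap K M)) v / u0 (A.map (algebraMap K M)) v with hq
      set U := u0 (A.map (algebraMap K M)) v with hU
      have hqm : q ∈ K⟮q⟯ := mem_adjoin_simple_self K q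
      have hc : ∀ c : K, algebraMap K M c ∈ K⟮q⟯ := fun c => IntermediateField.algebraMap_mem _ c
      have r1 : v 1 / U ∈ K⟮q⟯ := by
        have e : q / algebraMap K M (B11 A) = v 1 / U := by
          rw [hq, hu1]; field_simp
        rw [← e]
        exact div_mem hqm (hc _)
      have r0 : v 0 / U ∈ K⟮q⟯ := by
        have e : (1 - algebraMap K M (A 0 1) * (v 1 / U)) / algebraMap K M (A 0 0) = v 0 / U := by
          field_simp
          rw [hu0]; ring
        rw [← e]
        exact div_mem (sub_mem (one_mem _) (mul_mem (hc _) r1)) (hc _)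
      have r2 : v 2 / U ∈ K⟮q⟯ := by rw [h2, zero_div]; exact zero_mem _
      have rr : ∀ i, v i / U ∈ K⟮q⟯ := by
        intro i
        fin_cases i
        · exact r0
        · exact r1
        · exact r2
      intro i j
      have e : v i / v j = (v i / U) / (v j / U) := by
        rw [div_div_div_cancel_right₀ hu0ne]
      rw [e]
      exact div_mem (rr i) (rr j)
  have halg : ∀ q : M, q ^ 2 = algebraMap K M (-B11 A) → IsIntegral K q := by
    intro q hq
    exact ⟨Polynomial.X ^ 2 - C (-B11 A), monic_X_pow_sub_C _ two_ne_zero, by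
      simp only [eval₂_sub, eval₂_pow, eval₂_X, eval₂_C, hq, sub_self]⟩
  have hv0 : v ≠ 0 := by
    rintro rfl
    apply hM
    have e : adjoin K {z : M | ∃ i j : Fin 3, z = (0 : Fin 3 → M) i / (0 : Fin 3 → M) j} = ⊥ := by
      rw [eq_bot_iff, adjoin_le_iff]
      rintro z ⟨i, j, rfl⟩
      simp
    rw [e] at hgen
    constructor
    intro x
    have hx : x ∈ (⊥ : IntermediateField K M) := by rw [hgen]; exact mem_top
    rw [IntermediateField.mem_bot] at hx
    obtain ⟨c, rfl⟩ := hx
    exact isAlgebraic_algebraMap c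
  have hv2 : v 2 ≠ 0 := by
    intro h2
    obtain ⟨q, hq, hqr⟩ := key v hv0 hv h2
    apply hM
    have e : (⊤ : IntermediateField K M) ≤ K⟮q⟯ := by
      rw [← hgen, adjoin_le_iff]
      rintro z ⟨i, j, rfl⟩
      exact hqr i j
    haveI := isAlgebraic_adjoin_simple (halg q hq)
    constructor
    intro x
    have hx : x ∈ K⟮q⟯ := e mem_top
    have := Algebra.IsAlgebraic.isAlgebraic (R := K) (⟨x, hx⟩ : K⟮q⟯)
    exact (isAlgebraic_algHom_iff (K⟮q⟯.val) (K⟮q⟯.val : K⟮q⟯ →+* M).injective).2 this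
  have hRF := RF_eq (M := M) A hA0 hB v hv2
  have hceq := conic_eq (M := M) A hA v hv hv2
  have hgen' : adjoin K {u0 (A.map (algebraMap K M)) v / v 2,
      u1 (A.map (algebraMap K M)) v / v 2} = ⊤ := by
    rw [← hRF]; exact hgen
  have hX : Transcendental K (u0 (A.map (algebraMap K M)) v / v 2) := by
    intro hal
    apply hM
    have h1 : IsIntegral K (u0 (A.map (algebraMap K M)) v / v 2) := hal.isIntegral
    have h2 : IsIntegral K (u1 (A.map (algebraMap K M)) v / v 2) := by
      apply IsIntegral.of_pow two_pos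
      rw [hceq]
      exact (isIntegral_algebraMap.mul (h1.pow 2)).add isIntegral_algebraMap
    have h3 : Algebra.IsAlgebraic K (adjoin K {u0 (A.map (algebraMap K M)) v / v 2,
        u1 (A.map (algebraMap K M)) v / v 2}) := by
      apply isAlgebraic_adjoin
      rintro x (rfl | hx)
      · exact h1
      · rw [Set.mem_singleton_iff] at hx; subst hx; exact h2
    rw [hgen'] at h3
    constructor
    intro x
    have := h3.isAlgebraic (⟨x, mem_top⟩ : (⊤ : IntermediateField K M))
    exact (isAlgebraic_algHom_iff ((⊤ : IntermediateField K M).val)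
      Subtype.val_injective).2 this
  obtain ⟨p1, p2⟩ := normal_form _ _ han _ _ hceq hgen' hX
  refine ⟨p1, ?_⟩
  intro v' hv'0 hv'
  have hv'2 : v' 2 ≠ 0 := by
    intro h2
    obtain ⟨q, hq, _⟩ := key v' hv'0 hv' h2
    obtain ⟨c, hc⟩ := p1 q (halg q hq).isAlgebraic
    apply han.not_sq c
    apply (algebraMap K M).injective
    rw [map_pow, ← hc, hq]
  have := p2 _ _ (conic_eq (M := M) A hA v' hv' hv'2)
  rw [← RF_eq (M := M) A hA0 hB v' hv'2] at this
  exact this

end
end Pool.Agent.V1148.Con
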