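import Mathlib
import Pool.Agent.V1148.ArrDefs
import Pool.Agent.V1148.Arr3

set_option autoImplicit false

/-!
# The intersection lattice is determined by the bases
-/

namespace Pool.Agent.V1148

open MvPolynomial

variable {K : Type*} [Field K] {n l l' : ℕ}

theorem hyper_iff_span (A : Fin n → Fin l → K) (s : Set (Fin n)) (i : Fin n) :
    ⨅ j ∈ s, hyper (A j) ≤ hyper (A i) ↔ A i ∈ Submodule.span K (A '' s) := by
  constructor
  · intro h
    by_contra hcon
    obtain ⟨f, hf, hker⟩ := Submodule.exists_le_ker_of_notMem hcon
    have hrep : ∀ v : Fin l → K, f v = ∑ j, v j * f (Pi.single j 1) := by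
      intro v
      have hv : v = ∑ j, v j • (Pi.single j 1 : Fin l → K) := by
        funext k
        simp [Finset.sum_apply, Pi.single_apply]
      conv_lhs => rw [hv]
      rw [map_sum]
      apply Finset.sum_congr rfl
      intro j _
      rw [map_smul, smul_eq_mul]
    have hx : (fun j => f (Pi.single j 1)) ∈ ⨅ j ∈ s, hyper (A j) := by
      rw [Submodule.mem_iInf]
      intro j
      rw [Submodule.mem_iInf]
      intro hj
      rw [mem_hyper, ← hrep]
      exact hker (Submodule.subset_span ⟨j, hj, rfl⟩)
    have h1 := h hx
    rw [mem_hyper, ← hrep] at h1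
    exact hf h1
  · intro h x hx
    rw [Submodule.mem_iInf] at hx
    have hx' : ∀ j ∈ s, x ∈ hyper (A j) := fun j hj => (Submodule.mem_iInf _).1 (hx j) hj
    have key : Submodule.span K (A '' s) ≤
        { carrier := {a | ∑ j, a j * x j = 0}
          add_mem' := by
            intro a b ha hb
            simp only [Set.mem_ofPred_eq, Pi.add_apply, add_mul, Finset.sum_add_distrib] at *
            rw [ha, hb, add_zero]
          zero_mem' := by simp
          smul_mem' := by
            intro c a ha
            simp only [Set.mem_ofPred_eq, Pi.smul_apply, smul_eq_mul, mul_assoc] at *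
            rw [← Finset.mul_sum, ha, mul_zero] } := by
      rw [Submodule.span_le]
      rintro _ ⟨j, hj, rfl⟩
      exact hx' j hj
    exact key h

/-- The independent sets determine the lattice. -/
theorem lattice_iso_of_indep {A : Fin n → Fin l → K} {B : Fin n → Fin l' → K}
    (h : ∀ t : Set (Fin n), LinearIndepOn K A t ↔ LinearIndepOn K B t) :
    Nonempty (IntersectionLattice A ≃o IntersectionLattice B) := by
  apply lattice_iso_of_closure
  intro s i
  rw [hyper_iff_span, hyper_iff_span]
  obtain ⟨b, hbs, -, hspan, hb⟩ := exists_linearIndepOn_extension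
    (linearIndepOn_empty K A) (Set.empty_subset s)
  have hA : Submodule.span K (A '' s) = Submodule.span K (A '' b) := by
    apply le_antisymm
    · rw [Submodule.span_le]
      exact hspan
    · exact Submodule.span_mono (Set.image_mono hbs)
  have hb' : LinearIndepOn K B b := (h b).1 hb
  have hB : Submodule.span K (B '' s) = Submodule.span K (B '' b) := by
    apply le_antisymm
    · rw [Submodule.span_le]
      rintro _ ⟨j, hj, rfl⟩
      rw [SetLike.mem_coe, hb'.mem_span_iff, ← h, ← hb.mem_span_iff, ← hA]
      exact Submodule.subset_span ⟨j, hj, rfl⟩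
    · exact Submodule.span_mono (Set.image_mono hbs)
  rw [hA, hB, hb.mem_span_iff, hb'.mem_span_iff, h]

/-- Independent sets are the subsets of bases. -/
theorem indep_iff_bases {A : Fin n → Fin l → K} (hA : Submodule.span K (Set.range A) = ⊤)
    (t : Set (Fin n)) : LinearIndepOn K A t ↔
      ∃ e : Fin l ↪o Fin n, t ⊆ Set.range e ∧ (Matrix.of fun i j => A (e i) j).det ≠ 0 := by
  constructor
  · intro ht
    obtain ⟨b, -, htb, hspan, hb⟩ := exists_linearIndepOn_extension ht (Set.subset_univ t)
    have hbfin : b.Finite := Set.toFinite b
    have hcard : hbfin.toFinset.card = l := by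
      have h1 : Submodule.span K (Set.range fun x : b => A x) = ⊤ := by
        rw [eq_top_iff, ← hA, Submodule.span_le]
        rintro _ ⟨j, rfl⟩
        have : A j ∈ Submodule.span K (A '' b) := hspan ⟨j, trivial, rfl⟩
        have h3 : (Set.range fun x : b => A x) = A '' b := by
          ext y
          simp
        rw [h3]
        exact this
      have hbas := Module.Basis.mk (M := Fin l → K) (v := fun x : b => A x) hb h1.ge
      have h4 := Module.finrank_eq_nat_card_basis hbas
      rw [Module.finrank_fin_fun] at h4
      rw [h4, Nat.card_coe_set_eq, Set.ncard_eq_toFinset_card b hbfin]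
    refine ⟨hbfin.toFinset.orderEmbOfFin hcard, ?_, ?_⟩
    · intro x hx
      rw [Finset.range_orderEmbOfFin]
      simpa using htb hx
    · have h2 : LinearIndependent K fun i => A (hbfin.toFinset.orderEmbOfFin hcard i) := by
        have := hb.comp (fun i : Fin l => (⟨hbfin.toFinset.orderEmbOfFin hcard i,
          hbfin.mem_toFinset.1 (Finset.orderEmbOfFin_mem hbfin.toFinset hcard i)⟩ : b)) (by
            intro i j hij
            simpa using hij)
        exact this
      have h3 := Matrix.linearIndependent_rows_iff_isUnit
        (A := Matrix.of fun i j => A (hbfin.toFinset.orderEmbOfFin hcard i) j)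
      have h4 := h3.1 h2
      rw [Matrix.isUnit_iff_isUnit_det] at h4
      exact h4.ne_zero
  · rintro ⟨e, hte, hdet⟩
    have h3 := Matrix.linearIndependent_rows_iff_isUnit
        (A := Matrix.of fun i j => A (e i) j)
    have h4 : LinearIndependent K fun i => A (e i) := h3.2 (by
      rw [Matrix.isUnit_iff_isUnit_det]
      exact isUnit_iff_ne_zero.2 hdet)
    have h5 : LinearIndepOn K A (Set.range e) := by
      rw [LinearIndepOn]
      have e' := Equiv.ofInjective e e.injective
      rw [← linearIndependent_equiv (Equiv.ofInjective e e.injective)]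
      exact h4
    exact h5.mono hte

/-- The pattern of vanishing maximal minors determines the lattice. -/
theorem lattice_iso_of_minors {A B : Fin n → Fin l → K}
    (hA : Submodule.span K (Set.range A) = ⊤) (hB : Submodule.span K (Set.range B) = ⊤)
    (h : ∀ e : Fin l ↪o Fin n, (Matrix.of fun i j => A (e i) j).det = 0 ↔
      (Matrix.of fun i j => B (e i) j).det = 0) :
    Nonempty (IntersectionLattice A ≃o IntersectionLattice B) := by
  apply lattice_iso_of_indep
  intro t
  rw [indep_iff_bases hA, indep_iff_bases hB]
  simp only [Ne, h]

end Pool.Agent.V1148
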