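import Mathlib
import Pool.Agent.V1148.Lattice

set_option autoImplicit false

/-!
# Lattices of arrangements in four-space given by integer vectors
-/

namespace Pool.Agent.V1148

open MvPolynomial

/-- The determinant of a three by three matrix. -/
def d3 {R : Type*} [CommRing R] (a b c d e f g h i : R) : R :=
  a * (e * i - f * h) - b * (d * i - f * g) + c * (d * h - e * g)

/-- The determinant of four vectors. -/
def det4 {R : Type*} [CommRing R] (a b c d : Fin 4 → R) : R :=
  a 0 * d3 (b 1) (b 2) (b 3) (c 1) (c 2) (c 3) (d 1) (d 2) (d 3) -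
  a 1 * d3 (b 0) (b 2) (b 3) (c 0) (c 2) (c 3) (d 0) (d 2) (d 3) +
  a 2 * d3 (b 0) (b 1) (b 3) (c 0) (c 1) (c 3) (d 0) (d 1) (d 3) -
  a 3 * d3 (b 0) (b 1) (b 2) (c 0) (c 1) (c 2) (d 0) (d 1) (d 2)

theorem det_eq_det4 {R : Type*} [CommRing R] (M : Fin 4 → Fin 4 → R) :
    (Matrix.of M).det = det4 (M 0) (M 1) (M 2) (M 3) := by
  rw [Matrix.det_succ_row_zero]
  simp only [Fin.sum_univ_succ, Matrix.det_fin_three, Matrix.submatrix_apply, Matrix.of_apply]
  simp [Fin.succAbove, det4, d3, Fin.ext_iff]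
  ring

variable {K : Type*} [Field K] {n l : ℕ}

theorem minor_of_hyper_eq {a b : Fin l → K} (h : hyper a = hyper b) (p q : Fin l) :
    a p * b q - a q * b p = 0 := by
  by_cases hpq : p = q
  · subst hpq
    ring
  have h1 : (a q • (Pi.single p 1 : Fin l → K) - a p • (Pi.single q 1 : Fin l → K)) ∈ hyper a := by
    rw [mem_hyper]
    simp [mul_sub, Finset.sum_sub_distrib, Pi.single_apply]
    ring
  rw [h, mem_hyper] at h1
  simp [mul_sub, Finset.sum_sub_distrib, Pi.single_apply] at h1
  linear_combination -h1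

/-- Integer vectors as vectors over the field. -/
def zc (Z : Fin n → Fin l → ℤ) : Fin n → Fin l → K := fun i j => (Z i j : K)

theorem zc_isArrangement [CharZero K] {Z : Fin n → Fin l → ℤ} (h0 : ∀ i, ∃ p, Z i p ≠ 0)
    (h : ∀ i j, i ≠ j → ∃ p q, Z i p * Z j q - Z i q * Z j p ≠ 0) :
    IsArrangement (zc Z : Fin n → Fin l → K) := by
  constructor
  · intro i h1
    obtain ⟨p, hp⟩ := h0 i
    apply hp
    have := congrFun h1 p
    simp only [zc, Pi.zero_apply] at this
    exact_mod_cast this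
  · intro i j hij
    by_contra hne
    obtain ⟨p, q, hpq⟩ := h i j hne
    apply hpq
    have := minor_of_hyper_eq hij p q
    simp only [zc] at this
    exact_mod_cast this

theorem zc_lattice [CharZero K] {Z Y : Fin n → Fin 4 → ℤ}
    (hZ : Submodule.span K (Set.range (zc Z : Fin n → Fin 4 → K)) = ⊤)
    (hY : Submodule.span K (Set.range (zc Y : Fin n → Fin 4 → K)) = ⊤)
    (h : ∀ i j : Fin n, i < j → ∀ k, j < k → ∀ m, k < m →
      (det4 (Z i) (Z j) (Z k) (Z m) = 0 ↔ det4 (Y i) (Y j) (Y k) (Y m) = 0)) :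
    Nonempty (IntersectionLattice (zc Z : Fin n → Fin 4 → K) ≃o
      IntersectionLattice (zc Y : Fin n → Fin 4 → K)) := by
  apply lattice_iso_of_minors hZ hY
  intro e
  have key : ∀ W : Fin n → Fin 4 → ℤ, (Matrix.of fun i j => (zc W : Fin n → Fin 4 → K) (e i) j).det
      = ((det4 (W (e 0)) (W (e 1)) (W (e 2)) (W (e 3)) : ℤ) : K) := by
    intro W
    rw [det_eq_det4]
    simp only [det4, d3, zc]
    push_cast
    ring
  rw [key, key, Int.cast_eq_zero, Int.cast_eq_zero]
  exact h _ _ (e.strictMono (by decide)) _ (e.strictMono (by decide)) _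
    (e.strictMono (by decide))

end Pool.Agent.V1148
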