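import Mathlib
import Pool.Agent.V1148.LinForm

set_option autoImplicit false

/-!
# Ideals generated by two linear forms
-/

namespace Pool.Agent.V1148

open MvPolynomial

variable {K : Type*} [Field K] {n : ℕ}

theorem mem_pair_iff {a b : Fin n → K} {i j : Fin n} (hi : a i ≠ 0)
    (hj : (b - (b i * (a i)⁻¹) • a) j ≠ 0) (q : MvPolynomial (Fin n) K) :
    q ∈ Ideal.span {lin a, lin b} ↔ res (b - (b i * (a i)⁻¹) • a) j (res a i q) = 0 := by
  rw [Ideal.mem_span_pair]
  constructor
  · rintro ⟨u, v, rfl⟩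
    rw [map_add, map_mul, map_mul, (lin_dvd_iff hi (lin a)).1 dvd_rfl, mul_zero, zero_add,
      map_mul, res_lin a b i, (lin_dvd_iff hj _).1 dvd_rfl, mul_zero]
  · intro h
    obtain ⟨u, hu⟩ := dvd_sub_res a i q
    obtain ⟨v, hv⟩ := (lin_dvd_iff hj _).2 h
    refine ⟨u - C (b i * (a i)⁻¹) * v, v, ?_⟩
    have : lin (b - (b i * (a i)⁻¹) • a) = lin b - C (b i * (a i)⁻¹) * lin a := by
      rw [lin_sub, lin_smul]
    rw [this] at hv
    linear_combination -hu - hv

/-- Multiplication by a linear form independent of `a, b` is injective modulo `(a, b)`. -/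
theorem pair_cancel' {a b c : Fin n → K} (ha : a ≠ 0) (hb : ∀ t : K, b ≠ t • a)
    (hc : ∀ s t : K, c ≠ s • a + t • b) {q : MvPolynomial (Fin n) K}
    (h : lin c * q ∈ Ideal.span {lin a, lin b}) : q ∈ Ideal.span {lin a, lin b} := by
  obtain ⟨i, hi⟩ := Function.ne_iff.1 ha
  have hi' : a i ≠ 0 := hi
  have hb' : b - (b i * (a i)⁻¹) • a ≠ 0 := fun h0 => hb _ (sub_eq_zero.1 h0)
  obtain ⟨j, hj⟩ := Function.ne_iff.1 hb'
  have hj' : (b - (b i * (a i)⁻¹) • a) j ≠ 0 := hj
  rw [mem_pair_iff hi' hj'] at h ⊢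
  rw [map_mul, map_mul] at h
  rcases mul_eq_zero.1 h with h1 | h1
  · exfalso
    rw [res_lin, res_lin, lin_eq_zero_iff, sub_eq_zero, sub_eq_iff_eq_add] at h1
    generalize (c - (c i * (a i)⁻¹) • a) j * ((b - (b i * (a i)⁻¹) • a) j)⁻¹ = s at h1
    generalize c i * (a i)⁻¹ = t at h1
    apply hc (t - s * (b i * (a i)⁻¹)) s
    rw [h1]
    module
  · exact h1

/-- Version with a nonzero minor. -/
theorem pair_cancel {a b c : Fin n → K} (i j k : Fin n)
    (hdet : a i * (b j * c k - b k * c j) - a j * (b i * c k - b k * c i) +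
      a k * (b i * c j - b j * c i) ≠ 0) {q : MvPolynomial (Fin n) K}
    (h : lin c * q ∈ Ideal.span {lin a, lin b}) : q ∈ Ideal.span {lin a, lin b} := by
  apply pair_cancel' _ _ _ h
  · rintro rfl
    apply hdet
    simp
  · rintro t rfl
    apply hdet
    simp only [Pi.smul_apply, smul_eq_mul]
    ring
  · rintro s t rfl
    apply hdet
    simp only [Pi.smul_apply, Pi.add_apply, smul_eq_mul]
    ring

theorem relPrime_of_minor {a b : Fin n → K} (i j : Fin n) (h : a i * b j - a j * b i ≠ 0) :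
    IsRelPrime (lin a) (lin b) := by
  apply lin_isRelPrime
  · rintro rfl
    apply h
    simp
  · rintro rfl
    apply h
    simp
  · rintro c rfl
    apply h
    simp only [Pi.smul_apply, smul_eq_mul]
    ring

theorem not_dvd_of_minor {a b : Fin n → K} (i j : Fin n) (h : a i * b j - a j * b i ≠ 0) :
    ¬ lin a ∣ lin b := by
  have ha : a ≠ 0 := by
    rintro rfl
    apply h
    simp
  intro hd
  obtain ⟨c, rfl⟩ := (lin_dvd_lin_iff ha).1 hd
  apply h
  simp only [Pi.smul_apply, smul_eq_mul]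
  ring

/-- Multiplication by a linear form independent of `a, b` is injective modulo `(a, b²)`. -/
theorem pow2_cancel {a b c : Fin n → K} (i j k : Fin n)
    (hdet : a i * (b j * c k - b k * c j) - a j * (b i * c k - b k * c i) +
      a k * (b i * c j - b j * c i) ≠ 0) {q : MvPolynomial (Fin n) K}
    (h : ∃ u v, lin c * q = lin a * u + lin b ^ 2 * v) :
    ∃ u v, q = lin a * u + lin b ^ 2 * v := by
  obtain ⟨u, v, huv⟩ := h
  have ha : a ≠ 0 := by
    rintro rfl
    apply hdet
    simp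
  have hnd : ¬ lin a ∣ lin b := by
    intro hd
    obtain ⟨t, rfl⟩ := (lin_dvd_lin_iff ha).1 hd
    apply hdet
    simp only [Pi.smul_apply, smul_eq_mul]
    ring
  have h1 : q ∈ Ideal.span {lin a, lin b} := by
    apply pair_cancel i j k hdet
    rw [Ideal.mem_span_pair]
    exact ⟨u, lin b * v, by rw [huv]; ring⟩
  obtain ⟨q1, q2, hq⟩ := Ideal.mem_span_pair.1 h1
  have h2 : lin a ∣ lin b * (lin c * q2 - lin b * v) := by
    refine ⟨u - lin c * q1, ?_⟩
    rw [← hq] at huv
    linear_combination huv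
  obtain ⟨w, hw⟩ := ((lin_prime ha).dvd_or_dvd h2).resolve_left hnd
  have h3 : q2 ∈ Ideal.span {lin a, lin b} := by
    apply pair_cancel i j k hdet
    rw [Ideal.mem_span_pair]
    exact ⟨w, v, by linear_combination -hw⟩
  obtain ⟨r1, r2, hr⟩ := Ideal.mem_span_pair.1 h3
  refine ⟨q1 + lin b * r1, r2, ?_⟩
  rw [← hq, ← hr]
  ring

end Pool.Agent.V1148
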