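import Mathlib
import Pool.Agent.V1148.Pairs
import Pool.Agent.V1148.PD1

set_option autoImplicit false

/-!
# Linear forms with integer coefficients in the first four variables
-/

universe u

namespace Pool.Agent.V1148.E7

open MvPolynomial

variable {K : Type u} [Field K] {m : ℕ}

theorem val_one' : ((1 : Fin (m + 4)) : ℕ) = 1 :=
  Nat.mod_eq_of_lt (show 1 < m + 4 by omega)

theorem val_two' : ((2 : Fin (m + 4)) : ℕ) = 2 :=
  Nat.mod_eq_of_lt (show 2 < m + 4 by omega)

theorem val_three' : ((3 : Fin (m + 4)) : ℕ) = 3 :=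
  Nat.mod_eq_of_lt (show 3 < m + 4 by omega)

/-- The linear form with the given integer coefficients. -/
noncomputable def lf (v : Fin 4 → ℤ) : MvPolynomial (Fin (m + 4)) K :=
  (v 0 : MvPolynomial (Fin (m + 4)) K) * X 0 + (v 1 : MvPolynomial (Fin (m + 4)) K) * X 1 +
    (v 2 : MvPolynomial (Fin (m + 4)) K) * X 2 + (v 3 : MvPolynomial (Fin (m + 4)) K) * X 3

/-- The corresponding vector of coefficients. -/
def vec (v : Fin 4 → ℤ) : Fin (m + 4) → K :=
  fun j => if h : (j : ℕ) < 4 then ((v ⟨j, h⟩ : ℤ) : K) else 0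

theorem vec_castLE (v : Fin 4 → ℤ) (i : Fin 4) :
    (vec v : Fin (m + 4) → K) (Fin.castLE (by omega) i) = (v i : K) := by
  unfold vec
  rw [dif_pos (by simp)]
  simp

theorem vec_zero (v : Fin 4 → ℤ) : (vec v : Fin (m + 4) → K) 0 = (v 0 : K) := by
  unfold vec
  rw [dif_pos (by simp)]
  rfl

theorem vec_one (v : Fin 4 → ℤ) : (vec v : Fin (m + 4) → K) 1 = (v 1 : K) := by
  unfold vec
  rw [dif_pos (by rw [val_one']; norm_num)]
  congr 2

theorem vec_two (v : Fin 4 → ℤ) : (vec v : Fin (m + 4) → K) 2 = (v 2 : K) := by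
  unfold vec
  rw [dif_pos (by rw [val_two']; norm_num)]
  congr 2

theorem vec_three (v : Fin 4 → ℤ) : (vec v : Fin (m + 4) → K) 3 = (v 3 : K) := by
  unfold vec
  rw [dif_pos (by rw [val_three']; norm_num)]
  congr 2

theorem sum_four {M : Type*} [AddCommMonoid M] (f : Fin (m + 4) → M)
    (h : ∀ j : Fin (m + 4), 4 ≤ (j : ℕ) → f j = 0) : ∑ j, f j = f 0 + f 1 + f 2 + f 3 := by
  rw [Fin.sum_univ_succ, Fin.sum_univ_succ, Fin.sum_univ_succ, Fin.sum_univ_succ]
  rw [Finset.sum_eq_zero]
  · have e1 : Fin.succ (0 : Fin (m + 3)) = (1 : Fin (m + 4)) := by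
      apply Fin.ext
      rw [val_one']
      simp
    have e2 : Fin.succ (Fin.succ (0 : Fin (m + 2))) = (2 : Fin (m + 4)) := by
      apply Fin.ext
      rw [val_two']
      simp
    have e3 : Fin.succ (Fin.succ (Fin.succ (0 : Fin (m + 1)))) = (3 : Fin (m + 4)) := by
      apply Fin.ext
      rw [val_three']
      simp
    rw [e1, e2, e3, add_zero]
    simp only [add_assoc]
  · intro j _
    apply h
    simp

theorem lin_vec (v : Fin 4 → ℤ) : lin (vec v : Fin (m + 4) → K) = lf v := by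
  unfold lin lf
  rw [sum_four]
  · rw [vec_zero, vec_one, vec_two, vec_three]
    simp
  · intro j hj
    unfold vec
    rw [dif_neg (by omega)]
    simp

theorem vec_fin (v : Fin 4 → ℤ) (i : Fin 4) :
    (vec v : Fin (m + 4) → K) (Fin.castLE (by omega) i) = (v i : K) := vec_castLE v i

variable [CharZero K]

theorem lf_relPrime {v w : Fin 4 → ℤ} (i j : Fin 4) (h : v i * w j - v j * w i ≠ 0) :
    IsRelPrime (lf v : MvPolynomial (Fin (m + 4)) K) (lf w) := by
  rw [← lin_vec, ← lin_vec]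
  apply relPrime_of_minor (Fin.castLE (by omega) i) (Fin.castLE (by omega) j)
  rw [vec_castLE, vec_castLE, vec_castLE, vec_castLE]
  exact_mod_cast h

theorem lf_prime {v : Fin 4 → ℤ} (i : Fin 4) (h : v i ≠ 0) :
    Prime (lf v : MvPolynomial (Fin (m + 4)) K) := by
  rw [← lin_vec]
  apply lin_prime
  intro h0
  have h1 := congrFun h0 (Fin.castLE (by omega) i)
  rw [vec_castLE, Pi.zero_apply] at h1
  apply h
  exact_mod_cast h1

theorem lf_ne_zero {v : Fin 4 → ℤ} (i : Fin 4) (h : v i ≠ 0) :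
    (lf v : MvPolynomial (Fin (m + 4)) K) ≠ 0 := (lf_prime i h).ne_zero

/-- Cancelling a linear form from a divisibility. -/
theorem cancel {p q r : MvPolynomial (Fin (m + 4)) K} (v w : Fin 4 → ℤ) (i j : Fin 4)
    (hdet : v i * w j - v j * w i ≠ 0) (hp : p = lf v) (hq : q = lf w) (h : p ∣ q * r) :
    p ∣ r := by
  subst hp hq
  exact (lf_relPrime i j hdet).dvd_of_dvd_mul_left h

theorem rp {p q : MvPolynomial (Fin (m + 4)) K} (v w : Fin 4 → ℤ) (i j : Fin 4)
    (hdet : v i * w j - v j * w i ≠ 0) (hp : p = lf v) (hq : q = lf w) : IsRelPrime p q := by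
  subst hp hq
  exact lf_relPrime i j hdet

/-- Multiplication by `r` is injective modulo `(p, q)` for independent linear forms. -/
theorem cancel2 {p q r t : MvPolynomial (Fin (m + 4)) K} (v w s : Fin 4 → ℤ) (i j k : Fin 4)
    (hdet : v i * (w j * s k - w k * s j) - v j * (w i * s k - w k * s i) +
      v k * (w i * s j - w j * s i) ≠ 0) (hp : p = lf v) (hq : q = lf w) (hr : r = lf s)
    (h : ∃ a b, r * t = p * a + q * b) : ∃ a b, t = p * a + q * b := by
  subst hp hq hr
  have h1 : lin (vec s : Fin (m + 4) → K) * t ∈ Ideal.span {lin (vec v), lin (vec w)} := by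
    obtain ⟨a, b, hab⟩ := h
    rw [Ideal.mem_span_pair]
    refine ⟨a, b, ?_⟩
    rw [lin_vec, lin_vec, lin_vec, hab]
    ring
  have h2 := pair_cancel (Fin.castLE (by omega) i) (Fin.castLE (by omega) j)
    (Fin.castLE (by omega) k) (by
      simp only [vec_castLE]
      exact_mod_cast hdet) h1
  obtain ⟨a, b, hab⟩ := Ideal.mem_span_pair.1 h2
  refine ⟨a, b, ?_⟩
  rw [← hab, lin_vec, lin_vec]
  ring

/-- Multiplication by `r` is injective modulo `(p, q²)` for independent linear forms. -/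
theorem cancel22 {p q r t : MvPolynomial (Fin (m + 4)) K} (v w s : Fin 4 → ℤ) (i j k : Fin 4)
    (hdet : v i * (w j * s k - w k * s j) - v j * (w i * s k - w k * s i) +
      v k * (w i * s j - w j * s i) ≠ 0) (hp : p = lf v) (hq : q = lf w) (hr : r = lf s)
    (h : ∃ a b, r * t = p * a + q ^ 2 * b) : ∃ a b, t = p * a + q ^ 2 * b := by
  subst hp hq hr
  simp only [← lin_vec] at h ⊢
  apply pow2_cancel (Fin.castLE (by omega) i) (Fin.castLE (by omega) j)
    (Fin.castLE (by omega) k) _ h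
  simp only [vec_castLE]
  exact_mod_cast hdet

end Pool.Agent.V1148.E7
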