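import Mathlib
import Pool.Agent.V1148.E7Base

set_option autoImplicit false

/-!
# The general member: derivations of an arrangement of eight lines and an extra line
-/

universe u

namespace Pool.Agent.V1148.E7

open MvPolynomial

variable {K : Type u} [Field K] {m : ℕ}

/-- The triple `(f, g, h)` is logarithmic along the eight linear forms `x_2`, `x_2 - x_1`,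
`2 x_1 + x_2`, `x_0`, `x_0 - x_1`, `x_0 + x_1 - x_2`, `x_0 - x_1 - x_2`, `x_0 + x_1 + x_2`. -/
structure InG (f g h : MvPolynomial (Fin (m + 4)) K) : Prop where
  c1 : X 2 ∣ h
  c2 : X 2 - X 1 ∣ h - g
  c3 : 2 * X 1 + X 2 ∣ 2 * g + h
  c4 : X 0 ∣ f
  c5 : X 0 - X 1 ∣ f - g
  c6 : X 0 + X 1 - X 2 ∣ f + g - h
  c7 : X 0 - X 1 - X 2 ∣ f - g - h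
  c8 : X 0 + X 1 + X 2 ∣ f + g + h

theorem InG.add {f g h f' g' h' : MvPolynomial (Fin (m + 4)) K} (a : InG f g h)
    (b : InG f' g' h') : InG (f + f') (g + g') (h + h') where
  c1 := dvd_add a.c1 b.c1
  c2 := by have := dvd_add a.c2 b.c2; rwa [show h + h' - (g + g') = h - g + (h' - g') by ring]
  c3 := by
    have := dvd_add a.c3 b.c3
    rwa [show 2 * (g + g') + (h + h') = 2 * g + h + (2 * g' + h') by ring]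
  c4 := dvd_add a.c4 b.c4
  c5 := by have := dvd_add a.c5 b.c5; rwa [show f + f' - (g + g') = f - g + (f' - g') by ring]
  c6 := by
    have := dvd_add a.c6 b.c6
    rwa [show f + f' + (g + g') - (h + h') = f + g - h + (f' + g' - h') by ring]
  c7 := by
    have := dvd_add a.c7 b.c7
    rwa [show f + f' - (g + g') - (h + h') = f - g - h + (f' - g' - h') by ring]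
  c8 := by
    have := dvd_add a.c8 b.c8
    rwa [show f + f' + (g + g') + (h + h') = f + g + h + (f' + g' + h') by ring]

theorem InG.smul {f g h : MvPolynomial (Fin (m + 4)) K} (a : InG f g h)
    (r : MvPolynomial (Fin (m + 4)) K) : InG (r * f) (r * g) (r * h) where
  c1 := dvd_mul_of_dvd_right a.c1 r
  c2 := by have := dvd_mul_of_dvd_right a.c2 r; rwa [show r * h - r * g = r * (h - g) by ring]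
  c3 := by
    have := dvd_mul_of_dvd_right a.c3 r
    rwa [show 2 * (r * g) + r * h = r * (2 * g + h) by ring]
  c4 := dvd_mul_of_dvd_right a.c4 r
  c5 := by have := dvd_mul_of_dvd_right a.c5 r; rwa [show r * f - r * g = r * (f - g) by ring]
  c6 := by
    have := dvd_mul_of_dvd_right a.c6 r
    rwa [show r * f + r * g - r * h = r * (f + g - h) by ring]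
  c7 := by
    have := dvd_mul_of_dvd_right a.c7 r
    rwa [show r * f - r * g - r * h = r * (f - g - h) by ring]
  c8 := by
    have := dvd_mul_of_dvd_right a.c8 r
    rwa [show r * f + r * g + r * h = r * (f + g + h) by ring]

theorem InG.zero : InG (0 : MvPolynomial (Fin (m + 4)) K) 0 0 where
  c1 := dvd_zero _
  c2 := by simp
  c3 := by simp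
  c4 := dvd_zero _
  c5 := by simp
  c6 := by simp
  c7 := by simp
  c8 := by simp

theorem InG.euler : InG (X 0 : MvPolynomial (Fin (m + 4)) K) (X 1) (X 2) where
  c1 := dvd_rfl
  c2 := dvd_rfl
  c3 := dvd_rfl
  c4 := dvd_rfl
  c5 := dvd_rfl
  c6 := dvd_rfl
  c7 := dvd_rfl
  c8 := dvd_rfl

theorem theta4 : InG (-3 * X 0 ^ 4 + 5 * X 0 ^ 3 * X 1 + X 0 ^ 3 * X 2 + 3 * X 0 ^ 2 * X 1 ^ 2 + 6 * X 0 ^ 2 * X 2 ^ 2 - 5 * X 0 * X 1 ^ 3 - X 0 * X 1 ^ 2 * X 2 - 3 * X 0 * X 1 * X 2 ^ 2 - 3 * X 0 * X 2 ^ 3)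
    (3 * X 0 ^ 2 * X 2 ^ 2 - 3 * X 0 * X 2 ^ 3)
    (6 * X 0 ^ 2 * X 1 * X 2 - 3 * X 0 ^ 2 * X 2 ^ 2 - 6 * X 0 * X 1 ^ 2 * X 2 - 3 * X 0 * X 1 * X 2 ^ 2 + 6 * X 0 * X 2 ^ 3 + 4 * X 1 ^ 3 * X 2 + 2 * X 1 ^ 2 * X 2 ^ 2 - 4 * X 1 * X 2 ^ 3 - 2 * X 2 ^ 4 : MvPolynomial (Fin (m + 4)) K) where
  c1 := ⟨6 * X 0 ^ 2 * X 1 - 3 * X 0 ^ 2 * X 2 - 6 * X 0 * X 1 ^ 2 - 3 * X 0 * X 1 * X 2 + 6 * X 0 * X 2 ^ 2 + 4 * X 1 ^ 3 + 2 * X 1 ^ 2 * X 2 - 4 * X 1 * X 2 ^ 2 - 2 * X 2 ^ 3, by ring⟩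
  c2 := ⟨-6 * X 0 ^ 2 * X 2 + 6 * X 0 * X 1 * X 2 + 9 * X 0 * X 2 ^ 2 - 4 * X 1 ^ 2 * X 2 - 6 * X 1 * X 2 ^ 2 - 2 * X 2 ^ 3, by ring⟩
  c3 := ⟨3 * X 0 ^ 2 * X 2 - 3 * X 0 * X 1 * X 2 + 2 * X 1 ^ 2 * X 2 - 2 * X 2 ^ 3, by ring⟩
  c4 := ⟨-3 * X 0 ^ 3 + 5 * X 0 ^ 2 * X 1 + X 0 ^ 2 * X 2 + 3 * X 0 * X 1 ^ 2 + 6 * X 0 * X 2 ^ 2 - 5 * X 1 ^ 3 - X 1 ^ 2 * X 2 - 3 * X 1 * X 2 ^ 2 - 3 * X 2 ^ 3, by ring⟩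
  c5 := ⟨-3 * X 0 ^ 3 + 2 * X 0 ^ 2 * X 1 + X 0 ^ 2 * X 2 + 5 * X 0 * X 1 ^ 2 + X 0 * X 1 * X 2 + 3 * X 0 * X 2 ^ 2, by ring⟩
  c6 := ⟨-3 * X 0 ^ 3 + 8 * X 0 ^ 2 * X 1 - 2 * X 0 ^ 2 * X 2 - 5 * X 0 * X 1 ^ 2 + 4 * X 0 * X 1 * X 2 + 10 * X 0 * X 2 ^ 2 - 4 * X 1 ^ 2 * X 2 - 6 * X 1 * X 2 ^ 2 - 2 * X 2 ^ 3, by ring⟩
  c7 := ⟨-3 * X 0 ^ 3 + 2 * X 0 ^ 2 * X 1 - 2 * X 0 ^ 2 * X 2 + 5 * X 0 * X 1 ^ 2 - 6 * X 0 * X 1 * X 2 + 4 * X 0 * X 2 ^ 2 + 4 * X 1 ^ 2 * X 2 - 2 * X 1 * X 2 ^ 2 - 2 * X 2 ^ 3, by ring⟩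
  c8 := ⟨-3 * X 0 ^ 3 + 8 * X 0 ^ 2 * X 1 + 4 * X 0 ^ 2 * X 2 - 5 * X 0 * X 1 ^ 2 - 6 * X 0 * X 1 * X 2 + 2 * X 0 * X 2 ^ 2 + 4 * X 1 ^ 2 * X 2 - 2 * X 1 * X 2 ^ 2 - 2 * X 2 ^ 3, by ring⟩

theorem phi_a : InG (-X 0 ^ 4 * X 1 + X 0 ^ 4 * X 2 + 3 * X 0 ^ 3 * X 1 ^ 2 - 3 * X 0 ^ 3 * X 2 ^ 2 + X 0 ^ 2 * X 1 ^ 3 - X 0 ^ 2 * X 1 ^ 2 * X 2 - 3 * X 0 * X 1 ^ 4 + 3 * X 0 * X 1 ^ 2 * X 2 ^ 2)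
    (0)
    (6 * X 0 ^ 2 * X 1 ^ 2 * X 2 - 3 * X 0 ^ 2 * X 1 * X 2 ^ 2 - 3 * X 0 ^ 2 * X 2 ^ 3 - 2 * X 0 * X 1 ^ 3 * X 2 - X 0 * X 1 ^ 2 * X 2 ^ 2 + 2 * X 0 * X 1 * X 2 ^ 3 + X 0 * X 2 ^ 4 : MvPolynomial (Fin (m + 4)) K) where
  c1 := ⟨6 * X 0 ^ 2 * X 1 ^ 2 - 3 * X 0 ^ 2 * X 1 * X 2 - 3 * X 0 ^ 2 * X 2 ^ 2 - 2 * X 0 * X 1 ^ 3 - X 0 * X 1 ^ 2 * X 2 + 2 * X 0 * X 1 * X 2 ^ 2 + X 0 * X 2 ^ 3, by ring⟩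
  c2 := ⟨-6 * X 0 ^ 2 * X 1 * X 2 - 3 * X 0 ^ 2 * X 2 ^ 2 + 2 * X 0 * X 1 ^ 2 * X 2 + 3 * X 0 * X 1 * X 2 ^ 2 + X 0 * X 2 ^ 3, by ring⟩
  c3 := ⟨3 * X 0 ^ 2 * X 1 * X 2 - 3 * X 0 ^ 2 * X 2 ^ 2 - X 0 * X 1 ^ 2 * X 2 + X 0 * X 2 ^ 3, by ring⟩
  c4 := ⟨-X 0 ^ 3 * X 1 + X 0 ^ 3 * X 2 + 3 * X 0 ^ 2 * X 1 ^ 2 - 3 * X 0 ^ 2 * X 2 ^ 2 + X 0 * X 1 ^ 3 - X 0 * X 1 ^ 2 * X 2 - 3 * X 1 ^ 4 + 3 * X 1 ^ 2 * X 2 ^ 2, by ring⟩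
  c5 := ⟨-X 0 ^ 3 * X 1 + X 0 ^ 3 * X 2 + 2 * X 0 ^ 2 * X 1 ^ 2 + X 0 ^ 2 * X 1 * X 2 - 3 * X 0 ^ 2 * X 2 ^ 2 + 3 * X 0 * X 1 ^ 3 - 3 * X 0 * X 1 * X 2 ^ 2, by ring⟩
  c6 := ⟨-X 0 ^ 3 * X 1 + X 0 ^ 3 * X 2 + 4 * X 0 ^ 2 * X 1 ^ 2 - 2 * X 0 ^ 2 * X 1 * X 2 - 2 * X 0 ^ 2 * X 2 ^ 2 - 3 * X 0 * X 1 ^ 3 - X 0 * X 1 ^ 2 * X 2 + 3 * X 0 * X 1 * X 2 ^ 2 + X 0 * X 2 ^ 3, by ring⟩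
  c7 := ⟨-X 0 ^ 3 * X 1 + X 0 ^ 3 * X 2 + 2 * X 0 ^ 2 * X 1 ^ 2 - 2 * X 0 ^ 2 * X 2 ^ 2 + 3 * X 0 * X 1 ^ 3 - 5 * X 0 * X 1 ^ 2 * X 2 + X 0 * X 1 * X 2 ^ 2 + X 0 * X 2 ^ 3, by ring⟩
  c8 := ⟨-X 0 ^ 3 * X 1 + X 0 ^ 3 * X 2 + 4 * X 0 ^ 2 * X 1 ^ 2 - 4 * X 0 ^ 2 * X 2 ^ 2 - 3 * X 0 * X 1 ^ 3 + X 0 * X 1 ^ 2 * X 2 + X 0 * X 1 * X 2 ^ 2 + X 0 * X 2 ^ 3, by ring⟩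

theorem phi_b : InG (3 * X 0 ^ 5 + 3 * X 0 ^ 4 * X 1 - 3 * X 0 ^ 4 * X 2 - 7 * X 0 ^ 3 * X 1 ^ 2 - 6 * X 0 ^ 3 * X 1 * X 2 - 2 * X 0 ^ 3 * X 2 ^ 2 - 3 * X 0 ^ 2 * X 1 ^ 3 + 3 * X 0 ^ 2 * X 1 ^ 2 * X 2 + 4 * X 0 * X 1 ^ 4 + 6 * X 0 * X 1 ^ 3 * X 2 + 2 * X 0 * X 1 ^ 2 * X 2 ^ 2)
    (0)
    (6 * X 0 * X 1 ^ 3 * X 2 + 3 * X 0 * X 1 ^ 2 * X 2 ^ 2 - 6 * X 0 * X 1 * X 2 ^ 3 - 3 * X 0 * X 2 ^ 4 - 2 * X 1 ^ 4 * X 2 - 3 * X 1 ^ 3 * X 2 ^ 2 + X 1 ^ 2 * X 2 ^ 3 + 3 * X 1 * X 2 ^ 4 + X 2 ^ 5 : MvPolynomial (Fin (m + 4)) K) where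
  c1 := ⟨6 * X 0 * X 1 ^ 3 + 3 * X 0 * X 1 ^ 2 * X 2 - 6 * X 0 * X 1 * X 2 ^ 2 - 3 * X 0 * X 2 ^ 3 - 2 * X 1 ^ 4 - 3 * X 1 ^ 3 * X 2 + X 1 ^ 2 * X 2 ^ 2 + 3 * X 1 * X 2 ^ 3 + X 2 ^ 4, by ring⟩
  c2 := ⟨-6 * X 0 * X 1 ^ 2 * X 2 - 9 * X 0 * X 1 * X 2 ^ 2 - 3 * X 0 * X 2 ^ 3 + 2 * X 1 ^ 3 * X 2 + 5 * X 1 ^ 2 * X 2 ^ 2 + 4 * X 1 * X 2 ^ 3 + X 2 ^ 4, by ring⟩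
  c3 := ⟨3 * X 0 * X 1 ^ 2 * X 2 - 3 * X 0 * X 2 ^ 3 - X 1 ^ 3 * X 2 - X 1 ^ 2 * X 2 ^ 2 + X 1 * X 2 ^ 3 + X 2 ^ 4, by ring⟩
  c4 := ⟨3 * X 0 ^ 4 + 3 * X 0 ^ 3 * X 1 - 3 * X 0 ^ 3 * X 2 - 7 * X 0 ^ 2 * X 1 ^ 2 - 6 * X 0 ^ 2 * X 1 * X 2 - 2 * X 0 ^ 2 * X 2 ^ 2 - 3 * X 0 * X 1 ^ 3 + 3 * X 0 * X 1 ^ 2 * X 2 + 4 * X 1 ^ 4 + 6 * X 1 ^ 3 * X 2 + 2 * X 1 ^ 2 * X 2 ^ 2, by ring⟩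
  c5 := ⟨3 * X 0 ^ 4 + 6 * X 0 ^ 3 * X 1 - 3 * X 0 ^ 3 * X 2 - X 0 ^ 2 * X 1 ^ 2 - 9 * X 0 ^ 2 * X 1 * X 2 - 2 * X 0 ^ 2 * X 2 ^ 2 - 4 * X 0 * X 1 ^ 3 - 6 * X 0 * X 1 ^ 2 * X 2 - 2 * X 0 * X 1 * X 2 ^ 2, by ring⟩
  c6 := ⟨3 * X 0 ^ 4 - 7 * X 0 ^ 2 * X 1 ^ 2 - 6 * X 0 ^ 2 * X 1 * X 2 - 2 * X 0 ^ 2 * X 2 ^ 2 + 4 * X 0 * X 1 ^ 3 + 2 * X 0 * X 1 ^ 2 * X 2 - 4 * X 0 * X 1 * X 2 ^ 2 - 2 * X 0 * X 2 ^ 3 + 2 * X 1 ^ 3 * X 2 + 5 * X 1 ^ 2 * X 2 ^ 2 + 4 * X 1 * X 2 ^ 3 + X 2 ^ 4, by ring⟩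
  c7 := ⟨3 * X 0 ^ 4 + 6 * X 0 ^ 3 * X 1 - X 0 ^ 2 * X 1 ^ 2 - 2 * X 0 ^ 2 * X 2 ^ 2 - 4 * X 0 * X 1 ^ 3 + 2 * X 0 * X 1 ^ 2 * X 2 - 2 * X 0 * X 1 * X 2 ^ 2 - 2 * X 0 * X 2 ^ 3 - 2 * X 1 ^ 3 * X 2 - X 1 ^ 2 * X 2 ^ 2 + 2 * X 1 * X 2 ^ 3 + X 2 ^ 4, by ring⟩
  c8 := ⟨3 * X 0 ^ 4 - 6 * X 0 ^ 3 * X 2 - 7 * X 0 ^ 2 * X 1 ^ 2 + 4 * X 0 ^ 2 * X 2 ^ 2 + 4 * X 0 * X 1 ^ 3 + 10 * X 0 * X 1 ^ 2 * X 2 - 4 * X 0 * X 1 * X 2 ^ 2 - 4 * X 0 * X 2 ^ 3 - 2 * X 1 ^ 3 * X 2 - X 1 ^ 2 * X 2 ^ 2 + 2 * X 1 * X 2 ^ 3 + X 2 ^ 4, by ring⟩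

theorem phi_c : InG (3 * X 0 ^ 5 - 2 * X 0 ^ 3 * X 1 ^ 2 - 4 * X 0 ^ 3 * X 1 * X 2 - 9 * X 0 ^ 3 * X 2 ^ 2 - X 0 * X 1 ^ 4 + 4 * X 0 * X 1 ^ 3 * X 2 + 9 * X 0 * X 1 ^ 2 * X 2 ^ 2)
    (0)
    (12 * X 0 ^ 2 * X 1 ^ 2 * X 2 - 6 * X 0 ^ 2 * X 1 * X 2 ^ 2 - 6 * X 0 ^ 2 * X 2 ^ 3 - 4 * X 1 ^ 4 * X 2 - 2 * X 1 ^ 3 * X 2 ^ 2 + 4 * X 1 ^ 2 * X 2 ^ 3 + 2 * X 1 * X 2 ^ 4 : MvPolynomial (Fin (m + 4)) K) where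
  c1 := ⟨12 * X 0 ^ 2 * X 1 ^ 2 - 6 * X 0 ^ 2 * X 1 * X 2 - 6 * X 0 ^ 2 * X 2 ^ 2 - 4 * X 1 ^ 4 - 2 * X 1 ^ 3 * X 2 + 4 * X 1 ^ 2 * X 2 ^ 2 + 2 * X 1 * X 2 ^ 3, by ring⟩
  c2 := ⟨-12 * X 0 ^ 2 * X 1 * X 2 - 6 * X 0 ^ 2 * X 2 ^ 2 + 4 * X 1 ^ 3 * X 2 + 6 * X 1 ^ 2 * X 2 ^ 2 + 2 * X 1 * X 2 ^ 3, by ring⟩
  c3 := ⟨6 * X 0 ^ 2 * X 1 * X 2 - 6 * X 0 ^ 2 * X 2 ^ 2 - 2 * X 1 ^ 3 * X 2 + 2 * X 1 * X 2 ^ 3, by ring⟩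
  c4 := ⟨3 * X 0 ^ 4 - 2 * X 0 ^ 2 * X 1 ^ 2 - 4 * X 0 ^ 2 * X 1 * X 2 - 9 * X 0 ^ 2 * X 2 ^ 2 - X 1 ^ 4 + 4 * X 1 ^ 3 * X 2 + 9 * X 1 ^ 2 * X 2 ^ 2, by ring⟩
  c5 := ⟨3 * X 0 ^ 4 + 3 * X 0 ^ 3 * X 1 + X 0 ^ 2 * X 1 ^ 2 - 4 * X 0 ^ 2 * X 1 * X 2 - 9 * X 0 ^ 2 * X 2 ^ 2 + X 0 * X 1 ^ 3 - 4 * X 0 * X 1 ^ 2 * X 2 - 9 * X 0 * X 1 * X 2 ^ 2, by ring⟩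
  c6 := ⟨3 * X 0 ^ 4 - 3 * X 0 ^ 3 * X 1 + 3 * X 0 ^ 3 * X 2 + X 0 ^ 2 * X 1 ^ 2 - 10 * X 0 ^ 2 * X 1 * X 2 - 6 * X 0 ^ 2 * X 2 ^ 2 - X 0 * X 1 ^ 3 - X 0 * X 1 ^ 2 * X 2 + 2 * X 0 * X 1 * X 2 ^ 2 + 4 * X 1 ^ 3 * X 2 + 6 * X 1 ^ 2 * X 2 ^ 2 + 2 * X 1 * X 2 ^ 3, by ring⟩
  c7 := ⟨3 * X 0 ^ 4 + 3 * X 0 ^ 3 * X 1 + 3 * X 0 ^ 3 * X 2 + X 0 ^ 2 * X 1 ^ 2 + 2 * X 0 ^ 2 * X 1 * X 2 - 6 * X 0 ^ 2 * X 2 ^ 2 + X 0 * X 1 ^ 3 - 9 * X 0 * X 1 ^ 2 * X 2 + 2 * X 0 * X 1 * X 2 ^ 2 - 4 * X 1 ^ 3 * X 2 + 2 * X 1 ^ 2 * X 2 ^ 2 + 2 * X 1 * X 2 ^ 3, by ring⟩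
  c8 := ⟨3 * X 0 ^ 4 - 3 * X 0 ^ 3 * X 1 - 3 * X 0 ^ 3 * X 2 + X 0 ^ 2 * X 1 ^ 2 + 2 * X 0 ^ 2 * X 1 * X 2 - 6 * X 0 ^ 2 * X 2 ^ 2 - X 0 * X 1 ^ 3 + 9 * X 0 * X 1 ^ 2 * X 2 - 2 * X 0 * X 1 * X 2 ^ 2 - 4 * X 1 ^ 3 * X 2 + 2 * X 1 ^ 2 * X 2 ^ 2 + 2 * X 1 * X 2 ^ 3, by ring⟩


theorem phi_P : InG (X 0 * (X 0 - X 1) * (X 0 + X 1 - X 2) * (X 0 - X 1 - X 2) *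
    (X 0 + X 1 + X 2) : MvPolynomial (Fin (m + 4)) K) 0 0 where
  c1 := dvd_zero _
  c2 := by simp
  c3 := by simp
  c4 := ⟨(X 0 - X 1) * (X 0 + X 1 - X 2) * (X 0 - X 1 - X 2) * (X 0 + X 1 + X 2), by ring⟩
  c5 := ⟨X 0 * (X 0 + X 1 - X 2) * (X 0 - X 1 - X 2) * (X 0 + X 1 + X 2), by ring⟩
  c6 := ⟨X 0 * (X 0 - X 1) * (X 0 - X 1 - X 2) * (X 0 + X 1 + X 2), by ring⟩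
  c7 := ⟨X 0 * (X 0 - X 1) * (X 0 + X 1 - X 2) * (X 0 + X 1 + X 2), by ring⟩
  c8 := ⟨X 0 * (X 0 - X 1) * (X 0 + X 1 - X 2) * (X 0 - X 1 - X 2), by ring⟩

end Pool.Agent.V1148.E7
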