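import Mathlib
import Pool.Agent.V1148.E7G1

set_option autoImplicit false

/-!
# The general member: ideals of coefficients
-/

universe u

namespace Pool.Agent.V1148.E7

open MvPolynomial

variable {K : Type u} [Field K] [CharZero K] {m : ℕ}

theorem memS {f h H A : MvPolynomial (Fin (m + 4)) K} (a : InG f 0 h)
    (hH : h = X 2 * (X 2 - X 1) * (2 * X 1 + X 2) * H)
    (hA : f - h = (X 0 + X 1 - X 2) * (X 0 - X 1 - X 2) * A) :
    ∃ a b, H = (X 1 + X 2) * a + X 0 ^ 2 * b := by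
  obtain ⟨F1, hF1⟩ := a.c4
  obtain ⟨B, hB⟩ := a.c8
  have h1 : X 0 ∣ (X 2 - X 1) * (X 2 * (2 * X 1 + X 2) * H + (X 1 + X 2) * A) := by
    refine ⟨F1 - (X 0 - 2 * X 2) * A, ?_⟩
    rw [hH] at hA
    rw [hF1] at hA
    linear_combination -hA
  have h2 := cancel ![1, 0, 0, 0] ![0, -1, 1, 0] 0 2 (by decide) (by simp [lf]) (by
    simp [lf]; ring) h1
  obtain ⟨B1, hB1⟩ := h2
  have h3 : (X 0 + X 1 + X 2) ∣ (2 * X 2) *
      ((X 2 - X 1) * (2 * X 1 + X 2) * H + 2 * (X 1 + X 2) * A) := by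
    refine ⟨B - (X 0 - X 1 - 3 * X 2) * A, ?_⟩
    rw [add_zero] at hB
    rw [hH] at hA hB
    linear_combination hB - hA
  have h4 := cancel ![1, 1, 1, 0] ![0, 0, 2, 0] 0 2 (by decide) (by simp [lf]) (by
    simp [lf]) h3
  obtain ⟨B2, hB2⟩ := h4
  have h5 : X 0 ∣ (X 1 + X 2) * (B2 + (2 * X 1 + X 2) * H) := by
    refine ⟨2 * B1 - B2, ?_⟩
    linear_combination 2 * hB1 - hB2
  have h6 := cancel ![1, 0, 0, 0] ![0, 1, 1, 0] 0 2 (by decide) (by simp [lf]) (by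
    simp [lf]) h5
  obtain ⟨E, hE⟩ := h6
  have hx : (X 0 : MvPolynomial (Fin (m + 4)) K) ≠ 0 := X_ne_zero _
  have h7 : 2 * B1 - B2 = (X 1 + X 2) * E := by
    apply mul_left_cancel₀ hx
    linear_combination (X 1 + X 2) * hE - 2 * hB1 + hB2
  apply cancel22 ![0, 1, 1, 0] ![1, 0, 0, 0] ![1, 0, 2, 0] 0 1 2 (by decide) (by simp [lf])
    (by simp [lf]) (r := X 0 + 2 * X 2) (by simp [lf])
  apply cancel22 ![0, 1, 1, 0] ![1, 0, 0, 0] ![0, 2, 1, 0] 0 1 2 (by decide) (by simp [lf])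
    (by simp [lf]) (r := 2 * X 1 + X 2) (by simp [lf])
  refine ⟨X 0 * E - 2 * A, E, ?_⟩
  linear_combination 2 * hB1 + X 0 * h7 + X 0 * hE

theorem memT {f h H A : MvPolynomial (Fin (m + 4)) K} (a : InG f 0 h)
    (hH : h = X 2 * (X 2 - X 1) * (2 * X 1 + X 2) * H)
    (hA : f - h = (X 0 + X 1 - X 2) * (X 0 - X 1 - X 2) * A) :
    ∃ a b, H = (X 0 - X 1) * a + (X 2 - 2 * X 1) * b := by
  obtain ⟨F2, hF2⟩ := a.c5
  rw [sub_zero] at hF2
  have h1 : (X 0 - X 1) ∣ X 2 * ((X 2 - X 1) * (2 * X 1 + X 2) * H + (X 2 - 2 * X 1) * A) := by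
    refine ⟨F2 - (X 0 + X 1 - 2 * X 2) * A, ?_⟩
    rw [hH, hF2] at hA
    linear_combination -hA
  have h2 := cancel ![1, -1, 0, 0] ![0, 0, 1, 0] 0 2 (by decide) (by simp [lf]; ring) (by
    simp [lf]) h1
  obtain ⟨B, hB⟩ := h2
  apply cancel2 ![1, -1, 0, 0] ![0, -2, 1, 0] ![0, 2, 1, 0] 0 1 2 (by decide)
    (by simp [lf]; ring) (by simp [lf]; ring) (r := 2 * X 1 + X 2) (by simp [lf])
  apply cancel2 ![1, -1, 0, 0] ![0, -2, 1, 0] ![0, -1, 1, 0] 0 1 2 (by decide)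
    (by simp [lf]; ring) (by simp [lf]; ring) (r := X 2 - X 1) (by simp [lf]; ring)
  refine ⟨B, -A, ?_⟩
  linear_combination hB

theorem three_inv (q r : MvPolynomial (Fin (m + 4)) K) (h : 3 * q = r) : q = C (3⁻¹ : K) * r := by
  rw [← h, ← mul_assoc]
  have : (C (3⁻¹ : K) : MvPolynomial (Fin (m + 4)) K) * 3 = 1 := by
    have h3 : (3 : MvPolynomial (Fin (m + 4)) K) = C (3 : K) := (map_ofNat C 3).symm
    rw [h3, ← C_mul, inv_mul_cancel₀ (by norm_num), C_1]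
  rw [this, one_mul]

theorem two_inv (q r : MvPolynomial (Fin (m + 4)) K) (h : 2 * q = r) : q = C (2⁻¹ : K) * r := by
  rw [← h, ← mul_assoc]
  have : (C (2⁻¹ : K) : MvPolynomial (Fin (m + 4)) K) * 2 = 1 := by
    have h3 : (2 : MvPolynomial (Fin (m + 4)) K) = C (2 : K) := (map_ofNat C 2).symm
    rw [h3, ← C_mul, inv_mul_cancel₀ (by norm_num), C_1]
  rw [this, one_mul]

theorem memI {f h H : MvPolynomial (Fin (m + 4)) K} (a : InG f 0 h)
    (hH : h = X 2 * (X 2 - X 1) * (2 * X 1 + X 2) * H) :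
    ∃ e1 e2 e3, H = X 0 * (X 1 + X 2 - 3 * X 0) * e1 + (X 1 + X 2) * (X 1 + X 2 - 3 * X 0) * e2 +
      (X 1 * (X 1 + X 2) - 3 * X 0 ^ 2) * e3 := by
  have hA : (X 0 + X 1 - X 2) * (X 0 - X 1 - X 2) ∣ f - h := by
    apply IsRelPrime.mul_dvd
    · exact rp ![1, 1, -1, 0] ![1, -1, -1, 0] 0 1 (by decide) (by simp [lf]; ring)
        (by simp [lf]; ring)
    · have := a.c6
      rwa [add_zero] at this
    · have := a.c7
      rwa [sub_zero] at this
  obtain ⟨A, hA⟩ := hA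
  obtain ⟨a1, b1, h1⟩ := memS a hH hA
  obtain ⟨c2, d2, h2⟩ := memT a hH hA
  have h3 : ∃ c d, 3 * a1 + X 0 * b1 = (X 1 + X 2 - 3 * X 0) * c + (X 1 - X 0) * d := by
    apply cancel2 ![-3, 1, 1, 0] ![-1, 1, 0, 0] ![1, 0, 0, 0] 0 1 2 (by decide)
      (by simp [lf]; ring) (by simp [lf]; ring) (r := X 0) (by simp [lf])
    refine ⟨d2 - a1, -c2 - 3 * d2, ?_⟩
    linear_combination h2 - h1
  obtain ⟨c, d, h3⟩ := h3
  have h4 : 3 * H = X 0 * (X 1 + X 2 - 3 * X 0) * (-d - b1) +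
      (X 1 + X 2) * (X 1 + X 2 - 3 * X 0) * c + (X 1 * (X 1 + X 2) - 3 * X 0 ^ 2) * d := by
    linear_combination 3 * h1 + (X 1 + X 2) * h3
  have h5 := three_inv _ _ h4
  refine ⟨C (3⁻¹ : K) * (-d - b1), C (3⁻¹ : K) * c, C (3⁻¹ : K) * d, ?_⟩
  rw [h5]
  ring

/-- Restriction to `x_1 = 0`. -/
noncomputable def rho : MvPolynomial (Fin (m + 4)) K →ₐ[K] MvPolynomial (Fin (m + 4)) K :=
  res (vec ![0, 1, 0, 0]) 1

omit [CharZero K] in
theorem lf_one : (lf ![0, 1, 0, 0] : MvPolynomial (Fin (m + 4)) K) = X 1 := by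
  simp [lf]

theorem rho_X1 : rho (X 1 : MvPolynomial (Fin (m + 4)) K) = 0 := by
  unfold rho
  rw [res_X_self, lin_vec, lf_one, vec_one]
  simp

omit [CharZero K] in
theorem rho_X0 : rho (X 0 : MvPolynomial (Fin (m + 4)) K) = X 0 := by
  unfold rho
  apply res_X_of_ne
  intro h
  have := congrArg Fin.val h
  rw [val_one'] at this
  simp at this

omit [CharZero K] in
theorem rho_X2 : rho (X 2 : MvPolynomial (Fin (m + 4)) K) = X 2 := by
  unfold rho
  apply res_X_of_ne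
  intro h
  have := congrArg Fin.val h
  rw [val_one', val_two'] at this
  simp at this

omit [CharZero K] in
theorem rho_X3 : rho (X 3 : MvPolynomial (Fin (m + 4)) K) = X 3 := by
  unfold rho
  apply res_X_of_ne
  intro h
  have := congrArg Fin.val h
  rw [val_one', val_three'] at this
  simp at this

theorem dvd_sub_rho (q : MvPolynomial (Fin (m + 4)) K) : X 1 ∣ q - rho q := by
  have := dvd_sub_res (vec ![0, 1, 0, 0] : Fin (m + 4) → K) 1 q
  rw [lin_vec, lf_one] at this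
  exact this

/-- `rho g` is divisible by `x_2² x_0 (x_0 - x_2)`. -/
theorem b_dvd_rho {f g h : MvPolynomial (Fin (m + 4)) K} (a : InG f g h) :
    X 2 ^ 2 * (X 0 * (X 0 - X 2)) ∣ rho g := by
  have r1 : IsRelPrime (X 2 : MvPolynomial (Fin (m + 4)) K) (X 0) :=
    rp ![0, 0, 1, 0] ![1, 0, 0, 0] 0 2 (by decide) (by simp [lf]) (by simp [lf])
  have r2 : IsRelPrime (X 2 : MvPolynomial (Fin (m + 4)) K) (X 0 - X 2) :=
    rp ![0, 0, 1, 0] ![1, 0, -1, 0] 0 2 (by decide) (by simp [lf]) (by simp [lf]; ring)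
  have r3 : IsRelPrime (X 0 : MvPolynomial (Fin (m + 4)) K) (X 0 - X 2) :=
    rp ![1, 0, 0, 0] ![1, 0, -1, 0] 0 2 (by decide) (by simp [lf]) (by simp [lf]; ring)
  apply IsRelPrime.mul_dvd
  · exact (IsRelPrime.mul_right r1 r2).pow_left
  · -- divisible by the square
    obtain ⟨h', hh⟩ := a.c1
    obtain ⟨e, he⟩ := a.c2
    obtain ⟨e', he'⟩ := a.c3
    have h1 : X 2 ∣ (2 * X 1) * (e' - e) := by
      refine ⟨3 * h' - 2 * e - e', ?_⟩
      linear_combination -he' - 2 * he + 3 * hh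
    have h2 := cancel ![0, 0, 1, 0] ![0, 2, 0, 0] 1 2 (by decide) (by simp [lf]) (by
      simp [lf]) h1
    obtain ⟨u, hu⟩ := h2
    have hz : (X 2 : MvPolynomial (Fin (m + 4)) K) ≠ 0 := X_ne_zero _
    have h3 : 3 * h' - 2 * e - e' = 2 * X 1 * u := by
      apply mul_left_cancel₀ hz
      linear_combination 2 * X 1 * hu + he' + 2 * he - 3 * hh
    have h4 : 3 * g = X 2 * (2 * X 1 + X 2) * u + 3 * X 1 * e := by
      linear_combination -3 * he + 3 * hh + X 2 * h3 + X 2 * hu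
    have h5 := congrArg rho (three_inv _ _ h4)
    rw [map_mul, map_add, map_mul, map_mul, map_add, map_mul, map_mul, map_mul, rho_X1, rho_X2]
      at h5
    rw [h5]
    refine ⟨rho (C 3⁻¹) * rho u, ?_⟩
    ring
  · apply IsRelPrime.mul_dvd r3
    · obtain ⟨f', hf'⟩ := a.c4
      obtain ⟨e, he⟩ := a.c5
      have h1 : g = X 0 * f' - (X 0 - X 1) * e := by linear_combination hf' - he
      have h2 := congrArg rho h1
      rw [map_sub, map_mul, map_mul, map_sub, rho_X0, rho_X1] at h2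
      rw [h2]
      exact ⟨rho f' - rho e, by ring⟩
    · obtain ⟨e1, he1⟩ := a.c6
      obtain ⟨e2, he2⟩ := a.c7
      have h1 : 2 * g = (X 0 + X 1 - X 2) * e1 - (X 0 - X 1 - X 2) * e2 := by
        linear_combination he1 - he2
      have h2 := congrArg rho (two_inv _ _ h1)
      rw [map_mul, map_sub, map_mul, map_mul, map_sub, map_sub, map_sub, map_add, rho_X0, rho_X1,
        rho_X2] at h2
      rw [h2]
      exact ⟨rho (C 2⁻¹) * (rho e1 - rho e2), by ring⟩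

/-- If `(x_3 - x_1) q = g` for a logarithmic triple `(f, g, h)` then `q` lies in the ideal
generated by `x_1` and `x_2² x_0 (x_0 - x_2)`. -/
theorem memQ {f g h q : MvPolynomial (Fin (m + 4)) K} (a : InG f g h)
    (hq : g = (X 3 - X 1) * q) :
    ∃ c d, q = X 1 * c + X 2 ^ 2 * (X 0 * (X 0 - X 2)) * d := by
  have h1 := b_dvd_rho a
  rw [hq, map_mul, map_sub, rho_X1, rho_X3, sub_zero] at h1
  have r1 : IsRelPrime (X 2 : MvPolynomial (Fin (m + 4)) K) (X 3) :=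
    rp ![0, 0, 1, 0] ![0, 0, 0, 1] 2 3 (by decide) (by simp [lf]) (by simp [lf])
  have r2 : IsRelPrime (X 0 : MvPolynomial (Fin (m + 4)) K) (X 3) :=
    rp ![1, 0, 0, 0] ![0, 0, 0, 1] 0 3 (by decide) (by simp [lf]) (by simp [lf])
  have r3 : IsRelPrime (X 0 - X 2 : MvPolynomial (Fin (m + 4)) K) (X 3) :=
    rp ![1, 0, -1, 0] ![0, 0, 0, 1] 0 3 (by decide) (by simp [lf]; ring) (by simp [lf])
  have h2 : IsRelPrime (X 2 ^ 2 * (X 0 * (X 0 - X 2)) : MvPolynomial (Fin (m + 4)) K) (X 3) :=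
    IsRelPrime.mul_left r1.pow_left (IsRelPrime.mul_left r2 r3)
  obtain ⟨d, hd⟩ := h2.dvd_of_dvd_mul_left h1
  obtain ⟨c, hc⟩ := dvd_sub_rho q
  exact ⟨c, d, by linear_combination hc + hd⟩

end Pool.Agent.V1148.E7
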