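import Mathlib
import Pool.Agent.V1148.E7G2

set_option autoImplicit false

/-!
# The general member: projective dimension
-/

universe u

namespace Pool.Agent.V1148.E7

open MvPolynomial CategoryTheory Pool.Agent.V1148.PD

variable {K : Type u} [Field K] [CharZero K] {m : ℕ}

/-- Triples logarithmic along the eight forms whose middle component is divisible by
`x_3 - x_1`. -/
noncomputable def NG (K : Type u) [Field K] (m : ℕ) :
    Submodule (MvPolynomial (Fin (m + 4)) K) (Fin 3 → MvPolynomial (Fin (m + 4)) K) where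
  carrier := {v | InG (v 0) (v 1) (v 2) ∧ X 3 - X 1 ∣ v 1}
  add_mem' := fun {v w} hv hw => ⟨hv.1.add hw.1, dvd_add hv.2 hw.2⟩
  zero_mem' := ⟨InG.zero, dvd_zero _⟩
  smul_mem' := fun r v hv => ⟨hv.1.smul r, dvd_mul_of_dvd_right hv.2 r⟩

/-- The ideal of the coefficients, generated by three quadrics. -/
theorem pd_three : HasProjectiveDimensionLT (ModuleCat.of (MvPolynomial (Fin (m + 4)) K)
    (Ideal.span {X 0 * (X 1 + X 2 - 3 * X 0), (X 1 + X 2) * (X 1 + X 2 - 3 * X 0),
      X 1 * (X 1 + X 2) - 3 * X 0 ^ 2} : Ideal (MvPolynomial (Fin (m + 4)) K))) 2 := by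
  set I : Ideal (MvPolynomial (Fin (m + 4)) K) :=
    Ideal.span {X 0 * (X 1 + X 2 - 3 * X 0), (X 1 + X 2) * (X 1 + X 2 - 3 * X 0),
      X 1 * (X 1 + X 2) - 3 * X 0 ^ 2} with hI
  have hmem : ∀ e : Fin 3 → MvPolynomial (Fin (m + 4)) K,
      e 0 * (X 0 * (X 1 + X 2 - 3 * X 0)) + e 1 * ((X 1 + X 2) * (X 1 + X 2 - 3 * X 0)) +
        e 2 * (X 1 * (X 1 + X 2) - 3 * X 0 ^ 2) ∈ I := by
    intro e
    apply Ideal.add_mem
    · apply Ideal.add_mem
      · exact Ideal.mul_mem_left _ _ (Ideal.subset_span (by simp))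
      · exact Ideal.mul_mem_left _ _ (Ideal.subset_span (by simp))
    · exact Ideal.mul_mem_left _ _ (Ideal.subset_span (by simp))
  let g : (Fin 3 → MvPolynomial (Fin (m + 4)) K) →ₗ[MvPolynomial (Fin (m + 4)) K] I :=
    { toFun := fun e => ⟨_, hmem e⟩
      map_add' := by
        intro e e'
        apply Subtype.ext
        simp only [Pi.add_apply, Submodule.coe_add]
        ring
      map_smul' := by
        intro r e
        apply Subtype.ext
        simp only [Pi.smul_apply, smul_eq_mul, RingHom.id_apply, Submodule.coe_smul]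
        ring }
  let f : (Fin 2 → MvPolynomial (Fin (m + 4)) K) →ₗ[MvPolynomial (Fin (m + 4)) K]
      (Fin 3 → MvPolynomial (Fin (m + 4)) K) :=
    { toFun := fun e => ![(X 1 + X 2) * e 0 + 3 * X 0 * e 1, -X 0 * e 0 - X 1 * e 1,
        (X 1 + X 2 - 3 * X 0) * e 1]
      map_add' := by
        intro e e'
        funext i
        fin_cases i <;> simp <;> ring
      map_smul' := by
        intro r e
        funext i
        fin_cases i <;> simp <;> ring }
  have ht : (X 1 + X 2 - 3 * X 0 : MvPolynomial (Fin (m + 4)) K) ≠ 0 := by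
    have := lf_ne_zero (K := K) (m := m) (v := ![-3, 1, 1, 0]) 0 (by decide)
    intro h
    apply this
    rw [← h]
    simp [lf]
    ring
  have hx : (X 0 : MvPolynomial (Fin (m + 4)) K) ≠ 0 := X_ne_zero _
  apply pd_le_one_of_resolution f g
  · rw [← LinearMap.ker_eq_bot, LinearMap.ker_eq_bot']
    intro e he
    have h2 := congrFun he 2
    have h1 := congrFun he 1
    simp only [f, LinearMap.coe_mk, AddHom.coe_mk, Matrix.cons_val, Matrix.cons_val_one,
      Pi.zero_apply] at h1 h2
    have h3 : e 1 = 0 := (mul_eq_zero.1 h2).resolve_left ht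
    rw [h3, mul_zero, sub_zero] at h1
    have h4 : e 0 = 0 := (mul_eq_zero.1 h1).resolve_left (neg_ne_zero.2 hx)
    funext i
    fin_cases i
    · exact h4
    · exact h3
  · rintro ⟨q, hq⟩
    rw [hI, Ideal.mem_span_insert] at hq
    obtain ⟨a, q1, hq1, rfl⟩ := hq
    rw [Ideal.mem_span_pair] at hq1
    obtain ⟨b, c, rfl⟩ := hq1
    refine ⟨![a, b, c], ?_⟩
    apply Subtype.ext
    simp only [g, LinearMap.coe_mk, AddHom.coe_mk, Matrix.cons_val_zero, Matrix.cons_val_one,
      Matrix.cons_val]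
    ring
  · intro e
    constructor
    · intro he
      have h1 : e 0 * (X 0 * (X 1 + X 2 - 3 * X 0)) +
          e 1 * ((X 1 + X 2) * (X 1 + X 2 - 3 * X 0)) +
          e 2 * (X 1 * (X 1 + X 2) - 3 * X 0 ^ 2) = 0 := congrArg Subtype.val he
      -- `t` divides `e 2`
      have h2 : (X 1 + X 2 - 3 * X 0) ∣ (X 1 - X 0) * ((3 * X 0) * e 2) := by
        refine ⟨-(e 0 * X 0) - e 1 * (X 1 + X 2) - X 1 * e 2, ?_⟩
        linear_combination h1
      have h3 := cancel ![-3, 1, 1, 0] ![-1, 1, 0, 0] 0 1 (by decide) (by simp [lf]; ring)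
        (by simp [lf]; ring) h2
      have h4 := cancel ![-3, 1, 1, 0] ![3, 0, 0, 0] 0 1 (by decide) (by simp [lf]; ring)
        (by simp [lf]) h3
      obtain ⟨e1, h5⟩ := h4
      have h6 : X 0 * (e 0 - 3 * X 0 * e1) + (X 1 + X 2) * (e 1 + X 1 * e1) = 0 := by
        apply mul_left_cancel₀ ht
        rw [mul_zero]
        linear_combination h1 - (X 1 * (X 1 + X 2) - 3 * X 0 ^ 2) * h5
      have h7 : X 0 ∣ (X 1 + X 2) * (e 1 + X 1 * e1) :=
        ⟨-(e 0 - 3 * X 0 * e1), by linear_combination h6⟩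
      have h8 := cancel ![1, 0, 0, 0] ![0, 1, 1, 0] 0 1 (by decide) (by simp [lf])
        (by simp [lf]) h7
      obtain ⟨e2, h9⟩ := h8
      have h10 : e 0 - 3 * X 0 * e1 = -(X 1 + X 2) * e2 := by
        apply mul_left_cancel₀ hx
        linear_combination h6 - (X 1 + X 2) * h9
      refine ⟨![-e2, e1], ?_⟩
      funext i
      fin_cases i
      · simp only [f, LinearMap.coe_mk, AddHom.coe_mk, Matrix.cons_val_zero, Matrix.cons_val_one,
          Fin.zero_eta]
        linear_combination -h10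
      · simp only [f, LinearMap.coe_mk, AddHom.coe_mk, Matrix.cons_val_zero, Matrix.cons_val_one,
          Fin.mk_one]
        linear_combination -h9
      · simp only [f, LinearMap.coe_mk, AddHom.coe_mk, Matrix.cons_val_zero, Matrix.cons_val_one,
          Fin.reduceFinMk, Matrix.cons_val]
        linear_combination -h5
    · rintro ⟨e', rfl⟩
      apply Subtype.ext
      simp only [f, g, LinearMap.coe_mk, AddHom.coe_mk, Matrix.cons_val_zero, Matrix.cons_val_one,
        Matrix.cons_val]
      change _ = (0 : MvPolynomial (Fin (m + 4)) K)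
      ring

/-- The ideal generated by `x_1` and `x_2² x_0 (x_0 - x_2)`. -/
theorem pd_two : HasProjectiveDimensionLT (ModuleCat.of (MvPolynomial (Fin (m + 4)) K)
    (Ideal.span {X 1, X 2 ^ 2 * (X 0 * (X 0 - X 2))} :
      Ideal (MvPolynomial (Fin (m + 4)) K))) 2 := by
  set I : Ideal (MvPolynomial (Fin (m + 4)) K) :=
    Ideal.span {X 1, X 2 ^ 2 * (X 0 * (X 0 - X 2))} with hI
  have hmem : ∀ e : Fin 2 → MvPolynomial (Fin (m + 4)) K,
      e 0 * X 1 + e 1 * (X 2 ^ 2 * (X 0 * (X 0 - X 2))) ∈ I := by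
    intro e
    apply Ideal.add_mem
    · exact Ideal.mul_mem_left _ _ (Ideal.subset_span (by simp))
    · exact Ideal.mul_mem_left _ _ (Ideal.subset_span (by simp))
  let g : (Fin 2 → MvPolynomial (Fin (m + 4)) K) →ₗ[MvPolynomial (Fin (m + 4)) K] I :=
    { toFun := fun e => ⟨_, hmem e⟩
      map_add' := by
        intro e e'
        apply Subtype.ext
        simp only [Pi.add_apply, Submodule.coe_add]
        ring
      map_smul' := by
        intro r e
        apply Subtype.ext
        simp only [Pi.smul_apply, smul_eq_mul, RingHom.id_apply, Submodule.coe_smul]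
        ring }
  let f : (Fin 1 → MvPolynomial (Fin (m + 4)) K) →ₗ[MvPolynomial (Fin (m + 4)) K]
      (Fin 2 → MvPolynomial (Fin (m + 4)) K) :=
    { toFun := fun e => ![(X 2 ^ 2 * (X 0 * (X 0 - X 2))) * e 0, -X 1 * e 0]
      map_add' := by
        intro e e'
        funext i
        fin_cases i <;> simp <;> ring
      map_smul' := by
        intro r e
        funext i
        fin_cases i <;> simp <;> ring }
  have hy : (X 1 : MvPolynomial (Fin (m + 4)) K) ≠ 0 := X_ne_zero _
  have r1 : IsRelPrime (X 1 : MvPolynomial (Fin (m + 4)) K) (X 2) :=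
    rp ![0, 1, 0, 0] ![0, 0, 1, 0] 1 2 (by decide) (by simp [lf]) (by simp [lf])
  have r2 : IsRelPrime (X 1 : MvPolynomial (Fin (m + 4)) K) (X 0) :=
    rp ![0, 1, 0, 0] ![1, 0, 0, 0] 0 1 (by decide) (by simp [lf]) (by simp [lf])
  have r3 : IsRelPrime (X 1 : MvPolynomial (Fin (m + 4)) K) (X 0 - X 2) :=
    rp ![0, 1, 0, 0] ![1, 0, -1, 0] 0 1 (by decide) (by simp [lf]) (by simp [lf]; ring)
  have r4 : IsRelPrime (X 1 : MvPolynomial (Fin (m + 4)) K) (X 2 ^ 2 * (X 0 * (X 0 - X 2))) :=
    IsRelPrime.mul_right r1.pow_right (IsRelPrime.mul_right r2 r3)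
  apply pd_le_one_of_resolution f g
  · rw [← LinearMap.ker_eq_bot, LinearMap.ker_eq_bot']
    intro e he
    have h1 := congrFun he 1
    simp only [f, LinearMap.coe_mk, AddHom.coe_mk, Matrix.cons_val_one, Pi.zero_apply,
      Matrix.cons_val_zero] at h1
    have h4 : e 0 = 0 := (mul_eq_zero.1 h1).resolve_left (neg_ne_zero.2 hy)
    funext i
    fin_cases i
    exact h4
  · rintro ⟨q, hq⟩
    rw [hI, Ideal.mem_span_pair] at hq
    obtain ⟨b, c, rfl⟩ := hq
    refine ⟨![b, c], ?_⟩
    apply Subtype.ext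
    simp only [g, LinearMap.coe_mk, AddHom.coe_mk, Matrix.cons_val_zero, Matrix.cons_val_one]
  · intro e
    constructor
    · intro he
      have h1 : e 0 * X 1 + e 1 * (X 2 ^ 2 * (X 0 * (X 0 - X 2))) = 0 := congrArg Subtype.val he
      have h2 : X 1 ∣ (X 2 ^ 2 * (X 0 * (X 0 - X 2))) * e 1 :=
        ⟨-e 0, by linear_combination h1⟩
      obtain ⟨e1, h3⟩ := r4.dvd_of_dvd_mul_left h2
      have h4 : e 0 = -(X 2 ^ 2 * (X 0 * (X 0 - X 2))) * e1 := by
        apply mul_left_cancel₀ hy
        linear_combination h1 - (X 2 ^ 2 * (X 0 * (X 0 - X 2))) * h3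
      refine ⟨![-e1], ?_⟩
      funext i
      fin_cases i
      · simp only [f, LinearMap.coe_mk, AddHom.coe_mk, Matrix.cons_val_zero, Fin.zero_eta,
          Matrix.cons_val_fin_one]
        linear_combination -h4
      · simp only [f, LinearMap.coe_mk, AddHom.coe_mk, Matrix.cons_val_one, Matrix.cons_val_zero,
          Fin.mk_one, Matrix.cons_val_fin_one]
        linear_combination -h3
    · rintro ⟨e', rfl⟩
      apply Subtype.ext
      simp only [f, g, LinearMap.coe_mk, AddHom.coe_mk, Matrix.cons_val_zero, Matrix.cons_val_one]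
      change _ = (0 : MvPolynomial (Fin (m + 4)) K)
      ring

end Pool.Agent.V1148.E7
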