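import Mathlib
import Pool.Agent.V1148.E7G3

set_option autoImplicit false

/-!
# The general member: projective dimension of the main module
-/

universe u

namespace Pool.Agent.V1148.E7

open MvPolynomial CategoryTheory Pool.Agent.V1148.PD

variable {K : Type u} [Field K] [CharZero K] {m : ℕ}

omit [CharZero K] in
theorem mem_NG {v : Fin 3 → MvPolynomial (Fin (m + 4)) K} :
    v ∈ NG K m ↔ InG (v 0) (v 1) (v 2) ∧ X 3 - X 1 ∣ v 1 := Iff.rfl

theorem ne_zero_of_lf {p : MvPolynomial (Fin (m + 4)) K} (v : Fin 4 → ℤ) (i : Fin 4)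
    (h : v i ≠ 0) (hp : p = lf v) : p ≠ 0 := by
  subst hp
  exact lf_ne_zero i h

/-- The coordinate functionals. -/
noncomputable abbrev pr (i : Fin 3) : (Fin 3 → MvPolynomial (Fin (m + 4)) K)
    →ₗ[MvPolynomial (Fin (m + 4)) K] MvPolynomial (Fin (m + 4)) K := LinearMap.proj i

theorem neA : (X 3 - X 1 : MvPolynomial (Fin (m + 4)) K) ≠ 0 :=
  ne_zero_of_lf ![0, -1, 0, 1] 1 (by decide) (by simp [lf]; ring)

theorem neB : (X 2 * ((X 2 - X 1) * (2 * X 1 + X 2)) : MvPolynomial (Fin (m + 4)) K) ≠ 0 :=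
  mul_ne_zero (X_ne_zero _) (mul_ne_zero
    (ne_zero_of_lf ![0, -1, 1, 0] 1 (by decide) (by simp [lf]; ring))
    (ne_zero_of_lf ![0, 2, 1, 0] 1 (by decide) (by simp [lf])))

theorem neC : (X 0 * ((X 0 - X 1) * ((X 0 + X 1 - X 2) *
    ((X 0 - X 1 - X 2) * (X 0 + X 1 + X 2)))) : MvPolynomial (Fin (m + 4)) K) ≠ 0 := by
  refine mul_ne_zero (X_ne_zero _) (mul_ne_zero ?_ (mul_ne_zero ?_ (mul_ne_zero ?_ ?_)))
  · exact ne_zero_of_lf ![1, -1, 0, 0] 0 (by decide) (by simp [lf]; ring)
  · exact ne_zero_of_lf ![1, 1, -1, 0] 0 (by decide) (by simp [lf]; ring)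
  · exact ne_zero_of_lf ![1, -1, -1, 0] 0 (by decide) (by simp [lf]; ring)
  · exact ne_zero_of_lf ![1, 1, 1, 0] 0 (by decide) (by simp [lf])

theorem unit_two : IsUnit (2 : MvPolynomial (Fin (m + 4)) K) := by
  have h2 : (2 : MvPolynomial (Fin (m + 4)) K) = C (2 : K) := (map_ofNat C 2).symm
  rw [h2]
  exact IsUnit.map _ (isUnit_iff_ne_zero.2 two_ne_zero)

theorem unit_three : IsUnit (3 : MvPolynomial (Fin (m + 4)) K) := by
  have h2 : (3 : MvPolynomial (Fin (m + 4)) K) = C (3 : K) := (map_ofNat C 3).symm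
  rw [h2]
  exact IsUnit.map _ (isUnit_iff_ne_zero.2 three_ne_zero)

theorem pd_bot {T : Type u} [AddCommGroup T] [Module (MvPolynomial (Fin (m + 4)) K) T]
    (N : Submodule (MvPolynomial (Fin (m + 4)) K) T) (h : ∀ v ∈ N, v = 0) :
    HasProjectiveDimensionLT (ModuleCat.of (MvPolynomial (Fin (m + 4)) K) N) 1 := by
  have : Subsingleton N := ⟨fun a b => Subtype.ext ((h _ a.2).trans (h _ b.2).symm)⟩
  have : Module.Free (MvPolynomial (Fin (m + 4)) K) N := Module.Free.of_subsingleton _ _
  exact pd_free N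

/-- The triples of `NG` with two zero components. -/
theorem pd_N2 : HasProjectiveDimensionLT (ModuleCat.of (MvPolynomial (Fin (m + 4)) K)
    ↥(NG K m ⊓ LinearMap.ker (pr 1) ⊓ LinearMap.ker (pr 2))) 1 := by
  apply pd_step _ (pr 0) _ neC ⊤
  · intro q
    refine ⟨fun _ => ?_, fun _ => Submodule.mem_top⟩
    refine ⟨![q * (X 0 * (X 0 - X 1) * (X 0 + X 1 - X 2) * (X 0 - X 1 - X 2) *
              (X 0 + X 1 + X 2)), 0, 0], ⟨⟨?_, ?_⟩, ?_⟩, ?_⟩
    · rw [SetLike.mem_coe, mem_NG]
      refine ⟨?_, dvd_zero _⟩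
      have := (phi_P (K := K) (m := m)).smul q
      rw [mul_zero] at this
      exact this
    · rw [SetLike.mem_coe, LinearMap.mem_ker]
      rfl
    · rw [SetLike.mem_coe, LinearMap.mem_ker]
      rfl
    · change q * _ = _
      ring
  · rintro v ⟨⟨h1, h2⟩, h3⟩
    rw [SetLike.mem_coe, mem_NG] at h1
    rw [SetLike.mem_coe, LinearMap.mem_ker] at h2 h3
    have h2' : v 1 = 0 := h2
    have h3' : v 2 = 0 := h3
    rw [h2', h3'] at h1
    obtain ⟨⟨-, -, -, d4, d5, d6, d7, d8⟩, -⟩ := h1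
    simp only [sub_zero, add_zero] at d5 d6 d7 d8
    change _ ∣ v 0
    refine IsRelPrime.mul_dvd (IsRelPrime.mul_right ?_ (IsRelPrime.mul_right ?_
      (IsRelPrime.mul_right ?_ ?_))) d4 (IsRelPrime.mul_dvd (IsRelPrime.mul_right ?_
      (IsRelPrime.mul_right ?_ ?_)) d5 (IsRelPrime.mul_dvd (IsRelPrime.mul_right ?_ ?_) d6
        (IsRelPrime.mul_dvd ?_ d7 d8)))
    · exact rp ![1, 0, 0, 0] ![1, -1, 0, 0] 0 1 (by decide) (by simp [lf])
        (by simp [lf]; ring)
    · exact rp ![1, 0, 0, 0] ![1, 1, -1, 0] 0 1 (by decide) (by simp [lf])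
        (by simp [lf]; ring)
    · exact rp ![1, 0, 0, 0] ![1, -1, -1, 0] 0 1 (by decide) (by simp [lf])
        (by simp [lf]; ring)
    · exact rp ![1, 0, 0, 0] ![1, 1, 1, 0] 0 1 (by decide) (by simp [lf]) (by simp [lf])
    · exact rp ![1, -1, 0, 0] ![1, 1, -1, 0] 0 1 (by decide) (by simp [lf]; ring)
        (by simp [lf]; ring)
    · exact rp ![1, -1, 0, 0] ![1, -1, -1, 0] 0 2 (by decide) (by simp [lf]; ring)
        (by simp [lf]; ring)
    · exact rp ![1, -1, 0, 0] ![1, 1, 1, 0] 0 1 (by decide) (by simp [lf]; ring)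
        (by simp [lf])
    · exact rp ![1, 1, -1, 0] ![1, -1, -1, 0] 0 1 (by decide) (by simp [lf]; ring)
        (by simp [lf]; ring)
    · exact rp ![1, 1, -1, 0] ![1, 1, 1, 0] 0 2 (by decide) (by simp [lf]; ring)
        (by simp [lf])
    · exact rp ![1, -1, -1, 0] ![1, 1, 1, 0] 0 1 (by decide) (by simp [lf]; ring)
        (by simp [lf])
  · apply pd_bot
    rintro v ⟨⟨⟨h1, h2⟩, h3⟩, h4⟩
    funext i
    fin_cases i
    · exact h4
    · exact h2
    · exact h3
  · have : Module.Free (MvPolynomial (Fin (m + 4)) K)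
        (⊤ : Ideal (MvPolynomial (Fin (m + 4)) K)) :=
      Module.Free.of_equiv (Submodule.topEquiv (R := MvPolynomial (Fin (m + 4)) K)
        (M := MvPolynomial (Fin (m + 4)) K)).symm
    exact pd_free _

/-- The triples of `NG` with zero middle component. -/
theorem pd_N1 : HasProjectiveDimensionLT (ModuleCat.of (MvPolynomial (Fin (m + 4)) K)
    ↥(NG K m ⊓ LinearMap.ker (pr 1))) 2 := by
  apply pd_step _ (pr 2) _ neB (Ideal.span {X 0 * (X 1 + X 2 - 3 * X 0),
      (X 1 + X 2) * (X 1 + X 2 - 3 * X 0), X 1 * (X 1 + X 2) - 3 * X 0 ^ 2})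
  · intro q
    constructor
    · have key : ∀ (f h H c : MvPolynomial (Fin (m + 4)) K), InG f 0 h →
          c * (X 2 * ((X 2 - X 1) * (2 * X 1 + X 2)) * H) = h → (IsUnit c) →
          ∃ v ∈ NG K m ⊓ LinearMap.ker (pr 1),
            pr 2 v = X 2 * ((X 2 - X 1) * (2 * X 1 + X 2)) * H := by
        intro f h H c hin hh hc
        obtain ⟨d, hd⟩ := hc.exists_left_inv
        have hin' := hin.smul d
        rw [mul_zero] at hin'
        refine ⟨![d * f, 0, d * h], ⟨⟨hin', dvd_zero _⟩, ?_⟩, ?_⟩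
        · rw [SetLike.mem_coe, LinearMap.mem_ker]
          rfl
        · change d * h = _
          rw [← hh, ← mul_assoc, hd, one_mul]
      have kmem : (Ideal.span {X 0 * (X 1 + X 2 - 3 * X 0),
          (X 1 + X 2) * (X 1 + X 2 - 3 * X 0), X 1 * (X 1 + X 2) - 3 * X 0 ^ 2} :
          Ideal (MvPolynomial (Fin (m + 4)) K)) ≤
          { carrier := {H | ∃ v ∈ NG K m ⊓ LinearMap.ker (pr 1),
              pr 2 v = X 2 * ((X 2 - X 1) * (2 * X 1 + X 2)) * H}
            add_mem' := by
              rintro a b ⟨v, hv, hv2⟩ ⟨w, hw, hw2⟩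
              exact ⟨v + w, Submodule.add_mem _ hv hw, by rw [map_add, hv2, hw2]; ring⟩
            zero_mem' := ⟨0, Submodule.zero_mem _, by simp⟩
            smul_mem' := by
              rintro r a ⟨v, hv, hv2⟩
              exact ⟨r • v, Submodule.smul_mem _ r hv, by
                rw [map_smul, hv2, smul_eq_mul, smul_eq_mul]; ring⟩ } := by
        rw [Ideal.span_le]
        intro q hq
        simp only [Set.mem_insert_iff, Set.mem_singleton_iff] at hq
        rcases hq with rfl | rfl | rfl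
        · exact key _ _ _ 1 phi_a (by ring) isUnit_one
        · exact key _ _ _ 1 phi_b (by ring) isUnit_one
        · exact key _ _ _ 2 phi_c (by ring) unit_two
      exact fun hq => kmem hq
    · rintro ⟨v, ⟨h1, h2⟩, h3⟩
      have h2' : v 1 = 0 := h2
      have h1' := h1.1
      rw [h2'] at h1'
      obtain ⟨e1, e2, e3, he⟩ := memI h1' (H := q) (by
        have h3' : v 2 = X 2 * ((X 2 - X 1) * (2 * X 1 + X 2)) * q := h3
        rw [h3']
        ring)
      rw [he]
      apply Ideal.add_mem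
      · apply Ideal.add_mem
        · exact Ideal.mul_mem_right _ _ (Ideal.subset_span (by simp))
        · exact Ideal.mul_mem_right _ _ (Ideal.subset_span (by simp))
      · exact Ideal.mul_mem_right _ _ (Ideal.subset_span (by simp))
  · rintro v ⟨h1, h2⟩
    have h2' : v 1 = 0 := h2
    have h1' := h1.1
    rw [h2'] at h1'
    have d2 := h1'.c2
    have d3 := h1'.c3
    rw [sub_zero] at d2
    rw [mul_zero, zero_add] at d3
    change _ ∣ v 2
    apply IsRelPrime.mul_dvd
    · apply IsRelPrime.mul_right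
      · exact rp ![0, 0, 1, 0] ![0, -1, 1, 0] 1 2 (by decide) (by simp [lf])
          (by simp [lf]; ring)
      · exact rp ![0, 0, 1, 0] ![0, 2, 1, 0] 1 2 (by decide) (by simp [lf]) (by simp [lf])
    · exact h1'.c1
    · apply IsRelPrime.mul_dvd
      · exact rp ![0, -1, 1, 0] ![0, 2, 1, 0] 1 2 (by decide) (by simp [lf]; ring)
          (by simp [lf])
      · exact d2
      · exact d3
  · have := pd_N2 (K := K) (m := m)
    exact hasProjectiveDimensionLT_of_ge _ 1 2 (by norm_num)
  · exact pd_three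

/-- The general module has projective dimension at most one. -/
theorem pd_NG : HasProjectiveDimensionLT (ModuleCat.of (MvPolynomial (Fin (m + 4)) K)
    (NG K m)) 2 := by
  apply pd_step _ (pr 1) _ neA (Ideal.span {X 1, X 2 ^ 2 * (X 0 * (X 0 - X 2))})
  · intro q
    constructor
    · have key : ∀ (f g h q c : MvPolynomial (Fin (m + 4)) K), InG f g h →
          c * q = g → (IsUnit c) → ∃ v ∈ NG K m, pr 1 v = (X 3 - X 1) * q := by
        intro f g h q c hin hh hc
        obtain ⟨d, hd⟩ := hc.exists_left_inv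
        have hin' := hin.smul (d * (X 3 - X 1))
        refine ⟨![d * (X 3 - X 1) * f, d * (X 3 - X 1) * g, d * (X 3 - X 1) * h], ⟨hin', ?_⟩, ?_⟩
        · exact ⟨d * g, by change d * (X 3 - X 1) * g = _; ring⟩
        · change d * (X 3 - X 1) * g = _
          rw [← hh]
          linear_combination (X 3 - X 1) * q * hd
      have kmem : (Ideal.span {X 1, X 2 ^ 2 * (X 0 * (X 0 - X 2))} :
          Ideal (MvPolynomial (Fin (m + 4)) K)) ≤
          { carrier := {H | ∃ v ∈ NG K m, pr 1 v = (X 3 - X 1) * H}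
            add_mem' := by
              rintro a b ⟨v, hv, hv2⟩ ⟨w, hw, hw2⟩
              exact ⟨v + w, Submodule.add_mem _ hv hw, by rw [map_add, hv2, hw2]; ring⟩
            zero_mem' := ⟨0, Submodule.zero_mem _, by simp⟩
            smul_mem' := by
              rintro r a ⟨v, hv, hv2⟩
              exact ⟨r • v, Submodule.smul_mem _ r hv, by
                rw [map_smul, hv2, smul_eq_mul, smul_eq_mul]; ring⟩ } := by
        rw [Ideal.span_le]
        intro q hq
        simp only [Set.mem_insert_iff, Set.mem_singleton_iff] at hq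
        rcases hq with rfl | rfl
        · exact key _ _ _ _ 1 InG.euler (by ring) isUnit_one
        · exact key _ _ _ _ 3 theta4 (by ring) unit_three
      exact fun hq => kmem hq
    · rintro ⟨v, h1, h3⟩
      obtain ⟨c, d, he⟩ := memQ h1.1 (q := q) h3
      rw [he]
      apply Ideal.add_mem
      · exact Ideal.mul_mem_right _ _ (Ideal.subset_span (by simp))
      · exact Ideal.mul_mem_right _ _ (Ideal.subset_span (by simp))
  · intro v h1
    exact h1.2
  · exact pd_N1
  · exact pd_two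

end Pool.Agent.V1148.E7
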