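import Mathlib
import Pool.Agent.V1148.E7Base
import Pool.Agent.V1148.Homog

set_option autoImplicit false

/-!
# The special member: derivations of an arrangement of eight lines and an extra line
-/

universe u

namespace Pool.Agent.V1148.E7

open MvPolynomial

variable {K : Type u} [Field K] {m : ℕ}

/-- The triple `(f, g, h)` is logarithmic along the eight linear forms `x_2`, `2 x_1 + x_2`,
`x_1 + 2 x_2`, `x_0`, `x_0 - x_1`, `x_0 - 2 x_1 - x_2`, `x_0 - x_1 - x_2`,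
`x_0 - 2 x_1 - 2 x_2`. -/
structure InS (f g h : MvPolynomial (Fin (m + 4)) K) : Prop where
  c1 : X 2 ∣ h
  c2 : 2 * X 1 + X 2 ∣ 2 * g + h
  c3 : X 1 + 2 * X 2 ∣ g + 2 * h
  c4 : X 0 ∣ f
  c5 : X 0 - X 1 ∣ f - g
  c6 : X 0 - 2 * X 1 - X 2 ∣ f - 2 * g - h
  c7 : X 0 - X 1 - X 2 ∣ f - g - h
  c8 : X 0 - 2 * X 1 - 2 * X 2 ∣ f - 2 * g - 2 * h

theorem InS.euler : InS (X 0 : MvPolynomial (Fin (m + 4)) K) (X 1) (X 2) where
  c1 := dvd_rfl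
  c2 := dvd_rfl
  c3 := dvd_rfl
  c4 := dvd_rfl
  c5 := dvd_rfl
  c6 := dvd_rfl
  c7 := dvd_rfl
  c8 := dvd_rfl

theorem InS.smul {f g h : MvPolynomial (Fin (m + 4)) K} (a : InS f g h)
    (r : MvPolynomial (Fin (m + 4)) K) : InS (r * f) (r * g) (r * h) where
  c1 := dvd_mul_of_dvd_right a.c1 r
  c2 := by
    have := dvd_mul_of_dvd_right a.c2 r
    rwa [show 2 * (r * g) + r * h = r * (2 * g + h) by ring]
  c3 := by
    have := dvd_mul_of_dvd_right a.c3 r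
    rwa [show r * g + 2 * (r * h) = r * (g + 2 * h) by ring]
  c4 := dvd_mul_of_dvd_right a.c4 r
  c5 := by have := dvd_mul_of_dvd_right a.c5 r; rwa [show r * f - r * g = r * (f - g) by ring]
  c6 := by
    have := dvd_mul_of_dvd_right a.c6 r
    rwa [show r * f - 2 * (r * g) - r * h = r * (f - 2 * g - h) by ring]
  c7 := by
    have := dvd_mul_of_dvd_right a.c7 r
    rwa [show r * f - r * g - r * h = r * (f - g - h) by ring]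
  c8 := by
    have := dvd_mul_of_dvd_right a.c8 r
    rwa [show r * f - 2 * (r * g) - 2 * (r * h) = r * (f - 2 * g - 2 * h) by ring]

theorem theta_x : InS (X 0 ^ 5 - 4 * X 0 ^ 4 * X 1 - 7 * X 0 ^ 4 * X 2 + 3 * X 0 ^ 3 * X 1 ^ 2 + 18 * X 0 ^ 3 * X 1 * X 2 + 12 * X 0 ^ 3 * X 2 ^ 2 + 4 * X 0 ^ 2 * X 1 ^ 3 - 5 * X 0 ^ 2 * X 1 ^ 2 * X 2 - 8 * X 0 ^ 2 * X 1 * X 2 ^ 2 - 2 * X 0 ^ 2 * X 2 ^ 3 - 4 * X 0 * X 1 ^ 4 - 6 * X 0 * X 1 ^ 3 * X 2 - 2 * X 0 * X 1 ^ 2 * X 2 ^ 2)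
    (2 * X 0 ^ 3 * X 2 ^ 2 - 2 * X 0 ^ 2 * X 2 ^ 3)
    (-2 * X 0 ^ 3 * X 1 * X 2 - 5 * X 0 ^ 3 * X 2 ^ 2 + 4 * X 0 ^ 2 * X 1 ^ 2 * X 2 + 12 * X 0 ^ 2 * X 1 * X 2 ^ 2 + 9 * X 0 ^ 2 * X 2 ^ 3 : MvPolynomial (Fin (m + 4)) K) where
  c1 := ⟨-2 * X 0 ^ 3 * X 1 - 5 * X 0 ^ 3 * X 2 + 4 * X 0 ^ 2 * X 1 ^ 2 + 12 * X 0 ^ 2 * X 1 * X 2 + 9 * X 0 ^ 2 * X 2 ^ 2, by ring⟩
  c2 := ⟨-X 0 ^ 3 * X 2 + 2 * X 0 ^ 2 * X 1 * X 2 + 5 * X 0 ^ 2 * X 2 ^ 2, by ring⟩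
  c3 := ⟨-4 * X 0 ^ 3 * X 2 + 8 * X 0 ^ 2 * X 1 * X 2 + 8 * X 0 ^ 2 * X 2 ^ 2, by ring⟩
  c4 := ⟨X 0 ^ 4 - 4 * X 0 ^ 3 * X 1 - 7 * X 0 ^ 3 * X 2 + 3 * X 0 ^ 2 * X 1 ^ 2 + 18 * X 0 ^ 2 * X 1 * X 2 + 12 * X 0 ^ 2 * X 2 ^ 2 + 4 * X 0 * X 1 ^ 3 - 5 * X 0 * X 1 ^ 2 * X 2 - 8 * X 0 * X 1 * X 2 ^ 2 - 2 * X 0 * X 2 ^ 3 - 4 * X 1 ^ 4 - 6 * X 1 ^ 3 * X 2 - 2 * X 1 ^ 2 * X 2 ^ 2, by ring⟩
  c5 := ⟨X 0 ^ 4 - 3 * X 0 ^ 3 * X 1 - 7 * X 0 ^ 3 * X 2 + 11 * X 0 ^ 2 * X 1 * X 2 + 10 * X 0 ^ 2 * X 2 ^ 2 + 4 * X 0 * X 1 ^ 3 + 6 * X 0 * X 1 ^ 2 * X 2 + 2 * X 0 * X 1 * X 2 ^ 2, by ring⟩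
  c6 := ⟨X 0 ^ 4 - 2 * X 0 ^ 3 * X 1 - 6 * X 0 ^ 3 * X 2 - X 0 ^ 2 * X 1 ^ 2 + 6 * X 0 ^ 2 * X 1 * X 2 + 7 * X 0 ^ 2 * X 2 ^ 2 + 2 * X 0 * X 1 ^ 3 + 2 * X 0 * X 1 ^ 2 * X 2, by ring⟩
  c7 := ⟨X 0 ^ 4 - 3 * X 0 ^ 3 * X 1 - 6 * X 0 ^ 3 * X 2 + 11 * X 0 ^ 2 * X 1 * X 2 + 9 * X 0 ^ 2 * X 2 ^ 2 + 4 * X 0 * X 1 ^ 3 + 2 * X 0 * X 1 ^ 2 * X 2, by ring⟩
  c8 := ⟨X 0 ^ 4 - 2 * X 0 ^ 3 * X 1 - 5 * X 0 ^ 3 * X 2 - X 0 ^ 2 * X 1 ^ 2 + 8 * X 0 ^ 2 * X 1 * X 2 + 8 * X 0 ^ 2 * X 2 ^ 2 + 2 * X 0 * X 1 ^ 3 + X 0 * X 1 ^ 2 * X 2, by ring⟩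

theorem theta_z : InS (-21 * X 0 ^ 5 + 86 * X 0 ^ 4 * X 1 + 64 * X 0 ^ 4 * X 2 - 95 * X 0 ^ 3 * X 1 ^ 2 - 156 * X 0 ^ 3 * X 1 * X 2 - 57 * X 0 ^ 3 * X 2 ^ 2 - 2 * X 0 ^ 2 * X 1 ^ 3 + 20 * X 0 ^ 2 * X 1 ^ 2 * X 2 + 13 * X 0 ^ 2 * X 1 * X 2 ^ 2 + 4 * X 0 ^ 2 * X 2 ^ 3 + 32 * X 0 * X 1 ^ 4 + 72 * X 0 * X 1 ^ 3 * X 2 + 44 * X 0 * X 1 ^ 2 * X 2 ^ 2 - 4 * X 0 * X 2 ^ 4)
    (4 * X 0 ^ 2 * X 2 ^ 3 - 4 * X 0 * X 2 ^ 4)
    (-4 * X 0 ^ 2 * X 1 ^ 2 * X 2 - 14 * X 0 ^ 2 * X 1 * X 2 ^ 2 - 14 * X 0 ^ 2 * X 2 ^ 3 - 14 * X 0 * X 1 ^ 3 * X 2 - 45 * X 0 * X 1 ^ 2 * X 2 ^ 2 - 35 * X 0 * X 1 * X 2 ^ 3 : MvPolynomial (Fin (m + 4)) K) where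
  c1 := ⟨-4 * X 0 ^ 2 * X 1 ^ 2 - 14 * X 0 ^ 2 * X 1 * X 2 - 14 * X 0 ^ 2 * X 2 ^ 2 - 14 * X 0 * X 1 ^ 3 - 45 * X 0 * X 1 ^ 2 * X 2 - 35 * X 0 * X 1 * X 2 ^ 2, by ring⟩
  c2 := ⟨-2 * X 0 ^ 2 * X 1 * X 2 - 6 * X 0 ^ 2 * X 2 ^ 2 - 7 * X 0 * X 1 ^ 2 * X 2 - 19 * X 0 * X 1 * X 2 ^ 2 - 8 * X 0 * X 2 ^ 3, by ring⟩
  c3 := ⟨-8 * X 0 ^ 2 * X 1 * X 2 - 12 * X 0 ^ 2 * X 2 ^ 2 - 28 * X 0 * X 1 ^ 2 * X 2 - 34 * X 0 * X 1 * X 2 ^ 2 - 2 * X 0 * X 2 ^ 3, by ring⟩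
  c4 := ⟨-21 * X 0 ^ 4 + 86 * X 0 ^ 3 * X 1 + 64 * X 0 ^ 3 * X 2 - 95 * X 0 ^ 2 * X 1 ^ 2 - 156 * X 0 ^ 2 * X 1 * X 2 - 57 * X 0 ^ 2 * X 2 ^ 2 - 2 * X 0 * X 1 ^ 3 + 20 * X 0 * X 1 ^ 2 * X 2 + 13 * X 0 * X 1 * X 2 ^ 2 + 4 * X 0 * X 2 ^ 3 + 32 * X 1 ^ 4 + 72 * X 1 ^ 3 * X 2 + 44 * X 1 ^ 2 * X 2 ^ 2 - 4 * X 2 ^ 4, by ring⟩
  c5 := ⟨-21 * X 0 ^ 4 + 65 * X 0 ^ 3 * X 1 + 64 * X 0 ^ 3 * X 2 - 30 * X 0 ^ 2 * X 1 ^ 2 - 92 * X 0 ^ 2 * X 1 * X 2 - 57 * X 0 ^ 2 * X 2 ^ 2 - 32 * X 0 * X 1 ^ 3 - 72 * X 0 * X 1 ^ 2 * X 2 - 44 * X 0 * X 1 * X 2 ^ 2, by ring⟩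
  c6 := ⟨-21 * X 0 ^ 4 + 44 * X 0 ^ 3 * X 1 + 43 * X 0 ^ 3 * X 2 - 7 * X 0 ^ 2 * X 1 ^ 2 - 26 * X 0 ^ 2 * X 1 * X 2 - 14 * X 0 ^ 2 * X 2 ^ 2 - 16 * X 0 * X 1 ^ 3 - 35 * X 0 * X 1 ^ 2 * X 2 - 27 * X 0 * X 1 * X 2 ^ 2 - 4 * X 0 * X 2 ^ 3, by ring⟩
  c7 := ⟨-21 * X 0 ^ 4 + 65 * X 0 ^ 3 * X 1 + 43 * X 0 ^ 3 * X 2 - 30 * X 0 ^ 2 * X 1 ^ 2 - 48 * X 0 ^ 2 * X 1 * X 2 - 14 * X 0 ^ 2 * X 2 ^ 2 - 32 * X 0 * X 1 ^ 3 - 54 * X 0 * X 1 ^ 2 * X 2 - 35 * X 0 * X 1 * X 2 ^ 2, by ring⟩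
  c8 := ⟨-21 * X 0 ^ 4 + 44 * X 0 ^ 3 * X 1 + 22 * X 0 ^ 3 * X 2 - 7 * X 0 ^ 2 * X 1 ^ 2 - 24 * X 0 ^ 2 * X 1 * X 2 - 13 * X 0 ^ 2 * X 2 ^ 2 - 16 * X 0 * X 1 ^ 3 - 34 * X 0 * X 1 ^ 2 * X 2 - 33 * X 0 * X 1 * X 2 ^ 2 - 2 * X 0 * X 2 ^ 3, by ring⟩

/-- The homogeneous component of degree four of a divisibility. -/
theorem dvd_comp {p q : MvPolynomial (Fin (m + 4)) K} (hp : p.IsHomogeneous 1) (h : p ∣ q)
    (k : ℕ) : p ∣ homogeneousComponent k q := by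
  obtain ⟨r, rfl⟩ := h
  rw [mul_comm, homogeneousComponent_mul_right hp]
  split_ifs
  · exact dvd_mul_left _ _
  · exact dvd_zero _

theorem lf_hom (v : Fin 4 → ℤ) : (lf v : MvPolynomial (Fin (m + 4)) K).IsHomogeneous 1 := by
  rw [← lin_vec]
  exact lin_isHomogeneous _

theorem dvd_comp' {p q : MvPolynomial (Fin (m + 4)) K} (v : Fin 4 → ℤ) (hp : p = lf v)
    (h : p ∣ q) (k : ℕ) : p ∣ homogeneousComponent k q := by
  apply dvd_comp _ h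
  rw [hp]
  exact lf_hom v

theorem hc_ofNat (n : ℕ) [n.AtLeastTwo] (k : ℕ) (q : MvPolynomial (Fin (m + 4)) K) :
    homogeneousComponent k (OfNat.ofNat n * q) = OfNat.ofNat n * homogeneousComponent k q := by
  have h2 : (OfNat.ofNat n : MvPolynomial (Fin (m + 4)) K) = C (OfNat.ofNat n : K) :=
    (map_ofNat C n).symm
  rw [h2, homogeneousComponent_C_mul]

theorem InS.comp {f g h : MvPolynomial (Fin (m + 4)) K} (a : InS f g h) (k : ℕ) :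
    InS (homogeneousComponent k f) (homogeneousComponent k g) (homogeneousComponent k h) where
  c1 := dvd_comp' ![0, 0, 1, 0] (by simp [lf]) a.c1 k
  c2 := by
    have := dvd_comp' ![0, 2, 1, 0] (by simp [lf]) a.c2 k
    rwa [map_add, hc_ofNat] at this
  c3 := by
    have := dvd_comp' ![0, 1, 2, 0] (by simp [lf]) a.c3 k
    rwa [map_add, hc_ofNat] at this
  c4 := dvd_comp' ![1, 0, 0, 0] (by simp [lf]) a.c4 k
  c5 := by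
    have := dvd_comp' ![1, -1, 0, 0] (by simp [lf]; ring) a.c5 k
    rwa [map_sub] at this
  c6 := by
    have := dvd_comp' ![1, -2, -1, 0] (by simp [lf]; ring) a.c6 k
    rwa [map_sub, map_sub, hc_ofNat] at this
  c7 := by
    have := dvd_comp' ![1, -1, -1, 0] (by simp [lf]; ring) a.c7 k
    rwa [map_sub, map_sub] at this
  c8 := by
    have := dvd_comp' ![1, -2, -2, 0] (by simp [lf]; ring) a.c8 k
    rwa [map_sub, map_sub, hc_ofNat, hc_ofNat] at this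

/-- Evaluation at the point `(a, b, c, 0, …, 0)`. -/
noncomputable def ev (a b c : ℤ) : MvPolynomial (Fin (m + 4)) K →ₐ[K] K :=
  aeval (vec ![a, b, c, 0])

theorem ev_X0 (a b c : ℤ) : ev a b c (X 0 : MvPolynomial (Fin (m + 4)) K) = a := by
  unfold ev
  rw [aeval_X, vec_zero]
  rfl

theorem ev_X1 (a b c : ℤ) : ev a b c (X 1 : MvPolynomial (Fin (m + 4)) K) = b := by
  unfold ev
  rw [aeval_X, vec_one]
  rfl

theorem ev_X2 (a b c : ℤ) : ev a b c (X 2 : MvPolynomial (Fin (m + 4)) K) = c := by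
  unfold ev
  rw [aeval_X, vec_two]
  rfl

theorem ev_X3 (a b c : ℤ) : ev a b c (X 3 : MvPolynomial (Fin (m + 4)) K) = 0 := by
  unfold ev
  rw [aeval_X, vec_three]
  simp

/-- The certificate: coefficient, linear form, point. -/
def certRows : List (ℤ × (ℤ × ℤ × ℤ) × (ℤ × ℤ × ℤ)) := [(108, (0, 0, 1), (1, 0, 0)), (-54, (0, 0, 1), (1, 1, 0)), (36, (0, 0, 1), (0, 1, 0)), (-6, (0, 0, 1), (1, -1, 0)), (12, (0, 2, 1), (1, 0, 0)), (6, (0, 2, 1), (1, -1, 2)), (-2, (0, 2, 1), (1, 1, -2)), (-4, (0, 2, 1), (2, -1, 2)), (-2, (0, 1, 2), (0, 2, -1)), (-4, (0, 1, 2), (3, 2, -1)), (36, (1, 0, 0), (0, 0, 1)), (-72, (1, 0, 0), (0, 1, -1)), (-6, (1, 0, 0), (0, 1, -2)), (-18, (1, 0, 0), (0, 1, 0)), (6, (1, 0, 0), (0, 2, -1)), (-18, (1, -1, 0), (0, 0, 1)), (6, (1, -1, 0), (2, 2, -1)), (72, (1, -1, 0), (1, 1, -1)), (36, (1, -2, -1), (1, 0, 1)), (24, (1, -2,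 -1), (2, 1, 0)), (-72, (1, -2, -1), (1, 1, -1)), (-54, (1, -1, -1), (1, 0, 1)), (24, (1, -1, -1), (1, 1, 0)), (-9, (1, -1, -1), (1, 2, -1)), (3, (1, -1, -1), (1, -2, 3)), (-42, (1, -2, -2), (2, 1, 0)), (18, (1, -2, -2), (2, 0, 1)), (-6, (1, -2, -2), (2, -1, 2)), (18, (0, 1, 0), (2, 0, 1))]

theorem cert_ints0 : ∀ d0 d1 d2 : Fin 5, (d0 : ℕ) + d1 + d2 = 4 →
    (certRows.map fun r => r.1 * r.2.1.1 *
      (r.2.2.1 ^ (d0 : ℕ) * r.2.2.2.1 ^ (d1 : ℕ) * r.2.2.2.2 ^ (d2 : ℕ))).sum = 0 := by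
  decide +kernel

theorem cert_ints1 : ∀ d0 d1 d2 : Fin 5, (d0 : ℕ) + d1 + d2 = 4 →
    (certRows.map fun r => r.1 * r.2.1.2.1 *
      (r.2.2.1 ^ (d0 : ℕ) * r.2.2.2.1 ^ (d1 : ℕ) * r.2.2.2.2 ^ (d2 : ℕ))).sum = 0 := by
  decide +kernel

theorem cert_ints2 : ∀ d0 d1 d2 : Fin 5, (d0 : ℕ) + d1 + d2 = 4 →
    (certRows.map fun r => r.1 * r.2.1.2.2 *
      (r.2.2.1 ^ (d0 : ℕ) * r.2.2.2.1 ^ (d1 : ℕ) * r.2.2.2.2 ^ (d2 : ℕ))).sum = 0 := by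
  decide +kernel

theorem ev_monomial (a b c : ℤ) (d : Fin (m + 4) →₀ ℕ) (hd : ∀ j : Fin (m + 4), 3 ≤ (j : ℕ) → d j = 0) :
    ev a b c (monomial d (1 : K)) = (a : K) ^ d 0 * (b : K) ^ d 1 * (c : K) ^ d 2 := by
  unfold ev
  rw [aeval_monomial, map_one, one_mul, Finsupp.prod_fintype _ _ (fun i => pow_zero _)]
  rw [Fin.prod_univ_succ, Fin.prod_univ_succ, Fin.prod_univ_succ, Finset.prod_eq_one]
  · have e1 : Fin.succ (0 : Fin (m + 3)) = (1 : Fin (m + 4)) := by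
      apply Fin.ext
      rw [val_one']
      simp
    have e2 : Fin.succ (Fin.succ (0 : Fin (m + 2))) = (2 : Fin (m + 4)) := by
      apply Fin.ext
      rw [val_two']
      simp
    rw [e1, e2, vec_zero, vec_one, vec_two]
    simp [mul_assoc]
  · intro j _
    rw [hd, pow_zero]
    simp

theorem ev_monomial_zero (a b c : ℤ) (d : Fin (m + 4) →₀ ℕ) (j : Fin (m + 4)) (hj : 3 ≤ (j : ℕ))
    (hd : d j ≠ 0) : ev a b c (monomial d (1 : K)) = 0 := by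
  unfold ev
  rw [aeval_monomial, map_one, one_mul, Finsupp.prod_fintype _ _ (fun i => pow_zero _)]
  apply Finset.prod_eq_zero (Finset.mem_univ j)
  have : (vec ![a, b, c, 0] : Fin (m + 4) → K) j = 0 := by
    unfold vec
    split_ifs with h
    · have : (⟨(j : ℕ), h⟩ : Fin 4) = 3 := by
        apply Fin.ext
        simp
        omega
      rw [this]
      simp
    · rfl
  rw [this, zero_pow hd]

theorem list_lin (L : List (ℤ × (ℤ × ℤ × ℤ))) :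
    ∃ Λ : MvPolynomial (Fin (m + 4)) K →ₗ[K] K, ∀ G,
      Λ G = (L.map fun r => (r.1 : K) * ev r.2.1 r.2.2.1 r.2.2.2 G).sum := by
  induction L with
  | nil => exact ⟨0, fun G => by simp⟩
  | cons r L ih =>
    obtain ⟨Λ, hΛ⟩ := ih
    refine ⟨(r.1 : K) • (ev r.2.1 r.2.2.1 r.2.2.2).toLinearMap + Λ, fun G => ?_⟩
    rw [List.map_cons, List.sum_cons, LinearMap.add_apply, hΛ]
    rfl

/-- A functional given by rows that kills all monomials of degree four kills all quartic forms. -/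
theorem kill (L : List (ℤ × (ℤ × ℤ × ℤ)))
    (hL : ∀ d0 d1 d2 : Fin 5, (d0 : ℕ) + d1 + d2 = 4 →
      (L.map fun r => r.1 * (r.2.1 ^ (d0 : ℕ) * r.2.2.1 ^ (d1 : ℕ) * r.2.2.2 ^ (d2 : ℕ))).sum = 0)
    (F : MvPolynomial (Fin (m + 4)) K) (hF : F.IsHomogeneous 4) :
    (L.map fun r => (r.1 : K) * ev r.2.1 r.2.2.1 r.2.2.2 F).sum = 0 := by
  obtain ⟨Λ, hΛ⟩ := list_lin (K := K) (m := m) L
  rw [← hΛ]
  rw [F.as_sum, map_sum]
  apply Finset.sum_eq_zero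
  intro d hd
  have hdeg : d.degree = 4 := by
    have := hF (mem_support_iff.1 hd)
    rw [Finsupp.degree_eq_weight_one]
    exact this
  have h1 : monomial d (coeff d F) = coeff d F • monomial d (1 : K) := by
    rw [smul_monomial, smul_eq_mul, mul_one]
  rw [h1, map_smul, hΛ]
  by_cases h3 : ∀ j : Fin (m + 4), 3 ≤ (j : ℕ) → d j = 0
  · have hsum : d 0 + d 1 + d 2 = 4 := by
      rw [Finsupp.degree_eq_sum, Fin.sum_univ_succ, Fin.sum_univ_succ, Fin.sum_univ_succ] at hdeg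
      have e1 : Fin.succ (0 : Fin (m + 3)) = (1 : Fin (m + 4)) := by
        apply Fin.ext
        rw [val_one']
        simp
      have e2 : Fin.succ (Fin.succ (0 : Fin (m + 2))) = (2 : Fin (m + 4)) := by
        apply Fin.ext
        rw [val_two']
        simp
      rw [e1, e2, Finset.sum_eq_zero] at hdeg
      · omega
      · intro j _
        apply h3
        simp
    have h4 := hL ⟨d 0, by omega⟩ ⟨d 1, by omega⟩ ⟨d 2, by omega⟩ hsum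
    have h5 : (L.map fun r => (r.1 : K) * ev r.2.1 r.2.2.1 r.2.2.2 (monomial d (1 : K))).sum =
        (((L.map fun r => r.1 * (r.2.1 ^ d 0 * r.2.2.1 ^ d 1 * r.2.2.2 ^ d 2)).sum : ℤ) : K) := by
      rw [Int.cast_list_sum, List.map_map]
      congr 1
      apply List.map_congr_left
      intro r _
      rw [ev_monomial _ _ _ _ h3]
      simp only [Function.comp_apply]
      push_cast
      ring
    rw [h5]
    simp only at h4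
    rw [h4, Int.cast_zero, smul_zero]
  · push Not at h3
    obtain ⟨j, hj, hj0⟩ := h3
    have h5 : (L.map fun r => (r.1 : K) * ev r.2.1 r.2.2.1 r.2.2.2 (monomial d (1 : K))).sum =
        0 := by
      apply List.sum_eq_zero
      intro x hx
      obtain ⟨r, _, rfl⟩ := List.mem_map.1 hx
      rw [ev_monomial_zero _ _ _ _ j hj hj0, mul_zero]
    rw [h5, smul_zero]

theorem line_zero (f g h l : MvPolynomial (Fin (m + 4)) K) (a b c : ℤ) (φ : MvPolynomial (Fin (m + 4)) K)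
    (hd : l ∣ φ) (hl : ev a b c l = 0) : ev a b c φ = 0 := by
  obtain ⟨q, rfl⟩ := hd
  rw [map_mul, hl, zero_mul]

/-- For quartic logarithmic triples the middle component vanishes at the point `(2, 0, 1)`. -/
theorem quartic_vanish [CharZero K] {f g h : MvPolynomial (Fin (m + 4)) K} (a : InS f g h)
    (hf : f.IsHomogeneous 4) (hg : g.IsHomogeneous 4) (hh : h.IsHomogeneous 4) :
    ev 2 0 1 g = 0 := by
  have l1 : ∀ p q r : ℤ, r = 0 → ev p q r h = 0 := by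
    intro p q r hr
    apply line_zero f g h _ p q r _ a.c1
    rw [ev_X2, hr, Int.cast_zero]
  have l2 : ∀ p q r : ℤ, 2 * q + r = 0 → 2 * ev p q r g + ev p q r h = 0 := by
    intro p q r hr
    have := line_zero f g h _ p q r _ a.c2 (by
      rw [map_add, map_mul, ev_X1, ev_X2, map_ofNat]
      exact_mod_cast hr)
    rwa [map_add, map_mul, map_ofNat] at this
  have l3 : ∀ p q r : ℤ, q + 2 * r = 0 → ev p q r g + 2 * ev p q r h = 0 := by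
    intro p q r hr
    have := line_zero f g h _ p q r _ a.c3 (by
      rw [map_add, map_mul, ev_X1, ev_X2, map_ofNat]
      exact_mod_cast hr)
    rwa [map_add, map_mul, map_ofNat] at this
  have l4 : ∀ p q r : ℤ, p = 0 → ev p q r f = 0 := by
    intro p q r hr
    apply line_zero f g h _ p q r _ a.c4
    rw [ev_X0, hr, Int.cast_zero]
  have l5 : ∀ p q r : ℤ, p - q = 0 → ev p q r f - ev p q r g = 0 := by
    intro p q r hr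
    have := line_zero f g h _ p q r _ a.c5 (by
      rw [map_sub, ev_X0, ev_X1]
      exact_mod_cast hr)
    rwa [map_sub] at this
  have l6 : ∀ p q r : ℤ, p - 2 * q - r = 0 →
      ev p q r f - 2 * ev p q r g - ev p q r h = 0 := by
    intro p q r hr
    have := line_zero f g h _ p q r _ a.c6 (by
      rw [map_sub, map_sub, map_mul, ev_X0, ev_X1, ev_X2, map_ofNat]
      exact_mod_cast hr)
    rwa [map_sub, map_sub, map_mul, map_ofNat] at this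
  have l7 : ∀ p q r : ℤ, p - q - r = 0 → ev p q r f - ev p q r g - ev p q r h = 0 := by
    intro p q r hr
    have := line_zero f g h _ p q r _ a.c7 (by
      rw [map_sub, map_sub, ev_X0, ev_X1, ev_X2]
      exact_mod_cast hr)
    rwa [map_sub, map_sub] at this
  have l8 : ∀ p q r : ℤ, p - 2 * q - 2 * r = 0 →
      ev p q r f - 2 * ev p q r g - 2 * ev p q r h = 0 := by
    intro p q r hr
    have := line_zero f g h _ p q r _ a.c8 (by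
      rw [map_sub, map_sub, map_mul, map_mul, ev_X0, ev_X1, ev_X2, map_ofNat]
      exact_mod_cast hr)
    rwa [map_sub, map_sub, map_mul, map_mul, map_ofNat] at this
  have r0 := l1 (1) (0) (0) (by norm_num)
  have r1 := l1 (1) (1) (0) (by norm_num)
  have r2 := l1 (0) (1) (0) (by norm_num)
  have r3 := l1 (1) (-1) (0) (by norm_num)
  have r4 := l2 (1) (0) (0) (by norm_num)
  have r5 := l2 (1) (-1) (2) (by norm_num)
  have r6 := l2 (1) (1) (-2) (by norm_num)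
  have r7 := l2 (2) (-1) (2) (by norm_num)
  have r8 := l3 (0) (2) (-1) (by norm_num)
  have r9 := l3 (3) (2) (-1) (by norm_num)
  have r10 := l4 (0) (0) (1) (by norm_num)
  have r11 := l4 (0) (1) (-1) (by norm_num)
  have r12 := l4 (0) (1) (-2) (by norm_num)
  have r13 := l4 (0) (1) (0) (by norm_num)
  have r14 := l4 (0) (2) (-1) (by norm_num)
  have r15 := l5 (0) (0) (1) (by norm_num)
  have r16 := l5 (2) (2) (-1) (by norm_num)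
  have r17 := l5 (1) (1) (-1) (by norm_num)
  have r18 := l6 (1) (0) (1) (by norm_num)
  have r19 := l6 (2) (1) (0) (by norm_num)
  have r20 := l6 (1) (1) (-1) (by norm_num)
  have r21 := l7 (1) (0) (1) (by norm_num)
  have r22 := l7 (1) (1) (0) (by norm_num)
  have r23 := l7 (1) (2) (-1) (by norm_num)
  have r24 := l7 (1) (-2) (3) (by norm_num)
  have r25 := l8 (2) (1) (0) (by norm_num)
  have r26 := l8 (2) (0) (1) (by norm_num)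
  have r27 := l8 (2) (-1) (2) (by norm_num)
  have k0 := kill (K := K) (m := m) (certRows.map fun r => (r.1 * r.2.1.1, r.2.2)) (by
    intro d0 d1 d2 hd
    rw [List.map_map]
    exact cert_ints0 d0 d1 d2 hd) f hf
  have k1 := kill (K := K) (m := m) (certRows.map fun r => (r.1 * r.2.1.2.1, r.2.2)) (by
    intro d0 d1 d2 hd
    rw [List.map_map]
    exact cert_ints1 d0 d1 d2 hd) g hg
  have k2 := kill (K := K) (m := m) (certRows.map fun r => (r.1 * r.2.1.2.2, r.2.2)) (by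
    intro d0 d1 d2 hd
    rw [List.map_map]
    exact cert_ints2 d0 d1 d2 hd) h hh
  simp only [certRows, List.map_cons, List.map_nil, List.sum_cons, List.sum_nil, mul_zero,
    Int.cast_zero, zero_mul, zero_add, add_zero, mul_one, Int.cast_mul, Int.cast_neg,
    Int.cast_ofNat, Int.cast_one] at k0 k1 k2
  have h18 : (18 : K) ≠ 0 := by norm_num
  apply mul_left_cancel₀ h18
  rw [mul_zero]
  linear_combination k0 + k1 + k2 - ((108) * r0 + (-54) * r1 + (36) * r2 + (-6) * r3 + (12) * r4 + (6) * r5 + (-2) * r6 + (-4) * r7 + (-2) * r8 + (-4) * r9 + (36) * r10 + (-72) * r11 + (-6) * r12 + (-18) * r13 + (6) * r14 + (-18) * r15 + (6) * r16 + (72) * r17 + (36) * r18 + (24) * r19 + (-72) * r20 + (-54) * r21 + (24) * r22 + (-9) * r23 + (3) * r24 + (-42) * r25 + (18) * r26 + (-6) * r27)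

end Pool.Agent.V1148.E7
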