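import Pool.Agent.V1148.FrFam3

/-!
# A closed subset of `G_T`
-/

open MvPolynomial

namespace Pool.V1148.Frontier

variable {K : Type*} [Field K]

theorem mo_mul (k : ℕ) (hk : 3 ≤ k) (i j : Fin 3) :
    (mo 2 i 0 * mo (k - 1) j 0 : MvPolynomial (Fin 3) K) = mo (k + 1) (i + j) 0 := by
  have h : ex 2 i 0 + ex (k - 1) j 0 = ex (k + 1) (i + j) 0 := by
    ext a
    rw [Finsupp.add_apply]
    obtain rfl | rfl | rfl : a = 0 ∨ a = 1 ∨ a = 2 := by fin_cases a <;> simp
    · show (2 - (i : ℕ) - 0) + (k - 1 - j - 0) = k + 1 - (i + j) - 0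
      omega
    · rfl
    · rfl
  unfold mo
  rw [monomial_mul, one_mul, h]

/-- The closed set: the pairing of `x², xy, y²` with `x^(k-1), x^(k-2) y, x^(k-3) y²` into
`(R / I)_(k+1)` is degenerate. -/
def Zset (K : Type*) [Field K] (k : ℕ) : Set (GT K (Tk k)) :=
  {A | ∃ α : Fin 3 → K, α ≠ 0 ∧
    ∀ j : Fin 3, ∑ i : Fin 3, α i • (mo (k + 1) (i + j) 0 : MvPolynomial (Fin 3) K) ∈ A.ideal}

theorem exists_functional (I : Ideal (MvPolynomial (Fin 3) K)) (d : ℕ)
    (h : Module.finrank K (gr I d) = 1) :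
    ∃ φ : MvPolynomial (Fin 3) K →ₗ[K] K,
      ∀ f : MvPolynomial (Fin 3) K, f.IsHomogeneous d → (f ∈ I ↔ φ f = 0) := by
  have e : gr I d ≃ₗ[K] K := LinearEquiv.ofFinrankEq _ _ (by rw [h, Module.finrank_self])
  let ψ : MvPolynomial (Fin 3) K →ₗ[K] gr I d :=
    LinearMap.codRestrict (gr I d)
      ((Ideal.Quotient.mkₐ K I).toLinearMap ∘ₗ homogeneousComponent d)
      (fun f => mem_gr.2 ⟨homogeneousComponent d f, homogeneousComponent_isHomogeneous d f, rfl⟩)
  refine ⟨e.toLinearMap ∘ₗ ψ, ?_⟩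
  intro f hf
  have h1 : ((ψ f : gr I d) : MvPolynomial (Fin 3) K ⧸ I) = Ideal.Quotient.mk I f := by
    show Ideal.Quotient.mk I (homogeneousComponent d f) = _
    rw [homogeneousComponent_of_mem hf, if_pos rfl]
  rw [LinearMap.comp_apply, LinearEquiv.coe_coe, LinearEquiv.map_eq_zero_iff,
    ← Ideal.Quotient.eq_zero_iff_mem, ← h1]
  exact Submodule.coe_eq_zero

theorem mul_mem_hom {d : ℕ} {f : MvPolynomial (Fin 3) K} (hf : f.IsHomogeneous d) (e : ℕ)
    {g : MvPolynomial (Fin 3) K} (hg : g.IsHomogeneous e) {n : ℕ} (hn : d + e = n) :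
    (f * g).IsHomogeneous n := hn ▸ hf.mul hg

theorem eq_C_of_hom_zero {g : MvPolynomial (Fin 3) K} (hg : g.IsHomogeneous 0) :
    g = C (coeff 0 g) := by
  apply totalDegree_eq_zero_iff_eq_C.1
  exact Nat.le_zero.1 hg.totalDegree_le

theorem indep_X (I : Ideal (MvPolynomial (Fin 3) K)) (h : Module.finrank K (gr I 1) = 3)
    (β : Fin 3 → K) (hβ : ∑ i, β i • (X i : MvPolynomial (Fin 3) K) ∈ I) : β = 0 := by
  let v : Fin 3 → gr I 1 := fun i =>
    ⟨Ideal.Quotient.mk I (X i), mem_gr.2 ⟨X i, isHomogeneous_X K i, rfl⟩⟩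
  have hspan : ⊤ ≤ Submodule.span K (Set.range v) := by
    rintro ⟨a, ha⟩ _
    obtain ⟨f, hf, rfl⟩ := mem_gr.1 ha
    obtain ⟨g, hg, rfl⟩ := exists_decomp (j := 0) hf
    have : (⟨Ideal.Quotient.mk I (X 0 * g 0 + X 1 * g 1 + X 2 * g 2), ha⟩ : gr I 1) =
        coeff 0 (g 0) • v 0 + coeff 0 (g 1) • v 1 + coeff 0 (g 2) • v 2 := by
      apply Subtype.ext
      show Ideal.Quotient.mk I (X 0 * g 0 + X 1 * g 1 + X 2 * g 2) =
        coeff 0 (g 0) • Ideal.Quotient.mk I (X 0) + coeff 0 (g 1) • Ideal.Quotient.mk I (X 1) +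
          coeff 0 (g 2) • Ideal.Quotient.mk I (X 2)
      have e : ∀ (c : K) (p : MvPolynomial (Fin 3) K),
          c • Ideal.Quotient.mk I p = Ideal.Quotient.mk I (p * C c) := by
        intro c p
        rw [mul_comm, ← smul_eq_C_mul]; rfl
      rw [e, e, e, ← eq_C_of_hom_zero (hg 0), ← eq_C_of_hom_zero (hg 1),
        ← eq_C_of_hom_zero (hg 2), map_add, map_add]
    rw [this]
    have hm : ∀ i, v i ∈ Submodule.span K (Set.range v) := fun i =>
      Submodule.subset_span ⟨i, rfl⟩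
    exact Submodule.add_mem _ (Submodule.add_mem _ (Submodule.smul_mem _ _ (hm 0))
      (Submodule.smul_mem _ _ (hm 1))) (Submodule.smul_mem _ _ (hm 2))
  have hli := linearIndependent_of_top_le_span_of_card_eq_finrank hspan (by simp [h])
  have h0 : ∑ i, β i • v i = 0 := by
    apply Subtype.ext
    rw [Submodule.coe_sum, Submodule.coe_zero]
    rw [← Ideal.Quotient.eq_zero_iff_mem, map_sum] at hβ
    exact hβ
  funext i
  exact (Fintype.linearIndependent_iff.1 hli) β h0 i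

/-- The key step: no socle in degree one but socle in degree `k` forces the pairing to be
degenerate. -/
theorem mem_Zset {k : ℕ} (hk : 3 ≤ k) (A : GT K (Tk k)) (h1 : soc A.ideal 1 = ⊥)
    (h2 : soc A.ideal k ≠ ⊥) : A ∈ Zset K k := by
  have T1 : Tk k 1 = 3 := by simp only [Tk]; rw [if_neg (by omega), if_pos (by omega)]
  have T2 : Tk k 2 = 3 := by simp only [Tk]; rw [if_neg (by omega), if_pos (by omega)]
  have Tk' : Tk k k = 3 := by simp only [Tk]; rw [if_neg (by omega), if_pos (by omega)]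
  have Tk1 : Tk k (k + 1) = 1 := by
    simp [Tk]
  obtain ⟨I, hI, hH⟩ := A
  change ∀ i, Module.finrank K (gr I i) = Tk k i at hH
  simp only at h1 h2
  by_contra hA
  have hA' : ∀ α : Fin 3 → K, (∀ j : Fin 3, ∑ i : Fin 3, α i •
      (mo (k + 1) (i + j) 0 : MvPolynomial (Fin 3) K) ∈ I) → α = 0 := by
    intro α hα
    by_contra hne
    exact hA ⟨α, hne, hα⟩
  obtain ⟨φ, hφ⟩ := exists_functional I (k + 1) ((hH _).trans Tk1)
  -- the linear form
  obtain ⟨a, ha, ha0⟩ := Submodule.exists_mem_ne_zero_of_ne_bot h2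
  obtain ⟨hag, hax⟩ := mem_soc.1 ha
  let b := Module.finBasisOfFinrankEq K (gr I k) ((hH k).trans Tk')
  choose g hg hgb using fun j => mem_gr.1 (b j).2
  have hrepr : ∀ v : gr I k, (v : MvPolynomial (Fin 3) K ⧸ I) =
      Ideal.Quotient.mk I (∑ j, b.repr v j • g j) := by
    intro v
    conv_lhs => rw [← b.sum_repr v]
    rw [map_sum, Submodule.coe_sum]
    apply Finset.sum_congr rfl
    intro j _
    show b.repr v j • ((b j : gr I k) : MvPolynomial (Fin 3) K ⧸ I) = _
    rw [← hgb j]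
    rfl
  have hsum : ∀ c : Fin 3 → K, (∑ j, c j • g j).IsHomogeneous k := by
    intro c
    exact Submodule.sum_mem (homogeneousSubmodule (Fin 3) K k)
      (fun j _ => Submodule.smul_mem _ _ (hg j))
  let M : Matrix (Fin 3) (Fin 3) K := fun i j => φ (X i * g j)
  have hMα : M.mulVec (fun j => b.repr ⟨a, hag⟩ j) = 0 := by
    funext i
    have e1 : X i * (∑ j, b.repr ⟨a, hag⟩ j • g j) ∈ I := by
      rw [← xx_mk_eq_zero, ← hrepr]
      exact hax i
    have e2 := (hφ _ (X_mul_hom (hsum _) i)).1 e1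
    rw [Finset.mul_sum, map_sum] at e2
    rw [Matrix.mulVec, dotProduct, Pi.zero_apply, ← e2]
    apply Finset.sum_congr rfl
    intro j _
    rw [mul_smul_comm, map_smul, smul_eq_mul, mul_comm]
  have hdet : M.det = 0 := by
    apply Matrix.exists_mulVec_eq_zero_iff.1
    refine ⟨_, ?_, hMα⟩
    intro h
    have : b.repr ⟨a, hag⟩ = 0 := by
      ext j
      exact congrFun h j
    rw [LinearEquiv.map_eq_zero_iff] at this
    exact ha0 (congrArg Subtype.val this)
  obtain ⟨β, hβ0, hβ⟩ := Matrix.exists_vecMul_eq_zero_iff.2 hdet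
  set ℓ : MvPolynomial (Fin 3) K := ∑ i, β i • X i with hℓ
  have hℓhom : ℓ.IsHomogeneous 1 := by
    exact Submodule.sum_mem (homogeneousSubmodule (Fin 3) K 1)
      (fun j _ => Submodule.smul_mem _ _ (isHomogeneous_X K j))
  have hℓg : ∀ j, φ (ℓ * g j) = 0 := by
    intro j
    have e := congrFun hβ j
    rw [Matrix.vecMul, dotProduct, Pi.zero_apply] at e
    rw [hℓ, Finset.sum_mul, map_sum, ← e]
    apply Finset.sum_congr rfl
    intro i _
    rw [smul_mul_assoc, map_smul, smul_eq_mul]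
  have hℓR : ∀ f : MvPolynomial (Fin 3) K, f.IsHomogeneous k → φ (ℓ * f) = 0 := by
    intro f hf
    have hv : Ideal.Quotient.mk I f ∈ gr I k := mem_gr.2 ⟨f, hf, rfl⟩
    have e1 := hrepr ⟨_, hv⟩
    have e2 : f - ∑ j, b.repr ⟨_, hv⟩ j • g j ∈ I := Ideal.Quotient.eq.1 e1
    have e3 : ℓ * (f - ∑ j, b.repr ⟨_, hv⟩ j • g j) ∈ I := I.mul_mem_left _ e2
    have e4 := (hφ _ (mul_mem_hom hℓhom k
      (Submodule.sub_mem (homogeneousSubmodule (Fin 3) K k) hf (hsum _)) (by omega))).1 e3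
    rw [mul_sub, map_sub, sub_eq_zero] at e4
    rw [e4, Finset.mul_sum, map_sum]
    apply Finset.sum_eq_zero
    intro j _
    rw [mul_smul_comm, map_smul, hℓg, smul_zero]
  -- the perfect pairing
  let N : Matrix (Fin 3) (Fin 3) K := fun i j => φ (mo (k + 1) (i + j) 0)
  have hmoh : ∀ i j : Fin 3, (mo (k + 1) (i + j) 0 : MvPolynomial (Fin 3) K).IsHomogeneous
      (k + 1) := by
    intro i j
    exact mo_hom _ _ _ (by omega)
  have hN : ∀ α : Fin 3 → K, Matrix.vecMul α N = 0 → α = 0 := by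
    intro α hα
    apply hA'
    intro j
    have e := congrFun hα j
    rw [Matrix.vecMul, dotProduct, Pi.zero_apply] at e
    rw [hφ _ (Submodule.sum_mem (homogeneousSubmodule (Fin 3) K (k + 1))
      (fun i _ => Submodule.smul_mem _ _ (hmoh i j))), map_sum, ← e]
    apply Finset.sum_congr rfl
    intro i _
    rw [map_smul, smul_eq_mul]
  have hmo2 : ∀ i : Fin 3, (mo 2 i 0 : MvPolynomial (Fin 3) K).IsHomogeneous 2 := fun i =>
    mo_hom 2 i 0 (by omega)
  have hmoν : ∀ i : Fin 3, (mo (k - 1) i 0 : MvPolynomial (Fin 3) K).IsHomogeneous (k - 1) :=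
    fun i => mo_hom (k - 1) i 0 (by omega)
  -- pairing a combination of the `μ`s
  have hpair : ∀ (α : Fin 3 → K) (j : Fin 3),
      φ ((∑ i, α i • mo 2 i 0) * mo (k - 1) j 0) = Matrix.vecMul α N j := by
    intro α j
    rw [Finset.sum_mul, map_sum, Matrix.vecMul, dotProduct]
    apply Finset.sum_congr rfl
    intro i _
    rw [smul_mul_assoc, map_smul, smul_eq_mul, mo_mul k hk]
  have hμhom : ∀ α : Fin 3 → K,
      (∑ i, α i • (mo 2 i 0 : MvPolynomial (Fin 3) K)).IsHomogeneous 2 := fun α =>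
    Submodule.sum_mem (homogeneousSubmodule (Fin 3) K 2)
      (fun i _ => Submodule.smul_mem _ _ (hmo2 i))
  let μ : Fin 3 → gr I 2 := fun i => ⟨Ideal.Quotient.mk I (mo 2 i 0), mem_gr.2 ⟨_, hmo2 i, rfl⟩⟩
  have hμsum : ∀ α : Fin 3 → K, ((∑ i, α i • μ i : gr I 2) : MvPolynomial (Fin 3) K ⧸ I) =
      Ideal.Quotient.mk I (∑ i, α i • mo 2 i 0) := by
    intro α
    rw [Submodule.coe_sum, map_sum]
    rfl
  have hli : LinearIndependent K μ := by
    rw [Fintype.linearIndependent_iff]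
    intro α hα
    have e1 : ∑ i, α i • (mo 2 i 0 : MvPolynomial (Fin 3) K) ∈ I := by
      rw [← Ideal.Quotient.eq_zero_iff_mem, ← hμsum, hα]; rfl
    have : α = 0 := by
      apply hN
      funext j
      rw [← hpair, Pi.zero_apply]
      exact (hφ _ (mul_mem_hom (hμhom α) (k - 1) (hmoν j) (by omega))).1 (I.mul_mem_right _ e1)
    intro i
    exact congrFun this i
  have hspan : Submodule.span K (Set.range μ) = ⊤ :=
    hli.span_eq_top_of_card_eq_finrank' (by rw [(hH 2).trans T2]; simp)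
  -- `ℓ` is in the socle
  have hℓsoc : Ideal.Quotient.mk I ℓ ∈ soc I 1 := by
    rw [mem_soc]
    refine ⟨mem_gr.2 ⟨ℓ, hℓhom, rfl⟩, fun j => xx_mk_eq_zero.2 ?_⟩
    have hq : (X j * ℓ).IsHomogeneous 2 := X_mul_hom hℓhom j
    have hqmem : Ideal.Quotient.mk I (X j * ℓ) ∈ gr I 2 := mem_gr.2 ⟨_, hq, rfl⟩
    have : (⟨_, hqmem⟩ : gr I 2) ∈ Submodule.span K (Set.range μ) := by
      rw [hspan]; trivial
    obtain ⟨α, hα⟩ := (Submodule.mem_span_range_iff_exists_fun K).1 this
    have e1 : X j * ℓ - ∑ i, α i • mo 2 i 0 ∈ I := by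
      apply Ideal.Quotient.eq.1
      rw [← hμsum, hα]
    have hα0 : α = 0 := by
      apply hN
      funext j'
      rw [← hpair, Pi.zero_apply]
      have e2 := (hφ _ (mul_mem_hom (Submodule.sub_mem (homogeneousSubmodule (Fin 3) K 2) hq
        (hμhom α)) (k - 1) (hmoν j') (by omega))).1 (I.mul_mem_right _ e1)
      rw [sub_mul, map_sub, sub_eq_zero] at e2
      rw [← e2]
      have e3 : X j * ℓ * mo (k - 1) j' 0 = ℓ * (X j * mo (k - 1) j' 0) := by ring
      rw [e3]
      apply hℓR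
      have := X_mul_hom (hmoν j') j
      have hk1 : k - 1 + 1 = k := by omega
      rwa [hk1] at this
    rw [hα0] at e1
    simpa using e1
  rw [h1, Submodule.mem_bot, Ideal.Quotient.eq_zero_iff_mem] at hℓsoc
  exact hβ0 (indep_X I ((hH 1).trans T1) β hℓsoc)

end Pool.V1148.Frontier
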