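import Mathlib

/-!
# Betti strata of the family `G_T` of graded quotients of `K[x,y,z]` with Hilbert function `T`
-/

open MvPolynomial

namespace Pool.V1148.Frontier

/-! ### Graded Betti numbers, as dimensions of graded pieces of Koszul homology -/

section koszul

variable {K : Type*} [Field K] {A : Type*} [CommRing A] [Algebra K A]

/-- The degree `j` piece of the shifted module `A(-s)`, where `A` has graded pieces `G`. -/
def shift (G : ℕ → Submodule K A) (s j : ℕ) : Submodule K A :=
  if s ≤ j then G (j - s) else ⊥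

/-- The degree `j` piece of `A(-s)³`. -/
def shift3 (G : ℕ → Submodule K A) (s j : ℕ) : Submodule K (Fin 3 → A) :=
  Submodule.pi Set.univ (fun _ => shift G s j)

/-- The Koszul differential `A(-1)³ → A` of the elements `x 0, x 1, x 2`. -/
def kd1 (K : Type*) [Field K] {A : Type*} [CommRing A] [Algebra K A] (x : Fin 3 → A) :
    (Fin 3 → A) →ₗ[K] A where
  toFun v := x 0 * v 0 + x 1 * v 1 + x 2 * v 2
  map_add' u v := by simp only [Pi.add_apply]; ring
  map_smul' a v := by simp

/-- The Koszul differential `A(-2)³ → A(-1)³`. -/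
def kd2 (K : Type*) [Field K] {A : Type*} [CommRing A] [Algebra K A] (x : Fin 3 → A) :
    (Fin 3 → A) →ₗ[K] (Fin 3 → A) where
  toFun v := ![x 1 * v 2 - x 2 * v 1, x 2 * v 0 - x 0 * v 2, x 0 * v 1 - x 1 * v 0]
  map_add' u v := by
    ext i; fin_cases i <;> simp <;> ring
  map_smul' a v := by
    ext i; fin_cases i <;> simp [smul_sub]

/-- The Koszul differential `A(-3) → A(-2)³`. -/
def kd3 (K : Type*) [Field K] {A : Type*} [CommRing A] [Algebra K A] (x : Fin 3 → A) :
    A →ₗ[K] (Fin 3 → A) where
  toFun a := ![x 0 * a, x 1 * a, x 2 * a]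
  map_add' u v := by
    ext i; fin_cases i <;> simp <;> ring
  map_smul' a v := by
    ext i; fin_cases i <;> simp

/-- The dimension of a subspace. -/
noncomputable def dimS {V : Type*} [AddCommGroup V] [Module K V] (Z : Submodule K V) : ℕ :=
  Module.finrank K Z

/-- `dim (Z / B)` for subspaces `B ⊆ Z`. -/
noncomputable def dimQ {V : Type*} [AddCommGroup V] [Module K V] (Z B : Submodule K V) : ℕ :=
  Module.finrank K (Z ⧸ B.submoduleOf Z)

/-- Dimension of the degree `j` piece of the zeroth Koszul homology. -/
noncomputable def kh0 (G : ℕ → Submodule K A) (x : Fin 3 → A) (j : ℕ) : ℕ :=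
  dimQ (shift G 0 j) ((shift3 G 1 j).map (kd1 K x))

/-- Dimension of the degree `j` piece of the first Koszul homology. -/
noncomputable def kh1 (G : ℕ → Submodule K A) (x : Fin 3 → A) (j : ℕ) : ℕ :=
  dimQ (shift3 G 1 j ⊓ LinearMap.ker (kd1 K x)) ((shift3 G 2 j).map (kd2 K x))

/-- Dimension of the degree `j` piece of the second Koszul homology. -/
noncomputable def kh2 (G : ℕ → Submodule K A) (x : Fin 3 → A) (j : ℕ) : ℕ :=
  dimQ (shift3 G 2 j ⊓ LinearMap.ker (kd2 K x)) ((shift G 3 j).map (kd3 K x))

/-- Dimension of the degree `j` piece of the third Koszul homology. -/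
noncomputable def kh3 (G : ℕ → Submodule K A) (x : Fin 3 → A) (j : ℕ) : ℕ :=
  dimS (shift G 3 j ⊓ LinearMap.ker (kd3 K x))

/-- The dimension of the degree `j` piece of the `i`-th homology of the Koszul complex
`0 → A(-3) → A(-2)³ → A(-1)³ → A → 0` of the elements `x 0, x 1, x 2`. -/
noncomputable def khom (G : ℕ → Submodule K A) (x : Fin 3 → A) : ℕ → ℕ → ℕ
  | 0, j => kh0 G x j
  | 1, j => kh1 G x j
  | 2, j => kh2 G x j
  | 3, j => kh3 G x j
  | _ + 4, _ => 0

end koszul

variable {K : Type*} [Field K]

/-- The graded piece `(R / I)_i` of `R / I`, `R = K[x,y,z]`: the image of the forms of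
degree `i`. -/
noncomputable def gr (I : Ideal (MvPolynomial (Fin 3) K)) (i : ℕ) :
    Submodule K (MvPolynomial (Fin 3) K ⧸ I) :=
  (homogeneousSubmodule (Fin 3) K i).map (Ideal.Quotient.mkₐ K I).toLinearMap

/-- The class of a variable in `R / I`. -/
noncomputable def xx (I : Ideal (MvPolynomial (Fin 3) K)) (a : Fin 3) :
    MvPolynomial (Fin 3) K ⧸ I := Ideal.Quotient.mk I (X a)

/-- The Hilbert function of `R / I`. -/
noncomputable def hilb (I : Ideal (MvPolynomial (Fin 3) K)) (i : ℕ) : ℕ :=
  dimS (gr I i)

/-- `I` is a homogeneous ideal. -/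
def IsHomog (I : Ideal (MvPolynomial (Fin 3) K)) : Prop :=
  ∀ f ∈ I, ∀ n, homogeneousComponent n f ∈ I

/-- The graded Betti number `β_{i,j}(R / I) = dim Tor_i(R / I, K)_j`: the dimension of the
degree `j` piece of the `i`-th homology of the Koszul complex of `x, y, z` on `R / I`. -/
noncomputable def betti (I : Ideal (MvPolynomial (Fin 3) K)) : ℕ → ℕ → ℕ :=
  khom (gr I) (xx I)

/-- `G_T`: the homogeneous ideals `I` of `R = K[x,y,z]` with `dim (R / I)_i = T i` for
all `i`. -/
structure GT (K : Type*) [Field K] (T : ℕ → ℕ) where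
  /-- the ideal -/
  ideal : Ideal (MvPolynomial (Fin 3) K)
  homog : IsHomog ideal
  hilbert : ∀ i, hilb ideal i = T i

/-! ### The Zariski topology on `G_T` -/

/-- The monomials of degree `i` in three variables. -/
abbrev Mono (i : ℕ) : Type := {m : Fin 3 →₀ ℕ // m.degree = i}

/-- Index set of the entries of a family of matrices: for every degree `i`, a matrix with `T i`
rows, and columns indexed by the monomials of degree `i`. -/
abbrev Coord (T : ℕ → ℕ) : Type := Σ i : ℕ, Fin (T i) × Mono i

/-- The `r`-th linear functional on forms of degree `i` given by the family of matrices `c`. -/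
noncomputable def lam {T : ℕ → ℕ} (c : Coord T → K) (i : ℕ) (r : Fin (T i))
    (f : MvPolynomial (Fin 3) K) : K :=
  ∑ᶠ m : Mono i, c ⟨i, r, m⟩ * coeff m.1 f

/-- A presentation of a point `I` of `G_T`: for every degree `i`, a matrix with `T i` rows whose
kernel (on forms of degree `i`) is `I_i`. (As `R_i / I_i` has dimension `T i`, the matrix has
independent rows.) -/
structure Pres (K : Type*) [Field K] (T : ℕ → ℕ) where
  /-- the point of `G_T` -/
  pt : GT K T
  /-- the entries of the matrices -/
  c : Coord T → K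
  presents : ∀ (i : ℕ) (f : MvPolynomial (Fin 3) K), f.IsHomogeneous i →
    (f ∈ pt.ideal ↔ ∀ r : Fin (T i), lam c i r f = 0)

/-- The Zariski topology on the presentations: it is induced from the Zariski topology of the
affine space of all families of matrices. -/
noncomputable instance presTop (T : ℕ → ℕ) : TopologicalSpace (Pres K T) :=
  TopologicalSpace.induced
    (fun p => MvPolynomial.pointToPoint (k := K) (σ := Coord T) p.c)
    PrimeSpectrum.zariskiTopology

/-- The Zariski topology on `G_T` (a subvariety of a product of Grassmannians): the quotient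
topology from the space of presentations. -/
noncomputable instance gtTop (T : ℕ → ℕ) : TopologicalSpace (GT K T) :=
  TopologicalSpace.coinduced Pres.pt (presTop T)

/-- The Betti stratum of `G_T` of a Betti table `β`. -/
def stratum (K : Type*) [Field K] (T : ℕ → ℕ) (β : ℕ → ℕ → ℕ) : Set (GT K T) :=
  {A | betti A.ideal = β}

/-- The frontier property: the Zariski closure in `G_T` of every Betti stratum is a union of
Betti strata. -/
def FrontierProperty (K : Type*) [Field K] (T : ℕ → ℕ) : Prop :=
  ∀ β : ℕ → ℕ → ℕ, ∃ S : Set (ℕ → ℕ → ℕ),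
    closure (stratum K T β) = ⋃ β' ∈ S, stratum K T β'

/-- The sequence `T = (1, 3^k, 1)`: `1, 3, …, 3, 1, 0, 0, …` with `k` entries equal to `3`. -/
def Tk (k : ℕ) : ℕ → ℕ := fun i =>
  if i = 0 then 1 else if i ≤ k then 3 else if i = k + 1 then 1 else 0

end Pool.V1148.Frontier
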