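import Pool.Agent.V1148.FrRank

/-!
# The family of ideals
-/

open MvPolynomial

namespace Pool.V1148.Frontier

variable {K : Type*} [Field K]

/-- indicator of the monomials `x^* y^p z^q`. -/
def dl (p q : ℕ) (m : Fin 3 →₀ ℕ) : K := if m 1 = p ∧ m 2 = q then 1 else 0

/-- weighted sum of the coefficients of degree `i`. -/
noncomputable def ws (w : (Fin 3 →₀ ℕ) → K) (i : ℕ) (f : MvPolynomial (Fin 3) K) : K :=
  ∑ m : Mono i, w m.1 * coeff m.1 f

theorem ws_add (w : (Fin 3 →₀ ℕ) → K) (i : ℕ) (f g : MvPolynomial (Fin 3) K) :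
    ws w i (f + g) = ws w i f + ws w i g := by
  simp [ws, mul_add, Finset.sum_add_distrib]

theorem ws_smul (w : (Fin 3 →₀ ℕ) → K) (i : ℕ) (a : K) (f : MvPolynomial (Fin 3) K) :
    ws w i (a • f) = a * ws w i f := by
  simp only [ws, coeff_smul, smul_eq_mul, Finset.mul_sum]
  exact Finset.sum_congr rfl (fun m _ => by ring)

theorem ws_zero (w : (Fin 3 →₀ ℕ) → K) (i : ℕ) : ws w i 0 = 0 := by
  simp [ws]

/-- as a linear map -/
noncomputable def wsL (w : (Fin 3 →₀ ℕ) → K) (i : ℕ) : MvPolynomial (Fin 3) K →ₗ[K] K where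
  toFun f := ws w i f
  map_add' := ws_add w i
  map_smul' a f := by simp [ws_smul]

theorem ws_sub (w : (Fin 3 →₀ ℕ) → K) (i : ℕ) (f g : MvPolynomial (Fin 3) K) :
    ws w i (f - g) = ws w i f - ws w i g := map_sub (wsL w i) f g

theorem ws_shift (w : (Fin 3 →₀ ℕ) → K) (i : ℕ) (j : Fin 3) (f : MvPolynomial (Fin 3) K) :
    ws w (i + 1) (X j * f) = ws (fun m => w (m + Finsupp.single j 1)) i f := by
  symm
  unfold ws
  let e : Mono i → Mono (i + 1) := fun m => ⟨m.1 + Finsupp.single j 1, by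
    rw [map_add, m.2, Finsupp.degree_single]⟩
  apply Fintype.sum_of_injective e
  · intro m m' h
    have := congrArg Subtype.val h
    exact Subtype.ext (add_right_cancel this)
  · intro m hm
    rw [coeff_X_mul']
    rw [if_neg, mul_zero]
    intro hj
    apply hm
    have hle : Finsupp.single j 1 ≤ m.1 := by
      rw [Finsupp.single_le_iff]
      have := Finsupp.mem_support_iff.1 hj
      omega
    refine ⟨⟨m.1 - Finsupp.single j 1, ?_⟩, ?_⟩
    · have h2 : m.1 - Finsupp.single j 1 + Finsupp.single j 1 = m.1 := tsub_add_cancel_of_le hle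
      have := congrArg Finsupp.degree h2
      rw [map_add, m.2, Finsupp.degree_single] at this
      omega
    · exact Subtype.ext (tsub_add_cancel_of_le hle)
  · intro m
    show _ = w (m.1 + Finsupp.single j 1) * coeff (m.1 + Finsupp.single j 1) (X j * f)
    have : coeff (m.1 + Finsupp.single j 1) (X j * f) = coeff m.1 f := by
      rw [add_comm m.1, coeff_X_mul]
    rw [this]

theorem ws_X_zero (w : (Fin 3 →₀ ℕ) → K) (j : Fin 3) (f : MvPolynomial (Fin 3) K) :
    ws w 0 (X j * f) = 0 := by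
  unfold ws
  apply Finset.sum_eq_zero
  intro m _
  have h0 : m.1 = 0 := by
    have := m.2
    ext a
    have h2 := Finsupp.le_degree a m.1
    rw [this] at h2
    simpa using h2
  rw [h0, coeff_X_mul', if_neg (by simp), mul_zero]

theorem ws_homogeneousComponent (w : (Fin 3 →₀ ℕ) → K) (i n : ℕ) (f : MvPolynomial (Fin 3) K) :
    ws w i (homogeneousComponent n f) = if i = n then ws w i f else 0 := by
  unfold ws
  split_ifs with h
  · subst h
    apply Finset.sum_congr rfl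
    intro m _
    rw [coeff_homogeneousComponent, if_pos m.2]
  · apply Finset.sum_eq_zero
    intro m _
    rw [coeff_homogeneousComponent, if_neg (by rw [m.2]; exact h), mul_zero]

theorem ws_of_ne (w : (Fin 3 →₀ ℕ) → K) {i n : ℕ} {f : MvPolynomial (Fin 3) K}
    (hf : f.IsHomogeneous n) (h : i ≠ n) : ws w i f = 0 := by
  have := ws_homogeneousComponent w i n f
  rw [homogeneousComponent_of_mem hf, if_neg h] at this
  simpa using this

theorem ws_congr {w w' : (Fin 3 →₀ ℕ) → K} (i : ℕ) (f : MvPolynomial (Fin 3) K)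
    (h : ∀ m, m.degree = i → w m = w' m) : ws w i f = ws w' i f := by
  unfold ws
  exact Finset.sum_congr rfl (fun m _ => by rw [h m.1 m.2])

/-- the coefficient of `x^(i-p-q) y^p z^q`. -/
noncomputable def cf (i p q : ℕ) (f : MvPolynomial (Fin 3) K) : K := ws (dl p q) i f

theorem cf_X0 (i p q : ℕ) (f : MvPolynomial (Fin 3) K) :
    cf (i + 1) p q (X 0 * f) = cf i p q f := by
  unfold cf; rw [ws_shift]; apply ws_congr; intro m _; simp [dl]

theorem cf_X1 (i p q : ℕ) (f : MvPolynomial (Fin 3) K) :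
    cf (i + 1) (p + 1) q (X 1 * f) = cf i p q f := by
  unfold cf; rw [ws_shift]; apply ws_congr; intro m _; simp [dl]

theorem cf_X1_zero (i q : ℕ) (f : MvPolynomial (Fin 3) K) :
    cf (i + 1) 0 q (X 1 * f) = 0 := by
  unfold cf; rw [ws_shift]
  rw [ws_congr (w' := fun _ => 0) i f (by intro m _; simp [dl])]
  simp [ws]

theorem cf_X2 (i p q : ℕ) (f : MvPolynomial (Fin 3) K) :
    cf (i + 1) p (q + 1) (X 2 * f) = cf i p q f := by
  unfold cf; rw [ws_shift]; apply ws_congr; intro m _; simp [dl]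

theorem cf_X2_zero (i p : ℕ) (f : MvPolynomial (Fin 3) K) :
    cf (i + 1) p 0 (X 2 * f) = 0 := by
  unfold cf; rw [ws_shift]
  rw [ws_congr (w' := fun _ => 0) i f (by intro m _; simp [dl])]
  simp [ws]

theorem cf_add (i p q : ℕ) (f g : MvPolynomial (Fin 3) K) :
    cf i p q (f + g) = cf i p q f + cf i p q g := ws_add _ _ _ _

theorem cf_sub (i p q : ℕ) (f g : MvPolynomial (Fin 3) K) :
    cf i p q (f - g) = cf i p q f - cf i p q g := ws_sub _ _ _ _

theorem cf_smul (i p q : ℕ) (a : K) (f : MvPolynomial (Fin 3) K) :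
    cf i p q (a • f) = a * cf i p q f := ws_smul _ _ _ _

theorem cf_zero (i p q : ℕ) : cf i p q (0 : MvPolynomial (Fin 3) K) = 0 := ws_zero _ _

theorem cf_big (i p q : ℕ) (h : i < p + q) (f : MvPolynomial (Fin 3) K) : cf i p q f = 0 := by
  unfold cf
  rw [ws_congr (w' := fun _ => 0) i f]
  · simp [ws]
  · intro m hm
    unfold dl
    rw [if_neg]
    rintro ⟨h1, h2⟩
    rw [Finsupp.degree_eq_sum, Fin.sum_univ_three, h1, h2] at hm
    omega

theorem cf_of_ne (p q : ℕ) {i n : ℕ} {f : MvPolynomial (Fin 3) K}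
    (hf : f.IsHomogeneous n) (h : i ≠ n) : cf i p q f = 0 := ws_of_ne _ hf h

/-- the exponent of `x^(i-p-q) y^p z^q`. -/
noncomputable def ex (i p q : ℕ) : Fin 3 →₀ ℕ := Finsupp.equivFunOnFinite.symm ![i - p - q, p, q]

theorem ex_degree (i p q : ℕ) (h : p + q ≤ i) : (ex i p q).degree = i := by
  rw [Finsupp.degree_eq_sum, Fin.sum_univ_three]
  simp [ex]
  omega

/-- the monomial `x^(i-p-q) y^p z^q`. -/
noncomputable def mo (i p q : ℕ) : MvPolynomial (Fin 3) K := monomial (ex i p q) 1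

theorem mo_hom (i p q : ℕ) (h : p + q ≤ i) : (mo i p q : MvPolynomial (Fin 3) K).IsHomogeneous i :=
  isHomogeneous_monomial _ (ex_degree i p q h)

theorem ws_monomial (w : (Fin 3 →₀ ℕ) → K) {i : ℕ} {m : Fin 3 →₀ ℕ} (hm : m.degree = i) (a : K) :
    ws w i (monomial m a) = w m * a := by
  unfold ws
  rw [Finset.sum_eq_single (⟨m, hm⟩ : Mono i)]
  · simp
  · intro b _ hb
    rw [coeff_monomial, if_neg, mul_zero]
    intro h
    exact hb (Subtype.ext h.symm)
  · simp

theorem cf_mo (i p q p' q' : ℕ) (h : p + q ≤ i) :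
    cf i p' q' (mo i p q : MvPolynomial (Fin 3) K) = if p = p' ∧ q = q' then 1 else 0 := by
  unfold cf mo
  rw [ws_monomial _ (ex_degree i p q h)]
  simp [dl, ex]

/-- the condition in degree `i` for membership in the ideal of the family. -/
def Cond (k : ℕ) (t a b : K) (i : ℕ) (f : MvPolynomial (Fin 3) K) : Prop :=
  (i = 0 → cf 0 0 0 f = 0) ∧
  (i = 1 → cf 1 0 0 f = 0 ∧ cf 1 1 0 f = 0 ∧ cf 1 0 1 f = 0) ∧
  (2 ≤ i → i ≤ k → cf i 0 0 f = 0 ∧ cf i 1 0 f = 0 ∧ cf i 2 0 f + t * cf i 0 1 f = 0) ∧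
  (i = k + 1 → a * cf i 1 0 f + b * (cf i 2 0 f + t * cf i 0 1 f) = 0)

theorem Cond.add {k : ℕ} {t a b : K} {i : ℕ} {f g : MvPolynomial (Fin 3) K}
    (hf : Cond k t a b i f) (hg : Cond k t a b i g) : Cond k t a b i (f + g) := by
  obtain ⟨f0, f1, f2, f3⟩ := hf
  obtain ⟨g0, g1, g2, g3⟩ := hg
  refine ⟨fun h => ?_, fun h => ?_, fun h h' => ?_, fun h => ?_⟩
  · rw [cf_add, f0 h, g0 h, add_zero]
  · obtain ⟨a1, a2, a3⟩ := f1 h
    obtain ⟨b1, b2, b3⟩ := g1 h
    rw [cf_add, cf_add, cf_add, a1, a2, a3, b1, b2, b3]; simp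
  · obtain ⟨a1, a2, a3⟩ := f2 h h'
    obtain ⟨b1, b2, b3⟩ := g2 h h'
    rw [cf_add, cf_add, cf_add, cf_add, a1, a2, b1, b2]
    refine ⟨by simp, by simp, ?_⟩
    linear_combination a3 + b3
  · have h1 := f3 h
    have h2 := g3 h
    rw [cf_add, cf_add, cf_add]
    linear_combination h1 + h2

theorem Cond.smul {k : ℕ} {t a b : K} {i : ℕ} {f : MvPolynomial (Fin 3) K} (c : K)
    (hf : Cond k t a b i f) : Cond k t a b i (c • f) := by
  obtain ⟨f0, f1, f2, f3⟩ := hf
  refine ⟨fun h => ?_, fun h => ?_, fun h h' => ?_, fun h => ?_⟩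
  · rw [cf_smul, f0 h, mul_zero]
  · obtain ⟨a1, a2, a3⟩ := f1 h
    rw [cf_smul, cf_smul, cf_smul, a1, a2, a3]; simp
  · obtain ⟨a1, a2, a3⟩ := f2 h h'
    rw [cf_smul, cf_smul, cf_smul, cf_smul, a1, a2]
    refine ⟨by simp, by simp, ?_⟩
    linear_combination c * a3
  · have h1 := f3 h
    rw [cf_smul, cf_smul, cf_smul]
    linear_combination c * h1

theorem Cond.zero (k : ℕ) (t a b : K) (i : ℕ) : Cond k t a b i 0 := by
  refine ⟨fun _ => ?_, fun _ => ?_, fun _ _ => ?_, fun _ => ?_⟩ <;> simp [cf_zero]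

theorem Cond.X {k : ℕ} (hk : 2 ≤ k) {t a b : K} {i : ℕ} {f : MvPolynomial (Fin 3) K} (j : Fin 3)
    (hf : Cond k t a b i f) : Cond k t a b (i + 1) (MvPolynomial.X j * f) := by
  obtain ⟨f0, f1, f2, f3⟩ := hf
  have c0 : i = 0 → cf i 0 0 f = 0 := by rintro rfl; exact f0 rfl
  refine ⟨fun h => by omega, fun h => ?_, fun h h' => ?_, fun h => ?_⟩
  · obtain rfl : i = 0 := by omega
    have h1 : ∀ p q, 0 < p + q → cf 0 p q f = 0 := fun p q h => cf_big 0 p q h f
    obtain rfl | rfl | rfl : j = 0 ∨ j = 1 ∨ j = 2 := by fin_cases j <;> simp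
    · exact ⟨by rw [cf_X0, f0 rfl], by rw [cf_X0, h1 _ _ (by omega)],
        by rw [cf_X0, h1 _ _ (by omega)]⟩
    · exact ⟨by rw [cf_X1_zero], by rw [cf_X1, f0 rfl],
        by rw [cf_X1_zero]⟩
    · exact ⟨by rw [cf_X2_zero], by rw [cf_X2_zero],
        by rw [cf_X2, f0 rfl]⟩
  · have key : cf i 0 0 f = 0 ∧ cf i 1 0 f = 0 ∧ cf i 2 0 f + t * cf i 0 1 f = 0 := by
      by_cases h1 : i = 1
      · subst h1
        obtain ⟨a1, a2, a3⟩ := f1 rfl
        exact ⟨a1, a2, by rw [a3, cf_big 1 2 0 (by omega)]; simp⟩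
      · exact f2 (by omega) (by omega)
    obtain ⟨a1, a2, a3⟩ := key
    obtain rfl | rfl | rfl : j = 0 ∨ j = 1 ∨ j = 2 := by fin_cases j <;> simp
    · rw [cf_X0, cf_X0, cf_X0, cf_X0]
      exact ⟨a1, a2, a3⟩
    · rw [cf_X1_zero, cf_X1_zero, cf_X1, cf_X1]
      exact ⟨rfl, a1, by rw [a2]; simp⟩
    · rw [cf_X2_zero, cf_X2_zero, cf_X2_zero, cf_X2]
      exact ⟨rfl, rfl, by rw [a1]; simp⟩
  · obtain rfl : i = k := by omega
    obtain ⟨a1, a2, a3⟩ := f2 hk le_rfl
    obtain rfl | rfl | rfl : j = 0 ∨ j = 1 ∨ j = 2 := by fin_cases j <;> simp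
    · rw [cf_X0, cf_X0, cf_X0, a2, a3]; simp
    · rw [cf_X1_zero, cf_X1, cf_X1, a1, a2]; simp
    · rw [cf_X2_zero, cf_X2_zero, cf_X2, a1]; simp

theorem Cond.X_zero {k : ℕ} {t a b : K} {f : MvPolynomial (Fin 3) K} (j : Fin 3) :
    Cond k t a b 0 (MvPolynomial.X j * f) := by
  refine ⟨fun _ => ws_X_zero _ _ _, fun h => by omega, fun h h' => by omega, fun h => by omega⟩

/-- The ideal of the family. -/
noncomputable def Ifam (k : ℕ) (hk : 2 ≤ k) (t a b : K) : Ideal (MvPolynomial (Fin 3) K) where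
  carrier := {f | ∀ i, Cond k t a b i f}
  add_mem' := fun hf hg i => (hf i).add (hg i)
  zero_mem' := fun i => Cond.zero k t a b i
  smul_mem' := by
    intro g
    induction g using MvPolynomial.induction_on with
    | C c =>
      intro f hf i
      rw [smul_eq_mul, ← smul_eq_C_mul]
      exact (hf i).smul c
    | add g g' hg hg' =>
      intro f hf i
      rw [add_smul]
      exact (hg hf i).add (hg' hf i)
    | mul_X g j hg =>
      intro f hf i
      rw [smul_eq_mul, mul_assoc]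
      refine hg (x := MvPolynomial.X j * f) ?_ i
      intro i
      rcases Nat.eq_zero_or_pos i with rfl | hi
      · exact Cond.X_zero j
      · obtain ⟨i', rfl⟩ : ∃ i', i = i' + 1 := ⟨i - 1, by omega⟩
        exact (hf i').X hk j

theorem mem_Ifam {k : ℕ} {hk : 2 ≤ k} {t a b : K} {f : MvPolynomial (Fin 3) K} :
    f ∈ Ifam k hk t a b ↔ ∀ i, Cond k t a b i f := Iff.rfl

theorem mem_Ifam_hom {k : ℕ} {hk : 2 ≤ k} {t a b : K} {i : ℕ} {f : MvPolynomial (Fin 3) K}
    (hf : f.IsHomogeneous i) : f ∈ Ifam k hk t a b ↔ Cond k t a b i f := by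
  rw [mem_Ifam]
  constructor
  · intro h; exact h i
  · intro h n
    by_cases hn : n = i
    · rw [hn]; exact h
    · have h0 : ∀ p q, cf n p q f = 0 := fun p q => cf_of_ne p q hf hn
      refine ⟨?_, ?_, ?_, ?_⟩
      · rintro rfl; exact h0 _ _
      · rintro rfl; exact ⟨h0 _ _, h0 _ _, h0 _ _⟩
      · intro _ _; rw [h0, h0, h0, h0]; simp
      · intro _; rw [h0, h0, h0]; simp

theorem Ifam_homogeneous {k : ℕ} {hk : 2 ≤ k} {t a b : K} :
    IsHomog (Ifam k hk t a b) := by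
  intro f hf i
  rw [mem_Ifam_hom (homogeneousComponent_isHomogeneous i f)]
  have hc := mem_Ifam.1 hf i
  have h0 : ∀ p q, cf i p q (homogeneousComponent i f) = cf i p q f := by
    intro p q
    unfold cf
    rw [ws_homogeneousComponent, if_pos rfl]
  obtain ⟨f0, f1, f2, f3⟩ := hc
  refine ⟨?_, ?_, ?_, ?_⟩
  · rintro rfl; rw [h0]; exact f0 rfl
  · rintro rfl; rw [h0, h0, h0]; exact f1 rfl
  · intro a b; rw [h0, h0, h0, h0]; exact f2 a b
  · intro a; rw [h0, h0, h0]; exact f3 a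

end Pool.V1148.Frontier
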