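import Pool.Agent.V1148.FrFam

/-!
# Hilbert function, presentations and socles of the family
-/

open MvPolynomial

namespace Pool.V1148.Frontier

variable {K : Type*} [Field K]

theorem finrank_gr (I : Ideal (MvPolynomial (Fin 3) K)) (i n : ℕ)
    (φ : MvPolynomial (Fin 3) K →ₗ[K] (Fin n → K))
    (hk : ∀ f : MvPolynomial (Fin 3) K, f.IsHomogeneous i → (f ∈ I ↔ φ f = 0))
    (hs : ∀ u, ∃ f : MvPolynomial (Fin 3) K, f.IsHomogeneous i ∧ φ f = u) :
    Module.finrank K (gr I i) = n := by
  have h1 := rank_nullity (Ideal.Quotient.mkₐ K I).toLinearMap (homogeneousSubmodule (Fin 3) K i)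
  have h2 := rank_nullity φ (homogeneousSubmodule (Fin 3) K i)
  have h3 : (homogeneousSubmodule (Fin 3) K i).map φ = ⊤ := by
    rw [eq_top_iff]
    intro u _
    obtain ⟨f, hf, hfu⟩ := hs u
    exact ⟨f, hf, hfu⟩
  have h4 : homogeneousSubmodule (Fin 3) K i ⊓
      LinearMap.ker (Ideal.Quotient.mkₐ K I).toLinearMap =
      homogeneousSubmodule (Fin 3) K i ⊓ LinearMap.ker φ := by
    ext f
    simp only [Submodule.mem_inf, LinearMap.mem_ker]
    constructor
    · rintro ⟨hf, h⟩
      exact ⟨hf, (hk f hf).1 (Ideal.Quotient.eq_zero_iff_mem.1 h)⟩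
    · rintro ⟨hf, h⟩
      exact ⟨hf, Ideal.Quotient.eq_zero_iff_mem.2 ((hk f hf).2 h)⟩
  rw [h3, finrank_top] at h2
  rw [h4] at h1
  rw [Module.finrank_fin_fun] at h2
  unfold gr
  omega

/-- `cf` as a linear map. -/
noncomputable def cfL (i p q : ℕ) : MvPolynomial (Fin 3) K →ₗ[K] K := wsL (dl p q) i

theorem cfL_apply (i p q : ℕ) (f : MvPolynomial (Fin 3) K) : cfL i p q f = cf i p q f := rfl

section fam

variable (k : ℕ) (hk : 2 ≤ k) (t a b : K)

theorem finrank_fam_zero : Module.finrank K (gr (Ifam k hk t a b) 0) = 1 := by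
  apply finrank_gr _ 0 1 (LinearMap.pi ![cfL 0 0 0])
  · intro f hf
    rw [mem_Ifam_hom hf]
    constructor
    · intro h
      ext r
      fin_cases r
      exact h.1 rfl
    · intro h
      refine ⟨fun _ => congrFun h 0, fun h => by omega, fun h _ => by omega, fun h => by omega⟩
  · intro u
    refine ⟨u 0 • mo 0 0 0, ?_, ?_⟩
    · exact (homogeneousSubmodule (Fin 3) K 0).smul_mem _ (mo_hom 0 0 0 (by omega))
    · ext r
      fin_cases r
      show cf 0 0 0 (u 0 • mo 0 0 0) = u 0
      rw [cf_smul, cf_mo _ _ _ _ _ (by omega)]; simp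

theorem finrank_fam_one : Module.finrank K (gr (Ifam k hk t a b) 1) = 3 := by
  apply finrank_gr _ 1 3 (LinearMap.pi ![cfL 1 0 0, cfL 1 1 0, cfL 1 0 1])
  · intro f hf
    rw [mem_Ifam_hom hf]
    constructor
    · intro h
      obtain ⟨h1, h2, h3⟩ := h.2.1 rfl
      ext r
      fin_cases r
      · exact h1
      · exact h2
      · exact h3
    · intro h
      refine ⟨fun h => by omega, fun _ => ⟨congrFun h 0, congrFun h 1, congrFun h 2⟩,
        fun h _ => by omega, fun h => by omega⟩
  · intro u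
    refine ⟨u 0 • mo 1 0 0 + u 1 • mo 1 1 0 + u 2 • mo 1 0 1, ?_, ?_⟩
    · refine Submodule.add_mem (homogeneousSubmodule (Fin 3) K 1) (Submodule.add_mem _ ?_ ?_) ?_
      · exact (homogeneousSubmodule (Fin 3) K 1).smul_mem _ (mo_hom 1 0 0 (by omega))
      · exact (homogeneousSubmodule (Fin 3) K 1).smul_mem _ (mo_hom 1 1 0 (by omega))
      · exact (homogeneousSubmodule (Fin 3) K 1).smul_mem _ (mo_hom 1 0 1 (by omega))
    · have key : ∀ p q, cf 1 p q (u 0 • mo 1 0 0 + u 1 • mo 1 1 0 + u 2 • mo 1 0 1) =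
          u 0 * (if 0 = p ∧ 0 = q then 1 else 0) + u 1 * (if 1 = p ∧ 0 = q then 1 else 0) +
            u 2 * (if 0 = p ∧ 1 = q then 1 else 0) := by
        intro p q
        rw [cf_add, cf_add, cf_smul, cf_smul, cf_smul, cf_mo _ _ _ _ _ (by omega),
          cf_mo _ _ _ _ _ (by omega), cf_mo _ _ _ _ _ (by omega)]
      ext r
      fin_cases r
      · refine (key 0 0).trans ?_; simp
      · refine (key 1 0).trans ?_; simp
      · refine (key 0 1).trans ?_; simp

theorem finrank_fam_mid (i : ℕ) (h2 : 2 ≤ i) (h3 : i ≤ k) :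
    Module.finrank K (gr (Ifam k hk t a b) i) = 3 := by
  apply finrank_gr _ i 3 (LinearMap.pi ![cfL i 0 0, cfL i 1 0, cfL i 2 0 + t • cfL i 0 1])
  · intro f hf
    rw [mem_Ifam_hom hf]
    constructor
    · intro h
      obtain ⟨h1, h2, h3⟩ := h.2.2.1 h2 h3
      ext r
      fin_cases r
      · exact h1
      · exact h2
      · exact h3
    · intro h
      refine ⟨fun h => by omega, fun _ => by omega,
        fun _ _ => ⟨congrFun h 0, congrFun h 1, congrFun h 2⟩, fun h => by omega⟩
  · intro u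
    refine ⟨u 0 • mo i 0 0 + u 1 • mo i 1 0 + u 2 • mo i 2 0, ?_, ?_⟩
    · refine Submodule.add_mem (homogeneousSubmodule (Fin 3) K i) (Submodule.add_mem _ ?_ ?_) ?_
      · exact (homogeneousSubmodule (Fin 3) K i).smul_mem _ (mo_hom i 0 0 (by omega))
      · exact (homogeneousSubmodule (Fin 3) K i).smul_mem _ (mo_hom i 1 0 (by omega))
      · exact (homogeneousSubmodule (Fin 3) K i).smul_mem _ (mo_hom i 2 0 (by omega))
    · have key : ∀ p q, cf i p q (u 0 • mo i 0 0 + u 1 • mo i 1 0 + u 2 • mo i 2 0) =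
          u 0 * (if 0 = p ∧ 0 = q then 1 else 0) + u 1 * (if 1 = p ∧ 0 = q then 1 else 0) +
            u 2 * (if 2 = p ∧ 0 = q then 1 else 0) := by
        intro p q
        rw [cf_add, cf_add, cf_smul, cf_smul, cf_smul, cf_mo _ _ _ _ _ (by omega),
          cf_mo _ _ _ _ _ (by omega), cf_mo _ _ _ _ _ (by omega)]
      ext r
      fin_cases r
      · refine (key 0 0).trans ?_; simp
      · refine (key 1 0).trans ?_; simp
      · show cf i 2 0 _ + t * cf i 0 1 _ = u 2
        rw [key, key]; simp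

theorem finrank_fam_top (hab : ∃ α β : K, a * α + b * β = 1) :
    Module.finrank K (gr (Ifam k hk t a b) (k + 1)) = 1 := by
  obtain ⟨α, β, hαβ⟩ := hab
  apply finrank_gr _ (k + 1) 1 (LinearMap.pi
    ![a • cfL (k + 1) 1 0 + b • (cfL (k + 1) 2 0 + t • cfL (k + 1) 0 1)])
  · intro f hf
    rw [mem_Ifam_hom hf]
    constructor
    · intro h
      ext r
      fin_cases r
      exact h.2.2.2 rfl
    · intro h
      refine ⟨fun h => by omega, fun _ => by omega, fun h _ => by omega, fun _ => congrFun h 0⟩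
  · intro u
    refine ⟨(u 0 * α) • mo (k + 1) 1 0 + (u 0 * β) • mo (k + 1) 2 0, ?_, ?_⟩
    · refine Submodule.add_mem (homogeneousSubmodule (Fin 3) K (k + 1)) ?_ ?_
      · exact (homogeneousSubmodule (Fin 3) K (k + 1)).smul_mem _ (mo_hom (k + 1) 1 0 (by omega))
      · exact (homogeneousSubmodule (Fin 3) K (k + 1)).smul_mem _ (mo_hom (k + 1) 2 0 (by omega))
    · have key : ∀ p q, cf (k + 1) p q ((u 0 * α) • mo (k + 1) 1 0 + (u 0 * β) •
          mo (k + 1) 2 0) = (u 0 * α) * (if 1 = p ∧ 0 = q then 1 else 0) +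
            (u 0 * β) * (if 2 = p ∧ 0 = q then 1 else 0) := by
        intro p q
        rw [cf_add, cf_smul, cf_smul, cf_mo _ _ _ _ _ (by omega), cf_mo _ _ _ _ _ (by omega)]
      ext r
      fin_cases r
      show a * cf (k + 1) 1 0 _ + b * (cf (k + 1) 2 0 _ + t * cf (k + 1) 0 1 _) = u 0
      rw [key, key, key]
      simp
      linear_combination u 0 * hαβ

theorem finrank_fam_big (i : ℕ) (hi : k + 2 ≤ i) :
    Module.finrank K (gr (Ifam k hk t a b) i) = 0 := by
  apply finrank_gr _ i 0 0
  · intro f hf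
    rw [mem_Ifam_hom hf]
    constructor
    · intro h
      rfl
    · intro h
      refine ⟨fun h => by omega, fun _ => by omega, fun h _ => by omega, fun _ => by omega⟩
  · intro u
    exact ⟨0, isHomogeneous_zero _ _ _, Subsingleton.elim _ _⟩

theorem finrank_fam (hab : ∃ α β : K, a * α + b * β = 1) (i : ℕ) :
    Module.finrank K (gr (Ifam k hk t a b) i) = Tk k i := by
  unfold Tk
  split_ifs with h0 h1 h2
  · subst h0; exact finrank_fam_zero k hk t a b
  · by_cases h3 : i = 1
    · subst h3; exact finrank_fam_one k hk t a b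
    · exact finrank_fam_mid k hk t a b i (by omega) h1
  · subst h2; exact finrank_fam_top k hk t a b hab
  · exact finrank_fam_big k hk t a b i (by omega)

/-- The points of the family. -/
noncomputable def pt (hab : ∃ α β : K, a * α + b * β = 1) : GT K (Tk k) :=
  ⟨Ifam k hk t a b, Ifam_homogeneous, finrank_fam k hk t a b hab⟩

/-- The weights of the presentation. -/
def wt (i r : ℕ) (m : Fin 3 →₀ ℕ) : K :=
  if i = 0 then dl 0 0 m
  else if i = 1 then (if r = 0 then dl 0 0 m else if r = 1 then dl 1 0 m else dl 0 1 m)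
  else if i ≤ k then
    (if r = 0 then dl 0 0 m else if r = 1 then dl 1 0 m else dl 2 0 m + t * dl 0 1 m)
  else a * dl 1 0 m + b * (dl 2 0 m + t * dl 0 1 m)

/-- The presentation. -/
def cc : Coord (Tk k) → K := fun x => wt k t a b x.1 x.2.1.val x.2.2.1

theorem lam_cc (i : ℕ) (r : Fin (Tk k i)) (f : MvPolynomial (Fin 3) K) :
    lam (cc k t a b) i r f = ws (wt k t a b i r.1) i f := by
  rw [lam_eq]; rfl

theorem ws_comb (w w' : (Fin 3 →₀ ℕ) → K) (s : K) (i : ℕ) (f : MvPolynomial (Fin 3) K) :
    ws (fun m => w m + s * w' m) i f = ws w i f + s * ws w' i f := by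
  unfold ws
  rw [Finset.mul_sum, ← Finset.sum_add_distrib]
  exact Finset.sum_congr rfl (fun m _ => by ring)

theorem ws_comb3 (w w' w'' : (Fin 3 →₀ ℕ) → K) (i : ℕ) (f : MvPolynomial (Fin 3) K) :
    ws (fun m => a * w m + b * (w' m + t * w'' m)) i f =
      a * ws w i f + b * (ws w' i f + t * ws w'' i f) := by
  unfold ws
  rw [Finset.mul_sum, Finset.mul_sum, ← Finset.sum_add_distrib, Finset.mul_sum,
    ← Finset.sum_add_distrib]
  exact Finset.sum_congr rfl (fun m _ => by ring)

include hk in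
theorem cond_iff (i : ℕ) (f : MvPolynomial (Fin 3) K) :
    Cond k t a b i f ↔ ∀ r : Fin (Tk k i), lam (cc k t a b) i r f = 0 := by
  simp only [lam_cc]
  rw [Fin.forall_iff]
  by_cases h0 : i = 0
  · subst h0
    have hT : Tk k 0 = 1 := by simp [Tk]
    have hw : ∀ r, ws (wt k t a b 0 r) 0 f = cf 0 0 0 f := by
      intro r; unfold cf; apply ws_congr; intro m _; simp [wt]
    simp only [hT, hw]
    constructor
    · intro h r hr; exact h.1 rfl
    · intro h
      exact ⟨fun _ => h 0 (by omega), fun h => by omega, fun h _ => by omega, fun h => by omega⟩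
  by_cases h1 : i = 1
  · subst h1
    have hT : Tk k 1 = 3 := by simp only [Tk]; rw [if_neg (by omega), if_pos (by omega)]
    have hw0 : ws (wt k t a b 1 0) 1 f = cf 1 0 0 f := by
      unfold cf; apply ws_congr; intro m _; simp [wt]
    have hw1 : ws (wt k t a b 1 1) 1 f = cf 1 1 0 f := by
      unfold cf; apply ws_congr; intro m _; simp [wt]
    have hw2 : ws (wt k t a b 1 2) 1 f = cf 1 0 1 f := by
      unfold cf; apply ws_congr; intro m _; simp [wt]
    rw [hT]
    constructor
    · intro h r hr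
      obtain ⟨a1, a2, a3⟩ := h.2.1 rfl
      obtain rfl | rfl | rfl : r = 0 ∨ r = 1 ∨ r = 2 := by omega
      · rw [hw0, a1]
      · rw [hw1, a2]
      · rw [hw2, a3]
    · intro h
      exact ⟨fun h => by omega, fun _ => ⟨hw0 ▸ h 0 (by omega), hw1 ▸ h 1 (by omega),
        hw2 ▸ h 2 (by omega)⟩, fun h _ => by omega, fun h => by omega⟩
  by_cases h2 : i ≤ k
  · have hT : Tk k i = 3 := by simp only [Tk]; rw [if_neg (by omega), if_pos (by omega)]
    have hw0 : ws (wt k t a b i 0) i f = cf i 0 0 f := by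
      unfold cf; apply ws_congr; intro m _; simp [wt, h0, h1, h2]
    have hw1 : ws (wt k t a b i 1) i f = cf i 1 0 f := by
      unfold cf; apply ws_congr; intro m _; simp [wt, h0, h1, h2]
    have hw2 : ws (wt k t a b i 2) i f = cf i 2 0 f + t * cf i 0 1 f := by
      unfold cf; rw [← ws_comb]; apply ws_congr; intro m _; simp [wt, h0, h1, h2]
    rw [hT]
    constructor
    · intro h r hr
      obtain ⟨a1, a2, a3⟩ := h.2.2.1 (by omega) h2
      obtain rfl | rfl | rfl : r = 0 ∨ r = 1 ∨ r = 2 := by omega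
      · rw [hw0, a1]
      · rw [hw1, a2]
      · rw [hw2, a3]
    · intro h
      exact ⟨fun h => by omega, fun h => by omega, fun _ _ => ⟨hw0 ▸ h 0 (by omega),
        hw1 ▸ h 1 (by omega), hw2 ▸ h 2 (by omega)⟩, fun h => by omega⟩
  by_cases h3 : i = k + 1
  · have hT : Tk k i = 1 := by
      simp only [Tk]; rw [if_neg (by omega), if_neg (by omega), if_pos h3]
    have hw : ∀ r, ws (wt k t a b i r) i f =
        a * cf i 1 0 f + b * (cf i 2 0 f + t * cf i 0 1 f) := by
      intro r
      unfold cf; rw [← ws_comb3]; apply ws_congr; intro m _; simp [wt, h0, h1, h2]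
    simp only [hT, hw]
    constructor
    · intro h r hr; exact h.2.2.2 h3
    · intro h
      exact ⟨fun h => by omega, fun h => by omega, fun h _ => by omega, fun _ => h 0 (by omega)⟩
  · have hT : Tk k i = 0 := by
      simp only [Tk]; rw [if_neg (by omega), if_neg (by omega), if_neg h3]
    rw [hT]
    constructor
    · intro h r hr; omega
    · intro h
      exact ⟨fun h => by omega, fun h => by omega, fun h _ => by omega, fun h => by omega⟩

/-- The presentation of a point of the family. -/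
noncomputable def pres (hab : ∃ α β : K, a * α + b * β = 1) : Pres K (Tk k) where
  pt := pt k hk t a b hab
  c := cc k t a b
  presents := by
    intro i f hf
    rw [← cond_iff k hk]
    exact mem_Ifam_hom (hk := hk) hf

end fam

end Pool.V1148.Frontier
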