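import Pool.Agent.V1148.FrFam2

/-!
# Socles of the family
-/

open MvPolynomial

namespace Pool.V1148.Frontier

variable {K : Type*} [Field K]

theorem X_mul_hom {d : ℕ} {f : MvPolynomial (Fin 3) K} (hf : f.IsHomogeneous d) (j : Fin 3) :
    (X j * f).IsHomogeneous (d + 1) := by
  have := (isHomogeneous_X K j).mul hf
  rwa [add_comm] at this

theorem xx_mk_eq_zero {I : Ideal (MvPolynomial (Fin 3) K)} {f : MvPolynomial (Fin 3) K}
    {j : Fin 3} : xx I j * Ideal.Quotient.mk I f = 0 ↔ X j * f ∈ I := by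
  unfold xx
  rw [← map_mul, Ideal.Quotient.eq_zero_iff_mem]

theorem finrank_span_one {V : Type*} [AddCommGroup V] [Module K V] {p : Submodule K V} {v : V}
    (hv : v ≠ 0) (h1 : v ∈ p) (h2 : ∀ w ∈ p, ∃ c : K, w = c • v) : Module.finrank K p = 1 := by
  have : p = Submodule.span K {v} := by
    apply le_antisymm
    · intro w hw
      obtain ⟨c, rfl⟩ := h2 w hw
      exact Submodule.smul_mem _ _ (Submodule.mem_span_singleton_self v)
    · rw [Submodule.span_singleton_le_iff_mem]; exact h1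
  rw [this]
  exact finrank_span_singleton hv

section fam

variable (k : ℕ) (hk : 2 ≤ k)

theorem mk_mo_ne {t a b : K} {i p q : ℕ} (h : p + q ≤ i)
    (hc : ¬ Cond k t a b i (mo i p q)) : Ideal.Quotient.mk (Ifam k hk t a b) (mo i p q) ≠ 0 := by
  rw [Ne, Ideal.Quotient.eq_zero_iff_mem, mem_Ifam_hom (mo_hom i p q h)]
  exact hc

theorem z_kills (a b : K) (d : ℕ) (hd : 1 ≤ d) (v) (hv : v ∈ gr (Ifam k hk 0 a b) d) :
    xx (Ifam k hk 0 a b) 2 * v = 0 := by
  obtain ⟨f, hf, rfl⟩ := mem_gr.1 hv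
  rw [xx_mk_eq_zero, mem_Ifam_hom (X_mul_hom hf 2)]
  refine ⟨fun h => by omega, fun h => by omega, fun _ _ => ?_, fun _ => ?_⟩
  · rw [cf_X2_zero, cf_X2_zero, cf_X2_zero]; simp
  · rw [cf_X2_zero, cf_X2_zero]; simp

theorem d2_zero (t a b : K) : Module.finrank K
    ((Submodule.pi Set.univ (fun _ : Fin 3 => gr (Ifam k hk t a b) 0)).map
      (d2 (Ifam k hk t a b))) = 3 := by
  set I := Ifam k hk t a b with hI
  have : FiniteDimensional K (Submodule.pi Set.univ (fun _ : Fin 3 => gr I 0)) :=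
    Module.Finite.equiv (piEquiv _).symm
  have h1 := rank_nullity (d2 I) (Submodule.pi Set.univ (fun _ : Fin 3 => gr I 0))
  have h2 : Submodule.pi Set.univ (fun _ : Fin 3 => gr I 0) ⊓ LinearMap.ker (d2 I) = ⊥ := by
    rw [eq_bot_iff]
    rintro v ⟨hv, h⟩
    have hv' : ∀ a, v a ∈ gr I 0 := fun a => hv a (Set.mem_univ a)
    rw [SetLike.mem_coe, LinearMap.mem_ker] at h
    choose f hf hfv using fun a => mem_gr.1 (hv' a)
    have hz : ∀ g : MvPolynomial (Fin 3) K, g.IsHomogeneous 0 → cf 0 0 0 g = 0 → g ∈ I := by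
      intro g hg h0
      rw [hI, mem_Ifam_hom hg]
      exact ⟨fun _ => h0, fun h => by omega, fun h _ => by omega, fun h => by omega⟩
    have e0 : X 1 * f 2 - X 2 * f 1 ∈ I := by
      rw [← Ideal.Quotient.eq_zero_iff_mem, map_sub, map_mul, map_mul, hfv, hfv]
      exact congrFun h 0
    have e1 : X 2 * f 0 - X 0 * f 2 ∈ I := by
      rw [← Ideal.Quotient.eq_zero_iff_mem, map_sub, map_mul, map_mul, hfv, hfv]
      exact congrFun h 1
    have c0 := (mem_Ifam.1 e0 1).2.1 rfl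
    have c1 := (mem_Ifam.1 e1 1).2.1 rfl
    have k2 : cf 0 0 0 (f 2) = 0 := by
      have := c0.2.1
      rwa [cf_sub, cf_X1 0 0 0, cf_X2_zero 0 1, sub_zero] at this
    have k1 : cf 0 0 0 (f 1) = 0 := by
      have := c0.2.2
      rw [cf_sub, cf_X1_zero 0 1, cf_X2 0 0 0, zero_sub, neg_eq_zero] at this
      exact this
    have k0 : cf 0 0 0 (f 0) = 0 := by
      have := c1.2.2
      rw [cf_sub, cf_X2 0 0 0, cf_X0 0 0 1, cf_big 0 0 1 (by omega), sub_zero] at this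
      exact this
    rw [Submodule.mem_bot]
    ext j
    rw [← hfv j]
    rw [Pi.zero_apply, Ideal.Quotient.eq_zero_iff_mem]
    apply hz _ (hf j)
    fin_cases j
    · exact k0
    · exact k1
    · exact k2
  rw [h2, finrank_bot, finrank_pi3, hI, finrank_fam_zero k hk t a b] at h1
  rw [hI]
  omega

theorem soc_zero (t a b : K) : soc (Ifam k hk t a b) 0 = ⊥ := by
  rw [eq_bot_iff]
  intro v hv
  obtain ⟨hv, hv'⟩ := mem_soc.1 hv
  obtain ⟨f, hf, rfl⟩ := mem_gr.1 hv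
  have h := hv' 0
  rw [xx_mk_eq_zero, mem_Ifam_hom (X_mul_hom hf 0)] at h
  have := (h.2.1 rfl).1
  rw [cf_X0 0 0 0] at this
  rw [Submodule.mem_bot, Ideal.Quotient.eq_zero_iff_mem, mem_Ifam_hom hf]
  exact ⟨fun _ => this, fun h => by omega, fun h _ => by omega, fun h => by omega⟩

theorem soc_mid (t a b : K) (d : ℕ) (h2 : 2 ≤ d) (hdk : d < k) :
    soc (Ifam k hk t a b) d = ⊥ := by
  rw [eq_bot_iff]
  intro v hv
  obtain ⟨hv, hv'⟩ := mem_soc.1 hv
  obtain ⟨f, hf, rfl⟩ := mem_gr.1 hv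
  have h := hv' 0
  rw [xx_mk_eq_zero, mem_Ifam_hom (X_mul_hom hf 0)] at h
  have := (h.2.2.1 (by omega) (by omega))
  rw [cf_X0, cf_X0, cf_X0, cf_X0] at this
  rw [Submodule.mem_bot, Ideal.Quotient.eq_zero_iff_mem, mem_Ifam_hom hf]
  exact ⟨fun h => by omega, fun h => by omega, fun _ _ => this, fun h => by omega⟩

theorem soc_one_bot {t : K} (ht : t ≠ 0) (a b : K) : soc (Ifam k hk t a b) 1 = ⊥ := by
  rw [eq_bot_iff]
  intro v hv
  obtain ⟨hv, hv'⟩ := mem_soc.1 hv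
  obtain ⟨f, hf, rfl⟩ := mem_gr.1 hv
  have h := hv' 0
  rw [xx_mk_eq_zero, mem_Ifam_hom (X_mul_hom hf 0)] at h
  obtain ⟨h1, h2, h3⟩ := h.2.2.1 le_rfl hk
  rw [cf_X0] at h1 h2
  rw [cf_X0, cf_X0, cf_big 1 2 0 (by omega), zero_add] at h3
  rw [Submodule.mem_bot, Ideal.Quotient.eq_zero_iff_mem, mem_Ifam_hom hf]
  refine ⟨fun h => by omega, fun h => ⟨h1, h2, ?_⟩, fun h _ => by omega, fun h => by omega⟩
  exact (mul_eq_zero.1 h3).resolve_left ht

theorem soc_one_dim (a b : K) : Module.finrank K (soc (Ifam k hk 0 a b) 1) = 1 := by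
  set I := Ifam k hk 0 a b with hI
  have hmo : (mo 1 0 1 : MvPolynomial (Fin 3) K).IsHomogeneous 1 := mo_hom 1 0 1 (by omega)
  have hX : ∀ j : Fin 3, X j * (mo 1 0 1 : MvPolynomial (Fin 3) K) ∈ I := by
    intro j
    rw [hI, mem_Ifam_hom (X_mul_hom hmo j)]
    refine ⟨fun h => by omega, fun h => by omega, fun _ _ => ?_, fun _ => by omega⟩
    obtain rfl | rfl | rfl : j = 0 ∨ j = 1 ∨ j = 2 := by fin_cases j <;> simp
    · rw [cf_X0, cf_X0, cf_X0, cf_mo _ _ _ _ _ (by omega), cf_mo _ _ _ _ _ (by omega),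
        cf_mo _ _ _ _ _ (by omega)]
      simp
    · rw [cf_X1_zero, cf_X1, cf_X1, cf_mo _ _ _ _ _ (by omega), cf_mo _ _ _ _ _ (by omega)]
      simp
    · rw [cf_X2_zero, cf_X2_zero, cf_X2_zero]
      simp
  apply finrank_span_one (v := Ideal.Quotient.mk I (mo 1 0 1))
  · apply mk_mo_ne k hk (by omega)
    intro h
    have := (h.2.1 rfl).2.2
    rw [cf_mo _ _ _ _ _ (by omega)] at this
    simp at this
  · rw [mem_soc]
    exact ⟨mem_gr.2 ⟨_, hmo, rfl⟩, fun j => xx_mk_eq_zero.2 (hX j)⟩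
  · intro v hv
    obtain ⟨hv, hv'⟩ := mem_soc.1 hv
    obtain ⟨f, hf, rfl⟩ := mem_gr.1 hv
    have h := hv' 0
    rw [xx_mk_eq_zero, hI, mem_Ifam_hom (X_mul_hom hf 0)] at h
    obtain ⟨h1, h2, h3⟩ := h.2.2.1 le_rfl hk
    rw [cf_X0] at h1 h2
    refine ⟨cf 1 0 1 f, ?_⟩
    have : f - cf 1 0 1 f • mo 1 0 1 ∈ I := by
      rw [hI, mem_Ifam_hom ((homogeneousSubmodule (Fin 3) K 1).sub_mem hf
        ((homogeneousSubmodule (Fin 3) K 1).smul_mem _ hmo))]
      refine ⟨fun h => by omega, fun h => ?_, fun h _ => by omega, fun h => by omega⟩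
      rw [cf_sub, cf_sub, cf_sub, cf_smul, cf_smul, cf_smul, cf_mo _ _ _ _ _ (by omega),
        cf_mo _ _ _ _ _ (by omega), cf_mo _ _ _ _ _ (by omega), h1, h2]
      simp
    exact Ideal.Quotient.eq.2 this

theorem soc_k_dim {a b : K} (hab : a = 1 ∧ b = 0 ∨ a = 0 ∧ b = 1) :
    Module.finrank K (soc (Ifam k hk 0 a b) k) = 1 := by
  set I := Ifam k hk 0 a b with hI
  rcases hab with ⟨ha, hb⟩ | ⟨ha, hb⟩
  · have hmo : (mo k 2 0 : MvPolynomial (Fin 3) K).IsHomogeneous k := mo_hom k 2 0 (by omega)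
    apply finrank_span_one (v := Ideal.Quotient.mk I (mo k 2 0))
    · apply mk_mo_ne k hk (by omega)
      intro h
      have := (h.2.2.1 hk le_rfl).2.2
      rw [cf_mo _ _ _ _ _ (by omega)] at this
      simp at this
    · rw [mem_soc]
      refine ⟨mem_gr.2 ⟨_, hmo, rfl⟩, fun j => xx_mk_eq_zero.2 ?_⟩
      rw [hI, mem_Ifam_hom (X_mul_hom hmo j)]
      refine ⟨fun h => by omega, fun h => by omega, fun _ _ => by omega, fun _ => ?_⟩
      obtain rfl | rfl | rfl : j = 0 ∨ j = 1 ∨ j = 2 := by fin_cases j <;> simp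
      · rw [cf_X0, cf_mo _ _ _ _ _ (by omega), hb]
        simp
      · rw [cf_X1, cf_mo _ _ _ _ _ (by omega), hb]
        simp
      · rw [cf_X2_zero, hb]
        simp
    · intro v hv
      obtain ⟨hv, hv'⟩ := mem_soc.1 hv
      obtain ⟨f, hf, rfl⟩ := mem_gr.1 hv
      have g0 := hv' 0
      have g1 := hv' 1
      rw [xx_mk_eq_zero, hI, mem_Ifam_hom (X_mul_hom hf _)] at g0 g1
      have h1 := g0.2.2.2 rfl
      have h2 := g1.2.2.2 rfl
      rw [cf_X0, ha, hb] at h1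
      rw [cf_X1, ha, hb] at h2
      refine ⟨cf k 2 0 f, ?_⟩
      have : f - cf k 2 0 f • mo k 2 0 ∈ I := by
        rw [hI, mem_Ifam_hom ((homogeneousSubmodule (Fin 3) K k).sub_mem hf
          ((homogeneousSubmodule (Fin 3) K k).smul_mem _ hmo))]
        refine ⟨fun h => by omega, fun h => by omega, fun _ _ => ?_, fun h => by omega⟩
        rw [cf_sub, cf_sub, cf_sub, cf_smul, cf_smul, cf_smul, cf_mo _ _ _ _ _ (by omega),
          cf_mo _ _ _ _ _ (by omega), cf_mo _ _ _ _ _ (by omega)]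
        refine ⟨by simpa using h2, by simpa using h1, by simp⟩
      exact Ideal.Quotient.eq.2 this
  · have hmo : (mo k 0 0 : MvPolynomial (Fin 3) K).IsHomogeneous k := mo_hom k 0 0 (by omega)
    apply finrank_span_one (v := Ideal.Quotient.mk I (mo k 0 0))
    · apply mk_mo_ne k hk (by omega)
      intro h
      have := (h.2.2.1 hk le_rfl).1
      rw [cf_mo _ _ _ _ _ (by omega)] at this
      simp at this
    · rw [mem_soc]
      refine ⟨mem_gr.2 ⟨_, hmo, rfl⟩, fun j => xx_mk_eq_zero.2 ?_⟩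
      rw [hI, mem_Ifam_hom (X_mul_hom hmo j)]
      refine ⟨fun h => by omega, fun h => by omega, fun _ _ => by omega, fun _ => ?_⟩
      obtain rfl | rfl | rfl : j = 0 ∨ j = 1 ∨ j = 2 := by fin_cases j <;> simp
      · rw [cf_X0, cf_X0, cf_mo _ _ _ _ _ (by omega), cf_mo _ _ _ _ _ (by omega)]
        simp
      · rw [cf_X1, cf_X1, cf_mo _ _ _ _ _ (by omega), cf_mo _ _ _ _ _ (by omega), ha]
        simp
      · rw [cf_X2_zero, cf_X2_zero, ha]
        simp
    · intro v hv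
      obtain ⟨hv, hv'⟩ := mem_soc.1 hv
      obtain ⟨f, hf, rfl⟩ := mem_gr.1 hv
      have g0 := hv' 0
      have g1 := hv' 1
      rw [xx_mk_eq_zero, hI, mem_Ifam_hom (X_mul_hom hf _)] at g0 g1
      have h1 := g0.2.2.2 rfl
      have h2 := g1.2.2.2 rfl
      rw [cf_X0, cf_X0, ha, hb] at h1
      rw [cf_X1, cf_X1, ha, hb] at h2
      refine ⟨cf k 0 0 f, ?_⟩
      have : f - cf k 0 0 f • mo k 0 0 ∈ I := by
        rw [hI, mem_Ifam_hom ((homogeneousSubmodule (Fin 3) K k).sub_mem hf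
          ((homogeneousSubmodule (Fin 3) K k).smul_mem _ hmo))]
        refine ⟨fun h => by omega, fun h => by omega, fun _ _ => ?_, fun h => by omega⟩
        rw [cf_sub, cf_sub, cf_sub, cf_smul, cf_smul, cf_smul, cf_mo _ _ _ _ _ (by omega),
          cf_mo _ _ _ _ _ (by omega), cf_mo _ _ _ _ _ (by omega)]
        refine ⟨by simp, by simpa using h2, by simpa using h1⟩
      exact Ideal.Quotient.eq.2 this

theorem gr_bot {I : Ideal (MvPolynomial (Fin 3) K)} {i : ℕ}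
    (h : Module.finrank K (gr I i) = 0) : gr I i = ⊥ := Submodule.finrank_eq_zero.1 h

theorem soc_top (t a b : K) (hab : ∃ α β : K, a * α + b * β = 1) :
    Module.finrank K (soc (Ifam k hk t a b) (k + 1)) = 1 := by
  have h1 : soc (Ifam k hk t a b) (k + 1) = gr (Ifam k hk t a b) (k + 1) := by
    ext v
    rw [mem_soc]
    constructor
    · exact fun h => h.1
    · intro h
      refine ⟨h, fun j => ?_⟩
      have := xx_mul_mem h j
      rw [gr_bot (finrank_fam_big k hk t a b (k + 1 + 1) (by omega))] at this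
      exact (Submodule.mem_bot K).1 this
  rw [h1]
  exact finrank_fam_top k hk t a b hab

theorem soc_big (t a b : K) (d : ℕ) (hd : k + 2 ≤ d) :
    Module.finrank K (soc (Ifam k hk t a b) d) = 0 := by
  have h1 : soc (Ifam k hk t a b) d = ⊥ := by
    rw [eq_bot_iff, ← gr_bot (finrank_fam_big k hk t a b d hd)]
    exact inf_le_left
  rw [h1, finrank_bot]

theorem soc_dim (hk3 : 3 ≤ k) {a b : K} (hab : a = 1 ∧ b = 0 ∨ a = 0 ∧ b = 1) (d : ℕ) :
    Module.finrank K (soc (Ifam k hk 0 a b) d) =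
      if d = 1 then 1 else if d = k then 1 else if d = k + 1 then 1 else 0 := by
  have hab' : ∃ α β : K, a * α + b * β = 1 := by
    rcases hab with ⟨rfl, rfl⟩ | ⟨rfl, rfl⟩
    · exact ⟨1, 0, by simp⟩
    · exact ⟨0, 1, by simp⟩
  split_ifs with h1 h2 h3
  · rw [h1]; exact soc_one_dim k hk a b
  · subst h2; exact soc_k_dim d hk hab
  · rw [h3]; exact soc_top k hk 0 a b hab'
  · rcases Nat.lt_or_ge d k with h | h
    · rcases Nat.lt_or_ge d 2 with h' | h'
      · obtain rfl : d = 0 := by omega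
        rw [soc_zero, finrank_bot]
      · rw [soc_mid k hk 0 a b d h' h, finrank_bot]
    · exact soc_big k hk 0 a b d (by omega)

theorem betti_special (hk3 : 3 ≤ k) :
    betti (Ifam k hk (0 : K) 1 0) = betti (Ifam k hk (0 : K) 0 1) := by
  apply betti_congr
  · exact z_kills k hk 1 0
  · exact z_kills k hk 0 1
  · exact d2_zero k hk 0 1 0
  · exact d2_zero k hk 0 0 1
  · intro i
    rw [finrank_fam k hk 0 1 0 ⟨1, 0, by simp⟩, finrank_fam k hk 0 0 1 ⟨0, 1, by simp⟩]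
  · intro i
    rw [soc_dim k hk hk3 (Or.inl ⟨rfl, rfl⟩), soc_dim k hk hk3 (Or.inr ⟨rfl, rfl⟩)]

theorem soc_k_ne (t : K) : soc (Ifam k hk t 1 0) k ≠ ⊥ := by
  have hmo : (mo k 2 0 : MvPolynomial (Fin 3) K).IsHomogeneous k := mo_hom k 2 0 (by omega)
  intro h
  have hmem : Ideal.Quotient.mk (Ifam k hk t 1 0) (mo k 2 0) ∈ soc (Ifam k hk t 1 0) k := by
    rw [mem_soc]
    refine ⟨mem_gr.2 ⟨_, hmo, rfl⟩, fun j => xx_mk_eq_zero.2 ?_⟩
    rw [mem_Ifam_hom (X_mul_hom hmo j)]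
    refine ⟨fun h => by omega, fun h => by omega, fun _ _ => by omega, fun _ => ?_⟩
    obtain rfl | rfl | rfl : j = 0 ∨ j = 1 ∨ j = 2 := by fin_cases j <;> simp
    · rw [cf_X0, cf_mo _ _ _ _ _ (by omega)]
      simp
    · rw [cf_X1, cf_mo _ _ _ _ _ (by omega)]
      simp
    · rw [cf_X2_zero]
      simp
  rw [h, Submodule.mem_bot] at hmem
  revert hmem
  apply mk_mo_ne k hk (by omega)
  intro h
  have := (h.2.2.1 hk le_rfl).2.2
  rw [cf_mo _ _ _ _ _ (by omega), cf_mo _ _ _ _ _ (by omega)] at this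
  simp at this

end fam

end Pool.V1148.Frontier
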