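import Pool.Agent.V1148.FrDefs

/-!
# General facts on the graded pieces and the Koszul ranks
-/

open MvPolynomial

namespace Pool.V1148.Frontier

variable {K : Type*} [Field K]

/-- The degree `j` piece of `A(-s)`. -/
noncomputable abbrev grs (I : Ideal (MvPolynomial (Fin 3) K)) (s j : ℕ) :
    Submodule K (MvPolynomial (Fin 3) K ⧸ I) := shift (gr I) s j

/-- The degree `j` piece of `A(-s)³`. -/
noncomputable abbrev grs3 (I : Ideal (MvPolynomial (Fin 3) K)) (s j : ℕ) :
    Submodule K (Fin 3 → MvPolynomial (Fin 3) K ⧸ I) := shift3 (gr I) s j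

/-- Koszul differential. -/
noncomputable abbrev d1 (I : Ideal (MvPolynomial (Fin 3) K)) :
    (Fin 3 → MvPolynomial (Fin 3) K ⧸ I) →ₗ[K] MvPolynomial (Fin 3) K ⧸ I := kd1 K (xx I)

/-- Koszul differential. -/
noncomputable abbrev d2 (I : Ideal (MvPolynomial (Fin 3) K)) :
    (Fin 3 → MvPolynomial (Fin 3) K ⧸ I) →ₗ[K] (Fin 3 → MvPolynomial (Fin 3) K ⧸ I) :=
  kd2 K (xx I)

/-- Koszul differential. -/
noncomputable abbrev d3 (I : Ideal (MvPolynomial (Fin 3) K)) :
    (MvPolynomial (Fin 3) K ⧸ I) →ₗ[K] (Fin 3 → MvPolynomial (Fin 3) K ⧸ I) := kd3 K (xx I)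

instance finMono (i : ℕ) : Finite (Mono i) := by
  apply Set.Finite.to_subtype (s := {m : Fin 3 →₀ ℕ | m.degree = i})
  apply Set.Finite.subset (Set.finite_Iic (Finsupp.equivFunOnFinite.symm (fun _ : Fin 3 => i)))
  intro m hm
  simp only [Set.mem_ofPred_eq] at hm
  simp only [Set.mem_Iic]
  intro a
  simp only [Finsupp.equivFunOnFinite_symm_apply_apply]
  rw [← hm]
  exact Finsupp.le_degree a m

noncomputable instance ftMono (i : ℕ) : Fintype (Mono i) := Fintype.ofFinite _

theorem lam_eq {T : ℕ → ℕ} (c : Coord T → K) (i : ℕ) (r : Fin (T i))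
    (f : MvPolynomial (Fin 3) K) : lam c i r f = ∑ m : Mono i, c ⟨i, r, m⟩ * coeff m.1 f := by
  unfold lam; exact finsum_eq_sum_of_fintype _

instance finHom (i : ℕ) : FiniteDimensional K (homogeneousSubmodule (Fin 3) K i) := by
  have h : homogeneousSubmodule (Fin 3) K i ≤
      Submodule.span K (Set.range (fun m : Mono i => monomial m.1 (1 : K))) := by
    intro f hf
    rw [f.as_sum]
    apply Submodule.sum_mem
    intro m hm
    have hdeg : m.degree = i := by
      have := (mem_homogeneousSubmodule i f).1 hf (mem_support_iff.1 hm)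
      rw [← this, Finsupp.degree_eq_weight_one]; rfl
    have : monomial m (coeff m f) = coeff m f • monomial m (1 : K) := by
      rw [smul_monomial, smul_eq_mul, mul_one]
    rw [this]
    exact Submodule.smul_mem _ _ (Submodule.subset_span ⟨⟨m, hdeg⟩, rfl⟩)
  have : FiniteDimensional K
      (Submodule.span K (Set.range (fun m : Mono i => monomial m.1 (1 : K)))) :=
    FiniteDimensional.span_of_finite K (Set.finite_range _)
  exact Submodule.finiteDimensional_of_le h

instance finGr (I : Ideal (MvPolynomial (Fin 3) K)) (i : ℕ) : FiniteDimensional K (gr I i) := by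
  unfold gr; infer_instance

instance finGrs (I : Ideal (MvPolynomial (Fin 3) K)) (s j : ℕ) :
    FiniteDimensional K (grs I s j) := by
  unfold grs shift
  by_cases h : s ≤ j
  · rw [if_pos h]; infer_instance
  · rw [if_neg h]; infer_instance

/-- a submodule of triples with entries in `p` is `Fin 3 → p`. -/
noncomputable def piEquiv {V : Type*} [AddCommGroup V] [Module K V] (p : Submodule K V) :
    (Submodule.pi Set.univ (fun _ : Fin 3 => p)) ≃ₗ[K] (Fin 3 → p) where
  toFun v i := ⟨v.1 i, v.2 i (Set.mem_univ i)⟩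
  invFun w := ⟨fun i => (w i).1, fun i _ => (w i).2⟩
  map_add' u v := by ext i; simp
  map_smul' a v := by ext i; simp
  left_inv v := by ext i; simp
  right_inv w := by ext i; simp

instance finGrs3 (I : Ideal (MvPolynomial (Fin 3) K)) (s j : ℕ) :
    FiniteDimensional K (grs3 I s j) :=
  Module.Finite.equiv (piEquiv (grs I s j)).symm

theorem finrank_pi3 {V : Type*} [AddCommGroup V] [Module K V] (p : Submodule K V)
    [FiniteDimensional K p] :
    Module.finrank K (Submodule.pi Set.univ (fun _ : Fin 3 => p)) = 3 * Module.finrank K p := by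
  rw [(piEquiv p).finrank_eq, Module.finrank_pi_fintype]
  simp

theorem finrank_grs3 (I : Ideal (MvPolynomial (Fin 3) K)) (s j : ℕ) :
    Module.finrank K (grs3 I s j) = 3 * Module.finrank K (grs I s j) :=
  finrank_pi3 _

theorem rank_nullity {V W : Type*} [AddCommGroup V] [Module K V] [AddCommGroup W] [Module K W]
    (f : V →ₗ[K] W) (p : Submodule K V) [FiniteDimensional K p] :
    Module.finrank K (p.map f) + Module.finrank K ↥(p ⊓ LinearMap.ker f) =
      Module.finrank K p := by
  have h := (f.domRestrict p).finrank_range_add_finrank_ker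
  have h1 : LinearMap.range (f.domRestrict p) = p.map f := by
    rw [LinearMap.range_domRestrict]
  have h2 : Module.finrank K (LinearMap.ker (f.domRestrict p)) =
      Module.finrank K ↥(p ⊓ LinearMap.ker f) := by
    have e : (LinearMap.ker (f.domRestrict p)).map p.subtype = p ⊓ LinearMap.ker f := by
      ext v
      simp only [Submodule.mem_map, LinearMap.mem_ker, Submodule.mem_inf]
      constructor
      · rintro ⟨w, hw, rfl⟩
        exact ⟨w.2, hw⟩
      · rintro ⟨hv, hv'⟩
        exact ⟨⟨v, hv⟩, hv', rfl⟩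
    rw [← e]
    exact (Submodule.equivMapOfInjective p.subtype p.subtype_injective _).finrank_eq
  rw [h1, h2] at h
  exact h

theorem dimQ_eq {V : Type*} [AddCommGroup V] [Module K V] {Z B : Submodule K V}
    [FiniteDimensional K Z] (h : B ≤ Z) :
    dimQ Z B = Module.finrank K Z - Module.finrank K B := by
  unfold dimQ
  have h1 := Submodule.finrank_quotient_add_finrank (B.submoduleOf Z)
  have h2 : Module.finrank K (B.submoduleOf Z) = Module.finrank K B :=
    (Submodule.submoduleOfEquivOfLe h).finrank_eq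
  omega

theorem dimQ_le {V : Type*} [AddCommGroup V] [Module K V] {Z B : Submodule K V}
    [FiniteDimensional K Z] : dimQ Z B ≤ Module.finrank K Z := by
  unfold dimQ
  exact Submodule.finrank_quotient_le _

theorem d1_d2 (I : Ideal (MvPolynomial (Fin 3) K)) (v : Fin 3 → MvPolynomial (Fin 3) K ⧸ I) :
    d1 I (d2 I v) = 0 := by
  simp [kd1, kd2]; ring

theorem d2_d3 (I : Ideal (MvPolynomial (Fin 3) K)) (v : MvPolynomial (Fin 3) K ⧸ I) :
    d2 I (d3 I v) = 0 := by
  ext i; fin_cases i <;> simp [kd3, kd2] <;> ring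

theorem mem_gr {I : Ideal (MvPolynomial (Fin 3) K)} {i : ℕ} {a : MvPolynomial (Fin 3) K ⧸ I} :
    a ∈ gr I i ↔ ∃ f : MvPolynomial (Fin 3) K, f.IsHomogeneous i ∧ Ideal.Quotient.mk I f = a := by
  simp only [gr, Submodule.mem_map]
  rfl

theorem xx_mul_mem {I : Ideal (MvPolynomial (Fin 3) K)} {i : ℕ}
    {a : MvPolynomial (Fin 3) K ⧸ I} (ha : a ∈ gr I i) (j : Fin 3) : xx I j * a ∈ gr I (i + 1) := by
  obtain ⟨f, hf, rfl⟩ := mem_gr.1 ha
  refine mem_gr.2 ⟨X j * f, ?_, by simp [xx]⟩
  have := (isHomogeneous_X K j).mul hf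
  rwa [add_comm] at this

theorem exists_decomp {j : ℕ} {f : MvPolynomial (Fin 3) K} (hf : f.IsHomogeneous (j + 1)) :
    ∃ g : Fin 3 → MvPolynomial (Fin 3) K, (∀ a, (g a).IsHomogeneous j) ∧
      f = X 0 * g 0 + X 1 * g 1 + X 2 * g 2 := by
  rw [f.as_sum]
  apply Finset.sum_induction (fun m => monomial m (coeff m f)) (fun f =>
    ∃ g : Fin 3 → MvPolynomial (Fin 3) K, (∀ a, (g a).IsHomogeneous j) ∧
      f = X 0 * g 0 + X 1 * g 1 + X 2 * g 2)
  · rintro f f' ⟨g, hg, rfl⟩ ⟨g', hg', rfl⟩
    exact ⟨g + g', fun a => (hg a).add (hg' a), by simp only [Pi.add_apply]; ring⟩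
  · exact ⟨0, fun a => isHomogeneous_zero _ _ _, by simp⟩
  · intro m hm
    have hdeg : m.degree = j + 1 := by
      have := hf (mem_support_iff.1 hm)
      rw [← this, Finsupp.degree_eq_weight_one]; rfl
    have hne : m ≠ 0 := by rintro rfl; simp at hdeg
    obtain ⟨a, ha⟩ := Finsupp.ne_iff.1 hne
    rw [Finsupp.coe_zero, Pi.zero_apply] at ha
    have hle : Finsupp.single a 1 ≤ m := by
      rw [Finsupp.single_le_iff]; omega
    set m' := m - Finsupp.single a 1 with hm'
    have hmm : Finsupp.single a 1 + m' = m := by rw [hm']; exact add_tsub_cancel_of_le hle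
    have hd' : m'.degree = j := by
      have := congrArg Finsupp.degree hmm
      rw [map_add, hdeg, Finsupp.degree_single] at this
      omega
    have hX : monomial m (coeff m f) = X a * monomial m' (coeff m f) := by
      rw [X, monomial_mul, one_mul, hmm]
    refine ⟨Function.update 0 a (monomial m' (coeff m f)), ?_, ?_⟩
    · intro b
      by_cases hb : b = a
      · subst hb
        rw [Function.update_self]
        exact isHomogeneous_monomial _ hd'
      · rw [Function.update_of_ne hb]
        exact isHomogeneous_zero _ _ _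
    · rw [hX]
      fin_cases a <;> simp

theorem map_d1_gr (I : Ideal (MvPolynomial (Fin 3) K)) (j : ℕ) :
    (Submodule.pi Set.univ (fun _ : Fin 3 => gr I j)).map (d1 I) = gr I (j + 1) := by
  apply le_antisymm
  · rintro _ ⟨v, hv, rfl⟩
    have hv' : ∀ a, v a ∈ gr I j := fun a => hv a (Set.mem_univ a)
    exact Submodule.add_mem _ (Submodule.add_mem _ (xx_mul_mem (hv' 0) 0)
      (xx_mul_mem (hv' 1) 1)) (xx_mul_mem (hv' 2) 2)
  · intro a ha
    obtain ⟨f, hf, rfl⟩ := mem_gr.1 ha
    obtain ⟨g, hg, rfl⟩ := exists_decomp hf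
    refine ⟨fun a => Ideal.Quotient.mk I (g a), fun a _ => mem_gr.2 ⟨g a, hg a, rfl⟩, ?_⟩
    simp [kd1, xx]

/-- The socle of `R / I` in degree `d`. -/
noncomputable def soc (I : Ideal (MvPolynomial (Fin 3) K)) (d : ℕ) :
    Submodule K (MvPolynomial (Fin 3) K ⧸ I) := gr I d ⊓ LinearMap.ker (d3 I)

instance finSoc (I : Ideal (MvPolynomial (Fin 3) K)) (d : ℕ) : FiniteDimensional K (soc I d) :=
  Submodule.finiteDimensional_of_le (S₂ := gr I d) inf_le_left

theorem mem_soc {I : Ideal (MvPolynomial (Fin 3) K)} {d : ℕ} {a : MvPolynomial (Fin 3) K ⧸ I} :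
    a ∈ soc I d ↔ a ∈ gr I d ∧ ∀ j, xx I j * a = 0 := by
  simp only [soc, Submodule.mem_inf, LinearMap.mem_ker]
  constructor
  · rintro ⟨h, h'⟩
    refine ⟨h, fun j => ?_⟩
    have := congrFun h' j
    fin_cases j <;> simpa [kd3] using this
  · rintro ⟨h, h'⟩
    refine ⟨h, ?_⟩
    ext j
    fin_cases j <;> simp [kd3, h']

theorem betti_three (I : Ideal (MvPolynomial (Fin 3) K)) (d : ℕ) :
    betti I 3 (d + 3) = Module.finrank K (soc I d) := by
  have : grs I 3 (d + 3) = gr I d := by
    unfold grs shift; rw [if_pos (by omega)]; congr 1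
  show Module.finrank K ↥(grs I 3 (d + 3) ⊓ LinearMap.ker (d3 I)) = _
  rw [this]; rfl

/-- Every point of `G_T` has a presentation. -/
theorem pres_surjective (T : ℕ → ℕ) : Function.Surjective (Pres.pt : Pres K T → GT K T) := by
  rintro ⟨I, hI, hH⟩
  have he : ∀ i, Nonempty (gr I i ≃ₗ[K] (Fin (T i) → K)) := fun i =>
    ⟨LinearEquiv.ofFinrankEq _ _ ((hH i).trans (Module.finrank_fin_fun K).symm)⟩
  let e' : ∀ i, gr I i ≃ₗ[K] (Fin (T i) → K) := fun i => Classical.choice (he i)
  let ψ : ∀ i, MvPolynomial (Fin 3) K →ₗ[K] (Fin (T i) → K) := fun i =>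
    (e' i).toLinearMap ∘ₗ LinearMap.codRestrict (gr I i)
      ((Ideal.Quotient.mkₐ K I).toLinearMap ∘ₗ homogeneousComponent i)
      (fun f => mem_gr.2 ⟨homogeneousComponent i f, homogeneousComponent_isHomogeneous i f, rfl⟩)
  have hψ : ∀ i, ∀ f : MvPolynomial (Fin 3) K, f.IsHomogeneous i → (f ∈ I ↔ ψ i f = 0) := by
    intro i f hf
    show _ ↔ (e' i) _ = 0
    rw [LinearEquiv.map_eq_zero_iff, ← Ideal.Quotient.eq_zero_iff_mem, ← Submodule.coe_eq_zero]
    show _ ↔ Ideal.Quotient.mk I (homogeneousComponent i f) = 0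
    rw [homogeneousComponent_of_mem hf, if_pos rfl]
  refine ⟨⟨⟨I, hI, hH⟩, fun x => ψ x.1 (monomial x.2.2.1 1) x.2.1, ?_⟩, rfl⟩
  intro i f hf
  have hf' : f = ∑ m : Mono i, coeff m.1 f • monomial m.1 (1 : K) := by
    ext d
    rw [coeff_sum]
    simp only [coeff_smul, coeff_monomial, smul_eq_mul, mul_ite, mul_one, mul_zero]
    by_cases hd : d.degree = i
    · rw [Finset.sum_eq_single (⟨d, hd⟩ : Mono i)]
      · simp
      · intro b _ hb
        rw [if_neg]
        intro h
        exact hb (Subtype.ext h)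
      · simp
    · rw [Finset.sum_eq_zero]
      · by_contra hc
        apply hd
        have := hf hc
        rw [← this, Finsupp.degree_eq_weight_one]; rfl
      · intro m _
        rw [if_neg]
        intro h
        apply hd
        rw [← h]; exact m.2
  show f ∈ I ↔ _
  rw [hψ i f hf, _root_.funext_iff]
  refine forall_congr' fun r => ?_
  rw [lam_eq, Pi.zero_apply]
  have : ψ i f r = ∑ m : Mono i, ψ i (monomial m.1 1) r * coeff m.1 f := by
    conv_lhs => rw [hf']
    rw [map_sum, Finset.sum_apply]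
    apply Finset.sum_congr rfl
    intro m _
    rw [map_smul, Pi.smul_apply, smul_eq_mul, mul_comm]
  rw [this]

end Pool.V1148.Frontier
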