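import Pool.Agent.V1148.FrClosed

/-!
# The frontier property fails
-/

open MvPolynomial

namespace Pool.V1148.Frontier

variable {K : Type*} [Field K]

theorem lam_add {T : ℕ → ℕ} (c : Coord T → K) (i : ℕ) (r : Fin (T i))
    (f g : MvPolynomial (Fin 3) K) : lam c i r (f + g) = lam c i r f + lam c i r g := by
  simp only [lam_eq, coeff_add, mul_add, Finset.sum_add_distrib]

theorem lam_smul {T : ℕ → ℕ} (c : Coord T → K) (i : ℕ) (r : Fin (T i)) (a : K)
    (f : MvPolynomial (Fin 3) K) : lam c i r (a • f) = a * lam c i r f := by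
  simp only [lam_eq, coeff_smul, smul_eq_mul, Finset.mul_sum]
  exact Finset.sum_congr rfl (fun m _ => by ring)

/-- `lam` as a linear map. -/
noncomputable def lamL {T : ℕ → ℕ} (c : Coord T → K) (i : ℕ) (r : Fin (T i)) :
    MvPolynomial (Fin 3) K →ₗ[K] K where
  toFun f := lam c i r f
  map_add' := lam_add c i r
  map_smul' a f := by simp [lam_smul]

theorem lam_monomial {T : ℕ → ℕ} (c : Coord T → K) (i : ℕ) (r : Fin (T i)) (m : Mono i) :
    lam c i r (monomial m.1 (1 : K)) = c ⟨i, r, m⟩ := by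
  rw [lam_eq, Finset.sum_eq_single m]
  · simp
  · intro b _ hb
    rw [coeff_monomial, if_neg, mul_zero]
    intro h
    exact hb (Subtype.ext h.symm)
  · simp

theorem Tk_top (k : ℕ) : Tk k (k + 1) = 1 := by simp [Tk]

/-- the only row in degree `k + 1`. -/
def r0 (k : ℕ) : Fin (Tk k (k + 1)) := ⟨0, by rw [Tk_top]; omega⟩

theorem eq_r0 (k : ℕ) (r : Fin (Tk k (k + 1))) : r = r0 k := by
  apply Fin.ext
  have := r.2
  have h2 := Tk_top k
  show r.1 = 0
  omega

/-- The exponent of `x^(k+1-i-j) y^(i+j)`. -/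
noncomputable def mij (k : ℕ) (hk : 3 ≤ k) (i j : Fin 3) : Mono (k + 1) :=
  ⟨ex (k + 1) (i + j) 0, ex_degree _ _ _ (by omega)⟩

/-- The determinant, as a polynomial in the coordinates of the presentations. -/
noncomputable def Dpoly (K : Type*) [Field K] (k : ℕ) (hk : 3 ≤ k) :
    MvPolynomial (Coord (Tk k)) K :=
  Matrix.det (Matrix.of fun i j : Fin 3 =>
    (X ⟨k + 1, r0 k, mij k hk i j⟩ : MvPolynomial (Coord (Tk k)) K))

theorem mem_Zset_iff {k : ℕ} (hk : 3 ≤ k) (p : Pres K (Tk k)) :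
    p.pt ∈ Zset K k ↔ aeval p.c (Dpoly K k hk) = 0 := by
  have hdet : aeval p.c (Dpoly K k hk) =
      Matrix.det (Matrix.of fun i j : Fin 3 => p.c ⟨k + 1, r0 k, mij k hk i j⟩) := by
    unfold Dpoly
    rw [AlgHom.map_det]
    congr 1
    ext i j
    simp
  rw [hdet, ← Matrix.exists_vecMul_eq_zero_iff]
  constructor
  · rintro ⟨α, hα, h⟩
    refine ⟨α, hα, ?_⟩
    funext j
    have hhom : (∑ i : Fin 3, α i • (mo (k + 1) (i + j) 0 : MvPolynomial (Fin 3) K)) ∈
        homogeneousSubmodule (Fin 3) K (k + 1) :=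
      Submodule.sum_mem _ (fun i _ => Submodule.smul_mem _ _ (mo_hom _ _ _ (by omega)))
    have h1 := (p.presents (k + 1) _ hhom).1 (h j) (r0 k)
    change lamL p.c (k + 1) (r0 k) _ = 0 at h1
    rw [map_sum] at h1
    rw [Matrix.vecMul, dotProduct, Pi.zero_apply, ← h1]
    apply Finset.sum_congr rfl
    intro i _
    rw [map_smul, smul_eq_mul]
    congr 1
    exact (lam_monomial p.c (k + 1) (r0 k) (mij k hk i j)).symm
  · rintro ⟨α, hα, h⟩
    refine ⟨α, hα, ?_⟩
    intro j
    have hhom : (∑ i : Fin 3, α i • (mo (k + 1) (i + j) 0 : MvPolynomial (Fin 3) K)) ∈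
        homogeneousSubmodule (Fin 3) K (k + 1) :=
      Submodule.sum_mem _ (fun i _ => Submodule.smul_mem _ _ (mo_hom _ _ _ (by omega)))
    rw [p.presents (k + 1) _ hhom]
    intro r
    rw [eq_r0 k r]
    change lamL p.c (k + 1) (r0 k) _ = 0
    have h1 := congrFun h j
    rw [Matrix.vecMul, dotProduct, Pi.zero_apply] at h1
    rw [map_sum, ← h1]
    apply Finset.sum_congr rfl
    intro i _
    rw [map_smul, smul_eq_mul]
    congr 1
    exact lam_monomial p.c (k + 1) (r0 k) (mij k hk i j)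

theorem isClosed_Zset {k : ℕ} (hk : 3 ≤ k) : IsClosed (Zset K k) := by
  rw [isClosed_coinduced, isClosed_induced_iff]
  refine ⟨PrimeSpectrum.zeroLocus {Dpoly K k hk}, PrimeSpectrum.isClosed_zeroLocus _, ?_⟩
  ext p
  rw [Set.mem_preimage, Set.mem_preimage, mem_Zset_iff hk, PrimeSpectrum.mem_zeroLocus,
    Set.singleton_subset_iff]
  show Dpoly K k hk ∈ vanishingIdeal K {p.c} ↔ _
  rw [mem_vanishingIdeal_iff]
  simp

/-- The coordinates of the presentations are affine linear in `t`. -/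
theorem cc_affine (k : ℕ) (t : K) (x : Coord (Tk k)) :
    cc k t 1 0 x = cc k 0 1 0 x + t * (cc k 1 1 0 x - cc k 0 1 0 x) := by
  unfold cc wt
  split_ifs <;> ring

/-- If a closed set contains the points of the family for infinitely many `t`, it contains the
point at `t = 0`. -/
theorem mem_of_infinite {k : ℕ} (hk : 2 ≤ k) {Z : Set (GT K (Tk k))} (hZ : IsClosed Z)
    {s : Set K} (hs : s.Infinite)
    (h : ∀ t ∈ s, pt k hk t (1 : K) 0 ⟨1, 0, by simp⟩ ∈ Z) :
    pt k hk (0 : K) 1 0 ⟨1, 0, by simp⟩ ∈ Z := by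
  rw [isClosed_coinduced, isClosed_induced_iff] at hZ
  obtain ⟨W, hW, hWZ⟩ := hZ
  obtain ⟨S, rfl⟩ := (PrimeSpectrum.isClosed_iff_zeroLocus W).1 hW
  have key : ∀ t : K, pt k hk t (1 : K) 0 ⟨1, 0, by simp⟩ ∈ Z ↔
      ∀ F ∈ S, aeval (cc k t 1 0) F = 0 := by
    intro t
    have e1 : pt k hk t (1 : K) 0 ⟨1, 0, by simp⟩ ∈ Z ↔
        pres k hk t (1 : K) 0 ⟨1, 0, by simp⟩ ∈ Pres.pt ⁻¹' Z := Iff.rfl
    rw [e1, ← hWZ, Set.mem_preimage, PrimeSpectrum.mem_zeroLocus]
    show S ⊆ (vanishingIdeal K {cc k t 1 0} : Ideal (MvPolynomial (Coord (Tk k)) K)) ↔ _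
    constructor
    · intro h F hF
      have := mem_vanishingIdeal_iff.1 (h hF)
      exact this _ rfl
    · intro h F hF
      apply mem_vanishingIdeal_iff.2
      rintro _ rfl
      exact h F hF
  rw [key]
  intro F hF
  let P : Polynomial K := aeval (fun x : Coord (Tk k) => Polynomial.C (cc k 0 1 0 x) +
    Polynomial.X * Polynomial.C (cc k (1 : K) 1 0 x - cc k 0 1 0 x)) F
  have hP : ∀ t : K, P.eval t = aeval (cc k t 1 0) F := by
    intro t
    have e1 : P.eval t = Polynomial.aeval t P := by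
      rw [Polynomial.coe_aeval_eq_eval]
    rw [e1]
    show Polynomial.aeval t (aeval _ F) = _
    rw [← AlgHom.comp_apply, comp_aeval]
    congr 2
    funext x
    rw [cc_affine k t x]
    simp
  have hroot : ∀ t ∈ s, P.IsRoot t := by
    intro t ht
    rw [Polynomial.IsRoot.def, hP]
    exact (key t).1 (h t ht) F hF
  have hP0 : P = 0 := Polynomial.eq_zero_of_infinite_isRoot P (hs.mono hroot)
  rw [← hP, hP0, Polynomial.eval_zero]

theorem betti_bound {k : ℕ} (A : GT K (Tk k)) (i j : ℕ) :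
    betti A.ideal i j < 10 ∧ (¬ i < 4 → betti A.ideal i j = 0) ∧ (¬ j < k + 5 → betti A.ideal i j = 0) := by
  obtain ⟨I, hI, hH⟩ := A
  change ∀ i, Module.finrank K (gr I i) = Tk k i at hH
  obtain ⟨a0, a1, a2, a3⟩ := betti_eq I j
  have hT : ∀ i, Tk k i ≤ 3 := by
    intro i; unfold Tk; split_ifs <;> omega
  have hb : ∀ s, Module.finrank K (grs I s j) ≤ 3 := by
    intro s
    by_cases h : s ≤ j
    · rw [grs_succ I s j h, hH]; exact hT _
    · rw [grs_lt I s j h, finrank_bot]; omega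
  have hb2 : ∀ s, s ≤ 3 → ¬ j < k + 5 → Module.finrank K (grs I s j) = 0 := by
    intro s hs hj
    rw [grs_succ I s j (by omega), hH]
    simp only [Tk]
    rw [if_neg (by omega), if_neg (by omega), if_neg (by omega)]
  show betti I i j < 10 ∧ (¬ i < 4 → betti I i j = 0) ∧ (¬ j < k + 5 → betti I i j = 0)
  have b0 := hb 0
  have b1 := hb 1
  have b2 := hb 2
  have b3 := hb 3
  match i with
  | 0 =>
    refine ⟨by omega, fun h => by omega, fun h => ?_⟩
    have := hb2 0 (by omega) h; omega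
  | 1 =>
    refine ⟨by omega, fun h => by omega, fun h => ?_⟩
    have := hb2 1 (by omega) h; omega
  | 2 =>
    refine ⟨by omega, fun h => by omega, fun h => ?_⟩
    have := hb2 2 (by omega) h; omega
  | 3 =>
    refine ⟨by omega, fun h => by omega, fun h => ?_⟩
    have := hb2 3 (by omega) h; omega
  | (n + 4) =>
    have : betti I (n + 4) j = 0 := rfl
    exact ⟨by omega, fun _ => this, fun _ => this⟩

/-- The frontier property fails for `T = (1, 3^k, 1)`, `k ≥ 3`, over every infinite field. -/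
theorem not_frontier [Infinite K] (k : ℕ) (hk : 3 ≤ k) : ¬ FrontierProperty K (Tk k) := by
  have hk2 : 2 ≤ k := by omega
  have h10 : ∃ α β : K, 1 * α + 0 * β = 1 := ⟨1, 0, by simp⟩
  have h01 : ∃ α β : K, 0 * α + 1 * β = 1 := ⟨0, 1, by simp⟩
  intro hF
  -- pigeonhole
  let τ : {t : K // t ≠ 0} → (Fin 4 → Fin (k + 5) → Fin 10) := fun t i j =>
    ⟨betti (pt k hk2 t.1 (1 : K) 0 h10).ideal i j, (betti_bound _ _ _).1⟩
  have hinf : Infinite {t : K // t ≠ 0} := by
    apply Set.Infinite.to_subtype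
    exact (Set.finite_singleton (0 : K)).infinite_compl
  obtain ⟨y, hy⟩ := Finite.exists_infinite_fiber τ
  have hne : (τ ⁻¹' {y}).Nonempty := by
    obtain ⟨z⟩ := hy.nonempty
    exact ⟨z.1, z.2⟩
  obtain ⟨t0, ht0⟩ := hne
  set β : ℕ → ℕ → ℕ := betti (pt k hk2 t0.1 (1 : K) 0 h10).ideal with hβ
  have hall : ∀ t ∈ τ ⁻¹' {y}, pt k hk2 t.1 (1 : K) 0 h10 ∈ stratum K (Tk k) β := by
    intro t ht
    show betti (pt k hk2 t.1 (1 : K) 0 h10).ideal = β
    have e : τ t = τ t0 := by
      rw [Set.mem_preimage, Set.mem_singleton_iff] at ht ht0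
      rw [ht, ht0]
    funext i j
    by_cases hi : i < 4
    · by_cases hj : j < k + 5
      · have := congrFun (congrFun e ⟨i, hi⟩) ⟨j, hj⟩
        exact congrArg Fin.val this
      · rw [(betti_bound _ i j).2.2 hj, hβ, (betti_bound _ i j).2.2 hj]
    · rw [(betti_bound _ i j).2.1 hi, hβ, (betti_bound _ i j).2.1 hi]
  have hs : ((fun t : {t : K // t ≠ 0} => t.1) '' (τ ⁻¹' {y})).Infinite := by
    apply Set.Infinite.image (Subtype.val_injective.injOn)
    exact Set.infinite_coe_iff.1 hy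
  obtain ⟨S, hS⟩ := hF β
  -- the point at `t = 0` is in the closure
  have hmem : pt k hk2 (0 : K) 1 0 h10 ∈ closure (stratum K (Tk k) β) := by
    apply mem_of_infinite hk2 isClosed_closure hs
    rintro _ ⟨t, ht, rfl⟩
    exact subset_closure (hall t ht)
  rw [hS, Set.mem_iUnion₂] at hmem
  obtain ⟨β', hβ'S, hβ'⟩ := hmem
  -- the other point of its stratum
  have hmem2 : pt k hk2 (0 : K) 0 1 h01 ∈ closure (stratum K (Tk k) β) := by
    rw [hS, Set.mem_iUnion₂]
    refine ⟨β', hβ'S, ?_⟩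
    have e1 : betti (pt k hk2 (0 : K) 1 0 h10).ideal = β' := hβ'
    show betti (pt k hk2 (0 : K) 0 1 h01).ideal = β'
    rw [← e1]
    exact (betti_special k hk2 hk).symm
  -- the stratum is contained in the closed set
  have hsub : stratum K (Tk k) β ⊆ Zset K k := by
    intro A hA
    have hA' : betti A.ideal = β := hA
    apply mem_Zset hk A
    · apply Submodule.finrank_eq_zero.1
      · have e1 := betti_three A.ideal 1
        rw [← e1, hA', hβ]
        have e2 := betti_three (pt k hk2 t0.1 (1 : K) 0 h10).ideal 1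
        rw [e2]
        show Module.finrank K (soc (Ifam k hk2 t0.1 1 0) 1) = 0
        rw [soc_one_bot k hk2 t0.2, finrank_bot]
    · intro h
      have e1 := betti_three A.ideal k
      rw [h, finrank_bot, hA', hβ] at e1
      have e2 := betti_three (pt k hk2 t0.1 (1 : K) 0 h10).ideal k
      rw [e1] at e2
      have hfin : FiniteDimensional K (soc (Ifam k hk2 t0.1 (1 : K) 0) k) :=
        Submodule.finiteDimensional_of_le (S₂ := gr (Ifam k hk2 t0.1 (1 : K) 0) k) inf_le_left
      exact soc_k_ne k hk2 t0.1 (Submodule.finrank_eq_zero.1 e2.symm)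
  have hcl : closure (stratum K (Tk k) β) ⊆ Zset K k :=
    closure_minimal hsub (isClosed_Zset hk)
  obtain ⟨α, hα, h⟩ := hcl hmem2
  -- but the pairing is perfect
  have hc : ∀ j : Fin 3, α 0 * cf (k + 1) 2 0 (mo (k + 1) (((0 : Fin 3) : ℕ) + j) 0) +
      α 1 * cf (k + 1) 2 0 (mo (k + 1) (((1 : Fin 3) : ℕ) + j) 0) +
      α 2 * cf (k + 1) 2 0 (mo (k + 1) (((2 : Fin 3) : ℕ) + j) 0) = 0 := by
    intro j
    have h1 := (mem_Ifam (hk := hk2).1 (h j) (k + 1)).2.2.2 rfl
    rw [zero_mul, zero_add, one_mul, zero_mul, add_zero] at h1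
    rw [Fin.sum_univ_three, cf_add, cf_add, cf_smul, cf_smul, cf_smul] at h1
    exact h1
  have hmo : ∀ a : ℕ, a ≤ 4 → cf (k + 1) 2 0 (mo (k + 1) a 0 : MvPolynomial (Fin 3) K) =
      if a = 2 then 1 else 0 := by
    intro a ha
    rw [cf_mo _ _ _ _ _ (by omega)]
    simp
  apply hα
  have h0 := hc 0
  have h1 := hc 1
  have h2 := hc 2
  simp only [Fin.val_zero, Fin.val_one, Fin.val_two] at h0 h1 h2
  rw [hmo _ (by omega), hmo _ (by omega), hmo _ (by omega)] at h0 h1 h2
  simp at h0 h1 h2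
  funext i
  fin_cases i
  · simpa using h2
  · simpa using h1
  · simpa using h0

end Pool.V1148.Frontier
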