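import Pool.Agent.V1148.FrGen

/-!
# Betti tables when `z` annihilates `(R / I)_1`
-/

open MvPolynomial

namespace Pool.V1148.Frontier

variable {K : Type*} [Field K]

theorem grs_succ (I : Ideal (MvPolynomial (Fin 3) K)) (s j : ℕ) (h : s ≤ j) :
    grs I s j = gr I (j - s) := by
  unfold grs shift; rw [if_pos h]

theorem grs_lt (I : Ideal (MvPolynomial (Fin 3) K)) (s j : ℕ) (h : ¬ s ≤ j) :
    grs I s j = ⊥ := by
  unfold grs shift; rw [if_neg h]

theorem grs3_lt (I : Ideal (MvPolynomial (Fin 3) K)) (s j : ℕ) (h : ¬ s ≤ j) :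
    grs3 I s j = ⊥ := by
  unfold grs3 shift3; rw [show shift (gr I) s j = ⊥ from grs_lt I s j h]
  rw [eq_bot_iff]
  intro v hv
  rw [Submodule.mem_bot]
  ext i
  exact (Submodule.mem_bot K).1 (hv i (Set.mem_univ i))

theorem grs3_le (I : Ideal (MvPolynomial (Fin 3) K)) (s j : ℕ) (h : s ≤ j) :
    grs3 I s j = Submodule.pi Set.univ (fun _ => gr I (j - s)) := by
  unfold grs3 shift3; rw [show shift (gr I) s j = gr I (j - s) from grs_succ I s j h]

theorem map_d1_le (I : Ideal (MvPolynomial (Fin 3) K)) (j : ℕ) :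
    (grs3 I 1 j).map (d1 I) ≤ grs I 0 j := by
  by_cases h : 1 ≤ j
  · obtain ⟨i, rfl⟩ : ∃ i, j = i + 1 := ⟨j - 1, by omega⟩
    rw [grs3_le I 1 _ h, grs_succ I 0 _ (by omega)]
    have : i + 1 - 1 = i := by omega
    rw [this, map_d1_gr]
    exact le_refl _
  · rw [grs3_lt I 1 j h, Submodule.map_bot]
    exact bot_le

theorem map_d2_le (I : Ideal (MvPolynomial (Fin 3) K)) (j : ℕ) :
    (grs3 I 2 j).map (d2 I) ≤ grs3 I 1 j ⊓ LinearMap.ker (d1 I) := by
  by_cases h : 2 ≤ j
  · obtain ⟨i, rfl⟩ : ∃ i, j = i + 2 := ⟨j - 2, by omega⟩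
    rw [grs3_le I 2 _ h, grs3_le I 1 _ (by omega)]
    have e1 : i + 2 - 2 = i := by omega
    have e2 : i + 2 - 1 = i + 1 := by omega
    rw [e1, e2]
    rintro _ ⟨v, hv, rfl⟩
    have hv' : ∀ a, v a ∈ gr I i := fun a => hv a (Set.mem_univ a)
    refine ⟨?_, LinearMap.mem_ker.2 (d1_d2 I v)⟩
    intro b _
    fin_cases b
    · exact Submodule.sub_mem _ (xx_mul_mem (hv' 2) 1) (xx_mul_mem (hv' 1) 2)
    · exact Submodule.sub_mem _ (xx_mul_mem (hv' 0) 2) (xx_mul_mem (hv' 2) 0)
    · exact Submodule.sub_mem _ (xx_mul_mem (hv' 1) 0) (xx_mul_mem (hv' 0) 1)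
  · rw [grs3_lt I 2 j h, Submodule.map_bot]
    exact bot_le

theorem map_d3_le (I : Ideal (MvPolynomial (Fin 3) K)) (j : ℕ) :
    (grs I 3 j).map (d3 I) ≤ grs3 I 2 j ⊓ LinearMap.ker (d2 I) := by
  by_cases h : 3 ≤ j
  · obtain ⟨i, rfl⟩ : ∃ i, j = i + 3 := ⟨j - 3, by omega⟩
    rw [grs_succ I 3 _ h, grs3_le I 2 _ (by omega)]
    have e1 : i + 3 - 3 = i := by omega
    have e2 : i + 3 - 2 = i + 1 := by omega
    rw [e1, e2]
    rintro _ ⟨v, hv, rfl⟩
    refine ⟨?_, LinearMap.mem_ker.2 (d2_d3 I v)⟩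
    intro b _
    fin_cases b
    · exact xx_mul_mem hv 0
    · exact xx_mul_mem hv 1
    · exact xx_mul_mem hv 2
  · rw [grs_lt I 3 j h, Submodule.map_bot]
    exact bot_le

/-- All the ranks needed. -/
theorem betti_eq (I : Ideal (MvPolynomial (Fin 3) K)) (j : ℕ) :
    betti I 0 j = Module.finrank K (grs I 0 j) - Module.finrank K ((grs3 I 1 j).map (d1 I)) ∧
    betti I 1 j = (3 * Module.finrank K (grs I 1 j) -
      Module.finrank K ((grs3 I 1 j).map (d1 I))) - Module.finrank K ((grs3 I 2 j).map (d2 I)) ∧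
    betti I 2 j = (3 * Module.finrank K (grs I 2 j) -
      Module.finrank K ((grs3 I 2 j).map (d2 I))) - Module.finrank K ((grs I 3 j).map (d3 I)) ∧
    betti I 3 j = Module.finrank K (grs I 3 j) - Module.finrank K ((grs I 3 j).map (d3 I)) := by
  refine ⟨?_, ?_, ?_, ?_⟩
  · show dimQ _ _ = _
    rw [dimQ_eq (map_d1_le I j)]
  · show dimQ _ _ = _
    rw [dimQ_eq (map_d2_le I j)]
    have := rank_nullity (d1 I) (grs3 I 1 j)
    rw [finrank_grs3] at this
    omega
  · show dimQ _ _ = _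
    rw [dimQ_eq (map_d3_le I j)]
    have := rank_nullity (d2 I) (grs3 I 2 j)
    rw [finrank_grs3] at this
    omega
  · show Module.finrank K ↥(grs I 3 j ⊓ LinearMap.ker (d3 I)) = _
    have := rank_nullity (d3 I) (grs I 3 j)
    omega

theorem finrank_map_d1 (I : Ideal (MvPolynomial (Fin 3) K)) (j : ℕ) :
    Module.finrank K ((grs3 I 1 j).map (d1 I)) =
      if j = 0 then 0 else Module.finrank K (gr I j) := by
  by_cases h : 1 ≤ j
  · obtain ⟨i, rfl⟩ : ∃ i, j = i + 1 := ⟨j - 1, by omega⟩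
    rw [grs3_le I 1 _ h]
    have : i + 1 - 1 = i := by omega
    rw [this, map_d1_gr, if_neg (by omega)]
  · rw [grs3_lt I 1 j h, Submodule.map_bot, finrank_bot, if_pos (by omega)]

theorem finrank_map_d3 (I : Ideal (MvPolynomial (Fin 3) K)) (j : ℕ) :
    Module.finrank K ((grs I 3 j).map (d3 I)) =
      if 3 ≤ j then Module.finrank K (gr I (j - 3)) - Module.finrank K (soc I (j - 3)) else 0 := by
  by_cases h : 3 ≤ j
  · rw [if_pos h, grs_succ I 3 j h]
    have := rank_nullity (d3 I) (gr I (j - 3))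
    unfold soc
    omega
  · rw [if_neg h, grs_lt I 3 j h, Submodule.map_bot, finrank_bot]

/-- The map `a ↦ (y a, - x a, 0)`. -/
noncomputable def gmap (I : Ideal (MvPolynomial (Fin 3) K)) :
    (MvPolynomial (Fin 3) K ⧸ I) →ₗ[K] (Fin 3 → MvPolynomial (Fin 3) K ⧸ I) where
  toFun a := ![xx I 1 * a, - (xx I 0 * a), 0]
  map_add' u v := by
    ext i; fin_cases i <;> simp <;> ring
  map_smul' a v := by
    ext i; fin_cases i <;> simp <;> rw [mul_smul_comm]

/-- The map `b ↦ (0, 0, b)`. -/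
noncomputable def hmap (I : Ideal (MvPolynomial (Fin 3) K)) :
    (MvPolynomial (Fin 3) K ⧸ I) →ₗ[K] (Fin 3 → MvPolynomial (Fin 3) K ⧸ I) where
  toFun a := ![0, 0, a]
  map_add' u v := by
    ext i; fin_cases i <;> simp
  map_smul' a v := by
    ext i; fin_cases i <;> simp

theorem rank_d2 (I : Ideal (MvPolynomial (Fin 3) K)) (d : ℕ)
    (hz : ∀ a ∈ gr I d, xx I 2 * a = 0) :
    Module.finrank K ((Submodule.pi Set.univ (fun _ : Fin 3 => gr I d)).map (d2 I)) =
      (Module.finrank K (gr I d) - Module.finrank K (soc I d)) +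
        Module.finrank K (gr I (d + 1)) := by
  have e : (Submodule.pi Set.univ (fun _ : Fin 3 => gr I d)).map (d2 I) =
      (gr I d).map (gmap I) ⊔ (gr I (d + 1)).map (hmap I) := by
    apply le_antisymm
    · rintro _ ⟨v, hv, rfl⟩
      have hv' : ∀ a, v a ∈ gr I d := fun a => hv a (Set.mem_univ a)
      refine Submodule.mem_sup.2 ⟨gmap I (v 2), ⟨v 2, hv' 2, rfl⟩,
        hmap I (xx I 0 * v 1 - xx I 1 * v 0), ⟨_, Submodule.sub_mem _ (xx_mul_mem (hv' 1) 0)
          (xx_mul_mem (hv' 0) 1), rfl⟩, ?_⟩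
      ext i
      fin_cases i <;> simp [gmap, hmap, kd2, hz _ (hv' 0), hz _ (hv' 1)]
    · rw [sup_le_iff]
      constructor
      · rintro _ ⟨a, ha, rfl⟩
        refine ⟨![0, 0, a], ?_, ?_⟩
        · intro i _
          fin_cases i
          · exact Submodule.zero_mem _
          · exact Submodule.zero_mem _
          · exact ha
        · ext i
          fin_cases i <;> simp [gmap, kd2]
      · rintro _ ⟨b, hb, rfl⟩
        rw [SetLike.mem_coe, ← map_d1_gr] at hb
        obtain ⟨v, hv, rfl⟩ := hb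
        have hv' : ∀ a, v a ∈ gr I d := fun a => hv a (Set.mem_univ a)
        refine ⟨![- v 1, v 0, 0], ?_, ?_⟩
        · intro i _
          fin_cases i
          · exact Submodule.neg_mem _ (hv' 1)
          · exact hv' 0
          · exact Submodule.zero_mem _
        · have k0 := hz _ (hv' 0)
          have k1 := hz _ (hv' 1)
          have k2 := hz _ (hv' 2)
          ext i
          fin_cases i
          · show xx I 1 * 0 - xx I 2 * v 0 = 0
            linear_combination -k0
          · show xx I 2 * (- v 1) - xx I 0 * 0 = 0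
            linear_combination -k1
          · show xx I 0 * v 0 - xx I 1 * (- v 1) = xx I 0 * v 0 + xx I 1 * v 1 + xx I 2 * v 2
            linear_combination -k2
  have hinf : (gr I d).map (gmap I) ⊓ (gr I (d + 1)).map (hmap I) = ⊥ := by
    rw [eq_bot_iff]
    rintro w ⟨⟨a, ha, rfl⟩, ⟨b, hb, hab⟩⟩
    rw [Submodule.mem_bot]
    have h0 := congrFun hab 0
    have h1 := congrFun hab 1
    have h2 := congrFun hab 2
    ext i
    fin_cases i
    · exact h0.symm
    · exact h1.symm
    · rfl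
  have h1 := Submodule.finrank_sup_add_finrank_inf_eq ((gr I d).map (gmap I))
    ((gr I (d + 1)).map (hmap I))
  rw [hinf, finrank_bot] at h1
  have h2 := rank_nullity (gmap I) (gr I d)
  have h3 : gr I d ⊓ LinearMap.ker (gmap I) = soc I d := by
    ext a
    rw [mem_soc, Submodule.mem_inf, LinearMap.mem_ker]
    constructor
    · rintro ⟨h, h'⟩
      refine ⟨h, ?_⟩
      intro j
      fin_cases j
      · have := congrFun h' 1
        simpa [gmap] using this
      · have := congrFun h' 0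
        simpa [gmap] using this
      · exact hz a h
    · rintro ⟨h, h'⟩
      refine ⟨h, ?_⟩
      ext i
      fin_cases i <;> simp [gmap, h']
  have h4 := rank_nullity (hmap I) (gr I (d + 1))
  have h5 : gr I (d + 1) ⊓ LinearMap.ker (hmap I) = ⊥ := by
    rw [eq_bot_iff]
    rintro a ⟨_, h⟩
    rw [SetLike.mem_coe, LinearMap.mem_ker] at h
    exact congrFun h 2
  rw [h3] at h2
  rw [h5, finrank_bot] at h4
  rw [e]
  omega

theorem finrank_map_d2 (I : Ideal (MvPolynomial (Fin 3) K)) (j : ℕ)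
    (hz : ∀ d, 1 ≤ d → ∀ a ∈ gr I d, xx I 2 * a = 0)
    (h0 : Module.finrank K
      ((Submodule.pi Set.univ (fun _ : Fin 3 => gr I 0)).map (d2 I)) = 3) :
    Module.finrank K ((grs3 I 2 j).map (d2 I)) =
      if j < 2 then 0 else if j = 2 then 3 else
        (Module.finrank K (gr I (j - 2)) - Module.finrank K (soc I (j - 2))) +
          Module.finrank K (gr I (j - 1)) := by
  by_cases h : 2 ≤ j
  · rw [if_neg (by omega), grs3_le I 2 j h]
    by_cases h2 : j = 2
    · subst h2
      rw [if_pos rfl]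
      exact h0
    · rw [if_neg h2, rank_d2 I (j - 2) (hz _ (by omega))]
      have : j - 2 + 1 = j - 1 := by omega
      rw [this]
  · rw [if_pos (by omega), grs3_lt I 2 j h, Submodule.map_bot, finrank_bot]

/-- Two quotients with the same Hilbert function and the same socle dimensions, in which `z`
annihilates the maximal ideal, have the same Betti tables. -/
theorem betti_congr (I I' : Ideal (MvPolynomial (Fin 3) K))
    (hz : ∀ d, 1 ≤ d → ∀ a ∈ gr I d, xx I 2 * a = 0)
    (hz' : ∀ d, 1 ≤ d → ∀ a ∈ gr I' d, xx I' 2 * a = 0)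
    (h0 : Module.finrank K
      ((Submodule.pi Set.univ (fun _ : Fin 3 => gr I 0)).map (d2 I)) = 3)
    (h0' : Module.finrank K
      ((Submodule.pi Set.univ (fun _ : Fin 3 => gr I' 0)).map (d2 I')) = 3)
    (hH : ∀ i, Module.finrank K (gr I i) = Module.finrank K (gr I' i))
    (hs : ∀ i, Module.finrank K (soc I i) = Module.finrank K (soc I' i)) :
    betti I = betti I' := by
  have key : ∀ s j, Module.finrank K (grs I s j) = Module.finrank K (grs I' s j) := by
    intro s j
    by_cases h : s ≤ j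
    · rw [grs_succ I s j h, grs_succ I' s j h, hH]
    · rw [grs_lt I s j h, grs_lt I' s j h, finrank_bot, finrank_bot]
  funext i j
  obtain ⟨a0, a1, a2, a3⟩ := betti_eq I j
  obtain ⟨b0, b1, b2, b3⟩ := betti_eq I' j
  rw [finrank_map_d1] at a0 b0 a1 b1
  rw [finrank_map_d2 I j hz h0] at a1 a2
  rw [finrank_map_d2 I' j hz' h0'] at b1 b2
  rw [finrank_map_d3] at a2 b2 a3 b3
  match i with
  | 0 => rw [a0, b0]; simp only [key, hH, hs]
  | 1 => rw [a1, b1]; simp only [key, hH, hs]
  | 2 => rw [a2, b2]; simp only [key, hH, hs]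
  | 3 => rw [a3, b3]; simp only [key, hH, hs]
  | (n + 4) => rfl

end Pool.V1148.Frontier
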