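import Pool.Agent.V1148.LinForm
import Pool.Agent.V1148.Homog

/-!
# Products of linear forms through the coordinate vertices: staircases
-/

set_option autoImplicit false

namespace Pool.Agent.V1148.JP

open MvPolynomial

variable {K : Type*} [Field K]

/-- The line `x = a y`. -/
noncomputable def uu (a : K) : MvPolynomial (Fin 3) K := X 0 - C a * X 1

/-- The line `z = b y`. -/
noncomputable def vv (b : K) : MvPolynomial (Fin 3) K := X 2 - C b * X 1

/-- The line `z = r x`. -/
noncomputable def ll (r : K) : MvPolynomial (Fin 3) K := X 2 - C r * X 0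

theorem uu_eq (a : K) : uu a = lin ![1, -a, 0] := by
  simp [uu, lin, Fin.sum_univ_three]; ring

theorem vv_eq (b : K) : vv b = lin ![0, -b, 1] := by
  simp [vv, lin, Fin.sum_univ_three]; ring

theorem ll_eq (r : K) : ll r = lin ![-r, 0, 1] := by
  simp [ll, lin, Fin.sum_univ_three]; ring

theorem X0_eq : (X 0 : MvPolynomial (Fin 3) K) = lin ![1, 0, 0] := by
  simp [lin, Fin.sum_univ_three]

theorem X1_eq : (X 1 : MvPolynomial (Fin 3) K) = lin ![0, 1, 0] := by
  simp [lin, Fin.sum_univ_three]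

theorem X2_eq : (X 2 : MvPolynomial (Fin 3) K) = lin ![0, 0, 1] := by
  simp [lin, Fin.sum_univ_three]

theorem vec_ne0 {c : Fin 3 → K} (i : Fin 3) (h : c i ≠ 0) : c ≠ 0 := by
  rintro rfl; exact h rfl

theorem uu_prime (a : K) : Prime (uu a) := by
  rw [uu_eq]; exact lin_prime (vec_ne0 0 (by simp))

theorem vv_prime (b : K) : Prime (vv b) := by
  rw [vv_eq]; exact lin_prime (vec_ne0 2 (by simp))

theorem ll_prime (r : K) : Prime (ll r) := by
  rw [ll_eq]; exact lin_prime (vec_ne0 2 (by simp))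

theorem uu_uu {a a' : K} (h : a ≠ a') : IsRelPrime (uu a) (uu a') := by
  rw [uu_eq, uu_eq]
  apply lin_isRelPrime (vec_ne0 0 (by simp)) (vec_ne0 0 (by simp))
  intro c hc
  have h0 := congrFun hc 0
  have h1 := congrFun hc 1
  simp at h0 h1
  rw [← h0] at h1
  apply h
  linear_combination -h1

theorem vv_vv {a a' : K} (h : a ≠ a') : IsRelPrime (vv a) (vv a') := by
  rw [vv_eq, vv_eq]
  apply lin_isRelPrime (vec_ne0 2 (by simp)) (vec_ne0 2 (by simp))
  intro c hc
  have h0 := congrFun hc 2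
  have h1 := congrFun hc 1
  simp at h0 h1
  rw [← h0] at h1
  apply h
  linear_combination -h1

theorem ll_ll {a a' : K} (h : a ≠ a') : IsRelPrime (ll a) (ll a') := by
  rw [ll_eq, ll_eq]
  apply lin_isRelPrime (vec_ne0 2 (by simp)) (vec_ne0 2 (by simp))
  intro c hc
  have h0 := congrFun hc 2
  have h1 := congrFun hc 0
  simp at h0 h1
  rw [← h0] at h1
  apply h
  linear_combination -h1

theorem uu_vv (a b : K) : IsRelPrime (uu a) (vv b) := by
  rw [uu_eq, vv_eq]
  apply lin_isRelPrime (vec_ne0 0 (by simp)) (vec_ne0 2 (by simp))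
  intro c hc
  have h0 := congrFun hc 0
  have h2 := congrFun hc 2
  simp at h0 h2

theorem uu_ll (a b : K) : IsRelPrime (uu a) (ll b) := by
  rw [uu_eq, ll_eq]
  apply lin_isRelPrime (vec_ne0 0 (by simp)) (vec_ne0 2 (by simp))
  intro c hc
  have h2 := congrFun hc 2
  simp at h2

theorem vv_ll (a : K) {b : K} (hb : b ≠ 0) : IsRelPrime (vv a) (ll b) := by
  rw [vv_eq, ll_eq]
  apply lin_isRelPrime (vec_ne0 2 (by simp)) (vec_ne0 2 (by simp))
  intro c hc
  have h2 := congrFun hc 0
  simp at h2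
  exact hb h2

theorem X0_uu {a : K} (ha : a ≠ 0) : IsRelPrime (X 0) (uu a) := by
  rw [uu_eq, X0_eq]
  apply lin_isRelPrime (vec_ne0 0 (by simp)) (vec_ne0 0 (by simp))
  intro c hc
  have h1 := congrFun hc 1
  simp at h1
  exact ha h1

theorem X1_uu (a : K) : IsRelPrime (X 1) (uu a) := by
  rw [uu_eq, X1_eq]
  apply lin_isRelPrime (vec_ne0 1 (by simp)) (vec_ne0 0 (by simp))
  intro c hc
  have h1 := congrFun hc 0
  simp at h1

theorem X2_uu (a : K) : IsRelPrime (X 2) (uu a) := by
  rw [uu_eq, X2_eq]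
  apply lin_isRelPrime (vec_ne0 2 (by simp)) (vec_ne0 0 (by simp))
  intro c hc
  have h1 := congrFun hc 0
  simp at h1

theorem X0_vv (a : K) : IsRelPrime (X 0) (vv a) := by
  rw [vv_eq, X0_eq]
  apply lin_isRelPrime (vec_ne0 0 (by simp)) (vec_ne0 2 (by simp))
  intro c hc
  have h1 := congrFun hc 2
  simp at h1

theorem X1_vv (a : K) : IsRelPrime (X 1) (vv a) := by
  rw [vv_eq, X1_eq]
  apply lin_isRelPrime (vec_ne0 1 (by simp)) (vec_ne0 2 (by simp))
  intro c hc
  have h1 := congrFun hc 2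
  simp at h1

theorem X2_vv {a : K} (ha : a ≠ 0) : IsRelPrime (X 2) (vv a) := by
  rw [vv_eq, X2_eq]
  apply lin_isRelPrime (vec_ne0 2 (by simp)) (vec_ne0 2 (by simp))
  intro c hc
  have h1 := congrFun hc 1
  simp at h1
  exact ha h1

theorem X0_ll (a : K) : IsRelPrime (X 0) (ll a) := by
  rw [ll_eq, X0_eq]
  apply lin_isRelPrime (vec_ne0 0 (by simp)) (vec_ne0 2 (by simp))
  intro c hc
  have h1 := congrFun hc 2
  simp at h1

theorem X1_ll (a : K) : IsRelPrime (X 1) (ll a) := by
  rw [ll_eq, X1_eq]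
  apply lin_isRelPrime (vec_ne0 1 (by simp)) (vec_ne0 2 (by simp))
  intro c hc
  have h1 := congrFun hc 2
  simp at h1

theorem X2_ll {a : K} (ha : a ≠ 0) : IsRelPrime (X 2) (ll a) := by
  rw [ll_eq, X2_eq]
  apply lin_isRelPrime (vec_ne0 2 (by simp)) (vec_ne0 2 (by simp))
  intro c hc
  have h1 := congrFun hc 0
  simp at h1
  exact ha h1

theorem X_X {i j : Fin 3} (h : i ≠ j) : IsRelPrime (X i : MvPolynomial (Fin 3) K) (X j) := by
  have hp : Prime (X i : MvPolynomial (Fin 3) K) := by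
    fin_cases i
    · show Prime (X 0); rw [X0_eq]; exact lin_prime (vec_ne0 0 (by simp))
    · show Prime (X 1); rw [X1_eq]; exact lin_prime (vec_ne0 1 (by simp))
    · show Prime (X 2); rw [X2_eq]; exact lin_prime (vec_ne0 2 (by simp))
  rw [hp.irreducible.isRelPrime_iff_not_dvd, MvPolynomial.X_dvd_X]
  simpa using h

/-! ### Substitutions -/

/-- restriction to the line `x = a y` -/
noncomputable def sig (a : K) : MvPolynomial (Fin 3) K →ₐ[K] MvPolynomial (Fin 3) K :=
  aeval ![C a * X 1, X 1, X 2]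

/-- restriction to the line `z = b y` -/
noncomputable def tau (b : K) : MvPolynomial (Fin 3) K →ₐ[K] MvPolynomial (Fin 3) K :=
  aeval ![X 0, X 1, C b * X 1]

/-- restriction to the point `(a : 1 : b)` -/
noncomputable def eta (a b : K) : MvPolynomial (Fin 3) K →ₐ[K] MvPolynomial (Fin 3) K :=
  aeval ![C a * X 1, X 1, C b * X 1]

theorem tau_sig (a b : K) (w : MvPolynomial (Fin 3) K) : tau b (sig a w) = eta a b w := by
  have h : (tau b).comp (sig a) = eta a b := by
    apply MvPolynomial.algHom_ext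
    intro i
    fin_cases i <;> simp [tau, sig, eta]
  exact congrArg (fun f => f w) h

theorem uu_dvd (a : K) (w : MvPolynomial (Fin 3) K) : uu a ∣ w - sig a w := by
  rw [← Ideal.mem_span_singleton, ← Ideal.Quotient.eq]
  have h : (Ideal.Quotient.mkₐ K (Ideal.span {uu a})) =
      (Ideal.Quotient.mkₐ K (Ideal.span {uu a})).comp (sig a) := by
    apply MvPolynomial.algHom_ext
    intro i
    rw [AlgHom.comp_apply]
    change Ideal.Quotient.mk _ _ = Ideal.Quotient.mk _ _
    rw [Ideal.Quotient.eq, Ideal.mem_span_singleton]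
    fin_cases i
    · exact ⟨1, by simp [sig, uu]⟩
    · exact ⟨0, by simp [sig]⟩
    · exact ⟨0, by simp [sig]⟩
  exact congrArg (fun f => f w) h

theorem vv_dvd (a : K) (w : MvPolynomial (Fin 3) K) : vv a ∣ w - tau a w := by
  rw [← Ideal.mem_span_singleton, ← Ideal.Quotient.eq]
  have h : (Ideal.Quotient.mkₐ K (Ideal.span {vv a})) =
      (Ideal.Quotient.mkₐ K (Ideal.span {vv a})).comp (tau a) := by
    apply MvPolynomial.algHom_ext
    intro i
    rw [AlgHom.comp_apply]
    change Ideal.Quotient.mk _ _ = Ideal.Quotient.mk _ _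
    rw [Ideal.Quotient.eq, Ideal.mem_span_singleton]
    fin_cases i
    · exact ⟨0, by simp [tau]⟩
    · exact ⟨0, by simp [tau]⟩
    · exact ⟨1, by simp [tau, vv]⟩
  exact congrArg (fun f => f w) h

theorem eta_uu (a b a' : K) : eta a b (uu a') = C (a - a') * X 1 := by
  simp [eta, uu, C_sub, sub_mul]

theorem eta_vv (a b b' : K) : eta a b (vv b') = C (b - b') * X 1 := by
  simp [eta, vv, C_sub, sub_mul]

theorem eta_ll (a b r : K) : eta a b (ll r) = C (b - r * a) * X 1 := by
  simp [eta, ll, C_sub, sub_mul, mul_assoc]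

theorem CX_ne {c : K} (hc : c ≠ 0) (i : Fin 3) : (C c * X i : MvPolynomial (Fin 3) K) ≠ 0 :=
  mul_ne_zero (by rwa [Ne, C_eq_zero]) (MvPolynomial.X_ne_zero i)

/-- Products -/
noncomputable def UU (a : ℕ → K) (n : ℕ) : MvPolynomial (Fin 3) K := ∏ p ∈ Finset.range n, uu (a p)

/-- Products -/
noncomputable def VV (b : ℕ → K) (n : ℕ) : MvPolynomial (Fin 3) K := ∏ q ∈ Finset.range n, vv (b q)

theorem UU_succ (a : ℕ → K) (n : ℕ) : UU a (n + 1) = UU a n * uu (a n) :=
  Finset.prod_range_succ _ _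

theorem row_step (a : K) (b : ℕ → K) (hb : Function.Injective b) (n : ℕ)
    (w : MvPolynomial (Fin 3) K) (h : ∀ q < n, eta a (b q) w = 0) :
    ∃ g w', w = VV b n * g + uu a * w' := by
  have h1 : VV b n ∣ sig a w := by
    apply Finset.prod_dvd_of_isRelPrime
    · intro i _ j _ hij
      exact vv_vv (fun h => hij (hb h))
    · intro q hq
      have := vv_dvd (b q) (sig a w)
      rwa [tau_sig, h q (Finset.mem_range.1 hq), sub_zero] at this
  obtain ⟨g, hg⟩ := h1
  obtain ⟨w', hw'⟩ := uu_dvd a w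
  exact ⟨g, w', by rw [← hg, ← hw']; ring⟩

theorem rows (a b : ℕ → K) (ha : Function.Injective a) (hb : Function.Injective b)
    (lam : ℕ → ℕ) (hlam : Antitone lam) (n : ℕ)
    (w : MvPolynomial (Fin 3) K) (h : ∀ p < n, ∀ q < lam p, eta (a p) (b q) w = 0)
    (k : ℕ) (hk : k ≤ n) :
    ∃ (g : ℕ → MvPolynomial (Fin 3) K) (w' : MvPolynomial (Fin 3) K),
      w = UU a k * w' + ∑ p ∈ Finset.range k, g p * (UU a p * VV b (lam p)) ∧
      ∀ p < n, k ≤ p → ∀ q < lam p, eta (a p) (b q) w' = 0 := by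
  induction k with
  | zero =>
    refine ⟨0, w, by simp [UU], fun p hp _ q hq => h p hp q hq⟩
  | succ k ih =>
    obtain ⟨g, w', hw, h'⟩ := ih (by omega)
    obtain ⟨g', w'', hw'⟩ := row_step (a k) b hb (lam k) w' (h' k (by omega) le_rfl)
    refine ⟨Function.update g k g', w'', ?_, ?_⟩
    · rw [Finset.sum_range_succ, Function.update_self, hw, hw', UU_succ]
      have : ∑ p ∈ Finset.range k, Function.update g k g' p * (UU a p * VV b (lam p)) =
          ∑ p ∈ Finset.range k, g p * (UU a p * VV b (lam p)) := by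
        apply Finset.sum_congr rfl
        intro p hp
        rw [Function.update_of_ne]
        have := Finset.mem_range.1 hp
        omega
      rw [this]
      ring
    · intro p hp hkp q hq
      have h1 := h' p hp (by omega) q hq
      have hV : eta (a p) (b q) (VV b (lam k)) = 0 := by
        unfold VV
        rw [map_prod]
        apply Finset.prod_eq_zero (i := q)
        · rw [Finset.mem_range]
          exact lt_of_lt_of_le hq (hlam (by omega))
        · rw [eta_vv, sub_self, C_0, zero_mul]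
      rw [hw', map_add, map_mul, map_mul, hV, zero_mul, zero_add, eta_uu] at h1
      refine (mul_eq_zero.1 h1).resolve_left (CX_ne ?_ 1)
      rw [sub_ne_zero]
      intro h
      have := ha h
      omega

/-- The product of the `vv (b q) - r • uu (a p)` lies in the ideal of the two products. -/
theorem prod_mem {P Q : Finset ℕ} (u v : ℕ → MvPolynomial (Fin 3) K)
    (L : ℕ → ℕ → MvPolynomial (Fin 3) K)
    (hL : ∀ p ∈ P, ∀ q ∈ Q, u p ∣ L p q - v q) :
    ∃ g h, ∏ x ∈ P ×ˢ Q, L x.1 x.2 = g * ∏ p ∈ P, u p + h * ∏ q ∈ Q, v q := by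
  have h1 : ∀ p ∈ P, u p ∣ ∏ q ∈ Q, L p q - ∏ q ∈ Q, v q := by
    intro p hp
    rw [← Ideal.mem_span_singleton, ← Ideal.Quotient.eq, map_prod, map_prod]
    apply Finset.prod_congr rfl
    intro q hq
    rw [Ideal.Quotient.eq, Ideal.mem_span_singleton]
    exact hL p hp q hq
  choose! c hc using h1
  rw [Finset.prod_product]
  have h2 : (∏ q ∈ Q, v q) ∣ ∏ p ∈ P, ∏ q ∈ Q, L p q - ∏ p ∈ P, (u p * c p) := by
    rw [← Ideal.mem_span_singleton, ← Ideal.Quotient.eq, map_prod, map_prod]
    apply Finset.prod_congr rfl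
    intro p hp
    rw [Ideal.Quotient.eq, Ideal.mem_span_singleton, ← hc p hp]
    exact ⟨1, by ring⟩
  obtain ⟨d, hd⟩ := h2
  refine ⟨∏ p ∈ P, c p, d, ?_⟩
  rw [Finset.prod_mul_distrib] at hd
  linear_combination hd

end Pool.Agent.V1148.JP
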