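import Pool.Agent.V1148.JP1

/-!
# Staircases: the ideal quotient and its syzygies
-/

set_option autoImplicit false

namespace Pool.Agent.V1148.JP

open MvPolynomial

variable {K : Type*} [Field K]

/-- The data of a staircase with generic points. -/
structure Stair (K : Type*) [Field K] where
  s : ℕ
  t : ℕ
  al : ℕ → ℕ
  al0 : al 0 = t
  als : al s = 0
  dec : ∀ i < s, al (i + 1) < al i
  a : ℕ → K
  b : ℕ → K
  ha : Function.Injective a
  hb : Function.Injective b
  ha0 : ∀ p, a p ≠ 0
  hb0 : ∀ p, b p ≠ 0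
  ratio : ∀ p q p' q', p < t + 1 → p' < t + 1 → b q / a p = b q' / a p' → p = p' ∧ q = q'
  lam : ℕ → ℕ
  lamA : Antitone lam
  lam1 : ∀ i ≤ s, ∀ p, al i ≤ p → lam p ≤ t * i
  lam2 : ∀ p, ∃ i ≤ s, al i ≤ p ∧ lam p = t * i

namespace Stair

variable (D : Stair K)

/-- number of rows -/
def na : ℕ := D.t + 1

/-- number of columns -/
def nb : ℕ := D.t * D.s + 1

/-- the cells outside the staircase -/
def N : Finset (ℕ × ℕ) :=
  (Finset.range D.na ×ˢ Finset.range D.nb).filter (fun x => D.lam x.1 ≤ x.2)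

/-- the first product -/
noncomputable def A : MvPolynomial (Fin 3) K := UU D.a D.na

/-- the second product -/
noncomputable def B : MvPolynomial (Fin 3) K := VV D.b D.nb

/-- the third product -/
noncomputable def C : MvPolynomial (Fin 3) K := ∏ x ∈ D.N, ll (D.b x.2 / D.a x.1)

/-- the generators of the ideal quotient -/
noncomputable def m (i : ℕ) : MvPolynomial (Fin 3) K := UU D.a (D.al i) * VV D.b (D.t * i)

theorem al_anti {i j : ℕ} (hij : i ≤ j) (hj : j ≤ D.s) : D.al j ≤ D.al i := by
  induction j with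
  | zero => obtain rfl : i = 0 := by omega
            exact le_rfl
  | succ j ih =>
    rcases Nat.lt_or_ge i (j + 1) with h | h
    · have := D.dec j (by omega)
      have := ih (by omega) (by omega)
      omega
    · obtain rfl : i = j + 1 := by omega
      exact le_rfl

theorem UU_dvd (a : ℕ → K) {n k : ℕ} (h : n ≤ k) : UU a n ∣ UU a k :=
  Finset.prod_dvd_prod_of_subset _ _ _ (Finset.range_subset_range.2 h)

theorem VV_dvd (a : ℕ → K) {n k : ℕ} (h : n ≤ k) : VV a n ∣ VV a k :=
  Finset.prod_dvd_prod_of_subset _ _ _ (Finset.range_subset_range.2 h)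

theorem UU_ico (a : ℕ → K) {n k : ℕ} (h : n ≤ k) :
    UU a k = UU a n * ∏ p ∈ Finset.Ico n k, uu (a p) :=
  (Finset.prod_range_mul_prod_Ico _ h).symm

theorem VV_ico (a : ℕ → K) {n k : ℕ} (h : n ≤ k) :
    VV a k = VV a n * ∏ p ∈ Finset.Ico n k, vv (a p) :=
  (Finset.prod_range_mul_prod_Ico _ h).symm

theorem C_mul_m (i : ℕ) (hi : i ≤ D.s) :
    ∃ x y, D.C * D.m i = x * D.A + y * D.B := by
  have hal : D.al i ≤ D.na := by
    have := D.al_anti (Nat.zero_le i) hi
    rw [D.al0] at this
    unfold na; omega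
  have hti : D.t * i ≤ D.nb := by
    have := Nat.mul_le_mul_left D.t hi
    unfold nb; omega
  obtain ⟨g, h, hgh⟩ := prod_mem (P := Finset.Ico (D.al i) D.na)
    (Q := Finset.Ico (D.t * i) D.nb) (fun p => uu (D.a p)) (fun q => vv (D.b q))
    (fun p q => ll (D.b q / D.a p)) (by
      intro p _ q _
      refine ⟨MvPolynomial.C (-(D.b q / D.a p)), ?_⟩
      have h1 : (MvPolynomial.C (D.b q) : MvPolynomial (Fin 3) K) =
          MvPolynomial.C (D.b q / D.a p) * MvPolynomial.C (D.a p) := by
        rw [← C_mul, div_mul_cancel₀ _ (D.ha0 p)]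
      simp only [ll, vv, uu, C_neg]
      rw [h1]
      ring)
  have hsub : Finset.Ico (D.al i) D.na ×ˢ Finset.Ico (D.t * i) D.nb ⊆ D.N := by
    intro x hx
    rw [Finset.mem_product, Finset.mem_Ico, Finset.mem_Ico] at hx
    rw [N, Finset.mem_filter, Finset.mem_product, Finset.mem_range, Finset.mem_range]
    exact ⟨⟨hx.1.2, hx.2.2⟩, (D.lam1 i hi x.1 hx.1.1).trans hx.2.1⟩
  have hC : D.C = (∏ x ∈ D.N \ (Finset.Ico (D.al i) D.na ×ˢ Finset.Ico (D.t * i) D.nb),
      ll (D.b x.2 / D.a x.1)) *
      ∏ x ∈ (Finset.Ico (D.al i) D.na ×ˢ Finset.Ico (D.t * i) D.nb),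
        ll (D.b x.2 / D.a x.1) := (Finset.prod_sdiff hsub).symm
  rw [hgh] at hC
  set E := ∏ x ∈ D.N \ (Finset.Ico (D.al i) D.na ×ˢ Finset.Ico (D.t * i) D.nb),
      ll (D.b x.2 / D.a x.1)
  refine ⟨E * g * VV D.b (D.t * i), E * h * UU D.a (D.al i), ?_⟩
  rw [hC, m, A, B, UU_ico D.a hal, VV_ico D.b hti]
  ring

theorem eta_C_ne (p q : ℕ) (hp : p < D.na) (hq : q < D.lam p) :
    eta (D.a p) (D.b q) D.C ≠ 0 := by
  unfold C
  rw [map_prod, Finset.prod_ne_zero_iff]
  intro x hx
  rw [N, Finset.mem_filter, Finset.mem_product, Finset.mem_range, Finset.mem_range] at hx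
  rw [eta_ll]
  apply CX_ne
  rw [sub_ne_zero]
  intro h
  have h1 : D.b q / D.a p = D.b x.2 / D.a x.1 := by
    rw [h, mul_div_assoc, div_self (D.ha0 p), mul_one]
  obtain ⟨e1, e2⟩ := D.ratio p q x.1 x.2 hp hx.1.1 h1
  rw [← e1, ← e2] at hx
  omega

theorem quotient_mem {u v w : MvPolynomial (Fin 3) K} (h : u * D.A + v * D.B + w * D.C = 0) :
    w ∈ Ideal.span (Set.range fun i : Fin (D.s + 1) => D.m i) := by
  have heta : ∀ p < D.na, ∀ q < D.lam p, eta (D.a p) (D.b q) w = 0 := by
    intro p hp q hq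
    have h1 := congrArg (eta (D.a p) (D.b q)) h
    have hA : eta (D.a p) (D.b q) D.A = 0 := by
      unfold A UU
      rw [map_prod]
      apply Finset.prod_eq_zero (Finset.mem_range.2 hp)
      rw [eta_uu, sub_self, C_0, zero_mul]
    have hqb : q < D.nb := by
      obtain ⟨i, hi, _, h2⟩ := D.lam2 p
      have := Nat.mul_le_mul_left D.t hi
      unfold nb
      omega
    have hB : eta (D.a p) (D.b q) D.B = 0 := by
      unfold B VV
      rw [map_prod]
      apply Finset.prod_eq_zero (Finset.mem_range.2 hqb)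
      rw [eta_vv, sub_self, C_0, zero_mul]
    rw [map_add, map_add, map_mul, map_mul, map_mul, hA, hB, mul_zero, mul_zero, zero_add,
      zero_add, map_zero] at h1
    exact (mul_eq_zero.1 h1).resolve_right (D.eta_C_ne p q hp hq)
  obtain ⟨g, w', hw, _⟩ := rows D.a D.b D.ha D.hb D.lam D.lamA D.na w heta D.na le_rfl
  rw [hw]
  apply Ideal.add_mem
  · apply Ideal.mul_mem_right
    have h0 : D.m 0 ∣ UU D.a D.na := by
      unfold m
      rw [mul_zero]
      have : VV D.b 0 = 1 := by simp [VV]
      rw [this, mul_one, D.al0]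
      apply UU_dvd
      unfold na; omega
    exact Ideal.mem_of_dvd _ h0 (Ideal.subset_span ⟨0, rfl⟩)
  · apply Ideal.sum_mem
    intro p _
    apply Ideal.mul_mem_left
    obtain ⟨i, hi, h1, h2⟩ := D.lam2 p
    have h0 : D.m i ∣ UU D.a p * VV D.b (D.lam p) := by
      unfold m
      rw [h2]
      exact mul_dvd_mul (UU_dvd _ h1) dvd_rfl
    exact Ideal.mem_of_dvd _ h0 (Ideal.subset_span ⟨⟨i, by omega⟩, rfl⟩)

/-- vertical step -/
noncomputable def du (j : ℕ) : MvPolynomial (Fin 3) K :=
  ∏ p ∈ Finset.Ico (D.al (j + 1)) (D.al j), uu (D.a p)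

/-- horizontal step -/
noncomputable def dv (j : ℕ) : MvPolynomial (Fin 3) K :=
  ∏ q ∈ Finset.Ico (D.t * j) (D.t * (j + 1)), vv (D.b q)

theorem du_dv (j : ℕ) (hj : j < D.s) : D.du j * D.m (j + 1) = D.dv j * D.m j := by
  unfold m du dv
  rw [UU_ico D.a (D.dec j hj).le, VV_ico D.b (Nat.mul_le_mul_left D.t (Nat.le_succ j))]
  ring

theorem UU_ne (a : ℕ → K) (n : ℕ) : UU a n ≠ 0 :=
  Finset.prod_ne_zero_iff.2 (fun p _ => (uu_prime _).ne_zero)

theorem VV_ne (a : ℕ → K) (n : ℕ) : VV a n ≠ 0 :=
  Finset.prod_ne_zero_iff.2 (fun p _ => (vv_prime _).ne_zero)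

theorem du_ne (j : ℕ) : D.du j ≠ 0 :=
  Finset.prod_ne_zero_iff.2 (fun p _ => (uu_prime _).ne_zero)

theorem m_ne (j : ℕ) : D.m j ≠ 0 := mul_ne_zero (UU_ne _ _) (VV_ne _ _)

theorem prod_relPrime {P Q : Finset ℕ} (a b : ℕ → K) :
    IsRelPrime (∏ p ∈ P, uu (a p)) (∏ q ∈ Q, vv (b q)) := by
  apply IsRelPrime.prod_left
  intro p _
  apply IsRelPrime.prod_right
  intro q _
  exact uu_vv _ _

/-- the relation `du j * e_{j+1} - dv j * e_j`. -/
noncomputable def rel (j i : ℕ) : MvPolynomial (Fin 3) K :=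
  if i = j + 1 then D.du j else if i = j then - D.dv j else 0

theorem rel_succ (j : ℕ) : D.rel j (j + 1) = D.du j := by simp [rel]

theorem rel_self (j : ℕ) : D.rel j j = - D.dv j := by simp [rel]

theorem rel_other {j i : ℕ} (h1 : i ≠ j + 1) (h2 : i ≠ j) : D.rel j i = 0 := by
  simp [rel, h1, h2]

theorem sum_rel (c : ℕ → MvPolynomial (Fin 3) K) {j n : ℕ} (hj : j < n) :
    ∑ i ∈ Finset.range (n + 1), D.rel j i * c i = D.du j * c (j + 1) - D.dv j * c j := by
  have h1 : ∀ i ∈ Finset.range (n + 1), D.rel j i * c i =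
      (if i = j + 1 then D.du j * c (j + 1) else 0) + (if i = j then - D.dv j * c j else 0) := by
    intro i _
    by_cases h1 : i = j + 1
    · subst h1
      rw [rel_succ, if_pos rfl, if_neg (by omega), add_zero]
    · by_cases h2 : i = j
      · subst h2
        rw [rel_self, if_neg (by omega), if_pos rfl, zero_add]
      · rw [D.rel_other h1 h2, if_neg h1, if_neg h2, zero_mul, zero_add]
  rw [Finset.sum_congr rfl h1, Finset.sum_add_distrib, Finset.sum_ite_eq', Finset.sum_ite_eq',
    if_pos (Finset.mem_range.2 (by omega)), if_pos (Finset.mem_range.2 (by omega))]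
  ring

/-- Every syzygy of the `m i` is a combination of the relations. -/
theorem syz_m (k : ℕ) (hk : k ≤ D.s) (g : ℕ → MvPolynomial (Fin 3) K)
    (hg : ∑ i ∈ Finset.range (k + 1), g i * D.m i = 0) :
    ∃ h : ℕ → MvPolynomial (Fin 3) K, ∀ i ≤ k,
      g i = ∑ j ∈ Finset.range k, h j * D.rel j i := by
  induction k generalizing g with
  | zero =>
    refine ⟨0, ?_⟩
    intro i hi
    obtain rfl : i = 0 := by omega
    rw [Finset.sum_range_one] at hg
    rw [Finset.sum_range_zero]
    exact (mul_eq_zero.1 hg).resolve_right (D.m_ne 0)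
  | succ k ih =>
    rw [Finset.sum_range_succ] at hg
    have h1 : UU D.a (D.al k) ∣ g (k + 1) * D.m (k + 1) := by
      have h2 : UU D.a (D.al k) ∣ ∑ i ∈ Finset.range (k + 1), g i * D.m i := by
        apply Finset.dvd_sum
        intro i hi
        apply Dvd.dvd.mul_left
        apply Dvd.dvd.mul_right
        apply UU_dvd
        exact D.al_anti (by have := Finset.mem_range.1 hi; omega) (by omega)
      rw [eq_neg_of_add_eq_zero_left hg] at h2
      rwa [dvd_neg] at h2
    have h3 : D.du k ∣ g (k + 1) := by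
      have e : UU D.a (D.al k) = UU D.a (D.al (k + 1)) * D.du k := UU_ico _ (D.dec k (by omega)).le
      rw [e, m] at h1
      have h4 : D.du k ∣ g (k + 1) * VV D.b (D.t * (k + 1)) := by
        have h5 : UU D.a (D.al (k + 1)) * D.du k ∣
            UU D.a (D.al (k + 1)) * (g (k + 1) * VV D.b (D.t * (k + 1))) := by
          rwa [mul_left_comm] 
        exact (mul_dvd_mul_iff_left (UU_ne _ _)).1 h5
      exact (prod_relPrime D.a D.b).dvd_of_dvd_mul_right h4
    obtain ⟨c, hc⟩ := h3
    obtain ⟨h, hh⟩ := ih (by omega) (fun i => g i - c * D.rel k i) (by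
      have e1 : ∑ i ∈ Finset.range (k + 1), (g i - c * D.rel k i) * D.m i =
          ∑ i ∈ Finset.range (k + 1), g i * D.m i + c * D.dv k * D.m k := by
        rw [Finset.sum_range_succ, Finset.sum_range_succ, rel_self]
        have : ∀ i ∈ Finset.range k, (g i - c * D.rel k i) * D.m i = g i * D.m i := by
          intro i hi
          have := Finset.mem_range.1 hi
          rw [D.rel_other (by omega) (by omega), mul_zero, sub_zero]
        rw [Finset.sum_congr rfl this]
        ring
      rw [e1]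
      have e2 := D.du_dv k (by omega)
      rw [hc] at hg
      linear_combination hg - c * e2)
    refine ⟨Function.update h k c, ?_⟩
    intro i hi
    rw [Finset.sum_range_succ, Function.update_self]
    have e : ∑ j ∈ Finset.range k, Function.update h k c j * D.rel j i =
        ∑ j ∈ Finset.range k, h j * D.rel j i := by
      apply Finset.sum_congr rfl
      intro j hj
      rw [Function.update_of_ne]
      have := Finset.mem_range.1 hj
      omega
    rw [e]
    by_cases hik : i = k + 1
    · subst hik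
      have e0 : ∑ j ∈ Finset.range k, h j * D.rel j (k + 1) = 0 := by
        apply Finset.sum_eq_zero
        intro j hj
        have := Finset.mem_range.1 hj
        rw [D.rel_other (by omega) (by omega), mul_zero]
      rw [e0, rel_succ, hc]; ring
    · rw [← hh i (by omega)]; ring

/-- The relations are independent. -/
theorem rel_indep (k : ℕ) (h : ℕ → MvPolynomial (Fin 3) K)
    (hh : ∀ i ≤ k, ∑ j ∈ Finset.range k, h j * D.rel j i = 0) : ∀ j < k, h j = 0 := by
  induction k with
  | zero => intro j hj; omega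
  | succ k ih =>
    have e0 := hh (k + 1) le_rfl
    rw [Finset.sum_range_succ] at e0
    have e1 : ∑ j ∈ Finset.range k, h j * D.rel j (k + 1) = 0 := by
      apply Finset.sum_eq_zero
      intro j hj
      have := Finset.mem_range.1 hj
      rw [D.rel_other (by omega) (by omega), mul_zero]
    rw [e1, zero_add, rel_succ] at e0
    have hk : h k = 0 := (mul_eq_zero.1 e0).resolve_right (D.du_ne k)
    intro j hj
    rcases Nat.lt_or_ge j k with hjk | hjk
    · apply ih _ j hjk
      intro i hi
      have := hh i (by omega)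
      rwa [Finset.sum_range_succ, hk, zero_mul, add_zero] at this
    · obtain rfl : j = k := by omega
      exact hk

end Stair

end Pool.Agent.V1148.JP
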