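import Pool.Agent.V1148.JP2

/-!
# From syzygies of three products to Jacobian syzygies
-/

set_option autoImplicit false

namespace Pool.Agent.V1148.JP

open MvPolynomial

variable {K : Type*} [Field K]

/-- directional derivative -/
noncomputable def dd (θ : Fin 3 → MvPolynomial (Fin 3) K) (g : MvPolynomial (Fin 3) K) :
    MvPolynomial (Fin 3) K :=
  θ 0 * pderiv 0 g + θ 1 * pderiv 1 g + θ 2 * pderiv 2 g

theorem dd_mul (θ : Fin 3 → MvPolynomial (Fin 3) K) (g h : MvPolynomial (Fin 3) K) :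
    dd θ (g * h) = dd θ g * h + g * dd θ h := by
  simp only [dd, Derivation.leibniz, smul_eq_mul]; ring

theorem dd_X (θ : Fin 3 → MvPolynomial (Fin 3) K) (i : Fin 3) : dd θ (X i) = θ i := by
  simp only [dd]
  fin_cases i
  · simp [pderiv_X_self, pderiv_X_of_ne]
  · simp [pderiv_X_self, pderiv_X_of_ne]
  · simp [pderiv_X_self, pderiv_X_of_ne]

theorem dd_C (θ : Fin 3 → MvPolynomial (Fin 3) K) (a : K) : dd θ (C a) = 0 := by
  simp [dd]

theorem dd_sub (θ : Fin 3 → MvPolynomial (Fin 3) K) (g h : MvPolynomial (Fin 3) K) :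
    dd θ (g - h) = dd θ g - dd θ h := by
  simp only [dd, map_sub]; ring

theorem dd_uu (θ : Fin 3 → MvPolynomial (Fin 3) K) (a : K) : dd θ (uu a) = θ 0 - C a * θ 1 := by
  unfold uu; rw [dd_sub, dd_mul, dd_X, dd_X, dd_C]; ring

theorem dd_vv (θ : Fin 3 → MvPolynomial (Fin 3) K) (a : K) : dd θ (vv a) = θ 2 - C a * θ 1 := by
  unfold vv; rw [dd_sub, dd_mul, dd_X, dd_X, dd_C]; ring

theorem dd_ll (θ : Fin 3 → MvPolynomial (Fin 3) K) (a : K) : dd θ (ll a) = θ 2 - C a * θ 0 := by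
  unfold ll; rw [dd_sub, dd_mul, dd_X, dd_X, dd_C]; ring

theorem dvd_dd {f ℓ : MvPolynomial (Fin 3) K} {θ : Fin 3 → MvPolynomial (Fin 3) K}
    (hf : Squarefree f) (hℓ : Prime ℓ) (hd : ℓ ∣ f) (hθ : dd θ f = 0) : ℓ ∣ dd θ ℓ := by
  obtain ⟨g, rfl⟩ := hd
  rw [dd_mul] at hθ
  have h1 : ℓ ∣ dd θ ℓ * g := ⟨- dd θ g, by linear_combination hθ⟩
  rcases hℓ.dvd_or_dvd h1 with h | h
  · exact h
  · exfalso
    obtain ⟨c, rfl⟩ := h
    exact hℓ.not_unit (hf ℓ ⟨c, by ring⟩)

theorem sqf_prod {ι : Type*} (s : Finset ι) (g : ι → MvPolynomial (Fin 3) K)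
    (hp : ∀ i ∈ s, Prime (g i)) (hr : ∀ i ∈ s, ∀ j ∈ s, i ≠ j → IsRelPrime (g i) (g j)) :
    Squarefree (∏ i ∈ s, g i) := by
  classical
  induction s using Finset.induction_on with
  | empty => rw [Finset.prod_empty]; exact squarefree_one
  | insert a s ha ih =>
    rw [Finset.prod_insert ha, squarefree_mul_iff]
    refine ⟨?_, (hp a (Finset.mem_insert_self _ _)).squarefree,
      ih (fun i hi => hp i (Finset.mem_insert_of_mem hi))
        (fun i hi j hj => hr i (Finset.mem_insert_of_mem hi) j (Finset.mem_insert_of_mem hj))⟩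
    apply IsRelPrime.prod_right
    intro i hi
    apply hr _ (Finset.mem_insert_self _ _) _ (Finset.mem_insert_of_mem hi)
    rintro rfl
    exact ha hi

theorem UU_two (a : ℕ → K) (n : ℕ) : pderiv 2 (UU a n) = 0 ∧
    X 0 * pderiv 0 (UU a n) + X 1 * pderiv 1 (UU a n) = C (n : K) * UU a n := by
  induction n with
  | zero => simp [UU]
  | succ n ih =>
    obtain ⟨h1, h2⟩ := ih
    have k2 : pderiv 2 (uu (a n)) = 0 := by
      simp [uu, pderiv_X_of_ne]
    have k0 : pderiv 0 (uu (a n)) = 1 := by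
      simp [uu, pderiv_X_of_ne]
    have k1 : pderiv 1 (uu (a n)) = - C (a n) := by
      simp [uu, pderiv_X_of_ne]
    rw [UU_succ]
    simp only [Derivation.leibniz, smul_eq_mul, k0, k1, k2, h1]
    constructor
    · ring
    · have : (uu (a n) : MvPolynomial (Fin 3) K) = X 0 - C (a n) * X 1 := rfl
      push_cast
      rw [C_add, C_1]
      linear_combination uu (a n) * h2 - UU a n * this

theorem VV_succ (a : ℕ → K) (n : ℕ) : VV a (n + 1) = VV a n * vv (a n) :=
  Finset.prod_range_succ _ _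

theorem VV_two (a : ℕ → K) (n : ℕ) : pderiv 0 (VV a n) = 0 ∧
    X 1 * pderiv 1 (VV a n) + X 2 * pderiv 2 (VV a n) = C (n : K) * VV a n := by
  induction n with
  | zero => simp [VV]
  | succ n ih =>
    obtain ⟨h1, h2⟩ := ih
    have k2 : pderiv 2 (vv (a n)) = 1 := by
      simp [vv, pderiv_X_of_ne]
    have k0 : pderiv 0 (vv (a n)) = 0 := by
      simp [vv, pderiv_X_of_ne]
    have k1 : pderiv 1 (vv (a n)) = - C (a n) := by
      simp [vv, pderiv_X_of_ne]
    rw [VV_succ]
    simp only [Derivation.leibniz, smul_eq_mul, k0, k1, k2, h1]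
    constructor
    · ring
    · have : (vv (a n) : MvPolynomial (Fin 3) K) = X 2 - C (a n) * X 1 := rfl
      push_cast
      rw [C_add, C_1]
      linear_combination vv (a n) * h2 - VV a n * this

theorem LL_two {ι : Type*} (s : Finset ι) (r : ι → K) : pderiv 1 (∏ x ∈ s, ll (r x)) = 0 ∧
    X 0 * pderiv 0 (∏ x ∈ s, ll (r x)) + X 2 * pderiv 2 (∏ x ∈ s, ll (r x)) =
      C (s.card : K) * ∏ x ∈ s, ll (r x) := by
  classical
  induction s using Finset.induction_on with
  | empty => simp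
  | insert x s hx ih =>
    obtain ⟨h1, h2⟩ := ih
    have k2 : pderiv 2 (ll (r x)) = 1 := by
      simp [ll, pderiv_X_of_ne]
    have k1 : pderiv 1 (ll (r x)) = 0 := by
      simp [ll, pderiv_X_of_ne]
    have k0 : pderiv 0 (ll (r x)) = - C (r x) := by
      simp [ll, pderiv_X_of_ne]
    rw [Finset.prod_insert hx, Finset.card_insert_of_notMem hx]
    simp only [Derivation.leibniz, smul_eq_mul, k0, k1, k2, h1]
    constructor
    · ring
    · have : (ll (r x) : MvPolynomial (Fin 3) K) = X 2 - C (r x) * X 0 := rfl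
      push_cast
      rw [C_add, C_1]
      linear_combination ll (r x) * h2 - (∏ x ∈ s, ll (r x)) * this

section psi

variable (A B C' : MvPolynomial (Fin 3) K) (na nb c : ℕ)

/-- the product of everything -/
noncomputable def ff : MvPolynomial (Fin 3) K := X 0 * X 1 * X 2 * (A * B * C')

/-- the multiplier -/
noncomputable def hh (u v w : MvPolynomial (Fin 3) K) : MvPolynomial (Fin 3) K :=
  - (C (1 + nb : K) * (u * A)) + C (1 + c : K) * (w * C') - u * (X 1 * pderiv 1 A) -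
    v * (X 2 * pderiv 2 B) - w * (X 0 * pderiv 0 C')

/-- the degree, inverted -/
noncomputable def id' : K := ((3 + na + nb + c : ℕ) : K)⁻¹

/-- The map from syzygies to Jacobian syzygies. -/
noncomputable def psi (u v w : MvPolynomial (Fin 3) K) : Fin 3 → MvPolynomial (Fin 3) K :=
  ![X 0 * (- (C (id' na nb c) * hh A B C' nb c u v w)),
    X 1 * (- (u * A) - C (id' na nb c) * hh A B C' nb c u v w),
    X 2 * (w * C' - C (id' na nb c) * hh A B C' nb c u v w)]

variable {A B C' na nb c}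

theorem euler_ff (hA2 : pderiv 2 A = 0) (hA : X 0 * pderiv 0 A + X 1 * pderiv 1 A = C (na : K) * A)
    (hB0 : pderiv 0 B = 0) (hB : X 1 * pderiv 1 B + X 2 * pderiv 2 B = C (nb : K) * B)
    (hC1 : pderiv 1 C' = 0)
    (hC : X 0 * pderiv 0 C' + X 2 * pderiv 2 C' = C (c : K) * C') :
    X 0 * pderiv 0 (ff A B C') + X 1 * pderiv 1 (ff A B C') + X 2 * pderiv 2 (ff A B C') =
      C ((3 + na + nb + c : ℕ) : K) * ff A B C' := by
  unfold ff
  have e01 : pderiv (R := K) (0 : Fin 3) (X 1) = 0 := pderiv_X_of_ne (by decide)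
  have e02 : pderiv (R := K) (0 : Fin 3) (X 2) = 0 := pderiv_X_of_ne (by decide)
  have e10 : pderiv (R := K) (1 : Fin 3) (X 0) = 0 := pderiv_X_of_ne (by decide)
  have e12 : pderiv (R := K) (1 : Fin 3) (X 2) = 0 := pderiv_X_of_ne (by decide)
  have e20 : pderiv (R := K) (2 : Fin 3) (X 0) = 0 := pderiv_X_of_ne (by decide)
  have e21 : pderiv (R := K) (2 : Fin 3) (X 1) = 0 := pderiv_X_of_ne (by decide)
  simp only [Derivation.leibniz, smul_eq_mul, pderiv_X_self, e01, e02, e10, e12, e20, e21,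
    hA2, hB0, hC1]
  push_cast
  simp only [C_add]
  have c3 : (C 3 : MvPolynomial (Fin 3) K) = 3 := map_ofNat C 3
  rw [c3]
  linear_combination (X 0 * X 1 * X 2 * B * C') * hA + (X 0 * X 1 * X 2 * A * C') * hB +
    (X 0 * X 1 * X 2 * A * B) * hC

theorem tilde_ff (hA2 : pderiv 2 A = 0)
    (hB0 : pderiv 0 B = 0) (hB : X 1 * pderiv 1 B + X 2 * pderiv 2 B = C (nb : K) * B)
    (hC1 : pderiv 1 C' = 0)
    (hC : X 0 * pderiv 0 C' + X 2 * pderiv 2 C' = C (c : K) * C')
    {u v w : MvPolynomial (Fin 3) K} (h : u * A + v * B + w * C' = 0) :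
    - (X 1 * u * A) * pderiv 1 (ff A B C') + X 2 * w * C' * pderiv 2 (ff A B C') =
      hh A B C' nb c u v w * ff A B C' := by
  unfold ff hh
  have e10 : pderiv (R := K) (1 : Fin 3) (X 0) = 0 := pderiv_X_of_ne (by decide)
  have e12 : pderiv (R := K) (1 : Fin 3) (X 2) = 0 := pderiv_X_of_ne (by decide)
  have e20 : pderiv (R := K) (2 : Fin 3) (X 0) = 0 := pderiv_X_of_ne (by decide)
  have e21 : pderiv (R := K) (2 : Fin 3) (X 1) = 0 := pderiv_X_of_ne (by decide)
  simp only [Derivation.leibniz, smul_eq_mul, pderiv_X_self, e10, e12, e20, e21,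
    hA2, hB0, hC1]
  simp only [C_add, C_1]
  linear_combination (X 0 * X 1 * X 2 * A * C' * (X 2 * pderiv 2 B)) * h -
    (X 0 * X 1 * X 2 * A * C' * u * A) * hB + (X 0 * X 1 * X 2 * A * B * C' * w) * hC

theorem psi_syz [CharZero K] (hA2 : pderiv 2 A = 0)
    (hA : X 0 * pderiv 0 A + X 1 * pderiv 1 A = C (na : K) * A)
    (hB0 : pderiv 0 B = 0) (hB : X 1 * pderiv 1 B + X 2 * pderiv 2 B = C (nb : K) * B)
    (hC1 : pderiv 1 C' = 0)
    (hC : X 0 * pderiv 0 C' + X 2 * pderiv 2 C' = C (c : K) * C')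
    {u v w : MvPolynomial (Fin 3) K} (h : u * A + v * B + w * C' = 0) :
    dd (psi A B C' na nb c u v w) (ff A B C') = 0 := by
  have h1 := euler_ff hA2 hA hB0 hB hC1 hC
  have h2 := tilde_ff hA2 hB0 hB hC1 hC h
  have h3 : (C (id' na nb c) * C ((3 + na + nb + c : ℕ) : K) : MvPolynomial (Fin 3) K) = 1 := by
    rw [← C_mul, id', inv_mul_cancel₀, C_1]
    rw [Nat.cast_ne_zero]; omega
  simp only [dd, psi, Matrix.cons_val_zero, Matrix.cons_val_one, Matrix.cons_val_two,
    Matrix.head_cons, Matrix.tail_cons, Matrix.cons_val]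
  linear_combination h2 - C (id' na nb c) * hh A B C' nb c u v w * h1 -
    hh A B C' nb c u v w * ff A B C' * h3

theorem psi_inj (hA0 : A ≠ 0) (hB0 : B ≠ 0) (hC0 : C' ≠ 0)
    {u v w : MvPolynomial (Fin 3) K} (h : u * A + v * B + w * C' = 0)
    (hψ : psi A B C' na nb c u v w = 0) : u = 0 ∧ v = 0 ∧ w = 0 := by
  have h0 := congrFun hψ 0
  have h1 := congrFun hψ 1
  have h2 := congrFun hψ 2
  simp only [psi, Matrix.cons_val_zero, Matrix.cons_val_one, Matrix.cons_val_two,
    Matrix.head_cons, Matrix.tail_cons, Pi.zero_apply, Matrix.cons_val] at h0 h1 h2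
  have k0 := (mul_eq_zero.1 h0).resolve_left (MvPolynomial.X_ne_zero 0)
  have k1 := (mul_eq_zero.1 h1).resolve_left (MvPolynomial.X_ne_zero 1)
  have k2 := (mul_eq_zero.1 h2).resolve_left (MvPolynomial.X_ne_zero 2)
  have hu : u = 0 := by
    have : u * A = 0 := by linear_combination k0 - k1
    exact (mul_eq_zero.1 this).resolve_right hA0
  have hw : w = 0 := by
    have : w * C' = 0 := by linear_combination k2 - k0
    exact (mul_eq_zero.1 this).resolve_right hC0
  refine ⟨hu, ?_, hw⟩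
  rw [hu, hw] at h
  have : v * B = 0 := by linear_combination h
  exact (mul_eq_zero.1 this).resolve_right hB0

theorem exists_psi [CharZero K] (hA2 : pderiv 2 A = 0)
    (hA : X 0 * pderiv 0 A + X 1 * pderiv 1 A = C (na : K) * A)
    (hB0 : pderiv 0 B = 0) (hB : X 1 * pderiv 1 B + X 2 * pderiv 2 B = C (nb : K) * B)
    (hC1 : pderiv 1 C' = 0)
    (hC : X 0 * pderiv 0 C' + X 2 * pderiv 2 C' = C (c : K) * C')
    (hf0 : ff A B C' ≠ 0)
    {α β γ : MvPolynomial (Fin 3) K} (h1 : A ∣ α - β) (h2 : B ∣ γ - β) (h3 : C' ∣ γ - α)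
    (hθ : dd ![X 0 * α, X 1 * β, X 2 * γ] (ff A B C') = 0) :
    ∃ u v w, u * A + v * B + w * C' = 0 ∧
      ![X 0 * α, X 1 * β, X 2 * γ] = psi A B C' na nb c u v w := by
  obtain ⟨u, hu⟩ := h1
  obtain ⟨v, hv⟩ := h2
  obtain ⟨w, hw⟩ := h3
  have hsyz : u * A + (-v) * B + w * C' = 0 := by linear_combination -hu + hv - hw
  refine ⟨u, -v, w, hsyz, ?_⟩
  have e1 := euler_ff hA2 hA hB0 hB hC1 hC
  have e2 := tilde_ff hA2 hB0 hB hC1 hC hsyz
  have e3 : (C (id' na nb c) * C ((3 + na + nb + c : ℕ) : K) : MvPolynomial (Fin 3) K) = 1 := by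
    rw [← C_mul, id', inv_mul_cancel₀, C_1]
    rw [Nat.cast_ne_zero]; omega
  simp only [dd, Matrix.cons_val_zero, Matrix.cons_val_one, Matrix.cons_val_two,
    Matrix.head_cons, Matrix.tail_cons, Matrix.cons_val] at hθ
  have hβ : β = α - A * u := by linear_combination -hu
  have hγ : γ = α + C' * w := by linear_combination hw
  have e4 : (α * C ((3 + na + nb + c : ℕ) : K) + hh A B C' nb c u (-v) w) * ff A B C' = 0 := by
    rw [hβ, hγ] at hθ
    linear_combination hθ - α * e1 - e2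
  have e5 := (mul_eq_zero.1 e4).resolve_right hf0
  have e6 : α = - (C (id' na nb c) * hh A B C' nb c u (-v) w) := by
    linear_combination C (id' na nb c) * e5 - α * e3
  funext i
  fin_cases i
  · show X 0 * α = X 0 * _
    rw [← e6]
  · show X 1 * β = X 1 * (- (u * A) - C (id' na nb c) * hh A B C' nb c u (-v) w)
    rw [hβ]; linear_combination X 1 * e6
  · show X 2 * γ = X 2 * (w * C' - C (id' na nb c) * hh A B C' nb c u (-v) w)
    rw [hγ]; linear_combination X 2 * e6

end psi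

end Pool.Agent.V1148.JP
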