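import Mathlib

/-!
# Minimal resolutions of Jacobian algebras of plane curves
-/

set_option autoImplicit false

namespace Pool.Agent.V1148.JP

open MvPolynomial

/-- `S = ℂ[x, y, z]`. -/
abbrev S := MvPolynomial (Fin 3) ℂ

/-- `v ↦ v₀ f_x + v₁ f_y + v₂ f_z`, the map `S³ → S` whose cokernel is the Jacobian algebra. -/
noncomputable def jac (f : S) (v : Fin 3 → S) : S := ∑ k, v k * pderiv k f

/-- `p` is an entry of a degree-preserving map `S(-a) → S(-b)`: every monomial of `p` has degree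
`a - b` (so `p = 0` if `a < b`). -/
def HomDeg (p : S) (a b : ℕ) : Prop := ∀ m ∈ p.support, m.degree + b = a

/-- The combination `∑ g_i ρ_i` of vectors. -/
noncomputable def comb {m n : ℕ} (g : Fin m → S) (ρ : Fin m → Fin n → S) : Fin n → S :=
  fun k => ∑ i, g i * ρ i k

/-- The matrices `ρ` and `R` form a minimal graded free resolution
`0 → ⊕_j S(-c_j) → ⊕_i S(1-d-e_i) → S(1-d)³ → S` (with maps `R`, `ρ`, `jac f`)
of the Jacobian algebra of the form `f` of degree `d ≥ 3`. -/
structure IsMinRes (f : S) (d s : ℕ) (e : Fin (s + 2) → ℕ) (c : Fin s → ℕ)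
    (ρ : Fin (s + 2) → Fin 3 → S) (R : Fin s → Fin (s + 2) → S) : Prop where
  /-- the entries of `ρ` have the right degrees -/
  degρ : ∀ i k, HomDeg (ρ i k) (d - 1 + e i) (d - 1)
  /-- the entries of `R` have the right degrees -/
  degR : ∀ j i, HomDeg (R j i) (c j) (d - 1 + e i)
  /-- minimality: no entry of `ρ` is a unit -/
  minρ : ∀ i k, constantCoeff (ρ i k) = 0
  /-- minimality: no entry of `R` is a unit -/
  minR : ∀ j i, constantCoeff (R j i) = 0
  /-- exactness at `S(1-d)³` -/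
  exact1 : ∀ v : Fin 3 → S, jac f v = 0 ↔ ∃ g, v = comb g ρ
  /-- exactness at `⊕_i S(1-d-e_i)` -/
  exact2 : ∀ g : Fin (s + 2) → S, comb g ρ = 0 ↔ ∃ h, g = comb h R
  /-- exactness at `⊕_j S(-c_j)` -/
  exact3 : ∀ h : Fin s → S, comb h R = 0 → h = 0

/-- The plane curve `f = 0` of degree `d` is reduced, non-free, and of class `tT_π`, where `π` is
an ordered partition (a composition) of `t` with `s` parts: the exponents `e 0 ≤ e 1 ≤ …` and the
degrees `c 0 ≤ c 1 ≤ …` in the minimal resolution satisfy `e 0 + e 1 + 1 - d = t` and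
`c j = d + e (j + 2) - 1 + π_j`. -/
def HasClass (f : S) (d : ℕ) {t : ℕ} (π : Composition t) : Prop :=
  3 ≤ d ∧ f.IsHomogeneous d ∧ Squarefree f ∧
    ∃ (e : Fin (π.length + 2) → ℕ) (c : Fin π.length → ℕ)
      (ρ : Fin (π.length + 2) → Fin 3 → S) (R : Fin π.length → Fin (π.length + 2) → S),
      Monotone e ∧ Monotone c ∧ IsMinRes f d π.length e c ρ R ∧
      e 0 + e 1 + 1 = d + t ∧
      ∀ j : Fin π.length, c j + 1 = d + e j.succ.succ + π.blocksFun j

end Pool.Agent.V1148.JP
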