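import Pool.Agent.V1148.JP3
import Pool.Agent.V1148.JPDefs

/-!
# Homogeneous choices
-/

set_option autoImplicit false

namespace Pool.Agent.V1148.JP

open MvPolynomial

theorem uu_hom {K : Type*} [Field K] (a : K) : (uu a).IsHomogeneous 1 := by
  rw [uu_eq]; exact lin_isHomogeneous _

theorem vv_hom {K : Type*} [Field K] (a : K) : (vv a).IsHomogeneous 1 := by
  rw [vv_eq]; exact lin_isHomogeneous _

theorem ll_hom {K : Type*} [Field K] (a : K) : (ll a).IsHomogeneous 1 := by
  rw [ll_eq]; exact lin_isHomogeneous _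

theorem prod_hom {K : Type*} [Field K] {ι : Type*} (s : Finset ι)
    (g : ι → MvPolynomial (Fin 3) K) (h : ∀ i ∈ s, (g i).IsHomogeneous 1) :
    (∏ i ∈ s, g i).IsHomogeneous s.card := by
  have := IsHomogeneous.prod s g (fun _ => 1) h
  simpa using this

namespace Stair

variable {K : Type*} [Field K] (D : Stair K)

/-- number of lines of the third kind -/
def c : ℕ := D.N.card

theorem A_hom : D.A.IsHomogeneous D.na := by
  have := prod_hom (Finset.range D.na) (fun p => uu (D.a p)) (fun p _ => uu_hom _)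
  rwa [Finset.card_range] at this

theorem B_hom : D.B.IsHomogeneous D.nb := by
  have := prod_hom (Finset.range D.nb) (fun p => vv (D.b p)) (fun p _ => vv_hom _)
  rwa [Finset.card_range] at this

theorem C_hom : D.C.IsHomogeneous D.c :=
  prod_hom D.N (fun x => ll (D.b x.2 / D.a x.1)) (fun p _ => ll_hom _)

theorem m_hom (i : ℕ) : (D.m i).IsHomogeneous (D.al i + D.t * i) := by
  have h1 := prod_hom (Finset.range (D.al i)) (fun p => uu (D.a p)) (fun p _ => uu_hom _)
  have h2 := prod_hom (Finset.range (D.t * i)) (fun p => vv (D.b p)) (fun p _ => vv_hom _)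
  rw [Finset.card_range] at h1 h2
  exact h1.mul h2

theorem du_hom (j : ℕ) : (D.du j).IsHomogeneous (D.al j - D.al (j + 1)) := by
  have h1 := prod_hom (Finset.Ico (D.al (j + 1)) (D.al j)) (fun p => uu (D.a p))
    (fun p _ => uu_hom _)
  rwa [Nat.card_Ico] at h1

theorem dv_hom (j : ℕ) : (D.dv j).IsHomogeneous D.t := by
  have h1 := prod_hom (Finset.Ico (D.t * j) (D.t * (j + 1))) (fun p => vv (D.b p))
    (fun p _ => vv_hom _)
  rw [Nat.card_Ico, Nat.mul_succ, Nat.add_sub_cancel_left] at h1
  exact h1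

theorem A_ne : D.A ≠ 0 := UU_ne _ _

theorem B_ne : D.B ≠ 0 := VV_ne _ _

theorem C_ne : D.C ≠ 0 := Finset.prod_ne_zero_iff.2 (fun _ _ => (ll_prime _).ne_zero)

theorem card_bound : D.na + D.nb ≤ D.c + 1 := by
  have h1 : (Finset.range D.nb).image (fun q => (D.t, q)) ∪
      (Finset.range D.t).image (fun p => (p, D.nb - 1)) ⊆ D.N := by
    intro x hx
    rw [Finset.mem_union, Finset.mem_image, Finset.mem_image] at hx
    rw [N, Finset.mem_filter, Finset.mem_product, Finset.mem_range, Finset.mem_range]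
    rcases hx with ⟨q, hq, rfl⟩ | ⟨p, hp, rfl⟩
    · have h0 := D.lam1 0 (Nat.zero_le _) D.t (by rw [D.al0])
      rw [Finset.mem_range] at hq
      refine ⟨⟨?_, hq⟩, ?_⟩
      · show D.t < D.na
        unfold na; omega
      · show D.lam D.t ≤ q
        omega
    · have h0 := D.lam1 D.s le_rfl p (by rw [D.als]; omega)
      rw [Finset.mem_range] at hp
      refine ⟨⟨?_, ?_⟩, ?_⟩
      · show p < D.na
        unfold na; omega
      · show D.nb - 1 < D.nb
        unfold nb; omega
      · show D.lam p ≤ D.nb - 1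
        unfold nb; omega
  have h2 := Finset.card_le_card h1
  rw [Finset.card_union_of_disjoint, Finset.card_image_of_injective,
    Finset.card_image_of_injective, Finset.card_range, Finset.card_range] at h2
  · show D.na + D.nb ≤ D.N.card + 1
    have : D.na = D.t + 1 := rfl
    omega
  · intro p q h
    exact (Prod.mk.inj h).1
  · intro p q h
    exact (Prod.mk.inj h).2
  · rw [Finset.disjoint_left]
    rintro x hx hx'
    rw [Finset.mem_image] at hx hx'
    obtain ⟨q, hq, rfl⟩ := hx
    obtain ⟨p, hp, hpq⟩ := hx'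
    rw [Finset.mem_range] at hp
    have := (Prod.mk.inj hpq).1
    omega

theorem al_le (i : ℕ) (hi : i ≤ D.s) : D.al i ≤ D.t := by
  have := D.al_anti (Nat.zero_le i) hi
  rwa [D.al0] at this

theorem deg_mono {i j : ℕ} (hij : i ≤ j) (hj : j ≤ D.s) :
    D.al i + D.t * i ≤ D.al j + D.t * j := by
  rcases Nat.eq_or_lt_of_le hij with rfl | h
  · exact le_rfl
  · have h1 := D.al_le i (by omega)
    have h2 : D.t * (i + 1) ≤ D.t * j := Nat.mul_le_mul_left D.t h
    rw [Nat.mul_succ] at h2
    omega

theorem exists_xy : ∃ x y : ℕ → MvPolynomial (Fin 3) K, ∀ i ≤ D.s,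
    (x i).IsHomogeneous (D.c + (D.al i + D.t * i) - D.na) ∧
    (y i).IsHomogeneous (D.c + (D.al i + D.t * i) - D.nb) ∧
    D.C * D.m i = x i * D.A + y i * D.B := by
  have h : ∀ i : ℕ, ∃ x y : MvPolynomial (Fin 3) K, i ≤ D.s →
      x.IsHomogeneous (D.c + (D.al i + D.t * i) - D.na) ∧
      y.IsHomogeneous (D.c + (D.al i + D.t * i) - D.nb) ∧
      D.C * D.m i = x * D.A + y * D.B := by
    intro i
    by_cases hi : i ≤ D.s
    · obtain ⟨x, y, hxy⟩ := D.C_mul_m i hi
      refine ⟨homogeneousComponent (D.c + (D.al i + D.t * i) - D.na) x,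
        homogeneousComponent (D.c + (D.al i + D.t * i) - D.nb) y, fun _ =>
        ⟨homogeneousComponent_isHomogeneous _ _, homogeneousComponent_isHomogeneous _ _, ?_⟩⟩
      have hb := D.card_bound
      have h1 : homogeneousComponent (D.c + (D.al i + D.t * i)) (D.C * D.m i) =
          D.C * D.m i := homogeneousComponent_eq_self (D.C_hom.mul (D.m_hom i))
      have ha1 : 1 ≤ D.na := by unfold na; omega
      have hb1 : 1 ≤ D.nb := by unfold nb; omega
      rw [hxy, map_add, homogeneousComponent_mul_right D.A_hom,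
        homogeneousComponent_mul_right D.B_hom, if_pos (by omega), if_pos (by omega)] at h1
      rw [hxy]
      exact h1.symm
    · exact ⟨0, 0, fun h => absurd h hi⟩
  choose x y hxy using h
  exact ⟨x, y, hxy⟩

theorem A_B_relPrime : IsRelPrime D.A D.B :=
  prod_relPrime (P := Finset.range D.na) (Q := Finset.range D.nb) D.a D.b

theorem exists_kap (x y : ℕ → MvPolynomial (Fin 3) K) (hxy : ∀ i ≤ D.s,
    (x i).IsHomogeneous (D.c + (D.al i + D.t * i) - D.na) ∧
    (y i).IsHomogeneous (D.c + (D.al i + D.t * i) - D.nb) ∧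
    D.C * D.m i = x i * D.A + y i * D.B) (j : ℕ) (hj : j < D.s) :
    ∃ κ : MvPolynomial (Fin 3) K, D.du j * x (j + 1) - D.dv j * x j = - (κ * D.B) ∧
      D.du j * y (j + 1) - D.dv j * y j = κ * D.A ∧
      κ.IsHomogeneous (D.c + D.al j + D.t * (j + 1) - D.na - D.nb) := by
  obtain ⟨hx0, hy0, h0⟩ := hxy j hj.le
  obtain ⟨hx1, hy1, h1⟩ := hxy (j + 1) hj
  have hdd := D.du_dv j hj
  have key : (D.du j * x (j + 1) - D.dv j * x j) * D.A +
      (D.du j * y (j + 1) - D.dv j * y j) * D.B = 0 := by
    linear_combination D.C * hdd - D.du j * h1 + D.dv j * h0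
  have hB : D.B ∣ D.du j * x (j + 1) - D.dv j * x j := by
    have : D.B ∣ (D.du j * x (j + 1) - D.dv j * x j) * D.A :=
      ⟨-(D.du j * y (j + 1) - D.dv j * y j), by linear_combination key⟩
    exact D.A_B_relPrime.symm.dvd_of_dvd_mul_right this
  obtain ⟨k, hk⟩ := hB
  refine ⟨-k, by rw [hk]; ring, ?_, ?_⟩
  · have : ((D.du j * y (j + 1) - D.dv j * y j) - (-k) * D.A) * D.B = 0 := by
      rw [hk] at key; linear_combination key
    exact sub_eq_zero.1 ((mul_eq_zero.1 this).resolve_right D.B_ne)
  · have hb := D.card_bound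
    have hdec := D.dec j hj
    have ht := D.al_le j hj.le
    have ha1 : D.na = D.t + 1 := rfl
    have hb1 : 1 ≤ D.nb := by unfold nb; omega
    have hn : D.al j - D.al (j + 1) + (D.c + (D.al (j + 1) + D.t * (j + 1)) - D.na) =
        D.c + D.al j + D.t * (j + 1) - D.na := by omega
    have hn2 : D.t + (D.c + (D.al j + D.t * j) - D.na) =
        D.c + D.al j + D.t * (j + 1) - D.na := by
      rw [Nat.mul_succ]; omega
    have hhom : (k * D.B).IsHomogeneous (D.c + D.al j + D.t * (j + 1) - D.na) := by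
      rw [mul_comm, ← hk]
      apply IsHomogeneous.sub
      · have := (D.du_hom j).mul hx1
        rwa [hn] at this
      · have := (D.dv_hom j).mul hx0
        rwa [hn2] at this
    have := isHomogeneous_of_mul_right D.B_hom D.B_ne hhom (by omega)
    exact this.neg

end Stair

end Pool.Agent.V1148.JP
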