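import Pool.Agent.V1148.JP4

/-!
# The minimal resolution
-/

set_option autoImplicit false

namespace Pool.Agent.V1148.JP

open MvPolynomial

theorem jac_eq (f : S) (v : Fin 3 → S) : jac f v = dd v f := by
  simp [jac, dd, Fin.sum_univ_three]

theorem HomDeg.of {p : S} {n a b : ℕ} (h : p.IsHomogeneous n) (hn : n + b = a) :
    HomDeg p a b := by
  intro m hm
  have := h (mem_support_iff.1 hm)
  rw [← hn, ← this, Finsupp.degree_eq_weight_one]; rfl

theorem constantCoeff_of {p : S} {n : ℕ} (h : p.IsHomogeneous n) (hn : 0 < n) :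
    constantCoeff p = 0 := by
  rw [constantCoeff_eq]
  apply h.coeff_eq_zero
  simp; omega

theorem neg_hom {K : Type*} [Field K] {p : MvPolynomial (Fin 3) K} {n : ℕ}
    (h : p.IsHomogeneous n) : (-p).IsHomogeneous n := h.neg

section psi

variable {K : Type*} [Field K] (A B C' : MvPolynomial (Fin 3) K) (na nb c : ℕ)

/-- `psi` as a linear map -/
noncomputable def psiL : (Fin 3 → MvPolynomial (Fin 3) K) →ₗ[MvPolynomial (Fin 3) K]
    (Fin 3 → MvPolynomial (Fin 3) K) where
  toFun z := psi A B C' na nb c (z 0) (z 1) (z 2)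
  map_add' z z' := by
    funext i
    fin_cases i <;> simp [psi, hh] <;> ring
  map_smul' g z := by
    funext i
    fin_cases i <;> simp [psi, hh] <;> ring

theorem psi_hom {A B C' : MvPolynomial (Fin 3) K} {na nb c : ℕ}
    {u v w : MvPolynomial (Fin 3) K} {n : ℕ} (h1 : (u * A).IsHomogeneous n)
    (h2 : (w * C').IsHomogeneous n) (h3 : (u * (X 1 * pderiv 1 A)).IsHomogeneous n)
    (h4 : (v * (X 2 * pderiv 2 B)).IsHomogeneous n)
    (h5 : (w * (X 0 * pderiv 0 C')).IsHomogeneous n) (i : Fin 3) :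
    (psi A B C' na nb c u v w i).IsHomogeneous (n + 1) := by
  have hC : ∀ (a : K) {p : MvPolynomial (Fin 3) K}, p.IsHomogeneous n →
      (C a * p).IsHomogeneous n := by
    intro a p hp
    have := (isHomogeneous_C (Fin 3) a).mul hp
    rwa [zero_add] at this
  have hH : (hh A B C' nb c u v w).IsHomogeneous n := by
    unfold hh
    exact ((((hC _ h1).neg.add (hC _ h2)).sub h3).sub h4).sub h5
  have hX : ∀ (j : Fin 3) {p : MvPolynomial (Fin 3) K}, p.IsHomogeneous n →
      (X j * p).IsHomogeneous (n + 1) := by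
    intro j p hp
    have := (isHomogeneous_X K j).mul hp
    rwa [add_comm] at this
  fin_cases i
  · exact hX 0 (hC _ hH).neg
  · exact hX 1 (h1.neg.sub (hC _ hH))
  · exact hX 2 (h2.sub (hC _ hH))

theorem X_pderiv_hom {p : MvPolynomial (Fin 3) K} {n : ℕ} (h : p.IsHomogeneous n) (i : Fin 3) :
    (X i * pderiv i p).IsHomogeneous n := by
  rcases Nat.eq_zero_or_pos n with rfl | hn
  · have : p = C (coeff 0 p) := by
      apply totalDegree_eq_zero_iff_eq_C.1
      exact Nat.le_zero.1 h.totalDegree_le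
    rw [this, pderiv_C, mul_zero]
    exact isHomogeneous_zero _ _ _
  · have h1 := (isHomogeneous_X K i).mul (h.pderiv (i := i))
    have : 1 + (n - 1) = n := by omega
    rwa [this] at h1

end psi

namespace Stair

variable (D : Stair ℂ)

/-- the product of all lines -/
noncomputable def F : S := ff D.A D.B D.C

/-- the degree -/
noncomputable def deg : ℕ := 3 + D.na + D.nb + D.c

theorem F_hom : D.F.IsHomogeneous D.deg := by
  unfold F ff deg
  have h1 := ((isHomogeneous_X ℂ (0 : Fin 3)).mul (isHomogeneous_X ℂ (1 : Fin 3))).mul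
    (isHomogeneous_X ℂ (2 : Fin 3))
  have h2 := h1.mul ((D.A_hom.mul D.B_hom).mul D.C_hom)
  have : 1 + 1 + 1 + (D.na + D.nb + D.c) = 3 + D.na + D.nb + D.c := by omega
  rwa [this] at h2

theorem A_prod : D.A = ∏ p ∈ Finset.range D.na, uu (D.a p) := rfl

theorem B_prod : D.B = ∏ p ∈ Finset.range D.nb, vv (D.b p) := rfl

theorem N_ratio {x y : ℕ × ℕ} (hx : x ∈ D.N) (hy : y ∈ D.N) (h : x ≠ y) :
    D.b x.2 / D.a x.1 ≠ D.b y.2 / D.a y.1 := by
  intro h1
  rw [N, Finset.mem_filter, Finset.mem_product, Finset.mem_range, Finset.mem_range] at hx hy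
  obtain ⟨e1, e2⟩ := D.ratio _ _ _ _ hx.1.1 hy.1.1 h1
  exact h (Prod.ext e1 e2)

theorem F_sqf : Squarefree D.F := by
  have hA : Squarefree D.A := by
    rw [A_prod]
    exact sqf_prod _ _ (fun _ _ => uu_prime _) (fun i _ j _ h => uu_uu (fun e => h (D.ha e)))
  have hB : Squarefree D.B := by
    rw [B_prod]
    exact sqf_prod _ _ (fun _ _ => vv_prime _) (fun i _ j _ h => vv_vv (fun e => h (D.hb e)))
  have hC : Squarefree D.C := sqf_prod _ _ (fun _ _ => ll_prime _)
    (fun i hi j hj h => ll_ll (D.N_ratio hi hj h))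
  have hr : ∀ x : ℕ × ℕ, D.b x.2 / D.a x.1 ≠ 0 := fun x => div_ne_zero (D.hb0 _) (D.ha0 _)
  have hX : ∀ i : Fin 3, Prime (X i : MvPolynomial (Fin 3) ℂ) := by
    intro i
    exact X_prime
  unfold F ff
  rw [squarefree_mul_iff, squarefree_mul_iff, squarefree_mul_iff, squarefree_mul_iff,
    squarefree_mul_iff]
  refine ⟨?_, ⟨?_, ⟨?_, (hX 0).squarefree, (hX 1).squarefree⟩, (hX 2).squarefree⟩,
    ⟨?_, ⟨?_, hA, hB⟩, hC⟩⟩
  · have hA' : ∀ i : Fin 3, IsRelPrime (X i) D.A := by
      intro i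
      rw [A_prod]
      apply IsRelPrime.prod_right
      intro p _
      fin_cases i
      · exact X0_uu (D.ha0 p)
      · exact X1_uu _
      · exact X2_uu _
    have hB' : ∀ i : Fin 3, IsRelPrime (X i) D.B := by
      intro i
      rw [B_prod]
      apply IsRelPrime.prod_right
      intro p _
      fin_cases i
      · exact X0_vv _
      · exact X1_vv _
      · exact X2_vv (D.hb0 p)
    have hC' : ∀ i : Fin 3, IsRelPrime (X i) D.C := by
      intro i
      apply IsRelPrime.prod_right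
      intro p _
      fin_cases i
      · exact X0_ll _
      · exact X1_ll _
      · exact X2_ll (hr p)
    have h1 : ∀ i : Fin 3, IsRelPrime (X i) (D.A * D.B * D.C) := fun i =>
      ((hA' i).mul_right (hB' i)).mul_right (hC' i)
    exact ((h1 0).mul_left (h1 1)).mul_left (h1 2)
  · exact (X_X (by decide)).mul_left (X_X (by decide))
  · exact X_X (by decide)
  · apply IsRelPrime.mul_left
    · rw [A_prod]
      apply IsRelPrime.prod_left
      intro p _
      apply IsRelPrime.prod_right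
      intro q _
      exact uu_ll _ _
    · rw [B_prod]
      apply IsRelPrime.prod_left
      intro p _
      apply IsRelPrime.prod_right
      intro q _
      exact vv_ll _ (hr q)
  · exact D.A_B_relPrime

theorem X_dvd_F (i : Fin 3) : (X i : S) ∣ D.F := by
  unfold F ff
  fin_cases i
  · exact ⟨X 1 * X 2 * (D.A * D.B * D.C), by simp; ring⟩
  · exact ⟨X 0 * X 2 * (D.A * D.B * D.C), by simp; ring⟩
  · exact ⟨X 0 * X 1 * (D.A * D.B * D.C), by simp; ring⟩

theorem A_dvd_F : D.A ∣ D.F := ⟨X 0 * X 1 * X 2 * (D.B * D.C), by unfold F ff; ring⟩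

theorem B_dvd_F : D.B ∣ D.F := ⟨X 0 * X 1 * X 2 * (D.A * D.C), by unfold F ff; ring⟩

theorem C_dvd_F : D.C ∣ D.F := ⟨X 0 * X 1 * X 2 * (D.A * D.B), by unfold F ff; ring⟩

theorem euler_A : pderiv 2 D.A = 0 ∧
    X 0 * pderiv 0 D.A + X 1 * pderiv 1 D.A = MvPolynomial.C (D.na : ℂ) * D.A := UU_two _ _

theorem euler_B : pderiv 0 D.B = 0 ∧
    X 1 * pderiv 1 D.B + X 2 * pderiv 2 D.B = MvPolynomial.C (D.nb : ℂ) * D.B := VV_two _ _

theorem euler_C : pderiv 1 D.C = 0 ∧
    X 0 * pderiv 0 D.C + X 2 * pderiv 2 D.C = MvPolynomial.C (D.c : ℂ) * D.C := LL_two _ _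

theorem F_ne : D.F ≠ 0 := D.F_sqf.ne_zero

/-- Every Jacobian syzygy comes from a syzygy of the three products. -/
theorem exists_of_jac (θ : Fin 3 → S) (hθ : jac D.F θ = 0) :
    ∃ u v w, u * D.A + v * D.B + w * D.C = 0 ∧ θ = psi D.A D.B D.C D.na D.nb D.c u v w := by
  rw [jac_eq] at hθ
  have hX : ∀ i : Fin 3, (X i : S) ∣ θ i := by
    intro i
    have := dvd_dd D.F_sqf X_prime (D.X_dvd_F i) hθ
    rwa [dd_X] at this
  obtain ⟨α, hα⟩ := hX 0
  obtain ⟨β, hβ⟩ := hX 1
  obtain ⟨γ, hγ⟩ := hX 2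
  have hθ' : θ = ![X 0 * α, X 1 * β, X 2 * γ] := by
    funext i; fin_cases i
    · exact hα
    · exact hβ
    · exact hγ
  have hA : D.A ∣ α - β := by
    rw [A_prod]
    apply Finset.prod_dvd_of_isRelPrime
    · intro i _ j _ h
      exact uu_uu (fun e => h (D.ha e))
    · intro p hp
      have h1 : uu (D.a p) ∣ D.F := (Finset.dvd_prod_of_mem (fun p => uu (D.a p)) hp).trans D.A_dvd_F
      have h2 := dvd_dd D.F_sqf (uu_prime _) h1 hθ
      rw [dd_uu, hα, hβ] at h2
      have h3 : uu (D.a p) ∣ X 1 * (α - β) * MvPolynomial.C (D.a p) := by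
        have : X 1 * (α - β) * MvPolynomial.C (D.a p) =
            (X 0 * α - MvPolynomial.C (D.a p) * (X 1 * β)) - uu (D.a p) * α := by
          unfold uu; ring
        rw [this]
        exact dvd_sub h2 (dvd_mul_right _ _)
      have hu : IsUnit (MvPolynomial.C (D.a p) : S) :=
        (isUnit_iff_ne_zero.2 (D.ha0 p)).map MvPolynomial.C
      rw [hu.dvd_mul_right] at h3
      exact (X1_uu (D.a p)).symm.dvd_of_dvd_mul_left h3
  have hB : D.B ∣ γ - β := by
    rw [B_prod]
    apply Finset.prod_dvd_of_isRelPrime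
    · intro i _ j _ h
      exact vv_vv (fun e => h (D.hb e))
    · intro p hp
      have h1 : vv (D.b p) ∣ D.F := (Finset.dvd_prod_of_mem (fun p => vv (D.b p)) hp).trans D.B_dvd_F
      have h2 := dvd_dd D.F_sqf (vv_prime _) h1 hθ
      rw [dd_vv, hγ, hβ] at h2
      have h3 : vv (D.b p) ∣ X 1 * (γ - β) * MvPolynomial.C (D.b p) := by
        have : X 1 * (γ - β) * MvPolynomial.C (D.b p) =
            (X 2 * γ - MvPolynomial.C (D.b p) * (X 1 * β)) - vv (D.b p) * γ := by
          unfold vv; ring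
        rw [this]
        exact dvd_sub h2 (dvd_mul_right _ _)
      have hu : IsUnit (MvPolynomial.C (D.b p) : S) :=
        (isUnit_iff_ne_zero.2 (D.hb0 p)).map MvPolynomial.C
      rw [hu.dvd_mul_right] at h3
      exact (X1_vv (D.b p)).symm.dvd_of_dvd_mul_left h3
  have hC : D.C ∣ γ - α := by
    apply Finset.prod_dvd_of_isRelPrime
    · intro i hi j hj h
      exact ll_ll (D.N_ratio hi hj h)
    · intro p hp
      have h1 : ll (D.b p.2 / D.a p.1) ∣ D.F :=
        (Finset.dvd_prod_of_mem (fun x : ℕ × ℕ => ll (D.b x.2 / D.a x.1)) hp).trans D.C_dvd_F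
      have h2 := dvd_dd D.F_sqf (ll_prime _) h1 hθ
      have hr : D.b p.2 / D.a p.1 ≠ 0 := div_ne_zero (D.hb0 _) (D.ha0 _)
      set r := D.b p.2 / D.a p.1
      rw [dd_ll, hγ, hα] at h2
      have h3 : ll r ∣ X 0 * (γ - α) * MvPolynomial.C r := by
        have : X 0 * (γ - α) * MvPolynomial.C r =
            (X 2 * γ - MvPolynomial.C r * (X 0 * α)) - ll r * γ := by
          unfold ll; ring
        rw [this]
        exact dvd_sub h2 (dvd_mul_right _ _)
      have hu : IsUnit (MvPolynomial.C r : S) :=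
        (isUnit_iff_ne_zero.2 hr).map MvPolynomial.C
      rw [hu.dvd_mul_right] at h3
      exact (X0_ll r).symm.dvd_of_dvd_mul_left h3
  rw [hθ'] at hθ ⊢
  exact exists_psi D.euler_A.1 D.euler_A.2 D.euler_B.1 D.euler_B.2 D.euler_C.1 D.euler_C.2
    D.F_ne hA hB hC hθ

end Stair

end Pool.Agent.V1148.JP
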