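import Pool.Agent.V1148.JP5

/-!
# The minimal resolution, assembled
-/

set_option autoImplicit false

namespace Pool.Agent.V1148.JP

open MvPolynomial

theorem comb_eq_sum {m n : ℕ} (g : Fin m → S) (ρ : Fin m → Fin n → S) :
    comb g ρ = ∑ i, g i • ρ i := by
  funext k
  simp [comb, Finset.sum_apply]

theorem comb_comb {m n l : ℕ} (h : Fin m → S) (R : Fin m → Fin n → S) (ρ : Fin n → Fin l → S) :
    comb (comb h R) ρ = comb h (fun j => comb (R j) ρ) := by
  funext k
  simp only [comb, Finset.sum_mul, Finset.mul_sum]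
  rw [Finset.sum_comm]
  refine Finset.sum_congr rfl fun i _ => Finset.sum_congr rfl fun j _ => by ring

theorem comb_zero {m n : ℕ} (h : Fin m → S) : comb h (fun _ => (0 : Fin n → S)) = 0 := by
  funext k; simp [comb]

theorem jac_comb {m : ℕ} (f : S) (g : Fin m → S) (ρ : Fin m → Fin 3 → S)
    (h : ∀ i, jac f (ρ i) = 0) : jac f (comb g ρ) = 0 := by
  have e : jac f (comb g ρ) = ∑ i, g i * jac f (ρ i) := by
    simp only [jac, comb, Finset.sum_mul, Finset.mul_sum]
    rw [Finset.sum_comm]
    refine Finset.sum_congr rfl fun i _ => Finset.sum_congr rfl fun j _ => by ring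
  rw [e]
  exact Finset.sum_eq_zero (fun i _ => by rw [h, mul_zero])

theorem HomDeg.zero (a b : ℕ) : HomDeg 0 a b := by
  intro m hm; simp at hm

namespace Stair

variable (D : Stair ℂ) (x y κ : ℕ → S)

/-- The syzygies of the three products. -/
noncomputable def sv : Fin (D.s + 2) → Fin 3 → S :=
  Fin.cons ![D.B, -D.A, 0] (fun i : Fin (D.s + 1) => ![- x i, - y i, D.m i])

/-- The Jacobian syzygies. -/
noncomputable def rho (i : Fin (D.s + 2)) : Fin 3 → S :=
  psiL D.A D.B D.C D.na D.nb D.c (D.sv x y i)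

/-- The relations. -/
noncomputable def Rm (j : Fin D.s) : Fin (D.s + 2) → S :=
  Fin.cons (- κ j) (fun i : Fin (D.s + 1) => D.rel j i)

/-- The exponents. -/
noncomputable def ee (i : Fin (D.s + 2)) : ℕ :=
  if i.val = 0 then D.na + D.nb + 1 else D.al (i.val - 1) + D.t * (i.val - 1) + D.c + 1

/-- The degrees of the relations. -/
noncomputable def cd (j : Fin D.s) : ℕ := D.deg + D.c + D.al j + D.t * (j + 1)

theorem comb_rho (g : Fin (D.s + 2) → S) : comb g (D.rho x y) =
    psiL D.A D.B D.C D.na D.nb D.c (comb g (D.sv x y)) := by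
  rw [comb_eq_sum, comb_eq_sum, map_sum]
  refine Finset.sum_congr rfl fun i _ => ?_
  rw [map_smul]; rfl

theorem comb_sv (g : Fin (D.s + 2) → S) :
    comb g (D.sv x y) = ![g 0 * D.B - ∑ i : Fin (D.s + 1), g i.succ * x i,
      - (g 0 * D.A) - ∑ i : Fin (D.s + 1), g i.succ * y i,
      ∑ i : Fin (D.s + 1), g i.succ * D.m i] := by
  funext k
  simp only [comb, sv]
  rw [Fin.sum_univ_succ]
  fin_cases k
  · simp [Finset.sum_neg_distrib]; ring
  · simp [Finset.sum_neg_distrib]; ring
  · simp

variable {x y κ}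

variable (hxy : ∀ i ≤ D.s,
    (x i).IsHomogeneous (D.c + (D.al i + D.t * i) - D.na) ∧
    (y i).IsHomogeneous (D.c + (D.al i + D.t * i) - D.nb) ∧
    D.C * D.m i = x i * D.A + y i * D.B)
  (hκ : ∀ j < D.s, D.du j * x (j + 1) - D.dv j * x j = - (κ j * D.B) ∧
      D.du j * y (j + 1) - D.dv j * y j = κ j * D.A ∧
      (κ j).IsHomogeneous (D.c + D.al j + D.t * (j + 1) - D.na - D.nb))

include hxy in
theorem comb_sv_syz (g : Fin (D.s + 2) → S) :
    (comb g (D.sv x y)) 0 * D.A + (comb g (D.sv x y)) 1 * D.B +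
      (comb g (D.sv x y)) 2 * D.C = 0 := by
  rw [comb_sv]
  simp only [Matrix.cons_val_zero, Matrix.cons_val_one, Matrix.cons_val]
  have h : ∀ i : Fin (D.s + 1), g i.succ * D.m i * D.C =
      g i.succ * x i * D.A + g i.succ * y i * D.B := by
    intro i
    have := (hxy i (by omega)).2.2
    linear_combination g i.succ * this
  have h2 : (∑ i : Fin (D.s + 1), g i.succ * D.m i) * D.C =
      (∑ i : Fin (D.s + 1), g i.succ * x i) * D.A +
      (∑ i : Fin (D.s + 1), g i.succ * y i) * D.B := by
    rw [Finset.sum_mul, Finset.sum_mul, Finset.sum_mul, ← Finset.sum_add_distrib]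
    exact Finset.sum_congr rfl (fun i _ => h i)
  linear_combination h2

include hκ in
theorem comb_Rm (j : Fin D.s) : comb (D.Rm κ j) (D.sv x y) = 0 := by
  rw [comb_sv]
  have h0 : D.Rm κ j 0 = - κ j := rfl
  have h1 : ∀ i : Fin (D.s + 1), D.Rm κ j i.succ = D.rel j i := fun i => rfl
  have h2 : ∀ c : ℕ → S, ∑ i : Fin (D.s + 1), D.Rm κ j i.succ * c i =
      D.du j * c (j + 1) - D.dv j * c j := by
    intro c
    simp only [h1]
    rw [← D.sum_rel c j.2, Finset.sum_range]
  rw [h0, h2 x, h2 y, h2 D.m]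
  obtain ⟨k1, k2, -⟩ := hκ j j.2
  have k3 := D.du_dv j j.2
  funext k
  fin_cases k
  · show - κ j * D.B - _ = 0
    rw [k1]; ring
  · show - (- κ j * D.A) - _ = 0
    rw [k2]; ring
  · show D.du j * D.m (j + 1) - D.dv j * D.m j = 0
    rw [k3]; ring

include hxy in
theorem jac_rho (i : Fin (D.s + 2)) : jac D.F (D.rho x y i) = 0 := by
  rw [jac_eq]
  have h := D.comb_sv_syz hxy (Pi.single i 1)
  have e : comb (Pi.single i 1) (D.sv x y) = D.sv x y i := by
    rw [comb_eq_sum, Finset.sum_eq_single i]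
    · rw [Pi.single_eq_same, one_smul]
    · intro j _ hj
      rw [Pi.single_eq_of_ne hj, zero_smul]
    · intro h; exact absurd (Finset.mem_univ i) h
  rw [e] at h
  exact psi_syz D.euler_A.1 D.euler_A.2 D.euler_B.1 D.euler_B.2 D.euler_C.1 D.euler_C.2 h

include hxy in
theorem exact1 (v : Fin 3 → S) : jac D.F v = 0 ↔ ∃ g, v = comb g (D.rho x y) := by
  constructor
  · intro hv
    obtain ⟨u, v', w, h, rfl⟩ := D.exists_of_jac v hv
    have hw := D.quotient_mem h
    rw [Ideal.mem_span_range_iff_exists_fun] at hw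
    obtain ⟨c, hc⟩ := hw
    have hsum : (∑ i : Fin (D.s + 1), c i * D.m i) * D.C =
        (∑ i : Fin (D.s + 1), c i * x i) * D.A + (∑ i : Fin (D.s + 1), c i * y i) * D.B := by
      rw [Finset.sum_mul, Finset.sum_mul, Finset.sum_mul, ← Finset.sum_add_distrib]
      refine Finset.sum_congr rfl fun i _ => ?_
      have := (hxy i (by omega)).2.2
      linear_combination c i * this
    set sx := ∑ i : Fin (D.s + 1), c i * x i with hsx
    set sy := ∑ i : Fin (D.s + 1), c i * y i with hsy
    rw [hc] at hsum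
    have h1 : (u + sx) * D.A + (v' + sy) * D.B = 0 := by linear_combination h - hsum
    have h2 : D.B ∣ u + sx := by
      have : D.B ∣ (u + sx) * D.A := ⟨-(v' + sy), by linear_combination h1⟩
      exact D.A_B_relPrime.symm.dvd_of_dvd_mul_right this
    obtain ⟨g0, hg0⟩ := h2
    have h3 : v' + sy = - (g0 * D.A) := by
      have : (v' + sy + g0 * D.A) * D.B = 0 := by rw [hg0] at h1; linear_combination h1
      have := (mul_eq_zero.1 this).resolve_right D.B_ne
      linear_combination this
    refine ⟨Fin.cons g0 c, ?_⟩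
    rw [comb_rho, comb_sv]
    simp only [Fin.cons_zero, Fin.cons_succ]
    rw [hc, ← hsx, ← hsy]
    have e0 : g0 * D.B - sx = u := by linear_combination -hg0
    have e1 : -(g0 * D.A) - sy = v' := by linear_combination -h3
    rw [e0, e1]
    rfl
  · rintro ⟨g, rfl⟩
    exact jac_comb _ _ _ (D.jac_rho hxy)

include hxy hκ in
theorem exact2 (g : Fin (D.s + 2) → S) :
    comb g (D.rho x y) = 0 ↔ ∃ h, g = comb h (D.Rm κ) := by
  constructor
  · intro hg
    rw [comb_rho] at hg
    have hsyz := D.comb_sv_syz hxy g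
    obtain ⟨z0, -, z2⟩ := psi_inj D.A_ne D.B_ne D.C_ne hsyz hg
    rw [comb_sv] at z0 z2
    simp only [Matrix.cons_val_zero, Matrix.cons_val] at z0 z2
    let G : ℕ → S := fun i => if h : i < D.s + 1 then g (Fin.succ ⟨i, h⟩) else 0
    have hG : ∀ i : Fin (D.s + 1), G i = g i.succ := by
      intro i
      simp only [G]
      rw [dif_pos i.2]
    have hsum : ∀ c : ℕ → S, ∑ i : Fin (D.s + 1), g i.succ * c i =
        ∑ i ∈ Finset.range (D.s + 1), G i * c i := by
      intro c
      rw [Finset.sum_range]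
      exact Finset.sum_congr rfl (fun i _ => by rw [hG])
    rw [hsum] at z2
    obtain ⟨h, hh⟩ := D.syz_m D.s le_rfl G z2
    refine ⟨fun j => h j, ?_⟩
    have hx : ∑ i ∈ Finset.range (D.s + 1), G i * x i =
        - ((∑ j : Fin D.s, h j * κ j) * D.B) := by
      have e1 : ∑ i ∈ Finset.range (D.s + 1), G i * x i =
          ∑ i ∈ Finset.range (D.s + 1), ∑ j ∈ Finset.range D.s, h j * (D.rel j i * x i) := by
        refine Finset.sum_congr rfl fun i hi => ?_
        rw [hh i (by have := Finset.mem_range.1 hi; omega), Finset.sum_mul]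
        exact Finset.sum_congr rfl (fun j _ => by ring)
      rw [e1, Finset.sum_comm]
      have e2 : ∀ j ∈ Finset.range D.s, ∑ i ∈ Finset.range (D.s + 1),
          h j * (D.rel j i * x i) = - (h j * κ j * D.B) := by
        intro j hj
        rw [← Finset.mul_sum, D.sum_rel x (Finset.mem_range.1 hj),
          (hκ j (Finset.mem_range.1 hj)).1]
        ring
      rw [Finset.sum_congr rfl e2, Finset.sum_neg_distrib, ← Finset.sum_mul, Finset.sum_range]
    funext i
    refine Fin.cases ?_ (fun i => ?_) i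
    · have : (g 0 + ∑ j : Fin D.s, h j * κ j) * D.B = 0 := by
        rw [hsum, hx] at z0
        linear_combination z0
      have := (mul_eq_zero.1 this).resolve_right D.B_ne
      show g 0 = ∑ j : Fin D.s, h j * (- κ j)
      have e : ∑ j : Fin D.s, h j * (- κ j) = - ∑ j : Fin D.s, h j * κ j := by
        rw [← Finset.sum_neg_distrib]
        exact Finset.sum_congr rfl (fun j _ => by ring)
      rw [e]
      linear_combination this
    · show g i.succ = ∑ j : Fin D.s, h j * D.rel j i
      rw [← hG, hh i (by omega), Finset.sum_range]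
  · rintro ⟨h, rfl⟩
    rw [comb_comb]
    have : (fun j => comb (D.Rm κ j) (D.rho x y)) = fun _ => (0 : Fin 3 → S) := by
      funext j
      rw [comb_rho, D.comb_Rm hκ, map_zero]
    rw [this, comb_zero]

theorem exact3 (h : Fin D.s → S) (hh : comb h (D.Rm κ) = 0) : h = 0 := by
  let H : ℕ → S := fun j => if h' : j < D.s then h ⟨j, h'⟩ else 0
  have hH : ∀ j : Fin D.s, H j = h j := by
    intro j; simp only [H]; rw [dif_pos j.2]
  have h1 := D.rel_indep D.s H (by
    intro i hi
    have := congrFun hh (Fin.succ ⟨i, by omega⟩)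
    change ∑ j : Fin D.s, h j * D.rel j i = 0 at this
    rw [Finset.sum_range, ← this]
    exact Finset.sum_congr rfl (fun j _ => by rw [hH]))
  funext j
  rw [← hH]
  exact h1 j j.2

theorem ee_zero : D.ee 0 = D.na + D.nb + 1 := by simp [ee]

theorem ee_succ (i : Fin (D.s + 1)) : D.ee i.succ = D.al i + D.t * i + D.c + 1 := by
  simp [ee]

include hxy in
theorem rho_hom (i : Fin (D.s + 2)) (k : Fin 3) : (D.rho x y i k).IsHomogeneous (D.ee i) := by
  refine Fin.cases ?_ (fun i => ?_) i
  · rw [ee_zero]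
    show (psi D.A D.B D.C D.na D.nb D.c D.B (-D.A) 0 k).IsHomogeneous _
    apply psi_hom
    · rw [add_comm]; exact D.B_hom.mul D.A_hom
    · rw [zero_mul]; exact isHomogeneous_zero _ _ _
    · rw [add_comm]; exact D.B_hom.mul (X_pderiv_hom D.A_hom 1)
    · exact D.A_hom.neg.mul (X_pderiv_hom D.B_hom 2)
    · rw [zero_mul]; exact isHomogeneous_zero _ _ _
  · rw [ee_succ]
    show (psi D.A D.B D.C D.na D.nb D.c (- x i) (- y i) (D.m i) k).IsHomogeneous _
    obtain ⟨h1, h2, -⟩ := hxy i (by omega)
    have hb := D.card_bound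
    have ha1 : D.na = D.t + 1 := rfl
    have hb1 : 1 ≤ D.nb := by unfold nb; omega
    have e1 : D.c + (D.al i + D.t * i) - D.na + D.na = D.al i + D.t * i + D.c := by omega
    have e2 : D.c + (D.al i + D.t * i) - D.nb + D.nb = D.al i + D.t * i + D.c := by omega
    apply psi_hom
    · rw [← e1]; exact h1.neg.mul D.A_hom
    · exact (D.m_hom i).mul D.C_hom
    · rw [← e1]; exact h1.neg.mul (X_pderiv_hom D.A_hom 1)
    · rw [← e2]; exact h2.neg.mul (X_pderiv_hom D.B_hom 2)
    · exact (D.m_hom i).mul (X_pderiv_hom D.C_hom 0)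

include hκ in
theorem R_deg (j : Fin D.s) (i : Fin (D.s + 2)) :
    D.Rm κ j i = 0 ∨ ∃ n, 0 < n ∧ (D.Rm κ j i).IsHomogeneous n ∧
      n + (D.deg - 1 + D.ee i) = D.cd j := by
  have hdec := D.dec j j.2
  have hb := D.card_bound
  have ht := D.al_le j j.2.le
  have hts : D.t ≤ D.t * (j + 1) := Nat.le_mul_of_pos_right _ (by omega)
  have hdeg : D.deg = 3 + D.na + D.nb + D.c := rfl
  refine Fin.cases ?_ (fun i => ?_) i
  · right
    refine ⟨D.c + D.al j + D.t * (j + 1) - D.na - D.nb, ?_, (hκ j j.2).2.2.neg, ?_⟩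
    · omega
    · rw [ee_zero, cd]; omega
  · rw [ee_succ]
    by_cases h1 : (i : ℕ) = j + 1
    · right
      refine ⟨D.al j - D.al (j + 1), by omega, ?_, ?_⟩
      · show (D.rel j i).IsHomogeneous _
        rw [h1, rel_succ]
        exact D.du_hom j
      · rw [h1, cd]; omega
    · by_cases h2 : (i : ℕ) = j
      · right
        refine ⟨D.t, by omega, ?_, ?_⟩
        · show (D.rel j i).IsHomogeneous _
          rw [h2, rel_self]
          exact (D.dv_hom j).neg
        · rw [h2, cd, Nat.mul_succ]; omega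
      · left
        exact D.rel_other h1 h2

theorem isMinRes : ∃ ρ R, IsMinRes D.F D.deg D.s D.ee D.cd ρ R := by
  obtain ⟨x, y, hxy⟩ := D.exists_xy
  choose! κ hκ using D.exists_kap x y hxy
  refine ⟨D.rho x y, D.Rm κ, ?_⟩
  constructor
  · intro i k
    exact HomDeg.of (D.rho_hom hxy i k) (by omega)
  · intro j i
    rcases D.R_deg hκ j i with h | ⟨n, _, h2, h3⟩
    · rw [h]; exact HomDeg.zero _ _
    · exact HomDeg.of h2 h3
  · intro i k
    apply constantCoeff_of (D.rho_hom hxy i k)
    unfold ee; split_ifs <;> omega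
  · intro j i
    rcases D.R_deg hκ j i with h | ⟨n, h1, h2, h3⟩
    · rw [h, map_zero]
    · exact constantCoeff_of h2 h1
  · exact D.exact1 hxy
  · exact D.exact2 hxy hκ
  · exact D.exact3

theorem ee_mono (hs : 1 ≤ D.s) : Monotone D.ee := by
  intro i j hij
  have hij' : (i : ℕ) ≤ j := hij
  have hb := D.card_bound
  have ht : 1 ≤ D.t := by
    have := D.dec 0 hs
    rw [D.al0] at this
    omega
  unfold ee
  by_cases hj : (j : ℕ) = 0
  · rw [if_pos hj, if_pos (by omega)]
  · rw [if_neg hj]
    by_cases hi : (i : ℕ) = 0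
    · rw [if_pos hi]
      have h1 := D.deg_mono (Nat.zero_le ((j : ℕ) - 1)) (by omega)
      rw [D.al0] at h1
      omega
    · rw [if_neg hi]
      have := D.deg_mono (i := (i : ℕ) - 1) (j := (j : ℕ) - 1) (by omega) (by omega)
      omega

theorem cd_mono : Monotone D.cd := by
  intro i j hij
  have hij' : (i : ℕ) ≤ j := hij
  unfold cd
  have h := D.deg_mono hij' j.2.le
  rw [Nat.mul_succ, Nat.mul_succ]
  omega

/-- The lines. -/
noncomputable def lines : Multiset S :=
  {X 0, X 1, X 2} + ((Finset.range D.na).val.map (fun p => uu (D.a p)) +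
    (Finset.range D.nb).val.map (fun p => vv (D.b p)) +
    D.N.val.map (fun x => ll (D.b x.2 / D.a x.1)))

theorem lines_prod : D.lines.prod = D.F := by
  unfold lines
  rw [Multiset.prod_add, Multiset.prod_add, Multiset.prod_add]
  have h : ({X 0, X 1, X 2} : Multiset S).prod = X 0 * X 1 * X 2 := by
    simp [mul_assoc]
  rw [h]
  rfl

theorem lines_card : Multiset.card D.lines = D.deg := by
  unfold lines deg
  simp [c]
  omega

theorem lines_hom : ∀ ℓ ∈ D.lines, ℓ.IsHomogeneous 1 := by
  intro ℓ hℓ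
  unfold lines at hℓ
  rw [Multiset.mem_add, Multiset.mem_add, Multiset.mem_add] at hℓ
  rcases hℓ with h | (h | h) | h
  · simp at h
    rcases h with rfl | rfl | rfl <;> exact isHomogeneous_X _ _
  · rw [Multiset.mem_map] at h
    obtain ⟨p, _, rfl⟩ := h
    exact uu_hom _
  · rw [Multiset.mem_map] at h
    obtain ⟨p, _, rfl⟩ := h
    exact vv_hom _
  · rw [Multiset.mem_map] at h
    obtain ⟨p, _, rfl⟩ := h
    exact ll_hom _

end Stair

section comp

variable {t : ℕ} (π : Composition t)

/-- `al`. -/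
def alC (i : ℕ) : ℕ := t - π.sizeUpTo i

theorem alC_len : alC π π.length = 0 := by
  unfold alC; rw [π.sizeUpTo_length]; omega

theorem exists_alC (p : ℕ) : ∃ i, alC π i ≤ p := ⟨π.length, by rw [alC_len]; omega⟩

/-- first index with `al i ≤ p`. -/
def iC (p : ℕ) : ℕ := Nat.find (exists_alC π p)

theorem iC_le {i p : ℕ} (h : alC π i ≤ p) : iC π p ≤ i := Nat.find_min' _ h

theorem iC_spec (p : ℕ) : alC π (iC π p) ≤ p := Nat.find_spec (exists_alC π p)

theorem two_pow_inj {m n : ℕ} (h : (2 : ℂ) ^ m = 2 ^ n) : m = n := by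
  have h1 : ((2 ^ m : ℕ) : ℂ) = ((2 ^ n : ℕ) : ℂ) := by push_cast; exact h
  exact Nat.pow_right_injective le_rfl (Nat.cast_injective h1)

theorem two_pow_ne (n : ℕ) : (2 : ℂ) ^ n ≠ 0 := pow_ne_zero _ two_ne_zero

/-- The staircase of a composition. -/
noncomputable def stair : Stair ℂ where
  s := π.length
  t := t
  al := alC π
  al0 := by unfold alC; rw [π.sizeUpTo_zero]; omega
  als := alC_len π
  dec := by
    intro i hi
    unfold alC
    have h1 := π.sizeUpTo_succ hi
    have h2 := π.blocks_pos' i hi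
    have h3 := π.sizeUpTo_le (i + 1)
    omega
  a := fun p => 2 ^ p
  b := fun q => 2 ^ ((q + 1) * (t + 1))
  ha := fun p q h => two_pow_inj h
  hb := fun p q h => by
    have := two_pow_inj h
    have := Nat.eq_of_mul_eq_mul_right (by omega) this
    omega
  ha0 := fun p => two_pow_ne _
  hb0 := fun p => two_pow_ne _
  ratio := by
    intro p q p' q' hp hp' h
    rw [div_eq_div_iff (two_pow_ne _) (two_pow_ne _), ← pow_add, ← pow_add] at h
    have h1 := two_pow_inj h
    have h2 : p' = p := by
      have := congrArg (fun n => n % (t + 1)) h1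
      simp only [Nat.mul_add_mod_self_right] at this
      rwa [Nat.mod_eq_of_lt hp', Nat.mod_eq_of_lt hp] at this
    refine ⟨h2.symm, ?_⟩
    rw [h2] at h1
    have := Nat.eq_of_mul_eq_mul_right (by omega) (Nat.add_right_cancel h1)
    omega
  lam := fun p => t * iC π p
  lamA := by
    intro p p' hpp
    apply Nat.mul_le_mul_left
    exact iC_le π ((iC_spec π p).trans hpp)
  lam1 := fun i _ p h => Nat.mul_le_mul_left _ (iC_le π h)
  lam2 := fun p => ⟨iC π p, iC_le π (by rw [alC_len]; omega), iC_spec π p, rfl⟩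

theorem hasClass (ht : 1 ≤ t) : HasClass (stair π).F (stair π).deg π := by
  have hs : 1 ≤ (stair π).s := by
    show 1 ≤ π.length
    by_contra h
    have h0 : π.length = 0 := by omega
    have := π.sizeUpTo_length
    rw [h0, π.sizeUpTo_zero] at this
    omega
  obtain ⟨ρ, R, hρR⟩ := (stair π).isMinRes
  refine ⟨?_, (stair π).F_hom, (stair π).F_sqf, (stair π).ee, (stair π).cd, ρ, R,
    (stair π).ee_mono hs, (stair π).cd_mono, hρR, ?_, ?_⟩
  · show 3 ≤ 3 + (stair π).na + (stair π).nb + (stair π).c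
    omega
  · have h0 : (stair π).ee 0 = (stair π).na + (stair π).nb + 1 := (stair π).ee_zero
    have h1 : (stair π).ee 1 = (stair π).al 0 + (stair π).t * 0 + (stair π).c + 1 :=
      (stair π).ee_succ 0
    have h2 := (stair π).al0
    have h3 : (stair π).t = t := rfl
    have h4 : (stair π).deg = 3 + (stair π).na + (stair π).nb + (stair π).c := rfl
    change (stair π).ee 0 + (stair π).ee 1 + 1 = (stair π).deg + t
    omega
  · intro j
    have h1 : (stair π).ee j.succ.succ = (stair π).al (j + 1) + (stair π).t * (j + 1) +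
        (stair π).c + 1 := (stair π).ee_succ j.succ
    have h2 : (stair π).cd j = (stair π).deg + (stair π).c + (stair π).al j +
        (stair π).t * (j + 1) := rfl
    have h3 : (stair π).al j = (stair π).al (j + 1) + π.blocksFun j := by
      show alC π j = alC π (j + 1) + π.blocksFun j
      unfold alC
      have h1 := π.sizeUpTo_succ' j
      have h3 := π.sizeUpTo_le (j + 1)
      have h4 : (j : ℕ) + 1 = j.val + 1 := rfl
      omega
    change (stair π).cd j + 1 = (stair π).deg + (stair π).ee j.succ.succ + π.blocksFun j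
    omega

end comp

end Pool.Agent.V1148.JP
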