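import Mathlib
import Pool.Agent.V1148.PD1

set_option autoImplicit false

/-!
# Modules of projective dimension at most one over a polynomial ring: lifting of socle elements
-/

universe u

namespace Pool.Agent.V1148.PD

open CategoryTheory Abelian MvPolynomial RingTheory.Sequence

variable {K : Type u} [Field K] {n : ℕ}

/-- The list of the variables. -/
noncomputable def vars (K : Type u) [Field K] (n : ℕ) : List (MvPolynomial (Fin n) K) :=
  List.ofFn X

theorem mem_vars_ideal {s : Set (Fin n)} {i : Fin n} (hi : i ∉ s) {p : MvPolynomial (Fin n) K}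
    (h : X i * p ∈ Ideal.span (X '' s : Set (MvPolynomial (Fin n) K))) :
    p ∈ Ideal.span (X '' s : Set (MvPolynomial (Fin n) K)) := by
  rw [mem_ideal_span_X_image] at h ⊢
  intro m hm
  have h1 : m + Finsupp.single i 1 ∈ (X i * p).support := by
    rw [mem_support_iff, mul_comm, coeff_mul_X]
    exact mem_support_iff.1 hm
  obtain ⟨j, hj, hj0⟩ := h _ h1
  refine ⟨j, hj, ?_⟩
  have hij : i ≠ j := by
    rintro rfl
    exact hi hj
  simpa [Finsupp.single_apply, hij] using hj0

theorem ofList_take_vars (i : ℕ) :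
    Ideal.ofList ((vars K n).take i) =
      Ideal.span (X '' {j : Fin n | j.1 < i} : Set (MvPolynomial (Fin n) K)) := by
  unfold Ideal.ofList
  congr 1
  ext p
  simp only [Set.mem_ofPred_eq, vars, List.mem_take_iff_getElem, List.length_ofFn,
    List.getElem_ofFn, Set.mem_image]
  constructor
  · rintro ⟨j, hj, rfl⟩
    exact ⟨⟨j, by omega⟩, by simp; omega, rfl⟩
  · rintro ⟨j, hj, rfl⟩
    exact ⟨j.1, by omega, rfl⟩

theorem vars_isWeaklyRegular (m : ℕ) :
    IsWeaklyRegular (Fin m → MvPolynomial (Fin n) K) (vars K n) := by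
  constructor
  intro i hi
  have hin : i < n := by simpa [vars] using hi
  rw [ofList_take_vars]
  have hX : (vars K n)[i] = X ⟨i, hin⟩ := by simp [vars]
  rw [hX]
  rw [isSMulRegular_iff_right_eq_zero_of_smul]
  intro v hv
  obtain ⟨v, rfl⟩ := Submodule.Quotient.mk_surjective _ v
  rw [← Submodule.Quotient.mk_smul, Submodule.Quotient.mk_eq_zero] at hv
  rw [Submodule.Quotient.mk_eq_zero]
  have key : ∀ w : Fin m → MvPolynomial (Fin n) K,
      w ∈ (Ideal.span (X '' {j : Fin n | j.1 < i} : Set (MvPolynomial (Fin n) K)) •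
        (⊤ : Submodule (MvPolynomial (Fin n) K) (Fin m → MvPolynomial (Fin n) K))) ↔
      ∀ j, w j ∈ Ideal.span (X '' {j : Fin n | j.1 < i} : Set (MvPolynomial (Fin n) K)) := by
    intro w
    constructor
    · intro hw j
      refine Submodule.smul_induction_on hw ?_ ?_
      · intro r hr x _
        exact Ideal.mul_mem_right _ _ hr
      · intro x y hx hy
        exact Ideal.add_mem _ hx hy
    · intro hw
      have : w = ∑ j, w j • (Pi.single j 1 : Fin m → MvPolynomial (Fin n) K) := by
        funext k
        simp [Finset.sum_apply, Pi.single_apply]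
      rw [this]
      exact Submodule.sum_mem _ fun j _ => Submodule.smul_mem_smul (hw j) Submodule.mem_top
  rw [key] at hv ⊢
  intro j
  apply mem_vars_ideal (i := ⟨i, hin⟩) (by simp) (hv j)

/-- The ideal generated by the variables. -/
noncomputable def irr (K : Type u) [Field K] (n : ℕ) : Ideal (MvPolynomial (Fin n) K) :=
  Ideal.span (Set.range X)

theorem one_not_mem_irr : (1 : MvPolynomial (Fin n) K) ∉ irr K n := by
  intro h
  unfold irr at h
  rw [← Set.image_univ, mem_ideal_span_X_image] at h
  obtain ⟨i, _, hi⟩ := h 0 (by simp)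
  simp at hi

theorem irr_smul_lt (m : ℕ) :
    irr K n • (⊤ : Submodule (MvPolynomial (Fin n) K) (Fin (m + 1) → MvPolynomial (Fin n) K))
      < ⊤ := by
  rw [lt_top_iff_ne_top]
  intro h
  have h1 : ∀ w ∈ irr K n • (⊤ : Submodule (MvPolynomial (Fin n) K)
      (Fin (m + 1) → MvPolynomial (Fin n) K)), w 0 ∈ irr K n := by
    intro w hw
    refine Submodule.smul_induction_on hw ?_ ?_
    · intro r hr x _
      exact Ideal.mul_mem_right _ _ hr
    · intro x y hx hy
      exact Ideal.add_mem _ hx hy
  apply one_not_mem_irr (K := K) (n := n)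
  have := h1 (fun _ => 1) (by rw [h]; trivial)
  exact this

theorem vars_isRegular (m : ℕ) :
    IsRegular (Fin (m + 1) → MvPolynomial (Fin n) K) (vars K n) := by
  refine ⟨vars_isWeaklyRegular _, ?_⟩
  intro h
  have h1 : Ideal.ofList (vars K n) ≤ irr K n := by
    unfold Ideal.ofList irr
    apply Ideal.span_mono
    intro p hp
    simp only [Set.mem_ofPred_eq, vars, List.mem_ofFn] at hp
    exact hp
  have h2 := irr_smul_lt (K := K) (n := n) m
  have h3 : Ideal.ofList (vars K n) • (⊤ : Submodule (MvPolynomial (Fin n) K)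
      (Fin (m + 1) → MvPolynomial (Fin n) K)) ≤ irr K n • ⊤ := Submodule.smul_mono_left h1
  exact h2.ne (top_le_iff.1 (h.le.trans h3))

/-- The residue field as a module. -/
noncomputable abbrev resk (K : Type u) [Field K] (n : ℕ) : ModuleCat.{u} (MvPolynomial (Fin n) K) :=
  ModuleCat.of (MvPolynomial (Fin n) K) (MvPolynomial (Fin n) K ⧸ irr K n)

theorem ext_free_succ (m i : ℕ) (hi : i < n) :
    Subsingleton (Ext (resk K n) (ModuleCat.of _ (Fin (m + 1) → MvPolynomial (Fin n) K)) i) := by
  apply ModuleCat.subsingleton_ext_of_exists_isRegular (irr K n) (resk K n) _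
    (ModuleCat.of _ (Fin (m + 1) → MvPolynomial (Fin n) K)) (irr_smul_lt m) (vars K n) _
    (vars_isRegular m) i
  · simpa [vars] using hi
  · rw [Module.support_eq_zeroLocus]
    rw [Ideal.annihilator_quotient]
  · intro r hr
    simp only [vars, List.mem_ofFn] at hr
    obtain ⟨j, rfl⟩ := hr
    exact Ideal.subset_span ⟨j, rfl⟩

end Pool.Agent.V1148.PD
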