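import Mathlib
import Pool.Agent.V1148.PD2

set_option autoImplicit false

/-!
# Modules of projective dimension at most one over a polynomial ring: lifting of socle elements
-/

universe u

namespace Pool.Agent.V1148.PD

open CategoryTheory Abelian MvPolynomial

variable {K : Type u} [Field K] {n : ℕ}

theorem ext_retract {C : Type*} [Category C] [Abelian C] [HasExt.{u} C] {X Y Z : C} (s : Z ⟶ Y)
    (r : Y ⟶ Z) (h : s ≫ r = 𝟙 Z) (i : ℕ) (hY : Subsingleton (Ext.{u} X Y i)) :
    Subsingleton (Ext.{u} X Z i) := by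
  refine ⟨fun a b => ?_⟩
  have key : ∀ a : Ext.{u} X Z i, a = 0 := by
    intro a
    rw [← a.comp_mk₀_id, ← h, ← Ext.mk₀_comp_mk₀, ← Ext.comp_assoc_of_third_deg_zero,
      Subsingleton.elim (a.comp (Ext.mk₀ s) (add_zero i)) 0, Ext.zero_comp]
  rw [key a, key b]

/-- Finitely generated projective modules have depth `n`. -/
theorem ext_projective (P : Type u) [AddCommGroup P] [Module (MvPolynomial (Fin n) K) P]
    [Module.Finite (MvPolynomial (Fin n) K) P] [Module.Projective (MvPolynomial (Fin n) K) P]
    (i : ℕ) (hi : i < n) :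
    Subsingleton (Ext (resk K n) (ModuleCat.of (MvPolynomial (Fin n) K) P) i) := by
  obtain ⟨m, f, hf⟩ := Module.Finite.exists_fin' (MvPolynomial (Fin n) K) P
  let g : (Fin (m + 1) → MvPolynomial (Fin n) K) →ₗ[MvPolynomial (Fin n) K] P :=
    f ∘ₗ LinearMap.funLeft _ _ Fin.castSucc
  have hg : Function.Surjective g := by
    intro p
    obtain ⟨v, rfl⟩ := hf p
    refine ⟨Fin.snoc (α := fun _ => MvPolynomial (Fin n) K) v 0, ?_⟩
    change f _ = _
    congr 1
    funext j
    simp [LinearMap.funLeft]
  obtain ⟨s, hs⟩ := Module.projective_lifting_property g LinearMap.id hg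
  apply ext_retract (Y := ModuleCat.of (MvPolynomial (Fin n) K)
    (Fin (m + 1) → MvPolynomial (Fin n) K)) (ModuleCat.ofHom s) (ModuleCat.ofHom g) _ i
    (ext_free_succ m i hi)
  rw [← ModuleCat.ofHom_comp, hs]
  rfl

/-- A finitely generated module of projective dimension at most one has depth at least
`n - 1`. -/
theorem ext_of_pd (D : Type u) [AddCommGroup D] [Module (MvPolynomial (Fin n) K) D]
    [Module.Finite (MvPolynomial (Fin n) K) D]
    (h : HasProjectiveDimensionLT (ModuleCat.of (MvPolynomial (Fin n) K) D) 2) (i : ℕ)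
    (hi : i + 1 < n) :
    Subsingleton (Ext (resk K n) (ModuleCat.of (MvPolynomial (Fin n) K) D) i) := by
  obtain ⟨m, f, hf⟩ := Module.Finite.exists_fin' (MvPolynomial (Fin n) K) D
  have hS := LinearMap.shortExact_shortComplexKer hf
  have h1 : Projective f.shortComplexKer.X₂ :=
    (IsProjective.iff_projective (R := MvPolynomial (Fin n) K) (Fin m → MvPolynomial (Fin n) K)).1
      inferInstance
  have h2 := (hS.hasProjectiveDimensionLT_X₃_iff 0 h1).1 h
  have h3 : Projective f.shortComplexKer.X₁ := projective_iff_hasProjectiveDimensionLT_one.2 h2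
  have h4 : Module.Projective (MvPolynomial (Fin n) K) (LinearMap.ker f) :=
    (IsProjective.iff_projective _).2 h3
  have h5 : Subsingleton (Ext (resk K n) f.shortComplexKer.X₁ (i + 1)) :=
    ext_projective (LinearMap.ker f) (i + 1) hi
  have h6 : Subsingleton (Ext (resk K n) f.shortComplexKer.X₂ i) :=
    ext_projective (Fin m → MvPolynomial (Fin n) K) i (by omega)
  refine ⟨fun a b => ?_⟩
  have key : ∀ a : Ext (resk K n) f.shortComplexKer.X₃ i, a = 0 := by
    intro a
    obtain ⟨c, hc⟩ := Ext.covariant_sequence_exact₃ (resk K n) hS a (n₁ := i + 1) rfl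
      (Subsingleton.elim _ _)
    rw [← hc, Subsingleton.elim c 0, Ext.zero_comp]
  exact (key a).trans (key b).symm

/-- Socle elements of the cokernel of a map `j : T → W` from a free module lift if the kernel of
`j` has projective dimension at most one and `W` has no socle. -/
theorem socle_lift (hn : 4 ≤ n) {T W : Type u} [AddCommGroup T]
    [Module (MvPolynomial (Fin n) K) T] [Module.Finite (MvPolynomial (Fin n) K) T]
    [Module.Free (MvPolynomial (Fin n) K) T] [AddCommGroup W] [Module (MvPolynomial (Fin n) K) W]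
    (j : T →ₗ[MvPolynomial (Fin n) K] W)
    (hpd : HasProjectiveDimensionLT (ModuleCat.of (MvPolynomial (Fin n) K) (LinearMap.ker j)) 2)
    (hW : ∀ w : W, (∀ i, (X i : MvPolynomial (Fin n) K) • w = 0) → w = 0) (w : W)
    (hw : ∀ i, (X i : MvPolynomial (Fin n) K) • w ∈ LinearMap.range j) :
    w ∈ LinearMap.range j := by
  -- `Ext^1(k, range j) = 0`
  have hS := LinearMap.shortExact_shortComplexKer j.surjective_rangeRestrict
  have hker : LinearMap.ker j.rangeRestrict = LinearMap.ker j := by
    ext x
    simp [LinearMap.mem_ker]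
  have h2 : Subsingleton (Ext (resk K n) j.rangeRestrict.shortComplexKer.X₁ 2) := by
    have h2' := ext_of_pd (LinearMap.ker j) hpd 2 (by omega)
    have e := (LinearEquiv.ofEq _ _ hker).toModuleIso
    exact ext_retract e.hom e.inv e.hom_inv_id 2 h2'
  have h1 : Subsingleton (Ext (resk K n) j.rangeRestrict.shortComplexKer.X₂ 1) :=
    ext_projective T 1 (by omega)
  have h3 : Subsingleton (Ext (resk K n)
      (ModuleCat.of (MvPolynomial (Fin n) K) (LinearMap.range j)) 1) := by
    refine ⟨fun a b => ?_⟩
    have key : ∀ a : Ext (resk K n) j.rangeRestrict.shortComplexKer.X₃ 1, a = 0 := by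
      intro a
      obtain ⟨c, hc⟩ := Ext.covariant_sequence_exact₃ (resk K n) hS a (n₁ := 2) rfl
        (Subsingleton.elim _ _)
      rw [← hc, Subsingleton.elim c 0, Ext.zero_comp]
    exact (key a).trans (key b).symm
  -- the short exact sequence `0 → range j → W → W / range j → 0`
  have hT := shortExact_of (LinearMap.range j).subtype (LinearMap.range j).mkQ
    Subtype.val_injective (Submodule.mkQ_surjective _) (by
      intro x
      rw [Submodule.mkQ_apply, Submodule.Quotient.mk_eq_zero]
      simp)
  -- the homomorphism `k → W / range j`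
  have hmem : irr K n ≤ LinearMap.ker
      (LinearMap.toSpanSingleton (MvPolynomial (Fin n) K) (W ⧸ LinearMap.range j)
        ((LinearMap.range j).mkQ w)) := by
    unfold irr
    rw [Ideal.span_le]
    rintro _ ⟨i, rfl⟩
    rw [SetLike.mem_coe, LinearMap.mem_ker, LinearMap.toSpanSingleton_apply, ← map_smul,
      Submodule.mkQ_apply, Submodule.Quotient.mk_eq_zero]
    exact hw i
  let c : (MvPolynomial (Fin n) K ⧸ irr K n) →ₗ[MvPolynomial (Fin n) K]
      (W ⧸ LinearMap.range j) := Submodule.liftQ (irr K n) _ hmem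
  obtain ⟨x, hx⟩ := Ext.covariant_sequence_exact₃ (resk K n) hT (Ext.mk₀ (ModuleCat.ofHom c))
    (n₁ := 1) rfl (Subsingleton.elim _ _)
  obtain ⟨y, rfl⟩ := Ext.homEquiv₀.symm.surjective x
  rw [Ext.homEquiv₀_symm_apply, Ext.mk₀_comp_mk₀] at hx
  have hy := (Ext.mk₀_bijective _ _).1 hx
  have h7 : (LinearMap.range j).mkQ (y.hom (Submodule.Quotient.mk 1)) =
      (LinearMap.range j).mkQ w := by
    have := congrArg (fun z => z.hom (Submodule.Quotient.mk 1)) hy
    simp only [ModuleCat.hom_comp, LinearMap.comp_apply] at this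
    refine this.trans ?_
    change c (Submodule.Quotient.mk 1) = _
    refine (Submodule.liftQ_apply (irr K n) _ 1).trans ?_
    rw [LinearMap.toSpanSingleton_apply, one_smul]
  have h8 : y.hom (Submodule.Quotient.mk 1) = 0 := by
    apply hW
    intro i
    rw [← map_smul]
    have : (X i : MvPolynomial (Fin n) K) • (Submodule.Quotient.mk 1 :
        MvPolynomial (Fin n) K ⧸ irr K n) = 0 := by
      rw [← Submodule.Quotient.mk_smul, Submodule.Quotient.mk_eq_zero, smul_eq_mul, mul_one]
      exact Ideal.subset_span ⟨i, rfl⟩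
    rw [this, map_zero]
  rw [h8, map_zero, eq_comm, Submodule.mkQ_apply, Submodule.Quotient.mk_eq_zero] at h7
  exact h7

end Pool.Agent.V1148.PD
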