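import Mathlib
import Pool.Agent.V1148.Det4

set_option autoImplicit false

/-!
# Adding a coordinate hyperplane
-/

namespace Pool.Agent.V1148

open MvPolynomial

variable {K : Type*} [Field K] {n l l' : ℕ}

/-- The closure operator is determined by the independent sets. -/
theorem closure_of_indep {A : Fin n → Fin l → K} {B : Fin n → Fin l' → K}
    (h : ∀ t : Set (Fin n), LinearIndepOn K A t ↔ LinearIndepOn K B t) (s : Set (Fin n))
    (i : Fin n) : ⨅ j ∈ s, hyper (A j) ≤ hyper (A i) ↔ ⨅ j ∈ s, hyper (B j) ≤ hyper (B i) := by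
  rw [hyper_iff_span, hyper_iff_span]
  obtain ⟨b, hbs, -, hspan, hb⟩ := exists_linearIndepOn_extension
    (linearIndepOn_empty K A) (Set.empty_subset s)
  have hA : Submodule.span K (A '' s) = Submodule.span K (A '' b) := by
    apply le_antisymm
    · rw [Submodule.span_le]
      exact hspan
    · exact Submodule.span_mono (Set.image_mono hbs)
  have hb' : LinearIndepOn K B b := (h b).1 hb
  have hB : Submodule.span K (B '' s) = Submodule.span K (B '' b) := by
    apply le_antisymm
    · rw [Submodule.span_le]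
      rintro _ ⟨j, hj, rfl⟩
      rw [SetLike.mem_coe, hb'.mem_span_iff, ← h, ← hb.mem_span_iff, ← hA]
      exact Submodule.subset_span ⟨j, hj, rfl⟩
    · exact Submodule.span_mono (Set.image_mono hbs)
  rw [hA, hB, hb.mem_span_iff, hb'.mem_span_iff, h]

/-- `A'` is the product of `A` with the arrangement `{0}` in the line. -/
structure IsCone (A : Fin n → Fin l → K) (A' : Fin (n + 1) → Fin (l + 1) → K) : Prop where
  h1 : ∀ i j, A' (Fin.castSucc i) (Fin.castSucc j) = A i j
  h2 : ∀ i, A' (Fin.castSucc i) (Fin.last l) = 0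
  h3 : ∀ j, A' (Fin.last n) (Fin.castSucc j) = 0
  h4 : A' (Fin.last n) (Fin.last l) ≠ 0

theorem IsCone.mem {A : Fin n → Fin l → K} {A' : Fin (n + 1) → Fin (l + 1) → K}
    (h : IsCone A A') (x : Fin (l + 1) → K) (i : Fin n) :
    x ∈ hyper (A' (Fin.castSucc i)) ↔ (fun j => x (Fin.castSucc j)) ∈ hyper (A i) := by
  rw [mem_hyper, mem_hyper, Fin.sum_univ_castSucc, h.h2, zero_mul, add_zero]
  simp only [h.h1]

theorem IsCone.mem_last {A : Fin n → Fin l → K} {A' : Fin (n + 1) → Fin (l + 1) → K}
    (h : IsCone A A') (x : Fin (l + 1) → K) :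
    x ∈ hyper (A' (Fin.last n)) ↔ x (Fin.last l) = 0 := by
  rw [mem_hyper, Fin.sum_univ_castSucc]
  simp only [h.h3, zero_mul, Finset.sum_const_zero, zero_add, mul_eq_zero, h.h4, false_or]

theorem IsCone.closure {A : Fin n → Fin l → K} {A' : Fin (n + 1) → Fin (l + 1) → K}
    (h : IsCone A A') (s : Set (Fin (n + 1))) (i : Fin n) :
    ⨅ j ∈ s, hyper (A' j) ≤ hyper (A' (Fin.castSucc i)) ↔
      ⨅ j ∈ Fin.castSucc ⁻¹' s, hyper (A j) ≤ hyper (A i) := by
  constructor
  · intro h1 x hx
    rw [Submodule.mem_iInf] at hx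
    have hx' : ∀ j, Fin.castSucc j ∈ s → x ∈ hyper (A j) :=
      fun j hj => (Submodule.mem_iInf _).1 (hx j) hj
    have h2 : (Fin.snoc x 0 : Fin (l + 1) → K) ∈ ⨅ j ∈ s, hyper (A' j) := by
      rw [Submodule.mem_iInf]
      intro j
      rw [Submodule.mem_iInf]
      refine Fin.lastCases ?_ (fun j => ?_) j
      · intro _
        rw [h.mem_last]
        simp
      · intro hj
        rw [h.mem]
        simpa using hx' j hj
    have h3 := h1 h2
    rw [h.mem] at h3
    simpa using h3
  · intro h1 x hx
    rw [Submodule.mem_iInf] at hx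
    have hx' : ∀ j, j ∈ s → x ∈ hyper (A' j) :=
      fun j hj => (Submodule.mem_iInf _).1 (hx j) hj
    rw [h.mem]
    apply h1
    rw [Submodule.mem_iInf]
    intro j
    rw [Submodule.mem_iInf]
    intro hj
    rw [← h.mem]
    exact hx' _ hj

theorem IsCone.closure_last {A : Fin n → Fin l → K} {A' : Fin (n + 1) → Fin (l + 1) → K}
    (h : IsCone A A') (s : Set (Fin (n + 1))) :
    ⨅ j ∈ s, hyper (A' j) ≤ hyper (A' (Fin.last n)) ↔ Fin.last n ∈ s := by
  constructor
  · intro h1
    by_contra hs
    have h2 : (Pi.single (Fin.last l) 1 : Fin (l + 1) → K) ∈ ⨅ j ∈ s, hyper (A' j) := by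
      rw [Submodule.mem_iInf]
      intro j
      rw [Submodule.mem_iInf]
      refine Fin.lastCases ?_ (fun j => ?_) j
      · intro hj
        exact absurd hj hs
      · intro hj
        rw [h.mem]
        have : (fun j : Fin l => (Pi.single (Fin.last l) 1 : Fin (l + 1) → K) (Fin.castSucc j)) =
            0 := by
          funext j
          simp [Pi.single_apply, Fin.castSucc_ne_last]
        rw [this]
        exact Submodule.zero_mem _
    have h3 := h1 h2
    rw [h.mem_last] at h3
    simp at h3
  · intro hs x hx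
    rw [Submodule.mem_iInf] at hx
    exact (Submodule.mem_iInf _).1 (hx _) hs

/-- Products with the line arrangement of arrangements with the same matroid. -/
theorem IsCone.lattice {A B : Fin n → Fin l → K} {A' B' : Fin (n + 1) → Fin (l + 1) → K}
    (hA : IsCone A A') (hB : IsCone B B')
    (hAs : Submodule.span K (Set.range A) = ⊤) (hBs : Submodule.span K (Set.range B) = ⊤)
    (h : ∀ e : Fin l ↪o Fin n, (Matrix.of fun i j => A (e i) j).det = 0 ↔
      (Matrix.of fun i j => B (e i) j).det = 0) :
    Nonempty (IntersectionLattice A' ≃o IntersectionLattice B') := by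
  have hi : ∀ t : Set (Fin n), LinearIndepOn K A t ↔ LinearIndepOn K B t := by
    intro t
    rw [indep_iff_bases hAs, indep_iff_bases hBs]
    simp only [Ne, h]
  apply lattice_iso_of_closure
  intro s i
  refine Fin.lastCases ?_ (fun i => ?_) i
  · rw [hA.closure_last, hB.closure_last]
  · rw [hA.closure, hB.closure]
    exact closure_of_indep hi _ _

/-- Minors of integer vectors in four-space. -/
theorem zc_minors [CharZero K] {Z Y : Fin n → Fin 4 → ℤ}
    (h : ∀ i j : Fin n, i < j → ∀ k, j < k → ∀ m, k < m →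
      (det4 (Z i) (Z j) (Z k) (Z m) = 0 ↔ det4 (Y i) (Y j) (Y k) (Y m) = 0))
    (e : Fin 4 ↪o Fin n) :
    (Matrix.of fun i j => (zc Z : Fin n → Fin 4 → K) (e i) j).det = 0 ↔
      (Matrix.of fun i j => (zc Y : Fin n → Fin 4 → K) (e i) j).det = 0 := by
  have key : ∀ W : Fin n → Fin 4 → ℤ, (Matrix.of fun i j => (zc W : Fin n → Fin 4 → K) (e i) j).det
      = ((det4 (W (e 0)) (W (e 1)) (W (e 2)) (W (e 3)) : ℤ) : K) := by
    intro W
    rw [det_eq_det4]
    simp only [det4, d3, zc]
    push_cast
    ring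
  rw [key, key, Int.cast_eq_zero, Int.cast_eq_zero]
  exact h _ _ (e.strictMono (by decide)) _ (e.strictMono (by decide)) _
    (e.strictMono (by decide))

end Pool.Agent.V1148
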